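import Mathlib
import Pool.Agent.Lib.MP_f91407_an.Defs

section

/-!
# Real-rooted polynomials with nonnegative coefficients: factorisation and log-concavity
-/

namespace Pool.Agent.Lib.MP_f91407_an

open Polynomial

/-- A real polynomial with nonnegative coefficients and only real zeros is a positive multiple of
a product of factors `X + ω` with `ω ≥ 0`. -/
theorem exists_factor (P : ℝ[X]) (h0 : P ≠ 0) (hnn : ∀ i, 0 ≤ P.coeff i)
    (hr : ∀ z : ℂ, aeval z P = 0 → z.im = 0) :
    ∃ s : Multiset ℝ, (∀ ω ∈ s, 0 ≤ ω) ∧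
      P = C P.leadingCoeff * (s.map fun ω => X + C ω).prod := by
  have hsp : P.Splits := by
    refine Splits.of_splits_map (algebraMap ℝ ℂ) (IsAlgClosed.splits _) ?_
    intro a ha
    have ha' : aeval a P = 0 := by
      have := (mem_roots'.mp ha).2
      simpa [IsRoot, eval_map, aeval_def] using this
    have := hr a ha'
    exact ⟨a.re, by apply Complex.ext <;> simp [this]⟩
  have hroot : ∀ r ∈ P.roots, r ≤ 0 := by
    intro r hrr
    by_contra hpos
    push Not at hpos
    have h1 : P.eval r = 0 := (mem_roots'.mp hrr).2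
    rw [eval_eq_sum_range] at h1
    have h2 := (Finset.sum_eq_zero_iff_of_nonneg (fun i _ => mul_nonneg (hnn i)
      (pow_nonneg hpos.le i))).mp h1 P.natDegree (by simp)
    have h3 : P.coeff P.natDegree ≠ 0 := by simpa using h0
    have h4 : r ^ P.natDegree ≠ 0 := (pow_pos hpos _).ne'
    exact (mul_ne_zero h3 h4) h2
  refine ⟨P.roots.map fun r => -r, ?_, ?_⟩
  · intro ω hω
    obtain ⟨r, hr1, rfl⟩ := Multiset.mem_map.mp hω
    linarith [hroot r hr1]
  · conv_lhs => rw [hsp.eq_prod_roots]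
    rw [Multiset.map_map]
    congr 3
    funext r
    simp [sub_eq_add_neg]

/-- `TN2 P`: the coefficients of `P` are nonnegative and log-concave without internal zeros. -/
def TN2 (P : ℝ[X]) : Prop :=
  (∀ i, 0 ≤ P.coeff i) ∧
    ∀ i j, i ≤ j → P.coeff i * P.coeff (j + 1) ≤ P.coeff (i + 1) * P.coeff j

theorem TN2.mul_X_add_C {P : ℝ[X]} (hP : TN2 P) {ω : ℝ} (hω : 0 ≤ ω) : TN2 (P * (X + C ω)) := by
  obtain ⟨h0, h1⟩ := hP
  have hc0 : (P * (X + C ω)).coeff 0 = P.coeff 0 * ω := by
    rw [mul_add, coeff_add, coeff_mul_C]; simp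
  have hcs : ∀ i, (P * (X + C ω)).coeff (i + 1) = P.coeff i + P.coeff (i + 1) * ω := by
    intro i
    rw [mul_add, coeff_add, coeff_mul_C, coeff_mul_X]
  constructor
  · intro i
    cases i with
    | zero => rw [hc0]; exact mul_nonneg (h0 _) hω
    | succ i => rw [hcs]; exact add_nonneg (h0 _) (mul_nonneg (h0 _) hω)
  · intro i j hij
    cases i with
    | zero =>
      cases j with
      | zero => exact le_of_eq (mul_comm _ _)
      | succ j =>
        rw [hc0, hcs, hcs, hcs]
        have e1 := h1 0 (j + 1) (by omega)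
        have e2 := h1 0 j (by omega)
        have p1 := mul_nonneg (h0 0) (h0 j)
        have p2 := mul_nonneg (mul_nonneg (h0 0) hω) (h0 (j + 1))
        have e3 : P.coeff 0 * P.coeff (j + 1) * ω ≤ P.coeff 1 * P.coeff j * ω :=
          mul_le_mul_of_nonneg_right (by simpa using e2) hω
        have e4 : P.coeff 0 * P.coeff (j + 1 + 1) * (ω * ω) ≤
            P.coeff 1 * P.coeff (j + 1) * (ω * ω) :=
          mul_le_mul_of_nonneg_right (by simpa using e1) (mul_nonneg hω hω)
        simp only [zero_add]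
        nlinarith [e3, e4, p1]
    | succ i =>
      cases j with
      | zero => omega
      | succ j =>
        rw [hcs, hcs, hcs, hcs]
        have e1 := h1 i j (by omega)
        have e2 := h1 (i + 1) (j + 1) (by omega)
        have e3 : P.coeff i * P.coeff (j + 1 + 1) ≤ P.coeff (i + 1 + 1) * P.coeff j := by
          have a1 := h1 i (j + 1) (by omega)
          rcases Nat.eq_or_lt_of_le (show i ≤ j by omega) with h | h
          · subst h
            nlinarith [h1 i (i + 1) (by omega), h0 i, h0 (i + 1), h0 (i + 2)]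
          · have a2 := h1 (i + 1) j (by omega)
            linarith
        have e4 := mul_le_mul_of_nonneg_right e3 hω
        have e5 := mul_le_mul_of_nonneg_right e2 (mul_nonneg hω hω)
        nlinarith [e1, e4, e5]

theorem TN2.C_mul {P : ℝ[X]} (hP : TN2 P) {c : ℝ} (hc : 0 ≤ c) : TN2 (C c * P) := by
  obtain ⟨h0, h1⟩ := hP
  constructor
  · intro i; rw [coeff_C_mul]; exact mul_nonneg hc (h0 i)
  · intro i j hij
    simp only [coeff_C_mul]
    have := mul_le_mul_of_nonneg_left (h1 i j hij) (mul_nonneg hc hc)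
    nlinarith [this]

theorem TN2_prod (s : Multiset ℝ) (hs : ∀ ω ∈ s, 0 ≤ ω) :
    TN2 (s.map fun ω => X + C ω).prod := by
  induction s using Multiset.induction_on with
  | empty =>
    simp only [Multiset.map_zero, Multiset.prod_zero]
    constructor
    · intro i; rw [coeff_one]; split_ifs <;> norm_num
    · intro i j hij
      have : (1 : ℝ[X]).coeff (j + 1) = 0 := by rw [coeff_one]; simp
      rw [this, mul_zero]
      rw [coeff_one, coeff_one]; split_ifs <;> norm_num
  | cons a s ih =>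
    rw [Multiset.map_cons, Multiset.prod_cons, mul_comm]
    exact (ih fun ω hω => hs ω (Multiset.mem_cons_of_mem hω)).mul_X_add_C
      (hs a (Multiset.mem_cons_self a s))

/-- Log-concavity of the coefficients of a real-rooted polynomial with nonnegative coefficients. -/
theorem TN2_of_realRooted (P : ℝ[X]) (hnn : ∀ i, 0 ≤ P.coeff i)
    (hr : ∀ z : ℂ, aeval z P = 0 → z.im = 0) : TN2 P := by
  by_cases h0 : P = 0
  · subst h0
    exact ⟨fun i => by simp, fun i j _ => by simp⟩
  · obtain ⟨s, hs, hP⟩ := exists_factor P h0 hnn hr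
    rw [hP]
    exact (TN2_prod s hs).C_mul (hnn _)

end Pool.Agent.Lib.MP_f91407_an
end

section

/-!
# First consequences: positivity, log-concavity along binomial sequences, monotonicity
-/

namespace Pool.Agent.Lib.MP_f91407_an

open Polynomial NNReal

/-- The polynomial `∑_{j ≤ n} a_j z^j` has only real zeros. -/
def RRn (n : ℕ) (a : ℕ → ℝ) : Prop :=
  ∀ z : ℂ, ∑ j ∈ Finset.range (n + 1), ((a j : ℝ) : ℂ) * z ^ j = 0 → z.im = 0

/-- The property of `MP_f91407_an` for a real function which is nonnegative. -/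
structure PresR (f : ℝ → ℝ) : Prop where
  zero : f 0 = 0
  nonneg : ∀ x, 0 ≤ f x
  pres : ∀ (n : ℕ) (a : ℕ → ℝ), (∀ j, 0 ≤ a j) → RRn n a → RRn n fun j => f (a j)

theorem Preserves.presR {F : ℝ≥0 → ℝ≥0} (hF : Preserves F) :
    PresR fun x => ((F x.toNNReal : ℝ≥0) : ℝ) := by
  refine ⟨by simp [hF.1], fun x => NNReal.coe_nonneg _, ?_⟩
  intro n a ha hr
  have h1 : InP n fun j : Fin (n + 1) => (a j).toNNReal := by
    intro z hz
    apply hr z
    rw [Finset.sum_range]
    rw [← hz]
    refine Finset.sum_congr rfl fun j _ => ?_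
    rw [Real.coe_toNNReal _ (ha _)]
  have h2 := hF.2 n _ h1
  intro z hz
  apply h2 z
  rw [Finset.sum_range] at hz
  rw [← hz]

/-- The polynomial with coefficients `a_0, …, a_n`. -/
noncomputable def poly (n : ℕ) (a : ℕ → ℝ) : ℝ[X] :=
  ∑ j ∈ Finset.range (n + 1), C (a j) * X ^ j

theorem coeff_poly (n : ℕ) (a : ℕ → ℝ) (i : ℕ) :
    (poly n a).coeff i = if i ≤ n then a i else 0 := by
  unfold poly
  rw [finsetSum_coeff]
  simp only [coeff_C_mul_X_pow]
  rw [Finset.sum_ite_eq]
  simp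

theorem aeval_poly (n : ℕ) (a : ℕ → ℝ) (z : ℂ) :
    aeval z (poly n a) = ∑ j ∈ Finset.range (n + 1), ((a j : ℝ) : ℂ) * z ^ j := by
  simp [poly, map_sum]

theorem eval_poly (n : ℕ) (a : ℕ → ℝ) (x : ℝ) :
    (poly n a).eval x = ∑ j ∈ Finset.range (n + 1), a j * x ^ j := by
  simp [poly, eval_finsetSum]

theorem RRn.tn2 {n : ℕ} {a : ℕ → ℝ} (ha : ∀ j, 0 ≤ a j) (hr : RRn n a) : TN2 (poly n a) := by
  apply TN2_of_realRooted
  · intro i; rw [coeff_poly]; split_ifs
    · exact ha i
    · exact le_rfl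
  · intro z hz
    rw [aeval_poly] at hz
    exact hr z hz

/-- The binomial sequences `c * C(n,j) * μ^j`. -/
noncomputable def bseq (n : ℕ) (c μ : ℝ) (j : ℕ) : ℝ := c * n.choose j * μ ^ j

theorem bseq_nonneg {n : ℕ} {c μ : ℝ} (hc : 0 ≤ c) (hμ : 0 ≤ μ) (j : ℕ) : 0 ≤ bseq n c μ j := by
  unfold bseq; positivity

theorem RRn_bseq (n : ℕ) {c μ : ℝ} (hc : 0 < c) : RRn n (bseq n c μ) := by
  intro z hz
  have h1 : ∑ j ∈ Finset.range (n + 1), ((bseq n c μ j : ℝ) : ℂ) * z ^ j =
      (c : ℂ) * ((μ : ℂ) * z + 1) ^ n := by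
    rw [add_pow, Finset.mul_sum]
    refine Finset.sum_congr rfl fun j _ => ?_
    simp only [bseq]
    push_cast
    rw [mul_pow]
    ring
  rw [h1] at hz
  have hc' : (c : ℂ) ≠ 0 := by exact_mod_cast hc.ne'
  have h2 : (μ : ℂ) * z + 1 = 0 := by
    rcases mul_eq_zero.mp hz with h | h
    · exact absurd h hc'
    · exact eq_zero_of_pow_eq_zero h
  have hμ : μ ≠ 0 := by
    rintro rfl
    simp at h2
  have h3 := congrArg Complex.im h2
  simp at h3
  exact h3.resolve_left hμ

variable {f : ℝ → ℝ}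

theorem PresR.pos (hf : PresR f) {x : ℝ} (hx : 0 < x) : 0 < f x := by
  have h := hf.pres 0 (fun _ => x) (fun _ => hx.le) (by
    intro z hz
    simp at hz
    exact absurd hz hx.ne')
  rcases (hf.nonneg x).lt_or_eq with h1 | h1
  · exact h1
  · exfalso
    have := h Complex.I (by simp [← h1])
    simp at this

/-- Log-concavity of `f` along binomial sequences. -/
theorem PresR.tn2_bseq (hf : PresR f) {n : ℕ} {c μ : ℝ} (hc : 0 < c) (hμ : 0 ≤ μ) {i j : ℕ}
    (hij : i ≤ j) (hj : j + 1 ≤ n) :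
    f (bseq n c μ i) * f (bseq n c μ (j + 1)) ≤ f (bseq n c μ (i + 1)) * f (bseq n c μ j) := by
  have h := (RRn.tn2 (fun j => hf.nonneg _)
    (hf.pres n _ (bseq_nonneg hc.le hμ) (RRn_bseq n hc))).2 i j hij
  rw [coeff_poly, coeff_poly, coeff_poly, coeff_poly, if_pos (by omega), if_pos hj,
    if_pos (by omega), if_pos (by omega)] at h
  exact h

/-- Quadratic polynomials: `4 f(x) f(w) ≤ f(b)^2` if `4 x w ≤ b^2`. -/
theorem PresR.quad (hf : PresR f) {x b w : ℝ} (hx : 0 < x) (hb : 0 < b) (hw : 0 < w)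
    (h : 4 * x * w ≤ b ^ 2) : 4 * f x * f w ≤ f b ^ 2 := by
  have hr : RRn 2 (fun j => if j = 0 then x else if j = 1 then b else w) := by
    intro z hz
    simp [Finset.sum_range_succ] at hz
    have h1 := congrArg Complex.re hz
    have h2 := congrArg Complex.im hz
    simp [pow_two] at h1 h2
    by_contra him
    have h3 : b + 2 * w * z.re = 0 := by
      have : z.im * (b + 2 * w * z.re) = 0 := by linarith [h2]
      exact (mul_eq_zero.mp this).resolve_left him
    have h4 : z.re = -b / (2 * w) := by field_simp; linarith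
    have h5 : x = b ^ 2 / (4 * w) + w * z.im ^ 2 := by
      rw [h4] at h1
      field_simp at h1 ⊢
      nlinarith [h1]
    have h6 : 4 * x * w = b ^ 2 + 4 * w ^ 2 * z.im ^ 2 := by
      rw [h5]; field_simp
    have h7 : 0 < w ^ 2 * z.im ^ 2 := by positivity
    nlinarith
  have hr2 := hf.pres 2 _ (by intro j; split_ifs <;> positivity) hr
  by_contra hlt
  push Not at hlt
  have fx := hf.pos hx
  have fb := hf.pos hb
  have fw := hf.pos hw
  set D := 4 * f x * f w - f b ^ 2 with hD
  have hDpos : 0 < D := by linarith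
  have hs : Real.sqrt D ^ 2 = D := Real.sq_sqrt hDpos.le
  have hz := hr2 (⟨-f b / (2 * f w), Real.sqrt D / (2 * f w)⟩ : ℂ) (by
    simp [Finset.sum_range_succ]
    apply Complex.ext
    · simp [pow_two]
      field_simp
      nlinarith
    · simp [pow_two]
      field_simp
      ring)
  simp at hz
  rcases hz with h1 | h1
  · rw [Real.sqrt_eq_zero hDpos.le] at h1
    exact hDpos.ne' h1
  · exact fw.ne' h1

theorem PresR.two_mul (hf : PresR f) {x b : ℝ} (hx : 0 < x) (hb : 2 * x ≤ b) :
    2 * f x ≤ f b := by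
  have h := hf.quad hx (by linarith) hx (b := b) (by nlinarith)
  have fx := hf.pos hx
  have fb := hf.pos (show 0 < b by linarith)
  nlinarith [abs_le_of_sq_le_sq' (by nlinarith : (2 * f x) ^ 2 ≤ f b ^ 2) fb.le]

/-- The middle three coefficients of a binomial sequence of even degree. -/
theorem PresR.mid (hf : PresR f) {x w : ℝ} (hx : 0 < x) (hw : 0 < w) (m : ℕ) :
    f x * f w ≤ f (Real.sqrt (x * w) * ((m + 2) / (m + 1))) ^ 2 := by
  set μ := Real.sqrt (w / x) with hμ
  have hμ0 : 0 < μ := Real.sqrt_pos.mpr (by positivity)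
  have hμ2 : μ ^ 2 = w / x := Real.sq_sqrt (by positivity)
  set n := 2 * m + 2 with hn
  have hCm : 0 < (n.choose m : ℝ) := by
    exact_mod_cast Nat.choose_pos (by omega)
  set c := x / (n.choose m * μ ^ m) with hc
  have hc0 : 0 < c := by positivity
  have e0 : bseq n c μ m = x := by
    unfold bseq; rw [hc]; field_simp
  have e1 : bseq n c μ (m + 1) = Real.sqrt (x * w) * ((m + 2) / (m + 1)) := by
    have h1 : (n.choose (m + 1) : ℝ) * (m + 1) = n.choose m * (m + 2) := by
      have := Nat.choose_succ_right_eq n m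
      have h2 : n - m = m + 2 := by omega
      rw [h2] at this
      exact_mod_cast this
    have h2 : Real.sqrt (x * w) = x * μ := by
      rw [hμ]
      rw [show x * w = x ^ 2 * (w / x) by field_simp]
      rw [Real.sqrt_mul (by positivity), Real.sqrt_sq hx.le]
    have h3 : (n.choose (m + 1) : ℝ) = n.choose m * (m + 2) / (m + 1) := by
      field_simp; linarith
    unfold bseq
    rw [h3, h2, hc, pow_succ]
    field_simp
  have e2 : bseq n c μ (m + 2) = w := by
    have h1 : n.choose (m + 2) = n.choose m := by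
      rw [← Nat.choose_symm (show m ≤ n by omega)]
      congr 1
      omega
    unfold bseq
    rw [h1, hc, pow_add, hμ2]
    field_simp
  have h := hf.tn2_bseq (n := n) hc0 hμ0.le (le_refl m |>.trans (Nat.le_succ m)) (by omega)
  rw [show m.succ + 1 = m + 2 from rfl, e0, e2, show m.succ = m + 1 from rfl, e1] at h
  rw [pow_two]
  exact h

theorem PresR.mono_lt (hf : PresR f) {x y : ℝ} (hx : 0 < x) (hxy : x < y) : f x ≤ f y := by
  by_contra hlt
  push Not at hlt
  have fx := hf.pos hx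
  have fy := hf.pos (hx.trans hxy)
  set θ := f y / f x with hθ
  have hθ1 : θ < 1 := by rw [hθ, div_lt_one fx]; exact hlt
  have hθ0 : 0 < θ := by positivity
  set ρ := y / x with hρ
  have hρ1 : 1 < ρ := by rw [hρ, one_lt_div hx]; exact hxy
  clear_value ρ
  obtain ⟨K, hK⟩ := pow_unbounded_of_one_lt 4 hρ1
  -- choose `m`
  have hlim : Filter.Tendsto (fun m : ℕ => (((m : ℝ) + 2) / (m + 1)) ^ (K * (K - 1)))
      Filter.atTop (nhds (1 ^ (K * (K - 1)))) := by
    apply Filter.Tendsto.pow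
    have h1 : Filter.Tendsto (fun m : ℕ => 1 + 1 / ((m : ℝ) + 1)) Filter.atTop (nhds (1 + 0)) :=
      tendsto_const_nhds.add tendsto_one_div_add_atTop_nhds_zero_nat
    rw [add_zero] at h1
    refine h1.congr fun m => ?_
    field_simp
    ring
  rw [one_pow] at hlim
  obtain ⟨m, hm⟩ := (hlim.eventually (gt_mem_nhds (show (1 : ℝ) < 2 by norm_num))).exists
  set l : ℝ := ((m : ℝ) + 2) / (m + 1) with hl
  have hl0 : 0 < l := by positivity
  clear_value l
  set s : ℕ → ℝ := fun k => x * ρ ^ k / l ^ (k * (k - 1)) with hs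
  have hρ0 : 0 < ρ := by linarith
  have hs0 : ∀ k, 0 < s k := fun k => by simp only [hs]; positivity
  have hsk : ∀ k, Real.sqrt (s k * s (k + 2)) * l = s (k + 1) := by
    intro k
    have e1 : s k * s (k + 2) = (x * ρ ^ (k + 1) / l ^ (k * k + k + 1)) ^ 2 := by
      simp only [hs]
      have : l ^ (k * (k - 1)) * l ^ ((k + 2) * (k + 2 - 1)) = (l ^ (k * k + k + 1)) ^ 2 := by
        rw [← pow_add, ← pow_mul]
        congr 1
        cases k with
        | zero => rfl
        | succ k => simp only [Nat.succ_sub_one]; ring_nf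
      rw [div_mul_div_comm, this, div_pow]
      congr 1
      ring
    rw [e1, Real.sqrt_sq (by positivity)]
    simp only [hs, Nat.add_sub_cancel]
    rw [show (k + 1) * k = k * k + k by ring, pow_succ l (k * k + k)]
    field_simp
  have hmid : ∀ k, f (s k) * f (s (k + 2)) ≤ f (s (k + 1)) ^ 2 := by
    intro k
    have := hf.mid (hs0 k) (hs0 (k + 2)) m
    rwa [← hl, hsk k] at this
  have hstep : ∀ k, f (s (k + 1)) ≤ θ * f (s k) := by
    intro k
    induction k with
    | zero =>
      have e0 : s 0 = x := by simp [hs]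
      have e1 : s 1 = y := by simp [hs, hρ]; field_simp
      rw [show (0 + 1) = 1 from rfl, e0, e1, hθ]
      field_simp
      exact le_rfl
    | succ k ih =>
      have p0 := hf.pos (hs0 k)
      have p1 := hf.pos (hs0 (k + 1))
      have h1 := hmid k
      have h2 : f (s (k + 1)) ^ 2 ≤ f (s (k + 1)) * (θ * f (s k)) := by
        rw [pow_two]; exact mul_le_mul_of_nonneg_left ih p1.le
      have h3 : f (s k) * f (s (k + 2)) ≤ f (s k) * (θ * f (s (k + 1))) := by nlinarith
      exact le_of_mul_le_mul_left h3 p0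
  have hdec : ∀ k, f (s k) ≤ f x := by
    intro k
    induction k with
    | zero => simp [hs]
    | succ k ih =>
      have p0 := hf.pos (hs0 k)
      nlinarith [hstep k]
  have hsK : 2 * x ≤ s K := by
    simp only [hs]
    rw [le_div_iff₀ (by positivity)]
    nlinarith [hm, hK, mul_pos hx (pow_pos hl0 (K * (K - 1)))]
  have h1 := hf.two_mul hx hsK
  have h2 := hdec K
  linarith

theorem PresR.mono (hf : PresR f) {x y : ℝ} (hx : 0 < x) (hxy : x ≤ y) : f x ≤ f y := by
  rcases hxy.lt_or_eq with h | h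
  · exact hf.mono_lt hx h
  · rw [h]

end Pool.Agent.Lib.MP_f91407_an
end

section

/-!
# Interlacing by partial fractions
-/

namespace Pool.Agent.Lib.MP_f91407_an

open Polynomial

/-- If `G` has only real zeros and `T(x) G'(x) < 0` at every zero `x` of `G`, with
`deg T = deg G + 1` and positive leading coefficients, then `T` has only real zeros. -/
theorem interlace {G T : ℝ[X]} {d : ℕ} (hG : G.natDegree = d) (hT : T.natDegree = d + 1)
    (hGl : 0 < G.leadingCoeff) (hTl : 0 < T.leadingCoeff) (hsp : G.Splits)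
    (hsign : ∀ x, G.eval x = 0 → T.eval x * (derivative G).eval x < 0) :
    ∀ z : ℂ, aeval z T = 0 → z.im = 0 := by
  classical
  have hG0 : G ≠ 0 := by
    intro h; rw [h] at hGl; simp at hGl
  have hT0 : T ≠ 0 := by
    intro h; rw [h] at hTl; simp at hTl
  have hdeg : G.degree ≤ T.degree := by
    rw [degree_eq_natDegree hG0, degree_eq_natDegree hT0, hG, hT]
    exact_mod_cast Nat.le_succ d
  -- division
  have hq1 : (T / G).natDegree ≤ 1 := by
    have h1 := degree_add_div hG0 hdeg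
    have hq0 : T / G ≠ 0 := by
      intro h
      rw [h, degree_zero, degree_eq_natDegree hT0] at h1
      simp at h1
    rw [degree_eq_natDegree hG0, degree_eq_natDegree hT0, degree_eq_natDegree hq0, hG, hT] at h1
    have h2 : d + (T / G).natDegree = d + 1 := by exact_mod_cast h1
    omega
  have hqd : (T / G).natDegree = 1 := by
    have h1 := degree_add_div hG0 hdeg
    have hq0 : T / G ≠ 0 := by
      intro h
      rw [h, degree_zero, degree_eq_natDegree hT0] at h1
      simp at h1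
    rw [degree_eq_natDegree hG0, degree_eq_natDegree hT0, degree_eq_natDegree hq0, hG, hT] at h1
    have h2 : d + (T / G).natDegree = d + 1 := by exact_mod_cast h1
    omega
  set a := (T / G).coeff 1 with ha
  set b := (T / G).coeff 0 with hb
  have hq : T / G = C a * X + C b := eq_X_add_C_of_natDegree_le_one hq1
  have ha0 : 0 < a := by
    have h1 : (T / G).leadingCoeff = a := by
      unfold leadingCoeff; rw [hqd]
    rw [← h1, leadingCoeff_div hdeg]
    positivity
  have hdiv : T = G * (C a * X + C b) + T % G := by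
    rw [← hq]; exact (EuclideanDomain.div_add_mod T G).symm
  -- roots
  have hnd : G.roots.Nodup := by
    rw [Multiset.nodup_iff_count_le_one]
    intro x
    rw [count_roots]
    by_contra hlt
    push Not at hlt
    obtain ⟨h1, h2⟩ := (one_lt_rootMultiplicity_iff_isRoot hG0).mp hlt
    have := hsign x h1
    rw [IsRoot.def] at h2
    rw [h2, mul_zero] at this
    exact lt_irrefl _ this
  set S := G.roots.toFinset with hS
  have hSval : S.val = G.roots := by
    rw [hS, Multiset.toFinset_val, hnd.dedup]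
  have hcard : S.card = d := by
    rw [← hG, hsp.natDegree_eq_card_roots, ← hSval]; rfl
  have hGp : G = C G.leadingCoeff * ∏ x ∈ S, (X - C x) := by
    conv_lhs => rw [hsp.eq_prod_roots]
    rw [Finset.prod, hSval]
  have hSroot : ∀ x ∈ S, G.eval x = 0 := by
    intro x hx
    rw [hS, Multiset.mem_toFinset] at hx
    exact (mem_roots'.mp hx).2
  have hder : ∀ x ∈ S, (derivative G).eval x = G.leadingCoeff * ∏ y ∈ S.erase x, (x - y) := by
    intro x hx
    have h1 : derivative G = C G.leadingCoeff *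
        ∑ y ∈ S, (∏ z ∈ S.erase y, (X - C z)) := by
      conv_lhs => rw [hGp]
      rw [derivative_C_mul, derivative_prod_finset]
      simp
    rw [h1, eval_mul, eval_C, eval_finsetSum]
    congr 1
    rw [Finset.sum_eq_single_of_mem x hx]
    · rw [eval_prod]; simp
    · intro y hy hne
      rw [eval_prod]
      exact Finset.prod_eq_zero (Finset.mem_erase.mpr ⟨hne.symm, hx⟩) (by simp)
  -- interpolation
  set c : ℝ → ℝ := fun x => T.eval x / (derivative G).eval x with hc
  have hcneg : ∀ x ∈ S, c x < 0 := by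
    intro x hx
    have h1 := hsign x (hSroot x hx)
    have h2 : (derivative G).eval x ≠ 0 := by
      intro h; rw [h, mul_zero] at h1; exact lt_irrefl _ h1
    simp only [hc]
    have h3 : T.eval x / (derivative G).eval x =
        (T.eval x * (derivative G).eval x) / ((derivative G).eval x) ^ 2 := by
      field_simp
    rw [h3]
    exact div_neg_of_neg_of_pos h1 (by positivity)
  set L : ℝ[X] := ∑ x ∈ S, C (c x * G.leadingCoeff) * ∏ y ∈ S.erase x, (X - C y) with hL
  have hLdeg : L.degree < S.card := by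
    rw [hL]
    refine (degree_sum_le _ _).trans_lt ?_
    rw [Finset.sup_lt_iff (WithBot.bot_lt_coe _)]
    intro x hx
    rw [← smul_eq_C_mul]
    refine (degree_smul_le _ _).trans_lt ?_
    rw [degree_prod]
    simp only [degree_X_sub_C, Finset.sum_const, nsmul_eq_mul, mul_one]
    rw [Finset.card_erase_of_mem hx]
    have : 0 < S.card := Finset.card_pos.mpr ⟨x, hx⟩
    exact_mod_cast Nat.sub_lt this one_pos
  have hrdeg : (T % G).degree < S.card := by
    refine (degree_mod_lt T hG0).trans_le ?_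
    rw [degree_eq_natDegree hG0, hG, hcard]
  have hLe : ∀ x ∈ S, L.eval x = T.eval x := by
    intro x hx
    rw [hL, eval_finsetSum, Finset.sum_eq_single_of_mem x hx]
    · rw [eval_mul, eval_C, eval_prod]
      simp only [eval_sub, eval_X, eval_C]
      rw [mul_assoc, ← hder x hx]
      simp only [hc]
      have h1 := hsign x (hSroot x hx)
      have h2 : (derivative G).eval x ≠ 0 := by
        intro h; rw [h, mul_zero] at h1; exact lt_irrefl _ h1
      field_simp
    · intro y hy hne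
      rw [eval_mul, eval_prod]
      rw [Finset.prod_eq_zero (Finset.mem_erase.mpr ⟨hne.symm, hx⟩) (by simp), mul_zero]
  have hre : ∀ x ∈ S, (T % G).eval x = T.eval x := by
    intro x hx
    conv_rhs => rw [hdiv]
    rw [eval_add, eval_mul, hSroot x hx, zero_mul, zero_add]
  have hrL : T % G = L := by
    apply eq_of_degrees_lt_of_eval_finset_eq S hrdeg hLdeg
    intro x hx
    rw [hre x hx, hLe x hx]
  -- conclusion
  intro z hz
  by_contra him
  have hGz : aeval z G = (G.leadingCoeff : ℂ) * ∏ x ∈ S, (z - (x : ℂ)) := by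
    conv_lhs => rw [hGp]
    rw [map_mul, map_prod, aeval_C]
    simp
  have hzx : ∀ x : ℝ, z - (x : ℂ) ≠ 0 := by
    intro x h
    apply him
    have := congrArg Complex.im h
    simpa using this
  have hGz0 : aeval z G ≠ 0 := by
    rw [hGz]
    apply mul_ne_zero
    · exact_mod_cast hGl.ne'
    · exact Finset.prod_ne_zero_iff.mpr fun x _ => hzx x
  have hLz : aeval z L = aeval z G * ∑ x ∈ S, (c x : ℂ) * (z - (x : ℂ))⁻¹ := by
    rw [hL, map_sum, hGz, Finset.mul_sum]
    refine Finset.sum_congr rfl fun x hx => ?_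
    rw [map_mul, aeval_C, map_prod, ← Finset.mul_prod_erase S (fun x : ℝ => z - (x : ℂ)) hx]
    have := hzx x
    simp
    field_simp
  have h1 : aeval z T = aeval z G * ((a : ℂ) * z + b + ∑ x ∈ S, (c x : ℂ) * (z - (x : ℂ))⁻¹) := by
    conv_lhs => rw [hdiv, hrL]
    rw [map_add, hLz, map_mul]
    simp
    ring
  rw [hz] at h1
  have h2 : (a : ℂ) * z + b + ∑ x ∈ S, (c x : ℂ) * (z - (x : ℂ))⁻¹ = 0 :=
    (mul_eq_zero.mp h1.symm).resolve_left hGz0
  have h3 := congrArg Complex.im h2
  have h4 : ((a : ℂ) * z + b + ∑ x ∈ S, (c x : ℂ) * (z - (x : ℂ))⁻¹).im =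
      z.im * (a + ∑ x ∈ S, -c x / Complex.normSq (z - x)) := by
    rw [Complex.add_im, Complex.add_im, Complex.im_sum, mul_add, Finset.mul_sum]
    congr 1
    · simp [mul_comm]
    · refine Finset.sum_congr rfl fun x _ => ?_
      rw [Complex.im_ofReal_mul, Complex.inv_im]
      simp
      ring
  rw [h4, Complex.zero_im] at h3
  have h5 : 0 < a + ∑ x ∈ S, -c x / Complex.normSq (z - x) := by
    have : 0 ≤ ∑ x ∈ S, -c x / Complex.normSq (z - x) :=
      Finset.sum_nonneg fun x hx => div_nonneg (by linarith [hcneg x hx]) (Complex.normSq_nonneg _)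
    linarith
  exact (mul_ne_zero him h5.ne') h3

end Pool.Agent.Lib.MP_f91407_an
end

section

/-!
# The kernel `P^(nm) (P^n + P^m)` is positive semidefinite for `P > 1`
-/

namespace Pool.Agent.Lib.MP_f91407_an

open Finset

/-- `g_k(x) = ∏_{i<k} (x - P^i)`. -/
noncomputable def gk (P : ℝ) (k : ℕ) (x : ℝ) : ℝ := ∏ i ∈ range k, (x - P ^ i)

theorem gk_succ (P : ℝ) (k : ℕ) (x : ℝ) : gk P (k + 1) x = gk P k x * (x - P ^ k) := by
  unfold gk; rw [prod_range_succ]

theorem gk_zero (P : ℝ) (x : ℝ) : gk P 0 x = 1 := by simp [gk]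

theorem gk_shift (P : ℝ) (k m : ℕ) :
    gk P (k + 1) (P ^ (m + 1)) = (P ^ (m + 1) - 1) * P ^ k * gk P k (P ^ m) := by
  unfold gk
  rw [prod_range_succ', pow_zero]
  have : ∏ i ∈ range k, (P ^ (m + 1) - P ^ (i + 1)) = P ^ k * ∏ i ∈ range k, (P ^ m - P ^ i) := by
    rw [← card_range k, ← prod_const, card_range, ← prod_mul_distrib]
    refine prod_congr rfl fun i _ => ?_
    ring
  rw [this]
  ring

theorem gk_eq_zero (P : ℝ) {k n : ℕ} (h : n < k) : gk P k (P ^ n) = 0 := by
  unfold gk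
  exact prod_eq_zero (mem_range.mpr h) (sub_self _)

/-- `γ_k = g_k(P^k)`. -/
noncomputable def gam (P : ℝ) (k : ℕ) : ℝ := gk P k (P ^ k)

theorem gam_zero (P : ℝ) : gam P 0 = 1 := gk_zero _ _

theorem gam_succ (P : ℝ) (k : ℕ) : gam P (k + 1) = (P ^ (k + 1) - 1) * P ^ k * gam P k :=
  gk_shift P k k

theorem gam_pos {P : ℝ} (hP : 1 < P) (k : ℕ) : 0 < gam P k := by
  induction k with
  | zero => rw [gam_zero]; exact one_pos
  | succ k ih =>
    rw [gam_succ]
    have h1 : 1 < P ^ (k + 1) := one_lt_pow₀ hP (by omega)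
    have h2 : 0 < P ^ k := by positivity
    have h3 : 0 < P ^ (k + 1) - 1 := by linarith
    positivity

/-- The Gaussian coefficients. -/
noncomputable def gc (P : ℝ) (m k : ℕ) : ℝ := gk P k (P ^ m) / gam P k

theorem gc_eq_zero (P : ℝ) {m k : ℕ} (h : m < k) : gc P m k = 0 := by
  unfold gc; rw [gk_eq_zero P h, zero_div]

theorem gc_zero_right (P : ℝ) (m : ℕ) : gc P m 0 = 1 := by
  unfold gc; rw [gk_zero, gam_zero, div_one]

theorem gc_pascal {P : ℝ} (hP : 1 < P) (m k : ℕ) :
    gc P (m + 1) (k + 1) = gc P m k + P ^ (k + 1) * gc P m (k + 1) := by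
  unfold gc
  rw [gk_shift, gam_succ, gk_succ]
  have h1 : 1 < P ^ (k + 1) := one_lt_pow₀ hP (by omega)
  have h2 : 0 < P ^ k := by positivity
  have h3 : P ^ (k + 1) - 1 ≠ 0 := by linarith
  have h4 := (gam_pos hP k).ne'
  field_simp
  ring

/-- Newton expansion of `x^m` at the nodes `P^i`. -/
theorem pow_eq_sum {P : ℝ} (hP : 1 < P) (x : ℝ) (m K : ℕ) (hK : m ≤ K) :
    x ^ m = ∑ k ∈ range (K + 1), gk P k x * gc P m k := by
  induction m with
  | zero =>
    rw [sum_range_succ']
    rw [sum_eq_zero]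
    · rw [gk_zero, gc_zero_right]; norm_num
    · intro k _
      rw [gc_eq_zero P (by omega), mul_zero]
  | succ m ih =>
    rw [pow_succ, ih (by omega), sum_mul]
    have e1 : ∀ k ∈ range (K + 1), gk P k x * gc P m k * x =
        gk P (k + 1) x * gc P m k + P ^ k * gk P k x * gc P m k := by
      intro k _
      rw [gk_succ]; ring
    rw [sum_congr rfl e1, sum_add_distrib]
    rw [sum_range_succ (fun k => gk P (k + 1) x * gc P m k), gc_eq_zero P (by omega : m < K),
      mul_zero, add_zero, sum_range_succ' (fun k => P ^ k * gk P k x * gc P m k),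
      sum_range_succ' (fun k => gk P k x * gc P (m + 1) k)]
    simp only [gc_zero_right, gk_zero, pow_zero, mul_one, gc_pascal hP]
    rw [← add_assoc, ← sum_add_distrib]
    congr 1
    refine sum_congr rfl fun k _ => ?_
    ring

/-- **Lemma A.** -/
theorem lemmaA {P : ℝ} (hP : 1 < P) (N : ℕ) (v : ℕ → ℝ) :
    0 ≤ ∑ n ∈ range (N + 1), ∑ m ∈ range (N + 1), v n * v m * P ^ (n * m) * (P ^ n + P ^ m) := by
  set X : ℕ → ℝ := fun k => ∑ n ∈ range (N + 1), v n * gk P k (P ^ n) with hX
  have hXN : X (N + 1) = 0 := by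
    simp only [hX]
    refine sum_eq_zero fun n hn => ?_
    rw [gk_eq_zero P (by simpa using hn), mul_zero]
  -- half of the form
  have e1 : ∑ n ∈ range (N + 1), ∑ m ∈ range (N + 1), v n * v m * P ^ (n * m) * P ^ n =
      ∑ k ∈ range (N + 1), (X (k + 1) * X k + P ^ k * X k ^ 2) / gam P k := by
    have e2 : ∀ n ∈ range (N + 1), ∀ m ∈ range (N + 1), v n * v m * P ^ (n * m) * P ^ n =
        ∑ k ∈ range (N + 1), (v n * gk P (k + 1) (P ^ n) + P ^ k * (v n * gk P k (P ^ n))) *
          (v m * gk P k (P ^ m)) / gam P k := by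
      intro n _ m hm
      have hm' : m ≤ N := by simpa [Nat.lt_succ_iff] using hm
      rw [pow_mul, pow_eq_sum hP (P ^ n) m N hm', mul_sum, sum_mul]
      refine sum_congr rfl fun k _ => ?_
      rw [gk_succ]
      unfold gc
      ring
    rw [sum_congr rfl fun n hn => sum_congr rfl fun m hm => e2 n hn m hm]
    have e3 : ∀ n ∈ range (N + 1), ∑ m ∈ range (N + 1), ∑ k ∈ range (N + 1),
        (v n * gk P (k + 1) (P ^ n) + P ^ k * (v n * gk P k (P ^ n))) *
          (v m * gk P k (P ^ m)) / gam P k =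
        ∑ k ∈ range (N + 1), (v n * gk P (k + 1) (P ^ n) + P ^ k * (v n * gk P k (P ^ n))) *
          X k / gam P k := by
      intro n _
      rw [sum_comm]
      refine sum_congr rfl fun k _ => ?_
      simp only [hX]
      rw [mul_sum, sum_div]
    rw [sum_congr rfl e3, sum_comm]
    refine sum_congr rfl fun k _ => ?_
    rw [← sum_div, ← sum_mul, sum_add_distrib, ← mul_sum]
    simp only [hX]
    ring
  have e4 : ∑ n ∈ range (N + 1), ∑ m ∈ range (N + 1), v n * v m * P ^ (n * m) * P ^ m =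
      ∑ n ∈ range (N + 1), ∑ m ∈ range (N + 1), v n * v m * P ^ (n * m) * P ^ n := by
    rw [sum_comm]
    refine sum_congr rfl fun n _ => sum_congr rfl fun m _ => ?_
    rw [mul_comm m n]; ring
  have e5 : ∑ n ∈ range (N + 1), ∑ m ∈ range (N + 1),
      v n * v m * P ^ (n * m) * (P ^ n + P ^ m) =
      ∑ k ∈ range (N + 1), 2 * ((X (k + 1) * X k + P ^ k * X k ^ 2) / gam P k) := by
    simp only [mul_add, sum_add_distrib]
    rw [e4, ← two_mul, e1, mul_sum]
  rw [e5]
  set t : ℕ → ℝ := fun k => P ^ k * X k ^ 2 / gam P k with ht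
  have e6 : ∀ k ∈ range (N + 1), t k - t (k + 1) ≤
      2 * ((X (k + 1) * X k + P ^ k * X k ^ 2) / gam P k) := by
    intro k _
    simp only [ht]
    have g0 := gam_pos hP k
    have g1 := gam_pos hP (k + 1)
    have p0 : 0 < P ^ k := by positivity
    have h1 : gam P (k + 1) ≤ P ^ (2 * k + 1) * gam P k := by
      rw [gam_succ]
      apply mul_le_mul_of_nonneg_right _ g0.le
      have e : P ^ (2 * k + 1) = P ^ (k + 1) * P ^ k := by rw [← pow_add]; congr 1; ring
      rw [e]
      nlinarith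
    have h2 : X (k + 1) ^ 2 / (P ^ k * gam P k) ≤ P ^ (k + 1) * X (k + 1) ^ 2 / gam P (k + 1) := by
      rw [div_le_div_iff₀ (by positivity) g1]
      have : X (k + 1) ^ 2 * gam P (k + 1) ≤ X (k + 1) ^ 2 * (P ^ (2 * k + 1) * gam P k) :=
        mul_le_mul_of_nonneg_left h1 (sq_nonneg _)
      refine this.trans (le_of_eq ?_)
      rw [show 2 * k + 1 = (k + 1) + k by ring, pow_add]
      ring
    have h3 : 0 ≤ (P ^ k * X k + X (k + 1)) ^ 2 / (P ^ k * gam P k) := by positivity
    have h4 : (P ^ k * X k + X (k + 1)) ^ 2 / (P ^ k * gam P k) =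
        2 * ((X (k + 1) * X k + P ^ k * X k ^ 2) / gam P k) - P ^ k * X k ^ 2 / gam P k +
          X (k + 1) ^ 2 / (P ^ k * gam P k) := by
      field_simp
      ring
    linarith
  refine le_trans ?_ (sum_le_sum e6)
  rw [sum_range_sub']
  simp only [ht, hXN]
  rw [gam_zero]
  norm_num
  positivity

end Pool.Agent.Lib.MP_f91407_an
end

section

/-!
# The binomial kernel is positive semidefinite
-/

namespace Pool.Agent.Lib.MP_f91407_an

open Finset MeasureTheory Set

/-- `A_{nm} = D (n+m+1) - 2 n (m+1)` with `D = d + 1`. -/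
noncomputable def Aa (d n m : ℕ) : ℝ := ((d : ℝ) + 1) * (n + m + 1) - 2 * n * (m + 1)

theorem Aa_eq (d n m : ℕ) : Aa d n m =
    ((d : ℝ) + 1 - n) * (m + 1) + n * ((d : ℝ) - m) := by
  unfold Aa; ring

theorem Aa_pos {d n m : ℕ} (hn : n ≤ d) (hm : m ≤ d) : 0 < Aa d n m := by
  rw [Aa_eq]
  have h1 : (n : ℝ) ≤ d := by exact_mod_cast hn
  have h2 : (m : ℝ) ≤ d := by exact_mod_cast hm
  have h3 : (0 : ℝ) ≤ n := by positivity
  have h4 : (0 : ℝ) ≤ m := by positivity
  have h5 : 0 ≤ (n : ℝ) * ((d : ℝ) - m) := mul_nonneg h3 (by linarith)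
  have h6 : 0 < ((d : ℝ) + 1 - n) * (m + 1) := mul_pos (by linarith) (by linarith)
  linarith

theorem int_exp {a : ℝ} (ha : 0 < a) : ∫ t in Ioi (0 : ℝ), Real.exp (-a * t) = 1 / a := by
  rw [integral_exp_mul_Ioi (by linarith : -a < 0)]
  simp

theorem K1 (d : ℕ) (v : ℕ → ℝ) :
    0 ≤ ∑ n ∈ range (d + 1), ∑ m ∈ range (d + 1), v n * v m * (1 / Aa d n m + 1 / Aa d m n) := by
  have hle : ∀ n ∈ range (d + 1), n ≤ d := fun n hn => by simpa [Nat.lt_succ_iff] using hn
  have hint : ∀ n ∈ range (d + 1), ∀ m ∈ range (d + 1),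
      Integrable (fun t : ℝ => v n * v m * (Real.exp (-Aa d n m * t) + Real.exp (-Aa d m n * t)))
        (volume.restrict (Ioi 0)) := by
    intro n hn m hm
    exact ((exp_neg_integrableOn_Ioi 0 (Aa_pos (hle n hn) (hle m hm))).add
      (exp_neg_integrableOn_Ioi 0 (Aa_pos (hle m hm) (hle n hn)))).const_mul _
  have e1 : ∑ n ∈ range (d + 1), ∑ m ∈ range (d + 1),
      v n * v m * (1 / Aa d n m + 1 / Aa d m n) =
      ∫ t in Ioi (0 : ℝ), ∑ n ∈ range (d + 1), ∑ m ∈ range (d + 1),
        v n * v m * (Real.exp (-Aa d n m * t) + Real.exp (-Aa d m n * t)) := by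
    rw [integral_finsetSum _ fun n hn => integrable_finsetSum _ fun m hm => hint n hn m hm]
    refine sum_congr rfl fun n hn => ?_
    rw [integral_finsetSum _ fun m hm => hint n hn m hm]
    refine sum_congr rfl fun m hm => ?_
    rw [integral_const_mul, integral_add (exp_neg_integrableOn_Ioi 0 (Aa_pos (hle n hn) (hle m hm)))
      (exp_neg_integrableOn_Ioi 0 (Aa_pos (hle m hm) (hle n hn))),
      int_exp (Aa_pos (hle n hn) (hle m hm)), int_exp (Aa_pos (hle m hm) (hle n hn))]
  rw [e1]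
  refine setIntegral_nonneg measurableSet_Ioi fun t ht => ?_
  have ht0 : 0 < t := ht
  set P : ℝ := Real.exp (2 * t) with hPdef
  have hP : 1 < P := by rw [hPdef, ← Real.exp_zero]; exact Real.exp_lt_exp.mpr (by linarith)
  set w : ℕ → ℝ := fun n => v n * Real.exp (-((d : ℝ) + 1) * n * t) with hw
  have h1 := lemmaA hP d w
  have e2 : ∑ n ∈ range (d + 1), ∑ m ∈ range (d + 1),
        v n * v m * (Real.exp (-Aa d n m * t) + Real.exp (-Aa d m n * t)) =
      Real.exp (-((d : ℝ) + 1) * t) *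
        ∑ n ∈ range (d + 1), ∑ m ∈ range (d + 1), w n * w m * P ^ (n * m) * (P ^ n + P ^ m) := by
    rw [mul_sum]
    refine sum_congr rfl fun n _ => ?_
    rw [mul_sum]
    refine sum_congr rfl fun m _ => ?_
    have a1 : Real.exp (-Aa d n m * t) = Real.exp (-((d : ℝ) + 1) * t) *
        Real.exp (-((d : ℝ) + 1) * n * t) * Real.exp (-((d : ℝ) + 1) * m * t) *
          (P ^ (n * m) * P ^ n) := by
      rw [hPdef, ← Real.exp_nat_mul, ← Real.exp_nat_mul, ← Real.exp_add, ← Real.exp_add,
        ← Real.exp_add, ← Real.exp_add]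
      congr 1
      unfold Aa
      push_cast
      ring
    have a2 : Real.exp (-Aa d m n * t) = Real.exp (-((d : ℝ) + 1) * t) *
        Real.exp (-((d : ℝ) + 1) * n * t) * Real.exp (-((d : ℝ) + 1) * m * t) *
          (P ^ (n * m) * P ^ m) := by
      rw [hPdef, ← Real.exp_nat_mul, ← Real.exp_nat_mul, ← Real.exp_add, ← Real.exp_add,
        ← Real.exp_add, ← Real.exp_add]
      congr 1
      unfold Aa
      push_cast
      ring
    rw [a1, a2]
    simp only [hw]
    ring
  rw [e2]
  positivity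

theorem Ww_pos {d n m : ℕ} (hn : n ≤ d) (hm : m ≤ d) :
    |((d : ℝ) - 2 * n) * ((d : ℝ) - 2 * m)| < ((d : ℝ) + 1) ^ 2 + 1 := by
  have h1 : (n : ℝ) ≤ d := by exact_mod_cast hn
  have h2 : (m : ℝ) ≤ d := by exact_mod_cast hm
  have h3 : (0 : ℝ) ≤ n := by positivity
  have h4 : (0 : ℝ) ≤ m := by positivity
  have h5 : |(d : ℝ) - 2 * n| ≤ d := by rw [abs_le]; constructor <;> linarith
  have h6 : |(d : ℝ) - 2 * m| ≤ d := by rw [abs_le]; constructor <;> linarith
  rw [abs_mul]
  have h7 : |(d : ℝ) - 2 * n| * |(d : ℝ) - 2 * m| ≤ d * d :=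
    mul_le_mul h5 h6 (abs_nonneg _) (by positivity)
  have h8 : (0 : ℝ) ≤ d := by positivity
  nlinarith

theorem K2 (d : ℕ) (v : ℕ → ℝ) :
    0 ≤ ∑ n ∈ range (d + 1), ∑ m ∈ range (d + 1), v n * v m * (1 / Aa d n m + 1 / Aa d m n) *
      (((d : ℝ) + 1) ^ 2 + 1 - ((d : ℝ) - 2 * n) * ((d : ℝ) - 2 * m))⁻¹ := by
  have hle : ∀ n ∈ range (d + 1), n ≤ d := fun n hn => by simpa [Nat.lt_succ_iff] using hn
  set B : ℝ := ((d : ℝ) + 1) ^ 2 + 1 with hB
  have hB0 : 0 < B := by rw [hB]; positivity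
  have hs : ∀ n ∈ range (d + 1), ∀ m ∈ range (d + 1),
      HasSum (fun k : ℕ => v n * v m * (1 / Aa d n m + 1 / Aa d m n) *
        (B⁻¹ * (((d : ℝ) - 2 * n) * ((d : ℝ) - 2 * m) / B) ^ k))
        (v n * v m * (1 / Aa d n m + 1 / Aa d m n) *
          (B - ((d : ℝ) - 2 * n) * ((d : ℝ) - 2 * m))⁻¹) := by
    intro n hn m hm
    apply HasSum.mul_left
    have h1 : |((d : ℝ) - 2 * n) * ((d : ℝ) - 2 * m) / B| < 1 := by
      rw [abs_div, abs_of_pos hB0, div_lt_one hB0]
      exact Ww_pos (hle n hn) (hle m hm)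
    have h2 := (hasSum_geometric_of_abs_lt_one h1).mul_left B⁻¹
    have h3 : B⁻¹ * (1 - ((d : ℝ) - 2 * n) * ((d : ℝ) - 2 * m) / B)⁻¹ =
        (B - ((d : ℝ) - 2 * n) * ((d : ℝ) - 2 * m))⁻¹ := by
      rw [← mul_inv]
      congr 1
      field_simp
    rw [h3] at h2
    exact h2
  have hs2 := hasSum_sum (fun n hn => hasSum_sum (fun m hm => hs n hn m hm))
  refine HasSum.nonneg (fun k => ?_) hs2
  have h1 := K1 d fun n => v n * ((d : ℝ) - 2 * n) ^ k
  have e : ∑ n ∈ range (d + 1), ∑ m ∈ range (d + 1),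
      v n * v m * (1 / Aa d n m + 1 / Aa d m n) *
        (B⁻¹ * (((d : ℝ) - 2 * n) * ((d : ℝ) - 2 * m) / B) ^ k) =
      (B⁻¹ * (B⁻¹) ^ k) * ∑ n ∈ range (d + 1), ∑ m ∈ range (d + 1),
        (v n * ((d : ℝ) - 2 * n) ^ k) * (v m * ((d : ℝ) - 2 * m) ^ k) *
          (1 / Aa d n m + 1 / Aa d m n) := by
    rw [mul_sum]
    refine sum_congr rfl fun n _ => ?_
    rw [mul_sum]
    refine sum_congr rfl fun m _ => ?_
    rw [div_pow, mul_pow, inv_pow, div_eq_mul_inv]
    ring
  rw [e]
  positivity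

theorem ker_alg {A A' D k B X X' : ℝ} (hA : 0 < A) (hA' : 0 < A') (hD : 0 < D)
    (h1 : A' = A - 2 * k) (hB : B = A * A' - D ^ 2 * k ^ 2) (hX : X = (A + D * (k + 1)) / 2)
    (hX' : X' = (A' + D * (1 - k)) / 2) :
    X / A + X' / A' = (1 - 1 / D) + D / 2 * (1 / A + 1 / A') +
      1 / D * (B * (1 / A + 1 / A') * (A + A')⁻¹) := by
  have h2 : B * (1 / A + 1 / A') * (A + A')⁻¹ = B / (A * A') := by
    field_simp
    ring
  rw [h2, hX, hX', hB]
  have h3 : A / A = 1 := div_self hA.ne'
  have h4 : A' / A' = 1 := div_self hA'.ne'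
  have h5 : (A * A' - D ^ 2 * k ^ 2) / (A * A') = 1 - D ^ 2 * k ^ 2 / (A * A') := by
    field_simp
  rw [h5]
  have h6 : D * k / 2 * (1 / A - 1 / A') = - (D * k ^ 2 / (A * A')) := by
    have : 1 / A - 1 / A' = (A' - A) / (A * A') := by field_simp
    rw [this, h1]
    ring
  have h7 : 1 / D * (1 - D ^ 2 * k ^ 2 / (A * A')) = 1 / D - D * k ^ 2 / (A * A') := by
    field_simp
  rw [h7]
  have h8 : (A + D * (k + 1)) / 2 / A = 1 / 2 + D / 2 * (1 / A) + D * k / 2 * (1 / A) := by
    field_simp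
    ring
  have h9 : (A' + D * (1 - k)) / 2 / A' = 1 / 2 + D / 2 * (1 / A') - D * k / 2 * (1 / A') := by
    field_simp
    ring
  rw [h8, h9]
  linarith

/-- **The binomial form is nonnegative on vectors with sum zero.** -/
theorem R_nonneg (d : ℕ) (u : ℕ → ℝ) (hu : ∑ n ∈ range (d + 1), u n = 0) :
    0 ≤ ∑ n ∈ range (d + 1), ∑ m ∈ range (d + 1),
      u n * u m * ((((d : ℝ) + 1 - n) * (m + 1)) / Aa d n m) := by
  have hle : ∀ n ∈ range (d + 1), n ≤ d := fun n hn => by simpa [Nat.lt_succ_iff] using hn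
  have h1 := K1 d u
  have h2 := K2 d fun n => Aa d n n * u n
  have hsq : ∑ n ∈ range (d + 1), ∑ m ∈ range (d + 1), u n * u m = 0 := by
    rw [← sum_mul_sum, hu, zero_mul]
  set T : ℝ := ∑ n ∈ range (d + 1), ∑ m ∈ range (d + 1),
      u n * u m * ((((d : ℝ) + 1 - n) * (m + 1)) / Aa d n m) with hT
  have hT2 : T = ∑ n ∈ range (d + 1), ∑ m ∈ range (d + 1),
      u n * u m * ((((d : ℝ) + 1 - m) * (n + 1)) / Aa d m n) := by
    rw [hT, sum_comm]
    refine sum_congr rfl fun n _ => sum_congr rfl fun m _ => ?_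
    ring
  have hD : (0 : ℝ) < (d : ℝ) + 1 := by positivity
  have e : ∀ n ∈ range (d + 1), ∀ m ∈ range (d + 1),
      u n * u m * ((((d : ℝ) + 1 - n) * (m + 1)) / Aa d n m) +
        u n * u m * ((((d : ℝ) + 1 - m) * (n + 1)) / Aa d m n) =
      (1 - 1 / ((d : ℝ) + 1)) * (u n * u m) +
      ((d : ℝ) + 1) / 2 * (u n * u m * (1 / Aa d n m + 1 / Aa d m n)) +
      (1 / ((d : ℝ) + 1)) * (Aa d n n * u n * (Aa d m m * u m) *
        (1 / Aa d n m + 1 / Aa d m n) *
        (((d : ℝ) + 1) ^ 2 + 1 - ((d : ℝ) - 2 * n) * ((d : ℝ) - 2 * m))⁻¹) := by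
    intro n hn m hm
    have p1 := Aa_pos (hle n hn) (hle m hm)
    have p2 := Aa_pos (hle m hm) (hle n hn)
    have hsum : ((d : ℝ) + 1) ^ 2 + 1 - ((d : ℝ) - 2 * n) * ((d : ℝ) - 2 * m) =
        Aa d n m + Aa d m n := by
      unfold Aa; ring
    rw [hsum]
    have key := ker_alg (A := Aa d n m) (A' := Aa d m n) (D := (d : ℝ) + 1) (k := (m : ℝ) - n)
      (B := Aa d n n * Aa d m m) (X := ((d : ℝ) + 1 - n) * (m + 1))
      (X' := ((d : ℝ) + 1 - m) * (n + 1)) p1 p2 hD (by unfold Aa; ring) (by unfold Aa; ring)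
      (by unfold Aa; ring) (by unfold Aa; ring)
    rw [← mul_add, key]
    ring
  have h3 : 2 * T = (1 - 1 / ((d : ℝ) + 1)) * 0 + ((d : ℝ) + 1) / 2 *
      (∑ n ∈ range (d + 1), ∑ m ∈ range (d + 1), u n * u m * (1 / Aa d n m + 1 / Aa d m n)) +
      (1 / ((d : ℝ) + 1)) * (∑ n ∈ range (d + 1), ∑ m ∈ range (d + 1),
        Aa d n n * u n * (Aa d m m * u m) * (1 / Aa d n m + 1 / Aa d m n) *
      (((d : ℝ) + 1) ^ 2 + 1 - ((d : ℝ) - 2 * n) * ((d : ℝ) - 2 * m))⁻¹) := by
    rw [two_mul]
    nth_rewrite 2 [hT2]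
    rw [hT, ← hsq]
    simp only [mul_sum, ← sum_add_distrib]
    exact sum_congr rfl fun n hn => sum_congr rfl fun m hm => e n hn m hm
  have h4 : 0 ≤ 2 * T := by
    rw [h3]
    have h5 : 0 ≤ ((d : ℝ) + 1) / 2 := by positivity
    have h6 : 0 ≤ 1 / ((d : ℝ) + 1) := by positivity
    have h7 := mul_nonneg h5 h1
    have h8 := mul_nonneg h6 h2
    rw [mul_zero, zero_add]
    exact add_nonneg h7 h8
  linarith

end Pool.Agent.Lib.MP_f91407_an
end
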