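import Pool.Agent.Lib.MP_f91407_an.Mg.G027
import Pool.Agent.Lib.MP_f91407_an.Mg.G026

section

/-!
# The binomial case: the sign of `∑ n u_n`
-/

namespace Pool.Agent.Lib.MP_f91407_an

open Finset Set Real

variable {s : ℝ}

/-- The nodes `σ_n = l n/(d+1-n)`. -/
noncomputable def sg (d : ℕ) (l : ℝ) (n : ℕ) : ℝ := l * ((n : ℝ) / ((d : ℝ) + 1 - n))

theorem sg_zero (d : ℕ) (l : ℝ) : sg d l 0 = 0 := by simp [sg]

theorem sub_pos_of {d n : ℕ} (h : n ≤ d) : (0 : ℝ) < (d : ℝ) + 1 - n := by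
  have : (n : ℝ) ≤ d := by exact_mod_cast h
  linarith

theorem sg_pos {d : ℕ} {l : ℝ} (hl : 0 < l) {n : ℕ} (h : n < d) : 0 < sg d l (n + 1) := by
  unfold sg
  have h1 := sub_pos_of (show n + 1 ≤ d by omega)
  have : (0 : ℝ) < ((n + 1 : ℕ) : ℝ) := by positivity
  positivity

theorem sg_lt {d : ℕ} {l : ℝ} (hl : 0 < l) {n m : ℕ} (hm : m ≤ d) (h : n < m) :
    sg d l n < sg d l m := by
  unfold sg
  have h1 := sub_pos_of (show n ≤ d by omega)
  have h2 := sub_pos_of hm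
  have h3 : (n : ℝ) < m := by exact_mod_cast h
  have h4 : (0 : ℝ) ≤ n := by positivity
  apply mul_lt_mul_of_pos_left _ hl
  rw [div_lt_div_iff₀ h1 h2]
  nlinarith

theorem sg_inj {d : ℕ} {l : ℝ} (hl : 0 < l) : ∀ n < d, ∀ m < d, n ≠ m →
    sg d l (n + 1) ≠ sg d l (m + 1) := by
  intro n hn m hm hne
  rcases lt_or_gt_of_ne hne with h | h
  · exact (sg_lt hl (by omega) (by omega)).ne
  · exact (sg_lt hl (by omega) (by omega)).ne'

theorem sg_T {d : ℕ} {l : ℝ} (hl : 0 < l) {n m : ℕ} (hn : n ≤ d) (hm : m < d) :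
    (((d : ℝ) + 1 - n) * (m + 1)) / Aa d n m =
      sg d l (m + 1) / (sg d l n + sg d l (m + 1)) := by
  rw [Aa_eq]
  unfold sg
  have h1 := sub_pos_of hn
  have h2 : (0 : ℝ) < (d : ℝ) - m := by
    have : (m : ℝ) < d := by exact_mod_cast hm
    linarith
  have h4 : (0 : ℝ) ≤ n := by positivity
  have e : (d : ℝ) + 1 - ((m + 1 : ℕ) : ℝ) = (d : ℝ) - m := by push_cast; ring
  rw [e]
  have h5 : 0 ≤ (n : ℝ) / ((d : ℝ) + 1 - n) := by positivity
  have h6 : 0 < ((m + 1 : ℕ) : ℝ) / ((d : ℝ) - m) := by positivity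
  have h7 : (0 : ℝ) < (((d : ℝ) + 1 - n) * (m + 1) + n * ((d : ℝ) - m)) := by positivity
  have h8 : 0 < l * ((n : ℝ) / ((d : ℝ) + 1 - n)) + l * (((m + 1 : ℕ) : ℝ) / ((d : ℝ) - m)) := by
    positivity
  rw [div_eq_div_iff h7.ne' h8.ne']
  push_cast
  field_simp
  ring

theorem Td_one {d : ℕ} {n : ℕ} (hn : n ≤ d) :
    (((d : ℝ) + 1 - n) * ((d : ℝ) + 1)) / Aa d n d = 1 := by
  rw [Aa_eq, sub_self, mul_zero, add_zero]
  have h1 := sub_pos_of hn
  have h2 : (0 : ℝ) < (d : ℝ) + 1 := by positivity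
  exact div_self (by positivity)

/-- The kernel in the energy identity. -/
noncomputable def tt (d n m : ℕ) : ℝ :=
  -((d : ℝ) + 1) ^ 2 + ((d : ℝ) + 1) ^ 2 * ((((d : ℝ) + 1 - n) * (m + 1)) / Aa d n m) +
    ((d : ℝ) + 1) * ((n : ℝ) / ((d : ℝ) + 1 - n)) * ((d : ℝ) - m) +
    ((d : ℝ) + 1) * n * (((d : ℝ) - m) / (m + 1)) - n * ((d : ℝ) - m)

theorem tt_zero (d m : ℕ) : tt d 0 m = 0 := by
  unfold tt
  rw [Aa_eq]
  simp only [Nat.cast_zero, sub_zero, zero_mul, add_zero, zero_div, mul_zero]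
  have : ((d : ℝ) + 1) * (m + 1) ≠ 0 := by positivity
  rw [div_self this]
  ring

theorem tt_d {d n : ℕ} (hn : n ≤ d) : tt d n d = 0 := by
  unfold tt
  rw [Td_one hn]
  ring

theorem tt_term {s : ℝ} {d : ℕ} (u : ℕ → ℝ) {l : ℝ} (hl : 0 < l)
    (hu : ∀ n < d, u n = -(sg d l (n + 1) ^ (2 + s) * u (n + 1))) {n m : ℕ} (hn : n < d)
    (hm : m < d) :
    (((d : ℝ) - n) * ((d : ℝ) - m) + ((n : ℝ) + 1) * ((m : ℝ) + 1)) * (u (n + 1) * u (m + 1)) *
      (sg d l (n + 1) ^ 2 * sg d l (m + 1) ^ (1 + s) / (sg d l (n + 1) + sg d l (m + 1))) =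
    -(u (n + 1) * u m * tt d (n + 1) m) := by
  have p1 := sg_pos hl hn
  have p2 := sg_pos hl hm
  have h1 : (0 : ℝ) < (d : ℝ) - n := by
    have : (n : ℝ) < d := by exact_mod_cast hn
    linarith
  have h2 : (0 : ℝ) < (d : ℝ) - m := by
    have : (m : ℝ) < d := by exact_mod_cast hm
    linarith
  have e : sg d l (m + 1) ^ (2 + s) = sg d l (m + 1) * sg d l (m + 1) ^ (1 + s) := by
    rw [show (2 : ℝ) + s = 1 + (1 + s) by ring, rpow_add p2, rpow_one]
  have q1 : 0 < sg d l (m + 1) ^ (1 + s) := rpow_pos_of_pos p2 _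
  have e1 : sg d l (n + 1) = l * (((n : ℝ) + 1) / ((d : ℝ) - n)) := by
    unfold sg; push_cast; rw [show (d : ℝ) + 1 - (n + 1) = d - n by ring]
  have e2 : sg d l (m + 1) = l * (((m : ℝ) + 1) / ((d : ℝ) - m)) := by
    unfold sg; push_cast; rw [show (d : ℝ) + 1 - (m + 1) = d - m by ring]
  have hA : Aa d (n + 1) m = ((d : ℝ) - n) * (m + 1) + (n + 1) * ((d : ℝ) - m) := by
    rw [Aa_eq]; push_cast; ring
  have hApos : 0 < ((d : ℝ) - n) * (m + 1) + (n + 1) * ((d : ℝ) - m) := by positivity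
  -- the ratio
  have e3 : sg d l (n + 1) ^ 2 / (sg d l (n + 1) + sg d l (m + 1)) =
      sg d l (m + 1) * ((((n : ℝ) + 1) * ((d : ℝ) - m)) ^ 2 / ((((d : ℝ) - n) * (m + 1)) *
        (((d : ℝ) - n) * (m + 1) + (n + 1) * ((d : ℝ) - m)))) := by
    rw [e1, e2]
    field_simp
    ring
  have e4 : (((d : ℝ) - n) * ((d : ℝ) - m) + ((n : ℝ) + 1) * ((m : ℝ) + 1)) *
      ((((n : ℝ) + 1) * ((d : ℝ) - m)) ^ 2 / ((((d : ℝ) - n) * (m + 1)) *
        (((d : ℝ) - n) * (m + 1) + (n + 1) * ((d : ℝ) - m)))) = tt d (n + 1) m := by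
    unfold tt
    rw [hA]
    push_cast
    rw [show (d : ℝ) + 1 - (n + 1) = d - n by ring]
    field_simp
    ring
  rw [hu m hm, e, ← e4]
  have e5 : sg d l (n + 1) ^ 2 * sg d l (m + 1) ^ (1 + s) / (sg d l (n + 1) + sg d l (m + 1)) =
      sg d l (m + 1) ^ (1 + s) * (sg d l (n + 1) ^ 2 / (sg d l (n + 1) + sg d l (m + 1))) := by
    ring
  rw [e5, e3]
  ring

theorem E_identity {s : ℝ} (d : ℕ) (u : ℕ → ℝ) {l : ℝ} (hl : 0 < l)
    (hu : ∀ n < d, u n = -(sg d l (n + 1) ^ (2 + s) * u (n + 1)))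
    (hsum : ∑ n ∈ range (d + 1), u n = 0) :
    Pf (range d) (fun n => sg d l (n + 1)) (fun n => ((d : ℝ) - n) * u (n + 1)) s +
      Pf (range d) (fun n => sg d l (n + 1)) (fun n => ((n : ℝ) + 1) * u (n + 1)) s =
    -2 * (((d : ℝ) + 1) ^ 2 * (∑ n ∈ range (d + 1), ∑ m ∈ range (d + 1),
        u n * u m * ((((d : ℝ) + 1 - n) * (m + 1)) / Aa d n m)) +
      (∑ n ∈ range (d + 1), (n : ℝ) * u n) ^ 2 -
      ((d : ℝ) + 1) * (∑ n ∈ range (d + 1), (n : ℝ) * u n) *
        ((∑ n ∈ range (d + 1), u n * ((n : ℝ) / ((d : ℝ) + 1 - n))) -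
          ∑ m ∈ range (d + 1), u m * (((d : ℝ) - m) / (m + 1)))) := by
  set B : ℕ → ℕ → ℝ := fun n m =>
    (((d : ℝ) - n) * ((d : ℝ) - m) + ((n : ℝ) + 1) * ((m : ℝ) + 1)) * (u (n + 1) * u (m + 1)) *
      (sg d l (n + 1) ^ 2 * sg d l (m + 1) ^ (1 + s) / (sg d l (n + 1) + sg d l (m + 1))) with hB
  have e1 : Pf (range d) (fun n => sg d l (n + 1)) (fun n => ((d : ℝ) - n) * u (n + 1)) s +
      Pf (range d) (fun n => sg d l (n + 1)) (fun n => ((n : ℝ) + 1) * u (n + 1)) s =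
      2 * ∑ n ∈ range d, ∑ m ∈ range d, B n m := by
    have e2 : ∑ n ∈ range d, ∑ m ∈ range d, B n m = ∑ n ∈ range d, ∑ m ∈ range d, B m n := by
      rw [sum_comm]
    rw [two_mul]
    nth_rewrite 2 [e2]
    unfold Pf
    simp only [← sum_add_distrib]
    refine sum_congr rfl fun n _ => sum_congr rfl fun m _ => ?_
    simp only [hB]
    rw [add_comm (sg d l (m + 1)) (sg d l (n + 1))]
    ring
  have e3 : ∑ n ∈ range d, ∑ m ∈ range d, B n m =
      -∑ n ∈ range (d + 1), ∑ m ∈ range (d + 1), u n * u m * tt d n m := by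
    have e4 : ∀ n ∈ range (d + 1), ∑ m ∈ range (d + 1), u n * u m * tt d n m =
        ∑ m ∈ range d, u n * u m * tt d n m := by
      intro n hn
      rw [sum_range_succ, tt_d (by simpa [Nat.lt_succ_iff] using hn), mul_zero, add_zero]
    rw [sum_congr rfl e4, sum_range_succ']
    simp only [tt_zero, mul_zero, sum_const_zero, add_zero]
    rw [← sum_neg_distrib]
    refine sum_congr rfl fun n hn => ?_
    rw [← sum_neg_distrib]
    refine sum_congr rfl fun m hm => ?_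
    exact tt_term u hl hu (by simpa using hn) (by simpa using hm)
  have e5 : ∑ m ∈ range (d + 1), ((d : ℝ) - m) * u m = -∑ m ∈ range (d + 1), (m : ℝ) * u m := by
    simp only [sub_mul, sum_sub_distrib]
    rw [← mul_sum, hsum]; ring
  have hsq : ∑ n ∈ range (d + 1), ∑ m ∈ range (d + 1), u n * u m = 0 := by
    rw [← sum_mul_sum, hsum, zero_mul]
  have e6 : ∑ n ∈ range (d + 1), ∑ m ∈ range (d + 1), u n * u m * tt d n m =
      -((d : ℝ) + 1) ^ 2 * (∑ n ∈ range (d + 1), ∑ m ∈ range (d + 1), u n * u m) +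
      ((d : ℝ) + 1) ^ 2 * (∑ n ∈ range (d + 1), ∑ m ∈ range (d + 1),
        u n * u m * ((((d : ℝ) + 1 - n) * (m + 1)) / Aa d n m)) +
      ((d : ℝ) + 1) * ((∑ n ∈ range (d + 1), u n * ((n : ℝ) / ((d : ℝ) + 1 - n))) *
        ∑ m ∈ range (d + 1), ((d : ℝ) - m) * u m) +
      ((d : ℝ) + 1) * ((∑ n ∈ range (d + 1), (n : ℝ) * u n) *
        ∑ m ∈ range (d + 1), u m * (((d : ℝ) - m) / (m + 1))) -
      (∑ n ∈ range (d + 1), (n : ℝ) * u n) * ∑ m ∈ range (d + 1), ((d : ℝ) - m) * u m := by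
    rw [sum_mul_sum, sum_mul_sum, sum_mul_sum]
    simp only [mul_sum, ← sum_add_distrib, ← sum_sub_distrib]
    refine sum_congr rfl fun n _ => sum_congr rfl fun m _ => ?_
    unfold tt
    ring
  rw [e1, e3, e6, hsq, e5]
  ring

/-- **The sign of `N`** (binomial case). -/
theorem N_sign (hs : s ∈ Ioo (0 : ℝ) 1) (d : ℕ) (hd : 0 < d) (u : ℕ → ℝ) {l : ℝ} (hl : 0 < l)
    (hu : ∀ n < d, u n = -(sg d l (n + 1) ^ (2 + s) * u (n + 1))) (hud : u d ≠ 0)
    (hsum : ∑ n ∈ range (d + 1), u n = 0) :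
    0 < (∑ n ∈ range d, u (n + 1) * sg d l (n + 1)) * (∑ n ∈ range (d + 1), (n : ℝ) * u n) ∧
    ∀ r : ℝ, 0 < r → 0 < (∑ n ∈ range d, u (n + 1) * sg d l (n + 1)) *
      (∑ n ∈ range (d + 1), u n * (1 + r * sg d l n) ^ (2 + s) - r ^ (2 + s) * u d) := by
  have hR := R_nonneg d u hsum
  have hTd : ∀ n ≤ d, (((d : ℝ) + 1 - n) * ((d : ℝ) + 1)) / Aa d n d = 1 := fun n hn => Td_one hn
  obtain ⟨h1, h2⟩ := T_sign hs d hd u (sg d l)
    (fun n m => (((d : ℝ) + 1 - n) * (m + 1)) / Aa d n m) (sg_zero d l)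
    (fun n hn => sg_pos hl hn) (sg_inj hl) hu hud hsum (fun n hn m hm => sg_T hl hn hm) hTd hR
  refine ⟨?_, h2⟩
  set a1 := ∑ n ∈ range (d + 1), u n * ((n : ℝ) / ((d : ℝ) + 1 - n)) with ha1
  set b1 := ∑ m ∈ range (d + 1), u m * (((d : ℝ) - m) / (m + 1)) with hb1
  set N := ∑ n ∈ range (d + 1), (n : ℝ) * u n with hN
  have hM : ∑ n ∈ range d, u (n + 1) * sg d l (n + 1) = l * a1 := by
    rw [ha1, sum_range_succ', mul_add, mul_sum]
    simp only [Nat.cast_zero, zero_div, mul_zero, add_zero]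
    refine sum_congr rfl fun n _ => ?_
    unfold sg
    ring
  have hMp : ∑ n ∈ range d, u (n + 1) * sg d l (n + 1) ^ (1 + s) = -(b1 / l) := by
    rw [hb1, sum_range_succ, sub_self, zero_div, mul_zero, add_zero, sum_div, ← sum_neg_distrib]
    refine sum_congr rfl fun n hn => ?_
    have hn' : n < d := by simpa using hn
    have p2 := sg_pos hl hn'
    have e : sg d l (n + 1) ^ (2 + s) = sg d l (n + 1) * sg d l (n + 1) ^ (1 + s) := by
      rw [show (2 : ℝ) + s = 1 + (1 + s) by ring, rpow_add p2, rpow_one]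
    rw [hu n hn', e]
    have h3 : (0 : ℝ) < (d : ℝ) - n := by
      have : (n : ℝ) < d := by exact_mod_cast hn'
      linarith
    have e2 : sg d l (n + 1) = l * (((n : ℝ) + 1) / ((d : ℝ) - n)) := by
      unfold sg; push_cast; rw [show (d : ℝ) + 1 - (n + 1) = d - n by ring]
    have e3 : sg d l (n + 1) * (((d : ℝ) - n) / ((n : ℝ) + 1)) / l = 1 := by
      rw [e2]; field_simp
    calc u (n + 1) * sg d l (n + 1) ^ (1 + s) =
        u (n + 1) * sg d l (n + 1) ^ (1 + s) *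
          (sg d l (n + 1) * (((d : ℝ) - n) / ((n : ℝ) + 1)) / l) := by rw [e3, mul_one]
      _ = _ := by ring
  have hE := E_identity (s := s) d u hl hu hsum
  have hx : ∀ n ∈ range d, 0 < (fun n => sg d l (n + 1)) n :=
    fun n hn => sg_pos hl (by simpa using hn)
  have hE1 : 0 ≤ Pf (range d) (fun n => sg d l (n + 1)) (fun n => ((d : ℝ) - n) * u (n + 1)) s :=
    P_nonneg hs _ _ _ hx
  have hE2 : 0 < Pf (range d) (fun n => sg d l (n + 1)) (fun n => ((n : ℝ) + 1) * u (n + 1)) s := by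
    refine P_pos hs _ _ _ hx ?_ (n₀ := d - 1) (by simp; omega) ?_
    · intro n hn m hm hne
      exact sg_inj hl n (by simpa using hn) m (by simpa using hm) hne
    · show (((d - 1 : ℕ) : ℝ) + 1) * u (d - 1 + 1) ≠ 0
      rw [Nat.sub_add_cancel hd]
      exact mul_ne_zero (by positivity) hud
  rw [hM, hMp] at h1
  have h3 : a1 * b1 < 0 := by
    have : l * a1 * -(b1 / l) = -(a1 * b1) := by field_simp
    rw [this] at h1
    linarith
  have h4 : 0 < N * (a1 - b1) := by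
    have hD : (0 : ℝ) < (d : ℝ) + 1 := by positivity
    have h5 : 0 < ((d : ℝ) + 1) * (N * (a1 - b1)) := by
      have h6 : 0 ≤ ((d : ℝ) + 1) ^ 2 * (∑ n ∈ range (d + 1), ∑ m ∈ range (d + 1),
        u n * u m * ((((d : ℝ) + 1 - n) * (m + 1)) / Aa d n m)) := by positivity
      have h7 : 0 ≤ N ^ 2 := sq_nonneg _
      nlinarith [hE, hE1, hE2, h6, h7]
    exact pos_of_mul_pos_right h5 hD.le
  have h5 : 0 < a1 * (a1 - b1) := by nlinarith [sq_nonneg a1]
  have h6 : 0 < a1 * N := by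
    have h7 : 0 < (a1 * N) * (a1 - b1) ^ 2 := by nlinarith [mul_pos h4 h5]
    exact pos_of_mul_pos_left h7 (sq_nonneg _)
  rw [hM, mul_assoc]
  positivity

end Pool.Agent.Lib.MP_f91407_an
end

section

/-!
# The induction on the degree
-/

namespace Pool.Agent.Lib.MP_f91407_an

open Polynomial

/-- Coefficients of `(1 + r z)(1 + z)^d`. -/
noncomputable def cf (d : ℕ) (r : ℝ) (n : ℕ) : ℝ :=
  (d.choose n : ℝ) + r * (if n = 0 then 0 else (d.choose (n - 1) : ℝ))

theorem cf_zero (d : ℕ) (r : ℝ) : cf d r 0 = 1 := by simp [cf]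

theorem cf_succ (d : ℕ) (r : ℝ) (n : ℕ) :
    cf d r (n + 1) = (d.choose (n + 1) : ℝ) + r * (d.choose n : ℝ) := by simp [cf]

theorem cf_one (d n : ℕ) : cf d 1 n = ((d + 1).choose n : ℝ) := by
  cases n with
  | zero => simp [cf]
  | succ n =>
    rw [cf_succ, Nat.choose_succ_succ, one_mul]
    push_cast
    ring

theorem cf_nonneg (d : ℕ) {r : ℝ} (hr : 0 ≤ r) (n : ℕ) : 0 ≤ cf d r n := by
  unfold cf
  split_ifs <;> positivity

theorem cf_top (d : ℕ) (r : ℝ) : cf d r (d + 1) = r := by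
  rw [cf_succ, Nat.choose_self, Nat.choose_eq_zero_of_lt (Nat.lt_succ_self d)]
  simp

theorem cf_eq (d : ℕ) (r : ℝ) {n : ℕ} (hn : n ≤ d) :
    cf d r n = (d.choose n : ℝ) * (1 + r * ((n : ℝ) / ((d : ℝ) + 1 - n))) := by
  cases n with
  | zero => simp [cf]
  | succ n =>
    rw [cf_succ]
    have h1 := Nat.choose_succ_right_eq d n
    have h2 : ((d.choose (n + 1) : ℕ) : ℝ) * (n + 1) = (d.choose n : ℝ) * ((d : ℝ) - n) := by
      have : ((d - n : ℕ) : ℝ) = (d : ℝ) - n := by rw [Nat.cast_sub (by omega)]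
      rw [← this]
      exact_mod_cast h1
    have h3 : (0 : ℝ) < (d : ℝ) - n := by
      have : ((n + 1 : ℕ) : ℝ) ≤ d := by exact_mod_cast hn
      push_cast at this
      linarith
    have h4 : (d.choose n : ℝ) = (d.choose (n + 1) : ℝ) * ((n + 1) / ((d : ℝ) - n)) := by
      field_simp
      linarith
    push_cast
    rw [show (d : ℝ) + 1 - (n + 1) = d - n by ring, h4]
    ring

theorem splits_of_RRn {n : ℕ} {a : ℕ → ℝ} (h : RRn n a) : (poly n a).Splits := by
  refine Splits.of_splits_map (algebraMap ℝ ℂ) (IsAlgClosed.splits _) ?_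
  intro z hz
  have hz' : aeval z (poly n a) = 0 := by
    have := (mem_roots'.mp hz).2
    simpa [IsRoot, eval_map, aeval_def] using this
  rw [aeval_poly] at hz'
  have := h z hz'
  exact ⟨z.re, by apply Complex.ext <;> simp [this]⟩

theorem natDegree_poly {n : ℕ} {a : ℕ → ℝ} (h : a n ≠ 0) : (poly n a).natDegree = n := by
  apply natDegree_eq_of_le_of_coeff_ne_zero
  · rw [natDegree_le_iff_coeff_eq_zero]
    intro i hi
    rw [coeff_poly, if_neg (by omega)]
  · rw [coeff_poly, if_pos le_rfl]; exact h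

theorem leadingCoeff_poly {n : ℕ} {a : ℕ → ℝ} (h : a n ≠ 0) : (poly n a).leadingCoeff = a n := by
  rw [leadingCoeff, natDegree_poly h, coeff_poly, if_pos le_rfl]

variable {s : ℝ}

/-- **The induction step.** -/
theorem bin_step (hs : s ∈ Set.Ioo (0 : ℝ) 1) {d : ℕ}
    (h : RRn d fun n => (d.choose n : ℝ) ^ (2 + s)) {r : ℝ} (hr : 0 < r) :
    RRn (d + 1) fun n => cf d r n ^ (2 + s) := by
  have hs0 := hs.1
  have hp0 : (2 + s) ≠ 0 := by linarith
  set a : ℕ → ℝ := fun n => (d.choose n : ℝ) ^ (2 + s) with ha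
  set b : ℕ → ℝ := fun n => cf d r n ^ (2 + s) with hb
  have had : a d = 1 := by simp [ha]
  have hbd : b (d + 1) = r ^ (2 + s) := by simp only [hb]; rw [cf_top]
  have hbd0 : 0 < b (d + 1) := by rw [hbd]; exact Real.rpow_pos_of_pos hr _
  intro z hz
  rw [← aeval_poly] at hz
  refine interlace (G := poly d a) (T := poly (d + 1) b) (d := d) (natDegree_poly (by rw [had]; simp))
    (natDegree_poly hbd0.ne') (by rw [leadingCoeff_poly (by rw [had]; simp), had]; exact one_pos)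
    (by rw [leadingCoeff_poly hbd0.ne']; exact hbd0) (splits_of_RRn h) ?_ z hz
  intro x hx
  rw [eval_poly] at hx
  -- `x < 0`
  have hapos : ∀ n ≤ d, 0 < a n := by
    intro n hn
    simp only [ha]
    apply Real.rpow_pos_of_pos
    exact_mod_cast Nat.choose_pos hn
  have hx0 : x < 0 := by
    by_contra hge
    push Not at hge
    have h1 : 0 < ∑ j ∈ Finset.range (d + 1), a j * x ^ j := by
      rw [Finset.sum_range_succ']
      have h2 : 0 ≤ ∑ j ∈ Finset.range d, a (j + 1) * x ^ (j + 1) :=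
        Finset.sum_nonneg fun j hj => by
          have := hapos (j + 1) (by have := Finset.mem_range.mp hj; omega)
          positivity
      have := hapos 0 (Nat.zero_le _)
      simp only [pow_zero, mul_one]
      linarith
    rw [hx] at h1
    exact lt_irrefl _ h1
  have hd : 0 < d := by
    rcases Nat.eq_zero_or_pos d with h0 | h0
    · exfalso
      subst h0
      simp [ha] at hx
    · exact h0
  set l : ℝ := (-x) ^ (-(1 / (2 + s))) with hl
  have hmx : 0 < -x := by linarith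
  have hl0 : 0 < l := Real.rpow_pos_of_pos hmx _
  have hlp : l ^ (2 + s) = (-x)⁻¹ := by
    rw [hl, ← Real.rpow_mul hmx.le, show -(1 / (2 + s)) * (2 + s) = -1 by field_simp,
      Real.rpow_neg_one]
  set u : ℕ → ℝ := fun n => a n * x ^ n with hu
  have hsum : ∑ n ∈ Finset.range (d + 1), u n = 0 := hx
  have hud : u d ≠ 0 := by
    simp only [hu]
    rw [had, one_mul]
    exact pow_ne_zero _ hx0.ne
  have hrec : ∀ n < d, u n = -(sg d l (n + 1) ^ (2 + s) * u (n + 1)) := by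
    intro n hn
    have h1 := cf_eq d 1 (show n + 1 ≤ d by omega)
    have h2 := Nat.choose_succ_right_eq d n
    have h3 : ((d.choose (n + 1) : ℕ) : ℝ) * (n + 1) = (d.choose n : ℝ) * ((d : ℝ) - n) := by
      have : ((d - n : ℕ) : ℝ) = (d : ℝ) - n := by rw [Nat.cast_sub (by omega)]
      rw [← this]
      exact_mod_cast h2
    have h4 : (0 : ℝ) < (d : ℝ) - n := by
      have : (n : ℝ) < d := by exact_mod_cast hn
      linarith
    have h5 : sg d l (n + 1) = l * (((n : ℝ) + 1) / ((d : ℝ) - n)) := by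
      unfold sg; push_cast; rw [show (d : ℝ) + 1 - (n + 1) = d - n by ring]
    have h6 : (d.choose n : ℝ) = (((n : ℝ) + 1) / ((d : ℝ) - n)) * (d.choose (n + 1) : ℝ) := by
      field_simp
      linarith
    simp only [hu, ha]
    rw [h5, Real.mul_rpow hl0.le (by positivity), hlp, h6, Real.mul_rpow (by positivity)
      (by positivity), pow_succ]
    have : x ≠ 0 := hx0.ne
    field_simp
  obtain ⟨h1, h2⟩ := N_sign hs d hd u hl0 hrec hud hsum
  have h3 := h2 (r / l) (by positivity)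
  set M := ∑ n ∈ Finset.range d, u (n + 1) * sg d l (n + 1)
  -- the value of `T`
  have hT : (poly (d + 1) b).eval x =
      ∑ n ∈ Finset.range (d + 1), u n * (1 + r / l * sg d l n) ^ (2 + s) -
        (r / l) ^ (2 + s) * u d := by
    rw [eval_poly, Finset.sum_range_succ, hbd, sub_eq_add_neg]
    congr 1
    · refine Finset.sum_congr rfl fun n hn => ?_
      have hn' : n ≤ d := by simpa [Nat.lt_succ_iff] using hn
      have h4 := sub_pos_of hn'
      simp only [hb, hu, ha]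
      rw [cf_eq d r hn', Real.mul_rpow (by positivity) (by positivity)]
      have h5 : r / l * sg d l n = r * ((n : ℝ) / ((d : ℝ) + 1 - n)) := by
        unfold sg; field_simp
      rw [h5]
      ring
    · simp only [hu]
      rw [had, Real.div_rpow hr.le hl0.le, hlp, pow_succ]
      have : x ≠ 0 := hx0.ne
      field_simp
  have hG : x * (derivative (poly d a)).eval x = ∑ n ∈ Finset.range (d + 1), (n : ℝ) * u n := by
    unfold poly
    rw [derivative_sum, eval_finsetSum, Finset.mul_sum]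
    refine Finset.sum_congr rfl fun n _ => ?_
    rw [derivative_C_mul_X_pow]
    simp only [eval_mul, eval_C, eval_pow, eval_X, hu]
    cases n with
    | zero => simp
    | succ n => simp only [Nat.add_sub_cancel]; rw [pow_succ]; ring
  rw [← hT] at h3
  rw [← hG] at h1
  have h4 : 0 < (M * (poly (d + 1) b).eval x) * (M * (x * (derivative (poly d a)).eval x)) :=
    mul_pos h3 h1
  have h5 : 0 < M ^ 2 * (-x) * -((poly (d + 1) b).eval x * (derivative (poly d a)).eval x) := by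
    nlinarith [h4]
  have h6 : 0 ≤ M ^ 2 * (-x) := by positivity
  have h7 := pos_of_mul_pos_right h5 h6
  linarith

theorem bin_all (hs : s ∈ Set.Ioo (0 : ℝ) 1) (d : ℕ) :
    RRn d fun n => (d.choose n : ℝ) ^ (2 + s) := by
  induction d with
  | zero =>
    intro z hz
    simp at hz
  | succ d ih =>
    have h1 := bin_step hs ih one_pos
    simpa only [cf_one] using h1

/-- `(1 + r z)(1 + z)^d`, exponent `2 + s`. -/
theorem cf_all (hs : s ∈ Set.Ioo (0 : ℝ) 1) (d : ℕ) {r : ℝ} (hr : 0 ≤ r) :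
    RRn (d + 1) fun n => cf d r n ^ (2 + s) := by
  rcases hr.eq_or_lt with h | h
  · subst h
    have e : (fun n => cf d 0 n ^ (2 + s)) = fun n => (d.choose n : ℝ) ^ (2 + s) := by
      funext n; simp [cf]
    rw [e]
    refine (RRn_iff_of_le (Nat.le_succ d) ?_).mpr (bin_all hs d)
    intro j hj
    rw [Nat.choose_eq_zero_of_lt hj, Nat.cast_zero, Real.zero_rpow (by linarith [hs.1])]
  · exact bin_step hs (bin_all hs d) h

end Pool.Agent.Lib.MP_f91407_an
end
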