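import Pool.Agent.Lib.MP_f91407_an.Series

section

/-!
# An integral identity for `∑ (-x)^j / (j!)^p`
-/

namespace Pool.Agent.Lib.MP_f91407_an

open Filter Topology MeasureTheory Set

theorem gg_succ (p : ℝ) (j : ℕ) :
    gg p (j + 1) = (1 / ((j : ℝ) + 1)) ^ p * gg p j := by
  unfold gg
  rw [Nat.factorial_succ, ← Real.mul_rpow (by positivity) (by positivity)]
  congr 1
  push_cast
  have hf : (j.factorial : ℝ) ≠ 0 := by exact_mod_cast (Nat.factorial_pos j).ne'
  field_simp

theorem laplace_int {a : ℝ} (ha : 0 < a) (j : ℕ) (c : ℝ) :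
    Integrable (fun t : ℝ => c * (t ^ (a - 1) * Real.exp (-(((j : ℝ) + 1) * t))))
      (volume.restrict (Ioi 0)) ∧
    ∫ t : ℝ in Ioi 0, c * (t ^ (a - 1) * Real.exp (-(((j : ℝ) + 1) * t))) =
      c * ((1 / ((j : ℝ) + 1)) ^ a * Real.Gamma a) ∧
    ∫ t : ℝ in Ioi 0, ‖c * (t ^ (a - 1) * Real.exp (-(((j : ℝ) + 1) * t)))‖ =
      |c| * ((1 / ((j : ℝ) + 1)) ^ a * Real.Gamma a) := by
  have hj : (0 : ℝ) < (j : ℝ) + 1 := by positivity
  have h1 := Real.integral_rpow_mul_exp_neg_mul_Ioi ha hj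
  have hG := Real.Gamma_pos_of_pos ha
  have hi : Integrable (fun t : ℝ => t ^ (a - 1) * Real.exp (-(((j : ℝ) + 1) * t)))
      (volume.restrict (Ioi 0)) := by
    apply Integrable.of_integral_ne_zero
    rw [h1]; positivity
  refine ⟨hi.const_mul c, ?_, ?_⟩
  · rw [integral_const_mul, h1]
  · rw [← h1, ← integral_const_mul]
    apply setIntegral_congr_fun measurableSet_Ioi
    intro t ht
    have ht' : 0 < t := ht
    simp only
    rw [norm_mul, Real.norm_eq_abs c, Real.norm_of_nonneg]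
    positivity

theorem identity {p : ℝ} (hp1 : 1 < p) (hp2 : p < 2) {x : ℝ} (hx : 0 < x) :
    ∫ t : ℝ in Ioi 0, (rr p (x * Real.exp (-t)) - 1) * t ^ (1 - p) =
      -Real.Gamma (2 - p) *
        ∫ t : ℝ in Ioi 0, t * (x * Real.exp (-t) * rr p (x * Real.exp (-t))) := by
  have ha : 0 < 2 - p := by linarith
  have hG := Real.Gamma_pos_of_pos ha
  have hinv : ∀ j : ℕ, 0 < 1 / ((j : ℝ) + 1) ∧ 1 / ((j : ℝ) + 1) ≤ 1 := by
    intro j
    have : (1 : ℝ) ≤ (j : ℝ) + 1 := by linarith [Nat.cast_nonneg (α := ℝ) j]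
    exact ⟨by positivity, by rw [div_le_one (by linarith)]; exact this⟩
  -- first integral
  have H1 : ∫ t : ℝ in Ioi 0, (rr p (x * Real.exp (-t)) - 1) * t ^ (1 - p) =
      ∑' j : ℕ, gg p (j + 1) * (-x) ^ (j + 1) *
        ((1 / ((j : ℝ) + 1)) ^ (2 - p) * Real.Gamma (2 - p)) := by
    have h := integral_tsum_of_summable_integral_norm
      (μ := volume.restrict (Ioi (0 : ℝ)))
      (F := fun (j : ℕ) (t : ℝ) => gg p (j + 1) * (-x) ^ (j + 1) *
        (t ^ ((2 - p) - 1) * Real.exp (-(((j : ℝ) + 1) * t))))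
      (fun j => (laplace_int ha j _).1) (by
        refine Summable.of_norm_bounded
          (g := fun j : ℕ => (|x| ^ (j + 1) / ((j + 1).factorial : ℝ)) * Real.Gamma (2 - p))
          (((summable_nat_add_iff 1).mpr (summable_exp |x|)).mul_right _) ?_
        intro j
        rw [(laplace_int ha j _).2.2, Real.norm_of_nonneg (by
          have := (hinv j).1; positivity)]
        have h1 := rr_bound hp1.le x (j + 1)
        rw [Real.norm_eq_abs] at h1
        have h2 : (1 / ((j : ℝ) + 1)) ^ (2 - p) ≤ 1 :=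
          Real.rpow_le_one (hinv j).1.le (hinv j).2 ha.le
        apply mul_le_mul h1 _ (by have := (hinv j).1; positivity) (by positivity)
        nlinarith)
    calc ∫ t : ℝ in Ioi 0, (rr p (x * Real.exp (-t)) - 1) * t ^ (1 - p)
        = ∫ t : ℝ in Ioi 0, ∑' j : ℕ, gg p (j + 1) * (-x) ^ (j + 1) *
          (t ^ ((2 - p) - 1) * Real.exp (-(((j : ℝ) + 1) * t))) := by
          apply setIntegral_congr_fun measurableSet_Ioi
          intro t _
          simp only
          have hs := rr_summable hp1.le (x * Real.exp (-t))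
          unfold rr
          rw [hs.tsum_eq_zero_add, gg_zero, pow_zero, mul_one, add_sub_cancel_left,
            ← tsum_mul_right]
          refine tsum_congr fun j => ?_
          rw [show (2 - p) - 1 = 1 - p by ring]
          have e : Real.exp (-(((j : ℝ) + 1) * t)) = Real.exp (-t) ^ (j + 1) := by
            rw [← Real.exp_nat_mul]; congr 1; push_cast; ring
          rw [e, show -(x * Real.exp (-t)) = (-x) * Real.exp (-t) by ring, mul_pow]
          ring
      _ = ∑' j : ℕ, ∫ t : ℝ in Ioi 0, gg p (j + 1) * (-x) ^ (j + 1) *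
          (t ^ ((2 - p) - 1) * Real.exp (-(((j : ℝ) + 1) * t))) := h.symm
      _ = _ := tsum_congr fun j => (laplace_int ha j _).2.1
  have H2 : ∫ t : ℝ in Ioi 0, t * (x * Real.exp (-t) * rr p (x * Real.exp (-t))) =
      ∑' j : ℕ, gg p j * (-x) ^ j * x *
        ((1 / ((j : ℝ) + 1)) ^ (2 : ℝ) * Real.Gamma 2) := by
    have h := integral_tsum_of_summable_integral_norm
      (μ := volume.restrict (Ioi (0 : ℝ)))
      (F := fun (j : ℕ) (t : ℝ) => gg p j * (-x) ^ j * x *
        (t ^ ((2 : ℝ) - 1) * Real.exp (-(((j : ℝ) + 1) * t))))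
      (fun j => (laplace_int two_pos j _).1) (by
        refine Summable.of_norm_bounded
          (g := fun j : ℕ => (|x| ^ j / (j.factorial : ℝ)) * |x|)
          ((summable_exp |x|).mul_right _) ?_
        intro j
        have hG2 : Real.Gamma 2 = 1 := Real.Gamma_two
        rw [(laplace_int two_pos j _).2.2, hG2, mul_one, Real.norm_of_nonneg (by
          have := (hinv j).1; positivity)]
        have h1 := rr_bound hp1.le x j
        rw [Real.norm_eq_abs] at h1
        have h2 : (1 / ((j : ℝ) + 1)) ^ (2 : ℝ) ≤ 1 :=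
          Real.rpow_le_one (hinv j).1.le (hinv j).2 (by norm_num)
        rw [abs_mul]
        calc |gg p j * (-x) ^ j| * |x| * (1 / ((j : ℝ) + 1)) ^ (2 : ℝ)
            ≤ |gg p j * (-x) ^ j| * |x| * 1 := mul_le_mul_of_nonneg_left h2 (by positivity)
          _ ≤ (|x| ^ j / (j.factorial : ℝ)) * |x| := by
              rw [mul_one]
              exact mul_le_mul_of_nonneg_right h1 (abs_nonneg x))
    calc ∫ t : ℝ in Ioi 0, t * (x * Real.exp (-t) * rr p (x * Real.exp (-t)))
        = ∫ t : ℝ in Ioi 0, ∑' j : ℕ, gg p j * (-x) ^ j * x *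
          (t ^ ((2 : ℝ) - 1) * Real.exp (-(((j : ℝ) + 1) * t))) := by
          apply setIntegral_congr_fun measurableSet_Ioi
          intro t _
          simp only
          unfold rr
          rw [← tsum_mul_left, ← tsum_mul_left]
          refine tsum_congr fun j => ?_
          have e : Real.exp (-(((j : ℝ) + 1) * t)) = Real.exp (-t) ^ (j + 1) := by
            rw [← Real.exp_nat_mul]; congr 1; push_cast; ring
          rw [e, show -(x * Real.exp (-t)) = (-x) * Real.exp (-t) by ring, mul_pow,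
            show (2 : ℝ) - 1 = 1 by norm_num, Real.rpow_one, pow_succ]
          ring
      _ = ∑' j : ℕ, ∫ t : ℝ in Ioi 0, gg p j * (-x) ^ j * x *
          (t ^ ((2 : ℝ) - 1) * Real.exp (-(((j : ℝ) + 1) * t))) := h.symm
      _ = _ := tsum_congr fun j => (laplace_int two_pos j _).2.1
  rw [H1, H2, ← tsum_mul_left]
  refine tsum_congr fun j => ?_
  have h1 := (hinv j).1
  have e1 : (1 / ((j : ℝ) + 1)) ^ (2 : ℝ) =
      (1 / ((j : ℝ) + 1)) ^ p * (1 / ((j : ℝ) + 1)) ^ (2 - p) := by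
    rw [← Real.rpow_add h1]; congr 1; ring
  rw [gg_succ, e1, Real.Gamma_two, pow_succ]
  ring

end Pool.Agent.Lib.MP_f91407_an
end

section

/-!
# Asymptotic contradiction for `1 < p < 2`
-/

namespace Pool.Agent.Lib.MP_f91407_an

open Filter Topology MeasureTheory Set

theorem exp_neg_abs_le (τ : ℝ) : Real.exp (-|τ|) ≤ 2 * (1 + τ ^ 2)⁻¹ := by
  have h1 := Real.quadratic_le_exp_of_nonneg (abs_nonneg τ)
  rw [sq_abs] at h1
  have h2 : 0 < 1 + τ ^ 2 := by positivity
  rw [Real.exp_neg, ← div_eq_mul_inv, le_div_iff₀ h2, inv_mul_le_iff₀ (Real.exp_pos _)]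
  nlinarith [abs_nonneg τ]

theorem abs_mul_exp_neg_abs_le (τ : ℝ) : |τ| * Real.exp (-|τ|) ≤ 6 * (1 + τ ^ 2)⁻¹ := by
  have h0 := abs_nonneg τ
  have h1 := Real.sum_le_exp_of_nonneg h0 4
  simp [Finset.sum_range_succ, Nat.factorial] at h1
  have h3 : |τ| ^ 3 = |τ| * τ ^ 2 := by rw [← sq_abs τ]; ring
  rw [h3] at h1
  have h2 : 0 < 1 + τ ^ 2 := by positivity
  rw [Real.exp_neg, ← div_eq_mul_inv, ← div_eq_mul_inv, div_le_div_iff₀ (Real.exp_pos _) h2]
  nlinarith [mul_nonneg h0 (sq_nonneg τ), sq_nonneg τ]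

theorem integrable_exp_neg_abs : Integrable (fun t : ℝ => Real.exp (-|t|)) := by
  refine Integrable.mono' (integrable_inv_one_add_sq.const_mul 2) ?_ ?_
  · exact Continuous.aestronglyMeasurable (by fun_prop)
  · filter_upwards with t
    rw [Real.norm_of_nonneg (Real.exp_pos _).le]
    exact exp_neg_abs_le t

section

variable {ρ : ℝ → ℝ} {C : ℝ}

theorem g_bound (hC : 1 ≤ C) (hl : ∀ τ, τ ≤ 0 → |ρ τ - 1| ≤ C * Real.exp τ)
    (hr : ∀ τ, 0 ≤ τ → |ρ τ| ≤ C * Real.exp (-(2 * τ))) (τ : ℝ) :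
    |Real.exp τ * ρ τ| ≤ 2 * C * Real.exp (-|τ|) := by
  rw [abs_mul, abs_of_pos (Real.exp_pos τ)]
  rcases le_total τ 0 with h | h
  · rw [abs_of_nonpos h, neg_neg]
    have h1 := hl τ h
    have h2 : Real.exp τ ≤ 1 := by rw [← Real.exp_zero]; exact Real.exp_le_exp.mpr h
    have h3 : |ρ τ| ≤ 2 * C := by
      have h4 : |ρ τ| ≤ |ρ τ - 1| + 1 := by
        have := abs_add_le (ρ τ - 1) 1
        rw [sub_add_cancel, abs_one] at this
        exact this
      nlinarith
    rw [mul_comm]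
    exact mul_le_mul_of_nonneg_right h3 (Real.exp_pos τ).le
  · rw [abs_of_nonneg h]
    have h1 := mul_le_mul_of_nonneg_left (hr τ h) (Real.exp_pos τ).le
    have e1 : Real.exp τ * (C * Real.exp (-(2 * τ))) = C * Real.exp (-τ) := by
      rw [mul_left_comm, ← Real.exp_add]; congr 2; ring
    rw [e1] at h1
    have := Real.exp_pos (-τ)
    nlinarith

theorem int_g (hρ : Continuous ρ) (hC : 1 ≤ C)
    (hl : ∀ τ, τ ≤ 0 → |ρ τ - 1| ≤ C * Real.exp τ)
    (hr : ∀ τ, 0 ≤ τ → |ρ τ| ≤ C * Real.exp (-(2 * τ))) :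
    Integrable (fun τ : ℝ => Real.exp τ * ρ τ) ∧
      Integrable (fun τ : ℝ => |τ| * |Real.exp τ * ρ τ|) := by
  constructor
  · refine Integrable.mono' (integrable_exp_neg_abs.const_mul (2 * C)) ?_ ?_
    · exact Continuous.aestronglyMeasurable (by fun_prop)
    · filter_upwards with t
      rw [Real.norm_eq_abs]
      exact g_bound hC hl hr t
  · refine Integrable.mono' (integrable_inv_one_add_sq.const_mul (2 * C * 6)) ?_ ?_
    · exact Continuous.aestronglyMeasurable (by fun_prop)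
    · filter_upwards with t
      rw [Real.norm_of_nonneg (by positivity)]
      have h1 := mul_le_mul_of_nonneg_left (g_bound hC hl hr t) (abs_nonneg t)
      have h2 := abs_mul_exp_neg_abs_le t
      nlinarith

/-- The second integral, rewritten. -/
theorem second_int (L : ℝ) :
    ∫ t : ℝ in Ioi 0, t * (Real.exp (L - t) * ρ (L - t)) =
      ∫ τ : ℝ, max (L - τ) 0 * (Real.exp τ * ρ τ) := by
  rw [← integral_indicator measurableSet_Ioi]
  have e1 : (fun t : ℝ => (Ioi (0 : ℝ)).indicator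
      (fun t => t * (Real.exp (L - t) * ρ (L - t))) t) =
      fun t => (fun τ => max (L - τ) 0 * (Real.exp τ * ρ τ)) (L - t) := by
    funext t
    simp only [sub_sub_cancel]
    by_cases h : 0 < t
    · rw [indicator_of_mem (show t ∈ Ioi (0 : ℝ) from h), max_eq_left h.le]
    · rw [indicator_of_notMem (show t ∉ Ioi (0 : ℝ) from h), max_eq_right (not_lt.mp h), zero_mul]
  rw [e1, integral_sub_left_eq_self (fun τ => max (L - τ) 0 * (Real.exp τ * ρ τ)) volume L]

theorem second_diff (hρ : Continuous ρ) (hC : 1 ≤ C)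
    (hl : ∀ τ, τ ≤ 0 → |ρ τ - 1| ≤ C * Real.exp τ)
    (hr : ∀ τ, 0 ≤ τ → |ρ τ| ≤ C * Real.exp (-(2 * τ))) {L : ℝ} (hL : 0 ≤ L) :
    |(∫ τ : ℝ, max (L - τ) 0 * (Real.exp τ * ρ τ)) -
      2 * (∫ τ : ℝ, max (2 * L - τ) 0 * (Real.exp τ * ρ τ)) +
      (∫ τ : ℝ, max (3 * L - τ) 0 * (Real.exp τ * ρ τ))| ≤
      ∫ τ : ℝ, |τ| * |Real.exp τ * ρ τ| := by
  obtain ⟨hg, hg2⟩ := int_g hρ hC hl hr
  have hint : ∀ M : ℝ, Integrable (fun τ : ℝ => max (M - τ) 0 * (Real.exp τ * ρ τ)) := by
    intro M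
    refine Integrable.mono' ((hg.abs.const_mul |M|).add hg2) ?_ ?_
    · exact Continuous.aestronglyMeasurable (by fun_prop)
    · filter_upwards with τ
      rw [Real.norm_eq_abs, abs_mul, Pi.add_apply]
      rw [← add_mul]
      apply mul_le_mul_of_nonneg_right _ (abs_nonneg _)
      rw [abs_of_nonneg (le_max_right _ _)]
      apply max_le
      · have := abs_sub M τ
        exact (le_abs_self _).trans this
      · positivity
  have e0 : (∫ τ : ℝ, max (L - τ) 0 * (Real.exp τ * ρ τ)) -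
      2 * (∫ τ : ℝ, max (2 * L - τ) 0 * (Real.exp τ * ρ τ)) +
      (∫ τ : ℝ, max (3 * L - τ) 0 * (Real.exp τ * ρ τ)) =
      ∫ τ : ℝ, (max (L - τ) 0 * (Real.exp τ * ρ τ) -
        2 * (max (2 * L - τ) 0 * (Real.exp τ * ρ τ)) +
        max (3 * L - τ) 0 * (Real.exp τ * ρ τ)) := by
    rw [integral_add (f := fun τ : ℝ => max (L - τ) 0 * (Real.exp τ * ρ τ) -
        2 * (max (2 * L - τ) 0 * (Real.exp τ * ρ τ)))
      (g := fun τ : ℝ => max (3 * L - τ) 0 * (Real.exp τ * ρ τ))
      ((hint _).sub ((hint _).const_mul 2)) (hint _),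
      integral_sub (f := fun τ : ℝ => max (L - τ) 0 * (Real.exp τ * ρ τ))
      (g := fun τ : ℝ => 2 * (max (2 * L - τ) 0 * (Real.exp τ * ρ τ)))
      (hint _) ((hint _).const_mul 2), integral_const_mul]
  rw [e0, ← Real.norm_eq_abs]
  refine norm_integral_le_of_norm_le hg2 ?_
  filter_upwards with τ
  rw [Real.norm_eq_abs]
  have e1 : max (L - τ) 0 * (Real.exp τ * ρ τ) - 2 * (max (2 * L - τ) 0 * (Real.exp τ * ρ τ)) +
      max (3 * L - τ) 0 * (Real.exp τ * ρ τ) =
      (max (L - τ) 0 - 2 * max (2 * L - τ) 0 + max (3 * L - τ) 0) * (Real.exp τ * ρ τ) := by ring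
  rw [e1, abs_mul]
  apply mul_le_mul_of_nonneg_right _ (abs_nonneg _)
  rcases le_total τ L with h1 | h1
  · rw [max_eq_left (by linarith), max_eq_left (by linarith), max_eq_left (by linarith)]
    rw [show L - τ - 2 * (2 * L - τ) + (3 * L - τ) = 0 by ring, abs_zero]
    exact abs_nonneg τ
  · rw [abs_of_nonneg (by linarith : 0 ≤ τ), max_eq_right (by linarith : L - τ ≤ 0)]
    rcases le_total τ (2 * L) with h2 | h2
    · rw [max_eq_left (by linarith), max_eq_left (by linarith), abs_le]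
      constructor <;> linarith
    · rw [max_eq_right (by linarith : 2 * L - τ ≤ 0)]
      rcases le_total τ (3 * L) with h3 | h3
      · rw [max_eq_left (by linarith), abs_le]
        constructor <;> linarith
      · rw [max_eq_right (by linarith), abs_le]
        constructor <;> linarith

theorem int_rpow_Ioc {α M : ℝ} (hα : 0 < α) (hM : 0 ≤ M) :
    IntegrableOn (fun t : ℝ => t ^ (α - 1)) (Ioc 0 M) ∧
      ∫ t in Ioc 0 M, t ^ (α - 1) = M ^ α / α := by
  have h1 : IntervalIntegrable (fun t : ℝ => t ^ (α - 1)) volume 0 M :=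
    intervalIntegral.intervalIntegrable_rpow' (by linarith)
  constructor
  · exact (intervalIntegrable_iff_integrableOn_Ioc_of_le hM).mp h1
  · rw [← intervalIntegral.integral_of_le hM, integral_rpow (Or.inl (by linarith))]
    rw [sub_add_cancel, Real.zero_rpow hα.ne', sub_zero]

theorem first_int (hρ : Continuous ρ) (hC : 1 ≤ C)
    (hl : ∀ τ, τ ≤ 0 → |ρ τ - 1| ≤ C * Real.exp τ)
    (hr : ∀ τ, 0 ≤ τ → |ρ τ| ≤ C * Real.exp (-(2 * τ))) {α L : ℝ} (hα : 0 < α) (hα1 : α < 1)
    (hL : 0 ≤ L) :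
    |(∫ t : ℝ in Ioi 0, (ρ (L - t) - 1) * t ^ (α - 1)) + L ^ α / α| ≤
      C * (1 / α + ∫ t : ℝ, Real.exp (-|t|)) := by
  set A : ℝ → ℝ := fun t => (ρ (L - t) - 1) * t ^ (α - 1) with hA
  set B : ℝ → ℝ := (Ioc 0 L).indicator (fun t => t ^ (α - 1)) with hB
  set D1 : ℝ → ℝ := (Ioc 0 1).indicator (fun t => t ^ (α - 1)) with hD1
  set D2 : ℝ → ℝ := fun t => Real.exp (-|L - t|) with hD2
  obtain ⟨hi1, hv1⟩ := int_rpow_Ioc hα hL
  obtain ⟨hi2, hv2⟩ := int_rpow_Ioc hα zero_le_one
  have hBi : Integrable B := (integrable_indicator_iff measurableSet_Ioc).mpr hi1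
  have hD1i : Integrable D1 := (integrable_indicator_iff measurableSet_Ioc).mpr hi2
  have hD2i : Integrable D2 := integrable_exp_neg_abs.comp_sub_left L
  have hAm : Measurable A := by
    apply Measurable.mul
    · exact (by fun_prop : Continuous fun t => ρ (L - t) - 1).measurable
    · exact measurable_id.pow_const _
  have hD : ∀ t ∈ Ioi (0 : ℝ), |A t + B t| ≤ C * (D1 t + D2 t) := by
    intro t ht
    have ht0 : 0 < t := ht
    have htp : 0 < t ^ (α - 1) := Real.rpow_pos_of_pos ht0 _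
    -- `|A + B| ≤ C e^{-|L-t|} t^{α-1}`
    have h1 : |A t + B t| ≤ C * Real.exp (-|L - t|) * t ^ (α - 1) := by
      rcases le_or_gt t L with h | h
      · have e1 : A t + B t = ρ (L - t) * t ^ (α - 1) := by
          simp only [hA, hB]
          rw [indicator_of_mem (show t ∈ Ioc 0 L from ⟨ht0, h⟩)]
          ring
        rw [e1, abs_mul, abs_of_pos htp]
        apply mul_le_mul_of_nonneg_right _ htp.le
        refine (hr (L - t) (by linarith)).trans ?_
        apply mul_le_mul_of_nonneg_left _ (by linarith)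
        rw [abs_of_nonneg (by linarith : 0 ≤ L - t)]
        exact Real.exp_le_exp.mpr (by linarith)
      · have e1 : A t + B t = (ρ (L - t) - 1) * t ^ (α - 1) := by
          simp only [hA, hB]
          rw [indicator_of_notMem (show t ∉ Ioc 0 L from fun hh => absurd hh.2 (not_le.mpr h)),
            add_zero]
        rw [e1, abs_mul, abs_of_pos htp]
        apply mul_le_mul_of_nonneg_right _ htp.le
        refine (hl (L - t) (by linarith)).trans ?_
        rw [abs_of_nonpos (by linarith : L - t ≤ 0), neg_neg]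
    refine h1.trans ?_
    rw [mul_assoc]
    apply mul_le_mul_of_nonneg_left _ (by linarith)
    have he : Real.exp (-|L - t|) ≤ 1 := by
      rw [← Real.exp_zero]; exact Real.exp_le_exp.mpr (by linarith [abs_nonneg (L - t)])
    rcases le_or_gt t 1 with h | h
    · have e1 : D1 t = t ^ (α - 1) := by
        simp only [hD1]; rw [indicator_of_mem (show t ∈ Ioc (0 : ℝ) 1 from ⟨ht0, h⟩)]
      rw [e1]
      have : 0 < D2 t := Real.exp_pos _
      nlinarith
    · have e1 : D1 t = 0 := by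
        simp only [hD1]
        rw [indicator_of_notMem (show t ∉ Ioc (0 : ℝ) 1 from fun hh => absurd hh.2 (not_le.mpr h))]
      rw [e1, zero_add]
      have h2 : t ^ (α - 1) ≤ 1 :=
        Real.rpow_le_one_of_one_le_of_nonpos h.le (by linarith)
      exact mul_le_of_le_one_right (Real.exp_pos _).le h2
  have hABi : IntegrableOn (fun t => A t + B t) (Ioi 0) := by
    refine Integrable.mono' (g := fun t => C * (D1 t + D2 t))
      ((hD1i.add hD2i).const_mul C).integrableOn ?_ ?_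
    · exact hAm.aestronglyMeasurable.add hBi.1.restrict
    · filter_upwards [ae_restrict_mem measurableSet_Ioi] with t ht
      exact hD t ht
  have hAi : IntegrableOn A (Ioi 0) := by
    have := hABi.sub hBi.integrableOn
    refine this.congr ?_
    filter_upwards with t
    simp
  have hBint : ∫ t in Ioi (0 : ℝ), B t = L ^ α / α := by
    rw [hB, setIntegral_indicator measurableSet_Ioc]
    rw [show Ioi (0 : ℝ) ∩ Ioc 0 L = Ioc 0 L from inter_eq_right.mpr fun t ht => ht.1]
    exact hv1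
  rw [← hBint, ← integral_add hAi hBi.integrableOn, ← Real.norm_eq_abs]
  calc ‖∫ t in Ioi (0 : ℝ), (A t + B t)‖ ≤ ∫ t in Ioi (0 : ℝ), C * (D1 t + D2 t) := by
        apply norm_integral_le_of_norm_le ((hD1i.add hD2i).const_mul C).integrableOn
        filter_upwards [ae_restrict_mem measurableSet_Ioi] with t ht
        exact hD t ht
    _ = C * ((∫ t in Ioi (0 : ℝ), D1 t) + ∫ t in Ioi (0 : ℝ), D2 t) := by
        rw [integral_const_mul, integral_add hD1i.integrableOn hD2i.integrableOn]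
    _ ≤ C * (1 / α + ∫ t : ℝ, Real.exp (-|t|)) := by
        apply mul_le_mul_of_nonneg_left _ (by linarith)
        apply add_le_add
        · rw [hD1, setIntegral_indicator measurableSet_Ioc]
          rw [show Ioi (0 : ℝ) ∩ Ioc 0 1 = Ioc 0 1 from inter_eq_right.mpr fun t ht => ht.1]
          rw [hv2, Real.one_rpow]
        · calc ∫ t in Ioi (0 : ℝ), D2 t ≤ ∫ t, D2 t :=
                setIntegral_le_integral hD2i (by
                  filter_upwards with t using (Real.exp_pos _).le)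
            _ = ∫ t : ℝ, Real.exp (-|t|) :=
                integral_sub_left_eq_self (fun t : ℝ => Real.exp (-|t|)) volume L

theorem contradiction_aux (hρ : Continuous ρ) (hC : 1 ≤ C)
    (hl : ∀ τ, τ ≤ 0 → |ρ τ - 1| ≤ C * Real.exp τ)
    (hr : ∀ τ, 0 ≤ τ → |ρ τ| ≤ C * Real.exp (-(2 * τ))) {α G : ℝ} (hα : 0 < α) (hα1 : α < 1)
    (hG : 0 < G)
    (hid : ∀ L : ℝ, ∫ t : ℝ in Ioi 0, (ρ (L - t) - 1) * t ^ (α - 1) =
      -G * ∫ t : ℝ in Ioi 0, t * (Real.exp (L - t) * ρ (L - t))) : False := by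
  set K1 := ∫ τ : ℝ, |τ| * |Real.exp τ * ρ τ| with hK1
  set K2 := C * (1 / α + ∫ t : ℝ, Real.exp (-|t|)) with hK2
  set δ := 2 * (2 : ℝ) ^ α - 1 - 3 ^ α with hδ
  have hδ0 : 0 < δ := by
    have h := (Real.strictConcaveOn_rpow hα hα1).2 (show (1 : ℝ) ∈ Ici (0 : ℝ) by norm_num)
      (show (3 : ℝ) ∈ Ici (0 : ℝ) by norm_num) (by norm_num)
      (show (0 : ℝ) < 1 / 2 by norm_num) (show (0 : ℝ) < 1 / 2 by norm_num) (by norm_num)
    simp only [smul_eq_mul] at h
    norm_num at h
    rw [hδ]; linarith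
  have key : ∀ L : ℝ, 0 ≤ L → L ^ α / α * δ ≤ G * K1 + 4 * K2 := by
    intro L hL
    have a1 := first_int hρ hC hl hr hα hα1 hL
    have a2 := first_int hρ hC hl hr hα hα1 (L := 2 * L) (by linarith)
    have a3 := first_int hρ hC hl hr hα hα1 (L := 3 * L) (by linarith)
    have b := second_diff hρ hC hl hr hL
    rw [← second_int, ← second_int, ← second_int] at b
    have i1 := hid L
    have i2 := hid (2 * L)
    have i3 := hid (3 * L)
    rw [Real.mul_rpow (by norm_num) hL] at a2 a3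
    set I1 := ∫ t : ℝ in Ioi 0, (ρ (L - t) - 1) * t ^ (α - 1)
    set I2 := ∫ t : ℝ in Ioi 0, (ρ (2 * L - t) - 1) * t ^ (α - 1)
    set I3 := ∫ t : ℝ in Ioi 0, (ρ (3 * L - t) - 1) * t ^ (α - 1)
    set J1 := ∫ t : ℝ in Ioi 0, t * (Real.exp (L - t) * ρ (L - t))
    set J2 := ∫ t : ℝ in Ioi 0, t * (Real.exp (2 * L - t) * ρ (2 * L - t))
    set J3 := ∫ t : ℝ in Ioi 0, t * (Real.exp (3 * L - t) * ρ (3 * L - t))
    rw [← hK1] at b
    rw [← hK2] at a1 a2 a3
    rw [abs_le] at a1 a2 a3 b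
    have e1 : I1 - 2 * I2 + I3 = -G * (J1 - 2 * J2 + J3) := by rw [i1, i2, i3]; ring
    have e2 : -(G * K1) ≤ G * (J1 - 2 * J2 + J3) := by nlinarith [b.1]
    have e3 : G * (J1 - 2 * J2 + J3) ≤ G * K1 := by nlinarith [b.2]
    have e4 : L ^ α / α * δ = 2 * (2 ^ α * L ^ α / α) - L ^ α / α - 3 ^ α * L ^ α / α := by
      rw [hδ]; ring
    rw [e4]
    linarith [a1.1, a1.2, a2.1, a2.2, a3.1, a3.2]
  have hlim : Tendsto (fun L : ℝ => L ^ α / α * δ) atTop atTop := by
    apply Tendsto.atTop_mul_const hδ0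
    apply Tendsto.atTop_div_const hα
    exact tendsto_rpow_atTop hα
  obtain ⟨L, hL1, hL2⟩ := ((hlim.eventually (eventually_gt_atTop (G * K1 + 4 * K2))).and
    (eventually_ge_atTop 0)).exists
  linarith [key L hL2]

end

end Pool.Agent.Lib.MP_f91407_an
end

section

/-!
# Preservers are `c x^p` with `p = 1` or `p ≥ 2`
-/

namespace Pool.Agent.Lib.MP_f91407_an

open NNReal

variable {f : ℝ → ℝ}

theorem bseq_An (n j : ℕ) : bseq n 1 (1 / (n : ℝ)) j = An n j := by
  unfold bseq An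
  rw [one_mul, one_div, inv_pow]
  rfl

theorem PresR.rrn_An (hf : PresR f) {c p : ℝ} (hp : 1 ≤ p)
    (h : ∀ x, 0 < x → f x = c * x ^ p) {n : ℕ} (_hn : 0 < n) : RRn n fun j => An n j ^ p := by
  have h1 := hf.pres n (bseq n 1 (1 / (n : ℝ))) (bseq_nonneg zero_le_one (by positivity))
    (RRn_bseq n one_pos)
  intro z hz
  apply h1 z
  have e : ∀ j, f (bseq n 1 (1 / (n : ℝ)) j) = c * An n j ^ p := by
    intro j
    rw [bseq_An]
    rcases (An_nonneg n j).lt_or_eq with h2 | h2
    · exact h _ h2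
    · rw [← h2, hf.zero, Real.zero_rpow (by linarith), mul_zero]
  have e2 : ∑ j ∈ Finset.range (n + 1), ((f (bseq n 1 (1 / (n : ℝ)) j) : ℝ) : ℂ) * z ^ j =
      (c : ℂ) * ∑ j ∈ Finset.range (n + 1), ((An n j ^ p : ℝ) : ℂ) * z ^ j := by
    rw [Finset.mul_sum]
    refine Finset.sum_congr rfl fun j _ => ?_
    rw [e j]
    push_cast
    ring
  rw [e2, hz, mul_zero]

theorem PresR.not_one_two (hf : PresR f) {c p : ℝ} (hc : 0 < c) (hp1 : 1 < p) (hp2 : p < 2)
    (h : ∀ x, 0 < x → f x = c * x ^ p) : False := by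
  obtain ⟨C0, hC0⟩ := rr_decay hp1 hp2 fun n hn => hf.rrn_An hp1.le h hn
  set C := max 1 (max C0 (Real.exp 1)) with hC
  have hC1 : 1 ≤ C := le_max_left _ _
  have hC2 : C0 ≤ C := (le_max_left _ _).trans (le_max_right _ _)
  have hC3 : Real.exp 1 ≤ C := (le_max_right _ _).trans (le_max_right _ _)
  refine contradiction_aux (ρ := fun τ => rr p (Real.exp τ)) (C := C) (α := 2 - p)
    (G := Real.Gamma (2 - p)) ((rr_continuous hp1.le).comp Real.continuous_exp) hC1 ?_ ?_
    (by linarith) (by linarith) (Real.Gamma_pos_of_pos (by linarith)) ?_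
  · intro τ hτ
    have h1 := rr_near_one hp1.le (Real.exp_pos τ).le (x := Real.exp τ) (by
      rw [← Real.exp_zero]; exact Real.exp_le_exp.mpr hτ)
    exact h1.trans (mul_le_mul_of_nonneg_right hC3 (Real.exp_pos τ).le)
  · intro τ hτ
    have h1 := hC0 (Real.exp τ) (by rw [← Real.exp_zero]; exact Real.exp_le_exp.mpr hτ)
    rw [← Real.exp_nat_mul] at h1
    push_cast at h1
    have h2 : |rr p (Real.exp τ)| * Real.exp (2 * τ) ≤ C := h1.trans hC2
    rw [Real.exp_neg, ← div_eq_mul_inv, le_div_iff₀ (Real.exp_pos _)]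
    exact h2
  · intro L
    have h1 := identity hp1 hp2 (Real.exp_pos L)
    have e1 : ∀ t : ℝ, Real.exp L * Real.exp (-t) = Real.exp (L - t) := by
      intro t; rw [← Real.exp_add]; congr 1
    simp only [e1] at h1
    rw [show (2 - p) - 1 = 1 - p by ring]
    exact h1

/-- Every preserver is `c x^p` with `c > 0` and `p = 1` or `p ≥ 2`. -/
theorem Preserves.eq_power {F : ℝ≥0 → ℝ≥0} (hF : Preserves F) :
    ∃ c p : ℝ, 0 < c ∧ (p = 1 ∨ 2 ≤ p) ∧ ∀ x : ℝ≥0, ((F x : ℝ≥0) : ℝ) = c * (x : ℝ) ^ p := by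
  have hf := hF.presR
  obtain ⟨c, p, hc, hp, h⟩ := hf.power
  refine ⟨c, p, hc, ?_, ?_⟩
  · rcases hp.lt_or_eq with h1 | h1
    · right
      by_contra h2
      push Not at h2
      exact hf.not_one_two hc h1 h2 h
    · left; exact h1.symm
  · intro x
    rcases eq_or_ne x 0 with hx | hx
    · rw [hx, hF.1]
      simp [Real.zero_rpow (by linarith : p ≠ 0)]
    · have hx' : (0 : ℝ) < x := by exact_mod_cast pos_iff_ne_zero.mpr hx
      have := h x hx'
      simpa using this

end Pool.Agent.Lib.MP_f91407_an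
end
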