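import Mathlib
import Pool.Agent.Lib.MP_9cfc0a_nt.SK.R3B

section

set_option autoImplicit false

/-! # Shared definitions of the campaign LP (`x^p`, all real `p ≥ 64`)

For `b : Fin n → ℝ` with `0 < b c < 1`: the tilted Poisson-binomial law with generating function
`∏ (1 - b c + b c e^z)` as a function of the COMPLEX tilt `z`, `|Im z| < π`. -/

namespace Pool.Agent.LP

open Complex MeasureTheory

/-- `1 - b + b e^z`. -/
noncomputable def be (b : ℝ) (z : ℂ) : ℂ := 1 - (b : ℂ) + (b : ℂ) * exp z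

/-- the tilted success probability `P = b e^z / (1 - b + b e^z)`. -/
noncomputable def Pc (b : ℝ) (z : ℂ) : ℂ := (b : ℂ) * exp z / be b z

/-- `P (1 - P) = b (1 - b) e^z / (1 - b + b e^z)^2`. -/
noncomputable def yc (b : ℝ) (z : ℂ) : ℂ := (b : ℂ) * (1 - (b : ℂ)) * exp z / be b z ^ 2

/-- the same on the real axis. -/
noncomputable def xr (b x : ℝ) : ℝ := b * (1 - b) * Real.exp x / (1 - b + b * Real.exp x) ^ 2

variable {n : ℕ}

/-- all parameters in `(0, 1)` -/
def Ok (b : Fin n → ℝ) : Prop := ∀ c, 0 < b c ∧ b c < 1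

/-- `Λ(z) = ∑ log (1 - b_c + b_c e^z)` -/
noncomputable def Lam (b : Fin n → ℝ) (z : ℂ) : ℂ := ∑ c, log (be (b c) z)

/-- `μ = Λ'` -/
noncomputable def mu (b : Fin n → ℝ) (z : ℂ) : ℂ := ∑ c, Pc (b c) z

/-- `v = Λ''` -/
noncomputable def vv (b : Fin n → ℝ) (z : ℂ) : ℂ := ∑ c, yc (b c) z

/-- `v' = Λ'''` -/
noncomputable def vv1 (b : Fin n → ℝ) (z : ℂ) : ℂ := ∑ c, yc (b c) z * (1 - 2 * Pc (b c) z)

/-- `v'' = Λ''''` -/
noncomputable def vv2 (b : Fin n → ℝ) (z : ℂ) : ℂ := ∑ c, yc (b c) z * (1 - 6 * yc (b c) z)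

/-- the variance at the real tilt `x` -/
noncomputable def W (b : Fin n → ℝ) (x : ℝ) : ℝ := ∑ c, xr (b c) x

/-- variance at tilt `0` -/
noncomputable def Vz (b : Fin n → ℝ) : ℝ := ∑ c, b c * (1 - b c)

/-- mean at tilt `0` -/
noncomputable def Mz (b : Fin n → ℝ) : ℝ := ∑ c, b c

/-- the integrand of the local limit theorem: `f(e^{z+it})/f(e^z) * e^{-i μ(z) t}` -/
noncomputable def Rr (b : Fin n → ℝ) (z : ℂ) (t : ℝ) : ℂ :=
  (∏ c, be (b c) (z + t * I) / be (b c) z) * exp (-(mu b z * t * I))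

/-- `Ψ(z) = (1/2π) ∫_{-π}^{π} R_z(t) dt` -/
noncomputable def Psi (b : Fin n → ℝ) (z : ℂ) : ℂ :=
  (1 / (2 * (Real.pi : ℂ))) * ∫ t in (-Real.pi)..Real.pi, Rr b z t

/-- `G = √(2π v) Ψ`, close to `1` -/
noncomputable def Gf (b : Fin n → ℝ) (z : ℂ) : ℂ :=
  (Real.sqrt (2 * Real.pi) : ℂ) * exp (log (vv b z) / 2) * Psi b z

/-- `log (√(2π) Ψ)` -/
noncomputable def lg (b : Fin n → ℝ) (z : ℂ) : ℂ := log (Gf b z) - log (vv b z) / 2

/-- the derivative of `lg` -/
noncomputable def ell (b : Fin n → ℝ) (z : ℂ) : ℂ :=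
  deriv (Gf b) z / Gf b z - vv1 b z / (2 * vv b z)

/-- `n = p ℓ' + v'/v` -/
noncomputable def nn (p : ℝ) (b : Fin n → ℝ) (z : ℂ) : ℂ := p * ell b z + vv1 b z / vv b z

/-- the coefficients of `∏ (1 - b_c + b_c X)` -/
noncomputable def uu (b : Fin n → ℝ) (j : ℕ) : ℝ :=
  (∏ c, (Polynomial.C (1 - b c) + Polynomial.C (b c) * Polynomial.X)).coeff j

/-- `t_j = (√(2π) u_j)^p` -/
noncomputable def th (p : ℝ) (b : Fin n → ℝ) (j : ℕ) : ℝ := (Real.sqrt (2 * Real.pi) * uu b j) ^ p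

/-- numerator of the kernel -/
noncomputable def Nk (p : ℝ) (b : Fin n → ℝ) (z : ℂ) : ℂ :=
  exp (p * (Lam b z - mu b z * z) + p * lg b z) * vv b z

/-- denominator of the kernel -/
noncomputable def Dk (b : Fin n → ℝ) (z : ℂ) : ℂ := sin (Real.pi * mu b z)

/-- the exponent on the top side, `z = (s + iπ)/p` -/
noncomputable def zz (p s : ℝ) : ℂ := ((s : ℂ) + Real.pi * I) / p

noncomputable def phi (p : ℝ) (b : Fin n → ℝ) (s : ℝ) : ℂ :=
  p * (Lam b (zz p s) - mu b (zz p s) * zz p s) + Real.pi * I * mu b (zz p s) +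
    p * lg b (zz p s) + log (vv b (zz p s))

/-- the correction factor on the top side -/
noncomputable def ee (p : ℝ) (b : Fin n → ℝ) (s : ℝ) : ℂ :=
  1 / (1 - exp (2 * Real.pi * I * mu b (zz p s)))

/-- `(1/i) ∮ G(w) dw` over the boundary of `[X1, X2] × [-T, T]`, counterclockwise. -/
noncomputable def bdr (X1 X2 T : ℝ) (G : ℂ → ℂ) : ℂ :=
  (∫ v in (-T)..T, G ((X2 : ℂ) + (v : ℂ) * I)) - (∫ v in (-T)..T, G ((X1 : ℂ) + (v : ℂ) * I)) +
    (1 / I) * ((∫ x in X1..X2, G ((x : ℂ) - (T : ℂ) * I)) - ∫ x in X1..X2, G ((x : ℂ) + (T : ℂ) * I))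

/-- the standing hypotheses of the analytic part -/
structure Big (p : ℝ) (b : Fin n → ℝ) : Prop where
  ok : Ok b
  hp : 64 ≤ p
  hV : 0.65 * p ≤ Vz b

/-- the small region around `0` in which the contour lives -/
def Rg (z : ℂ) : Prop := |z.re| ≤ 0.155 ∧ |z.im| ≤ 0.05

/-- elementary symmetric polynomial of the family `a` restricted to the finset `S` -/
noncomputable def es {ι : Type} [DecidableEq ι] (a : ι → ℝ) (S : Finset ι) (m : ℕ) : ℝ :=
  ∑ A ∈ S.powersetCard m, ∏ c ∈ A, a c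

end Pool.Agent.LP
end

section

set_option autoImplicit false

/-! # A1: one factor `1 - b + b e^z`. Notation: `z = x + i y`, `B = 1 - b + b e^x > 0`, `xr = b(1-b)e^x/B^2` (A1a) -/

namespace Pool.Agent.LP

open Complex

/-- PROOF. `b(1-b)e^x ≤ ((1 - b) + b e^x)^2/4` (AM-GM), all factors positive. -/
theorem xr_pos {b : ℝ} (h0 : 0 < b) (h1 : b < 1) (x : ℝ) : 0 < xr b x := by
  have h3 := Real.exp_pos x
  have hB : 0 < 1 - b + b * Real.exp x := by nlinarith [mul_pos h0 h3]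
  unfold xr
  have h4 : 0 < 1 - b := by linarith
  positivity

theorem xr_le {b : ℝ} (h0 : 0 < b) (h1 : b < 1) (x : ℝ) : xr b x ≤ 1 / 4 := by
  have h3 := Real.exp_pos x
  have hB : 0 < 1 - b + b * Real.exp x := by nlinarith [mul_pos h0 h3]
  unfold xr
  rw [div_le_iff₀ (by positivity)]
  nlinarith [sq_nonneg (1 - b - b * Real.exp x)]

theorem xr_zero (b : ℝ) : xr b 0 = b * (1 - b) := by
  unfold xr
  rw [Real.exp_zero]
  ring

/-- PROOF. Let `x' ≥ x`, `E = e^{x'-x} ≥ 1`. Then `b(1-b)e^{x'}/(1-b+b e^{x'})^2 ≤ E * b(1-b)e^x/(1-b+be^x)^2`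
because the denominator only grows. If `x' ≤ x`, `E = e^{x-x'} ≥ 1`, then
`1-b+b e^{x'} ≥ (1-b+be^x)/E`, so the left side is `≤ b(1-b)e^{x'} E^2/(1-b+be^x)^2 = E xr b x`. -/
theorem xr_le_exp {b : ℝ} (h0 : 0 < b) (h1 : b < 1) (x x' : ℝ) :
    xr b x' ≤ Real.exp |x' - x| * xr b x := by
  have h3 := Real.exp_pos x
  have h3' := Real.exp_pos x'
  have h4 : 0 < 1 - b := by linarith
  have hB : 0 < 1 - b + b * Real.exp x := by nlinarith [mul_pos h0 h3]
  have hB' : 0 < 1 - b + b * Real.exp x' := by nlinarith [mul_pos h0 h3']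
  unfold xr
  rw [← mul_div_assoc, div_le_div_iff₀ (by positivity) (by positivity)]
  rcases le_total x x' with h | h
  · rw [abs_of_nonneg (by linarith)]
    have e1 : Real.exp (x' - x) * Real.exp x = Real.exp x' := by
      rw [← Real.exp_add]; congr 1; ring
    have e2 : Real.exp (x' - x) * (b * (1 - b) * Real.exp x) = b * (1 - b) * Real.exp x' := by
      rw [← e1]; ring
    rw [e2]
    refine mul_le_mul_of_nonneg_left ?_ (by positivity)
    have : Real.exp x ≤ Real.exp x' := Real.exp_le_exp.mpr h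
    refine pow_le_pow_left₀ hB.le ?_ 2
    nlinarith [mul_le_mul_of_nonneg_left this h0.le]
  · rw [abs_of_nonpos (by linarith)]
    set E := Real.exp (-(x' - x)) with hE
    have hE1 : 1 ≤ E := Real.one_le_exp (by linarith)
    have e1 : E * Real.exp x' = Real.exp x := by
      rw [hE, ← Real.exp_add]; congr 1; ring
    have h5 : 1 - b + b * Real.exp x ≤ E * (1 - b + b * Real.exp x') := by
      rw [← e1]
      nlinarith [mul_le_mul_of_nonneg_right hE1 h4.le]
    have h6 : (1 - b + b * Real.exp x) ^ 2 ≤ (E * (1 - b + b * Real.exp x')) ^ 2 :=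
      pow_le_pow_left₀ hB.le h5 2
    calc b * (1 - b) * Real.exp x' * (1 - b + b * Real.exp x) ^ 2
        ≤ b * (1 - b) * Real.exp x' * (E * (1 - b + b * Real.exp x')) ^ 2 :=
          mul_le_mul_of_nonneg_left h6 (by positivity)
      _ = E * (b * (1 - b) * (E * Real.exp x')) * (1 - b + b * Real.exp x') ^ 2 := by ring
      _ = E * (b * (1 - b) * Real.exp x) * (1 - b + b * Real.exp x') ^ 2 := by rw [e1]

/-- PROOF. If `Im (e^z) = e^x sin y ≠ 0` then `Im ≠ 0`, in particular the number is in the slit plane;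
otherwise `|y| < π` gives `y = 0` and the number is the positive real `B`. -/
theorem be_mem_slitPlane {b : ℝ} (h0 : 0 < b) (h1 : b < 1) {z : ℂ} (hz : |z.im| < Real.pi) :
    be b z ∈ slitPlane := by
  have him : (be b z).im = b * (Real.exp z.re * Real.sin z.im) := by
    simp [be, Complex.exp_im]
  have hre : (be b z).re = 1 - b + b * (Real.exp z.re * Real.cos z.im) := by
    simp [be, Complex.exp_re]
  rw [Complex.mem_slitPlane_iff]
  by_cases hs : Real.sin z.im = 0
  · left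
    have h2 := abs_lt.mp hz
    have h3 : z.im = 0 := (Real.sin_eq_zero_iff_of_lt_of_lt h2.1 h2.2).mp hs
    rw [hre, h3, Real.cos_zero]
    have := Real.exp_pos z.re
    nlinarith [mul_pos h0 this]
  · right
    rw [him]
    exact mul_ne_zero h0.ne' (mul_ne_zero (Real.exp_pos _).ne' hs)

theorem be_ne_zero {b : ℝ} (h0 : 0 < b) (h1 : b < 1) {z : ℂ} (hz : |z.im| < Real.pi) :
    be b z ≠ 0 := by
  exact slitPlane_ne_zero (be_mem_slitPlane h0 h1 hz)

end Pool.Agent.LP
end

section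

set_option autoImplicit false

/-! # A1: one factor `1 - b + b e^z`. Notation: `z = x + i y`, `B = 1 - b + b e^x > 0`, `xr = b(1-b)e^x/B^2` (A1b) -/

namespace Pool.Agent.LP

open Complex

/-- PROOF. `|1 - b + b e^x cos y + i b e^x sin y|^2 = (1-b)^2 + 2 b (1-b) e^x cos y + b^2 e^{2x}
= B^2 - 2 b (1-b) e^x (1 - cos y)`. -/
theorem norm_be_sq {b : ℝ} (h0 : 0 < b) (h1 : b < 1) (z : ℂ) :
    ‖be b z‖ ^ 2 =
      (1 - b + b * Real.exp z.re) ^ 2 * (1 - 2 * xr b z.re * (1 - Real.cos z.im)) := by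
  have hB : 0 < 1 - b + b * Real.exp z.re := by
    have := Real.exp_pos z.re
    have := mul_pos h0 this
    linarith
  have e1 : be b z = ((1 - b + b * (Real.exp z.re * Real.cos z.im) : ℝ) : ℂ) +
      ((b * (Real.exp z.re * Real.sin z.im) : ℝ) : ℂ) * I := by
    rw [be, Complex.exp_eq_exp_re_mul_sin_add_cos]
    push_cast
    ring
  have e2 : ‖be b z‖ ^ 2 = (1 - b + b * (Real.exp z.re * Real.cos z.im)) ^ 2 +
      (b * (Real.exp z.re * Real.sin z.im)) ^ 2 := by
    rw [e1, ← Complex.normSq_eq_norm_sq, Complex.normSq_add_mul_I]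
  have e3 := Real.sin_sq_add_cos_sq z.im
  have e4 : (1 - b + b * Real.exp z.re) ^ 2 * xr b z.re = b * (1 - b) * Real.exp z.re := by
    rw [xr, mul_div_cancel₀ _ (pow_ne_zero 2 hB.ne')]
  rw [e2]
  linear_combination b ^ 2 * Real.exp z.re ^ 2 * e3 + 2 * (1 - Real.cos z.im) * e4

/-- PROOF. `xr ≤ 1/4` and `(1 - (1 - cos y)/2) = (1 + cos y)/2 = cos^2(y/2)`. -/
theorem den_ge {b : ℝ} (h0 : 0 < b) (h1 : b < 1) (x y : ℝ) :
    Real.cos (y / 2) ^ 2 ≤ 1 - 2 * xr b x * (1 - Real.cos y) := by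
  have h2 := Real.cos_sq (y / 2)
  have h3 : 2 * (y / 2) = y := by ring
  rw [h3] at h2
  have h4 := xr_le h0 h1 x
  have h5 := Real.cos_le_one y
  rw [h2]
  nlinarith

theorem den_le {b : ℝ} (h0 : 0 < b) (h1 : b < 1) (x y : ℝ) :
    1 - 2 * xr b x * (1 - Real.cos y) ≤ 1 := by
  have h4 := (xr_pos h0 h1 x).le
  have h5 := Real.cos_le_one y
  nlinarith

end Pool.Agent.LP
end

section

set_option autoImplicit false

/-! # B4b: Gaussian moments and tail -/

namespace Pool.Agent.LP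

open MeasureTheory

theorem gauss_int (a : ℝ) (ha : 0 < a) (k : ℕ) :
    Integrable fun t : ℝ => t ^ k * Real.exp (-(a * t ^ 2)) := by
  have h := integrable_rpow_mul_exp_neg_mul_sq ha (s := (k : ℝ))
    (lt_of_lt_of_le (by norm_num) (Nat.cast_nonneg k))
  refine h.congr (Filter.Eventually.of_forall fun t => ?_)
  simp only [Real.rpow_natCast, neg_mul]

private theorem B4b_even (a : ℝ) (m : ℕ) :
    ∫ t : ℝ, t ^ (2 * m) * Real.exp (-(a * t ^ 2)) =
      2 * ∫ t in Set.Ioi (0 : ℝ), t ^ (2 * m) * Real.exp (-(a * t ^ 2)) := by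
  have h := integral_comp_abs (f := fun t : ℝ => t ^ (2 * m) * Real.exp (-(a * t ^ 2)))
  rw [← h]
  refine integral_congr_ae (Filter.Eventually.of_forall fun t => ?_)
  simp only [pow_mul, sq_abs]

private theorem B4b_half (a : ℝ) (ha : 0 < a) (m : ℕ) :
    ∫ t in Set.Ioi (0 : ℝ), t ^ (2 * m) * Real.exp (-(a * t ^ 2)) =
      1 / 2 * (Real.Gamma (m + 1 / 2) / (a ^ m * Real.sqrt a)) := by
  have h := integral_rpow_mul_exp_neg_mul_rpow (p := 2) (q := ((2 * m : ℕ) : ℝ)) (b := a)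
    (by norm_num) (lt_of_lt_of_le (by norm_num) (Nat.cast_nonneg _)) ha
  have h1 : ((((2 * m : ℕ) : ℝ) + 1) / 2) = m + 1 / 2 := by
    push_cast
    ring
  have h2 : (-(((2 * m : ℕ) : ℝ) + 1) / 2) = -((m : ℝ) + 1 / 2) := by
    push_cast
    ring
  rw [h1, h2, Real.rpow_neg ha.le, Real.rpow_add ha, Real.rpow_natCast, ← Real.sqrt_eq_rpow] at h
  have h3 : ∫ t in Set.Ioi (0 : ℝ), t ^ (2 * m) * Real.exp (-(a * t ^ 2)) =
      ∫ x in Set.Ioi (0 : ℝ), x ^ ((2 * m : ℕ) : ℝ) * Real.exp (-a * x ^ (2 : ℝ)) := by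
    refine setIntegral_congr_fun measurableSet_Ioi fun t _ => ?_
    simp only [Real.rpow_natCast, neg_mul]
    rw [show (2 : ℝ) = ((2 : ℕ) : ℝ) by norm_num, Real.rpow_natCast]
  rw [h3, h]
  ring

/-- PROOF. Integration by parts: `∫ t^{k+2} e^{-a t²} = (k+1)/(2a) ∫ t^k e^{-a t²}` and `integral_gaussian`. -/
theorem gauss_moment4 (a : ℝ) (ha : 0 < a) :
    ∫ t : ℝ, t ^ 4 * Real.exp (-(a * t ^ 2)) = 3 / 4 * Real.sqrt (Real.pi / a) / a ^ 2 := by
  have h := B4b_even a 2
  rw [B4b_half a ha 2] at h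
  have hG : Real.Gamma (((2 : ℕ) : ℝ) + 1 / 2) = 3 / 4 * Real.sqrt Real.pi := by
    rw [show (((2 : ℕ) : ℝ) + 1 / 2) = (1 / 2 + 1) + 1 by norm_num,
      Real.Gamma_add_one (by norm_num), Real.Gamma_add_one (by norm_num),
      Real.Gamma_one_half_eq]
    ring
  rw [hG] at h
  have h0 : Real.sqrt a ≠ 0 := (Real.sqrt_pos.mpr ha).ne'
  rw [Real.sqrt_div Real.pi_pos.le]
  refine h.trans ?_
  field_simp

theorem gauss_moment6 (a : ℝ) (ha : 0 < a) :
    ∫ t : ℝ, t ^ 6 * Real.exp (-(a * t ^ 2)) = 15 / 8 * Real.sqrt (Real.pi / a) / a ^ 3 := by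
  have h := B4b_even a 3
  rw [B4b_half a ha 3] at h
  have hG : Real.Gamma (((3 : ℕ) : ℝ) + 1 / 2) = 15 / 8 * Real.sqrt Real.pi := by
    rw [show (((3 : ℕ) : ℝ) + 1 / 2) = ((1 / 2 + 1) + 1) + 1 by norm_num,
      Real.Gamma_add_one (by norm_num), Real.Gamma_add_one (by norm_num),
      Real.Gamma_add_one (by norm_num), Real.Gamma_one_half_eq]
    ring
  rw [hG] at h
  have h0 : Real.sqrt a ≠ 0 := (Real.sqrt_pos.mpr ha).ne'
  rw [Real.sqrt_div Real.pi_pos.le]
  refine h.trans ?_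
  field_simp

/-- PROOF. For `t ≥ r > 0`: `e^{-a t²} ≤ (t/r) e^{-a t²}` and `∫_r^∞ t e^{-a t²} = e^{-a r²}/(2a)`. -/
theorem gauss_tail (a r : ℝ) (ha : 0 < a) (hr : 0 < r) :
    ∫ t in Set.Ioi r, Real.exp (-(a * t ^ 2)) ≤ Real.exp (-(a * r ^ 2)) / (2 * a * r) := by
  have hi0 : IntegrableOn (fun t : ℝ => Real.exp (-(a * t ^ 2))) (Set.Ioi r) := by
    have := (gauss_int a ha 0).integrableOn (s := Set.Ioi r)
    simpa using this
  have hi1 : IntegrableOn (fun t : ℝ => 1 / r * (t ^ 1 * Real.exp (-(a * t ^ 2)))) (Set.Ioi r) :=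
    ((gauss_int a ha 1).const_mul _).integrableOn
  have h1 : ∫ t in Set.Ioi r, Real.exp (-(a * t ^ 2)) ≤
      ∫ t in Set.Ioi r, 1 / r * (t ^ 1 * Real.exp (-(a * t ^ 2))) := by
    refine setIntegral_mono_on hi0 hi1 measurableSet_Ioi fun t ht => ?_
    have h2 : 1 ≤ 1 / r * t := by
      rw [one_div, inv_mul_eq_div, le_div_iff₀ hr, one_mul]
      exact (Set.mem_Ioi.mp ht).le
    have h3 := mul_le_mul_of_nonneg_right h2 (Real.exp_pos (-(a * t ^ 2))).le
    rw [pow_one]
    linarith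
  have h2 : ∫ t in Set.Ioi r, 1 / r * (t ^ 1 * Real.exp (-(a * t ^ 2))) =
      0 - (-(Real.exp (-(a * r ^ 2)) / (2 * a * r))) := by
    refine integral_Ioi_of_hasDerivAt_of_tendsto' (f := fun t : ℝ =>
      -(Real.exp (-(a * t ^ 2)) / (2 * a * r))) (fun t _ => ?_) hi1 ?_
    · have h3 : HasDerivAt (fun t : ℝ => -(a * t ^ 2)) (-(a * (2 * t))) t := by
        simpa using ((hasDerivAt_pow 2 t).const_mul a).fun_neg
      have h4 := (h3.exp.div_const (2 * a * r)).fun_neg
      refine h4.congr_deriv ?_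
      rw [pow_one]
      field_simp
    · have h5 : Filter.Tendsto (fun t : ℝ => a * t ^ 2) Filter.atTop Filter.atTop :=
        (Filter.tendsto_pow_atTop (by norm_num)).const_mul_atTop ha
      have h6 := ((Real.tendsto_exp_neg_atTop_nhds_zero.comp h5).div_const (2 * a * r)).neg
      simpa using h6
  rw [h2] at h1
  linarith

end Pool.Agent.LP
end

section

set_option autoImplicit false

/-! # B4c: the truncated complex Gaussian -/

namespace Pool.Agent.LP

open Complex MeasureTheory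

private theorem B4c_odd (g : ℝ → ℂ) (a : ℝ) (hg : ∀ t, g (-t) = -g t) :
    ∫ t in (-a)..a, g t = 0 := by
  have h := intervalIntegral.integral_comp_neg (a := -a) (b := a) g
  rw [neg_neg] at h
  simp only [hg, intervalIntegral.integral_neg] at h
  exact self_eq_neg.1 h.symm

private theorem B4c_full (v : ℂ) (hv : 0 < v.re) :
    ∫ t : ℝ, exp (-(v * t ^ 2 / 2)) =
      (Real.sqrt (2 * Real.pi) : ℂ) * exp (-(log v / 2)) := by
  have hb : 0 < (v / 2).re := by
    have h1 : (v / 2).re = v.re / 2 := by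
      rw [show (2 : ℂ) = ((2 : ℝ) : ℂ) by norm_num, Complex.div_ofReal_re]
    rw [h1]
    linarith
  have hv0 : v ≠ 0 := fun h => by simp [h] at hv
  have h := integral_gaussian_complex hb
  have h1 : ∀ t : ℝ, exp (-(v * t ^ 2 / 2)) = exp (-(v / 2) * (t : ℂ) ^ 2) := fun t => by
    congr 1
    ring
  simp only [h1]
  rw [h]
  have hpos : 0 < 2 * Real.pi := by positivity
  have h2 : (Real.pi : ℂ) / (v / 2) = ((2 * Real.pi : ℝ) : ℂ) * v⁻¹ := by
    push_cast
    field_simp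
  have h3 : (Real.pi : ℂ) / (v / 2) ≠ 0 := by
    rw [h2]
    exact mul_ne_zero (by exact_mod_cast hpos.ne') (inv_ne_zero hv0)
  have harg : v.arg ≠ Real.pi := by
    intro h4
    have h5 := (Complex.abs_arg_lt_pi_div_two_iff.2 (Or.inl hv))
    rw [h4, abs_of_pos Real.pi_pos] at h5
    linarith [Real.pi_pos]
  rw [Complex.cpow_def_of_ne_zero h3, h2, Complex.log_ofReal_mul hpos (inv_ne_zero hv0),
    Complex.log_inv v harg]
  have h6 : ((Real.log (2 * Real.pi) : ℂ) + -log v) * (1 / 2) =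
      ((Real.log (2 * Real.pi) / 2 : ℝ) : ℂ) + -(log v / 2) := by
    push_cast
    ring
  rw [h6, Complex.exp_add, ← Complex.ofReal_exp]
  congr 2
  rw [Real.sqrt_eq_rpow, Real.rpow_def_of_pos hpos]
  congr 1
  ring

/-- The complex Gaussian with the odd cubic correction, truncated at `0.7`.
PROOF. The cubic term is odd: its integral over `[-0.7, 0.7]` is `0`. `∫_ℝ e^{-v t²/2} = (π/(v/2))^{1/2}`
(`integral_gaussian_complex`) `= √(2π) exp(-log v/2)` (`Re v > 0`, so `log (2π/v) = log(2π) - log v`).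
The two tails are bounded by `gauss_tail` with `a = Re v/2 ≥ 0.4775 w`:
`2 e^{-0.4775*0.49 w}/(2 * 0.4775 * 0.7 w) ≤ e^{-0.23 w}/(0.33 w)`. -/
theorem gauss_central (v v1 : ℂ) (w : ℝ) (hw : 0 < w) (hv : 0.955 * w ≤ v.re) :
    ‖(∫ t in (-0.7 : ℝ)..0.7, exp (-(v * t ^ 2 / 2)) * (1 - I * v1 * t ^ 3 / 6)) -
        (Real.sqrt (2 * Real.pi) : ℂ) * exp (-(log v / 2))‖ ≤
      Real.exp (-(0.23 * w)) / (0.33 * w) := by
  have hvp : 0 < v.re := lt_of_lt_of_le (by positivity) hv
  obtain ⟨F, hF⟩ : ∃ F : ℝ → ℂ, ∀ t, F t = exp (-(v * t ^ 2 / 2)) := ⟨_, fun _ => rfl⟩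
  have hFe : ∀ t, F (-t) = F t := fun t => by
    rw [hF, hF]
    push_cast
    rw [neg_sq]
  have hre : ∀ t : ℝ, (-(v * t ^ 2 / 2)).re = -(v.re / 2 * t ^ 2) := fun t => by
    rw [show v * (t : ℂ) ^ 2 / 2 = ((t ^ 2 / 2 : ℝ) : ℂ) * v by push_cast; ring, Complex.neg_re,
      Complex.re_ofReal_mul]
    ring
  have hFn : ∀ t, ‖F t‖ = Real.exp (-(v.re / 2 * t ^ 2)) := fun t => by
    rw [hF, Complex.norm_exp, hre]
  have hFc : Continuous F := by
    rw [funext hF]
    fun_prop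
  have hFi : Integrable F := by
    have h1 := gauss_int (v.re / 2) (by positivity) 0
    refine h1.mono' hFc.aestronglyMeasurable (Filter.Eventually.of_forall fun t => ?_)
    rw [hFn, pow_zero, one_mul]
  have hfull := B4c_full v hvp
  have h0 : ∫ t in (-0.7 : ℝ)..0.7, F t * (I * v1 * t ^ 3 / 6) = 0 := by
    refine B4c_odd _ _ fun t => ?_
    rw [hFe]
    push_cast
    ring
  have h1 : (∫ t in (-0.7 : ℝ)..0.7, exp (-(v * t ^ 2 / 2)) * (1 - I * v1 * t ^ 3 / 6)) =
      ∫ t in (-0.7 : ℝ)..0.7, F t := by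
    have h2 : ∀ t : ℝ, exp (-(v * t ^ 2 / 2)) * (1 - I * v1 * t ^ 3 / 6) =
        F t - F t * (I * v1 * t ^ 3 / 6) := fun t => by
      rw [hF]
      ring
    simp only [h2]
    rw [intervalIntegral.integral_sub (hFc.intervalIntegrable _ _)
      (Continuous.intervalIntegrable (by fun_prop) _ _), h0, sub_zero]
  have h2 : ∫ t in (-0.7 : ℝ)..0.7, F t = (∫ t, F t) - (∫ t in Set.Ioi (0.7 : ℝ), F t) -
      ∫ t in Set.Iic (-0.7 : ℝ), F t := by
    rw [← intervalIntegral.integral_Iic_sub_Iic hFi.integrableOn hFi.integrableOn,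
      ← intervalIntegral.integral_Iic_add_Ioi (b := (0.7 : ℝ)) hFi.integrableOn hFi.integrableOn]
    ring
  have h3 : ∫ t in Set.Iic (-0.7 : ℝ), F t = ∫ t in Set.Ioi (0.7 : ℝ), F t := by
    have h4 := integral_comp_neg_Iic (-0.7 : ℝ) F
    rw [neg_neg] at h4
    simpa only [hFe] using h4
  have h4 : ‖∫ t in Set.Ioi (0.7 : ℝ), F t‖ ≤ Real.exp (-(0.23 * w)) / (0.66 * w) := by
    refine (norm_integral_le_integral_norm _).trans ?_
    simp only [hFn]
    refine (gauss_tail (v.re / 2) 0.7 (by positivity) (by norm_num)).trans ?_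
    refine div_le_div₀ (Real.exp_pos _).le (Real.exp_le_exp.2 ?_) (by positivity) ?_
    · nlinarith
    · nlinarith
  have h5 : (∫ t, F t) = (Real.sqrt (2 * Real.pi) : ℂ) * exp (-(log v / 2)) := by
    rw [← hfull]
    exact integral_congr_ae (Filter.Eventually.of_forall hF)
  rw [h1, h2, h5, h3]
  have h6 : (Real.sqrt (2 * Real.pi) : ℂ) * exp (-(log v / 2)) -
      (∫ t in Set.Ioi (0.7 : ℝ), F t) - (∫ t in Set.Ioi (0.7 : ℝ), F t) -
      (Real.sqrt (2 * Real.pi) : ℂ) * exp (-(log v / 2)) =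
      -((∫ t in Set.Ioi (0.7 : ℝ), F t) + ∫ t in Set.Ioi (0.7 : ℝ), F t) := by ring
  rw [h6, norm_neg]
  refine (norm_add_le _ _).trans ((add_le_add h4 h4).trans (le_of_eq ?_))
  field_simp
  norm_num

end Pool.Agent.LP
end

section

set_option autoImplicit false

/-! # R1: the residue theorem for a rectangle, finitely many simple poles -/

namespace Pool.Agent.LP

open Complex MeasureTheory

/-- PROOF. Substitution `x → x + (X1+X2)/2` in the two horizontal integrals. (`Pool.Agent.SK.bd a T G` is the same functional for the rectangle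
`[-a,a] × [-T,T]`; see `MP_9cfc0a_nt/SK/RDefs.lean`, and R1, R2, R3A, R3B for its properties: `bd_zero`, `bd_inv`, `bd_congr`, `bd_add`,
`bd_const_mul`, `bd_sum`.) -/
theorem bdr_eq_bd (X1 X2 T : ℝ) (G : ℂ → ℂ) :
    bdr X1 X2 T G =
      Pool.Agent.SK.bd ((X2 - X1) / 2) T (fun w => G (w + (((X1 + X2) / 2 : ℝ) : ℂ))) := by
  unfold bdr Pool.Agent.SK.bd
  have e1 : ∀ v : ℝ, (((X2 - X1) / 2 : ℝ) : ℂ) + (v : ℂ) * I + (((X1 + X2) / 2 : ℝ) : ℂ)
      = (X2 : ℂ) + (v : ℂ) * I := by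
    intro v
    push_cast
    ring
  have e2 : ∀ v : ℝ, -(((X2 - X1) / 2 : ℝ) : ℂ) + (v : ℂ) * I + (((X1 + X2) / 2 : ℝ) : ℂ)
      = (X1 : ℂ) + (v : ℂ) * I := by
    intro v
    push_cast
    ring
  have e0 : ∀ c : ℂ, (∫ x in (-((X2 - X1) / 2))..((X2 - X1) / 2),
      G ((x : ℂ) + c + (((X1 + X2) / 2 : ℝ) : ℂ))) = ∫ x in X1..X2, G ((x : ℂ) + c) := by
    intro c
    have h := intervalIntegral.integral_comp_add_right (a := -((X2 - X1) / 2))
      (b := (X2 - X1) / 2) (fun x : ℝ => G ((x : ℂ) + c)) ((X1 + X2) / 2)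
    rw [show -((X2 - X1) / 2) + (X1 + X2) / 2 = X1 by ring,
      show (X2 - X1) / 2 + (X1 + X2) / 2 = X2 by ring] at h
    rw [← h]
    refine intervalIntegral.integral_congr fun x _ => ?_
    show G _ = G _
    congr 1
    push_cast
    ring
  simp only [e1, e2]
  congr 3
  · exact (e0 (-((T : ℂ) * I))).symm
  · exact (e0 ((T : ℂ) * I)).symm

/-- PROOF. Let `r_z = N z/D'(z)` for `z ∈ S` and `H(w) = N w/D w - ∑_{z ∈ S} r_z/(w - z)`. Near `z ∈ S` one has `D(w) = (w - z) E(w)` with `E = dslope D z`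
holomorphic and `E(z) = D'(z) ≠ 0`, so `N/D = (N/E)(w)/(w - z)` and `(N/E)(w)/(w-z) - (N/E)(z)/(w - z) = dslope (N/E) z w` is holomorphic at `z`: `H` agrees
off `S` with a function `H'` that is differentiable at every point of the closed rectangle (define `H'` by these values on `S`, or use
`Complex.differentiableOn_update_limUnder_of_isLittleO`/`Complex.analyticAt_of_differentiable_on_punctured_nhds_of_continuousAt`).
`bd_zero` for `H'`, `bd_inv`, `bd_sum`, `bd_const_mul` for the principal parts (the boundary functional only sees the boundary, where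
`N/D = H' + ∑ r_z/(w - z)`: `bd_congr`). -/
theorem bdr_residue (X1 X2 T : ℝ) (hX : X1 < X2) (hT : 0 < T) (N D : ℂ → ℂ) (U : Set ℂ)
    (hU : IsOpen U) (hR : ∀ w : ℂ, X1 ≤ w.re → w.re ≤ X2 → |w.im| ≤ T → w ∈ U)
    (hN : DifferentiableOn ℂ N U) (hD : DifferentiableOn ℂ D U) (S : Finset ℂ)
    (hS : ∀ w ∈ S, X1 < w.re ∧ w.re < X2 ∧ |w.im| < T)
    (hz : ∀ w : ℂ, X1 ≤ w.re → w.re ≤ X2 → |w.im| ≤ T → (D w = 0 ↔ w ∈ S))
    (hd : ∀ w ∈ S, deriv D w ≠ 0) :
    bdr X1 X2 T (fun w => N w / D w) = 2 * Real.pi * ∑ w ∈ S, N w / deriv D w := by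
  classical
  obtain ⟨r, hr⟩ : ∃ r : ℂ → ℂ, r = fun z => N z / deriv D z := ⟨_, rfl⟩
  obtain ⟨H, hH⟩ : ∃ H : ℂ → ℂ, H = fun w => if w ∈ S then
      dslope (fun u => N u / dslope D w u) w w - ∑ z ∈ S.erase w, r z / (w - z)
      else N w / D w - ∑ z ∈ S, r z / (w - z) := ⟨_, rfl⟩
  have hmem : ∀ (A : Finset ℂ) (w : ℂ), w ∉ A → ∀ᶠ w' in nhds w, w' ∉ A := by
    intro A w hw
    exact (A.finite_toSet.isClosed.isOpen_compl).mem_nhds hw
  have hdiffH : ∀ w : ℂ, X1 ≤ w.re → w.re ≤ X2 → |w.im| ≤ T → DifferentiableAt ℂ H w := by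
    intro w h1 h2 h3
    have hwU : U ∈ nhds w := hU.mem_nhds (hR w h1 h2 h3)
    by_cases hw : w ∈ S
    · have hDa : AnalyticAt ℂ D w := hD.analyticAt hwU
      have hNa : AnalyticAt ℂ N w := hN.analyticAt hwU
      have hDw : D w = 0 := (hz w h1 h2 h3).2 hw
      have hds : ∀ f : ℂ → ℂ, AnalyticAt ℂ f w → AnalyticAt ℂ (dslope f w) w := by
        rintro f ⟨p, hp⟩
        exact ⟨_, hp.has_fpower_series_dslope_fslope⟩
      have hE := hds D hDa
      have hE0 : dslope D w w ≠ 0 := by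
        rw [dslope_same]
        exact hd w hw
      have hF : AnalyticAt ℂ (fun u => N u / dslope D w u) w := hNa.div hE hE0
      have hF' := hds _ hF
      have hK : DifferentiableAt ℂ (fun u => dslope (fun u => N u / dslope D w u) w u
          - ∑ z ∈ S.erase w, r z / (u - z)) w := by
        refine hF'.differentiableAt.sub ?_
        refine DifferentiableAt.fun_sum fun z hz' => ?_
        refine (differentiableAt_const _).div (differentiableAt_id.sub_const z) ?_
        exact sub_ne_zero.2 (Finset.ne_of_mem_erase hz').symm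
      refine hK.congr_of_eventuallyEq ?_
      filter_upwards [hmem (S.erase w) w (Finset.notMem_erase w S)] with u hu
      by_cases huw : u = w
      · subst huw
        rw [hH]
        simp only [hw, if_true]
      · have huS : u ∉ S := fun h => hu (Finset.mem_erase.2 ⟨huw, h⟩)
        rw [hH]
        simp only [huS, if_false]
        rw [← Finset.add_sum_erase S _ hw, dslope_of_ne _ huw, slope_def_field, dslope_same,
          dslope_of_ne _ huw, slope_def_field, hDw, sub_zero]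
        have hne : u - w ≠ 0 := sub_ne_zero.2 huw
        have e1 : N u / (D u / (u - w)) / (u - w) = N u / D u := by
          rw [div_div_eq_mul_div, div_right_comm, mul_div_assoc, div_self hne, mul_one]
        rw [sub_div, e1, hr]
        ring
    · have hDw : D w ≠ 0 := fun h => hw ((hz w h1 h2 h3).1 h)
      have hK : DifferentiableAt ℂ (fun w => N w / D w - ∑ z ∈ S, r z / (w - z)) w := by
        refine ((hN.differentiableAt hwU).div (hD.differentiableAt hwU) hDw).sub ?_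
        refine DifferentiableAt.fun_sum fun z hz' => ?_
        refine (differentiableAt_const _).div (differentiableAt_id.sub_const z) ?_
        rintro h
        exact hw (by rw [sub_eq_zero.1 h]; exact hz')
      refine hK.congr_of_eventuallyEq ?_
      filter_upwards [hmem S w hw] with u hu
      rw [hH]
      simp only [hu, if_false]
  obtain ⟨a, ha⟩ : ∃ a : ℝ, a = (X2 - X1) / 2 := ⟨_, rfl⟩
  obtain ⟨c, hc⟩ : ∃ c : ℝ, c = (X1 + X2) / 2 := ⟨_, rfl⟩
  have ha0 : 0 ≤ a := by rw [ha]; linarith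
  rw [bdr_eq_bd, ← ha, ← hc]
  have hre : ∀ w : ℂ, (w + (c : ℂ)).re = w.re + c := fun w => by simp
  have him : ∀ w : ℂ, (w + (c : ℂ)).im = w.im := fun w => by simp
  have hrect : ∀ w : ℂ, |w.re| ≤ a → X1 ≤ (w + (c : ℂ)).re ∧ (w + (c : ℂ)).re ≤ X2 := by
    intro w hw
    rw [abs_le] at hw
    rw [hre]
    constructor <;> linarith [hw.1, hw.2]
  have hbd : ∀ w : ℂ, Pool.Agent.SK.Bd a T w → |w.re| ≤ a ∧ |w.im| ≤ T := by
    rintro w (h | h)
    · exact ⟨h.1.le, h.2⟩
    · exact ⟨h.1, h.2.le⟩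
  have hbS : ∀ w : ℂ, Pool.Agent.SK.Bd a T w → w + (c : ℂ) ∉ S := by
    intro w h hw
    obtain ⟨h1, h2, h3⟩ := hS _ hw
    rw [hre] at h1 h2
    rw [him] at h3
    rcases h with h | h
    · have : |w.re| < a := by
        rw [abs_lt]
        constructor <;> linarith
      exact absurd h.1 this.ne
    · exact absurd h.2 h3.ne
  have hcong : Pool.Agent.SK.bd a T (fun w => N (w + (c : ℂ)) / D (w + (c : ℂ))) =
      Pool.Agent.SK.bd a T (fun w => H (w + (c : ℂ)) +
        ∑ z ∈ S, r z * (1 / (w - (z - (c : ℂ))))) := by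
    refine Pool.Agent.SK.bd_congr a T ha0 hT.le _ _ fun w hw => ?_
    rw [hH]
    simp only [hbS w hw, if_false]
    have : ∀ z, r z * (1 / (w - (z - (c : ℂ)))) = r z / (w + (c : ℂ) - z) := by
      intro z
      rw [mul_one_div]
      congr 1
      ring
    simp only [this]
    ring
  rw [hcong]
  have hne : ∀ w : ℂ, Pool.Agent.SK.Bd a T w → ∀ z ∈ S, w - (z - (c : ℂ)) ≠ 0 := by
    intro w hw z hz' h0
    apply hbS w hw
    rw [show w + (c : ℂ) = z by linear_combination h0]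
    exact hz'
  have hct : ∀ z ∈ S, ∀ w : ℂ, Pool.Agent.SK.Bd a T w →
      ContinuousAt (fun w => r z * (1 / (w - (z - (c : ℂ))))) w := by
    intro z hz' w hw
    exact continuousAt_const.mul (continuousAt_const.div (continuousAt_id.sub continuousAt_const)
      (hne w hw z hz'))
  have hcd : ∀ w : ℂ, |w.re| ≤ a → |w.im| ≤ T → DifferentiableAt ℂ (fun w => H (w + (c : ℂ))) w := by
    intro w h1 h2
    have h3 := hdiffH (w + (c : ℂ)) (hrect w h1).1 (hrect w h1).2 (by rw [him]; exact h2)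
    exact h3.comp w (differentiableAt_id.add_const (c : ℂ))
  rw [Pool.Agent.SK.bd_add a T ha0 hT.le]
  · rw [Pool.Agent.SK.bd_zero a T ha0 hT.le _ hcd, zero_add,
      Pool.Agent.SK.bd_sum S a T ha0 hT.le (fun z w => r z * (1 / (w - (z - (c : ℂ))))) hct,
      Finset.mul_sum]
    refine Finset.sum_congr rfl fun z hz' => ?_
    rw [Pool.Agent.SK.bd_const_mul, Pool.Agent.SK.bd_inv a T (z - (c : ℂ)), hr]
    · ring
    · obtain ⟨h1, h2, h3⟩ := hS z hz'
      rw [sub_re, ofReal_re, abs_lt]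
      constructor <;> linarith
    · obtain ⟨h1, h2, h3⟩ := hS z hz'
      rw [sub_im, ofReal_im, sub_zero]
      exact h3
  · intro w hw
    exact (hcd w (hbd w hw).1 (hbd w hw).2).continuousAt
  · intro w hw
    exact tendsto_finsetSum _ fun z hz' => hct z hz' w hw

end Pool.Agent.LP
end

section

set_option autoImplicit false

/-! # G1: elementary symmetric polynomials of a finite family: recursion, sign -/

namespace Pool.Agent.LP

open Finset

variable {ι : Type} [DecidableEq ι]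

theorem es_zero (a : ι → ℝ) (S : Finset ι) : es a S 0 = 1 := by
  unfold es
  rw [Finset.powersetCard_zero, Finset.sum_singleton, Finset.prod_empty]

/-- PROOF. `Finset.powersetCard_succ_insert`. -/
theorem es_insert (a : ι → ℝ) {S : Finset ι} {c : ι} (hc : c ∉ S) (m : ℕ) :
    es a (insert c S) (m + 1) = es a S (m + 1) + a c * es a S m := by
  unfold es
  rw [Finset.powersetCard_succ_insert hc, Finset.sum_union]
  · congr 1
    rw [Finset.sum_image, Finset.mul_sum]
    · refine Finset.sum_congr rfl fun A hA => ?_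
      rw [Finset.prod_insert]
      exact fun h => hc ((Finset.mem_powersetCard.1 hA).1 h)
    · intro A hA B hB hAB
      have h1 : c ∉ A := fun h => hc ((Finset.mem_powersetCard.1 hA).1 h)
      have h2 : c ∉ B := fun h => hc ((Finset.mem_powersetCard.1 hB).1 h)
      rw [← Finset.erase_insert h1, ← Finset.erase_insert h2, hAB]
  · rw [Finset.disjoint_left]
    intro A hA hA'
    obtain ⟨B, hB, rfl⟩ := Finset.mem_image.1 hA'
    exact hc ((Finset.mem_powersetCard.1 hA).1 (Finset.mem_insert_self c B))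

theorem es_erase (a : ι → ℝ) {S : Finset ι} {c : ι} (hc : c ∈ S) (m : ℕ) :
    es a S (m + 1) = es a (S.erase c) (m + 1) + a c * es a (S.erase c) m := by
  conv_lhs => rw [← Finset.insert_erase hc]
  exact es_insert a (Finset.notMem_erase c S) m

theorem es_nonneg {a : ι → ℝ} (ha : ∀ c, 0 ≤ a c) (S : Finset ι) (m : ℕ) : 0 ≤ es a S m :=
  Finset.sum_nonneg fun _ _ => Finset.prod_nonneg fun c _ => ha c

theorem es_pos {a : ι → ℝ} (ha : ∀ c, 0 < a c) {S : Finset ι} {m : ℕ} (hm : m ≤ S.card) :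
    0 < es a S m := by
  refine Finset.sum_pos (fun _ _ => Finset.prod_pos fun c _ => ha c) ?_
  exact Finset.powersetCard_nonempty.2 hm

theorem es_eq_zero (a : ι → ℝ) {S : Finset ι} {m : ℕ} (hm : S.card < m) : es a S m = 0 := by
  unfold es
  rw [Finset.powersetCard_eq_empty.2 hm, Finset.sum_empty]

/-- PROOF. Induction on `S` with `es_insert`. -/
theorem coeff_prod (a : ι → ℝ) (S : Finset ι) (m : ℕ) :
    (∏ c ∈ S, (1 + Polynomial.C (a c) * Polynomial.X)).coeff m = es a S m := by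
  induction S using Finset.induction_on generalizing m with
  | empty =>
    rw [Finset.prod_empty, Polynomial.coeff_one]
    cases m with
    | zero => rw [es_zero, if_pos rfl]
    | succ m =>
      rw [es_eq_zero a (by simp), if_neg (by omega)]
  | insert c S hc ih =>
    rw [Finset.prod_insert hc, add_mul, one_mul, Polynomial.coeff_add, ih, mul_assoc,
      Polynomial.coeff_C_mul]
    cases m with
    | zero => rw [es_zero, es_zero, Polynomial.coeff_X_mul_zero, mul_zero, add_zero]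
    | succ m => rw [Polynomial.coeff_X_mul, ih, es_insert a hc]

end Pool.Agent.LP
end
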