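import Pool.Agent.Lib.MP_f91407_an.Mg.G001

section

set_option autoImplicit false

/-! # A1: one factor `1 - b + b e^z`. Notation: `z = x + i y`, `B = 1 - b + b e^x > 0`, `xr = b(1-b)e^x/B^2` (A1c) -/

namespace Pool.Agent.LP

open Complex

/-- PROOF. `Im (b e^z/ be) = Im (b e^z conj(be))/|be|^2 = b (1-b) e^x sin y/|be|^2`; use `norm_be_sq`. -/
theorem im_Pc {b : ℝ} (h0 : 0 < b) (h1 : b < 1) {z : ℂ} (hz : |z.im| < Real.pi) :
    (Pc b z).im = xr b z.re * Real.sin z.im / (1 - 2 * xr b z.re * (1 - Real.cos z.im)) := by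
  have hB : 0 < 1 - b + b * Real.exp z.re := by
    have := Real.exp_pos z.re
    have := mul_pos h0 this
    linarith
  have hne := be_ne_zero h0 h1 hz
  have e1 : be b z = ((1 - b + b * (Real.exp z.re * Real.cos z.im) : ℝ) : ℂ) +
      ((b * (Real.exp z.re * Real.sin z.im) : ℝ) : ℂ) * I := by
    rw [be, Complex.exp_eq_exp_re_mul_sin_add_cos]
    push_cast
    ring
  have e2 : (b : ℂ) * exp z = ((b * (Real.exp z.re * Real.cos z.im) : ℝ) : ℂ) +
      ((b * (Real.exp z.re * Real.sin z.im) : ℝ) : ℂ) * I := by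
    rw [Complex.exp_eq_exp_re_mul_sin_add_cos]
    push_cast
    ring
  have hN : normSq (be b z) = (1 - b + b * Real.exp z.re) ^ 2 *
      (1 - 2 * xr b z.re * (1 - Real.cos z.im)) := by
    rw [Complex.normSq_eq_norm_sq, norm_be_sq h0 h1]
  have hN0 : 0 < normSq (be b z) := Complex.normSq_pos.2 hne
  have r1 : (be b z).re = 1 - b + b * (Real.exp z.re * Real.cos z.im) := by
    rw [e1]
    simp only [Complex.add_re, Complex.ofReal_re, Complex.mul_re, Complex.I_re, Complex.I_im,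
      Complex.ofReal_im]
    ring
  have i1 : (be b z).im = b * (Real.exp z.re * Real.sin z.im) := by
    rw [e1]
    simp only [Complex.add_im, Complex.ofReal_re, Complex.mul_im, Complex.I_re, Complex.I_im,
      Complex.ofReal_im]
    ring
  have r2 : ((b : ℂ) * exp z).re = b * (Real.exp z.re * Real.cos z.im) := by
    rw [e2]
    simp only [Complex.add_re, Complex.ofReal_re, Complex.mul_re, Complex.I_re, Complex.I_im,
      Complex.ofReal_im]
    ring
  have i2 : ((b : ℂ) * exp z).im = b * (Real.exp z.re * Real.sin z.im) := by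
    rw [e2]
    simp only [Complex.add_im, Complex.ofReal_re, Complex.mul_im, Complex.I_re, Complex.I_im,
      Complex.ofReal_im]
    ring
  have e4 : xr b z.re = b * (1 - b) * Real.exp z.re / (1 - b + b * Real.exp z.re) ^ 2 := rfl
  have hD : 0 < 1 - 2 * xr b z.re * (1 - Real.cos z.im) := by
    rw [hN] at hN0
    exact (mul_pos_iff_of_pos_left (by positivity)).1 hN0
  rw [Pc, Complex.div_im, r1, i1, r2, i2, hN]
  obtain ⟨D, hDD⟩ : ∃ D, D = 1 - 2 * xr b z.re * (1 - Real.cos z.im) := ⟨_, rfl⟩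
  rw [← hDD] at hD ⊢
  rw [e4]
  field_simp
  ring

/-- PROOF. `|yc| = b(1-b)e^x/|be|^2` and `norm_be_sq`. -/
theorem norm_yc {b : ℝ} (h0 : 0 < b) (h1 : b < 1) {z : ℂ} (hz : |z.im| < Real.pi) :
    ‖yc b z‖ = xr b z.re / (1 - 2 * xr b z.re * (1 - Real.cos z.im)) := by
  have hB : 0 < 1 - b + b * Real.exp z.re := by
    have := Real.exp_pos z.re
    have := mul_pos h0 this
    linarith
  have hb1 : 0 < 1 - b := by linarith
  have hne := be_ne_zero h0 h1 hz
  have hN0 : 0 < ‖be b z‖ ^ 2 := by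
    have := norm_pos_iff.2 hne
    positivity
  rw [yc, norm_div, norm_pow, norm_mul, norm_mul, Complex.norm_exp, norm_be_sq h0 h1]
  rw [norm_be_sq h0 h1] at hN0
  have e1 : ‖(b : ℂ)‖ = b := by rw [Complex.norm_real, Real.norm_of_nonneg h0.le]
  have e2 : ‖(1 - (b : ℂ))‖ = 1 - b := by
    rw [← Complex.ofReal_one, ← Complex.ofReal_sub, Complex.norm_real, Real.norm_of_nonneg hb1.le]
  have e4 : xr b z.re = b * (1 - b) * Real.exp z.re / (1 - b + b * Real.exp z.re) ^ 2 := rfl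
  rw [e1, e2]
  have hD : 0 < 1 - 2 * xr b z.re * (1 - Real.cos z.im) :=
    (mul_pos_iff_of_pos_left (by positivity)).1 hN0
  obtain ⟨D, hDD⟩ : ∃ D, D = 1 - 2 * xr b z.re * (1 - Real.cos z.im) := ⟨_, rfl⟩
  rw [← hDD] at hD ⊢
  rw [e4]
  field_simp

theorem yc_eq {b : ℝ} (h0 : 0 < b) (h1 : b < 1) {z : ℂ} (hz : |z.im| < Real.pi) :
    yc b z = Pc b z * (1 - Pc b z) := by
  have hne := be_ne_zero h0 h1 hz
  have e1 : (1 : ℂ) - b = be b z - b * exp z := by
    rw [be]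
    ring
  rw [yc, Pc, e1]
  field_simp

end Pool.Agent.LP
end

section

set_option autoImplicit false

/-! # A1: one factor `1 - b + b e^z`. Notation: `z = x + i y`, `B = 1 - b + b e^x > 0`, `xr = b(1-b)e^x/B^2` (A1d) -/

namespace Pool.Agent.LP

open Complex

/-- PROOF. `1 - 2P = (1 - b - b e^z)/(1 - b + b e^z)` and
`|1-b+be^z|^2 - |1-b-be^z|^2 = 4 b (1-b) e^x cos y ≥ 0` for `|y| ≤ π/2`. -/
theorem norm_one_sub_two_Pc {b : ℝ} (h0 : 0 < b) (h1 : b < 1) {z : ℂ} (hz : |z.im| ≤ Real.pi / 2) :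
    ‖1 - 2 * Pc b z‖ ≤ 1 := by
  unfold Pc
  by_cases hbe : be b z = 0
  · simp [hbe]
  have hn : 1 - 2 * ((b : ℂ) * exp z / be b z) =
      (1 - (b : ℂ) - (b : ℂ) * exp z) / be b z := by
    rw [eq_div_iff hbe, sub_mul, mul_assoc, div_mul_cancel₀ _ hbe]
    unfold be
    ring
  rw [hn, norm_div, div_le_one (norm_pos_iff.2 hbe)]
  have hc : 0 ≤ (exp z).re := by
    rw [exp_re]
    exact mul_nonneg (Real.exp_pos _).le
      (Real.cos_nonneg_of_neg_pi_div_two_le_of_le (by linarith [(abs_le.1 hz).1])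
        (abs_le.1 hz).2)
  rw [← sq_le_sq₀ (norm_nonneg _) (norm_nonneg _), Complex.sq_norm, Complex.sq_norm]
  have key : normSq (be b z) - normSq (1 - (b : ℂ) - (b : ℂ) * exp z) =
      4 * (b * (1 - b)) * (exp z).re := by
    simp only [be, normSq_apply, add_re, add_im, sub_re, sub_im, one_re, one_im, ofReal_re,
      ofReal_im, mul_re, mul_im]
    ring
  have h2 : 0 ≤ 4 * (b * (1 - b)) * (exp z).re :=
    mul_nonneg (mul_nonneg (by norm_num) (mul_nonneg h0.le (by linarith))) hc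
  linarith

/-- PROOF. Put `r = b e^x/(1-b) > 0`, `X = r + 1/r ≥ 2`. Then `1/yc = r⁻¹ e^{-iy} + 2 + r e^{iy}
= 2 + X cos y + i (r - 1/r) sin y` and `1 - 6 yc = (1/yc - 6)/(1/yc)`; the imaginary parts of `1/yc - 6`
and `1/yc` are equal and the real parts are `X cos y - 4` and `X cos y + 2`;
`|X cos y - 4| ≤ |X cos y + 2|` iff `X cos y ≥ 1`, true because `X ≥ 2`, `cos y ≥ 1/2` for `|y| ≤ π/3`
(`1 ≤ π/3`). -/
theorem norm_one_sub_six_yc {b : ℝ} (h0 : 0 < b) (h1 : b < 1) {z : ℂ} (hz : |z.im| ≤ 1) :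
    ‖1 - 6 * yc b z‖ ≤ 1 := by
  unfold yc
  by_cases hbe : be b z = 0
  · simp [hbe]
  have hbe2 : be b z ^ 2 ≠ 0 := pow_ne_zero 2 hbe
  have hn : 1 - 6 * ((b : ℂ) * (1 - (b : ℂ)) * exp z / be b z ^ 2) =
      (be b z ^ 2 - 6 * ((b : ℂ) * (1 - (b : ℂ)) * exp z)) / be b z ^ 2 := by
    rw [eq_div_iff hbe2, sub_mul, mul_assoc, div_mul_cancel₀ _ hbe2, one_mul]
  rw [hn, norm_div, div_le_one (norm_pos_iff.2 hbe2)]
  rw [← sq_le_sq₀ (norm_nonneg _) (norm_nonneg _), Complex.sq_norm, Complex.sq_norm]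
  have hcos : 1 / 2 ≤ Real.cos z.im := by
    rw [← Real.cos_pi_div_three, ← Real.cos_abs z.im]
    exact Real.cos_le_cos_of_nonneg_of_le_pi (abs_nonneg _) (by linarith [Real.pi_pos])
      (by linarith [Real.pi_gt_three])
  have hρ : 0 < Real.exp z.re := Real.exp_pos _
  have hre : (exp z).re = Real.exp z.re * Real.cos z.im := exp_re z
  have him : (exp z).im = Real.exp z.re * Real.sin z.im := exp_im z
  have hsq : (exp z).re ^ 2 + (exp z).im ^ 2 = Real.exp z.re ^ 2 := by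
    rw [hre, him]
    linear_combination (Real.exp z.re ^ 2) * Real.sin_sq_add_cos_sq z.im
  have key : normSq (be b z ^ 2) -
      normSq (be b z ^ 2 - 6 * ((b : ℂ) * (1 - (b : ℂ)) * exp z)) =
      12 * (b * (1 - b)) * (((1 - b) ^ 2 + b ^ 2 * ((exp z).re ^ 2 + (exp z).im ^ 2)) *
        (exp z).re - b * (1 - b) * ((exp z).re ^ 2 + (exp z).im ^ 2)) := by
    have h6 : (6 : ℂ) = ((6 : ℝ) : ℂ) := by norm_num
    rw [h6]
    simp only [be, normSq_apply, add_re, add_im, sub_re, sub_im, one_re, one_im, ofReal_re,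
      ofReal_im, mul_re, mul_im, pow_two]
    ring
  have hu : Real.exp z.re / 2 ≤ (exp z).re := by
    rw [hre]
    nlinarith
  have h3 : 0 ≤ ((1 - b) ^ 2 + b ^ 2 * Real.exp z.re ^ 2) * (exp z).re -
      b * (1 - b) * Real.exp z.re ^ 2 := by
    have h4 : 0 ≤ ((1 - b) ^ 2 + b ^ 2 * Real.exp z.re ^ 2) *
        ((exp z).re - Real.exp z.re / 2) :=
      mul_nonneg (by positivity) (by linarith)
    have h5 : 0 ≤ Real.exp z.re / 2 * (1 - b - b * Real.exp z.re) ^ 2 := by positivity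
    nlinarith
  have h7 : 0 ≤ 12 * (b * (1 - b)) * (((1 - b) ^ 2 + b ^ 2 * ((exp z).re ^ 2 +
      (exp z).im ^ 2)) * (exp z).re - b * (1 - b) * ((exp z).re ^ 2 + (exp z).im ^ 2)) := by
    rw [hsq]
    exact mul_nonneg (mul_nonneg (by norm_num) (mul_nonneg h0.le (by linarith))) h3
  linarith

end Pool.Agent.LP
end

section

set_option autoImplicit false

/-! # A1: one factor `1 - b + b e^z`. Notation: `z = x + i y`, `B = 1 - b + b e^x > 0`, `xr = b(1-b)e^x/B^2` (A1e) -/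

namespace Pool.Agent.LP

open Complex

private theorem A1e_alg {S T c : ℝ} (hS : 0 < S) (hT : 0 < T) (h0 : 0 ≤ c) (h1 : c ≤ 1) :
    T / (S + 2 * T) * c ≤ T * (S * c + 2 * T) / (S + 2 * T * c) ^ 2 := by
  have hN : 0 < S + 2 * T * c := by positivity
  have hB : 0 < S + 2 * T := by positivity
  rw [div_mul_eq_mul_div, div_le_div_iff₀ hB (by positivity)]
  have key : 0 ≤ 2 * S * T * (1 - c) * (1 + 2 * c) + 4 * T ^ 2 * (1 - c) * (1 + c + c ^ 2) := by
    have h2 : 0 ≤ 1 - c := by linarith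
    positivity
  have e : T * (S * c + 2 * T) * (S + 2 * T) - T * c * (S + 2 * T * c) ^ 2 =
      T * (2 * S * T * (1 - c) * (1 + 2 * c) + 4 * T ^ 2 * (1 - c) * (1 + c + c ^ 2)) := by
    ring
  nlinarith [mul_nonneg hT.le key]

private theorem A1e_re {b E c s : ℝ} (hcs : c ^ 2 + s ^ 2 = 1) {w e : ℂ}
    (he1 : e.re = E * c) (he2 : e.im = E * s) (hw1 : w.re = 1 - b + b * (E * c))
    (hw2 : w.im = b * (E * s)) :
    ((b : ℂ) * (1 - (b : ℂ)) * e / w ^ 2).re =
      b * (1 - b) * E * (((1 - b) ^ 2 + (b * E) ^ 2) * c + 2 * (b * (1 - b) * E)) /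
        (((1 - b) ^ 2 + (b * E) ^ 2) + 2 * (b * (1 - b) * E) * c) ^ 2 := by
  have hn : normSq w = ((1 - b) ^ 2 + (b * E) ^ 2) + 2 * (b * (1 - b) * E) * c := by
    rw [normSq_apply, hw1, hw2]
    linear_combination (b * E) ^ 2 * hcs
  have h1 : ((b : ℂ) * (1 - (b : ℂ)) * e).re = b * (1 - b) * (E * c) := by
    have : (b : ℂ) * (1 - (b : ℂ)) = ((b * (1 - b) : ℝ) : ℂ) := by push_cast; ring
    rw [this, re_ofReal_mul, he1]
  have h2 : ((b : ℂ) * (1 - (b : ℂ)) * e).im = b * (1 - b) * (E * s) := by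
    have : (b : ℂ) * (1 - (b : ℂ)) = ((b * (1 - b) : ℝ) : ℂ) := by push_cast; ring
    rw [this, im_ofReal_mul, he2]
  have h3 : (w ^ 2).re = (1 - b + b * (E * c)) ^ 2 - (b * (E * s)) ^ 2 := by
    rw [pow_two, mul_re, hw1, hw2]
    ring
  have h4 : (w ^ 2).im = 2 * (1 - b + b * (E * c)) * (b * (E * s)) := by
    rw [pow_two, mul_im, hw1, hw2]
    ring
  rw [div_re, h1, h2, h3, h4, map_pow, hn, ← add_div]
  congr 1
  linear_combination (b * (1 - b) * E) * (2 * (1 - b) * b * E + (b * E) ^ 2 * c) * hcs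

/-- PROOF. With `r`, `X` as above and `c = cos y ∈ [0,1]`: `Re yc = Re(1/yc)/|1/yc|^2
= (2 + X c)/(X + 2c)^2` [`|1/yc|^2 = (2+Xc)^2 + (X^2-4)(1-c^2) = (X+2c)^2`] and `xr = 1/(2 + X)`; the claim
`(2 + X c)(2 + X) ≥ c (X + 2c)^2` is `4(1 - c^3) + 2X(1-c)(1+2c) ≥ 0`. (A direct computation with
`B` instead of `r` is also fine.) -/
theorem re_yc_ge {b : ℝ} (h0 : 0 < b) (h1 : b < 1) {z : ℂ} (hz : |z.im| ≤ Real.pi / 2) :
    xr b z.re * Real.cos z.im ≤ (yc b z).re := by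
  have hb : 0 < 1 - b := by linarith
  have hE : 0 < Real.exp z.re := Real.exp_pos _
  have hc0 : 0 ≤ Real.cos z.im := by
    have := abs_le.1 hz
    exact Real.cos_nonneg_of_mem_Icc ⟨by linarith [this.1], this.2⟩
  have hc1 : Real.cos z.im ≤ 1 := Real.cos_le_one _
  have hcs : Real.cos z.im ^ 2 + Real.sin z.im ^ 2 = 1 := Real.cos_sq_add_sin_sq _
  have he1 : (exp z).re = Real.exp z.re * Real.cos z.im := exp_re z
  have he2 : (exp z).im = Real.exp z.re * Real.sin z.im := exp_im z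
  have hw1 : (be b z).re = 1 - b + b * (Real.exp z.re * Real.cos z.im) := by
    unfold be
    rw [add_re, re_ofReal_mul, he1, sub_re, one_re, ofReal_re]
  have hw2 : (be b z).im = b * (Real.exp z.re * Real.sin z.im) := by
    unfold be
    rw [add_im, im_ofReal_mul, he2, sub_im, one_im, ofReal_im]
    ring
  unfold yc xr
  rw [A1e_re hcs he1 he2 hw1 hw2]
  have e1 : (1 - b + b * Real.exp z.re) ^ 2 =
      ((1 - b) ^ 2 + (b * Real.exp z.re) ^ 2) + 2 * (b * (1 - b) * Real.exp z.re) := by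
    ring
  rw [e1]
  exact A1e_alg (by positivity) (by positivity) hc0 hc1

end Pool.Agent.LP
end

section

set_option autoImplicit false

/-! collects the parts -/
end
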