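import Pool.Agent.Lib.MP_f91407_an.Mg.G013

section

set_option autoImplicit false

/-! # E3a: comparison of the Gaussian masses -/

namespace Pool.Agent.LP

open Complex MeasureTheory

/-- the Gaussian mass compared with `B`. PROOF. `√(S/k)/0.975 = 1/(√0.8122 * 0.975) ≤ 1.1381`,
`a²/(2k) - (0.949a² - 0.0722)/(2S) = ((1/0.8122 - 0.949) a² + 0.0722)/(2S) ≤ (0.2823 * 0.5084 + 0.0722)/1.3 ≤ 0.166`; `e^{0.166} ≤ 1.1806`. -/
theorem mass_le (S a : ℝ) (hS : 0.65 ≤ S) (ha : |a| ≤ 0.713) :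
    Real.sqrt (2 * Real.pi / (0.8122 * S)) * Real.exp (a ^ 2 / (2 * (0.8122 * S))) ≤
      1.344 * (0.975 * Real.sqrt (2 * Real.pi / S) *
        Real.exp ((0.949 * a ^ 2 - 0.0722) / (2 * S))) := by
  have hS0 : 0 < S := by linarith
  have ha2 : a ^ 2 ≤ 0.713 ^ 2 := by
    rw [← sq_abs]
    exact pow_le_pow_left₀ (abs_nonneg _) ha 2
  have h1 : √(2 * Real.pi / (0.8122 * S)) ≤ 1.10962 * √(2 * Real.pi / S) := by
    have h6 : 1.10962 * √(2 * Real.pi / S) = √(1.10962 ^ 2 * (2 * Real.pi / S)) := by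
      rw [Real.sqrt_mul (by norm_num), Real.sqrt_sq (by norm_num)]
    rw [h6]
    refine Real.sqrt_le_sqrt ?_
    rw [mul_div_assoc', div_le_div_iff₀ (by positivity) hS0]
    have hpi := Real.pi_pos
    have h7 : 0 < Real.pi * S := by positivity
    nlinarith
  have h2 : a ^ 2 / (2 * (0.8122 * S)) ≤ (0.949 * a ^ 2 - 0.0722) / (2 * S) + 0.16591 := by
    have h3 : (0.949 * a ^ 2 - 0.0722) / (2 * S) + 0.16591
        - a ^ 2 / (2 * (0.8122 * S)) = (0.16591 * (2 * S) + 0.949 * a ^ 2 - 0.0722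
          - a ^ 2 / 0.8122) / (2 * S) := by
      field_simp
      ring
    have h4 : 0 ≤ (0.16591 * (2 * S) + 0.949 * a ^ 2 - 0.0722 - a ^ 2 / 0.8122) / (2 * S) := by
      refine div_nonneg ?_ (by positivity)
      have h5 : a ^ 2 / 0.8122 ≤ 1.231225 * a ^ 2 := by
        rw [div_le_iff₀ (by norm_num)]
        nlinarith [sq_nonneg a]
      nlinarith
    linarith
  have h3 : Real.exp 0.16591 ≤ 1.1806 := by
    refine (Real.exp_bound' (by norm_num) (by norm_num) (n := 5) (by norm_num)).trans ?_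
    simp only [Finset.sum_range_succ, Finset.sum_range_zero, Nat.factorial]
    norm_num
  have h4 : Real.exp (a ^ 2 / (2 * (0.8122 * S)))
      ≤ Real.exp ((0.949 * a ^ 2 - 0.0722) / (2 * S)) * 1.1806 := by
    refine (Real.exp_le_exp.2 h2).trans ?_
    rw [Real.exp_add]
    exact mul_le_mul_of_nonneg_left h3 (Real.exp_pos _).le
  have h5 := Real.sqrt_nonneg (2 * Real.pi / S)
  have h6 := (Real.exp_pos ((0.949 * a ^ 2 - 0.0722) / (2 * S))).le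
  calc _ ≤ (1.10962 * √(2 * Real.pi / S)) *
        (Real.exp ((0.949 * a ^ 2 - 0.0722) / (2 * S)) * 1.1806) :=
        mul_le_mul h1 h4 (Real.exp_pos _).le (by positivity)
    _ = 1.10962 * 1.1806 * (√(2 * Real.pi / S) *
        Real.exp ((0.949 * a ^ 2 - 0.0722) / (2 * S))) := by ring
    _ ≤ 1.344 * 0.975 * (√(2 * Real.pi / S) *
        Real.exp ((0.949 * a ^ 2 - 0.0722) / (2 * S))) :=
        mul_le_mul_of_nonneg_right (by norm_num) (by positivity)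
    _ = _ := by ring

end Pool.Agent.LP
end

section

set_option autoImplicit false

/-! # E3b: moment bounds; `k = 0.8122 S`, `B = 0.975 √(2π/S) exp((0.949 a² - 0.0722)/(2S))` -/

namespace Pool.Agent.LP

open Complex MeasureTheory

private theorem E3b_bd (S a : ℝ) (hS : 0.65 ≤ S) (ha : |a| ≤ 0.713) :
    1 / (0.8122 * S) + a ^ 2 / (0.8122 * S) ^ 2 ≤ 3.7185 ∧
      3 / (0.8122 * S) ^ 2 + 6 * a ^ 2 / (0.8122 * S) ^ 3 + a ^ 4 / (0.8122 * S) ^ 4 ≤ 34.83 ∧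
      S * (1 / (0.8122 * S) + a ^ 2 / (0.8122 * S) ^ 2) ≤ 2.4172 ∧
      S * (3 / (0.8122 * S) ^ 2 + 6 * a ^ 2 / (0.8122 * S) ^ 3 + a ^ 4 / (0.8122 * S) ^ 4) ≤
        22.64 := by
  have hS0 : 0 < S := by linarith
  obtain ⟨u, hu⟩ : ∃ u, u = 1 / (0.8122 * S) := ⟨_, rfl⟩
  have hu0 : 0 < u := by
    rw [hu]
    positivity
  have hu1 : u ≤ 1.8942 := by
    rw [hu, div_le_iff₀ (by positivity)]
    linarith
  have hSu : S * u = 1 / 0.8122 := by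
    rw [hu]
    field_simp
  obtain ⟨b, hb⟩ : ∃ b, b = a ^ 2 := ⟨_, rfl⟩
  have hb0 : 0 ≤ b := by
    rw [hb]
    positivity
  have hb1 : b ≤ 0.50837 := by
    rw [hb, ← sq_abs]
    have := abs_nonneg a
    nlinarith
  have e1 : 1 / (0.8122 * S) + a ^ 2 / (0.8122 * S) ^ 2 = u + b * u ^ 2 := by
    rw [hu, hb]
    field_simp
  have e2 : 3 / (0.8122 * S) ^ 2 + 6 * a ^ 2 / (0.8122 * S) ^ 3 + a ^ 4 / (0.8122 * S) ^ 4 =
      3 * u ^ 2 + 6 * b * u ^ 3 + b ^ 2 * u ^ 4 := by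
    rw [hu, hb]
    field_simp
  rw [e1, e2]
  refine ⟨?_, ?_, ?_, ?_⟩
  · calc u + b * u ^ 2 ≤ 1.8942 + 0.50837 * 1.8942 ^ 2 := by gcongr
      _ ≤ 3.7185 := by norm_num
  · calc 3 * u ^ 2 + 6 * b * u ^ 3 + b ^ 2 * u ^ 4 ≤
          3 * 1.8942 ^ 2 + 6 * 0.50837 * 1.8942 ^ 3 + 0.50837 ^ 2 * 1.8942 ^ 4 := by gcongr
      _ ≤ 34.83 := by norm_num
  · calc S * (u + b * u ^ 2) = (S * u) * (1 + b * u) := by ring
      _ ≤ (1 / 0.8122) * (1 + 0.50837 * 1.8942) := by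
        rw [hSu]
        gcongr
      _ ≤ 2.4172 := by norm_num
  · calc S * (3 * u ^ 2 + 6 * b * u ^ 3 + b ^ 2 * u ^ 4) =
          (S * u) * (3 * u + 6 * b * u ^ 2 + b ^ 2 * u ^ 3) := by ring
      _ ≤ (1 / 0.8122) * (3 * 1.8942 + 6 * 0.50837 * 1.8942 ^ 2 + 0.50837 ^ 2 * 1.8942 ^ 3) := by
        rw [hSu]
        gcongr
      _ ≤ 22.64 := by norm_num

private theorem E3b_fun (S a s : ℝ) :
    Real.exp (-(0.4061 * S * s ^ 2) - a * s) = Real.exp (-(0.8122 * S / 2 * s ^ 2) - a * s) := by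
  congr 1
  ring

private theorem E3b_cube (s : ℝ) : |s| ^ 3 ≤ (3 * s ^ 2 + s ^ 4 / 3) / 2 := by
  have h1 : s ^ 2 = |s| ^ 2 := (sq_abs s).symm
  have h2 : s ^ 4 = |s| ^ 4 := by
    rw [show s ^ 4 = (s ^ 2) ^ 2 by ring, h1]
    ring
  rw [h1, h2]
  have h3 : 0 ≤ |s| ^ 2 * (|s| - 3) ^ 2 := by positivity
  nlinarith

private theorem E3b_int (S a c d : ℝ) (hS : 0 < S) :
    Integrable (fun s : ℝ => (c * s ^ 2 + d * s ^ 4) *
      Real.exp (-(0.4061 * S * s ^ 2) - a * s)) ∧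
    ∫ s : ℝ, (c * s ^ 2 + d * s ^ 4) * Real.exp (-(0.4061 * S * s ^ 2) - a * s) =
      Real.sqrt (2 * Real.pi / (0.8122 * S)) * Real.exp (a ^ 2 / (2 * (0.8122 * S))) *
        (c * (1 / (0.8122 * S) + a ^ 2 / (0.8122 * S) ^ 2) +
          d * (3 / (0.8122 * S) ^ 2 + 6 * a ^ 2 / (0.8122 * S) ^ 3 +
            a ^ 4 / (0.8122 * S) ^ 4)) := by
  have hk : 0 < 0.8122 * S := by positivity
  have i2 := (gl_integrable (0.8122 * S) a hk 2).const_mul c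
  have i4 := (gl_integrable (0.8122 * S) a hk 4).const_mul d
  have e : ∀ s : ℝ, (c * s ^ 2 + d * s ^ 4) * Real.exp (-(0.4061 * S * s ^ 2) - a * s) =
      c * (s ^ 2 * Real.exp (-(0.8122 * S / 2 * s ^ 2) - a * s)) +
        d * (s ^ 4 * Real.exp (-(0.8122 * S / 2 * s ^ 2) - a * s)) := fun s => by
    rw [E3b_fun]
    ring
  simp only [e]
  refine ⟨i2.add i4, ?_⟩
  rw [integral_add i2 i4, integral_const_mul, integral_const_mul, gl_two _ a hk, gl_four _ a hk]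
  ring

private theorem E3b_main (S a c d K : ℝ) (hS : 0.65 ≤ S) (ha : |a| ≤ 0.713) (f : ℝ → ℝ)
    (hf : Continuous f) (hf0 : ∀ s, 0 ≤ f s) (hfc : ∀ s, f s ≤ c * s ^ 2 + d * s ^ 4)
    (hK : 1.344 * (c * (1 / (0.8122 * S) + a ^ 2 / (0.8122 * S) ^ 2) +
          d * (3 / (0.8122 * S) ^ 2 + 6 * a ^ 2 / (0.8122 * S) ^ 3 +
            a ^ 4 / (0.8122 * S) ^ 4)) ≤ K)
    (hK0 : 0 ≤ c * (1 / (0.8122 * S) + a ^ 2 / (0.8122 * S) ^ 2) +
          d * (3 / (0.8122 * S) ^ 2 + 6 * a ^ 2 / (0.8122 * S) ^ 3 +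
            a ^ 4 / (0.8122 * S) ^ 4)) :
    ∫ s : ℝ, f s * Real.exp (-(0.4061 * S * s ^ 2) - a * s) ≤
      K * (0.975 * Real.sqrt (2 * Real.pi / S) *
        Real.exp ((0.949 * a ^ 2 - 0.0722) / (2 * S))) := by
  obtain ⟨hi, he⟩ := E3b_int S a c d (by linarith)
  have h1 : ∫ s : ℝ, f s * Real.exp (-(0.4061 * S * s ^ 2) - a * s) ≤
      ∫ s : ℝ, (c * s ^ 2 + d * s ^ 4) * Real.exp (-(0.4061 * S * s ^ 2) - a * s) := by
    refine integral_mono (hi.mono' (by fun_prop) (Filter.Eventually.of_forall fun s => ?_)) hi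
      fun s => mul_le_mul_of_nonneg_right (hfc s) (Real.exp_pos _).le
    rw [norm_mul, Real.norm_of_nonneg (hf0 s), Real.norm_of_nonneg (Real.exp_pos _).le]
    exact mul_le_mul_of_nonneg_right (hfc s) (Real.exp_pos _).le
  refine h1.trans ?_
  rw [he]
  have h2 := mass_le S a hS ha
  have hB : 0 ≤ 0.975 * Real.sqrt (2 * Real.pi / S) *
      Real.exp ((0.949 * a ^ 2 - 0.0722) / (2 * S)) := by positivity
  obtain ⟨B, hB'⟩ : ∃ B, B = 0.975 * Real.sqrt (2 * Real.pi / S) *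
      Real.exp ((0.949 * a ^ 2 - 0.0722) / (2 * S)) := ⟨_, rfl⟩
  rw [← hB'] at h2 hB ⊢
  calc _ ≤ 1.344 * B * (c * (1 / (0.8122 * S) + a ^ 2 / (0.8122 * S) ^ 2) +
          d * (3 / (0.8122 * S) ^ 2 + 6 * a ^ 2 / (0.8122 * S) ^ 3 +
            a ^ 4 / (0.8122 * S) ^ 4)) := mul_le_mul_of_nonneg_right h2 hK0
    _ = 1.344 * (c * (1 / (0.8122 * S) + a ^ 2 / (0.8122 * S) ^ 2) +
          d * (3 / (0.8122 * S) ^ 2 + 6 * a ^ 2 / (0.8122 * S) ^ 3 +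
            a ^ 4 / (0.8122 * S) ^ 4)) * B := by ring
    _ ≤ K * B := mul_le_mul_of_nonneg_right hK hB

/-- PROOF. `gl_two`, `mass_le` and `1/k + a²/k² ≤ 3.719` for `k = 0.8122 S ≥ 0.52793`, `a² ≤ 0.50837`. `1.344 * 3.719 ≤ 5`. -/
theorem J2_le (S a : ℝ) (hS : 0.65 ≤ S) (ha : |a| ≤ 0.713) :
    ∫ s : ℝ, s ^ 2 * Real.exp (-(0.4061 * S * s ^ 2) - a * s) ≤
      5 * (0.975 * Real.sqrt (2 * Real.pi / S) *
        Real.exp ((0.949 * a ^ 2 - 0.0722) / (2 * S))) := by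
  obtain ⟨h1, -, -, -⟩ := E3b_bd S a hS ha
  have hS0 : 0 < S := by linarith
  refine E3b_main S a 1 0 5 hS ha _ (by fun_prop) (fun s => by positivity)
    (fun s => by linarith) (by linarith) ?_
  rw [one_mul, zero_mul, add_zero]
  positivity

/-- PROOF. `|s|³ ≤ (3 s² + s⁴/3)/2`. With `m₂ = 1/k + a²/k²`, `m₄ = 3/k² + 6a²/k³ + a⁴/k⁴`: the left side is
`≤ 1.344 B (0.0061 S (3 m₂ + m₄/3)/2 + 0.0215 m₂)`. `S m₂`, `S m₄`, `m₂` are decreasing in `S`, so evaluate at `S = 0.65` (`k = 0.52793`, `a² = 0.50837`):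
`m₂ ≤ 3.719`, `m₄ ≤ 34.83`: `1.344 (0.0061 * 0.65 * 11.384 + 0.0215 * 3.719) ≤ 1.344 * 0.12512 ≤ 0.1682`. -/
theorem J3_le (S a : ℝ) (hS : 0.65 ≤ S) (ha : |a| ≤ 0.713) :
    ∫ s : ℝ, (0.0061 * S * |s| ^ 3 + 0.0215 * s ^ 2) *
        Real.exp (-(0.4061 * S * s ^ 2) - a * s) ≤
      0.17 * (0.975 * Real.sqrt (2 * Real.pi / S) *
        Real.exp ((0.949 * a ^ 2 - 0.0722) / (2 * S))) := by
  obtain ⟨h1, h2, h3, h4⟩ := E3b_bd S a hS ha
  have hS0 : 0 < S := by linarith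
  refine E3b_main S a (0.0061 * S * (3 / 2) + 0.0215) (0.0061 * S / 6) 0.17 hS ha _
    (by fun_prop) (fun s => by positivity) (fun s => ?_) ?_ (by positivity)
  · have h5 := mul_le_mul_of_nonneg_left (E3b_cube s) (by positivity : 0 ≤ 0.0061 * S)
    nlinarith
  · generalize 1 / (0.8122 * S) + a ^ 2 / (0.8122 * S) ^ 2 = m2 at *
    generalize 3 / (0.8122 * S) ^ 2 + 6 * a ^ 2 / (0.8122 * S) ^ 3 + a ^ 4 / (0.8122 * S) ^ 4 =
      m4 at *
    nlinarith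

/-- PROOF. Same: `1.344 (0.0061 * 0.65 * 34.83 + 0.0215 * 11.384) ≤ 1.344 * 0.38287 ≤ 0.515`. -/
theorem J4_le (S a : ℝ) (hS : 0.65 ≤ S) (ha : |a| ≤ 0.713) :
    ∫ s : ℝ, |s| * (0.0061 * S * |s| ^ 3 + 0.0215 * s ^ 2) *
        Real.exp (-(0.4061 * S * s ^ 2) - a * s) ≤
      0.52 * (0.975 * Real.sqrt (2 * Real.pi / S) *
        Real.exp ((0.949 * a ^ 2 - 0.0722) / (2 * S))) := by
  obtain ⟨h1, h2, h3, h4⟩ := E3b_bd S a hS ha
  have hS0 : 0 < S := by linarith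
  refine E3b_main S a (0.0215 * (3 / 2)) (0.0061 * S + 0.0215 / 6) 0.52 hS ha _
    (by fun_prop) (fun s => by positivity) (fun s => ?_) ?_ (by positivity)
  · have h5 := E3b_cube s
    have h6 : |s| * (0.0061 * S * |s| ^ 3 + 0.0215 * s ^ 2) =
        0.0061 * S * s ^ 4 + 0.0215 * |s| ^ 3 := by
      have h7 : |s| ^ 4 = s ^ 4 := by
        rw [show |s| ^ 4 = (|s| ^ 2) ^ 2 by ring, sq_abs]
        ring
      have h8 : |s| * s ^ 2 = |s| ^ 3 := by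
        rw [← sq_abs]
        ring
      have h9 : |s| * (0.0061 * S * |s| ^ 3 + 0.0215 * s ^ 2) =
          0.0061 * S * |s| ^ 4 + 0.0215 * (|s| * s ^ 2) := by ring
      rw [h9, h7, h8]
    rw [h6]
    linarith
  · generalize 1 / (0.8122 * S) + a ^ 2 / (0.8122 * S) ^ 2 = m2 at *
    generalize 3 / (0.8122 * S) ^ 2 + 6 * a ^ 2 / (0.8122 * S) ^ 3 + a ^ 4 / (0.8122 * S) ^ 4 =
      m4 at *
    nlinarith

end Pool.Agent.LP
end
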