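import Pool.Agent.Lib.MP_f91407_an.Mg.G013
import Pool.Agent.Lib.MP_f91407_an.Mg.G018

section

set_option autoImplicit false

/-! collects the parts -/
end

section

set_option autoImplicit false

/-! # G6: the coefficients `u_j` -/

namespace Pool.Agent.LP

open Finset

variable {n : ℕ} {b : Fin n → ℝ}

/-- PROOF. `C (1-b) + C b X = C (1-b) (1 + C (b/(1-b)) X)`, `coeff_prod`. -/
theorem uu_eq_es (hb : Ok b) (j : ℕ) :
    uu b j = (∏ c, (1 - b c)) * es (fun c => b c / (1 - b c)) Finset.univ j := by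
  unfold uu
  have h : ∀ c : Fin n, (Polynomial.C (1 - b c) + Polynomial.C (b c) * Polynomial.X : Polynomial ℝ) =
      Polynomial.C (1 - b c) * (1 + Polynomial.C (b c / (1 - b c)) * Polynomial.X) := by
    intro c
    have h1 : (1 : ℝ) - b c ≠ 0 := (sub_pos.2 (hb c).2).ne'
    rw [mul_add, mul_one, ← mul_assoc, ← Polynomial.C_mul, mul_div_cancel₀ _ h1]
  rw [Finset.prod_congr rfl fun c _ => h c, Finset.prod_mul_distrib, ← map_prod,
    Polynomial.coeff_C_mul, coeff_prod]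

theorem G6_ratio (hb : Ok b) (c : Fin n) : 0 < b c / (1 - b c) :=
  div_pos (hb c).1 (sub_pos.2 (hb c).2)

theorem G6_prod (hb : Ok b) : 0 < ∏ c, (1 - b c) :=
  Finset.prod_pos fun c _ => sub_pos.2 (hb c).2

theorem uu_pos (hb : Ok b) {j : ℕ} (hj : j ≤ n) : 0 < uu b j := by
  rw [uu_eq_es hb]
  exact mul_pos (G6_prod hb) (es_pos (G6_ratio hb) (by simpa using hj))

theorem uu_nonneg (hb : Ok b) (j : ℕ) : 0 ≤ uu b j := by
  rw [uu_eq_es hb]
  exact mul_nonneg (G6_prod hb).le (es_nonneg (fun c => (G6_ratio hb c).le) _ _)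

theorem uu_eq_zero (hb : Ok b) {j : ℕ} (hj : n < j) : uu b j = 0 := by
  rw [uu_eq_es hb, es_eq_zero _ (by simpa using hj), mul_zero]

theorem uu_newton (hb : Ok b) (j : ℕ) : uu b j * uu b (j + 2) ≤ uu b (j + 1) ^ 2 := by
  rw [uu_eq_es hb, uu_eq_es hb, uu_eq_es hb]
  have h := es_newton (fun c => (G6_ratio hb c).le) Finset.univ j
  have h2 := sq_nonneg (∏ c, (1 - b c))
  nlinarith [mul_le_mul_of_nonneg_left h h2]

end Pool.Agent.LP
end

section

set_option autoImplicit false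

/-! # E3c: tail of the Gaussian -/

namespace Pool.Agent.LP

open Complex MeasureTheory

private theorem E3c_exp : Real.exp (-3.86464) ≤ 0.0211 := by
  have h1 : Real.exp 0.13536 ≤ 1.145 := by
    refine (Real.exp_bound' (by norm_num) (by norm_num) (n := 5) (by norm_num)).trans ?_
    simp only [Finset.sum_range_succ, Finset.sum_range_zero, Nat.factorial]
    norm_num
  have h2 : (54.59 : ℝ) ≤ Real.exp 4 := by
    have h3 : Real.exp 4 = Real.exp 1 ^ 4 := by
      rw [← Real.exp_nat_mul]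
      norm_num
    rw [h3]
    have h4 : (2.7182 : ℝ) ≤ Real.exp 1 := by
      have := Real.exp_one_gt_d9
      linarith
    calc (54.59 : ℝ) ≤ 2.7182 ^ 4 := by norm_num
      _ ≤ Real.exp 1 ^ 4 := pow_le_pow_left₀ (by norm_num) h4 4
  have h5 : Real.exp (-3.86464) = Real.exp 0.13536 / Real.exp 4 := by
    rw [← Real.exp_sub]
    norm_num
  rw [h5, div_le_iff₀ (Real.exp_pos _)]
  nlinarith

/-- tail of the Gaussian. PROOF. For `|s| ≥ 8`, `S ≥ 0.65`, `|a| ≤ 0.713`: `0.499 S s² + a s ≥ 0.4061 S s² + a s + 0.0929 * 64 * 0.65 ...`; more simply: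
`(1 + |s|) ≤ s²/7` and `exp(-0.499 S s² - a s) ≤ exp(-0.0929 * S * 64) exp(-0.4061 S s² - a s)`, `e^{-0.0929 * 64 * 0.65} ≤ e^{-3.86} ≤ 0.0211`, hence
`≤ 0.0211/7 * ∫ s² q ≤ 0.0211/7 * 5 B = 0.0151 B`. -/
theorem tail_le (S a : ℝ) (hS : 0.65 ≤ S) (ha : |a| ≤ 0.713) :
    ∫ s in {s : ℝ | 8 ≤ |s|}, (1 + |s|) * Real.exp (-(0.499 * S * s ^ 2) - a * s) ≤
      0.016 * (0.975 * Real.sqrt (2 * Real.pi / S) *
        Real.exp ((0.949 * a ^ 2 - 0.0722) / (2 * S))) := by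
  have hS0 : 0 < S := by linarith
  have hmeas : MeasurableSet {s : ℝ | 8 ≤ |s|} :=
    measurableSet_le measurable_const continuous_abs.measurable
  have hi : Integrable fun s : ℝ => s ^ 2 * Real.exp (-(0.4061 * S * s ^ 2) - a * s) := by
    have h1 := gl_integrable (2 * (0.4061 * S)) a (by positivity) 2
    have h2 : 2 * (0.4061 * S) / 2 = 0.4061 * S := by ring
    rwa [h2] at h1
  have hi' := hi.const_mul (0.0211 / 7)
  have hle : ∀ s : ℝ, 8 ≤ |s| → (1 + |s|) * Real.exp (-(0.499 * S * s ^ 2) - a * s)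
      ≤ 0.0211 / 7 * (s ^ 2 * Real.exp (-(0.4061 * S * s ^ 2) - a * s)) := by
    intro s hs
    have hs2 : 64 ≤ s ^ 2 := by
      rw [← sq_abs]
      nlinarith
    have h1 : 1 + |s| ≤ s ^ 2 / 7 := by
      rw [← sq_abs]
      nlinarith
    have h2 : Real.exp (-(0.499 * S * s ^ 2) - a * s)
        ≤ 0.0211 * Real.exp (-(0.4061 * S * s ^ 2) - a * s) := by
      have h3 : -(0.499 * S * s ^ 2) - a * s
          ≤ -3.86464 + (-(0.4061 * S * s ^ 2) - a * s) := by
        have h4 : 0.65 * 64 ≤ S * s ^ 2 := mul_le_mul hS hs2 (by norm_num) hS0.le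
        linarith
      refine (Real.exp_le_exp.2 h3).trans ?_
      rw [Real.exp_add]
      exact mul_le_mul_of_nonneg_right E3c_exp (Real.exp_pos _).le
    calc _ ≤ s ^ 2 / 7 * (0.0211 * Real.exp (-(0.4061 * S * s ^ 2) - a * s)) :=
          mul_le_mul h1 h2 (Real.exp_pos _).le (by positivity)
      _ = _ := by ring
  have h1 : ∫ s in {s : ℝ | 8 ≤ |s|}, (1 + |s|) * Real.exp (-(0.499 * S * s ^ 2) - a * s)
      ≤ ∫ s in {s : ℝ | 8 ≤ |s|},
        0.0211 / 7 * (s ^ 2 * Real.exp (-(0.4061 * S * s ^ 2) - a * s)) := by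
    refine integral_mono_of_nonneg (Filter.Eventually.of_forall fun s => by positivity)
      hi'.integrableOn ?_
    exact (ae_restrict_iff' hmeas).2 (Filter.Eventually.of_forall fun s hs => hle s hs)
  have h2 : ∫ s in {s : ℝ | 8 ≤ |s|},
        0.0211 / 7 * (s ^ 2 * Real.exp (-(0.4061 * S * s ^ 2) - a * s))
      ≤ ∫ s : ℝ, 0.0211 / 7 * (s ^ 2 * Real.exp (-(0.4061 * S * s ^ 2) - a * s)) :=
    setIntegral_le_integral hi' (Filter.Eventually.of_forall fun s => by positivity)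
  have h2' : ∫ s : ℝ, 0.0211 / 7 * (s ^ 2 * Real.exp (-(0.4061 * S * s ^ 2) - a * s))
      = 0.0211 / 7 * ∫ s : ℝ, s ^ 2 * Real.exp (-(0.4061 * S * s ^ 2) - a * s) :=
    integral_const_mul _ _
  rw [h2'] at h2
  have h3 := J2_le S a hS ha
  have hB : 0 ≤ 0.975 * Real.sqrt (2 * Real.pi / S) *
        Real.exp ((0.949 * a ^ 2 - 0.0722) / (2 * S)) := by positivity
  calc _ ≤ 0.0211 / 7 * ∫ s : ℝ, s ^ 2 * Real.exp (-(0.4061 * S * s ^ 2) - a * s) :=
        h1.trans h2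
    _ ≤ 0.0211 / 7 * (5 * (0.975 * Real.sqrt (2 * Real.pi / S) *
        Real.exp ((0.949 * a ^ 2 - 0.0722) / (2 * S)))) :=
        mul_le_mul_of_nonneg_left h3 (by norm_num)
    _ ≤ _ := by nlinarith

end Pool.Agent.LP
end

section

set_option autoImplicit false

/-! # G3a: the sum with weight `|A \\ B|` -/

namespace Pool.Agent.LP

open Finset

variable {ι : Type} [DecidableEq ι]

private theorem G3a_aux_notMem (a : ι → ℝ) (S : Finset ι) (k : ℕ) (c : ι) :
    ∑ B ∈ S.powersetCard k, (∏ x ∈ B, a x) * (if c ∉ B then (1 : ℝ) else 0) =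
      es a (S.erase c) k := by
  have h : (S.powersetCard k).filter (fun B => c ∉ B) = (S.erase c).powersetCard k := by
    ext B
    simp only [mem_filter, mem_powersetCard, subset_erase]
    tauto
  rw [es, ← h, sum_filter]
  refine sum_congr rfl fun B _ => ?_
  split_ifs <;> simp

private theorem G3a_aux_mem (a : ι → ℝ) {S : Finset ι} (m : ℕ) {c : ι} (hc : c ∈ S) :
    ∑ A ∈ S.powersetCard (m + 1), (∏ x ∈ A, a x) * (if c ∈ A then (1 : ℝ) else 0) =
      a c * es a (S.erase c) m := by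
  have h1 := G3a_aux_notMem a S (m + 1) c
  have h2 := es_erase a hc m
  have h3 : ∑ A ∈ S.powersetCard (m + 1), (∏ x ∈ A, a x) * (if c ∈ A then (1 : ℝ) else 0) +
      ∑ A ∈ S.powersetCard (m + 1), (∏ x ∈ A, a x) * (if c ∉ A then (1 : ℝ) else 0) =
      es a S (m + 1) := by
    rw [es, ← sum_add_distrib]
    refine sum_congr rfl fun A _ => ?_
    by_cases h : c ∈ A <;> simp [h]
  linarith

/-- PROOF. `|A \ B| = ∑_{c ∈ S} [c ∈ A][c ∉ B]`; the sets `A ∋ c` of size `m+1` are `insert c A'`, `A' ⊆ S \ {c}`, `|A'| = m`, and the sets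
`B ∌ c` are the subsets of `S \ {c}`. -/
theorem es_card (a : ι → ℝ) (S : Finset ι) (m : ℕ) :
    ∑ A ∈ S.powersetCard (m + 1), ∑ B ∈ S.powersetCard (m + 1),
        (∏ c ∈ A, a c) * (∏ c ∈ B, a c) * ((A \ B).card : ℝ) =
      ∑ c ∈ S, a c * es a (S.erase c) m * es a (S.erase c) (m + 1) := by
  have h1 : ∀ A ∈ S.powersetCard (m + 1), ∀ B ∈ S.powersetCard (m + 1),
      (∏ c ∈ A, a c) * (∏ c ∈ B, a c) * ((A \ B).card : ℝ) =
        ∑ c ∈ S, ((∏ x ∈ A, a x) * (if c ∈ A then (1 : ℝ) else 0)) *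
          ((∏ x ∈ B, a x) * (if c ∉ B then (1 : ℝ) else 0)) := by
    intro A hA B _
    have hAS : A ⊆ S := (mem_powersetCard.1 hA).1
    have h2 : ((A \ B).card : ℝ) =
        ∑ c ∈ S, (if c ∈ A then (1 : ℝ) else 0) * (if c ∉ B then (1 : ℝ) else 0) := by
      have h3 : A \ B = S.filter (fun c => c ∈ A ∧ c ∉ B) := by
        ext c
        simp only [mem_sdiff, mem_filter]
        constructor
        · intro h; exact ⟨hAS h.1, h⟩
        · intro h; exact h.2
      rw [h3, card_filter, Nat.cast_sum]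
      refine sum_congr rfl fun c _ => ?_
      by_cases h4 : c ∈ A <;> by_cases h5 : c ∈ B <;> simp [h4, h5]
    rw [h2, mul_sum]
    refine sum_congr rfl fun c _ => ?_
    ring
  have h2 : ∑ A ∈ S.powersetCard (m + 1), ∑ B ∈ S.powersetCard (m + 1),
        (∏ c ∈ A, a c) * (∏ c ∈ B, a c) * ((A \ B).card : ℝ) =
      ∑ A ∈ S.powersetCard (m + 1), ∑ B ∈ S.powersetCard (m + 1),
        ∑ c ∈ S, ((∏ x ∈ A, a x) * (if c ∈ A then (1 : ℝ) else 0)) *
          ((∏ x ∈ B, a x) * (if c ∉ B then (1 : ℝ) else 0)) :=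
    sum_congr rfl fun A hA => sum_congr rfl fun B hB => h1 A hA B hB
  rw [h2]
  have h3 : ∀ A ∈ S.powersetCard (m + 1), ∑ B ∈ S.powersetCard (m + 1),
        ∑ c ∈ S, ((∏ x ∈ A, a x) * (if c ∈ A then (1 : ℝ) else 0)) *
          ((∏ x ∈ B, a x) * (if c ∉ B then (1 : ℝ) else 0)) =
      ∑ c ∈ S, ((∏ x ∈ A, a x) * (if c ∈ A then (1 : ℝ) else 0)) *
        es a (S.erase c) (m + 1) := by
    intro A _
    rw [sum_comm]
    refine sum_congr rfl fun c _ => ?_
    rw [← mul_sum, G3a_aux_notMem]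
  rw [sum_congr rfl h3, sum_comm]
  refine sum_congr rfl fun c hc => ?_
  rw [← sum_mul, G3a_aux_mem a m hc]

end Pool.Agent.LP
end

section

set_option autoImplicit false

/-! # G3b: Cauchy-Schwarz -/

namespace Pool.Agent.LP

open Finset

variable {ι : Type} [DecidableEq ι]

/-- PROOF. Cauchy-Schwarz (`Finset.sum_mul_sq_le_sq_mul_sq` or `Finset.inner_mul_le_norm_mul_norm`) for the weights `w = a^A a^B ≥ 0` on pairs:
`(∑ w)² ≤ (∑ w/(r+1)) (∑ w (r+1))`, `r = |A \ B|`; `∑ w = e_{m+1}²`, `es_id`, `es_card`. -/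
theorem es_cs {a : ι → ℝ} (ha : ∀ c, 0 ≤ a c) (S : Finset ι) (m : ℕ) :
    es a S (m + 1) ^ 4 ≤ (es a S (m + 1) ^ 2 - es a S m * es a S (m + 2)) *
      (es a S (m + 1) ^ 2 + ∑ c ∈ S, a c * es a (S.erase c) m * es a (S.erase c) (m + 1)) := by
  have hw : ∀ A B : Finset ι, 0 ≤ (∏ c ∈ A, a c) * (∏ c ∈ B, a c) := fun A B =>
    mul_nonneg (prod_nonneg fun c _ => ha c) (prod_nonneg fun c _ => ha c)
  set P := S.powersetCard (m + 1) with hP
  have hsq : es a S (m + 1) ^ 2 = ∑ q ∈ P ×ˢ P, (∏ c ∈ q.1, a c) * (∏ c ∈ q.2, a c) := by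
    rw [sum_product, sq]
    unfold es
    rw [sum_mul_sum]
  have hid : es a S (m + 1) ^ 2 - es a S m * es a S (m + 2) =
      ∑ q ∈ P ×ˢ P, (∏ c ∈ q.1, a c) * (∏ c ∈ q.2, a c) / (((q.1 \ q.2).card : ℝ) + 1) := by
    rw [es_id, sum_product]
  have hcard : es a S (m + 1) ^ 2 +
      ∑ c ∈ S, a c * es a (S.erase c) m * es a (S.erase c) (m + 1) =
      ∑ q ∈ P ×ˢ P, (∏ c ∈ q.1, a c) * (∏ c ∈ q.2, a c) * (((q.1 \ q.2).card : ℝ) + 1) := by
    rw [← es_card, hsq, ← hP]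
    rw [← sum_product (s := P) (t := P)
      (f := fun q : Finset ι × Finset ι => (∏ c ∈ q.1, a c) * (∏ c ∈ q.2, a c) *
        ((q.1 \ q.2).card : ℝ)), ← sum_add_distrib]
    refine sum_congr rfl fun q _ => ?_
    ring
  rw [hid, hcard]
  have h4 : es a S (m + 1) ^ 4 = (∑ q ∈ P ×ˢ P, (∏ c ∈ q.1, a c) * (∏ c ∈ q.2, a c)) ^ 2 := by
    rw [← hsq]; ring
  rw [h4]
  refine sum_sq_le_sum_mul_sum_of_sq_le_mul _ (fun q _ => ?_) (fun q _ => ?_)
    (fun q _ => le_of_eq ?_)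
  · exact div_nonneg (hw _ _) (by positivity)
  · exact mul_nonneg (hw _ _) (by positivity)
  · have : (((q.1 \ q.2).card : ℝ) + 1) ≠ 0 := by positivity
    field_simp

end Pool.Agent.LP
end
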