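import Pool.Agent.Lib.MP_f91407_an.Mg.G002
import Pool.Agent.Lib.MP_f91407_an.Mg.G018
import Pool.Agent.Lib.MP_f91407_an.Mg.G014

section

set_option autoImplicit false

/-! # A2a: derivatives of one factor in the strip `|Im z| < π` -/

namespace Pool.Agent.LP

open Complex

theorem hasDerivAt_be (b : ℝ) (z : ℂ) : HasDerivAt (be b) ((b : ℂ) * exp z) z := by
  have h1 : HasDerivAt (fun z => (b : ℂ) * exp z) ((b : ℂ) * exp z) z :=
    (Complex.hasDerivAt_exp z).const_mul (b : ℂ)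
  exact h1.const_add (1 - (b : ℂ))

/-- PROOF. `P' = b e^z/be - (b e^z)^2/be^2 = b e^z (be - b e^z)/be^2 = b (1-b) e^z/be^2`. -/
theorem hasDerivAt_Pc {b : ℝ} (h0 : 0 < b) (h1 : b < 1) {z : ℂ} (hz : |z.im| < Real.pi) :
    HasDerivAt (Pc b) (yc b z) z := by
  have hne := be_ne_zero h0 h1 hz
  have h2 : HasDerivAt (fun z => (b : ℂ) * exp z) ((b : ℂ) * exp z) z :=
    (Complex.hasDerivAt_exp z).const_mul (b : ℂ)
  have h3 : HasDerivAt (Pc b) (((b : ℂ) * exp z * be b z - (b : ℂ) * exp z * ((b : ℂ) * exp z)) /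
      be b z ^ 2) z := h2.div (hasDerivAt_be b z) hne
  refine h3.congr_deriv ?_
  have e1 : (1 : ℂ) - b = be b z - b * exp z := by
    rw [be]
    ring
  rw [yc, e1]
  field_simp

theorem hasDerivAt_log_be {b : ℝ} (h0 : 0 < b) (h1 : b < 1) {z : ℂ} (hz : |z.im| < Real.pi) :
    HasDerivAt (fun w => log (be b w)) (Pc b z) z := by
  exact (hasDerivAt_be b z).clog (be_mem_slitPlane h0 h1 hz)

/-- PROOF. `yc' = yc - 2 yc P`. -/
theorem hasDerivAt_yc {b : ℝ} (h0 : 0 < b) (h1 : b < 1) {z : ℂ} (hz : |z.im| < Real.pi) :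
    HasDerivAt (yc b) (yc b z * (1 - 2 * Pc b z)) z := by
  have h2 : HasDerivAt (fun w => Pc b w * (1 - Pc b w))
      (yc b z * (1 - Pc b z) + Pc b z * (0 - yc b z)) z :=
    (hasDerivAt_Pc h0 h1 hz).mul ((hasDerivAt_const z (1 : ℂ)).sub (hasDerivAt_Pc h0 h1 hz))
  have h3 : yc b =ᶠ[nhds z] fun w => Pc b w * (1 - Pc b w) := by
    have h4 : {w : ℂ | |w.im| < Real.pi} ∈ nhds z := by
      exact (isOpen_lt (continuous_abs.comp Complex.continuous_im) continuous_const).mem_nhds hz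
    filter_upwards [h4] with w hw
    exact yc_eq h0 h1 hw
  have h5 := h2.congr_of_eventuallyEq h3
  refine h5.congr_deriv ?_
  ring

/-- PROOF. `(yc (1-2P))' = yc (1-2P)^2 - 2 yc^2 = yc (1 - 4P(1-P) - 2 yc)` and `P(1-P) = yc`
(`yc_eq`). -/
theorem hasDerivAt_yc1 {b : ℝ} (h0 : 0 < b) (h1 : b < 1) {z : ℂ} (hz : |z.im| < Real.pi) :
    HasDerivAt (fun w => yc b w * (1 - 2 * Pc b w)) (yc b z * (1 - 6 * yc b z)) z := by
  have h2 : HasDerivAt (fun w => yc b w * (1 - 2 * Pc b w))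
      (yc b z * (1 - 2 * Pc b z) * (1 - 2 * Pc b z) + yc b z * (0 - 2 * yc b z)) z :=
    (hasDerivAt_yc h0 h1 hz).mul ((hasDerivAt_const z (1 : ℂ)).sub
      ((hasDerivAt_Pc h0 h1 hz).const_mul 2))
  refine h2.congr_deriv ?_
  have h3 := yc_eq h0 h1 hz
  linear_combination 4 * yc b z * h3

end Pool.Agent.LP
end

section

set_option autoImplicit false

/-! # A2b: derivatives of the sums in the strip `|Im z| < π` -/

namespace Pool.Agent.LP

open Complex

variable {n : ℕ} {b : Fin n → ℝ}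

theorem hasDerivAt_Lam (hb : Ok b) {z : ℂ} (hz : |z.im| < Real.pi) :
    HasDerivAt (Lam b) (mu b z) z := by
  exact HasDerivAt.fun_sum (fun c _ => hasDerivAt_log_be (hb c).1 (hb c).2 hz)

theorem hasDerivAt_mu (hb : Ok b) {z : ℂ} (hz : |z.im| < Real.pi) :
    HasDerivAt (mu b) (vv b z) z := by
  exact HasDerivAt.fun_sum (fun c _ => hasDerivAt_Pc (hb c).1 (hb c).2 hz)

theorem hasDerivAt_vv (hb : Ok b) {z : ℂ} (hz : |z.im| < Real.pi) :
    HasDerivAt (vv b) (vv1 b z) z := by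
  exact HasDerivAt.fun_sum (fun c _ => hasDerivAt_yc (hb c).1 (hb c).2 hz)

theorem hasDerivAt_vv1 (hb : Ok b) {z : ℂ} (hz : |z.im| < Real.pi) :
    HasDerivAt (vv1 b) (vv2 b z) z := by
  exact HasDerivAt.fun_sum (fun c _ => hasDerivAt_yc1 (hb c).1 (hb c).2 hz)

end Pool.Agent.LP
end

section

set_option autoImplicit false

/-! collects the parts -/
end

section

set_option autoImplicit false

/-! collects the parts -/
end

section

set_option autoImplicit false

/-! collects the parts -/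
end

section

set_option autoImplicit false

/-! # G4a: ratios -/

namespace Pool.Agent.LP

open Finset

variable {ι : Type} [DecidableEq ι]

/-- PROOF. With `E'` for the family without `c`: `E_m = E'_m + a_c E'_{m-1}` (`m ≥ 1`), `E_{m+1} = E'_{m+1} + a_c E'_m`:
`E_m E'_{m+1} - E_{m+1} E'_m = a_c (E'_{m-1} E'_{m+1} - E'_m²) ≤ 0`; for `m = 0` it is `-a_c`. -/
theorem ratio_low {a : ι → ℝ} (ha : ∀ c, 0 ≤ a c) {S : Finset ι} {c : ι} (hc : c ∈ S) (m : ℕ) :
    es a S m * es a (S.erase c) (m + 1) ≤ es a S (m + 1) * es a (S.erase c) m := by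
  cases m with
  | zero =>
    rw [es_erase a hc 0, es_zero, es_zero]
    linarith [ha c]
  | succ k =>
    rw [es_erase a hc k, es_erase a hc (k + 1)]
    have h1 := mul_le_mul_of_nonneg_left (es_newton ha (S.erase c) k) (ha c)
    have e1 : (es a (S.erase c) (k + 1) + a c * es a (S.erase c) k) * es a (S.erase c) (k + 1 + 1)
        = es a (S.erase c) (k + 1) * es a (S.erase c) (k + 2)
          + a c * (es a (S.erase c) k * es a (S.erase c) (k + 2)) := by ring
    have e2 : (es a (S.erase c) (k + 1 + 1) + a c * es a (S.erase c) (k + 1))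
          * es a (S.erase c) (k + 1)
        = es a (S.erase c) (k + 1) * es a (S.erase c) (k + 2)
          + a c * es a (S.erase c) (k + 1) ^ 2 := by ring
    rw [e1, e2]
    linarith

/-- PROOF. `E'_m E_{m+2} - E'_{m+1} E_{m+1} = E'_m E'_{m+2} - E'_{m+1}² ≤ 0`. -/
theorem ratio_high {a : ι → ℝ} (ha : ∀ c, 0 ≤ a c) {S : Finset ι} {c : ι} (hc : c ∈ S) (m : ℕ) :
    es a (S.erase c) m * es a S (m + 2) ≤ es a (S.erase c) (m + 1) * es a S (m + 1) := by
  have h0 := es_erase a hc (m + 1)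
  rw [show m + 1 + 1 = m + 2 from rfl] at h0
  rw [h0, es_erase a hc m]
  have h1 := es_newton ha (S.erase c) m
  nlinarith [h1]

/-- PROOF. If `σ ≥ 1`: `(1 + aσ)² ≥ (1 + a)²`. If `σ ≤ 1`: `1 + aσ ≥ σ(1 + a)`. So `aσ/(1+aσ)² ≤ max(σ, 1/σ) a/(1+a)²`. -/
theorem frac_le {a σ δ : ℝ} (ha : 0 < a) (h1 : Real.exp (-δ) ≤ σ) (h2 : σ ≤ Real.exp δ) :
    a * σ / (1 + a * σ) ^ 2 ≤ Real.exp δ * (a / (1 + a) ^ 2) := by
  have hσ : 0 < σ := (Real.exp_pos _).trans_le h1
  have haσ : 0 < a * σ := mul_pos ha hσ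
  rw [← mul_div_assoc, div_le_div_iff₀ (by positivity) (by positivity)]
  rcases le_total 1 σ with h | h
  · have h3 : a * σ ≤ Real.exp δ * a := by
      rw [mul_comm a σ]
      exact mul_le_mul_of_nonneg_right h2 ha.le
    have h4 : (1 + a) ^ 2 ≤ (1 + a * σ) ^ 2 := by
      refine pow_le_pow_left₀ (by linarith) ?_ 2
      nlinarith
    exact mul_le_mul h3 h4 (by positivity) (by positivity)
  · have h3 : 1 ≤ Real.exp δ * σ := by
      have := mul_le_mul_of_nonneg_left h1 (Real.exp_pos δ).le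
      rwa [← Real.exp_add, add_neg_cancel, Real.exp_zero] at this
    have h4 : (σ * (1 + a)) ^ 2 ≤ (1 + a * σ) ^ 2 := by
      refine pow_le_pow_left₀ (by positivity) ?_ 2
      nlinarith
    calc a * σ * (1 + a) ^ 2 ≤ a * σ * (1 + a) ^ 2 * (Real.exp δ * σ) :=
          le_mul_of_one_le_right (by positivity) h3
      _ = Real.exp δ * a * (σ * (1 + a)) ^ 2 := by ring
      _ ≤ Real.exp δ * a * (1 + a * σ) ^ 2 := mul_le_mul_of_nonneg_left h4 (by positivity)

end Pool.Agent.LP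
end
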