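import Pool.Agent.Lib.MP_f91407_an.Mg.G003

section

set_option autoImplicit false

/-! # A3: sums (A3a) -/

namespace Pool.Agent.LP

open Complex

variable {n : ℕ} {b : Fin n → ℝ}

theorem W_zero (b : Fin n → ℝ) : W b 0 = Vz b := by
  unfold W Vz
  exact Finset.sum_congr rfl fun c _ => xr_zero (b c)

theorem W_nonneg (hb : Ok b) (x : ℝ) : 0 ≤ W b x := by
  unfold W
  exact Finset.sum_nonneg fun c _ => (xr_pos (hb c).1 (hb c).2 x).le

theorem W_le_exp (hb : Ok b) (x x' : ℝ) : W b x' ≤ Real.exp |x' - x| * W b x := by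
  unfold W
  rw [Finset.mul_sum]
  exact Finset.sum_le_sum fun c _ => xr_le_exp (hb c).1 (hb c).2 x x'

private theorem A3a_norm_yc_le {β : ℝ} (h0 : 0 < β) (h1 : β < 1) {z : ℂ}
    (hz : |z.im| < Real.pi) : ‖yc β z‖ ≤ xr β z.re / Real.cos (z.im / 2) ^ 2 := by
  rw [norm_yc h0 h1 hz]
  have h2 := abs_lt.1 hz
  have hc : 0 < Real.cos (z.im / 2) :=
    Real.cos_pos_of_mem_Ioo ⟨by linarith [h2.1], by linarith [h2.2]⟩
  exact div_le_div_of_nonneg_left (xr_pos h0 h1 _).le (pow_pos hc 2) (den_ge h0 h1 _ _)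

private theorem A3a_sum_le {z : ℂ} (f : Fin n → ℂ)
    (hf : ∀ c, ‖f c‖ ≤ xr (b c) z.re / Real.cos (z.im / 2) ^ 2) :
    ‖∑ c, f c‖ ≤ W b z.re / Real.cos (z.im / 2) ^ 2 := by
  unfold W
  rw [Finset.sum_div]
  exact (norm_sum_le _ _).trans (Finset.sum_le_sum fun c _ => hf c)

/-- PROOF. `norm_yc`, `den_ge`, triangle inequality. -/
theorem norm_vv_le (hb : Ok b) {z : ℂ} (hz : |z.im| < Real.pi) :
    ‖vv b z‖ ≤ W b z.re / Real.cos (z.im / 2) ^ 2 := by
  unfold vv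
  exact A3a_sum_le _ fun c => A3a_norm_yc_le (hb c).1 (hb c).2 hz

private theorem A3a_mul_le {u v : ℂ} {r : ℝ} (hu : ‖u‖ ≤ r) (hv : ‖v‖ ≤ 1) : ‖u * v‖ ≤ r := by
  rw [norm_mul]
  calc ‖u‖ * ‖v‖ ≤ ‖u‖ * 1 := mul_le_mul_of_nonneg_left hv (norm_nonneg _)
    _ ≤ r := by rw [mul_one]; exact hu

theorem norm_vv1_le (hb : Ok b) {z : ℂ} (hz : |z.im| ≤ Real.pi / 2) :
    ‖vv1 b z‖ ≤ W b z.re / Real.cos (z.im / 2) ^ 2 := by
  have hz' : |z.im| < Real.pi := by linarith [Real.pi_pos]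
  unfold vv1
  exact A3a_sum_le _ fun c => A3a_mul_le (A3a_norm_yc_le (hb c).1 (hb c).2 hz')
    (norm_one_sub_two_Pc (hb c).1 (hb c).2 hz)

theorem norm_vv2_le (hb : Ok b) {z : ℂ} (hz : |z.im| ≤ 1) :
    ‖vv2 b z‖ ≤ W b z.re / Real.cos (z.im / 2) ^ 2 := by
  have hz' : |z.im| < Real.pi := by linarith [Real.pi_gt_three]
  unfold vv2
  exact A3a_sum_le _ fun c => A3a_mul_le (A3a_norm_yc_le (hb c).1 (hb c).2 hz')
    (norm_one_sub_six_yc (hb c).1 (hb c).2 hz)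

theorem re_vv_ge (hb : Ok b) {z : ℂ} (hz : |z.im| ≤ Real.pi / 2) :
    W b z.re * Real.cos z.im ≤ (vv b z).re := by
  unfold W vv
  rw [Complex.re_sum, Finset.sum_mul]
  exact Finset.sum_le_sum fun c _ => re_yc_ge (hb c).1 (hb c).2 hz

end Pool.Agent.LP
end

section

set_option autoImplicit false

/-! # A3: sums (A3b) -/

namespace Pool.Agent.LP

open Complex

variable {n : ℕ} {b : Fin n → ℝ}

private theorem A3b_cos {T y : ℝ} (_hT : 0 ≤ T) (h : |y| ≤ T) (hT1 : T ≤ 1) :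
    Real.cos (T / 2) ≤ Real.cos (y / 2) := by
  have h1 : Real.cos (y / 2) = Real.cos (|y| / 2) := by
    rcases abs_cases y with ⟨h2, _⟩ | ⟨h2, _⟩
    · rw [h2]
    · rw [h2, neg_div, Real.cos_neg]
  rw [h1]
  apply Real.cos_le_cos_of_nonneg_of_le_pi
  · have := abs_nonneg y
    linarith
  · have := Real.pi_gt_three
    linarith
  · linarith

private theorem A3b_div {w K c : ℝ} (hw : 0 ≤ w) (hK : 0 < K) (h : 1 ≤ K * c) :
    w / c ≤ K * w := by
  have hc : 0 < c := by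
    by_contra hc
    rw [not_lt] at hc
    nlinarith
  rw [div_le_iff₀ hc]
  nlinarith

/-- numeric forms. PROOF. `cos(1/2)^2 ≥ 0.77 ≥ 1/1.3`, `cos(0.025)^2 ≥ 1 - 0.025^2 ≥ 1/1.001`,
`cos 0.05 ≥ 1 - 0.05^2/2 ≥ 0.998`, `cos(0.15)^2 ≥ 0.977 ≥ 1/1.024`, `cos 0.3 ≥ 0.955`.
(`Real.one_sub_sq_div_two_le_cos`, `Real.cos_lower_bound`-type lemmas; `cos` is decreasing on `[0, π]`;
for `cos(1/2) ≥ 0.8775` use `Real.cos_bound` or `Real.one_sub_sq_div_two_le_cos` at `1/4` and the double angle formula.) -/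
theorem norm_vv_le1 (hb : Ok b) {z : ℂ} (hz : |z.im| ≤ 1) :
    ‖vv b z‖ ≤ 1.3 * W b z.re ∧ ‖vv1 b z‖ ≤ 1.3 * W b z.re ∧ ‖vv2 b z‖ ≤ 1.3 * W b z.re := by
  have h1 : |z.im| < Real.pi := by
    have := Real.pi_gt_three
    linarith
  have h2 : |z.im| ≤ Real.pi / 2 := by
    have := Real.pi_gt_three
    linarith
  have hW := W_nonneg hb z.re
  have hc := A3b_cos (y := z.im) (by norm_num : (0 : ℝ) ≤ 1) hz (by norm_num)
  have hc2 := A3b_div hW (by norm_num : (0 : ℝ) < 1.3) (c := Real.cos (z.im / 2) ^ 2) (by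
    have h3 : Real.cos (1 / 2) ≤ Real.cos (z.im / 2) := hc
    have h4 : (0.9688 : ℝ) ≤ Real.cos (1 / 4) := by
      have h5 := Real.one_sub_sq_div_two_le_cos (x := 1 / 8)
      have h6 := Real.cos_sq (1 / 8)
      have h7 : (2 : ℝ) * (1 / 8) = 1 / 4 := by norm_num
      rw [h7] at h6
      nlinarith
    have h4 : (0.8771 : ℝ) ≤ Real.cos (1 / 2) := by
      have h6 := Real.cos_sq (1 / 4)
      have h7 : (2 : ℝ) * (1 / 4) = 1 / 2 := by norm_num
      rw [h7] at h6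
      nlinarith
    nlinarith)
  exact ⟨(norm_vv_le hb h1).trans hc2, (norm_vv1_le hb h2).trans hc2, (norm_vv2_le hb hz).trans hc2⟩

theorem norm_vv_le3 (hb : Ok b) {z : ℂ} (hz : |z.im| ≤ 0.3) :
    ‖vv b z‖ ≤ 1.024 * W b z.re ∧ 0.955 * W b z.re ≤ (vv b z).re := by
  have h1 : |z.im| < Real.pi := by
    have := Real.pi_gt_three
    linarith
  have h2 : |z.im| ≤ Real.pi / 2 := by
    have := Real.pi_gt_three
    linarith
  have hW := W_nonneg hb z.re
  have hc := A3b_cos (y := z.im) (by norm_num : (0 : ℝ) ≤ 0.3) hz (by norm_num)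
  have hc2 := A3b_div hW (by norm_num : (0 : ℝ) < 1.024) (c := Real.cos (z.im / 2) ^ 2) (by
    have h3 : Real.cos (0.3 / 2) ≤ Real.cos (z.im / 2) := hc
    have h5 := Real.one_sub_sq_div_two_le_cos (x := 0.3 / 2)
    nlinarith)
  refine ⟨(norm_vv_le hb h1).trans hc2, le_trans ?_ (re_vv_ge hb h2)⟩
  have h5 := Real.one_sub_sq_div_two_le_cos (x := z.im)
  have h6 : z.im ^ 2 ≤ 0.3 ^ 2 := by
    rw [← sq_abs]
    exact pow_le_pow_left₀ (abs_nonneg _) hz 2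
  rw [mul_comm]
  exact mul_le_mul_of_nonneg_left (by linarith) hW

theorem norm_vv_le5 (hb : Ok b) {z : ℂ} (hz : |z.im| ≤ 0.05) :
    ‖vv b z‖ ≤ 1.001 * W b z.re ∧ ‖vv1 b z‖ ≤ 1.001 * W b z.re ∧ ‖vv2 b z‖ ≤ 1.001 * W b z.re ∧
      0.998 * W b z.re ≤ (vv b z).re := by
  have h1 : |z.im| < Real.pi := by
    have := Real.pi_gt_three
    linarith
  have h2 : |z.im| ≤ Real.pi / 2 := by
    have := Real.pi_gt_three
    linarith
  have hW := W_nonneg hb z.re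
  have hc := A3b_cos (y := z.im) (by norm_num : (0 : ℝ) ≤ 0.05) hz (by norm_num)
  have hc2 := A3b_div hW (by norm_num : (0 : ℝ) < 1.001) (c := Real.cos (z.im / 2) ^ 2) (by
    have h3 : Real.cos (0.05 / 2) ≤ Real.cos (z.im / 2) := hc
    have h5 := Real.one_sub_sq_div_two_le_cos (x := 0.05 / 2)
    nlinarith)
  refine ⟨(norm_vv_le hb h1).trans hc2, (norm_vv1_le hb h2).trans hc2,
    (norm_vv2_le hb (by linarith)).trans hc2, le_trans ?_ (re_vv_ge hb h2)⟩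
  have h5 := Real.one_sub_sq_div_two_le_cos (x := z.im)
  have h6 : z.im ^ 2 ≤ 0.05 ^ 2 := by
    rw [← sq_abs]
    exact pow_le_pow_left₀ (abs_nonneg _) hz 2
  rw [mul_comm]
  exact mul_le_mul_of_nonneg_left (by linarith) hW

end Pool.Agent.LP
end

section

set_option autoImplicit false

/-! # A3: sums (A3c) -/

namespace Pool.Agent.LP

open Complex

variable {n : ℕ} {b : Fin n → ℝ}

/-- PROOF. Termwise from `im_Pc`, `0 < den ≤ 1`, `sin ≥ 0`. -/
theorem im_mu_ge (hb : Ok b) {z : ℂ} (h0 : 0 ≤ z.im) (hz : z.im < Real.pi) :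
    W b z.re * Real.sin z.im ≤ (mu b z).im := by
  have hz' : |z.im| < Real.pi := by rw [abs_of_nonneg h0]; exact hz
  have hs : 0 ≤ Real.sin z.im := Real.sin_nonneg_of_nonneg_of_le_pi h0 hz.le
  unfold W mu
  rw [im_sum, Finset.sum_mul]
  refine Finset.sum_le_sum fun c _ => ?_
  have hc := hb c
  rw [im_Pc hc.1 hc.2 hz']
  have h1 := den_le hc.1 hc.2 z.re z.im
  have h2 : 0 < 1 - 2 * xr (b c) z.re * (1 - Real.cos z.im) := by
    refine lt_of_lt_of_le ?_ (den_ge hc.1 hc.2 z.re z.im)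
    have h3 : 0 < Real.cos (z.im / 2) :=
      Real.cos_pos_of_mem_Ioo ⟨by linarith [Real.pi_pos], by linarith⟩
    positivity
  rw [le_div_iff₀ h2]
  have h4 : 0 ≤ xr (b c) z.re * Real.sin z.im := mul_nonneg (xr_pos hc.1 hc.2 _).le hs
  exact mul_le_of_le_one_right h4 h1

private theorem A3c_Pc_ofReal (b x : ℝ) :
    Pc b (x : ℂ) = ((b * Real.exp x / (1 - b + b * Real.exp x) : ℝ) : ℂ) := by
  unfold Pc be
  push_cast
  rfl

private theorem A3c_yc_ofReal (b x : ℝ) : yc b (x : ℂ) = ((xr b x : ℝ) : ℂ) := by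
  unfold yc be xr
  push_cast
  rfl

theorem mu_ofReal_im (b : Fin n → ℝ) (x : ℝ) : (mu b x).im = 0 := by
  unfold mu
  rw [im_sum]
  refine Finset.sum_eq_zero fun c _ => ?_
  rw [A3c_Pc_ofReal, ofReal_im]

theorem vv_ofReal (hb : Ok b) (x : ℝ) : vv b (x : ℂ) = (W b x : ℂ) := by
  unfold vv W
  rw [ofReal_sum]
  exact Finset.sum_congr rfl fun c _ => A3c_yc_ofReal _ _

theorem vv1_ofReal_im (b : Fin n → ℝ) (x : ℝ) : (vv1 b x).im = 0 := by
  unfold vv1
  rw [im_sum]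
  refine Finset.sum_eq_zero fun c _ => ?_
  rw [A3c_yc_ofReal, A3c_Pc_ofReal]
  have h1 : ((xr (b c) x : ℝ) : ℂ) * (1 - 2 *
      ((b c * Real.exp x / (1 - b c + b c * Real.exp x) : ℝ) : ℂ)) =
      ((xr (b c) x * (1 - 2 * (b c * Real.exp x / (1 - b c + b c * Real.exp x))) : ℝ) : ℂ) := by
    push_cast
    rfl
  rw [h1, ofReal_im]

theorem Lam_ofReal_im (hb : Ok b) (x : ℝ) : (Lam b x).im = 0 := by
  unfold Lam
  rw [im_sum]
  refine Finset.sum_eq_zero fun c _ => ?_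
  have h1 : be (b c) (x : ℂ) = ((1 - b c + b c * Real.exp x : ℝ) : ℂ) := by
    unfold be
    push_cast
    rfl
  have h2 : 0 < 1 - b c + b c * Real.exp x := by
    have := mul_pos (hb c).1 (Real.exp_pos x)
    linarith [(hb c).2]
  rw [h1, log_im, arg_ofReal_of_nonneg h2.le]

theorem mu_zero (b : Fin n → ℝ) : mu b 0 = (Mz b : ℂ) := by
  unfold mu Mz Pc be
  rw [ofReal_sum]
  refine Finset.sum_congr rfl fun c _ => ?_
  simp

theorem Lam_zero (b : Fin n → ℝ) : Lam b 0 = 0 := by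
  unfold Lam be
  refine Finset.sum_eq_zero fun c _ => ?_
  simp

theorem mu_conj (b : Fin n → ℝ) (z : ℂ) :
    mu b ((starRingEnd ℂ) z) = (starRingEnd ℂ) (mu b z) := by
  unfold mu Pc be
  rw [map_sum]
  refine Finset.sum_congr rfl fun c _ => ?_
  simp [← exp_conj]

theorem vv_conj (b : Fin n → ℝ) (z : ℂ) :
    vv b ((starRingEnd ℂ) z) = (starRingEnd ℂ) (vv b z) := by
  unfold vv yc be
  rw [map_sum]
  refine Finset.sum_congr rfl fun c _ => ?_
  simp [← exp_conj]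

/-- PROOF. `Complex.log_conj` (the argument is in the slit plane). -/
theorem Lam_conj (hb : Ok b) {z : ℂ} (hz : |z.im| < Real.pi) :
    Lam b ((starRingEnd ℂ) z) = (starRingEnd ℂ) (Lam b z) := by
  unfold Lam
  rw [map_sum]
  refine Finset.sum_congr rfl fun c _ => ?_
  have h1 := be_mem_slitPlane (hb c).1 (hb c).2 hz
  have h2 : be (b c) ((starRingEnd ℂ) z) = (starRingEnd ℂ) (be (b c) z) := by
    unfold be
    simp [← exp_conj]
  rw [h2]
  exact log_conj _ (slitPlane_arg_ne_pi h1)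

end Pool.Agent.LP
end

section

set_option autoImplicit false

/-! collects the parts -/
end
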