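import Mathlib
import Pool.Agent.Lib.MP_f91407_an.Mg.G001

section

set_option autoImplicit false

/-! # B2a: the function `H_τ(t) = cos τ (1 - cos t) - sin τ (t - sin t)`, `|t| ≤ 1` -/

namespace Pool.Agent.LP

/-- `H_τ(t) = cos τ - cos (τ + t) - t sin τ`. -/
noncomputable def Hh (τ t : ℝ) : ℝ := Real.cos τ * (1 - Real.cos t) - Real.sin τ * (t - Real.sin t)

private theorem B2a_sin {t : ℝ} (ht : 0 ≤ t) : t - t ^ 3 / 6 ≤ Real.sin t := by
  have hmono : MonotoneOn (fun t : ℝ => Real.sin t - (t - t ^ 3 / 6)) (Set.Ici 0) := by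
    apply monotoneOn_of_deriv_nonneg (convex_Ici 0)
    · fun_prop
    · intro x _
      exact (Real.differentiable_sin.sub (by fun_prop)).differentiableAt.differentiableWithinAt
    · intro x _
      have h : HasDerivAt (fun t : ℝ => Real.sin t - (t - t ^ 3 / 6))
          (Real.cos x - (1 - 3 * x ^ 2 / 6)) x := by
        have h1 : HasDerivAt (fun t : ℝ => t ^ 3) (3 * x ^ 2) x := by
          simpa using hasDerivAt_pow 3 x
        exact (Real.hasDerivAt_sin x).sub ((hasDerivAt_id x).sub (h1.div_const 6))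
      rw [h.deriv]
      have := Real.one_sub_sq_div_two_le_cos (x := x)
      linarith
  have h := hmono (Set.mem_Ici.2 le_rfl) (Set.mem_Ici.2 ht) ht
  simp only [Real.sin_zero] at h
  linarith

private theorem B2a_cos {t : ℝ} (ht : 0 ≤ t) : Real.cos t ≤ 1 - t ^ 2 / 2 + t ^ 4 / 24 := by
  have hmono : MonotoneOn (fun t : ℝ => 1 - t ^ 2 / 2 + t ^ 4 / 24 - Real.cos t) (Set.Ici 0) := by
    apply monotoneOn_of_deriv_nonneg (convex_Ici 0)
    · fun_prop
    · intro x _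
      have h1 : Differentiable ℝ fun t : ℝ => 1 - t ^ 2 / 2 + t ^ 4 / 24 := by fun_prop
      exact (h1.sub Real.differentiable_cos).differentiableAt.differentiableWithinAt
    · intro x hx
      rw [interior_Ici] at hx
      have h : HasDerivAt (fun t : ℝ => 1 - t ^ 2 / 2 + t ^ 4 / 24 - Real.cos t)
          (0 - 2 * x / 2 + 4 * x ^ 3 / 24 - (-Real.sin x)) x := by
        have h1 : HasDerivAt (fun t : ℝ => t ^ 2) (2 * x) x := by
          simpa using hasDerivAt_pow 2 x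
        have h2 : HasDerivAt (fun t : ℝ => t ^ 4) (4 * x ^ 3) x := by
          simpa using hasDerivAt_pow 4 x
        exact (((hasDerivAt_const x (1 : ℝ)).sub (h1.div_const 2)).add (h2.div_const 24)).sub
          (Real.hasDerivAt_cos x)
      rw [h.deriv]
      have := B2a_sin (t := x) (le_of_lt hx)
      linarith
  have h := hmono (Set.mem_Ici.2 le_rfl) (Set.mem_Ici.2 ht) ht
  simp only [Real.cos_zero] at h
  linarith

private theorem B2a_key {τ t : ℝ} (hτ : |τ| ≤ 0.3) (ht : |t| ≤ 1) :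
    0.955 * (|t| ^ 2 / 2 - |t| ^ 4 / 24) - 0.3 * (|t| ^ 3 / 6) ≤ Hh τ t := by
  have h0 : 0 ≤ |t| := abs_nonneg t
  obtain ⟨s, hs⟩ : ∃ s, s = |t| := ⟨_, rfl⟩
  rw [← hs] at ht h0 ⊢
  have hc : Real.cos t = Real.cos s := by rw [hs, Real.cos_abs]
  have hcos : 0.955 ≤ Real.cos τ := by
    have h1 := Real.one_sub_sq_div_two_le_cos (x := τ)
    have h2 : τ ^ 2 ≤ 0.3 ^ 2 := by
      rw [← sq_abs]
      exact pow_le_pow_left₀ (abs_nonneg _) hτ 2
    norm_num at h2 ⊢
    linarith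
  have hsin : |Real.sin τ| ≤ 0.3 := (Real.abs_sin_le_abs (x := τ)).trans hτ
  have h1 : s ^ 2 / 2 - s ^ 4 / 24 ≤ 1 - Real.cos t := by
    rw [hc]
    have := B2a_cos h0
    linarith
  have h2 : |t - Real.sin t| ≤ s ^ 3 / 6 := by
    have h3 : |t - Real.sin t| = s - Real.sin s := by
      rcases le_total 0 t with h | h
      · have : s = t := by rw [hs, abs_of_nonneg h]
        rw [this, abs_of_nonneg]
        have := Real.sin_le h
        linarith
      · have : t = -s := by rw [hs, abs_of_nonpos h]; ring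
        rw [this, Real.sin_neg, ← abs_neg]
        have h4 : -(-s - -Real.sin s) = s - Real.sin s := by ring
        rw [h4, abs_of_nonneg]
        have := Real.sin_le h0
        linarith
    rw [h3]
    have := B2a_sin h0
    linarith
  have h4 : 0 ≤ s ^ 2 / 2 - s ^ 4 / 24 := by
    have : s ^ 4 ≤ s ^ 2 := pow_le_pow_of_le_one h0 ht (by norm_num)
    have h5 : 0 ≤ s ^ 2 := by positivity
    linarith
  have h5 : 0.955 * (s ^ 2 / 2 - s ^ 4 / 24) ≤ Real.cos τ * (1 - Real.cos t) :=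
    mul_le_mul hcos h1 h4 (by linarith)
  have h6 : Real.sin τ * (t - Real.sin t) ≤ 0.3 * (s ^ 3 / 6) := by
    refine (le_abs_self _).trans ?_
    rw [abs_mul]
    exact mul_le_mul hsin h2 (abs_nonneg _) (by norm_num)
  unfold Hh
  linarith

/-- PROOF. `1 - cos t ≥ t²/2 - t⁴/24 ≥ t² (1/2 - 0.49/24)`, `|t - sin t| ≤ |t|³/6 ≤ 0.7 t²/6`,
`cos τ ≥ 0.955`, `|sin τ| ≤ 0.3`: `H ≥ t² (0.955 * 0.4795 - 0.3 * 0.7/6) ≥ 0.4229 t²`. -/
theorem Hh_ge1 {τ t : ℝ} (hτ : |τ| ≤ 0.3) (ht : |t| ≤ 0.7) : 0.42 * t ^ 2 ≤ Hh τ t := by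
  have h := B2a_key hτ (t := t) (ht.trans (by norm_num))
  refine le_trans ?_ h
  rw [← sq_abs]
  have h0 : 0 ≤ |t| := abs_nonneg t
  obtain ⟨s, hs⟩ : ∃ s, s = |t| := ⟨_, rfl⟩
  rw [← hs] at ht h0 ⊢
  have h1 : s ^ 2 * s ≤ s ^ 2 * 0.7 := mul_le_mul_of_nonneg_left ht (by positivity)
  have h2 : s ^ 2 * s ^ 2 ≤ s ^ 2 * 0.7 ^ 2 :=
    mul_le_mul_of_nonneg_left (pow_le_pow_left₀ h0 ht 2) (by positivity)
  have h3 : 0 ≤ s ^ 2 := by positivity
  norm_num at h1 h2 ⊢
  nlinarith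

/-- PROOF. As above with `|t| ≤ 1`: `H ≥ t² (0.955 (1/2 - t²/24) - 0.3 |t|/6)`, which at `|t| = 0.7` is
`≥ 0.207` and is increasing in `|t|` on `[0.7, 1]`. -/
theorem Hh_ge2 {τ t : ℝ} (hτ : |τ| ≤ 0.3) (ht : 0.7 ≤ |t|) (ht1 : |t| ≤ 1) : 0.2 ≤ Hh τ t := by
  have h := B2a_key hτ ht1
  refine le_trans ?_ h
  obtain ⟨s, hs⟩ : ∃ s, s = |t| := ⟨_, rfl⟩
  rw [← hs] at ht ht1 ⊢
  have h0 : 0 ≤ s := le_trans (by norm_num) ht
  have key : 0.955 * (s ^ 2 / 2 - s ^ 4 / 24) - 0.3 * (s ^ 3 / 6) =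
      s ^ 2 * (0.955 * (1 / 2 - s ^ 2 / 24) - 0.3 * (s / 6)) := by ring
  rw [key]
  rcases le_total s 0.8 with h8 | h8
  · have h1 : (0.7 : ℝ) ^ 2 ≤ s ^ 2 := pow_le_pow_left₀ (by norm_num) ht 2
    have h2 : s ^ 2 ≤ 0.8 ^ 2 := pow_le_pow_left₀ h0 h8 2
    have h3 : 0.412 ≤ 0.955 * (1 / 2 - s ^ 2 / 24) - 0.3 * (s / 6) := by
      norm_num at h2 h8 ⊢
      linarith
    calc (0.2 : ℝ) ≤ 0.7 ^ 2 * 0.412 := by norm_num
      _ ≤ _ := mul_le_mul h1 h3 (by norm_num) (by positivity)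
  · have h1 : (0.8 : ℝ) ^ 2 ≤ s ^ 2 := pow_le_pow_left₀ (by norm_num) h8 2
    have h2 : s ^ 2 ≤ 1 := by
      have := pow_le_pow_left₀ h0 ht1 2
      rwa [one_pow] at this
    have h3 : 0.38 ≤ 0.955 * (1 / 2 - s ^ 2 / 24) - 0.3 * (s / 6) := by
      norm_num
      linarith
    calc (0.2 : ℝ) ≤ 0.8 ^ 2 * 0.38 := by norm_num
      _ ≤ _ := mul_le_mul h1 h3 (by norm_num) (by positivity)

end Pool.Agent.LP
end

section

set_option autoImplicit false

/-! # B2b: the function `H`, `1 ≤ |t| ≤ π` -/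

namespace Pool.Agent.LP

/-- PROOF. With `s = |t|`: `H ≥ 0.955 (1 - cos s) - 0.2956 (s - sin s) =: q(s)` (both brackets are `≥ 0` for `s ≥ 0`;
`cos τ ≥ 0.955`, `|sin τ| ≤ sin 0.3 ≤ 0.2956`). `q'(s) = 0.955 sin s - 0.2956 (1 - cos s)
= 2 sin(s/2) (0.955 cos(s/2) - 0.2956 sin(s/2))` changes sign exactly once on `(0, π)`, from `+` to `-` (at `s ≈ 2.54`),
so `q ≥ min (q 1) (q π)` on `[1, π]`; `q 1 ≥ 0.39`, `q π ≥ 0.98`. -/
theorem Hh_ge3 {τ t : ℝ} (hτ : |τ| ≤ 0.3) (ht : 1 ≤ |t|) (ht1 : |t| ≤ Real.pi) : 0.35 ≤ Hh τ t := by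
  have hτ' := abs_le.mp hτ
  have hc : 0.955 ≤ Real.cos τ := by
    have h1 := Real.one_sub_sq_div_two_le_cos (x := τ)
    nlinarith [hτ'.1, hτ'.2]
  have hs : |Real.sin τ| ≤ 0.3 := (Real.abs_sin_le_abs).trans hτ
  have hsin : |t - Real.sin t| = |t| - Real.sin |t| := by
    rcases le_total 0 t with h | h
    · rw [abs_of_nonneg h, abs_of_nonneg (sub_nonneg.mpr (Real.sin_le h))]
    · have h2 : Real.sin (-t) ≤ -t := Real.sin_le (by linarith)
      rw [Real.sin_neg] at h2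
      rw [abs_of_nonpos h, Real.sin_neg, abs_of_nonpos (by linarith)]
      ring
  have hge : 0.955 * (1 - Real.cos |t|) - 0.3 * (|t| - Real.sin |t|) ≤ Hh τ t := by
    unfold Hh
    have h1 : 0.955 * (1 - Real.cos |t|) ≤ Real.cos τ * (1 - Real.cos t) := by
      rw [Real.cos_abs]
      exact mul_le_mul_of_nonneg_right hc (by linarith [Real.cos_le_one t])
    have h2 : Real.sin τ * (t - Real.sin t) ≤ 0.3 * (|t| - Real.sin |t|) := by
      rw [← hsin]
      calc Real.sin τ * (t - Real.sin t) ≤ |Real.sin τ * (t - Real.sin t)| := le_abs_self _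
        _ = |Real.sin τ| * |t - Real.sin t| := abs_mul _ _
        _ ≤ 0.3 * |t - Real.sin t| := mul_le_mul_of_nonneg_right hs (abs_nonneg _)
    linarith
  refine le_trans ?_ hge
  generalize |t| = s at ht ht1
  have hpi := Real.pi_gt_three
  have hpi2 := Real.pi_lt_d2
  rcases le_total s (Real.pi / 2) with h | h
  · have hmono : MonotoneOn (fun s : ℝ => 0.955 * (1 - Real.cos s) - 0.3 * (s - Real.sin s))
        (Set.Icc 1 (Real.pi / 2)) := by
      apply monotoneOn_of_deriv_nonneg (convex_Icc _ _)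
      · fun_prop
      · fun_prop
      · intro x hx
        rw [interior_Icc] at hx
        have hd : HasDerivAt (fun s : ℝ => 0.955 * (1 - Real.cos s) - 0.3 * (s - Real.sin s))
            (0.955 * (0 - -Real.sin x) - 0.3 * (1 - Real.cos x)) x :=
          (((hasDerivAt_const x (1 : ℝ)).sub (Real.hasDerivAt_cos x)).const_mul 0.955).sub
            (((hasDerivAt_id x).sub (Real.hasDerivAt_sin x)).const_mul 0.3)
        rw [hd.deriv]
        have h0 : 0 ≤ Real.sin x := Real.sin_nonneg_of_nonneg_of_le_pi (by linarith [hx.1])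
          (by linarith [hx.2])
        have h1 : 0 ≤ Real.cos x := Real.cos_nonneg_of_neg_pi_div_two_le_of_le
          (by linarith [hx.1]) (by linarith [hx.2])
        have h2 := Real.sin_sq_add_cos_sq x
        have h3 : 1 ≤ Real.sin x + Real.cos x := by nlinarith
        linarith
    have h1 := hmono ⟨le_refl _, by linarith⟩ ⟨ht, h⟩ ht
    have hcos := Real.cos_bound (x := 1) (by norm_num)
    have hsn := Real.sin_bound (x := 1) (by norm_num)
    rw [abs_le] at hcos hsn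
    norm_num at hcos hsn
    simp only at h1
    refine le_trans ?_ h1
    norm_num
    linarith [hcos.2, hsn.1]
  · have h1 := Real.one_sub_mul_le_cos (x := Real.pi - s) (by linarith) (by linarith)
    rw [Real.cos_pi_sub] at h1
    have h2 : 0 ≤ Real.sin s := Real.sin_nonneg_of_nonneg_of_le_pi (by linarith) ht1
    have h3 : 2 / Real.pi * Real.pi = 2 := by field_simp
    have h4 : 0.63 ≤ 2 / Real.pi := by
      rw [le_div_iff₀ (by linarith)]
      linarith
    have h5 : 2 / Real.pi * s ≥ 0.63 * s := mul_le_mul_of_nonneg_right h4 (by linarith)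
    nlinarith

end Pool.Agent.LP
end

section

set_option autoImplicit false

/-! # B2: `H ≥ 0` -/

namespace Pool.Agent.LP

theorem Hh_nonneg {τ t : ℝ} (hτ : |τ| ≤ 0.3) (ht : |t| ≤ Real.pi) : 0 ≤ Hh τ t := by
  rcases le_or_gt |t| 0.7 with h | h
  · exact le_trans (by positivity) (Hh_ge1 hτ h)
  · rcases le_or_gt |t| 1 with h1 | h1
    · exact le_trans (by norm_num) (Hh_ge2 hτ h.le h1)
    · exact le_trans (by norm_num) (Hh_ge3 hτ h1.le ht)

end Pool.Agent.LP
end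

section

set_option autoImplicit false

/-! # B3a: Taylor step -/

namespace Pool.Agent.LP

open Complex

private theorem B3a_pos (a M : ℝ) (k : ℕ) (φ ψ : ℝ → ℂ) (h0 : φ 0 = 0)
    (hd : ∀ t, 0 ≤ t → t ≤ a → HasDerivAt φ (ψ t) t)
    (hψ : ∀ t, 0 ≤ t → t ≤ a → ‖ψ t‖ ≤ M * t ^ k) :
    ∀ t, 0 ≤ t → t ≤ a → ‖φ t‖ ≤ M * t ^ (k + 1) / (k + 1) := by
  intro t ht hta
  have hk : (0 : ℝ) < (k : ℝ) + 1 := by positivity
  have hB : ∀ x : ℝ, HasDerivAt (fun x : ℝ => M * x ^ (k + 1) / (k + 1)) (M * x ^ k) x := by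
    intro x
    have h1 : HasDerivAt (fun x : ℝ => x ^ (k + 1)) (((k + 1 : ℕ) : ℝ) * x ^ k) x := by
      simpa using hasDerivAt_pow (k + 1) x
    have h2 := (h1.const_mul M).div_const ((k : ℝ) + 1)
    have e : M * (((k + 1 : ℕ) : ℝ) * x ^ k) / ((k : ℝ) + 1) = M * x ^ k := by
      push_cast
      field_simp
    rw [e] at h2
    exact h2
  exact image_norm_le_of_norm_deriv_right_le_deriv_boundary (f := φ) (f' := ψ) (a := 0) (b := a)
    (B := fun x : ℝ => M * x ^ (k + 1) / (k + 1)) (B' := fun x => M * x ^ k)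
    (fun x hx => (hd x hx.1 hx.2).continuousAt.continuousWithinAt)
    (fun x hx => (hd x hx.1 hx.2.le).hasDerivWithinAt) (by rw [h0]; simp) hB
    (fun x hx => hψ x hx.1 hx.2.le) ⟨ht, hta⟩

/-- Taylor step: `φ' = ψ` on `[-a, a]`, `φ 0 = 0`, `‖ψ t‖ ≤ M |t|^k` implies `‖φ t‖ ≤ M |t|^{k+1}/(k+1)`.
PROOF. `image_norm_le_of_norm_deriv_right_le_deriv_boundary` on `[0, t]` (and for negative `t` apply it to `φ(-t)`),
or `φ t = ∫_0^t ψ` if `ψ` is integrable; no continuity of `ψ` is assumed, so the first lemma is the right one. -/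
theorem taylor_step (a M : ℝ) (k : ℕ) (φ ψ : ℝ → ℂ) (h0 : φ 0 = 0)
    (hd : ∀ t, |t| ≤ a → HasDerivAt φ (ψ t) t) (hψ : ∀ t, |t| ≤ a → ‖ψ t‖ ≤ M * |t| ^ k) :
    ∀ t, |t| ≤ a → ‖φ t‖ ≤ M * |t| ^ (k + 1) / (k + 1) := by
  intro t hta
  rcases le_total 0 t with ht | ht
  · rw [abs_of_nonneg ht] at hta ⊢
    refine B3a_pos a M k φ ψ h0 (fun s hs hsa => hd s ?_) (fun s hs hsa => ?_) t ht hta
    · rw [abs_of_nonneg hs]
      exact hsa
    · have := hψ s (by rw [abs_of_nonneg hs]; exact hsa)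
      rwa [abs_of_nonneg hs] at this
  · rw [abs_of_nonpos ht] at hta ⊢
    have h := B3a_pos a M k (fun s => φ (-s)) (fun s => -ψ (-s)) (by simp [h0])
      (fun s hs hsa => ?_) (fun s hs hsa => ?_) (-t) (by linarith) hta
    · simpa using h
    · have h1 := hd (-s) (by rw [abs_neg, abs_of_nonneg hs]; exact hsa)
      have h2 : HasDerivAt (fun s : ℝ => -s) (-1) s := hasDerivAt_neg s
      have h3 : HasDerivAt (fun s : ℝ => φ (-s)) ((-1 : ℝ) • ψ (-s)) s := h1.scomp s h2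
      rw [neg_one_smul] at h3
      exact h3
    · have h1 := hψ (-s) (by rw [abs_neg, abs_of_nonneg hs]; exact hsa)
      rw [abs_neg, abs_of_nonneg hs] at h1
      simpa using h1

end Pool.Agent.LP
end

section

set_option autoImplicit false

/-! # B4a: elementary inequalities for `exp` -/

namespace Pool.Agent.LP

open Complex

theorem B4a_aux1 (x : ℂ) (s : ℝ) (h0 : 0 ≤ s) (h1 : s ≤ 1) :
    ‖exp ((s : ℂ) * x)‖ ≤ max 1 (Real.exp x.re) := by
  rw [Complex.norm_exp]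
  have : ((s : ℂ) * x).re = s * x.re := by simp
  rw [this]
  rcases le_total x.re 0 with h | h
  · refine le_trans ?_ (le_max_left _ _)
    rw [Real.exp_le_one_iff]
    exact mul_nonpos_of_nonneg_of_nonpos h0 h
  · refine le_trans ?_ (le_max_right _ _)
    rw [Real.exp_le_exp]
    nlinarith

theorem B4a_aux2 (x : ℂ) (s : ℝ) : HasDerivAt (fun s : ℝ => exp ((s : ℂ) * x) - 1) (x * exp ((s : ℂ) * x)) s := by
  have h1 : HasDerivAt (fun s : ℝ => (s : ℂ) * x) x s := by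
    have := (Complex.ofRealCLM.hasDerivAt (x := s)).mul_const x
    simpa using this
  have h2 := (h1.cexp).sub_const 1
  rwa [mul_comm] at h2

theorem B4a_aux3 (x : ℂ) (s : ℝ) (h0 : 0 ≤ s) (h1 : s ≤ 1) :
    ‖exp ((s : ℂ) * x) - 1‖ ≤ ‖x‖ * max 1 (Real.exp x.re) * s := by
  have key := image_norm_le_of_norm_deriv_right_le_deriv_boundary
    (f := fun s : ℝ => exp ((s : ℂ) * x) - 1) (f' := fun s : ℝ => x * exp ((s : ℂ) * x)) (a := 0) (b := 1)
    (fun t _ => (B4a_aux2 x t).continuousAt.continuousWithinAt)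
    (fun t _ => (B4a_aux2 x t).hasDerivWithinAt)
    (B := fun s => ‖x‖ * max 1 (Real.exp x.re) * s) (B' := fun _ => ‖x‖ * max 1 (Real.exp x.re))
    (by simp)
    (fun t => by simpa using (hasDerivAt_id t).const_mul (‖x‖ * max 1 (Real.exp x.re)))
    (fun t ht => by
      rw [norm_mul]
      exact mul_le_mul_of_nonneg_left (B4a_aux1 x t ht.1 ht.2.le) (norm_nonneg _))
  exact key ⟨h0, h1⟩

/-- PROOF. `e^x - 1 - x = x² ∫_0^1 (1 - s) e^{s x} ds` and `|e^{s x}| ≤ max 1 e^{Re x}`. (Or: the function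
`g(s) = e^{s x} - 1 - s x` of the real variable `s ∈ [0,1]` has `g(0) = g'(0) = 0`, `‖g''(s)‖ ≤ ‖x‖² max 1 e^{Re x}`.) -/
theorem norm_exp_sub_le (x : ℂ) :
    ‖exp x - 1 - x‖ ≤ ‖x‖ ^ 2 / 2 * max 1 (Real.exp x.re) := by
  have hd : ∀ s : ℝ, HasDerivAt (fun s : ℝ => exp ((s : ℂ) * x) - 1 - (s : ℂ) * x)
      (x * (exp ((s : ℂ) * x) - 1)) s := by
    intro s
    have h1 : HasDerivAt (fun s : ℝ => (s : ℂ) * x) x s := by
      have := (Complex.ofRealCLM.hasDerivAt (x := s)).mul_const x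
      simpa using this
    have h2 := (B4a_aux2 x s).sub h1
    have e : x * exp ((s : ℂ) * x) - x = x * (exp ((s : ℂ) * x) - 1) := by ring
    rw [e] at h2
    exact h2
  have key := image_norm_le_of_norm_deriv_right_le_deriv_boundary
    (f := fun s : ℝ => exp ((s : ℂ) * x) - 1 - (s : ℂ) * x)
    (f' := fun s : ℝ => x * (exp ((s : ℂ) * x) - 1)) (a := 0) (b := 1)
    (fun t _ => (hd t).continuousAt.continuousWithinAt)
    (fun t _ => (hd t).hasDerivWithinAt)
    (B := fun s => ‖x‖ ^ 2 / 2 * max 1 (Real.exp x.re) * s ^ 2)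
    (B' := fun s => ‖x‖ ^ 2 * max 1 (Real.exp x.re) * s)
    (by simp)
    (fun t => by
      have := (hasDerivAt_pow 2 t).const_mul (‖x‖ ^ 2 / 2 * max 1 (Real.exp x.re))
      refine this.congr_deriv ?_
      norm_num
      ring)
    (fun t ht => by
      rw [norm_mul]
      calc ‖x‖ * ‖exp ((t : ℂ) * x) - 1‖ ≤ ‖x‖ * (‖x‖ * max 1 (Real.exp x.re) * t) :=
            mul_le_mul_of_nonneg_left (B4a_aux3 x t ht.1 ht.2.le) (norm_nonneg _)
        _ = ‖x‖ ^ 2 * max 1 (Real.exp x.re) * t := by ring)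
  have := key (x := 1) ⟨zero_le_one, le_refl _⟩
  simpa using this

/-- `‖e^x - 1‖ ≤ ‖x‖ e^{‖x‖}`. -/
theorem norm_exp_sub_one_le' (x : ℂ) : ‖exp x - 1‖ ≤ ‖x‖ * Real.exp ‖x‖ := by
  have h := B4a_aux3 x 1 zero_le_one (le_refl _)
  simp only [ofReal_one, one_mul, mul_one] at h
  refine h.trans ?_
  refine mul_le_mul_of_nonneg_left ?_ (norm_nonneg _)
  refine max_le ?_ ?_
  · exact Real.one_le_exp (norm_nonneg _)
  · exact Real.exp_le_exp.mpr (Complex.re_le_norm x)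

end Pool.Agent.LP
end

section

set_option autoImplicit false

/-! collects the parts -/
end
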