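import Pool.Agent.Lib.MP_f91407_an.Mg.G004
import Pool.Agent.Lib.MP_f91407_an.Mg.G005

section

set_option autoImplicit false

/-! # B1a: one factor of `R_z(t)` -/

namespace Pool.Agent.LP

open Complex

/-- one factor. PROOF. Put `x = Re z`, `τ = Im z`, `X = xr b x`, `A = 1 - 2X(1 - cos τ) ∈ (0, 1]`,
`A' = 1 - 2X(1 - cos(τ+t)) = A - 2X(cos τ - cos(τ+t))`. By `norm_be_sq` (same real part)
`‖be(z+it)/be z‖ = √(A'/A) ≤ exp(-X(cos τ - cos(τ+t))/A)` (from `1 - w ≤ e^{-w}` with `w = 2X(cos τ - cos(τ+t))/A`, `A'/A ≥ 0`),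
and `Im P * t = X sin τ t/A` (`im_Pc`). The product is `≤ exp(-X H/A)`, where
`H = cos τ - cos(τ+t) - t sin τ = Hh τ t ≥ 0`, and `A ≤ 1`. (`norm_be_sq` holds for every `z`; `A > 0` by `den_ge`.) -/
theorem factor_le {b : ℝ} (h0 : 0 < b) (h1 : b < 1) {z : ℂ} (hz : |z.im| ≤ 0.3) {t : ℝ}
    (ht : |t| ≤ Real.pi) :
    ‖be b (z + t * I) / be b z‖ * Real.exp ((Pc b z).im * t) ≤
      Real.exp (-(xr b z.re * Hh z.im t)) := by
  have hpi : (3 : ℝ) < Real.pi := Real.pi_gt_three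
  have hzpi : |z.im| < Real.pi := by linarith
  have hX := xr_pos h0 h1 z.re
  have hH := Hh_nonneg hz ht
  have hA1 := den_le h0 h1 z.re z.im
  have hA0 : 0 < 1 - 2 * xr b z.re * (1 - Real.cos z.im) := by
    refine lt_of_lt_of_le (pow_pos (Real.cos_pos_of_mem_Ioo ⟨?_, ?_⟩) 2) (den_ge h0 h1 z.re z.im)
    · have := (abs_lt.mp hzpi).1
      linarith
    · have := (abs_lt.mp hzpi).2
      linarith
  have hS : 0 < 1 - b + b * Real.exp z.re := by
    have := mul_pos h0 (Real.exp_pos z.re)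
    linarith
  have hn := norm_be_sq h0 h1 z
  have hn' := norm_be_sq h0 h1 (z + t * I)
  have hre : (z + t * I).re = z.re := by simp
  have him : (z + t * I).im = z.im + t := by simp
  rw [hre, him] at hn'
  rw [im_Pc h0 h1 hzpi]
  set X := xr b z.re with hXdef
  set A := 1 - 2 * X * (1 - Real.cos z.im) with hA
  set A' := 1 - 2 * X * (1 - Real.cos (z.im + t)) with hA'
  set S := 1 - b + b * Real.exp z.re with hSdef
  have hHe : Hh z.im t = Real.cos z.im - Real.cos (z.im + t) - t * Real.sin z.im := by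
    rw [Hh, Real.cos_add]
    ring
  have hb0 : ‖be b z‖ ≠ 0 := by
    intro h
    rw [h] at hn
    have := mul_pos (pow_pos hS 2) hA0
    norm_num at hn
    rcases hn with h | h
    · exact hS.ne' h
    · exact hA0.ne' h
  have hw : A' / A = 1 - 2 * (X * (Real.cos z.im - Real.cos (z.im + t)) / A) := by
    rw [hA']
    field_simp
    rw [hA]
    ring
  have hq : ‖be b (z + t * I) / be b z‖ ^ 2 = A' / A := by
    rw [norm_div, div_pow, hn, hn']
    field_simp
  have hle : ‖be b (z + t * I) / be b z‖ ≤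
      Real.exp (-(X * (Real.cos z.im - Real.cos (z.im + t)) / A)) := by
    refine le_of_sq_le_sq ?_ (Real.exp_pos _).le
    rw [hq, ← Real.exp_nat_mul, hw]
    have := Real.add_one_le_exp (((2 : ℕ) : ℝ) * -(X * (Real.cos z.im - Real.cos (z.im + t)) / A))
    push_cast at this ⊢
    linarith
  refine (mul_le_mul_of_nonneg_right hle (Real.exp_pos _).le).trans ?_
  rw [← Real.exp_add, Real.exp_le_exp]
  have h3 : -(X * (Real.cos z.im - Real.cos (z.im + t)) / A) + X * Real.sin z.im / A * t =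
      -(X * Hh z.im t / A) := by
    rw [hHe]
    field_simp
    ring
  rw [h3]
  have h4 : X * Hh z.im t ≤ X * Hh z.im t / A := by
    rw [le_div_iff₀ hA0]
    exact mul_le_of_le_one_right (mul_nonneg hX.le hH) hA1
  linarith

end Pool.Agent.LP
end

section

set_option autoImplicit false

/-! # B1b: the bound `|R_z(t)| ≤ exp(-W H)` -/

namespace Pool.Agent.LP

open Complex

variable {n : ℕ} {b : Fin n → ℝ}

/-- PROOF. `‖exp(-(μ t I))‖ = exp(Im μ * t) = ∏ exp(Im P_c * t)`; product of `factor_le` over `c`. -/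
theorem norm_Rr_le (hb : Ok b) {z : ℂ} (hz : |z.im| ≤ 0.3) {t : ℝ} (ht : |t| ≤ Real.pi) :
    ‖Rr b z t‖ ≤ Real.exp (-(W b z.re * Hh z.im t)) := by
  have h1 : (-(mu b z * t * I)).re = ∑ c, (Pc (b c) z).im * t := by
    rw [← Finset.sum_mul]
    have h2 : (mu b z).im = ∑ c, (Pc (b c) z).im := by
      unfold mu
      rw [im_sum]
    rw [← h2]
    simp
  have h3 : Real.exp (-(W b z.re * Hh z.im t)) = ∏ c, Real.exp (-(xr (b c) z.re * Hh z.im t)) := by
    rw [← Real.exp_sum]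
    congr 1
    unfold W
    rw [Finset.sum_neg_distrib, Finset.sum_mul]
  unfold Rr
  rw [norm_mul, norm_prod, norm_exp, h1, Real.exp_sum, ← Finset.prod_mul_distrib, h3]
  exact Finset.prod_le_prod (fun c _ => mul_nonneg (norm_nonneg _) (Real.exp_nonneg _))
    fun c _ => factor_le (hb c).1 (hb c).2 hz ht

/-- the three numeric forms -/
theorem norm_Rr_le1 (hb : Ok b) {z : ℂ} (hz : |z.im| ≤ 0.3) {t : ℝ} (ht : |t| ≤ 0.7) :
    ‖Rr b z t‖ ≤ Real.exp (-(0.42 * W b z.re * t ^ 2)) := by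
  refine (norm_Rr_le hb hz (ht.trans (by linarith [Real.pi_gt_three]))).trans ?_
  apply Real.exp_le_exp.mpr
  have h1 := mul_le_mul_of_nonneg_left (Hh_ge1 hz ht) (W_nonneg hb z.re)
  linarith

theorem norm_Rr_le2 (hb : Ok b) {z : ℂ} (hz : |z.im| ≤ 0.3) {t : ℝ} (ht : 0.7 ≤ |t|)
    (ht1 : |t| ≤ 1) : ‖Rr b z t‖ ≤ Real.exp (-(0.2 * W b z.re)) := by
  refine (norm_Rr_le hb hz (ht1.trans (by linarith [Real.pi_gt_three]))).trans ?_
  apply Real.exp_le_exp.mpr
  have h1 := mul_le_mul_of_nonneg_left (Hh_ge2 hz ht ht1) (W_nonneg hb z.re)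
  linarith

theorem norm_Rr_le3 (hb : Ok b) {z : ℂ} (hz : |z.im| ≤ 0.3) {t : ℝ} (ht : 1 ≤ |t|)
    (ht1 : |t| ≤ Real.pi) : ‖Rr b z t‖ ≤ Real.exp (-(0.35 * W b z.re)) := by
  refine (norm_Rr_le hb hz ht1).trans ?_
  apply Real.exp_le_exp.mpr
  have h1 := mul_le_mul_of_nonneg_left (Hh_ge3 hz ht ht1) (W_nonneg hb z.re)
  linarith

/-- PROOF. `be b c (z + tI)` and `exp` are continuous in `t`, `be z` is a constant. -/
theorem continuous_Rr (b : Fin n → ℝ) (z : ℂ) : Continuous (Rr b z) := by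
  unfold Rr be
  fun_prop

end Pool.Agent.LP
end

section

set_option autoImplicit false

/-! collects the parts -/
end

section

set_option autoImplicit false

/-! # B3b: Taylor expansion of `log R_z(t)` -/

namespace Pool.Agent.LP

open Complex

variable {n : ℕ}

/-- `D_z(t) = Λ(z + it) - Λ(z) - i t μ(z)` -/
noncomputable def Dd (b : Fin n → ℝ) (z : ℂ) (t : ℝ) : ℂ :=
  Lam b (z + t * I) - Lam b z - mu b z * t * I

variable {b : Fin n → ℝ}

private theorem B3b_exp_Lam (hb : Ok b) {z : ℂ} (hz : |z.im| < Real.pi) :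
    exp (Lam b z) = ∏ c, be (b c) z := by
  rw [Lam, exp_sum]
  exact Finset.prod_congr rfl fun c _ => exp_log (be_ne_zero (hb c).1 (hb c).2 hz)

/-- PROOF. `exp (log be) = be` (`be ≠ 0`), `exp` of a finite sum is the product. -/
theorem Rr_eq_exp (hb : Ok b) {z : ℂ} {t : ℝ} (hz : |z.im| + |t| < Real.pi) :
    Rr b z t = exp (Dd b z t) := by
  have hz0 : |z.im| < Real.pi := by
    have := abs_nonneg t
    linarith
  have hz1 : |(z + t * I).im| < Real.pi := by
    have him : (z + t * I).im = z.im + t := by simp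
    rw [him]
    exact (abs_add_le _ _).trans_lt hz
  rw [Rr, Dd, sub_eq_add_neg, exp_add, exp_sub, B3b_exp_Lam hb hz0, B3b_exp_Lam hb hz1,
    Finset.prod_div_distrib]

private theorem B3b_im {z : ℂ} (hz : |z.im| ≤ 0.3) {t : ℝ} (ht : |t| ≤ 0.7) :
    |(z + t * I).im| ≤ 1 := by
  have him : (z + t * I).im = z.im + t := by simp
  rw [him]
  have := abs_add_le z.im t
  linarith

private theorem B3b_re {z : ℂ} (t : ℝ) : (z + t * I).re = z.re := by simp

private theorem B3b_pi {z : ℂ} (hz : |z.im| ≤ 0.3) {t : ℝ} (ht : |t| ≤ 0.7) :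
    |(z + t * I).im| < Real.pi := by
  have h1 := B3b_im hz ht
  have h2 := Real.pi_gt_three
  linarith

/-- The derivative along the vertical line. -/
private theorem B3b_line (F : ℂ → ℂ) {F' : ℂ} {z : ℂ} {t : ℝ} (h : HasDerivAt F F' (z + t * I)) :
    HasDerivAt (fun s : ℝ => F (z + s * I)) (F' * I) t := by
  have h1 : HasDerivAt (fun s : ℝ => z + (s : ℂ) * I) (1 * I) t :=
    ((Complex.ofRealCLM.hasDerivAt (x := t)).mul_const I).const_add z
  rw [one_mul] at h1
  exact HasDerivAt.comp t h h1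

private theorem B3b_pow (c : ℂ) (k : ℕ) (t : ℝ) :
    HasDerivAt (fun s : ℝ => c * (s : ℂ) ^ (k + 1)) (c * (((k : ℂ) + 1) * (t : ℂ) ^ k)) t := by
  have h1 : HasDerivAt (fun w : ℂ => c * w ^ (k + 1)) (c * (((k : ℂ) + 1) * (t : ℂ) ^ k)) (t : ℂ) := by
    simpa using (hasDerivAt_pow (k + 1) (t : ℂ)).const_mul c
  exact h1.comp_ofReal

/-- PROOF. With `z_t = z + tI` (same real part, `|Im z_t| ≤ 1`): `D' = i(μ(z_t) - μ(z))`, `D'' = -v(z_t)`, so
`φ = D + v(z) t²/2` has `φ(0) = φ'(0) = 0`, `φ'' = -(v(z_t) - v(z))` and `(φ'')' = -i v'(z_t)`,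
`‖v'(z_t)‖ ≤ 1.3 W`. Three times `taylor_step` (`M = 1.3 W`, `k = 0, 1, 2`) with `a = 0.7`. -/
theorem Dd_bd3 (hb : Ok b) {z : ℂ} (hz : |z.im| ≤ 0.3) {t : ℝ} (ht : |t| ≤ 0.7) :
    ‖Dd b z t + vv b z * t ^ 2 / 2‖ ≤ 1.3 * W b z.re * |t| ^ 3 / 6 := by
  have h2 := taylor_step 0.7 (1.3 * W b z.re) 0
    (fun t : ℝ => -vv b (z + t * I) + vv b z) (fun t : ℝ => -(vv1 b (z + t * I) * I)) (by simp)
    (fun s hs => (B3b_line (vv b) (hasDerivAt_vv hb (B3b_pi hz hs))).fun_neg.add_const _)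
    (fun s hs => by
      rw [norm_neg, norm_mul, norm_I, mul_one, pow_zero, mul_one, ← B3b_re (z := z) s]
      exact (norm_vv_le1 hb (B3b_im hz hs)).2.1)
  have h1 := taylor_step 0.7 (1.3 * W b z.re) 1
    (fun t : ℝ => mu b (z + t * I) * I - mu b z * I + vv b z * t)
    (fun t : ℝ => -vv b (z + t * I) + vv b z) (by simp)
    (fun s hs => by
      have h3 := (((B3b_line (mu b) (hasDerivAt_mu hb (B3b_pi hz hs))).mul_const I).sub_const
        (mu b z * I)).fun_add (B3b_pow (vv b z) 0 s)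
      simp only [zero_add, pow_one] at h3
      refine h3.congr_deriv ?_
      rw [mul_assoc, I_mul_I]
      simp)
    (fun s hs => by simpa using h2 s hs)
  have h0 := taylor_step 0.7 (1.3 * W b z.re / 2) 2
    (fun t : ℝ => Dd b z t + vv b z * t ^ 2 / 2)
    (fun t : ℝ => mu b (z + t * I) * I - mu b z * I + vv b z * t) (by simp [Dd])
    (fun s hs => by
      have h3 := (((B3b_line (Lam b) (hasDerivAt_Lam hb (B3b_pi hz hs))).sub_const
        (Lam b z)).fun_sub (B3b_pow (mu b z * I) 0 s)).fun_add (B3b_pow (vv b z / 2) 1 s)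
      refine (h3.congr_deriv ?_).congr_of_eventuallyEq (Filter.Eventually.of_forall fun r => ?_)
      · simp
        ring
      · simp only [Dd]
        ring)
    (fun s hs => by
      have := h1 s hs
      norm_num at this ⊢
      linarith)
  have h := h0 t ht
  norm_num at h ⊢
  linarith

/-- PROOF. The same with `φ = D + v(z) t²/2 + i v'(z) t³/6`, `φ''' = -i (v'(z_t) - v'(z))`,
`(φ''')' = v''(z_t)`, `‖v''‖ ≤ 1.3 W`. -/
theorem Dd_bd4 (hb : Ok b) {z : ℂ} (hz : |z.im| ≤ 0.3) {t : ℝ} (ht : |t| ≤ 0.7) :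
    ‖Dd b z t + vv b z * t ^ 2 / 2 + I * vv1 b z * t ^ 3 / 6‖ ≤ 1.3 * W b z.re * t ^ 4 / 24 := by
  have h3 := taylor_step 0.7 (1.3 * W b z.re) 0
    (fun t : ℝ => -(vv1 b (z + t * I) * I) + vv1 b z * I) (fun t : ℝ => vv2 b (z + t * I)) (by simp)
    (fun s hs => by
      have h4 := (((B3b_line (vv1 b) (hasDerivAt_vv1 hb (B3b_pi hz hs))).mul_const I).fun_neg.add_const
        (vv1 b z * I))
      refine h4.congr_deriv ?_
      rw [mul_assoc, I_mul_I]
      ring)
    (fun s hs => by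
      rw [pow_zero, mul_one, ← B3b_re (z := z) s]
      exact (norm_vv_le1 hb (B3b_im hz hs)).2.2)
  have h2 := taylor_step 0.7 (1.3 * W b z.re) 1
    (fun t : ℝ => -vv b (z + t * I) + vv b z + vv1 b z * I * t)
    (fun t : ℝ => -(vv1 b (z + t * I) * I) + vv1 b z * I) (by simp)
    (fun s hs => by
      have h4 := ((B3b_line (vv b) (hasDerivAt_vv hb (B3b_pi hz hs))).fun_neg.add_const
        (vv b z)).fun_add (B3b_pow (vv1 b z * I) 0 s)
      simp only [zero_add, pow_one] at h4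
      refine h4.congr_deriv ?_
      simp)
    (fun s hs => by simpa using h3 s hs)
  have h1 := taylor_step 0.7 (1.3 * W b z.re / 2) 2
    (fun t : ℝ => mu b (z + t * I) * I - mu b z * I + vv b z * t + vv1 b z * I * t ^ 2 / 2)
    (fun t : ℝ => -vv b (z + t * I) + vv b z + vv1 b z * I * t) (by simp)
    (fun s hs => by
      have h4 := ((((B3b_line (mu b) (hasDerivAt_mu hb (B3b_pi hz hs))).mul_const I).sub_const
        (mu b z * I)).fun_add (B3b_pow (vv b z) 0 s)).fun_add (B3b_pow (vv1 b z * I / 2) 1 s)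
      refine (h4.congr_deriv ?_).congr_of_eventuallyEq (Filter.Eventually.of_forall fun r => ?_)
      · rw [mul_assoc, I_mul_I]
        simp
        ring
      · simp only [zero_add, pow_one]
        ring)
    (fun s hs => by
      have := h2 s hs
      norm_num at this ⊢
      linarith)
  have h0 := taylor_step 0.7 (1.3 * W b z.re / 6) 3
    (fun t : ℝ => Dd b z t + vv b z * t ^ 2 / 2 + I * vv1 b z * t ^ 3 / 6)
    (fun t : ℝ => mu b (z + t * I) * I - mu b z * I + vv b z * t + vv1 b z * I * t ^ 2 / 2)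
    (by simp [Dd])
    (fun s hs => by
      have h4 := ((((B3b_line (Lam b) (hasDerivAt_Lam hb (B3b_pi hz hs))).sub_const
        (Lam b z)).fun_sub (B3b_pow (mu b z * I) 0 s)).fun_add (B3b_pow (vv b z / 2) 1 s)).fun_add
        (B3b_pow (I * vv1 b z / 6) 2 s)
      refine (h4.congr_deriv ?_).congr_of_eventuallyEq (Filter.Eventually.of_forall fun r => ?_)
      · simp
        ring
      · simp only [Dd]
        ring)
    (fun s hs => by
      have := h1 s hs
      norm_num at this ⊢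
      linarith)
  have h := h0 t ht
  have h5 : |t| ^ 4 = t ^ 4 := by
    rw [show (4 : ℕ) = 2 * 2 by norm_num, pow_mul, sq_abs, ← pow_mul]
  norm_num at h ⊢
  rw [h5] at h
  linarith

end Pool.Agent.LP
end

section

set_option autoImplicit false

/-! collects the parts -/
end

section

set_option autoImplicit false

/-! # B5c: the tails -/

namespace Pool.Agent.LP

open Complex MeasureTheory

variable {n : ℕ} {b : Fin n → ℝ}

/-- PROOF. Split `[-π, π]` at `±0.7`, `±1`; lengths `2 * 0.3 = 0.6` and `2 (π - 1) ≤ 4.3`; `norm_Rr_le2`, `norm_Rr_le3`. -/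
theorem Rr_tail (hb : Ok b) {z : ℂ} (hz : |z.im| ≤ 0.3) :
    ‖(∫ t in (-Real.pi)..Real.pi, Rr b z t) - ∫ t in (-0.7 : ℝ)..0.7, Rr b z t‖ ≤
      0.6 * Real.exp (-(0.2 * W b z.re)) + 4.3 * Real.exp (-(0.35 * W b z.re)) := by
  have hpi : (3.1415 : ℝ) < Real.pi := by
    have := Real.pi_gt_d4
    linarith
  have hpi2 : Real.pi < 3.1416 := by
    have := Real.pi_lt_d4
    linarith
  have hi : ∀ a c : ℝ, IntervalIntegrable (Rr b z) volume a c :=
    fun a c => (continuous_Rr b z).intervalIntegrable a c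
  have e1 : (∫ t in (-Real.pi)..Real.pi, Rr b z t) =
      (∫ t in (-Real.pi)..(-1 : ℝ), Rr b z t) + ((∫ t in (-1 : ℝ)..(-0.7 : ℝ), Rr b z t) +
        ((∫ t in (-0.7 : ℝ)..(0.7 : ℝ), Rr b z t) + ((∫ t in (0.7 : ℝ)..(1 : ℝ), Rr b z t) +
          ∫ t in (1 : ℝ)..Real.pi, Rr b z t))) := by
    rw [intervalIntegral.integral_add_adjacent_intervals (hi _ _) (hi _ _),
      intervalIntegral.integral_add_adjacent_intervals (hi _ _) (hi _ _),
      intervalIntegral.integral_add_adjacent_intervals (hi _ _) (hi _ _),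
      intervalIntegral.integral_add_adjacent_intervals (hi _ _) (hi _ _)]
  have h1 : ‖∫ t in (-Real.pi)..(-1 : ℝ), Rr b z t‖ ≤
      Real.exp (-(0.35 * W b z.re)) * |-1 - -Real.pi| := by
    refine intervalIntegral.norm_integral_le_of_norm_le_const fun t ht => ?_
    rw [Set.uIoc_of_le (by linarith)] at ht
    refine norm_Rr_le3 hb hz ?_ ?_
    · rw [abs_of_nonpos (by linarith [ht.2])]
      linarith [ht.2]
    · rw [abs_of_nonpos (by linarith [ht.2])]
      linarith [ht.1]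
  have h2 : ‖∫ t in (-1 : ℝ)..(-0.7 : ℝ), Rr b z t‖ ≤
      Real.exp (-(0.2 * W b z.re)) * |-0.7 - -1| := by
    refine intervalIntegral.norm_integral_le_of_norm_le_const fun t ht => ?_
    rw [Set.uIoc_of_le (by norm_num)] at ht
    refine norm_Rr_le2 hb hz ?_ ?_
    · rw [abs_of_nonpos (by linarith [ht.2])]
      linarith [ht.2]
    · rw [abs_of_nonpos (by linarith [ht.2])]
      linarith [ht.1]
  have h3 : ‖∫ t in (0.7 : ℝ)..(1 : ℝ), Rr b z t‖ ≤
      Real.exp (-(0.2 * W b z.re)) * |1 - 0.7| := by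
    refine intervalIntegral.norm_integral_le_of_norm_le_const fun t ht => ?_
    rw [Set.uIoc_of_le (by norm_num)] at ht
    refine norm_Rr_le2 hb hz ?_ ?_
    · rw [abs_of_nonneg (by linarith [ht.1])]
      linarith [ht.1]
    · rw [abs_of_nonneg (by linarith [ht.1])]
      exact ht.2
  have h4 : ‖∫ t in (1 : ℝ)..Real.pi, Rr b z t‖ ≤
      Real.exp (-(0.35 * W b z.re)) * |Real.pi - 1| := by
    refine intervalIntegral.norm_integral_le_of_norm_le_const fun t ht => ?_
    rw [Set.uIoc_of_le (by linarith)] at ht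
    refine norm_Rr_le3 hb hz ?_ ?_
    · rw [abs_of_nonneg (by linarith [ht.1])]
      exact ht.1.le
    · rw [abs_of_nonneg (by linarith [ht.1])]
      exact ht.2
  have a1 : |(-1 : ℝ) - -Real.pi| = Real.pi - 1 := by
    rw [abs_of_nonneg (by linarith)]
    ring
  have a4 : |Real.pi - (1 : ℝ)| = Real.pi - 1 := abs_of_nonneg (by linarith)
  have a2 : |(-0.7 : ℝ) - -1| = 0.3 := by
    rw [abs_of_nonneg (by norm_num)]
    norm_num
  have a3 : |(1 : ℝ) - 0.7| = 0.3 := by
    rw [abs_of_nonneg (by norm_num)]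
    norm_num
  rw [a1] at h1
  rw [a2] at h2
  rw [a3] at h3
  rw [a4] at h4
  have e2 : (∫ t in (-Real.pi)..Real.pi, Rr b z t) - ∫ t in (-0.7 : ℝ)..0.7, Rr b z t =
      (∫ t in (-Real.pi)..(-1 : ℝ), Rr b z t) + ((∫ t in (-1 : ℝ)..(-0.7 : ℝ), Rr b z t) +
        ((∫ t in (0.7 : ℝ)..(1 : ℝ), Rr b z t) + ∫ t in (1 : ℝ)..Real.pi, Rr b z t)) := by
    rw [e1]
    ring
  rw [e2]
  have n1 := norm_add_le (∫ t in (-Real.pi)..(-1 : ℝ), Rr b z t)
    ((∫ t in (-1 : ℝ)..(-0.7 : ℝ), Rr b z t) +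
        ((∫ t in (0.7 : ℝ)..(1 : ℝ), Rr b z t) + ∫ t in (1 : ℝ)..Real.pi, Rr b z t))
  have n2 := norm_add_le (∫ t in (-1 : ℝ)..(-0.7 : ℝ), Rr b z t)
        ((∫ t in (0.7 : ℝ)..(1 : ℝ), Rr b z t) + ∫ t in (1 : ℝ)..Real.pi, Rr b z t)
  have n3 := norm_add_le (∫ t in (0.7 : ℝ)..(1 : ℝ), Rr b z t) (∫ t in (1 : ℝ)..Real.pi, Rr b z t)
  have p1 := Real.exp_pos (-(0.35 * W b z.re))
  have p2 := Real.exp_pos (-(0.2 * W b z.re))
  have p3 : Real.exp (-(0.35 * W b z.re)) * (Real.pi - 1) ≤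
      Real.exp (-(0.35 * W b z.re)) * 2.15 := mul_le_mul_of_nonneg_left (by linarith) p1.le
  linarith

end Pool.Agent.LP
end
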