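import Pool.Agent.Lib.MP_f91407_an.Mg.G003
import Pool.Agent.Lib.MP_f91407_an.Mg.G005

section

set_option autoImplicit false

/-! # E4a: hypotheses on the top side, pointwise bound -/

namespace Pool.Agent.LP

open Complex MeasureTheory

/-- hypotheses on the data of the top side -/
structure TopData (S : ℝ) (Ss lam m0 : ℂ) (s1 s2 : ℝ) (r e m : ℝ → ℂ) : Prop where
  hS : 0.65 ≤ S
  hSs : ‖Ss - (S : ℂ)‖ ≤ 0.05 * S
  hSr : 0.998 * S ≤ Ss.re
  hl1 : |lam.re| ≤ 0.713
  hl2 : |lam.im| ≤ 0.262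
  hm0 : ‖m0 - Real.pi * (S : ℂ) * I‖ ≤ 0.026 * (Real.pi * S)
  h1 : -9.8 ≤ s1 ∧ s1 ≤ -8
  h2 : 8 ≤ s2 ∧ s2 ≤ 9.8
  hr : ∀ s : ℝ, |s| ≤ 9.8 → ‖r s‖ ≤ 0.0061 * S * |s| ^ 3 + 0.0215 * s ^ 2
  he : ∀ s : ℝ, |s| ≤ 9.8 → ‖e s - 1‖ ≤ 0.0001
  hm : ∀ s : ℝ, |s| ≤ 9.8 → ‖m s‖ ≤ 0.0092 * S * s ^ 2
  cr : ContinuousOn r (Set.Icc (-9.8) 9.8)
  ce : ContinuousOn e (Set.Icc (-9.8) 9.8)
  cm : ContinuousOn m (Set.Icc (-9.8) 9.8)

/-- pointwise bound. PROOF. `|exp(-Ss s²/2 - λ s)| = exp(-Re Ss s²/2 - a s) ≤ exp(-0.499 S s² - a s)`; `‖r‖ ≤ (0.0061 * 9.8 + 0.0215/0.65) S s² ≤ 0.0929 S s²`;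
`‖e^r e - 1‖ ≤ ‖e^r - 1‖ ‖e‖ + ‖e - 1‖ ≤ 1.0001 ‖r‖ e^{‖r‖} + 0.0001` (`norm_exp_sub_one_le'`), and `e^{-0.499 S s²} e^{‖r‖} ≤ e^{-0.4061 S s²}`. -/
theorem top_pt {S : ℝ} {Ss lam m0 : ℂ} {s1 s2 : ℝ} {r e m : ℝ → ℂ}
    (h : TopData S Ss lam m0 s1 s2 r e m) {s : ℝ} (hs : |s| ≤ 9.8) :
    ‖exp (-(Ss * s ^ 2 / 2) - lam * s + r s) * e s - exp (-(Ss * s ^ 2 / 2) - lam * s)‖ ≤
      (1.0001 * (0.0061 * S * |s| ^ 3 + 0.0215 * s ^ 2) + 0.0001) *
        Real.exp (-(0.4061 * S * s ^ 2) - lam.re * s) := by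
  have hS := h.hS
  have hr := h.hr s hs
  have he := h.he s hs
  have hSr := h.hSr
  have hs2 : 0 ≤ s ^ 2 := sq_nonneg s
  have hS0 : 0 ≤ S := by linarith
  obtain ⟨R, hR⟩ : ∃ R, R = 0.0061 * S * |s| ^ 3 + 0.0215 * s ^ 2 := ⟨_, rfl⟩
  rw [← hR] at hr ⊢
  have hR0 : 0 ≤ R := (norm_nonneg _).trans hr
  have hRle : R ≤ 0.0929 * S * s ^ 2 := by
    have h3 : |s| ^ 3 = |s| * s ^ 2 := by
      rw [pow_succ, sq_abs]
      ring
    have h4 : |s| * s ^ 2 ≤ 9.8 * s ^ 2 := mul_le_mul_of_nonneg_right hs hs2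
    have h5 : S * (|s| * s ^ 2) ≤ S * (9.8 * s ^ 2) := mul_le_mul_of_nonneg_left h4 hS0
    have h6 : 0.65 * s ^ 2 ≤ S * s ^ 2 := mul_le_mul_of_nonneg_right hS hs2
    rw [hR, h3]
    nlinarith
  have hA : ‖exp (-(Ss * s ^ 2 / 2) - lam * s)‖ ≤
      Real.exp (-(0.499 * S * s ^ 2) - lam.re * s) := by
    rw [norm_exp, Real.exp_le_exp]
    have e1 : -(Ss * (s : ℂ) ^ 2 / 2) - lam * s = -(Ss * ((s ^ 2 / 2 : ℝ) : ℂ)) - lam * (s : ℂ) := by
      push_cast
      ring
    rw [e1, sub_re, neg_re, re_mul_ofReal, re_mul_ofReal]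
    nlinarith
  have hsplit : exp (-(Ss * s ^ 2 / 2) - lam * s + r s) * e s -
      exp (-(Ss * s ^ 2 / 2) - lam * s) =
      exp (-(Ss * s ^ 2 / 2) - lam * s) * ((exp (r s) - 1) * e s + (e s - 1)) := by
    rw [exp_add]
    ring
  rw [hsplit, norm_mul]
  have hen : ‖e s‖ ≤ 1.0001 := by
    calc ‖e s‖ = ‖(e s - 1) + 1‖ := by rw [sub_add_cancel]
      _ ≤ ‖e s - 1‖ + ‖(1 : ℂ)‖ := norm_add_le _ _
      _ ≤ 0.0001 + 1 := by rw [norm_one]; exact add_le_add he le_rfl
      _ = 1.0001 := by norm_num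
  have hin : ‖(exp (r s) - 1) * e s + (e s - 1)‖ ≤ R * Real.exp R * 1.0001 + 0.0001 := by
    refine (norm_add_le _ _).trans (add_le_add ?_ he)
    rw [norm_mul]
    refine mul_le_mul ?_ hen (norm_nonneg _) (by positivity)
    refine (norm_exp_sub_one_le' _).trans ?_
    exact mul_le_mul hr (Real.exp_le_exp.2 hr) (Real.exp_pos _).le hR0
  refine (mul_le_mul hA hin (norm_nonneg _) (Real.exp_pos _).le).trans ?_
  have k1 : Real.exp (-(0.499 * S * s ^ 2) - lam.re * s) * Real.exp R ≤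
      Real.exp (-(0.4061 * S * s ^ 2) - lam.re * s) := by
    rw [← Real.exp_add, Real.exp_le_exp]
    linarith
  have k2 : Real.exp (-(0.499 * S * s ^ 2) - lam.re * s) ≤
      Real.exp (-(0.4061 * S * s ^ 2) - lam.re * s) := by
    rw [Real.exp_le_exp]
    nlinarith [mul_nonneg hS0 hs2]
  nlinarith [mul_le_mul_of_nonneg_left k1 hR0]

end Pool.Agent.LP
end

section

set_option autoImplicit false

/-! # E4b: the integral over the top side -/

namespace Pool.Agent.LP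

open Complex MeasureTheory

private theorem E4b_norm_G (Ss lam : ℂ) (s : ℝ) :
    ‖exp (-(Ss * s ^ 2 / 2) - lam * s)‖ = Real.exp (-(Ss.re * s ^ 2 / 2) - lam.re * s) := by
  rw [Complex.norm_exp]
  congr 1
  have h1 : (-(Ss * (s : ℂ) ^ 2 / 2) - lam * s) = -(Ss * ((s ^ 2 / 2 : ℝ) : ℂ)) - lam * (s : ℂ) := by
    push_cast
    ring
  rw [h1, Complex.sub_re, Complex.neg_re, Complex.re_mul_ofReal, Complex.re_mul_ofReal]
  ring

private theorem E4b_q_int (S a : ℝ) (hS : 0.65 ≤ S) (j : ℕ) :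
    Integrable fun s : ℝ => s ^ j * Real.exp (-(0.4061 * S * s ^ 2) - a * s) := by
  have h1 := gl_integrable (0.8122 * S) a (by positivity) j
  refine h1.congr (Filter.Eventually.of_forall fun s => ?_)
  change s ^ j * Real.exp (-(0.8122 * S / 2 * s ^ 2) - a * s) = _
  congr 2
  ring

private theorem E4b_w_int (S a : ℝ) (hS : 0.65 ≤ S) (j : ℕ) :
    Integrable fun s : ℝ => s ^ j * Real.exp (-(0.499 * S * s ^ 2) - a * s) := by
  have h1 := gl_integrable (0.998 * S) a (by positivity) j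
  refine h1.congr (Filter.Eventually.of_forall fun s => ?_)
  change s ^ j * Real.exp (-(0.998 * S / 2 * s ^ 2) - a * s) = _
  congr 2
  ring

private theorem E4b_q_zero (S a : ℝ) (hS : 0.65 ≤ S) :
    ∫ s : ℝ, Real.exp (-(0.4061 * S * s ^ 2) - a * s) =
      Real.sqrt (2 * Real.pi / (0.8122 * S)) * Real.exp (a ^ 2 / (2 * (0.8122 * S))) := by
  rw [← gl_zero (0.8122 * S) a (by positivity)]
  refine integral_congr_ae (Filter.Eventually.of_forall fun s => ?_)
  change Real.exp _ = Real.exp _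
  congr 1
  ring

private theorem E4b_bnd_int (S a : ℝ) (hS : 0.65 ≤ S) :
    Integrable fun s : ℝ => (0.0061 * S * |s| ^ 3 + 0.0215 * s ^ 2) *
        Real.exp (-(0.4061 * S * s ^ 2) - a * s) := by
  have h3 := ((E4b_q_int S a hS 3).norm.const_mul (0.0061 * S)).add
    ((E4b_q_int S a hS 2).const_mul 0.0215)
  refine h3.congr (Filter.Eventually.of_forall fun s => ?_)
  change 0.0061 * S * ‖s ^ 3 * Real.exp (-(0.4061 * S * s ^ 2) - a * s)‖ +
    0.0215 * (s ^ 2 * Real.exp (-(0.4061 * S * s ^ 2) - a * s)) = _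
  rw [norm_mul, norm_pow, Real.norm_eq_abs, Real.norm_of_nonneg (Real.exp_pos _).le]
  ring

/-- PROOF. Let `B = 0.975 √(2π/S) exp((0.949 a² - 0.0722)/(2S)) ≤ ‖I₀‖` (`I0_ge`), `a = Re λ`.
`∫_{s1}^{s2}(...) - I₀ = ∫_{s1}^{s2} (exp(..+r) e - exp(..)) - ∫_{outside} exp(..)`. By `top_pt`, `J3_le`, `mass_le` (`gl_zero` with `k = 0.8122 S`) the first is
`≤ 1.0001 * 0.17 B + 0.0001 * 1.344 B`; the second is `≤ 0.016 B` (`tail_le`, `s1 ≤ -8`, `s2 ≥ 8`). Sum `≤ 0.187 B`. -/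
theorem top_Z0 {S : ℝ} {Ss lam m0 : ℂ} {s1 s2 : ℝ} {r e m : ℝ → ℂ}
    (h : TopData S Ss lam m0 s1 s2 r e m) :
    ‖(∫ s in s1..s2, exp (-(Ss * s ^ 2 / 2) - lam * s + r s) * e s) - I0 Ss lam‖ ≤
      0.25 * ‖I0 Ss lam‖ := by
  have hS := h.hS
  have ha := h.hl1
  have hSr := h.hSr
  have hs12 : s1 ≤ s2 := by linarith [h.h1.2, h.h2.1]
  have hSre : 0 < Ss.re := by
    have : 0 < 0.998 * S := by positivity
    linarith
  -- G
  have hGi : Integrable fun s : ℝ => exp (-(Ss * s ^ 2 / 2) - lam * s) := by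
    have h0 := I0_integrable Ss lam hSre 0
    refine h0.congr (Filter.Eventually.of_forall fun s => ?_)
    change (s : ℂ) ^ 0 * exp (-(Ss * s ^ 2 / 2) - lam * s) = _
    rw [pow_zero, one_mul]
  have hsub : Set.uIcc s1 s2 ⊆ Set.Icc (-9.8) 9.8 := by
    rw [Set.uIcc_of_le hs12]
    exact Set.Icc_subset_Icc h.h1.1 h.h2.2
  have hFc : ContinuousOn (fun s : ℝ => exp (-(Ss * s ^ 2 / 2) - lam * s + r s) * e s)
      (Set.Icc (-9.8) 9.8) := by
    refine ContinuousOn.mul ?_ h.ce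
    refine Complex.continuous_exp.comp_continuousOn (ContinuousOn.add ?_ h.cr)
    exact Continuous.continuousOn (by fun_prop)
  have hFi : IntervalIntegrable (fun s : ℝ => exp (-(Ss * s ^ 2 / 2) - lam * s + r s) * e s)
      volume s1 s2 := (hFc.mono hsub).intervalIntegrable
  have hGi' : IntervalIntegrable (fun s : ℝ => exp (-(Ss * s ^ 2 / 2) - lam * s)) volume s1 s2 :=
    hGi.intervalIntegrable
  have hqi := E4b_q_int S lam.re hS 0
  have hqi' : Integrable fun s : ℝ => Real.exp (-(0.4061 * S * s ^ 2) - lam.re * s) := by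
    refine hqi.congr (Filter.Eventually.of_forall fun s => ?_)
    change s ^ 0 * _ = _
    rw [pow_zero, one_mul]
  have hbi := E4b_bnd_int S lam.re hS
  set B : ℝ := 0.975 * Real.sqrt (2 * Real.pi / S) *
      Real.exp ((0.949 * lam.re ^ 2 - 0.0722) / (2 * S)) with hB
  have hB0 : 0 ≤ B := by positivity
  have hBI : B ≤ ‖I0 Ss lam‖ := I0_ge S hS Ss lam h.hSs hSr h.hl2
  -- first part
  have p1 : ‖(∫ s in s1..s2, exp (-(Ss * s ^ 2 / 2) - lam * s + r s) * e s) -
      ∫ s in s1..s2, exp (-(Ss * s ^ 2 / 2) - lam * s)‖ ≤ (1.0001 * 0.17 + 0.0001 * 1.344) * B := by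
    rw [← intervalIntegral.integral_sub hFi hGi']
    have hbt : Integrable fun s : ℝ => (1.0001 * (0.0061 * S * |s| ^ 3 + 0.0215 * s ^ 2) + 0.0001) *
        Real.exp (-(0.4061 * S * s ^ 2) - lam.re * s) := by
      refine ((hbi.const_mul 1.0001).add (hqi'.const_mul 0.0001)).congr
        (Filter.Eventually.of_forall fun s => ?_)
      change 1.0001 * ((0.0061 * S * |s| ^ 3 + 0.0215 * s ^ 2) *
        Real.exp (-(0.4061 * S * s ^ 2) - lam.re * s)) +
        0.0001 * Real.exp (-(0.4061 * S * s ^ 2) - lam.re * s) = _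
      ring
    calc ‖∫ s in s1..s2, (exp (-(Ss * s ^ 2 / 2) - lam * s + r s) * e s -
            exp (-(Ss * s ^ 2 / 2) - lam * s))‖
        ≤ ∫ s in s1..s2, (1.0001 * (0.0061 * S * |s| ^ 3 + 0.0215 * s ^ 2) + 0.0001) *
            Real.exp (-(0.4061 * S * s ^ 2) - lam.re * s) := by
          refine intervalIntegral.norm_integral_le_of_norm_le hs12
            (Filter.Eventually.of_forall fun s hs => ?_) hbt.intervalIntegrable
          refine top_pt h ?_
          rw [abs_le]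
          exact ⟨h.h1.1.trans hs.1.le, hs.2.trans h.h2.2⟩
      _ ≤ ∫ s : ℝ, (1.0001 * (0.0061 * S * |s| ^ 3 + 0.0215 * s ^ 2) + 0.0001) *
            Real.exp (-(0.4061 * S * s ^ 2) - lam.re * s) := by
          rw [intervalIntegral.integral_of_le hs12]
          refine setIntegral_le_integral hbt (Filter.Eventually.of_forall fun s => ?_)
          have : 0 ≤ S := by linarith
          positivity
      _ = 1.0001 * (∫ s : ℝ, (0.0061 * S * |s| ^ 3 + 0.0215 * s ^ 2) *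
            Real.exp (-(0.4061 * S * s ^ 2) - lam.re * s)) +
          0.0001 * ∫ s : ℝ, Real.exp (-(0.4061 * S * s ^ 2) - lam.re * s) := by
          rw [← integral_const_mul, ← integral_const_mul, ← integral_add (hbi.const_mul _)
            (hqi'.const_mul _)]
          refine integral_congr_ae (Filter.Eventually.of_forall fun s => ?_)
          change _ = 1.0001 * _ + 0.0001 * _
          ring
      _ ≤ 1.0001 * (0.17 * B) + 0.0001 * (1.344 * B) := by
          refine add_le_add (mul_le_mul_of_nonneg_left (J3_le S lam.re hS ha) (by norm_num))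
            (mul_le_mul_of_nonneg_left ?_ (by norm_num))
          rw [E4b_q_zero S lam.re hS]
          exact mass_le S lam.re hS ha
      _ = (1.0001 * 0.17 + 0.0001 * 1.344) * B := by ring
  -- second part
  have p2 : ‖(∫ s in s1..s2, exp (-(Ss * s ^ 2 / 2) - lam * s)) - I0 Ss lam‖ ≤ 0.016 * B := by
    have hm : MeasurableSet (Set.Ioc s1 s2) := measurableSet_Ioc
    have e1 : (∫ s in Set.Ioc s1 s2, exp (-(Ss * s ^ 2 / 2) - lam * s)) +
        (∫ s in (Set.Ioc s1 s2)ᶜ, exp (-(Ss * s ^ 2 / 2) - lam * s)) = I0 Ss lam :=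
      integral_add_compl hm hGi
    rw [intervalIntegral.integral_of_le hs12, ← e1, sub_add_cancel_left, norm_neg]
    have hw0 : Integrable fun s : ℝ => Real.exp (-(0.499 * S * s ^ 2) - lam.re * s) := by
      refine (E4b_w_int S lam.re hS 0).congr (Filter.Eventually.of_forall fun s => ?_)
      change s ^ 0 * _ = _
      rw [pow_zero, one_mul]
    have hw1 : Integrable fun s : ℝ =>
        (1 + |s|) * Real.exp (-(0.499 * S * s ^ 2) - lam.re * s) := by
      refine (hw0.add (E4b_w_int S lam.re hS 1).norm).congr (Filter.Eventually.of_forall fun s => ?_)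
      change Real.exp (-(0.499 * S * s ^ 2) - lam.re * s) +
        ‖s ^ 1 * Real.exp (-(0.499 * S * s ^ 2) - lam.re * s)‖ = _
      rw [pow_one, norm_mul, Real.norm_eq_abs, Real.norm_of_nonneg (Real.exp_pos _).le]
      ring
    calc ‖∫ s in (Set.Ioc s1 s2)ᶜ, exp (-(Ss * s ^ 2 / 2) - lam * s)‖
        ≤ ∫ s in (Set.Ioc s1 s2)ᶜ, (1 + |s|) * Real.exp (-(0.499 * S * s ^ 2) - lam.re * s) := by
          refine norm_integral_le_of_norm_le hw1.integrableOn (Filter.Eventually.of_forall fun s => ?_)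
          rw [E4b_norm_G]
          have h5 : Real.exp (-(Ss.re * s ^ 2 / 2) - lam.re * s) ≤
              Real.exp (-(0.499 * S * s ^ 2) - lam.re * s) := by
            refine Real.exp_le_exp.2 ?_
            nlinarith [sq_nonneg s]
          refine h5.trans (le_mul_of_one_le_left (Real.exp_pos _).le ?_)
          linarith [abs_nonneg s]
      _ ≤ ∫ s in {s : ℝ | 8 ≤ |s|}, (1 + |s|) * Real.exp (-(0.499 * S * s ^ 2) - lam.re * s) := by
          refine setIntegral_mono_set hw1.integrableOn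
            (Filter.Eventually.of_forall fun s => by positivity) ?_
          refine LE.le.eventuallyLE ?_
          intro s hs
          change 8 ≤ |s|
          by_cases h6 : s1 < s
          · have h7 : s2 < s := by
              by_contra h8
              exact hs ⟨h6, not_lt.1 h8⟩
            exact (h.h2.1.trans h7.le).trans (le_abs_self s)
          · have h7 : s ≤ -8 := (not_lt.1 h6).trans h.h1.2
            rw [le_abs]
            right
            linarith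
      _ ≤ 0.016 * B := tail_le S lam.re hS ha
  have p3 : (∫ s in s1..s2, exp (-(Ss * s ^ 2 / 2) - lam * s + r s) * e s) - I0 Ss lam =
      ((∫ s in s1..s2, exp (-(Ss * s ^ 2 / 2) - lam * s + r s) * e s) -
        ∫ s in s1..s2, exp (-(Ss * s ^ 2 / 2) - lam * s)) +
      ((∫ s in s1..s2, exp (-(Ss * s ^ 2 / 2) - lam * s)) - I0 Ss lam) := by ring
  rw [p3]
  refine (norm_add_le _ _).trans ((add_le_add p1 p2).trans ?_)
  nlinarith

end Pool.Agent.LP
end
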