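import Pool.Agent.Lib.MP_f91407_an.Mg.G006
import Pool.Agent.Lib.MP_f91407_an.Mg.G005
import Pool.Agent.Lib.MP_f91407_an.Mg.G019
import Pool.Agent.Lib.MP_f91407_an.LP.E4c

section

set_option autoImplicit false

/-! # B5a: pointwise estimate of the integrand -/

namespace Pool.Agent.LP

open Complex MeasureTheory

variable {n : ℕ} {b : Fin n → ℝ}

/-- pointwise. PROOF. `R = exp D = e^{-v t²/2} e^x` with `x = D + v t²/2`. Then
`R - e^{-v t²/2}(1 - i v' t³/6) = e^{-v t²/2}(e^x - 1 - x) + e^{-v t²/2}(x + i v' t³/6)`. First term: `norm_exp_sub_le`: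
`≤ ‖x‖²/2 * max |e^{-v t²/2}| |e^{D}|`, where `|e^{-vt²/2}| ≤ e^{-0.4775 W t²}` (`Re v ≥ 0.955 W`) and `|e^D| = |R| ≤ e^{-0.42 W t²}`
(`norm_Rr_le1`), `‖x‖ ≤ 1.3 W |t|³/6` (`Dd_bd3`); second term by `Dd_bd4`. -/
theorem Rr_central_pt (hb : Ok b) {z : ℂ} (hz : |z.im| ≤ 0.3) {t : ℝ} (ht : |t| ≤ 0.7) :
    ‖Rr b z t - exp (-(vv b z * t ^ 2 / 2)) * (1 - I * vv1 b z * t ^ 3 / 6)‖ ≤
      (1.3 * W b z.re) ^ 2 / 72 * (t ^ 6 * Real.exp (-(0.42 * W b z.re * t ^ 2))) +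
        1.3 * W b z.re / 24 * (t ^ 4 * Real.exp (-(0.4775 * W b z.re * t ^ 2))) := by
  have hpi : |z.im| + |t| < Real.pi := by
    have := Real.pi_gt_three
    norm_num at hz ht
    linarith
  have hR := Rr_eq_exp hb hpi
  have hR1 := norm_Rr_le1 hb hz ht
  have h3 := Dd_bd3 hb hz ht
  have h4 := Dd_bd4 hb hz ht
  have hv := (norm_vv_le3 hb hz).2
  have hW := W_nonneg hb z.re
  rw [hR] at hR1 ⊢
  generalize W b z.re = w at *
  generalize Dd b z t = D at *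
  generalize vv b z = v at *
  generalize vv1 b z = v1 at *
  have hg : ‖exp (-(v * t ^ 2 / 2))‖ = Real.exp (-(v.re * t ^ 2 / 2)) := by
    rw [norm_exp]
    congr 1
    have : (v * (t : ℂ) ^ 2 / 2) = v * ((t ^ 2 / 2 : ℝ) : ℂ) := by push_cast; ring
    rw [this, neg_re, re_mul_ofReal]
    ring
  have hg1 : ‖exp (-(v * t ^ 2 / 2))‖ ≤ Real.exp (-(0.4775 * w * t ^ 2)) := by
    rw [hg, Real.exp_le_exp]
    nlinarith [sq_nonneg t]
  have hg2 : ‖exp (-(v * t ^ 2 / 2))‖ ≤ Real.exp (-(0.42 * w * t ^ 2)) := by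
    refine hg1.trans (Real.exp_le_exp.2 ?_)
    nlinarith [mul_nonneg hW (sq_nonneg t)]
  set x : ℂ := D + v * t ^ 2 / 2 with hx
  have hexp : exp D = exp (-(v * t ^ 2 / 2)) * exp x := by
    rw [← exp_add, hx]
    congr 1
    ring
  have hsplit : exp D - exp (-(v * t ^ 2 / 2)) * (1 - I * v1 * t ^ 3 / 6) =
      exp (-(v * t ^ 2 / 2)) * (exp x - 1 - x) +
        exp (-(v * t ^ 2 / 2)) * (x + I * v1 * t ^ 3 / 6) := by
    rw [hexp]
    ring
  rw [hsplit]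
  have ht6 : (|t| ^ 3) ^ 2 = t ^ 6 := by
    rw [← pow_mul, ← Even.pow_abs (by decide : Even 6) t]
  refine (norm_add_le _ _).trans (add_le_add ?_ ?_)
  · rw [norm_mul]
    have k1 := norm_exp_sub_le x
    have k2 : ‖x‖ ^ 2 ≤ (1.3 * w * |t| ^ 3 / 6) ^ 2 := pow_le_pow_left₀ (norm_nonneg _) h3 2
    have k3 : ‖exp (-(v * t ^ 2 / 2))‖ * max 1 (Real.exp x.re) ≤
        Real.exp (-(0.42 * w * t ^ 2)) := by
      rw [mul_max_of_nonneg _ _ (norm_nonneg _), mul_one]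
      refine max_le hg2 ?_
      rw [← norm_exp x, ← norm_mul, ← hexp]
      exact hR1
    calc ‖exp (-(v * t ^ 2 / 2))‖ * ‖exp x - 1 - x‖
        ≤ ‖exp (-(v * t ^ 2 / 2))‖ * (‖x‖ ^ 2 / 2 * max 1 (Real.exp x.re)) :=
          mul_le_mul_of_nonneg_left k1 (norm_nonneg _)
      _ = ‖x‖ ^ 2 / 2 * (‖exp (-(v * t ^ 2 / 2))‖ * max 1 (Real.exp x.re)) := by ring
      _ ≤ (1.3 * w * |t| ^ 3 / 6) ^ 2 / 2 * Real.exp (-(0.42 * w * t ^ 2)) :=
          mul_le_mul (by linarith) k3 (by positivity) (by positivity)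
      _ = (1.3 * w) ^ 2 / 72 * ((|t| ^ 3) ^ 2 * Real.exp (-(0.42 * w * t ^ 2))) := by ring
      _ = _ := by rw [ht6]
  · rw [norm_mul]
    calc ‖exp (-(v * t ^ 2 / 2))‖ * ‖x + I * v1 * t ^ 3 / 6‖
        ≤ Real.exp (-(0.4775 * w * t ^ 2)) * (1.3 * w * t ^ 4 / 24) :=
          mul_le_mul hg1 h4 (norm_nonneg _) (Real.exp_pos _).le
      _ = _ := by ring

end Pool.Agent.LP
end

section

set_option autoImplicit false

/-! # B5b: the central part -/

namespace Pool.Agent.LP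

open Complex MeasureTheory

variable {n : ℕ} {b : Fin n → ℝ}

/-- PROOF. Integrate `Rr_central_pt` (extend the integrals of the nonnegative majorant to `ℝ`):
`(1.69/72) w² * 15/8 √(π/(0.42 w))/(0.42 w)³ + (1.3/24) w * 3/4 √(π/(0.4775 w))/(0.4775 w)²`
`≤ (0.917 + 0.258) √π w^{-3/2}`, `w = W(Re z)`. (`0.42^3.5 ≥ 0.0480`, `0.4775^2.5 ≥ 0.1575`.) -/
theorem Rr_central (hb : Ok b) {z : ℂ} (hz : |z.im| ≤ 0.3) (hW : 0 < W b z.re) :
    ‖(∫ t in (-0.7 : ℝ)..0.7, Rr b z t) -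
        ∫ t in (-0.7 : ℝ)..0.7, exp (-(vv b z * t ^ 2 / 2)) * (1 - I * vv1 b z * t ^ 3 / 6)‖ ≤
      1.18 * Real.sqrt Real.pi / (W b z.re * Real.sqrt (W b z.re)) := by
  set w : ℝ := W b z.re with hw
  have ha1 : (0 : ℝ) < 0.42 * w := by positivity
  have ha2 : (0 : ℝ) < 0.4775 * w := by positivity
  have hI1 : IntervalIntegrable (Rr b z) volume (-0.7) 0.7 := (continuous_Rr b z).intervalIntegrable _ _
  have hc2 : Continuous fun t : ℝ => exp (-(vv b z * (t : ℂ) ^ 2 / 2)) *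
      (1 - I * vv1 b z * (t : ℂ) ^ 3 / 6) := by fun_prop
  have hI2 : IntervalIntegrable (fun t : ℝ => exp (-(vv b z * (t : ℂ) ^ 2 / 2)) *
      (1 - I * vv1 b z * (t : ℂ) ^ 3 / 6)) volume (-0.7) 0.7 := hc2.intervalIntegrable _ _
  let g1 : ℝ → ℝ := fun t => (1.3 * w) ^ 2 / 72 * (t ^ 6 * Real.exp (-(0.42 * w * t ^ 2)))
  let g2 : ℝ → ℝ := fun t => 1.3 * w / 24 * (t ^ 4 * Real.exp (-(0.4775 * w * t ^ 2)))
  have hg1 : Integrable g1 := (gauss_int (0.42 * w) ha1 6).const_mul _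
  have hg2 : Integrable g2 := (gauss_int (0.4775 * w) ha2 4).const_mul _
  have hg : Integrable fun t => g1 t + g2 t := hg1.add hg2
  rw [← intervalIntegral.integral_sub hI1 hI2]
  have h1 : ‖∫ t in (-0.7 : ℝ)..0.7, (Rr b z t - exp (-(vv b z * (t : ℂ) ^ 2 / 2)) *
      (1 - I * vv1 b z * (t : ℂ) ^ 3 / 6))‖ ≤ ∫ t in (-0.7 : ℝ)..0.7, (g1 t + g2 t) := by
    refine intervalIntegral.norm_integral_le_of_norm_le (by norm_num)
      (Filter.Eventually.of_forall fun t ht => ?_) hg.intervalIntegrable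
    refine Rr_central_pt hb hz (abs_le.mpr ⟨?_, ht.2⟩)
    exact ht.1.le
  have h2 : ∫ t in (-0.7 : ℝ)..0.7, (g1 t + g2 t) ≤ ∫ t, (g1 t + g2 t) := by
    rw [intervalIntegral.integral_of_le (by norm_num)]
    refine setIntegral_le_integral hg (Filter.Eventually.of_forall fun t => ?_)
    have h3 : 0 ≤ t ^ 6 := by positivity
    have h4 : 0 ≤ t ^ 4 := by positivity
    change 0 ≤ (1.3 * w) ^ 2 / 72 * (t ^ 6 * Real.exp (-(0.42 * w * t ^ 2))) +
      1.3 * w / 24 * (t ^ 4 * Real.exp (-(0.4775 * w * t ^ 2)))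
    positivity
  have h3 : ∫ t, (g1 t + g2 t) =
      (1.3 * w) ^ 2 / 72 * (15 / 8 * Real.sqrt (Real.pi / (0.42 * w)) / (0.42 * w) ^ 3) +
        1.3 * w / 24 * (3 / 4 * Real.sqrt (Real.pi / (0.4775 * w)) / (0.4775 * w) ^ 2) := by
    rw [integral_add hg1 hg2]
    change (∫ t, (1.3 * w) ^ 2 / 72 * (t ^ 6 * Real.exp (-(0.42 * w * t ^ 2)))) +
      (∫ t, 1.3 * w / 24 * (t ^ 4 * Real.exp (-(0.4775 * w * t ^ 2)))) = _
    rw [integral_const_mul, integral_const_mul, gauss_moment6 _ ha1, gauss_moment4 _ ha2]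
  refine h1.trans (h2.trans ?_)
  rw [h3]
  have hsw : 0 < Real.sqrt w := Real.sqrt_pos.mpr hW
  have hsp : 0 < Real.sqrt Real.pi := Real.sqrt_pos.mpr Real.pi_pos
  have hww : Real.sqrt w * Real.sqrt w = w := Real.mul_self_sqrt hW.le
  have e1 : Real.sqrt (Real.pi / (0.42 * w)) = Real.sqrt Real.pi / (Real.sqrt 0.42 * Real.sqrt w) := by
    rw [Real.sqrt_div Real.pi_pos.le, Real.sqrt_mul (by norm_num)]
  have e2 : Real.sqrt (Real.pi / (0.4775 * w)) =
      Real.sqrt Real.pi / (Real.sqrt 0.4775 * Real.sqrt w) := by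
    rw [Real.sqrt_div Real.pi_pos.le, Real.sqrt_mul (by norm_num)]
  have s1 : (0.648 : ℝ) ≤ Real.sqrt 0.42 := Real.le_sqrt_of_sq_le (by norm_num)
  have s2 : (0.691 : ℝ) ≤ Real.sqrt 0.4775 := Real.le_sqrt_of_sq_le (by norm_num)
  have f1 : Real.sqrt (Real.pi / (0.42 * w)) ≤ Real.sqrt Real.pi / (0.648 * Real.sqrt w) := by
    rw [e1]
    gcongr
  have f2 : Real.sqrt (Real.pi / (0.4775 * w)) ≤ Real.sqrt Real.pi / (0.691 * Real.sqrt w) := by
    rw [e2]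
    gcongr
  have g1' : (1.3 * w) ^ 2 / 72 * (15 / 8 * Real.sqrt (Real.pi / (0.42 * w)) / (0.42 * w) ^ 3) ≤
      (1.3 * w) ^ 2 / 72 * (15 / 8 * (Real.sqrt Real.pi / (0.648 * Real.sqrt w)) / (0.42 * w) ^ 3) := by
    gcongr
  have g2' : 1.3 * w / 24 * (3 / 4 * Real.sqrt (Real.pi / (0.4775 * w)) / (0.4775 * w) ^ 2) ≤
      1.3 * w / 24 * (3 / 4 * (Real.sqrt Real.pi / (0.691 * Real.sqrt w)) / (0.4775 * w) ^ 2) := by
    gcongr
  refine (add_le_add g1' g2').trans ?_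
  have k1 : (1.3 * w) ^ 2 / 72 * (15 / 8 * (Real.sqrt Real.pi / (0.648 * Real.sqrt w)) /
      (0.42 * w) ^ 3) = (1.3 ^ 2 / 72 * (15 / 8) / (0.648 * 0.42 ^ 3)) *
        (Real.sqrt Real.pi / (w * Real.sqrt w)) := by
    field_simp
  have k2 : 1.3 * w / 24 * (3 / 4 * (Real.sqrt Real.pi / (0.691 * Real.sqrt w)) /
      (0.4775 * w) ^ 2) = (1.3 / 24 * (3 / 4) / (0.691 * 0.4775 ^ 2)) *
        (Real.sqrt Real.pi / (w * Real.sqrt w)) := by
    field_simp
  rw [k1, k2, ← add_mul]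
  rw [show 1.18 * Real.sqrt Real.pi / (w * Real.sqrt w) =
    1.18 * (Real.sqrt Real.pi / (w * Real.sqrt w)) from mul_div_assoc _ _ _]
  have k3 : 0 ≤ Real.sqrt Real.pi / (w * Real.sqrt w) := by positivity
  refine mul_le_mul_of_nonneg_right ?_ k3
  norm_num

end Pool.Agent.LP
end

section

set_option autoImplicit false

/-! # B5d: the local limit theorem -/

namespace Pool.Agent.LP

open Complex MeasureTheory

variable {n : ℕ} {b : Fin n → ℝ}

private theorem B5d_exp54 : Real.exp (-5.4) ≤ 0.0046 := by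
  have h1 : (2.7182818283 : ℝ) < Real.exp 1 := Real.exp_one_gt_d9
  have h2 : Real.exp 5.4 = Real.exp 1 ^ 5 * Real.exp 0.4 := by
    rw [← Real.exp_nat_mul, ← Real.exp_add]
    norm_num
  have h3 : (1.48 : ℝ) ≤ Real.exp 0.4 := by
    have := Real.quadratic_le_exp_of_nonneg (x := (0.4 : ℝ)) (by norm_num)
    linarith
  have h4 : (219 : ℝ) ≤ Real.exp 5.4 := by
    rw [h2]
    have h5 : (2.7182818283 : ℝ) ^ 5 ≤ Real.exp 1 ^ 5 := pow_le_pow_left₀ (by norm_num) h1.le 5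
    have h6 : (148 : ℝ) ≤ (2.7182818283 : ℝ) ^ 5 := by norm_num
    nlinarith
  rw [Real.exp_neg]
  have h7 : (Real.exp 5.4)⁻¹ ≤ (219 : ℝ)⁻¹ := inv_anti₀ (by norm_num) h4
  refine h7.trans ?_
  norm_num

private theorem B5d_exp405 : Real.exp (-4.05) ≤ 0.018 := by
  have h1 : (2.7182818283 : ℝ) < Real.exp 1 := Real.exp_one_gt_d9
  have h2 : Real.exp 4.05 = Real.exp 1 ^ 4 * Real.exp 0.05 := by
    rw [← Real.exp_nat_mul, ← Real.exp_add]
    norm_num
  have h3 : (1.05 : ℝ) ≤ Real.exp 0.05 := by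
    have := Real.add_one_le_exp (0.05 : ℝ)
    linarith
  have h4 : (56 : ℝ) ≤ Real.exp 4.05 := by
    rw [h2]
    have h5 : (2.7182818283 : ℝ) ^ 4 ≤ Real.exp 1 ^ 4 := pow_le_pow_left₀ (by norm_num) h1.le 4
    have h6 : (54.59 : ℝ) ≤ (2.7182818283 : ℝ) ^ 4 := by norm_num
    nlinarith
  rw [Real.exp_neg]
  have h7 : (Real.exp 4.05)⁻¹ ≤ (56 : ℝ)⁻¹ := inv_anti₀ (by norm_num) h4
  refine h7.trans ?_
  norm_num

private theorem B5d_wexp {w : ℝ} (hw : 27 ≤ w) : w * Real.exp (-(0.2 * w)) ≤ 0.1242 := by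
  have h1 : Real.exp (-(0.2 * w)) = Real.exp (-5.4) * (Real.exp (0.2 * (w - 27)))⁻¹ := by
    rw [← Real.exp_neg, ← Real.exp_add]
    congr 1
    ring
  have h2 : 1 + 0.2 * (w - 27) ≤ Real.exp (0.2 * (w - 27)) := by
    have := Real.add_one_le_exp (0.2 * (w - 27))
    linarith
  have h3 : 0 < 1 + 0.2 * (w - 27) := by linarith
  have h4 : (Real.exp (0.2 * (w - 27)))⁻¹ ≤ (1 + 0.2 * (w - 27))⁻¹ := inv_anti₀ h3 h2
  have h5 : w * (1 + 0.2 * (w - 27))⁻¹ ≤ 27 := by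
    rw [← div_eq_mul_inv, div_le_iff₀ h3]
    linarith
  have h6 := B5d_exp54
  have h7 := Real.exp_pos (-5.4)
  rw [h1]
  calc w * (Real.exp (-5.4) * (Real.exp (0.2 * (w - 27)))⁻¹)
      = Real.exp (-5.4) * (w * (Real.exp (0.2 * (w - 27)))⁻¹) := by ring
    _ ≤ Real.exp (-5.4) * (w * (1 + 0.2 * (w - 27))⁻¹) :=
        mul_le_mul_of_nonneg_left (mul_le_mul_of_nonneg_left h4 (by linarith)) h7.le
    _ ≤ Real.exp (-5.4) * 27 := mul_le_mul_of_nonneg_left h5 h7.le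
    _ ≤ 0.0046 * 27 := mul_le_mul_of_nonneg_right h6 (by norm_num)
    _ = 0.1242 := by norm_num

/-- the numerical part -/
private theorem B5d_num {w : ℝ} (hw : 27 ≤ w) :
    0.404 * Real.sqrt w * ((0.6 * Real.exp (-(0.2 * w)) + 4.3 * Real.exp (-(0.35 * w))) +
      1.18 * Real.sqrt Real.pi / (w * Real.sqrt w) + Real.exp (-(0.23 * w)) / (0.33 * w)) ≤
        0.05 := by
  have hw0 : 0 < w := by linarith
  set s := Real.sqrt w with hs
  have hs2 : s * s = w := Real.mul_self_sqrt hw0.le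
  have hs1 : 5.19 ≤ s := by
    rw [hs]
    refine Real.le_sqrt_of_sq_le ?_
    norm_num
    linarith
  have hs0 : 0 < s := by linarith
  set X := Real.exp (-(0.2 * w)) with hX
  have hX0 : 0 < X := Real.exp_pos _
  have hXw : w * X ≤ 0.1242 := B5d_wexp hw
  have hsX : s * X ≤ 0.02394 := by
    have h1 : s * (s * X) ≤ 0.1242 := by
      rw [← mul_assoc, hs2]
      exact hXw
    have h2 : 0 ≤ s * X := by positivity
    nlinarith
  have hY : Real.exp (-(0.35 * w)) ≤ 0.018 * X := by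
    have h1 : Real.exp (-(0.35 * w)) = Real.exp (-(0.15 * w)) * X := by
      rw [hX, ← Real.exp_add]
      congr 1
      ring
    rw [h1]
    refine mul_le_mul_of_nonneg_right (le_trans (Real.exp_le_exp.2 ?_) B5d_exp405) hX0.le
    linarith
  have hZ : Real.exp (-(0.23 * w)) / (0.33 * w) ≤ 0.113 * X := by
    have h1 : Real.exp (-(0.23 * w)) ≤ X := Real.exp_le_exp.2 (by linarith)
    rw [div_le_iff₀ (by positivity)]
    nlinarith
  have hpi : Real.sqrt Real.pi ≤ 1.773 := by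
    refine Real.sqrt_le_iff.2 ⟨by norm_num, ?_⟩
    have := Real.pi_lt_d4
    norm_num at this ⊢
    linarith
  have h3 : s * (1.18 * Real.sqrt Real.pi / (w * s)) = 1.18 * Real.sqrt Real.pi / w := by
    field_simp
  have h4 : 1.18 * Real.sqrt Real.pi / w ≤ 0.0776 := by
    rw [div_le_iff₀ hw0]
    nlinarith
  have h5 : s * ((0.6 * X + 4.3 * Real.exp (-(0.35 * w))) +
      1.18 * Real.sqrt Real.pi / (w * s) + Real.exp (-(0.23 * w)) / (0.33 * w)) ≤
      0.0776 + 0.8 * (s * X) := by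
    have e1 : s * ((0.6 * X + 4.3 * Real.exp (-(0.35 * w))) +
      1.18 * Real.sqrt Real.pi / (w * s) + Real.exp (-(0.23 * w)) / (0.33 * w)) =
      s * (1.18 * Real.sqrt Real.pi / (w * s)) +
      s * (0.6 * X + 4.3 * Real.exp (-(0.35 * w)) + Real.exp (-(0.23 * w)) / (0.33 * w)) := by ring
    rw [e1, h3]
    refine add_le_add h4 ?_
    have e2 : 0.6 * X + 4.3 * Real.exp (-(0.35 * w)) + Real.exp (-(0.23 * w)) / (0.33 * w) ≤
        0.8 * X := by linarith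
    calc s * (0.6 * X + 4.3 * Real.exp (-(0.35 * w)) + Real.exp (-(0.23 * w)) / (0.33 * w))
        ≤ s * (0.8 * X) := mul_le_mul_of_nonneg_left e2 hs0.le
      _ = 0.8 * (s * X) := by ring
  rw [mul_assoc]
  linarith

/-- **Local limit theorem.** PROOF. `w = W(Re z)`. `Gf - 1 = (√(2π) exp(log v/2)/(2π)) (∫_{-π}^{π} R - √(2π) exp(-log v/2))`
and `‖√(2π) exp(log v/2)/(2π)‖ = √(|v|/(2π)) ≤ √(1.024 w/(2π)) ≤ 0.404 √w`. The bracket is the sum of the three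
errors `Rr_tail`, `Rr_central`, `gauss_central`: `≤ 1.18 * 1.7725/w^{3/2} + e^{-0.23 w}/(0.33 w) + 0.6 e^{-0.2 w} + 4.3 e^{-0.35 w}`.
For `w ≥ 27`: `0.404 * (2.0916/w + e^{-0.23 w}/(0.33 √w) + √w (0.6 e^{-0.2 w} + 4.3 e^{-0.35 w})) ≤
0.404 * (0.0775 + 0.0012 + 0.0142 + 0.0018) ≤ 0.0383`. (Each term is decreasing in `w` for `w ≥ 27`; crude bounds
`e^{-5.4} ≤ 0.00452`, `e^{-9.45} ≤ 8e-5`, `e^{-6.21} ≤ 0.0021`.) -/
theorem Gf_bd (hb : Ok b) {z : ℂ} (hz : |z.im| ≤ 0.3) (hW : 27 ≤ W b z.re) :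
    ‖Gf b z - 1‖ ≤ 0.05 := by
  set w := W b z.re with hw
  have hw0 : 0 < w := by linarith
  obtain ⟨hv1, hv2⟩ := norm_vv_le3 hb hz
  rw [← hw] at hv1 hv2
  set v := vv b z with hv
  have hvre : 0 < v.re := lt_of_lt_of_le (by positivity) hv2
  have hv0 : v ≠ 0 := by
    intro h0
    rw [h0] at hvre
    exact lt_irrefl _ hvre
  have hpi := Real.pi_pos
  have hpi0 : (Real.pi : ℂ) ≠ 0 := by exact_mod_cast hpi.ne'
  -- errors
  have t1 := Rr_tail hb hz
  have t2 := Rr_central hb hz hw0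
  have t3 := gauss_central v (vv1 b z) w hw0 hv2
  rw [← hw] at t1 t2
  set A : ℂ := ∫ t in (-Real.pi)..Real.pi, Rr b z t with hA
  set B : ℂ := ∫ t in (-0.7 : ℝ)..0.7, Rr b z t with hB
  set C : ℂ := ∫ t in (-0.7 : ℝ)..0.7, exp (-(v * t ^ 2 / 2)) * (1 - I * vv1 b z * t ^ 3 / 6) with hC
  set D : ℂ := (Real.sqrt (2 * Real.pi) : ℂ) * exp (-(log v / 2)) with hD
  have hAD : ‖A - D‖ ≤ (0.6 * Real.exp (-(0.2 * w)) + 4.3 * Real.exp (-(0.35 * w))) +
      1.18 * Real.sqrt Real.pi / (w * Real.sqrt w) + Real.exp (-(0.23 * w)) / (0.33 * w) := by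
    have h1 : A - D = (A - B) + (B - C) + (C - D) := by ring
    rw [h1]
    exact (norm_add_le _ _).trans (add_le_add ((norm_add_le _ _).trans (add_le_add t1 t2)) t3)
  -- the constant
  set c : ℂ := (Real.sqrt (2 * Real.pi) : ℂ) * exp (log v / 2) * (1 / (2 * (Real.pi : ℂ))) with hc
  have hGf : Gf b z = c * A := by
    unfold Gf Psi
    rw [← hv, ← hA, hc]
    ring
  have hsq : (Real.sqrt (2 * Real.pi) : ℂ) * (Real.sqrt (2 * Real.pi) : ℂ) = 2 * (Real.pi : ℂ) := by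
    rw [← Complex.ofReal_mul, Real.mul_self_sqrt (by positivity)]
    push_cast
    ring
  have hcD : c * D = 1 := by
    have h1 : exp (log v / 2) * exp (-(log v / 2)) = 1 := by
      rw [← Complex.exp_add, add_neg_cancel, Complex.exp_zero]
    calc c * D = ((Real.sqrt (2 * Real.pi) : ℂ) * (Real.sqrt (2 * Real.pi) : ℂ)) *
          (exp (log v / 2) * exp (-(log v / 2))) * (1 / (2 * (Real.pi : ℂ))) := by
          rw [hc, hD]
          ring
      _ = 1 := by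
          rw [hsq, h1]
          field_simp
  have hG1 : Gf b z - 1 = c * (A - D) := by
    rw [mul_sub, hcD, hGf]
  have hcn : ‖c‖ ≤ 0.404 * Real.sqrt w := by
    have h1 : ‖exp (log v / 2)‖ = Real.sqrt ‖v‖ := by
      rw [Complex.norm_exp]
      have h2 : (log v / 2).re = Real.log ‖v‖ / 2 := by
        have : log v / 2 = ((1 / 2 : ℝ) : ℂ) * log v := by
          push_cast
          ring
        rw [this, Complex.re_ofReal_mul, Complex.log_re]
        ring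
      rw [h2, Real.exp_half, Real.exp_log (norm_pos_iff.2 hv0)]
    have h3 : ‖c‖ = Real.sqrt (2 * Real.pi) * Real.sqrt ‖v‖ * (1 / (2 * Real.pi)) := by
      rw [hc, norm_mul, norm_mul, h1, Complex.norm_real, Real.norm_of_nonneg (Real.sqrt_nonneg _)]
      congr 1
      have : (1 / (2 * (Real.pi : ℂ))) = ((1 / (2 * Real.pi) : ℝ) : ℂ) := by
        push_cast
        rfl
      rw [this, Complex.norm_real, Real.norm_of_nonneg (by positivity)]
    rw [h3]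
    have h4 : 0 ≤ Real.sqrt (2 * Real.pi) * Real.sqrt ‖v‖ * (1 / (2 * Real.pi)) := by positivity
    refine (sq_le_sq₀ h4 (by positivity)).1 ?_
    have e1 : Real.sqrt (2 * Real.pi) ^ 2 = 2 * Real.pi := Real.sq_sqrt (by positivity)
    have e2 : Real.sqrt ‖v‖ ^ 2 = ‖v‖ := Real.sq_sqrt (norm_nonneg _)
    have e3 : Real.sqrt w ^ 2 = w := Real.sq_sqrt hw0.le
    have e4 : (Real.sqrt (2 * Real.pi) * Real.sqrt ‖v‖ * (1 / (2 * Real.pi))) ^ 2 =
        ‖v‖ / (2 * Real.pi) := by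
      rw [mul_pow, mul_pow, e1, e2]
      field_simp
    rw [e4, mul_pow, e3, div_le_iff₀ (by positivity)]
    have h5 := Real.pi_gt_d4
    nlinarith
  rw [hG1, norm_mul]
  refine (mul_le_mul hcn hAD (norm_nonneg _) (by positivity)).trans ?_
  exact B5d_num hW

end Pool.Agent.LP
end

section

set_option autoImplicit false

/-! collects the parts -/
end

section

set_option autoImplicit false

/-! collects the parts -/
end
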