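import Pool.Agent.Lib.MP_f91407_an.Mg.G004

section

set_option autoImplicit false

/-! # C1: `Ψ` is holomorphic in the strip `|Im z| < π` -/

namespace Pool.Agent.LP

open Complex MeasureTheory

variable {n : ℕ} {b : Fin n → ℝ}

/-- `e^{π m} - e^{-π m}` -/
noncomputable def C1_g (m : ℂ) : ℂ := exp (m * Real.pi) - exp (m * (-Real.pi : ℝ))

theorem C1_g_diff : Differentiable ℂ C1_g := by
  unfold C1_g
  fun_prop

theorem C1_phi (m : ℂ) : ∫ t in (-Real.pi)..Real.pi, exp (m * (t : ℂ)) = dslope C1_g 0 m := by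
  by_cases hm : m = 0
  · subst hm
    rw [dslope_same]
    have h1 : HasDerivAt C1_g ((Real.pi : ℂ) - ((-Real.pi : ℝ) : ℂ)) 0 := by
      have h2 : HasDerivAt (fun m : ℂ => exp (m * Real.pi)) (Real.pi : ℂ) 0 := by
        have := ((hasDerivAt_id (0 : ℂ)).mul_const (Real.pi : ℂ)).cexp
        simpa using this
      have h3 : HasDerivAt (fun m : ℂ => exp (m * (-Real.pi : ℝ))) ((-Real.pi : ℝ) : ℂ) 0 := by
        have := ((hasDerivAt_id (0 : ℂ)).mul_const ((-Real.pi : ℝ) : ℂ)).cexp
        simpa using this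
      exact h2.sub h3
    rw [h1.deriv]
    simp only [zero_mul, exp_zero, intervalIntegral.integral_const]
    rw [Complex.real_smul]
    push_cast
    ring
  · rw [integral_exp_mul_complex hm, dslope_of_ne _ hm, slope_def_field]
    have h0 : C1_g 0 = 0 := by
      unfold C1_g
      simp
    rw [h0, sub_zero, sub_zero]
    rfl

theorem C1_fac {b : ℝ} {z : ℂ} (h : be b z ≠ 0) (t : ℝ) :
    be b (z + t * I) / be b z = Pc b z * exp (t * I) + (1 - Pc b z) := by
  have h1 : be b (z + t * I) = b * exp z * exp (t * I) + (be b z - b * exp z) := by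
    unfold be
    rw [exp_add]
    ring
  rw [h1]
  unfold Pc
  field_simp

/-- the explicit form of `Ψ` -/
noncomputable def C1_F (b : Fin n → ℝ) (z : ℂ) : ℂ :=
  (1 / (2 * (Real.pi : ℂ))) * ∑ A ∈ (Finset.univ : Finset (Fin n)).powerset,
    ((∏ c ∈ A, Pc (b c) z) * ∏ c ∈ Finset.univ \ A, (1 - Pc (b c) z)) *
      dslope C1_g 0 (((A.card : ℂ) - mu b z) * I)

theorem C1_Psi (hb : Ok b) {z : ℂ} (hz : |z.im| < Real.pi) : Psi b z = C1_F b z := by
  unfold Psi C1_F
  congr 1
  have h1 : ∀ t : ℝ, Rr b z t = ∑ A ∈ (Finset.univ : Finset (Fin n)).powerset,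
      ((∏ c ∈ A, Pc (b c) z) * ∏ c ∈ Finset.univ \ A, (1 - Pc (b c) z)) *
        exp ((((A.card : ℂ) - mu b z) * I) * (t : ℂ)) := by
    intro t
    unfold Rr
    rw [Finset.prod_congr rfl fun c _ => C1_fac (be_ne_zero (hb c).1 (hb c).2 hz) t,
      Finset.prod_add, Finset.sum_mul]
    refine Finset.sum_congr rfl fun A _ => ?_
    rw [Finset.prod_mul_distrib, Finset.prod_const, ← exp_nat_mul]
    have h2 : exp ((((A.card : ℂ) - mu b z) * I) * (t : ℂ))
        = exp ((A.card : ℂ) * ((t : ℂ) * I)) * exp (-(mu b z * t * I)) := by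
      rw [← exp_add]
      congr 1
      ring
    rw [h2]
    ring
  simp only [h1]
  rw [intervalIntegral.integral_finsetSum]
  · refine Finset.sum_congr rfl fun A _ => ?_
    rw [intervalIntegral.integral_const_mul, C1_phi]
  · intro A _
    refine Continuous.intervalIntegrable ?_ _ _
    fun_prop

/-- PROOF. `R_z(t)` is holomorphic in `z` on the open strip (`be b z ≠ 0`, `be b (z + it)` entire, `mu` differentiable) and jointly continuous
in `(z, t)`; its `z`-derivative is jointly continuous, hence bounded on `closedBall z₀ r × [-π, π]`. Differentiate under the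
integral sign (`intervalIntegral.hasDerivAt_integral_of_dominated_loc_of_deriv_le`), or: `Ψ` is continuous and its integral over
small triangles/rectangles vanishes by Fubini. (To avoid computing derivatives one may bound `deriv (fun z => Rr b z t)` on the
ball of radius `r/2` by the Cauchy estimate from the bound of `R` on the ball of radius `r`.) -/
theorem differentiableAt_Psi (hb : Ok b) {z : ℂ} (hz : |z.im| < Real.pi) :
    DifferentiableAt ℂ (Psi b) z := by
  have hP : ∀ c, DifferentiableAt ℂ (Pc (b c)) z := by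
    intro c
    have h1 : DifferentiableAt ℂ (be (b c)) z := by
      unfold be
      fun_prop
    have h2 : DifferentiableAt ℂ (fun z => (b c : ℂ) * exp z) z := by fun_prop
    exact h2.div h1 (be_ne_zero (hb c).1 (hb c).2 hz)
  have hmu : DifferentiableAt ℂ (mu b) z := by
    unfold mu
    exact DifferentiableAt.fun_sum fun c _ => hP c
  have hg : Differentiable ℂ (dslope C1_g 0) := by
    have h1 := (Complex.differentiableOn_dslope (f := C1_g) (c := 0) (s := Set.univ)
      Filter.univ_mem).2 C1_g_diff.differentiableOn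
    exact differentiableOn_univ.1 h1
  have hF : DifferentiableAt ℂ (C1_F b) z := by
    unfold C1_F
    refine DifferentiableAt.const_mul ?_ _
    refine DifferentiableAt.fun_sum fun A _ => ?_
    refine DifferentiableAt.mul ?_ ?_
    · refine DifferentiableAt.mul ?_ ?_
      · exact DifferentiableAt.fun_finsetProd fun c _ => hP c
      · exact DifferentiableAt.fun_finsetProd fun c _ => (differentiableAt_const _).sub (hP c)
    · exact (hg _).comp z (((differentiableAt_const _).sub hmu).mul_const I)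
  refine hF.congr_of_eventuallyEq ?_
  have ho : IsOpen {w : ℂ | |w.im| < Real.pi} :=
    isOpen_lt (continuous_abs.comp continuous_im) continuous_const
  filter_upwards [ho.mem_nhds hz] with w hw
  exact C1_Psi hb hw

end Pool.Agent.LP
end

section

set_option autoImplicit false

/-! # C1b: `G` is holomorphic for `|Im z| < π/2`; conjugation symmetry -/

namespace Pool.Agent.LP

open Complex MeasureTheory

variable {n : ℕ} {b : Fin n → ℝ}

theorem W_pos (hb : Ok b) (hn : 0 < n) (x : ℝ) : 0 < W b x := by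
  unfold W
  exact Finset.sum_pos (fun c _ => xr_pos (hb c).1 (hb c).2 x) ⟨⟨0, hn⟩, Finset.mem_univ _⟩

theorem C1b_slit (hb : Ok b) (hn : 0 < n) {z : ℂ} (hz : |z.im| < Real.pi / 2) :
    vv b z ∈ slitPlane := by
  left
  have h1 := re_vv_ge hb hz.le
  have h2 : 0 < Real.cos z.im := Real.cos_pos_of_mem_Ioo ⟨(abs_lt.1 hz).1, (abs_lt.1 hz).2⟩
  exact lt_of_lt_of_le (mul_pos (W_pos hb hn _) h2) h1

/-- PROOF. `Re v ≥ W cos(Im z) > 0`, so `log v` is differentiable. -/
theorem differentiableAt_Gf (hb : Ok b) (hn : 0 < n) {z : ℂ} (hz : |z.im| < Real.pi / 2) :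
    DifferentiableAt ℂ (Gf b) z := by
  have hz' : |z.im| < Real.pi := hz.trans (by linarith [Real.pi_pos])
  have hv : DifferentiableAt ℂ (vv b) z := by
    unfold vv
    refine DifferentiableAt.fun_sum fun c _ => ?_
    unfold yc
    have h1 : DifferentiableAt ℂ (be (b c)) z := by
      unfold be
      fun_prop
    have h2 : DifferentiableAt ℂ (fun z => (b c : ℂ) * (1 - (b c : ℂ)) * exp z) z := by fun_prop
    exact h2.div (h1.pow 2) (pow_ne_zero _ (be_ne_zero (hb c).1 (hb c).2 hz'))
  unfold Gf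
  exact (((hv.clog (C1b_slit hb hn hz)).div_const 2).cexp.const_mul _).mul
    (differentiableAt_Psi hb hz')

theorem C1b_be_conj (b : ℝ) (z : ℂ) : be b ((starRingEnd ℂ) z) = (starRingEnd ℂ) (be b z) := by
  unfold be
  rw [exp_conj]
  simp

/-- PROOF. `Rr b (conj z) t = conj (Rr b z (-t))`; substitute `t → -t`, `integral_conj`. -/
theorem Psi_conj (hb : Ok b) {z : ℂ} (hz : |z.im| < Real.pi) :
    Psi b ((starRingEnd ℂ) z) = (starRingEnd ℂ) (Psi b z) := by
  have h1 : ∀ t : ℝ, Rr b ((starRingEnd ℂ) z) t = (starRingEnd ℂ) (Rr b z (-t)) := by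
    intro t
    unfold Rr
    rw [map_mul, map_prod, ← exp_conj, mu_conj]
    congr 1
    · refine Finset.prod_congr rfl fun c _ => ?_
      rw [map_div₀, ← C1b_be_conj, ← C1b_be_conj]
      congr 2
      rw [map_add, map_mul, conj_ofReal, conj_I]
      push_cast
      ring
    · congr 1
      rw [map_neg, map_mul, map_mul, conj_ofReal, conj_I]
      push_cast
      ring
  unfold Psi
  rw [map_mul]
  congr 1
  · rw [map_div₀, map_one, map_mul, conj_ofReal, conj_ofNat]
  · simp only [h1]
    have h2 : (-Real.pi) ≤ Real.pi := by linarith [Real.pi_pos]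
    have h3 := intervalIntegral.integral_comp_neg (a := -Real.pi) (b := Real.pi)
      (fun t => (starRingEnd ℂ) (Rr b z t))
    rw [h3, neg_neg, intervalIntegral.integral_of_le h2, intervalIntegral.integral_of_le h2]
    exact integral_conj

theorem Gf_conj (hb : Ok b) (hn : 0 < n) {z : ℂ} (hz : |z.im| < Real.pi / 2) :
    Gf b ((starRingEnd ℂ) z) = (starRingEnd ℂ) (Gf b z) := by
  have hz' : |z.im| < Real.pi := hz.trans (by linarith [Real.pi_pos])
  unfold Gf
  rw [map_mul, map_mul, Psi_conj hb hz', vv_conj, log_conj _ (slitPlane_arg_ne_pi (C1b_slit hb hn hz)),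
    conj_ofReal, ← exp_conj, map_div₀, conj_ofNat]

/-- PROOF. `Complex.log_conj`; the hypothesis keeps `G` in the slit plane. -/
theorem lg_conj (hb : Ok b) (hn : 0 < n) {z : ℂ} (hz : |z.im| < Real.pi / 2)
    (hG : ‖Gf b z - 1‖ ≤ 0.05) :
    lg b ((starRingEnd ℂ) z) = (starRingEnd ℂ) (lg b z) := by
  have h1 : Gf b z ∈ slitPlane := by
    left
    have h2 := (abs_re_le_norm (Gf b z - 1)).trans hG
    rw [sub_re, one_re, abs_le] at h2
    norm_num at h2
    linarith [h2.1]
  unfold lg
  rw [map_sub, map_div₀, Gf_conj hb hn hz, vv_conj, log_conj _ (slitPlane_arg_ne_pi h1),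
    log_conj _ (slitPlane_arg_ne_pi (C1b_slit hb hn hz)), conj_ofNat]

end Pool.Agent.LP
end

section

set_option autoImplicit false

/-! # C2: the value of `Ψ` at the integers -/

namespace Pool.Agent.LP

open Complex MeasureTheory

variable {n : ℕ} {b : Fin n → ℝ}

theorem C2_deg (b : Fin n → ℝ) :
    (∏ c, (Polynomial.C (1 - b c) + Polynomial.C (b c) * Polynomial.X)).natDegree < n + 1 := by
  have h1 : (∏ c, (Polynomial.C (1 - b c) + Polynomial.C (b c) * Polynomial.X)).natDegree ≤
      ∑ c : Fin n, (Polynomial.C (1 - b c) + Polynomial.C (b c) * Polynomial.X).natDegree :=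
    Polynomial.natDegree_prod_le _ _
  have h2 : ∑ c : Fin n, (Polynomial.C (1 - b c) + Polynomial.C (b c) * Polynomial.X).natDegree ≤
      ∑ _c : Fin n, 1 := by
    refine Finset.sum_le_sum fun c _ => ?_
    rw [add_comm]
    exact Polynomial.natDegree_linear_le
  have h3 : (∑ _c : Fin n, 1) = n := by simp
  omega

theorem C2_uu_zero (b : Fin n → ℝ) {j : ℕ} (hj : n < j) : uu b j = 0 := by
  have h := C2_deg b
  exact Polynomial.coeff_eq_zero_of_natDegree_lt (by omega)

theorem C2_int (m : ℤ) : (∫ t in (-Real.pi)..Real.pi, exp ((m : ℂ) * (t : ℂ) * I)) =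
    if m = 0 then 2 * (Real.pi : ℂ) else 0 := by
  by_cases hm : m = 0
  · subst hm
    rw [if_pos rfl]
    simp only [Int.cast_zero, zero_mul, exp_zero, intervalIntegral.integral_const]
    rw [sub_neg_eq_add, Complex.real_smul, mul_one]
    push_cast
    ring
  · rw [if_neg hm]
    have hc : (m : ℂ) * I ≠ 0 := mul_ne_zero (Int.cast_ne_zero.2 hm) I_ne_zero
    have h1 : (∫ t in (-Real.pi)..Real.pi, exp ((m : ℂ) * (t : ℂ) * I)) =
        ∫ t in (-Real.pi)..Real.pi, exp ((m : ℂ) * I * (t : ℂ)) := by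
      refine intervalIntegral.integral_congr fun t _ => ?_
      show exp ((m : ℂ) * (t : ℂ) * I) = exp ((m : ℂ) * I * (t : ℂ))
      congr 1
      ring
    rw [h1, integral_exp_mul_complex hc]
    have h2 : exp ((m : ℂ) * I * (Real.pi : ℂ)) = exp ((m : ℂ) * I * ((-Real.pi : ℝ) : ℂ)) := by
      have h3 : (m : ℂ) * I * (Real.pi : ℂ) =
          (m : ℂ) * I * ((-Real.pi : ℝ) : ℂ) + (m : ℂ) * (2 * (Real.pi : ℂ) * I) := by
        push_cast
        ring
      rw [h3, exp_add, exp_int_mul_two_pi_mul_I, mul_one]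
    rw [h2, sub_self, zero_div]

theorem C2_be_real (hb : Ok b) (x : ℝ) (c : Fin n) : be (b c) (x : ℂ) ≠ 0 := by
  obtain ⟨h0, h1⟩ := hb c
  have h : be (b c) (x : ℂ) = ((1 - b c + b c * Real.exp x : ℝ) : ℂ) := by
    unfold be
    push_cast
    rfl
  rw [h, Complex.ofReal_ne_zero]
  have h2 := mul_pos h0 (Real.exp_pos x)
  intro h3
  linarith

theorem C2_exp_Lam (hb : Ok b) (x : ℝ) : exp (Lam b x) = ∏ c, be (b c) (x : ℂ) := by
  unfold Lam
  rw [exp_sum]
  exact Finset.prod_congr rfl fun c _ => exp_log (C2_be_real hb x c)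

/-- PROOF. Evaluate the polynomial `∏ (C (1-b_c) + C b_c X)` (degree `≤ n`) at `e^z`. -/
theorem prod_be_eq (b : Fin n → ℝ) (z : ℂ) :
    ∏ c, be (b c) z = ∑ k ∈ Finset.range (n + 1), (uu b k : ℂ) * exp (k * z) := by
  have h1 := Polynomial.eval₂_eq_sum_range' (Complex.ofRealHom) (C2_deg b) (exp z)
  rw [Polynomial.eval₂_finsetProd] at h1
  have h2 : ∀ c, Polynomial.eval₂ Complex.ofRealHom (exp z)
      (Polynomial.C (1 - b c) + Polynomial.C (b c) * Polynomial.X) = be (b c) z := by
    intro c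
    simp [be]
  rw [Finset.prod_congr rfl fun c _ => h2 c] at h1
  rw [h1]
  refine Finset.sum_congr rfl fun k _ => ?_
  rw [exp_nat_mul]
  rfl

/-- PROOF. `∏ be(x + it)/be(x) = (∑_k u_k e^{k(x+it)})/∏ be(x)`, `∏ be(x) = exp (Λ(x))`, and
`∫_{-π}^{π} e^{i(k-j)t} dt = 2π δ_{jk}` (for `j > n` both sides are `0`). -/
theorem uu_eq (hb : Ok b) (j : ℕ) (x : ℝ) (hx : mu b (x : ℂ) = (j : ℂ)) :
    (uu b j : ℂ) = exp (Lam b x - j * x) * Psi b x := by
  have hE : exp (Lam b x) ≠ 0 := exp_ne_zero _
  have hR : ∀ t : ℝ, exp (Lam b x - j * x) * Rr b x t =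
      ∑ k ∈ Finset.range (n + 1), (uu b k : ℂ) * exp (((k : ℂ) - j) * x) *
        exp ((((k : ℤ) - (j : ℤ) : ℤ) : ℂ) * (t : ℂ) * I) := by
    intro t
    unfold Rr
    rw [Finset.prod_div_distrib, ← C2_exp_Lam hb x, prod_be_eq, hx, exp_sub, Finset.sum_div,
      Finset.sum_mul, Finset.mul_sum]
    refine Finset.sum_congr rfl fun k _ => ?_
    have h1 : exp (Lam b x) / exp (j * x) * ((uu b k : ℂ) * exp (k * (x + t * I)) /
        exp (Lam b x) * exp (-((j : ℂ) * t * I))) =
        (uu b k : ℂ) * (exp (k * (x + t * I)) * exp (-((j : ℂ) * t * I)) / exp (j * x)) := by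
      field_simp
    rw [h1, ← exp_add, ← exp_sub, mul_assoc (uu b k : ℂ), ← exp_add]
    congr 2
    push_cast
    ring
  have hP : exp (Lam b x - j * x) * Psi b x = (1 / (2 * (Real.pi : ℂ))) *
      ∫ t in (-Real.pi)..Real.pi, exp (Lam b x - j * x) * Rr b x t := by
    unfold Psi
    rw [intervalIntegral.integral_const_mul]
    ring
  have hpi : (2 * (Real.pi : ℂ)) ≠ 0 := by
    have := Real.pi_ne_zero
    exact mul_ne_zero two_ne_zero (Complex.ofReal_ne_zero.2 this)
  have hI : (∫ t in (-Real.pi)..Real.pi, exp (Lam b x - j * x) * Rr b x t) =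
      ∑ k ∈ Finset.range (n + 1), (uu b k : ℂ) * exp (((k : ℂ) - j) * x) *
        (if ((k : ℤ) - (j : ℤ) : ℤ) = 0 then 2 * (Real.pi : ℂ) else 0) := by
    rw [intervalIntegral.integral_congr fun t _ => hR t]
    rw [intervalIntegral.integral_finsetSum]
    · refine Finset.sum_congr rfl fun k _ => ?_
      rw [intervalIntegral.integral_const_mul, C2_int]
    · intro k _
      apply Continuous.intervalIntegrable
      fun_prop
  rw [hP, hI]
  by_cases hj : j ≤ n
  · rw [Finset.sum_eq_single j]
    · rw [if_pos (sub_self _), sub_self, zero_mul, exp_zero, mul_one, one_div,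
        mul_comm (uu b j : ℂ), inv_mul_cancel_left₀ hpi]
    · intro k _ hk
      rw [if_neg (by omega), mul_zero]
    · intro h
      rw [Finset.mem_range] at h
      omega
  · rw [C2_uu_zero b (by omega), Finset.sum_eq_zero, mul_zero, Complex.ofReal_zero]
    intro k hk
    rw [Finset.mem_range] at hk
    rw [if_neg (by omega), mul_zero]

end Pool.Agent.LP
end
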