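import Pool.Agent.Lib.MP_f91407_an.Mg.G007
import Pool.Agent.Lib.MP_f91407_an.Mg.G008

section

set_option autoImplicit false

/-! # C3a: bounds for `W` and Cauchy estimates for `G` -/

namespace Pool.Agent.LP

open Complex MeasureTheory

variable {n : ℕ} {b : Fin n → ℝ} {p : ℝ}

theorem Big.n_pos (h : Big p b) : 0 < n := by
  rcases Nat.eq_zero_or_pos n with h0 | h0
  · exfalso
    subst h0
    have h1 := h.hV
    have h2 := h.hp
    rw [Vz, Finset.univ_eq_empty, Finset.sum_empty] at h1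
    linarith
  · exact h0

/-- PROOF. `W b 0 = V ≤ e^{|x|} W b x` (`W_le_exp`), `V ≥ 0.65 * 64 = 41.6`, `41.6 e^{-0.405} ≥ 27.7`. -/
theorem W_ge27 (h : Big p b) {x : ℝ} (hx : |x| ≤ 0.405) : 27 ≤ W b x := by
  have h1 := W_le_exp h.ok x 0
  rw [W_zero, zero_sub, abs_neg] at h1
  have h2 := h.hV
  have h3 := h.hp
  have h4 : Real.exp |x| ≤ 1.54 := by
    refine (Real.exp_le_exp.2 hx).trans ?_
    refine (Real.exp_bound' (by norm_num) (by norm_num) (n := 4) (by norm_num)).trans ?_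
    norm_num [Finset.sum_range_succ, Nat.factorial]
  have h5 := W_nonneg h.ok x
  have h6 : Real.exp |x| * W b x ≤ 1.54 * W b x := mul_le_mul_of_nonneg_right h4 h5
  linarith

/-- PROOF. `e^{-0.155} ≥ 0.8564`, `e^{0.155} ≤ 1.1677`. -/
theorem W_bd (h : Big p b) {x : ℝ} (hx : |x| ≤ 0.155) :
    0.856 * Vz b ≤ W b x ∧ W b x ≤ 1.168 * Vz b := by
  have h1 := W_le_exp h.ok x 0
  have h2 := W_le_exp h.ok 0 x
  rw [W_zero, zero_sub, abs_neg] at h1
  rw [W_zero, sub_zero] at h2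
  have h4 : Real.exp |x| ≤ 1.168 := by
    refine (Real.exp_le_exp.2 hx).trans ?_
    refine (Real.exp_bound' (by norm_num) (by norm_num) (n := 5) (by norm_num)).trans ?_
    norm_num [Finset.sum_range_succ, Nat.factorial]
  have h5 := W_nonneg h.ok x
  have h6 : Real.exp |x| * W b x ≤ 1.168 * W b x := mul_le_mul_of_nonneg_right h4 h5
  have h7 : 0 ≤ Vz b := by
    rw [← W_zero]
    exact W_nonneg h.ok 0
  have h8 : Real.exp |x| * Vz b ≤ 1.168 * Vz b := mul_le_mul_of_nonneg_right h4 h7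
  exact ⟨by linarith, by linarith⟩

/-- PROOF. The ball of radius `0.25` around `z` lies in `|Re| ≤ 0.405`, `|Im| ≤ 0.3`, where `‖G - 1‖ ≤ 0.05` (`Gf_bd`, `W_ge27`) and `G` is holomorphic.
Cauchy estimates for `G - 1`: `‖G'‖ ≤ 0.05/0.25 = 0.2`, `‖G''‖ ≤ 2 * 0.05/0.25² = 1.6`
(`Complex.norm_iteratedDeriv_le_of_forall_mem_sphere_norm_le` or `Complex.norm_deriv_le_of_forall_mem_sphere_norm_le`). -/
theorem Gf_inner (h : Big p b) {z : ℂ} (hz : Rg z) :
    ‖Gf b z - 1‖ ≤ 0.05 ∧ ‖deriv (Gf b) z‖ ≤ 0.2 ∧ ‖deriv (deriv (Gf b)) z‖ ≤ 1.6 := by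
  obtain ⟨hz1, hz2⟩ := hz
  have hb1 : ∀ w ∈ Metric.closedBall z 0.25, |w.re| ≤ 0.405 ∧ |w.im| ≤ 0.3 := by
    intro w hw
    rw [mem_closedBall_iff_norm] at hw
    have h1 := (Complex.abs_re_le_norm (w - z)).trans hw
    have h2 := (Complex.abs_im_le_norm (w - z)).trans hw
    rw [Complex.sub_re, abs_le] at h1
    rw [Complex.sub_im, abs_le] at h2
    rw [abs_le] at hz1 hz2
    rw [abs_le, abs_le]
    refine ⟨⟨?_, ?_⟩, ?_, ?_⟩ <;> linarith [h1.1, h1.2, h2.1, h2.2, hz1.1, hz1.2, hz2.1, hz2.2]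
  have hb2 : ∀ w ∈ Metric.closedBall z 0.25, ‖Gf b w - 1‖ ≤ 0.05 := fun w hw =>
    Gf_bd h.ok (hb1 w hw).2 (W_ge27 h (hb1 w hw).1)
  have hb3 : ∀ w ∈ Metric.closedBall z 0.25, DifferentiableAt ℂ (fun w => Gf b w - 1) w := by
    intro w hw
    refine (differentiableAt_Gf h.ok h.n_pos ?_).sub_const 1
    have := (hb1 w hw).2
    have := Real.pi_gt_three
    linarith
  have hd : DiffContOnCl ℂ (fun w => Gf b w - 1) (Metric.ball z 0.25) := by
    apply DifferentiableOn.diffContOnCl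
    intro w hw
    exact (hb3 w (Metric.closure_ball_subset_closedBall hw)).differentiableWithinAt
  have hs : ∀ w ∈ Metric.sphere z 0.25, ‖(fun w => Gf b w - 1) w‖ ≤ 0.05 := fun w hw =>
    hb2 w (Metric.sphere_subset_closedBall hw)
  have hderiv : deriv (fun w => Gf b w - 1) = deriv (Gf b) := by
    funext w
    exact deriv_sub_const (f := Gf b) 1
  refine ⟨hb2 z (Metric.mem_closedBall_self (by norm_num)), ?_, ?_⟩
  · have h1 := Complex.norm_deriv_le_of_forall_mem_sphere_norm_le (by norm_num) hd hs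
    rw [hderiv] at h1
    refine h1.trans ?_
    norm_num
  · have h1 := Complex.norm_iteratedDeriv_le_of_forall_mem_sphere_norm_le 2 (by norm_num) hd hs
    rw [iteratedDeriv_succ, iteratedDeriv_one, hderiv] at h1
    refine h1.trans ?_
    norm_num [Nat.factorial]

end Pool.Agent.LP
end

section

set_option autoImplicit false

/-! # C3b: `lg` and its derivative -/

namespace Pool.Agent.LP

open Complex MeasureTheory

variable {n : ℕ} {b : Fin n → ℝ} {p : ℝ}

private theorem C3b_im {z : ℂ} (hz : Rg z) : |z.im| < Real.pi / 2 := by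
  have := hz.2
  have := Real.pi_gt_three
  linarith

private theorem C3b_im' {z : ℂ} (hz : Rg z) : |z.im| < Real.pi := by
  have := hz.2
  have := Real.pi_gt_three
  linarith

private theorem C3b_re (h : Big p b) {z : ℂ} (hz : Rg z) : 0 < (vv b z).re := by
  have h1 := (norm_vv_le5 h.ok hz.2).2.2.2
  have h2 := W_pos h.ok h.n_pos z.re
  nlinarith

private theorem C3b_G_re (h : Big p b) {z : ℂ} (hz : Rg z) : 0.95 ≤ (Gf b z).re := by
  have h1 := (Gf_inner h hz).1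
  have h2 := (Complex.abs_re_le_norm (Gf b z - 1)).trans h1
  rw [sub_re, one_re] at h2
  have := (abs_le.1 h2).1
  linarith

private theorem C3b_G_norm (h : Big p b) {z : ℂ} (hz : Rg z) : 0.95 ≤ ‖Gf b z‖ :=
  (C3b_G_re h hz).trans ((le_abs_self _).trans (Complex.abs_re_le_norm _))

theorem hasDerivAt_lg (h : Big p b) {z : ℂ} (hz : Rg z) :
    HasDerivAt (lg b) (ell b z) z := by
  have h1 : HasDerivAt (Gf b) (deriv (Gf b) z) z :=
    (differentiableAt_Gf h.ok h.n_pos (C3b_im hz)).hasDerivAt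
  have hG : Gf b z ∈ slitPlane := Or.inl (by have := C3b_G_re h hz; linarith)
  have hv : vv b z ∈ slitPlane := Or.inl (C3b_re h hz)
  have h2 := h1.clog hG
  have h3 := (hasDerivAt_vv h.ok (C3b_im' hz)).clog hv
  have h4 := h2.sub (h3.div_const 2)
  have hv0 : vv b z ≠ 0 := slitPlane_ne_zero hv
  have e : ell b z = deriv (Gf b) z / Gf b z - vv1 b z / vv b z / 2 := by
    unfold ell
    field_simp
  rw [e]
  exact h4

theorem exp_lg (h : Big p b) {z : ℂ} (hz : Rg z) :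
    exp (lg b z) = (Real.sqrt (2 * Real.pi) : ℂ) * Psi b z := by
  have hG : Gf b z ≠ 0 := by
    intro h0
    have := C3b_G_norm h hz
    rw [h0, norm_zero] at this
    linarith
  unfold lg
  rw [Complex.exp_sub, Complex.exp_log hG]
  unfold Gf
  field_simp [Complex.exp_ne_zero]

private theorem C3b_q (h : Big p b) {z : ℂ} (hz : Rg z) : ‖vv1 b z / vv b z‖ ≤ 1.001 / 0.998 := by
  obtain ⟨_, h2, _, h4⟩ := norm_vv_le5 h.ok hz.2
  have h3 := W_pos h.ok h.n_pos z.re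
  have h5 : 0.998 * W b z.re ≤ ‖vv b z‖ := h4.trans ((le_abs_self _).trans (abs_re_le_norm _))
  rw [norm_div, div_le_div_iff₀ (by nlinarith) (by norm_num)]
  nlinarith

private theorem C3b_q2 (h : Big p b) {z : ℂ} (hz : Rg z) : ‖vv2 b z / vv b z‖ ≤ 1.001 / 0.998 := by
  obtain ⟨_, _, h2, h4⟩ := norm_vv_le5 h.ok hz.2
  have h3 := W_pos h.ok h.n_pos z.re
  have h5 : 0.998 * W b z.re ≤ ‖vv b z‖ := h4.trans ((le_abs_self _).trans (abs_re_le_norm _))
  rw [norm_div, div_le_div_iff₀ (by nlinarith) (by norm_num)]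
  nlinarith

private theorem C3b_GG (h : Big p b) {z : ℂ} (hz : Rg z) :
    ‖deriv (Gf b) z / Gf b z‖ ≤ 0.2 / 0.95 := by
  have h1 := (Gf_inner h hz).2.1
  have h2 := C3b_G_norm h hz
  rw [norm_div, div_le_div_iff₀ (by linarith) (by norm_num)]
  nlinarith [norm_nonneg (deriv (Gf b) z)]

private theorem C3b_half (h : Big p b) {z : ℂ} (hz : Rg z) :
    vv1 b z / (2 * vv b z) = (vv1 b z / vv b z) / 2 := by
  have hv0 : vv b z ≠ 0 := slitPlane_ne_zero (Or.inl (C3b_re h hz))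
  field_simp

theorem norm_ell_le (h : Big p b) {z : ℂ} (hz : Rg z) : ‖ell b z‖ ≤ 0.713 := by
  unfold ell
  rw [C3b_half h hz]
  have h1 := C3b_GG h hz
  have h2 := C3b_q h hz
  refine (norm_sub_le _ _).trans ?_
  have h3 : ‖vv1 b z / vv b z / 2‖ = ‖vv1 b z / vv b z‖ / 2 := by
    rw [norm_div _ (2 : ℂ)]; simp
  rw [h3]
  norm_num at h1 h2 ⊢
  linarith

theorem hasDerivAt_quot (h : Big p b) {z : ℂ} (hz : Rg z) :
    ∃ d : ℂ, HasDerivAt (fun w => vv1 b w / vv b w) d z ∧ ‖d‖ ≤ 2.01 := by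
  have hv0 : vv b z ≠ 0 := slitPlane_ne_zero (Or.inl (C3b_re h hz))
  have h1 := (hasDerivAt_vv1 h.ok (C3b_im' hz)).div (hasDerivAt_vv h.ok (C3b_im' hz)) hv0
  refine ⟨_, h1, ?_⟩
  have e : (vv2 b z * vv b z - vv1 b z * vv1 b z) / vv b z ^ 2 =
      vv2 b z / vv b z - (vv1 b z / vv b z) * (vv1 b z / vv b z) := by
    field_simp
  rw [e]
  refine (norm_sub_le _ _).trans ?_
  rw [norm_mul]
  have h2 := C3b_q h hz
  have h3 := C3b_q2 h hz
  have h4 := norm_nonneg (vv1 b z / vv b z)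
  have h5 : ‖vv1 b z / vv b z‖ * ‖vv1 b z / vv b z‖ ≤ (1.001 / 0.998) * (1.001 / 0.998) :=
    mul_le_mul h2 h2 h4 (by norm_num)
  norm_num at h3 h5 ⊢
  linarith

theorem ell_im_le (h : Big p b) {z : ℂ} (hz : Rg z) : |(ell b z).im| ≤ 0.262 := by
  -- quotient along the vertical segment
  have hseg : ∀ y ∈ Set.uIcc 0 z.im, Rg ((z.re : ℂ) + y * I) := by
    intro y hy
    refine ⟨by simpa using hz.1, ?_⟩
    simp only [add_im, ofReal_im, mul_im, ofReal_re, I_im, mul_one, I_re, mul_zero, add_zero,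
      zero_add]
    have h1 : |y| ≤ |z.im| := by
      rcases Set.mem_uIcc.1 hy with h | h
      · rw [abs_of_nonneg h.1]; exact h.2.trans (le_abs_self _)
      · rw [abs_of_nonpos h.2]; exact (neg_le_neg h.1).trans (neg_le_abs _)
    exact h1.trans hz.2
  have hder : ∀ y ∈ Set.uIcc 0 z.im, DifferentiableAt ℝ
      (fun y : ℝ => vv1 b ((z.re : ℂ) + y * I) / vv b ((z.re : ℂ) + y * I)) y ∧
      ‖deriv (fun y : ℝ => vv1 b ((z.re : ℂ) + y * I) / vv b ((z.re : ℂ) + y * I)) y‖ ≤ 2.01 := by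
    intro y hy
    obtain ⟨d, hd, hd2⟩ := hasDerivAt_quot h (hseg y hy)
    have h1 : HasDerivAt (fun y : ℝ => ((z.re : ℂ) + y * I)) (1 * I) y :=
      ((hasDerivAt_id (y : ℝ)).ofReal_comp.mul_const I).const_add _
    have h2 : HasDerivAt (fun y : ℝ => vv1 b ((z.re : ℂ) + y * I) / vv b ((z.re : ℂ) + y * I))
      (d * (1 * I)) y :=
      HasDerivAt.comp (h₂ := fun w : ℂ => vv1 b w / vv b w)
        (h := fun y : ℝ => ((z.re : ℂ) + y * I)) y hd h1
    refine ⟨h2.differentiableAt, ?_⟩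
    rw [h2.deriv, norm_mul, norm_mul, norm_I, norm_one]
    linarith
  have hmv := Convex.norm_image_sub_le_of_norm_deriv_le (fun y hy => (hder y hy).1)
    (fun y hy => (hder y hy).2) (convex_uIcc 0 z.im) Set.left_mem_uIcc Set.right_mem_uIcc
  have hz1 : (z.re : ℂ) + (z.im : ℂ) * I = z := re_add_im z
  rw [hz1] at hmv
  have hreal : (vv1 b ((z.re : ℂ) + ((0 : ℝ) : ℂ) * I) / vv b ((z.re : ℂ) + ((0 : ℝ) : ℂ) * I)).im
      = 0 := by
    rw [ofReal_zero, zero_mul, add_zero, vv_ofReal h.ok, div_ofReal_im, vv1_ofReal_im, zero_div]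
  have him := (abs_im_le_norm _).trans hmv
  rw [sub_im, hreal, sub_zero] at him
  have hzi : ‖z.im - 0‖ ≤ 0.05 := by
    rw [sub_zero, Real.norm_eq_abs]; exact hz.2
  have him2 : |(vv1 b z / vv b z).im| ≤ 2.01 * 0.05 :=
    him.trans (mul_le_mul_of_nonneg_left hzi (by norm_num))
  unfold ell
  rw [C3b_half h hz, sub_im]
  have h1 := (abs_im_le_norm _).trans (C3b_GG h hz)
  have h2 : (vv1 b z / vv b z / 2).im = (vv1 b z / vv b z).im / 2 := by
    rw [show (2 : ℂ) = ((2 : ℝ) : ℂ) by simp, div_ofReal_im]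
  rw [h2]
  refine (abs_sub _ _).trans ?_
  rw [abs_div]
  norm_num at h1 him2 ⊢
  linarith

end Pool.Agent.LP
end

section

set_option autoImplicit false

/-! # C3c: the function `n` -/

namespace Pool.Agent.LP

open Complex MeasureTheory

variable {n : ℕ} {b : Fin n → ℝ} {p : ℝ}

theorem C3c_eq (w : ℂ) : nn p b w = p * (deriv (Gf b) w / Gf b w)
    - (p / 2 - 1 : ℂ) * (vv1 b w / vv b w) := by
  have h1 : vv1 b w / (2 * vv b w) = (1 / 2) * (vv1 b w / vv b w) := by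
    rw [div_mul_div_comm, one_mul]
  unfold nn ell
  rw [h1]
  ring

theorem C3c_G0 (h : Big p b) {z : ℂ} (hz : Rg z) : 0.95 ≤ ‖Gf b z‖ := by
  have h1 := (Gf_inner h hz).1
  have h2 : ‖(1 : ℂ)‖ ≤ ‖Gf b z‖ + ‖Gf b z - 1‖ := by
    have := norm_sub_le (Gf b z) (Gf b z - 1)
    rwa [sub_sub_cancel] at this
  rw [norm_one] at h2
  linarith

theorem C3c_G (h : Big p b) {z : ℂ} (hz : Rg z) : ‖deriv (Gf b) z / Gf b z‖ ≤ 0.2106 ∧
    0.95 ≤ ‖Gf b z‖ := by
  have h0 := C3c_G0 h hz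
  refine ⟨?_, h0⟩
  have h1 := (Gf_inner h hz).2.1
  rw [norm_div, div_le_iff₀ (by linarith)]
  nlinarith

theorem C3c_W (h : Big p b) (z : ℂ) : 0 < W b z.re :=
  W_pos h.ok h.n_pos _

theorem C3c_quot (h : Big p b) {z : ℂ} (hz : Rg z) : ‖vv1 b z / vv b z‖ ≤ 1.0031 := by
  obtain ⟨-, h1, -, h2⟩ := norm_vv_le5 h.ok hz.2
  have hW := C3c_W h z
  have h3 : 0.998 * W b z.re ≤ ‖vv b z‖ := h2.trans ((le_abs_self _).trans (abs_re_le_norm _))
  rw [norm_div, div_le_iff₀ (by nlinarith)]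
  nlinarith

theorem C3c_im (h : Big p b) {z : ℂ} (hz : Rg z) : |(vv1 b z / vv b z).im| ≤ 0.1005 := by
  have hconv : Convex ℝ {w : ℂ | Rg w} := by
    have e : {w : ℂ | Rg w} = {w : ℂ | w.re ∈ Set.Icc (-0.155) 0.155} ∩
        {w : ℂ | w.im ∈ Set.Icc (-0.05) 0.05} := by
      ext w
      simp only [Rg, Set.mem_ofPred_eq, Set.mem_inter_iff, Set.mem_Icc, abs_le]
    rw [e]
    exact ((convex_Icc _ _).is_linear_preimage
        (IsLinearMap.mk (fun a b => add_re a b) (fun c a => by simp))).inter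
      ((convex_Icc _ _).is_linear_preimage
        (IsLinearMap.mk (fun a b => add_im a b) (fun c a => by simp)))
  have hx : Rg ((z.re : ℝ) : ℂ) := ⟨by rw [ofReal_re]; exact hz.1, by
    rw [ofReal_im, abs_zero]; norm_num⟩
  choose! d hd hd1 using fun (w : ℂ) (hw : Rg w) => hasDerivAt_quot h hw
  have h1 := hconv.norm_image_sub_le_of_norm_hasDerivWithin_le
    (fun w hw => (hd w hw).hasDerivWithinAt) (fun w hw => hd1 w hw) hx hz
  have h2 : z - ((z.re : ℝ) : ℂ) = (z.im : ℂ) * I := by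
    apply Complex.ext <;> simp
  have h3 : ‖(z.im : ℂ) * I‖ = |z.im| := by
    rw [norm_mul, norm_I, mul_one, norm_real, Real.norm_eq_abs]
  rw [h2, h3] at h1
  have h4 : (vv1 b ((z.re : ℝ) : ℂ) / vv b ((z.re : ℝ) : ℂ)).im = 0 := by
    rw [vv_ofReal h.ok, div_ofReal_im, vv1_ofReal_im, zero_div]
  have h5 : (vv1 b z / vv b z).im = (vv1 b z / vv b z -
      vv1 b ((z.re : ℝ) : ℂ) / vv b ((z.re : ℝ) : ℂ)).im := by
    rw [sub_im, h4, sub_zero]
  rw [h5]
  refine (abs_im_le_norm _).trans (h1.trans ?_)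
  have := hz.2
  nlinarith

theorem C3c_imul (r : ℝ) (w : ℂ) : ((r : ℂ) * w).im = r * w.im := by
  simp

/-- PROOF. `n = p G'/G - (p/2 - 1) v'/v`, `p/2 - 1 ∈ [0, p/2]`; as for `ell`. -/
theorem nn_bd (h : Big p b) {z : ℂ} (hz : Rg z) :
    |(nn p b z).re| ≤ 0.713 * p ∧ |(nn p b z).im| ≤ 0.262 * p := by
  obtain ⟨h1, h2⟩ := C3c_G h hz
  have hp := h.hp
  have hv : ‖vv1 b z / vv b z‖ ≤ 1.0031 := C3c_quot h hz
  have him : |(vv1 b z / vv b z).im| ≤ 0.1005 := C3c_im h hz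
  have hc : ((p / 2 - 1 : ℝ) : ℂ) * (vv1 b z / vv b z) = (p / 2 - 1 : ℂ) * (vv1 b z / vv b z) := by
    push_cast
    ring
  rw [C3c_eq]
  constructor
  · refine (abs_re_le_norm _).trans ?_
    refine (norm_sub_le _ _).trans ?_
    rw [← hc, norm_mul, norm_mul, norm_real, norm_real, Real.norm_of_nonneg (by linarith),
      Real.norm_of_nonneg (by linarith)]
    have e1 := mul_le_mul_of_nonneg_left h1 (by linarith : (0 : ℝ) ≤ p)
    have e2 := mul_le_mul_of_nonneg_left hv (by linarith : (0 : ℝ) ≤ p / 2 - 1)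
    linarith
  · rw [sub_im, ← hc, C3c_imul p, C3c_imul (p / 2 - 1)]
    have e1 := mul_le_mul_of_nonneg_left ((abs_im_le_norm _).trans h1) (by linarith : (0 : ℝ) ≤ p)
    have e2 := mul_le_mul_of_nonneg_left him (by linarith : (0 : ℝ) ≤ p / 2 - 1)
    refine (abs_sub _ _).trans ?_
    rw [abs_mul, abs_mul, abs_of_nonneg (by linarith : (0 : ℝ) ≤ p),
      abs_of_nonneg (by linarith : (0 : ℝ) ≤ p / 2 - 1)]
    linarith

/-- PROOF. `n' = p (G''/G - (G'/G)²) - (p/2 - 1)(v'/v)'`; `1.6/0.95 + (0.2/0.95)² ≤ 1.7286`, `2.01/2 = 1.005`. (Near `z` all functions are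
holomorphic: use an open set, `DifferentiableAt` of `deriv (Gf b)` follows from `DifferentiableOn.analyticOnNhd`.) -/
theorem hasDerivAt_nn (h : Big p b) {z : ℂ} (hz : Rg z) :
    ∃ d : ℂ, HasDerivAt (nn p b) d z ∧ ‖d‖ ≤ 2.74 * p := by
  obtain ⟨d, hd, hd1⟩ := hasDerivAt_quot h hz
  obtain ⟨g0, g1, g2⟩ := Gf_inner h hz
  have hp := h.hp
  have him : |z.im| < Real.pi / 2 := by
    have := Real.pi_gt_three
    have := hz.2
    linarith
  have hG : DifferentiableOn ℂ (Gf b) {w : ℂ | |w.im| < Real.pi / 2} := fun w hw =>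
    (differentiableAt_Gf h.ok h.n_pos hw).differentiableWithinAt
  have ho : IsOpen {w : ℂ | |w.im| < Real.pi / 2} :=
    isOpen_lt (continuous_abs.comp continuous_im) continuous_const
  have hG1 : HasDerivAt (Gf b) (deriv (Gf b) z) z :=
    (differentiableAt_Gf h.ok h.n_pos him).hasDerivAt
  have hG2 : HasDerivAt (deriv (Gf b)) (deriv (deriv (Gf b)) z) z :=
    ((hG.deriv ho).differentiableAt (ho.mem_nhds him)).hasDerivAt
  have hGn := C3c_G0 h hz
  have hG0 : Gf b z ≠ 0 := by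
    intro h0
    rw [h0, norm_zero] at hGn
    norm_num at hGn
  have h1 := ((hG2.div hG1 hG0).const_mul (p : ℂ)).sub (hd.const_mul (p / 2 - 1 : ℂ))
  refine ⟨_, h1.congr_of_eventuallyEq (Filter.Eventually.of_forall fun w => C3c_eq w), ?_⟩
  have hc : ((p / 2 - 1 : ℝ) : ℂ) * d = (p / 2 - 1 : ℂ) * d := by
    push_cast
    ring
  have e0 : (deriv (deriv (Gf b)) z * Gf b z - deriv (Gf b) z * deriv (Gf b) z) / Gf b z ^ 2
      = deriv (deriv (Gf b)) z / Gf b z - (deriv (Gf b) z / Gf b z) ^ 2 := by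
    field_simp
  rw [e0, ← hc]
  refine (norm_sub_le _ _).trans ?_
  rw [norm_mul, norm_mul, norm_real, norm_real, Real.norm_of_nonneg (by linarith),
    Real.norm_of_nonneg (by linarith : (0 : ℝ) ≤ p / 2 - 1)]
  have e1 : ‖deriv (deriv (Gf b)) z / Gf b z - (deriv (Gf b) z / Gf b z) ^ 2‖ ≤ 1.7286 := by
    refine (norm_sub_le _ _).trans ?_
    have a1 : ‖deriv (deriv (Gf b)) z / Gf b z‖ ≤ 1.68422 := by
      rw [norm_div, div_le_iff₀ (by linarith)]
      nlinarith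
    have a2 : ‖(deriv (Gf b) z / Gf b z) ^ 2‖ ≤ 0.0443302 := by
      rw [norm_pow]
      have a3 : ‖deriv (Gf b) z / Gf b z‖ ≤ 0.210527 := by
        rw [norm_div, div_le_iff₀ (by linarith)]
        nlinarith
      have a4 := mul_self_le_mul_self (norm_nonneg _) a3
      rw [pow_two]
      refine a4.trans ?_
      norm_num
    refine (add_le_add a1 a2).trans ?_
    norm_num
  have e2 := mul_le_mul_of_nonneg_left e1 (by linarith : (0 : ℝ) ≤ p)
  have e3 := mul_le_mul_of_nonneg_left hd1 (by linarith : (0 : ℝ) ≤ p / 2 - 1)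
  linarith

end Pool.Agent.LP
end

section

set_option autoImplicit false

/-! # C3d: real axis, conjugation, `t_j` -/

namespace Pool.Agent.LP

open Complex MeasureTheory

variable {n : ℕ} {b : Fin n → ℝ} {p : ℝ}

theorem lg_conj' (h : Big p b) {z : ℂ} (hz : Rg z) :
    lg b ((starRingEnd ℂ) z) = (starRingEnd ℂ) (lg b z) := by
  have h1 : |z.im| < Real.pi / 2 := by
    have h2 := hz.2
    have h3 := Real.pi_gt_three
    norm_num at h2
    linarith
  exact lg_conj h.ok h.n_pos h1 (Gf_inner h hz).1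

theorem lg_ofReal_im (h : Big p b) {x : ℝ} (hx : |x| ≤ 0.155) : (lg b x).im = 0 := by
  have hz : Rg (x : ℂ) := ⟨by rw [ofReal_re]; exact hx, by rw [ofReal_im, abs_zero]; norm_num⟩
  have h1 := lg_conj' h hz
  rw [conj_ofReal] at h1
  exact conj_eq_iff_im.1 h1.symm

/-- `t_j = exp (p (Λ(x) - j x + log(√(2π)Ψ(x))))` at the real `x` with `μ(x) = j`.
PROOF. `uu_eq`, `exp_lg`; everything is real (`Lam_ofReal_im`, `lg_ofReal_im`) and positive. -/
theorem th_eq (h : Big p b) (j : ℕ) {x : ℝ} (hx : |x| ≤ 0.155) (hj : mu b (x : ℂ) = (j : ℂ)) :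
    th p b j = Real.exp (p * ((Lam b x).re - j * x + (lg b x).re)) := by
  have hz : Rg (x : ℂ) := ⟨by rw [ofReal_re]; exact hx, by rw [ofReal_im, abs_zero]; norm_num⟩
  have h1 := uu_eq h.ok j x hj
  have h2 := exp_lg h hz
  have h3 : (((Lam b x).re : ℝ) : ℂ) = Lam b x :=
    Complex.ext (ofReal_re _) (by rw [ofReal_im, Lam_ofReal_im h.ok x])
  have h4 : (((lg b x).re : ℝ) : ℂ) = lg b x :=
    Complex.ext (ofReal_re _) (by rw [ofReal_im, lg_ofReal_im h hx])
  have h5 : ((Real.sqrt (2 * Real.pi) * uu b j : ℝ) : ℂ) =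
      ((Real.exp ((Lam b x).re - j * x + (lg b x).re) : ℝ) : ℂ) := by
    push_cast
    rw [h1, h3, h4]
    rw [exp_add, h2]
    ring
  have h6 : Real.sqrt (2 * Real.pi) * uu b j =
      Real.exp ((Lam b x).re - j * x + (lg b x).re) := ofReal_injective h5
  unfold th
  rw [h6, mul_comm p, Real.exp_mul]

end Pool.Agent.LP
end

section

set_option autoImplicit false

/-! collects the parts -/
end
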