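import Pool.Agent.Lib.MP_f91407_an.Mg.G009

section

set_option autoImplicit false

/-! # D1a: windows; monotonicity of `μ` -/

namespace Pool.Agent.LP

open Complex MeasureTheory

variable {n : ℕ} {b : Fin n → ℝ} {p : ℝ}

/-- a window `[X1, X2]` whose end points are half integers of `μ` -/
structure Win (p : ℝ) (b : Fin n → ℝ) (N1 N2 : ℕ) (X1 X2 : ℝ) : Prop where
  big : Big p b
  h1 : mu b (X1 : ℂ) = (N1 : ℂ) + 1 / 2
  h2 : mu b (X2 : ℂ) = (N2 : ℂ) + 1 / 2
  lo1 : -9.8 ≤ p * X1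
  hi1 : p * X1 ≤ -8
  lo2 : 8 ≤ p * X2
  hi2 : p * X2 ≤ 9.8

theorem Win.abs1 {N1 N2 : ℕ} {X1 X2 : ℝ} (w : Win p b N1 N2 X1 X2) : |X1| ≤ 0.155 := by
  have hp := w.big.hp
  have h1 := w.lo1
  have h2 := w.hi1
  rw [abs_le]
  constructor
  · by_contra h
    push Not at h
    nlinarith
  · by_contra h
    push Not at h
    nlinarith

theorem Win.abs2 {N1 N2 : ℕ} {X1 X2 : ℝ} (w : Win p b N1 N2 X1 X2) : |X2| ≤ 0.155 := by
  have hp := w.big.hp
  have h1 := w.lo2
  have h2 := w.hi2
  rw [abs_le]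
  constructor
  · by_contra h
    push Not at h
    nlinarith
  · by_contra h
    push Not at h
    nlinarith

theorem D1a_deriv (hb : Ok b) (x : ℝ) :
    HasDerivAt (fun x : ℝ => (mu b (x : ℂ)).re) (W b x) x := by
  have h1 := hasDerivAt_mu hb (z := (x : ℂ)) (by simpa using Real.pi_pos)
  have h2 := h1.real_of_complex
  rwa [vv_ofReal hb, ofReal_re] at h2

/-- PROOF. `(d/dx) (μ(x)).re = W(x)` (`hasDerivAt_mu`, `vv_ofReal`), `W_bd`, mean value theorem. -/
theorem mu_diff (h : Big p b) {x x' : ℝ} (hx : |x| ≤ 0.155) (hx' : |x'| ≤ 0.155) (hxx : x ≤ x') :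
    0.856 * Vz b * (x' - x) ≤ (mu b x').re - (mu b x).re ∧
      (mu b x').re - (mu b x).re ≤ 1.168 * Vz b * (x' - x) := by
  rcases hxx.eq_or_lt with rfl | hlt
  · simp
  · obtain ⟨c, hc, hc'⟩ := exists_hasDerivAt_eq_slope (fun x : ℝ => (mu b (x : ℂ)).re) (W b) hlt
      (fun y _ => (D1a_deriv h.ok y).continuousAt.continuousWithinAt)
      (fun y _ => D1a_deriv h.ok y)
    have h0 : 0 < x' - x := sub_pos.2 hlt
    rw [eq_div_iff h0.ne'] at hc'
    have hcabs : |c| ≤ 0.155 := by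
      rw [abs_le] at hx hx' ⊢
      exact ⟨hx.1.trans hc.1.le, hc.2.le.trans hx'.2⟩
    obtain ⟨g1, g2⟩ := W_bd h hcabs
    rw [← hc']
    exact ⟨mul_le_mul_of_nonneg_right g1 h0.le, mul_le_mul_of_nonneg_right g2 h0.le⟩

end Pool.Agent.LP
end

section

set_option autoImplicit false

/-! # D1b: existence of a window -/

namespace Pool.Agent.LP

open Complex MeasureTheory

variable {n : ℕ} {b : Fin n → ℝ} {p : ℝ}

theorem D1b_nonneg (hb : Ok b) (x : ℝ) : 0 ≤ (mu b (x : ℂ)).re := by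
  have h : mu b (x : ℂ) =
      ((∑ c, b c * Real.exp x / (1 - b c + b c * Real.exp x) : ℝ) : ℂ) := by
    unfold mu Pc be
    push_cast
    rfl
  rw [h, Complex.ofReal_re]
  refine Finset.sum_nonneg fun c _ => ?_
  obtain ⟨h0, h1⟩ := hb c
  have h2 := Real.exp_pos x
  exact div_nonneg (by positivity) (by nlinarith [mul_pos h0 h2])

theorem D1b_cont (hb : Ok b) : Continuous fun x : ℝ => (mu b (x : ℂ)).re := by
  rw [continuous_iff_continuousAt]
  intro x
  have h1 : ContinuousAt (mu b) (x : ℂ) :=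
    (hasDerivAt_mu hb (z := (x : ℂ)) (by simpa using Real.pi_pos)).continuousAt
  exact Complex.continuous_re.continuousAt.comp
    (ContinuousAt.comp (f := fun x : ℝ => (x : ℂ)) h1 Complex.continuous_ofReal.continuousAt)

/-- PROOF. `mu_diff` on `[8/p, 9.8/p]` (`9.8/64 ≤ 0.155`): `μ` increases by `≥ 0.856 * 0.65 * 1.8 ≥ 1.001`. Take
`N2 + 1/2` = the first half integer `≥ μ(8/p)` (`μ > 0` on the real axis, so `N2 ∈ ℕ`) and the intermediate value theorem; same on
`[-9.8/p, -8/p]`, with the last half integer `≤ μ(-8/p)`, which is `> μ(-9.8/p) > 0`. -/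
theorem exists_window (h : Big p b) : ∃ (N1 N2 : ℕ) (X1 X2 : ℝ), Win p b N1 N2 X1 X2 := by
  have hp : 64 ≤ p := h.hp
  have hp0 : 0 < p := by linarith
  have hV := h.hV
  have e8 : 8 / p ≤ 0.125 := by
    rw [div_le_iff₀ hp0]
    linarith
  have e9 : 9.8 / p ≤ 0.155 := by
    rw [div_le_iff₀ hp0]
    linarith
  have e8' : 0 ≤ 8 / p := by positivity
  have e9' : 0 ≤ 9.8 / p := by positivity
  have e89 : 8 / p ≤ 9.8 / p := by
    apply div_le_div_of_nonneg_right _ hp0.le
    norm_num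
  have hnn := D1b_nonneg h.ok
  have hcont := D1b_cont h.ok
  have hprod : ∀ a : ℝ, p * (a / p) = a := fun a => by field_simp
  have gain : 1.001 ≤ 0.856 * Vz b * (9.8 / p - 8 / p) := by
    have h1 : 9.8 / p - 8 / p = 1.8 / p := by ring
    rw [h1]
    have h2 : 0.856 * (0.65 * p) * (1.8 / p) ≤ 0.856 * Vz b * (1.8 / p) := by
      apply mul_le_mul_of_nonneg_right _ (by positivity)
      linarith
    have h3 : 0.856 * (0.65 * p) * (1.8 / p) = 0.856 * 0.65 * (p * (1.8 / p)) := by ring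
    rw [h3, hprod] at h2
    refine le_trans ?_ h2
    norm_num
  -- right side
  have hR := (mu_diff h (x := 8 / p) (x' := 9.8 / p)
    (by rw [abs_of_nonneg e8']; linarith) (by rw [abs_of_nonneg e9']; exact e9) e89).1
  -- left side
  have hL := (mu_diff h (x := -(9.8 / p)) (x' := -(8 / p))
    (by rw [abs_neg, abs_of_nonneg e9']; exact e9)
    (by rw [abs_neg, abs_of_nonneg e8']; linarith) (by linarith)).1
  have hL' : 0.856 * Vz b * (9.8 / p - 8 / p) ≤
      (mu b ((-(8 / p) : ℝ) : ℂ)).re - (mu b ((-(9.8 / p) : ℝ) : ℂ)).re := by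
    refine le_trans (le_of_eq ?_) hL
    ring
  set N2 : ℕ := ⌈(mu b ((8 / p : ℝ) : ℂ)).re - 1 / 2⌉₊ with hN2
  set N1 : ℕ := ⌊(mu b ((-(8 / p) : ℝ) : ℂ)).re - 1 / 2⌋₊ with hN1
  have a1 : (mu b ((8 / p : ℝ) : ℂ)).re - 1 / 2 ≤ N2 := Nat.le_ceil _
  have a2 : (N2 : ℝ) ≤ (mu b ((8 / p : ℝ) : ℂ)).re + 1 / 2 := by
    by_cases hc : 0 ≤ (mu b ((8 / p : ℝ) : ℂ)).re - 1 / 2
    · have := Nat.ceil_lt_add_one hc
      linarith
    · have h0 : N2 = 0 := by
        rw [hN2, Nat.ceil_eq_zero]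
        linarith
      rw [h0, Nat.cast_zero]
      have := hnn (8 / p)
      linarith
  have c0 : 0 ≤ (mu b ((-(8 / p) : ℝ) : ℂ)).re - 1 / 2 := by
    have := hnn (-(9.8 / p))
    linarith
  have b1 : (N1 : ℝ) ≤ (mu b ((-(8 / p) : ℝ) : ℂ)).re - 1 / 2 := Nat.floor_le c0
  have b2 : (mu b ((-(8 / p) : ℝ) : ℂ)).re - 1 / 2 < N1 + 1 := Nat.lt_floor_add_one _
  have iv2 := intermediate_value_Icc e89 (f := fun x : ℝ => (mu b (x : ℂ)).re)
    hcont.continuousOn
  have iv1 := intermediate_value_Icc (show -(9.8 / p) ≤ -(8 / p) by linarith)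
    (f := fun x : ℝ => (mu b (x : ℂ)).re) hcont.continuousOn
  obtain ⟨X2, hX2, hm2⟩ := iv2 (show ((N2 : ℝ) + 1 / 2) ∈ _ from ⟨by
    show (mu b ((8 / p : ℝ) : ℂ)).re ≤ (N2 : ℝ) + 1 / 2
    linarith, by
    show (N2 : ℝ) + 1 / 2 ≤ (mu b ((9.8 / p : ℝ) : ℂ)).re
    linarith⟩)
  obtain ⟨X1, hX1, hm1⟩ := iv1 (show ((N1 : ℝ) + 1 / 2) ∈ _ from ⟨by
    show (mu b ((-(9.8 / p) : ℝ) : ℂ)).re ≤ (N1 : ℝ) + 1 / 2
    linarith, by
    show (N1 : ℝ) + 1 / 2 ≤ (mu b ((-(8 / p) : ℝ) : ℂ)).re
    linarith⟩)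
  have key : ∀ (x : ℝ) (N : ℕ), (mu b (x : ℂ)).re = (N : ℝ) + 1 / 2 →
      mu b (x : ℂ) = (N : ℂ) + 1 / 2 := by
    intro x N hx
    apply Complex.ext
    · rw [hx]
      simp
    · rw [mu_ofReal_im]
      simp
  refine ⟨N1, N2, X1, X2, ⟨h, key X1 N1 hm1, key X2 N2 hm2, ?_, ?_, ?_, ?_⟩⟩
  · have := mul_le_mul_of_nonneg_left hX1.1 hp0.le
    rw [mul_neg, hprod] at this
    exact this
  · have := mul_le_mul_of_nonneg_left hX1.2 hp0.le
    rw [mul_neg, hprod] at this
    exact this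
  · have := mul_le_mul_of_nonneg_left hX2.1 hp0.le
    rw [hprod] at this
    exact this
  · have := mul_le_mul_of_nonneg_left hX2.2 hp0.le
    rw [hprod] at this
    exact this

end Pool.Agent.LP
end

section

set_option autoImplicit false

/-! # D1c: integers in the window -/

namespace Pool.Agent.LP

open Complex MeasureTheory

variable {n : ℕ} {b : Fin n → ℝ} {p : ℝ}

theorem D1c_deriv (hb : Ok b) (x : ℝ) :
    HasDerivAt (fun x : ℝ => (mu b (x : ℂ)).re) (W b x) x := by
  have h1 := hasDerivAt_mu hb (z := (x : ℂ)) (by simpa using Real.pi_pos)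
  have h2 := h1.real_of_complex
  rwa [vv_ofReal hb, ofReal_re] at h2

theorem D1c_Pc (b x : ℝ) :
    Pc b (x : ℂ) = ((b * Real.exp x / (1 - b + b * Real.exp x) : ℝ) : ℂ) := by
  unfold Pc be
  push_cast
  rfl

/-- PROOF. `0 < Re P_c < 1` on the real axis, so `N2 + 1/2 = μ(X2) < n`. -/
theorem Win.lt_n {N1 N2 : ℕ} {X1 X2 : ℝ} (w : Win p b N1 N2 X1 X2) : N2 < n := by
  have h1 := w.h2
  unfold mu at h1
  simp_rw [D1c_Pc] at h1
  rw [← ofReal_sum] at h1
  have h2 : ∑ c, (b c * Real.exp X2 / (1 - b c + b c * Real.exp X2)) = (N2 : ℝ) + 1 / 2 := by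
    apply ofReal_injective
    rw [h1]
    push_cast
    rfl
  have h3 : ∑ c, (b c * Real.exp X2 / (1 - b c + b c * Real.exp X2)) ≤ ∑ _c : Fin n, (1 : ℝ) := by
    refine Finset.sum_le_sum fun c _ => ?_
    have hb := w.big.ok c
    have he := Real.exp_pos X2
    have h4 : 0 < 1 - b c + b c * Real.exp X2 := by
      have := mul_pos hb.1 he
      linarith [hb.2]
    rw [div_le_one h4]
    linarith [hb.2]
  rw [h2, Finset.sum_const, Finset.card_univ, Fintype.card_fin, nsmul_eq_mul, mul_one] at h3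
  have h5 : (N2 : ℝ) < n := by linarith
  exact_mod_cast h5

theorem D1c_X {N1 N2 : ℕ} {X1 X2 : ℝ} (w : Win p b N1 N2 X1 X2) : X1 < X2 := by
  have hp := w.big.hp
  have h1 := w.hi1
  have h2 := w.lo2
  by_contra h
  push Not at h
  nlinarith

theorem D1c_re1 {N1 N2 : ℕ} {X1 X2 : ℝ} (w : Win p b N1 N2 X1 X2) :
    (mu b (X1 : ℂ)).re = (N1 : ℝ) + 1 / 2 := by
  rw [w.h1, add_re, natCast_re]
  norm_num

theorem D1c_re2 {N1 N2 : ℕ} {X1 X2 : ℝ} (w : Win p b N1 N2 X1 X2) :
    (mu b (X2 : ℂ)).re = (N2 : ℝ) + 1 / 2 := by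
  rw [w.h2, add_re, natCast_re]
  norm_num

theorem Win.lt {N1 N2 : ℕ} {X1 X2 : ℝ} (w : Win p b N1 N2 X1 X2) : N1 < N2 := by
  have hX := D1c_X w
  have h1 := (mu_diff w.big w.abs1 w.abs2 hX.le).1
  rw [D1c_re1 w, D1c_re2 w] at h1
  have hV : 0 < Vz b := by
    have := w.big.hV
    have := w.big.hp
    linarith
  have h2 : 0 < 0.856 * Vz b * (X2 - X1) :=
    mul_pos (mul_pos (by norm_num) hV) (sub_pos.2 hX)
  have h3 : (N1 : ℝ) < N2 := by linarith
  exact_mod_cast h3

/-- PROOF. Intermediate value theorem. -/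
theorem Win.zeta {N1 N2 : ℕ} {X1 X2 : ℝ} (w : Win p b N1 N2 X1 X2) {j : ℕ} (h1 : N1 < j)
    (h2 : j ≤ N2) : ∃ x : ℝ, X1 < x ∧ x < X2 ∧ mu b (x : ℂ) = (j : ℂ) := by
  have hX := D1c_X w
  have hc : ContinuousOn (fun x : ℝ => (mu b (x : ℂ)).re) (Set.Icc X1 X2) :=
    fun y _ => (D1c_deriv w.big.ok y).continuousAt.continuousWithinAt
  have h3 := intermediate_value_Ioo hX.le hc
  have h4 : (j : ℝ) ∈ Set.Ioo ((fun x : ℝ => (mu b (x : ℂ)).re) X1)
      ((fun x : ℝ => (mu b (x : ℂ)).re) X2) := by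
    show (mu b (X1 : ℂ)).re < (j : ℝ) ∧ (j : ℝ) < (mu b (X2 : ℂ)).re
    rw [D1c_re1 w, D1c_re2 w]
    have h5 : (N1 : ℝ) + 1 ≤ j := by exact_mod_cast h1
    have h6 : (j : ℝ) ≤ N2 := by exact_mod_cast h2
    constructor <;> linarith
  obtain ⟨x, hx, hx'⟩ := h3 h4
  refine ⟨x, hx.1, hx.2, ?_⟩
  apply Complex.ext
  · rw [natCast_re]
    exact hx'
  · rw [mu_ofReal_im, natCast_im]

end Pool.Agent.LP
end

section

set_option autoImplicit false

/-! collects the parts -/
end

section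

set_option autoImplicit false

/-! # D4a: the exponent near the real axis -/

namespace Pool.Agent.LP

open Complex MeasureTheory

variable {n : ℕ} {b : Fin n → ℝ} {p : ℝ}

private theorem D4a_path {f : ℂ → ℂ} {d a w : ℂ} {s : ℝ} (h : HasDerivAt f d (a + s * w)) :
    HasDerivAt (fun s : ℝ => (f (a + s * w)).re) ((d * w).re) s := by
  have h1 : HasDerivAt (fun s : ℂ => a + s * w) w (s : ℂ) := by
    have h2 := ((hasDerivAt_id (s : ℂ)).mul_const w).const_add a
    simpa using h2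
  have h3 : HasDerivAt (fun s : ℂ => f (a + s * w)) (d * w) (s : ℂ) :=
    HasDerivAt.comp (s : ℂ) h h1
  exact h3.real_of_complex

private theorem D4a_anti {F F' : ℝ → ℝ} (h : ∀ s ∈ Set.Icc (0 : ℝ) 1, HasDerivAt F (F' s) s)
    (h' : ∀ s ∈ Set.Icc (0 : ℝ) 1, F' s ≤ 0) : F 1 ≤ F 0 := by
  have h1 : AntitoneOn F (Set.Icc (0 : ℝ) 1) := by
    refine antitoneOn_of_deriv_nonpos (convex_Icc 0 1)
      (fun s hs => (h s hs).continuousAt.continuousWithinAt) ?_ ?_
    · intro s hs
      exact (h s (interior_subset hs)).differentiableAt.differentiableWithinAt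
    · intro s hs
      rw [(h s (interior_subset hs)).deriv]
      exact h' s (interior_subset hs)
  exact h1 (by simp) (by simp) zero_le_one

private theorem D4a_le {F F' : ℝ → ℝ} {C : ℝ} (h : ∀ s ∈ Set.Icc (0 : ℝ) 1, HasDerivAt F (F' s) s)
    (h' : ∀ s ∈ Set.Icc (0 : ℝ) 1, |F' s| ≤ C) : |F 1 - F 0| ≤ C := by
  rw [abs_le]
  constructor
  · have h1 := D4a_anti (F := fun s => -F s - C * s) (F' := fun s => -F' s - C) (fun s hs => by
      have h2 := (h s hs).neg.sub ((hasDerivAt_id s).const_mul C)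
      rw [mul_one] at h2
      exact h2) (fun s hs => by
      have := (abs_le.mp (h' s hs)).1
      linarith)
    linarith
  · have h1 := D4a_anti (F := fun s => F s - C * s) (F' := fun s => F' s - C) (fun s hs => by
      have h2 := (h s hs).sub ((hasDerivAt_id s).const_mul C)
      rw [mul_one] at h2
      exact h2) (fun s hs => by
      have := (abs_le.mp (h' s hs)).2
      linarith)
    linarith

private theorem D4a_ex (h : Big p b) {z : ℂ} (hz : |z.im| < Real.pi) :
    HasDerivAt (fun z => Lam b z - mu b z * z) (-(z * vv b z)) z := by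
  have h1 := (hasDerivAt_Lam h.ok hz).sub ((hasDerivAt_mu h.ok hz).mul (hasDerivAt_id z))
  have h2 : mu b z - (vv b z * id z + mu b z * 1) = -(z * vv b z) := by
    simp only [id]
    ring
  rw [h2] at h1
  exact h1

/-- real part of the exponent on the real axis. PROOF. `g(x) = (Λ(x) - μ(x) x).re` has `g(0) = 0` and
`g'(x) = -x W(x)`, `W ≥ 0.856 V` for `|x| ≤ 0.155`. -/
theorem expo_real (h : Big p b) {x : ℝ} (hx : |x| ≤ 0.155) :
    (Lam b x - mu b x * x).re ≤ -(0.428 * Vz b * x ^ 2) := by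
  have hpi := Real.pi_pos
  have hV : 0 ≤ Vz b := by
    have := h.hV
    have := h.hp
    linarith
  have key := D4a_anti
    (F := fun s : ℝ => (Lam b (0 + s * x) - mu b (0 + s * x) * (0 + s * x)).re +
      0.428 * Vz b * x ^ 2 * s ^ 2)
    (F' := fun s => (-((0 + s * x) * vv b (0 + s * x)) * x : ℂ).re +
      0.428 * Vz b * x ^ 2 * (2 * s))
    (fun s hs => by
      have him : |((0 : ℂ) + s * x).im| < Real.pi := by
        have : ((0 : ℂ) + s * x).im = 0 := by simp
        rw [this, abs_zero]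
        exact hpi
      have h1 := D4a_path (D4a_ex h him)
      have h2 := ((hasDerivAt_pow 2 s).const_mul (0.428 * Vz b * x ^ 2))
      have h3 : HasDerivAt (fun s : ℝ => 0.428 * Vz b * x ^ 2 * s ^ 2)
          (0.428 * Vz b * x ^ 2 * (2 * s)) s := by
        simpa using h2
      exact h1.add h3)
    (fun s hs => by
      have h1 : ((0 : ℂ) + s * x) = ((s * x : ℝ) : ℂ) := by push_cast; ring
      have h2 : |s * x| ≤ 0.155 := by
        rw [abs_mul, abs_of_nonneg hs.1]
        have := abs_nonneg x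
        nlinarith [hs.2]
      have h3 := (W_bd h h2).1
      rw [h1, vv_ofReal h.ok]
      have h4 : (-(((s * x : ℝ) : ℂ) * (W b (s * x) : ℂ)) * (x : ℂ)).re =
          -(s * x * W b (s * x) * x) := by
        have : (-(((s * x : ℝ) : ℂ) * (W b (s * x) : ℂ)) * (x : ℂ)) =
          ((-(s * x * W b (s * x) * x) : ℝ) : ℂ) := by push_cast; ring
        rw [this, ofReal_re]
      rw [h4]
      have h5 : 0 ≤ s * x ^ 2 := mul_nonneg hs.1 (sq_nonneg x)
      nlinarith [mul_nonneg h5 (sub_nonneg.mpr h3)])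
  have e1 : ((0 : ℂ) + ((1 : ℝ) : ℂ) * x) = x := by push_cast; ring
  have e0 : ((0 : ℂ) + ((0 : ℝ) : ℂ) * x) = 0 := by push_cast; ring
  simp only [e1, e0] at key
  rw [Lam_zero] at key
  simp only [mul_zero, sub_zero, zero_re] at key
  linarith

/-- vertical change. PROOF. `(d/dy) (Λ - μ z)(x + iy) = -i z v(z) = (y - i x) v(z)`; real part `y Re v + x Im v`, with
`Re v ≤ 1.001 W(x)`, `|Im v(x+iy)| ≤ ‖v(x+iy) - v(x)‖ ≤ |y| 1.001 W(x)`, `|x| ≤ 0.155`; integrate: `≤ 1.001 * 1.155 W y²/2 ≤ 0.579 W y²`. -/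
theorem expo_vert (h : Big p b) {x y : ℝ} (hx : |x| ≤ 0.155) (hy : |y| ≤ 0.05) :
    (Lam b (x + y * I) - mu b (x + y * I) * (x + y * I)).re ≤
      (Lam b x - mu b x * x).re + 0.579 * W b x * y ^ 2 := by
  have hpi := Real.pi_gt_three
  have hW : 0 ≤ W b x := W_nonneg h.ok x
  have him : ∀ s ∈ Set.Icc (0 : ℝ) 1, |((x : ℂ) + s * (y * I)).im| ≤ 0.05 := by
    intro s hs
    have h1 : ((x : ℂ) + s * (y * I)).im = s * y := by simp
    rw [h1, abs_mul, abs_of_nonneg hs.1]
    have := abs_nonneg y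
    nlinarith [hs.2]
  have hre : ∀ s : ℝ, ((x : ℂ) + s * (y * I)).re = x := by
    intro s
    simp
  -- the imaginary part of v
  have hv : ∀ s ∈ Set.Icc (0 : ℝ) 1, |(vv b ((x : ℂ) + s * (y * I))).im| ≤
      1.001 * W b x * (s * |y|) := by
    intro s hs
    have h1 : ‖vv b ((x : ℂ) + s * (y * I)) - vv b x‖ ≤
        1.001 * W b x * ‖((x : ℂ) + s * (y * I)) - x‖ := by
      refine Convex.norm_image_sub_le_of_norm_hasDerivWithin_le (f := vv b) (f' := vv1 b)
        (s := segment ℝ (x : ℂ) ((x : ℂ) + s * (y * I))) ?_ ?_ (convex_segment _ _)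
        (left_mem_segment _ _ _) (right_mem_segment _ _ _)
      · intro z hz
        rw [segment_eq_image'] at hz
        obtain ⟨θ, hθ, rfl⟩ := hz
        have h2 : (x : ℂ) + θ • ((x : ℂ) + s * (y * I) - x) = (x : ℂ) + (θ * s : ℝ) * (y * I) := by
          rw [real_smul]
          push_cast
          ring
        simp only [h2]
        have h3 := him (θ * s) ⟨mul_nonneg hθ.1 hs.1, mul_le_one₀ hθ.2 hs.1 hs.2⟩
        exact (hasDerivAt_vv h.ok (lt_of_le_of_lt h3 (by linarith))).hasDerivWithinAt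
      · intro z hz
        rw [segment_eq_image'] at hz
        obtain ⟨θ, hθ, rfl⟩ := hz
        have h2 : (x : ℂ) + θ • ((x : ℂ) + s * (y * I) - x) = (x : ℂ) + (θ * s : ℝ) * (y * I) := by
          rw [real_smul]
          push_cast
          ring
        simp only [h2]
        have h3 := him (θ * s) ⟨mul_nonneg hθ.1 hs.1, mul_le_one₀ hθ.2 hs.1 hs.2⟩
        have h4 := (norm_vv_le5 h.ok h3).2.1
        rw [hre] at h4
        exact h4
    have h5 : ‖((x : ℂ) + s * (y * I)) - x‖ = s * |y| := by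
      have : ((x : ℂ) + s * (y * I)) - x = ((s * y : ℝ) : ℂ) * I := by push_cast; ring
      rw [this, norm_mul, norm_I, mul_one, Complex.norm_real, Real.norm_eq_abs, abs_mul,
        abs_of_nonneg hs.1]
    have h6 : (vv b ((x : ℂ) + s * (y * I))).im =
        (vv b ((x : ℂ) + s * (y * I)) - vv b x).im := by
      rw [vv_ofReal h.ok, sub_im, ofReal_im, sub_zero]
    rw [h6]
    refine (abs_im_le_norm _).trans (h1.trans ?_)
    rw [h5]
  have key := D4a_anti
    (F := fun s : ℝ => (Lam b (x + s * (y * I)) - mu b (x + s * (y * I)) * (x + s * (y * I))).re -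
      0.579 * W b x * y ^ 2 * s ^ 2)
    (F' := fun s => (-((x + s * (y * I)) * vv b (x + s * (y * I))) * (y * I) : ℂ).re -
      0.579 * W b x * y ^ 2 * (2 * s))
    (fun s hs => by
      have h1 := D4a_path (D4a_ex h (lt_of_le_of_lt (him s hs) (by linarith)))
      have h2 := ((hasDerivAt_pow 2 s).const_mul (0.579 * W b x * y ^ 2))
      have h3 : HasDerivAt (fun s : ℝ => 0.579 * W b x * y ^ 2 * s ^ 2)
          (0.579 * W b x * y ^ 2 * (2 * s)) s := by
        simpa using h2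
      exact h1.sub h3)
    (fun s hs => by
      have h1 := hv s hs
      have h2 := (norm_vv_le5 h.ok (him s hs)).1
      rw [hre] at h2
      set v := vv b ((x : ℂ) + s * (y * I)) with hvd
      have h3 : (-((x + s * (y * I)) * v) * (y * I) : ℂ).re =
          s * y ^ 2 * v.re + x * y * v.im := by
        simp only [neg_mul, neg_re, mul_re, mul_im, add_re, add_im, ofReal_re, ofReal_im, I_re,
          I_im]
        ring
      rw [h3]
      have h4 : v.re ≤ 1.001 * W b x := (re_le_norm v).trans h2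
      have h5 : s * y ^ 2 * v.re ≤ s * y ^ 2 * (1.001 * W b x) :=
        mul_le_mul_of_nonneg_left h4 (mul_nonneg hs.1 (sq_nonneg y))
      have h6 : x * y * v.im ≤ 0.155 * (|y| * (1.001 * W b x * (s * |y|))) := by
        refine (le_abs_self _).trans ?_
        rw [abs_mul, abs_mul, mul_assoc]
        exact mul_le_mul hx (mul_le_mul_of_nonneg_left h1 (abs_nonneg y))
          (mul_nonneg (abs_nonneg _) (abs_nonneg _)) (by norm_num)
      have h7 : |y| * (1.001 * W b x * (s * |y|)) = 1.001 * (W b x * s * y ^ 2) := by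
        rw [← sq_abs y]
        ring
      rw [h7] at h6
      have h8 : 0 ≤ W b x * s * y ^ 2 := mul_nonneg (mul_nonneg hW hs.1) (sq_nonneg y)
      nlinarith)
  have e1 : ((x : ℂ) + ((1 : ℝ) : ℂ) * (y * I)) = x + y * I := by push_cast; ring
  have e0 : ((x : ℂ) + ((0 : ℝ) : ℂ) * (y * I)) = x := by push_cast; ring
  simp only [e1, e0] at key
  linarith

/-- PROOF. `norm_ell_le` along the real segment, `ell_im_le` along the vertical one
(`(d/dy) Re lg(x+iy) = -Im ell`). -/
theorem lg_re_le (h : Big p b) {x y : ℝ} (hx : |x| ≤ 0.155) (hy : |y| ≤ 0.05) :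
    |(lg b (x + y * I)).re - (lg b 0).re| ≤ 0.713 * |x| + 0.262 * |y| := by
  have k1 : |(lg b x).re - (lg b 0).re| ≤ 0.713 * |x| := by
    have key := D4a_le
      (F := fun s : ℝ => (lg b (0 + s * x)).re)
      (F' := fun s => (ell b (0 + s * x) * x : ℂ).re) (C := 0.713 * |x|)
      (fun s hs => by
        have hR : Rg ((0 : ℂ) + s * x) := by
          constructor
          · have h1 : ((0 : ℂ) + s * x).re = s * x := by simp
            rw [h1, abs_mul, abs_of_nonneg hs.1]
            have := abs_nonneg x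
            nlinarith [hs.2]
          · have h1 : ((0 : ℂ) + s * x).im = 0 := by simp
            rw [h1, abs_zero]
            norm_num
        exact D4a_path (hasDerivAt_lg h hR))
      (fun s hs => by
        have hR : Rg ((0 : ℂ) + s * x) := by
          constructor
          · have h1 : ((0 : ℂ) + s * x).re = s * x := by simp
            rw [h1, abs_mul, abs_of_nonneg hs.1]
            have := abs_nonneg x
            nlinarith [hs.2]
          · have h1 : ((0 : ℂ) + s * x).im = 0 := by simp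
            rw [h1, abs_zero]
            norm_num
        refine (abs_re_le_norm _).trans ?_
        rw [norm_mul, Complex.norm_real, Real.norm_eq_abs]
        exact mul_le_mul_of_nonneg_right (norm_ell_le h hR) (abs_nonneg x))
    have e1 : ((0 : ℂ) + ((1 : ℝ) : ℂ) * x) = x := by push_cast; ring
    have e0 : ((0 : ℂ) + ((0 : ℝ) : ℂ) * x) = 0 := by push_cast; ring
    simp only [e1, e0] at key
    exact key
  have k2 : |(lg b (x + y * I)).re - (lg b x).re| ≤ 0.262 * |y| := by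
    have hR : ∀ s ∈ Set.Icc (0 : ℝ) 1, Rg ((x : ℂ) + s * (y * I)) := by
      intro s hs
      constructor
      · have h1 : ((x : ℂ) + s * (y * I)).re = x := by simp
        rw [h1]
        exact hx
      · have h1 : ((x : ℂ) + s * (y * I)).im = s * y := by simp
        rw [h1, abs_mul, abs_of_nonneg hs.1]
        have := abs_nonneg y
        nlinarith [hs.2]
    have key := D4a_le
      (F := fun s : ℝ => (lg b (x + s * (y * I))).re)
      (F' := fun s => (ell b (x + s * (y * I)) * (y * I) : ℂ).re) (C := 0.262 * |y|)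
      (fun s hs => D4a_path (hasDerivAt_lg h (hR s hs)))
      (fun s hs => by
        have h1 : (ell b (x + s * (y * I)) * (y * I) : ℂ).re =
            -(ell b (x + s * (y * I))).im * y := by
          simp only [mul_re, mul_im, ofReal_re, ofReal_im, I_re, I_im]
          ring
        rw [h1, abs_mul, abs_neg]
        exact mul_le_mul_of_nonneg_right (ell_im_le h (hR s hs)) (abs_nonneg y))
    have e1 : ((x : ℂ) + ((1 : ℝ) : ℂ) * (y * I)) = x + y * I := by push_cast; ring
    have e0 : ((x : ℂ) + ((0 : ℝ) : ℂ) * (y * I)) = x := by push_cast; ring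
    simp only [e1, e0] at key
    exact key
  have k3 := abs_add_le ((lg b (x + y * I)).re - (lg b x).re) ((lg b x).re - (lg b 0).re)
  have k4 : (lg b (x + y * I)).re - (lg b x).re + ((lg b x).re - (lg b 0).re) =
      (lg b (x + y * I)).re - (lg b 0).re := by ring
  rw [k4] at k3
  linarith

end Pool.Agent.LP
end
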