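import Pool.Agent.Lib.MP_f91407_an.Mg.G010
import Pool.Agent.Lib.MP_f91407_an.Mg.G001

section

set_option autoImplicit false

/-! # D2a: zeros of `sin (π μ)` -/

namespace Pool.Agent.LP

open Complex MeasureTheory

variable {n : ℕ} {b : Fin n → ℝ} {p : ℝ}

theorem D2a_re (N : ℕ) : ((N : ℂ) + 1 / 2).re = (N : ℝ) + 1 / 2 := by
  have h : ((N : ℂ) + 1 / 2) = (((N : ℝ) + 1 / 2 : ℝ) : ℂ) := by
    push_cast
    ring
  rw [h, ofReal_re]

/-- PROOF. `sin (π μ) = 0` iff `μ z` is an integer. If `Im z > 0` then `Im μ ≥ W(Re z) sin(Im z) > 0` (`im_mu_ge`, `W_pos`), if `Im z < 0` use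
`mu_conj`; so `z` is real and `X1 ≤ z ≤ X2`, `μ` is real and strictly increasing there (`mu_diff`), from `N1 + 1/2` to `N2 + 1/2`.
(`π/p ≤ 0.05`.) -/
theorem Dk_zero_iff {N1 N2 : ℕ} {X1 X2 : ℝ} (w : Win p b N1 N2 X1 X2) {z : ℂ} (h1 : X1 ≤ z.re)
    (h2 : z.re ≤ X2) (h3 : |z.im| ≤ Real.pi / p) :
    Dk b z = 0 ↔ z.im = 0 ∧ ∃ j : ℕ, N1 < j ∧ j ≤ N2 ∧ mu b z = (j : ℂ) := by
  have hb := w.big.ok
  have hn := w.big.n_pos
  have hp := w.big.hp
  have hpi := Real.pi_pos
  have hpl : Real.pi / p < Real.pi := div_lt_self hpi (by linarith)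
  have hx1 := abs_le.1 w.abs1
  have hx2 := abs_le.1 w.abs2
  constructor
  · intro h0
    unfold Dk at h0
    rw [Complex.sin_eq_zero_iff] at h0
    obtain ⟨k, hk⟩ := h0
    have hpc : (Real.pi : ℂ) ≠ 0 := ofReal_ne_zero.2 Real.pi_ne_zero
    have hk1 : mu b z = (k : ℂ) := by
      rw [mul_comm (k : ℂ)] at hk
      exact mul_left_cancel₀ hpc hk
    have him : (mu b z).im = 0 := by
      rw [hk1, intCast_im]
    have hz : z.im = 0 := by
      rcases lt_trichotomy z.im 0 with hlt | heq | hgt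
      · exfalso
        have h4 : 0 < ((starRingEnd ℂ) z).im := by
          rw [conj_im]
          linarith
        have h5 : ((starRingEnd ℂ) z).im < Real.pi := by
          rw [conj_im]
          have := (abs_le.1 h3).1
          linarith
        have h6 := im_mu_ge hb h4.le h5
        rw [mu_conj, conj_im (mu b z), him, neg_zero] at h6
        have h7 := W_pos hb hn ((starRingEnd ℂ) z).re
        have h8 := Real.sin_pos_of_pos_of_lt_pi h4 h5
        have h9 := mul_pos h7 h8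
        linarith
      · exact heq
      · exfalso
        have h5 : z.im < Real.pi := ((le_abs_self _).trans h3).trans_lt hpl
        have h6 := im_mu_ge hb hgt.le h5
        rw [him] at h6
        have h7 := W_pos hb hn z.re
        have h8 := Real.sin_pos_of_pos_of_lt_pi hgt h5
        have h9 := mul_pos h7 h8
        linarith
    refine ⟨hz, ?_⟩
    have hzr : z = ((z.re : ℝ) : ℂ) := by
      apply Complex.ext
      · rw [ofReal_re]
      · rw [ofReal_im, hz]
    have hzx : |z.re| ≤ 0.155 := abs_le.2 ⟨by linarith, by linarith⟩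
    have hV : 0 ≤ Vz b := by
      have := w.big.hV
      linarith
    have m1 := (mu_diff w.big w.abs1 hzx h1).1
    have m2 := (mu_diff w.big hzx w.abs2 h2).1
    have q1 : (mu b (X1 : ℂ)).re = (N1 : ℝ) + 1 / 2 := by
      rw [w.h1, D2a_re]
    have q2 : (mu b (X2 : ℂ)).re = (N2 : ℝ) + 1 / 2 := by
      rw [w.h2, D2a_re]
    have q3 : (mu b ((z.re : ℝ) : ℂ)).re = (k : ℝ) := by
      rw [← hzr, hk1, intCast_re]
    rw [q1, q3] at m1
    rw [q2, q3] at m2
    have r1 : 0 ≤ 0.856 * Vz b * (z.re - X1) := by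
      have : 0 ≤ z.re - X1 := by linarith
      positivity
    have r2 : 0 ≤ 0.856 * Vz b * (X2 - z.re) := by
      have : 0 ≤ X2 - z.re := by linarith
      positivity
    have s1 : (N1 : ℤ) < k := by
      have : (N1 : ℝ) < (k : ℝ) := by linarith
      exact_mod_cast this
    have s2 : k < (N2 : ℤ) + 1 := by
      have : (k : ℝ) < (N2 : ℝ) + 1 := by linarith
      exact_mod_cast this
    refine ⟨k.toNat, by omega, by omega, ?_⟩
    rw [hk1]
    have : ((k.toNat : ℤ) : ℂ) = (k : ℂ) := by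
      rw [Int.toNat_of_nonneg (by omega)]
    rw [← this]
    norm_cast
  · rintro ⟨-, j, -, -, hj⟩
    unfold Dk
    rw [hj, Complex.sin_eq_zero_iff]
    exact ⟨(j : ℤ), by push_cast; ring⟩

/-- PROOF. `deriv Dk = cos(π μ) π v` and `cos (π j) = (-1)^j`, `sin` is not needed. -/
theorem deriv_Dk (hb : Ok b) {x : ℝ} {j : ℕ} (hj : mu b (x : ℂ) = (j : ℂ)) :
    deriv (Dk b) (x : ℂ) = (-1) ^ j * Real.pi * vv b x := by
  have hx : |((x : ℝ) : ℂ).im| < Real.pi := by
    rw [ofReal_im, abs_zero]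
    exact Real.pi_pos
  have h1 := ((hasDerivAt_mu hb hx).const_mul (Real.pi : ℂ)).csin
  have h2 : deriv (Dk b) (x : ℂ) = Complex.cos (Real.pi * mu b (x : ℂ)) *
      (Real.pi * vv b (x : ℂ)) := h1.deriv
  have h3 : Complex.cos ((j : ℂ) * (Real.pi : ℂ)) = (-1) ^ j := by
    have e1 := congrArg (fun r : ℝ => (r : ℂ)) (Real.cos_nat_mul_pi j)
    push_cast at e1
    exact e1
  rw [h2, hj, mul_comm (Real.pi : ℂ) (j : ℂ), h3]
  ring

end Pool.Agent.LP
end

section

set_option autoImplicit false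

/-! # D2b: the window identity -/

namespace Pool.Agent.LP

open Complex MeasureTheory

variable {n : ℕ} {b : Fin n → ℝ} {p : ℝ}

private theorem D2b_ofReal {z : ℂ} (h : z.im = 0) : z = ((z.re : ℝ) : ℂ) :=
  Complex.ext (by simp) (by simp [h])

private theorem D2b_inj (h : Big p b) {x x' : ℝ} (hx : |x| ≤ 0.155) (hx' : |x'| ≤ 0.155)
    (e : mu b (x : ℂ) = mu b (x' : ℂ)) : x = x' := by
  have hV : 0 < Vz b := by
    have h1 := h.hV
    have h2 := h.hp
    linarith
  rcases lt_trichotomy x x' with hl | hl | hl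
  · have h1 := (mu_diff h hx hx' hl.le).1
    rw [e, sub_self] at h1
    have h2 : 0 < 0.856 * Vz b * (x' - x) := by
      have : 0 < x' - x := sub_pos.2 hl
      positivity
    linarith
  · exact hl
  · have h1 := (mu_diff h hx' hx hl.le).1
    rw [e, sub_self] at h1
    have h2 : 0 < 0.856 * Vz b * (x - x') := by
      have : 0 < x - x' := sub_pos.2 hl
      positivity
    linarith

/-- the value of the residue -/
private theorem D2b_res (h : Big p b) {j : ℕ} {x : ℝ} (hx : |x| ≤ 0.155)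
    (hj : mu b (x : ℂ) = (j : ℂ)) (α β : ℂ) :
    (α + β * mu b x) * Nk p b x / ((-1) ^ j * Real.pi * vv b x) =
      (-1) ^ j * (α + β * j) * (th p b j : ℂ) / Real.pi := by
  have hv : vv b (x : ℂ) ≠ 0 := by
    rw [vv_ofReal h.ok]
    exact_mod_cast (W_pos h.ok h.n_pos x).ne'
  have hpi : (Real.pi : ℂ) ≠ 0 := by exact_mod_cast Real.pi_ne_zero
  have h1 : Nk p b x = (th p b j : ℂ) * vv b x := by
    rw [Nk, th_eq h j hx hj, Complex.ofReal_exp]
    congr 2
    have e1 := D2b_ofReal (Lam_ofReal_im h.ok x)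
    have e2 := D2b_ofReal (lg_ofReal_im h hx)
    push_cast
    rw [← e1, ← e2, hj]
    ring
  have h2 : ((-1 : ℂ) ^ j) * (-1) ^ j = 1 := by
    rw [← mul_pow]; norm_num
  have h3 : ((-1 : ℂ) ^ j) ≠ 0 := pow_ne_zero _ (by norm_num)
  rw [h1, hj, div_eq_div_iff (mul_ne_zero (mul_ne_zero h3 hpi) hv) hpi]
  linear_combination (-(α + β * j) * (th p b j : ℂ) * vv b x * Real.pi) * h2

/-- The window identity. PROOF. `bdr_residue` with `N = (α + β μ) Nk`, `D = Dk`, `T = π/p`, `S` = the set of the points `ζ_j`, `N1 < j ≤ N2`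
(`Win.zeta`, unique and distinct for different `j` because `μ` is injective on the real window), `U` = an open set such as
`{|Re z| < 0.2, |Im z| < 0.06}` intersected with the set where everything is holomorphic; to have differentiability of `lg` on an OPEN set
containing the closed rectangle note that the rectangle lies in the interior of `Rg` (`9.8/64 < 0.155`, `π/64 < 0.05`), so `U = interior`
`{|Re z| < 0.155, |Im z| < 0.05}` works. Residue at `ζ_j`: `(α + β j) exp(p(Λ - jζ) + p lg) v/((-1)^j π v) = (-1)^j (α + β j) t_j/π` (`th_eq`). -/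
theorem window_identity {N1 N2 : ℕ} {X1 X2 : ℝ} (w : Win p b N1 N2 X1 X2) (α β : ℂ) :
    bdr X1 X2 (Real.pi / p) (fun z => (α + β * mu b z) * Nk p b z / Dk b z) =
      2 * ∑ j ∈ Finset.Ioc N1 N2, (-1) ^ j * (α + β * j) * (th p b j : ℂ) := by
  classical
  have hB := w.big
  have hok := hB.ok
  have hp : 64 ≤ p := hB.hp
  have hp0 : 0 < p := by linarith
  have hpi3 : Real.pi < 3.15 := Real.pi_lt_d2
  have hpi2 : 3 < Real.pi := Real.pi_gt_three
  have hT : 0 < Real.pi / p := by positivity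
  have hT5 : Real.pi / p < 0.05 := by
    rw [div_lt_iff₀ hp0]
    linarith
  have hX1 : -0.154 < X1 := by
    by_contra hc
    have h1 := w.lo1
    have h2 : p * X1 ≤ p * (-0.154) := mul_le_mul_of_nonneg_left (by linarith) hp0.le
    linarith
  have hX2 : X2 < 0.154 := by
    by_contra hc
    have h1 := w.hi2
    have h2 : p * (0.154) ≤ p * X2 := mul_le_mul_of_nonneg_left (by linarith) hp0.le
    linarith
  have hX : X1 < X2 := by
    by_contra hc
    have h1 := w.hi1
    have h2 := w.lo2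
    have h3 : p * X2 ≤ p * X1 := mul_le_mul_of_nonneg_left (by linarith) hp0.le
    linarith
  have habs : ∀ x : ℝ, X1 ≤ x → x ≤ X2 → |x| < 0.155 := fun x h1 h2 =>
    abs_lt.2 ⟨by linarith, by linarith⟩
  have hzeta : ∀ j : ℕ, ∃ x : ℝ, N1 < j → j ≤ N2 → X1 < x ∧ x < X2 ∧ mu b (x : ℂ) = (j : ℂ) := by
    intro j
    by_cases h : N1 < j ∧ j ≤ N2
    · obtain ⟨x, hx⟩ := w.zeta h.1 h.2
      exact ⟨x, fun _ _ => hx⟩
    · exact ⟨0, fun h1 h2 => absurd ⟨h1, h2⟩ h⟩
  choose ζ hζ using hzeta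
  set S : Finset ℂ := (Finset.Ioc N1 N2).image fun j => ((ζ j : ℝ) : ℂ) with hS
  have hU1 : IsOpen {z : ℂ | |z.re| < 0.155 ∧ |z.im| < 0.05} :=
    (isOpen_lt (Complex.continuous_re.abs) continuous_const).inter
      (isOpen_lt (Complex.continuous_im.abs) continuous_const)
  have hUpi : ∀ z ∈ {z : ℂ | |z.re| < 0.155 ∧ |z.im| < 0.05}, |z.im| < Real.pi := fun z hz => by
    have := hz.2
    linarith
  have key := bdr_residue X1 X2 (Real.pi / p) hX hT (fun z => (α + β * mu b z) * Nk p b z) (Dk b)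
    {z : ℂ | |z.re| < 0.155 ∧ |z.im| < 0.05} hU1
    (fun z h1 h2 h3 => ⟨habs _ h1 h2, lt_of_le_of_lt h3 hT5⟩) ?_ ?_ S ?_ ?_ ?_
  · rw [key, hS, Finset.sum_image]
    · have hpi : (Real.pi : ℂ) ≠ 0 := by exact_mod_cast Real.pi_ne_zero
      rw [mul_assoc, Finset.mul_sum]
      congr 1
      refine Finset.sum_congr rfl fun j hj => ?_
      obtain ⟨h1, h2, h3⟩ := hζ j (Finset.mem_Ioc.1 hj).1 (Finset.mem_Ioc.1 hj).2
      rw [deriv_Dk hok h3, D2b_res hB (habs _ h1.le h2.le).le h3]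
      field_simp
    · intro j hj k hk e
      obtain ⟨-, -, h3⟩ := hζ j (Finset.mem_Ioc.1 hj).1 (Finset.mem_Ioc.1 hj).2
      obtain ⟨-, -, h3'⟩ := hζ k (Finset.mem_Ioc.1 hk).1 (Finset.mem_Ioc.1 hk).2
      have e1 : ((ζ j : ℝ) : ℂ) = ((ζ k : ℝ) : ℂ) := e
      rw [e1, h3'] at h3
      exact_mod_cast h3.symm
  · intro z hz
    have hz' := hUpi z hz
    have hRg : Rg z := ⟨hz.1.le, hz.2.le⟩
    refine DifferentiableAt.differentiableWithinAt ?_
    have d1 := (hasDerivAt_mu hok hz').differentiableAt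
    have d2 := (hasDerivAt_Lam hok hz').differentiableAt
    have d3 := (hasDerivAt_vv hok hz').differentiableAt
    have d4 := (hasDerivAt_lg hB hRg).differentiableAt
    have d5 : DifferentiableAt ℂ (Nk p b) z := by
      unfold Nk
      fun_prop
    fun_prop
  · intro z hz
    refine DifferentiableAt.differentiableWithinAt ?_
    have d1 := (hasDerivAt_mu hok (hUpi z hz)).differentiableAt
    unfold Dk
    fun_prop
  · intro z hz
    obtain ⟨j, hj, rfl⟩ := Finset.mem_image.1 hz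
    obtain ⟨h1, h2, -⟩ := hζ j (Finset.mem_Ioc.1 hj).1 (Finset.mem_Ioc.1 hj).2
    refine ⟨by simpa using h1, by simpa using h2, by simpa using hT⟩
  · intro z h1 h2 h3
    rw [Dk_zero_iff w h1 h2 h3]
    constructor
    · rintro ⟨h4, j, hj1, hj2, hj3⟩
      refine Finset.mem_image.2 ⟨j, Finset.mem_Ioc.2 ⟨hj1, hj2⟩, ?_⟩
      obtain ⟨h5, h6, h7⟩ := hζ j hj1 hj2
      have e1 := D2b_ofReal h4
      rw [e1] at hj3 ⊢
      congr 1
      exact D2b_inj hB (habs _ h5.le h6.le).le (habs _ h1 h2).le (h7.trans hj3.symm)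
    · intro h4
      obtain ⟨j, hj, rfl⟩ := Finset.mem_image.1 h4
      refine ⟨by simp, j, (Finset.mem_Ioc.1 hj).1, (Finset.mem_Ioc.1 hj).2, ?_⟩
      exact (hζ j (Finset.mem_Ioc.1 hj).1 (Finset.mem_Ioc.1 hj).2).2.2
  · intro z hz
    obtain ⟨j, hj, rfl⟩ := Finset.mem_image.1 hz
    obtain ⟨h1, h2, h3⟩ := hζ j (Finset.mem_Ioc.1 hj).1 (Finset.mem_Ioc.1 hj).2
    rw [deriv_Dk hok h3, vv_ofReal hok]
    have hW := W_pos hok hB.n_pos (ζ j)
    have hW' : (W b (ζ j) : ℂ) ≠ 0 := by exact_mod_cast hW.ne'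
    have hpi : (Real.pi : ℂ) ≠ 0 := by exact_mod_cast Real.pi_ne_zero
    exact mul_ne_zero (mul_ne_zero (pow_ne_zero _ (by norm_num)) hpi) hW'

end Pool.Agent.LP
end

section

set_option autoImplicit false

/-! collects the parts -/
end

section

set_option autoImplicit false

/-! # D3: top and bottom side -/

namespace Pool.Agent.LP

open Complex MeasureTheory

variable {n : ℕ} {b : Fin n → ℝ} {p : ℝ}

private theorem D3_aux_T (h : Big p b) : 0 < Real.pi / p ∧ Real.pi / p ≤ 0.05 := by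
  have hp : 64 ≤ p := h.hp
  have hpi : Real.pi ≤ 3.1416 := Real.pi_lt_d4.le
  refine ⟨div_pos Real.pi_pos (by linarith), ?_⟩
  rw [div_le_iff₀ (by linarith)]
  nlinarith

private theorem D3_aux_Rg {N1 N2 : ℕ} {X1 X2 : ℝ} (w : Win p b N1 N2 X1 X2) {x : ℝ}
    (h1 : X1 ≤ x) (h2 : x ≤ X2) : Rg ((x : ℂ) + ((Real.pi / p : ℝ) : ℂ) * I) := by
  have hT := D3_aux_T w.big
  have ha := abs_le.1 w.abs1
  have hb := abs_le.1 w.abs2
  constructor
  · simp only [add_re, ofReal_re, mul_re, ofReal_im, I_re, I_im]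
    rw [abs_le]
    constructor <;> linarith
  · simp only [add_im, ofReal_im, mul_im, ofReal_re, I_re, I_im]
    rw [abs_le]
    constructor <;> linarith

private theorem D3_aux_conj (h : Big p b) {z : ℂ} (hz : Rg z) (α β : ℝ) :
    ((α : ℂ) + β * mu b ((starRingEnd ℂ) z)) * Nk p b ((starRingEnd ℂ) z) /
        Dk b ((starRingEnd ℂ) z) =
      (starRingEnd ℂ) (((α : ℂ) + β * mu b z) * Nk p b z / Dk b z) := by
  have him : |z.im| < Real.pi := by
    have h1 := hz.2
    have h2 := Real.pi_gt_three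
    linarith
  have hN : Nk p b ((starRingEnd ℂ) z) = (starRingEnd ℂ) (Nk p b z) := by
    unfold Nk
    rw [Lam_conj h.ok him, mu_conj, lg_conj' h hz, vv_conj, map_mul, ← exp_conj]
    congr 2
    simp only [map_add, map_mul, map_sub, conj_ofReal]
  have hD : Dk b ((starRingEnd ℂ) z) = (starRingEnd ℂ) (Dk b z) := by
    unfold Dk
    rw [mu_conj, ← sin_conj]
    congr 1
    simp only [map_mul, conj_ofReal]
  rw [hN, hD, mu_conj]
  simp only [map_mul, map_div₀, map_add, conj_ofReal]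

private theorem D3_aux_sin (m : ℂ) :
    (sin (Real.pi * m))⁻¹ =
      -2 * I * exp (Real.pi * I * m) * (1 / (1 - exp (2 * Real.pi * I * m))) := by
  have h1 : sin (Real.pi * m) =
      exp (-(Real.pi * I * m)) * (1 - exp (2 * Real.pi * I * m)) * (I / 2) := by
    have h2 : exp (2 * Real.pi * I * m) = exp (Real.pi * I * m) * exp (Real.pi * I * m) := by
      rw [← exp_add]; congr 1; ring
    have h3 : exp (-(Real.pi * I * m)) * exp (Real.pi * I * m) = 1 := by
      rw [← exp_add]; simp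
    rw [sin, h2, mul_sub, mul_one, ← mul_assoc, h3, one_mul]
    have h4 : exp (-(Real.pi * m) * I) = exp (-(Real.pi * I * m)) := by congr 1; ring
    have h5 : exp (Real.pi * m * I) = exp (Real.pi * I * m) := by congr 1; ring
    rw [h4, h5]; ring
  rw [h1, mul_inv, mul_inv, ← exp_neg, neg_neg, inv_div]
  have h6 : (2 : ℂ) / I = -2 * I := by
    rw [div_I]; ring
  rw [h6]; ring

private theorem D3_aux_top (h : Big p b) {s : ℝ} (hz : Rg (zz p s)) (α β : ℝ) :
    ((α : ℂ) + β * mu b (zz p s)) * Nk p b (zz p s) / Dk b (zz p s) =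
      -2 * I * (exp (phi p b s) * ee p b s * ((α : ℂ) + β * mu b (zz p s))) := by
  have hv : vv b (zz p s) ≠ 0 := by
    intro h0
    have h1 := (norm_vv_le5 h.ok hz.2).2.2.2
    rw [h0] at h1
    have h2 := W_ge27 h (x := (zz p s).re) (by linarith [hz.1])
    simp only [zero_re] at h1
    linarith
  unfold Nk Dk phi ee
  rw [div_eq_mul_inv, D3_aux_sin]
  rw [exp_add _ (log _), exp_log hv]
  have e1 : exp (↑p * (Lam b (zz p s) - mu b (zz p s) * zz p s) + ↑Real.pi * I * mu b (zz p s) +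
      ↑p * lg b (zz p s)) = exp (↑p * (Lam b (zz p s) - mu b (zz p s) * zz p s) +
        ↑p * lg b (zz p s)) * exp (↑Real.pi * I * mu b (zz p s)) := by
    rw [← exp_add]; congr 1; ring
  rw [e1]
  ring

/-- PROOF. With `T = π/p`, `K(z) = (α + β μ) Nk/Dk`: `K(conj z) = conj K(z)` (`mu_conj`, `Lam_conj`, `lg_conj'`, `vv_conj`), so
`(1/i)(∫ K(x - iT) - ∫ K(x + iT)) = (1/i)(-2i) Im ∫ K(x+iT) dx = -2 Im ∫ K(x + iT) dx`. On the top side `Im μ > 0` and
`1/sin(πμ) = -2i e^{iπμ}/(1 - e^{2πiμ})`, so `K = -2i (α+βμ) Y`, `Y = e^{p(Λ-μz) + p lg + iπμ} v/(1-e^{2πiμ}) = exp(phi) ee` at `z = zz p s`, `x = s/p`;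
`-2 Im(-2i w) = 4 Re w`; substitution `x = s/p` gives the factor `1/p`. (`exp(log v) = v`, `v ≠ 0`.) -/
theorem top_bottom {N1 N2 : ℕ} {X1 X2 : ℝ} (w : Win p b N1 N2 X1 X2) (α β : ℝ) :
    bdr X1 X2 (Real.pi / p) (fun z => ((α : ℂ) + β * mu b z) * Nk p b z / Dk b z) =
      ((∫ v in (-(Real.pi / p))..(Real.pi / p),
          ((α : ℂ) + β * mu b ((X2 : ℂ) + v * I)) * Nk p b ((X2 : ℂ) + v * I) /
            Dk b ((X2 : ℂ) + v * I)) -
        ∫ v in (-(Real.pi / p))..(Real.pi / p),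
          ((α : ℂ) + β * mu b ((X1 : ℂ) + v * I)) * Nk p b ((X1 : ℂ) + v * I) /
            Dk b ((X1 : ℂ) + v * I)) +
        (4 / p * (∫ s in (p * X1)..(p * X2),
          exp (phi p b s) * ee p b s * ((α : ℂ) + β * mu b (zz p s))).re : ℝ) := by
  have hp64 : 64 ≤ p := w.big.hp
  have hp0 : 0 < p := by linarith
  have hX : X1 ≤ X2 := by
    have h1 := w.hi1
    have h2 := w.lo2
    by_contra hcon
    push Not at hcon
    nlinarith
  set K : ℂ → ℂ := fun z => ((α : ℂ) + β * mu b z) * Nk p b z / Dk b z with hK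
  set F : ℝ → ℂ := fun s => exp (phi p b s) * ee p b s * ((α : ℂ) + β * mu b (zz p s)) with hF
  set T : ℂ := ((Real.pi / p : ℝ) : ℂ) with hT
  have hbot : ∫ x in X1..X2, K ((x : ℂ) - T * I) =
      (starRingEnd ℂ) (∫ x in X1..X2, K ((x : ℂ) + T * I)) := by
    rw [intervalIntegral.integral_of_le hX, intervalIntegral.integral_of_le hX, ← integral_conj]
    refine setIntegral_congr_fun measurableSet_Ioc fun x hx => ?_
    have hz := D3_aux_Rg w hx.1.le hx.2
    have h1 : ((x : ℂ) - T * I) = (starRingEnd ℂ) ((x : ℂ) + T * I) := by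
      rw [hT, map_add, map_mul, conj_ofReal, conj_ofReal, conj_I]; ring
    show K ((x : ℂ) - T * I) = (starRingEnd ℂ) (K ((x : ℂ) + T * I))
    rw [h1]
    exact D3_aux_conj w.big hz α β
  have htop : ∫ x in X1..X2, K ((x : ℂ) + T * I) =
      -2 * I * ((p : ℂ)⁻¹ * ∫ s in (p * X1)..(p * X2), F s) := by
    have h1 : ∫ x in X1..X2, F (p * x) = (p : ℂ)⁻¹ * ∫ s in (p * X1)..(p * X2), F s := by
      have h2 := intervalIntegral.integral_comp_mul_left (a := X1) (b := X2) F hp0.ne'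
      rw [h2, real_smul, ofReal_inv]
    rw [← h1, ← intervalIntegral.integral_const_mul]
    refine intervalIntegral.integral_congr fun x hx => ?_
    rw [Set.uIcc_of_le hX] at hx
    have hz := D3_aux_Rg w hx.1 hx.2
    have h3 : (x : ℂ) + T * I = zz p (p * x) := by
      have hpc : (p : ℂ) ≠ 0 := by exact_mod_cast hp0.ne'
      rw [hT, zz]
      push_cast
      field_simp
    have hz' : Rg (zz p (p * x)) := by rw [← h3]; exact hz
    show K ((x : ℂ) + T * I) = -2 * I * F (p * x)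
    rw [h3]
    exact D3_aux_top w.big hz' α β
  unfold bdr
  congr 1
  rw [hbot]
  set J : ℂ := ∫ x in X1..X2, K ((x : ℂ) + T * I) with hJ
  have h5 : (1 / I) * ((starRingEnd ℂ) J - J) = ((-2 * J.im : ℝ) : ℂ) := by
    have h6 : (starRingEnd ℂ) J - J = -((2 * J.im : ℝ) : ℂ) * I := by
      have := sub_conj J
      rw [← neg_sub, this]; push_cast; ring
    rw [h6]
    have hI : (1 / I) * I = 1 := one_div_mul_cancel I_ne_zero
    push_cast
    linear_combination (-(2 * (J.im : ℂ))) * hI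
  rw [h5]
  congr 1
  rw [htop]
  have h7 : (-2 * I * ((p : ℂ)⁻¹ * ∫ s in (p * X1)..(p * X2), F s)) =
      ((-2 * p⁻¹ : ℝ) : ℂ) * (I * ∫ s in (p * X1)..(p * X2), F s) := by
    push_cast; ring
  rw [h7, im_ofReal_mul, I_mul_im]
  field_simp
  ring

end Pool.Agent.LP
end
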