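import Pool.Agent.Lib.MP_f91407_an.LP.D4b
import Pool.Agent.Lib.MP_f91407_an.Mg.G010
import Pool.Agent.Lib.MP_f91407_an.Mg.G014

section

set_option autoImplicit false

/-! # D4c: the vertical sides -/

namespace Pool.Agent.LP

open Complex MeasureTheory

variable {n : ℕ} {b : Fin n → ℝ} {p : ℝ}

private theorem D4c_xy (h : Big p b) {x y : ℝ} (hx2 : p * |x| ≤ 9.8) (hy : p * |y| ≤ Real.pi) :
    |x| ≤ 0.155 ∧ |y| ≤ 0.05 := by
  have hp := h.hp
  have hpi2 := Real.pi_lt_d2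
  have h1 := abs_nonneg x
  have h2 := abs_nonneg y
  constructor
  · nlinarith
  · nlinarith

/-- PROOF. Multiply: `‖Nk‖ ≤ exp(p(-0.428 V x² + 0.579 W y²) + p Re lg(0) + p (0.713|x| + 0.262|y|)) * 1.001 * 1.168 V`; with `t = p|y| ∈ [0, π]`:
`(W/p)(0.579 t² - 0.998 π t) ≤ 0` because `0.579 π ≤ 0.998 π`; `0.262 t ≤ 0.8232`; with `X = p|x| ∈ [8, 9.8]`, `S = V/p ≥ 0.65`:
`-0.428 S X² + 0.713 X` is decreasing on `[8, ∞)`, hence `≤ -27.392 S + 5.704`. `1.1692/0.489 ≤ 2.4`. -/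
theorem side_bd (h : Big p b) {x y : ℝ} (hx1 : 8 ≤ p * |x|) (hx2 : p * |x| ≤ 9.8)
    (hy : p * |y| ≤ Real.pi) (N : ℕ) (hN : mu b (x : ℂ) = (N : ℂ) + 1 / 2) :
    ‖Nk p b (x + y * I) / Dk b (x + y * I)‖ ≤
      2.4 * Vz b * Real.exp (p * (lg b 0).re) * Real.exp (-(27.39 * (Vz b / p)) + 6.54) := by
  obtain ⟨hx, hy1⟩ := D4c_xy h hx2 hy
  have hp := h.hp
  have hp0 : 0 < p := by linarith
  have hV := h.hV
  have hV0 : 0 < Vz b := by nlinarith
  have hW := W_bd h hx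
  have hW0 : 0 ≤ W b x := W_nonneg h.ok x
  have e1 := expo_real h hx
  have e2 := expo_vert h hx hy1
  have e3 := lg_re_le h hx hy1
  have e4 := norm_Dk_ge h hx hy1 N hN
  have hzre : ((x : ℂ) + y * I).re = x := by simp
  have hzim : ((x : ℂ) + y * I).im = y := by simp
  have e5 := (norm_vv_le5 h.ok (z := (x : ℂ) + y * I) (by rw [hzim]; exact hy1)).1
  rw [hzre] at e5
  obtain ⟨z, hz⟩ : ∃ z : ℂ, z = (x : ℂ) + y * I := ⟨_, rfl⟩
  rw [← hz] at e2 e3 e4 e5 ⊢
  have e6 : ‖Nk p b z‖ = Real.exp (p * (Lam b z - mu b z * z).re + p * (lg b z).re) *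
      ‖vv b z‖ := by
    rw [Nk, norm_mul, Complex.norm_exp]
    congr 2
    rw [Complex.add_re, Complex.re_ofReal_mul, Complex.re_ofReal_mul]
  have e7 : (lg b z).re ≤ (lg b 0).re + (0.713 * |x| + 0.262 * |y|) := by
    have := (abs_le.1 e3).2
    linarith
  have hpi := Real.pi_pos
  have hpi2 := Real.pi_lt_d2
  -- the exponent
  obtain ⟨S, hS⟩ : ∃ S, S = Vz b / p := ⟨_, rfl⟩
  have hS1 : 0.65 ≤ S := by
    rw [hS, le_div_iff₀ hp0]
    exact hV
  have hVS : Vz b = S * p := by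
    rw [hS, div_mul_cancel₀ _ hp0.ne']
  obtain ⟨X, hX⟩ : ∃ X, X = p * |x| := ⟨_, rfl⟩
  rw [← hX] at hx1 hx2
  have f1 : p * (0.428 * Vz b * x ^ 2) = 0.428 * S * X ^ 2 := by
    rw [hX, hVS, mul_pow, sq_abs]
    ring
  have f2 : p * (0.579 * W b x * y ^ 2) ≤ Real.pi * (0.998 * W b x * |y|) := by
    have g1 : p * (0.579 * W b x * y ^ 2) = 0.579 * (W b x * |y|) * (p * |y|) := by
      rw [← sq_abs y]
      ring
    have g2 : 0 ≤ W b x * |y| := mul_nonneg hW0 (abs_nonneg y)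
    rw [g1]
    calc 0.579 * (W b x * |y|) * (p * |y|) ≤ 0.579 * (W b x * |y|) * Real.pi :=
          mul_le_mul_of_nonneg_left hy (by positivity)
      _ ≤ 0.998 * (W b x * |y|) * Real.pi := by
          apply mul_le_mul_of_nonneg_right _ hpi.le
          linarith
      _ = Real.pi * (0.998 * W b x * |y|) := by ring
  have f3 : -(0.428 * S * X ^ 2) + 0.713 * X ≤ -(27.392 * S) + 5.704 := by
    have g1 : 0 ≤ X - 8 := by linarith
    have g2 : 0.713 ≤ 0.428 * (S * (X + 8)) := by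
      have : 0.65 * 16 ≤ S * (X + 8) := mul_le_mul hS1 (by linarith) (by norm_num) (by linarith)
      linarith
    nlinarith [mul_nonneg g1 (sub_nonneg.2 g2)]
  have f4 : p * (0.713 * |x| + 0.262 * |y|) ≤ 0.713 * X + 0.83 := by
    have : p * |y| ≤ 3.15 := by linarith
    rw [hX]
    nlinarith
  have hexp : p * (Lam b z - mu b z * z).re + p * (lg b z).re ≤
      p * (lg b 0).re + (-(27.39 * S) + 6.54) + Real.pi * (0.998 * W b x * |y|) := by
    have g1 : p * (Lam b z - mu b z * z).re ≤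
        p * (-(0.428 * Vz b * x ^ 2) + 0.579 * W b x * y ^ 2) :=
      mul_le_mul_of_nonneg_left (by linarith) hp0.le
    have g2 : p * (lg b z).re ≤ p * ((lg b 0).re + (0.713 * |x| + 0.262 * |y|)) :=
      mul_le_mul_of_nonneg_left e7 hp0.le
    nlinarith
  have hD : 0 < 0.489 * Real.exp (Real.pi * (0.998 * W b x * |y|)) := by positivity
  rw [norm_div, e6, div_le_iff₀ (hD.trans_le e4)]
  calc Real.exp (p * (Lam b z - mu b z * z).re + p * (lg b z).re) * ‖vv b z‖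
      ≤ Real.exp (p * (lg b 0).re + (-(27.39 * S) + 6.54) +
          Real.pi * (0.998 * W b x * |y|)) * (1.1692 * Vz b) := by
        apply mul_le_mul (Real.exp_le_exp.2 hexp) _ (norm_nonneg _) (Real.exp_pos _).le
        nlinarith [hW.2]
    _ = (1.1692 / 0.489 * Vz b * Real.exp (p * (lg b 0).re) * Real.exp (-(27.39 * S) + 6.54)) *
          (0.489 * Real.exp (Real.pi * (0.998 * W b x * |y|))) := by
        rw [Real.exp_add, Real.exp_add]
        ring
    _ ≤ (2.4 * Vz b * Real.exp (p * (lg b 0).re) * Real.exp (-(27.39 * S) + 6.54)) *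
          (0.489 * Real.exp (Real.pi * (0.998 * W b x * |y|))) := by
        apply mul_le_mul_of_nonneg_right _ hD.le
        apply mul_le_mul_of_nonneg_right _ (Real.exp_pos _).le
        apply mul_le_mul_of_nonneg_right _ (Real.exp_pos _).le
        apply mul_le_mul_of_nonneg_right _ hV0.le
        norm_num
    _ ≤ 2.4 * Vz b * Real.exp (p * (lg b 0).re) * Real.exp (-(27.39 * (Vz b / p)) + 6.54) *
          ‖Dk b z‖ := by
        rw [← hS]
        exact mul_le_mul_of_nonneg_left e4 (by positivity)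

/-- PROOF. Mean value inequality on the segment from `0` to `z` (`‖v‖ ≤ 1.001 * 1.168 V`): `|z| ≤ √(9.8² + π²)/p ≤ 10.3/p`. -/
theorem mu_sub_le (h : Big p b) {x y : ℝ} (hx2 : p * |x| ≤ 9.8) (hy : p * |y| ≤ Real.pi) :
    ‖mu b (x + y * I) - Mz b‖ ≤ 12.1 * (Vz b / p) := by
  obtain ⟨hx, hy1⟩ := D4c_xy h hx2 hy
  have hp := h.hp
  have hp0 : 0 < p := by linarith
  have hV := h.hV
  have hV0 : 0 < Vz b := by nlinarith
  have hpi := Real.pi_pos
  have hpi2 := Real.pi_lt_d2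
  have hpi3 := Real.pi_gt_three
  let s : Set ℂ := Complex.reLm ⁻¹' Set.Icc (-0.155) 0.155 ∩ Complex.imLm ⁻¹' Set.Icc (-0.05) 0.05
  have hs : Convex ℝ s := ((convex_Icc _ _).linear_preimage Complex.reLm).inter
    ((convex_Icc _ _).linear_preimage Complex.imLm)
  have hm : ∀ w ∈ s, |w.re| ≤ 0.155 ∧ |w.im| ≤ 0.05 := by
    rintro w ⟨h1, h2⟩
    exact ⟨abs_le.2 h1, abs_le.2 h2⟩
  have hm' : ∀ w : ℂ, |w.re| ≤ 0.155 → |w.im| ≤ 0.05 → w ∈ s := fun w h1 h2 =>
    ⟨abs_le.1 h1, abs_le.1 h2⟩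
  have h0 : (0 : ℂ) ∈ s := hm' 0 (by norm_num) (by norm_num)
  have hz : ((x : ℂ) + y * I) ∈ s := hm' _ (by simpa using hx) (by simpa using hy1)
  have hd : ∀ w ∈ s, HasDerivWithinAt (mu b) (vv b w) s w := by
    intro w hw
    refine (hasDerivAt_mu h.ok ?_).hasDerivWithinAt
    have := (hm w hw).2
    linarith
  have hbd : ∀ w ∈ s, ‖vv b w‖ ≤ 1.1692 * Vz b := by
    intro w hw
    have h1 := (norm_vv_le5 h.ok (hm w hw).2).1
    have h2 := (W_bd h (hm w hw).1).2
    nlinarith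
  have key := hs.norm_image_sub_le_of_norm_hasDerivWithin_le hd hbd h0 hz
  rw [mu_zero, sub_zero] at key
  have hn : ‖(x : ℂ) + y * I‖ ≤ 10.3 / p := by
    rw [le_div_iff₀ hp0]
    have h1 : ‖(x : ℂ) + y * I‖ ^ 2 = x ^ 2 + y ^ 2 := by
      rw [← Complex.normSq_eq_norm_sq, Complex.normSq_add_mul_I]
    have h2 : (‖(x : ℂ) + y * I‖ * p) ^ 2 ≤ 10.3 ^ 2 := by
      rw [mul_pow, h1]
      have h3 : (p * |x|) ^ 2 ≤ 9.8 ^ 2 := pow_le_pow_left₀ (by positivity) hx2 2
      have h4 : (p * |y|) ^ 2 ≤ Real.pi ^ 2 := pow_le_pow_left₀ (by positivity) hy 2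
      have h5 : Real.pi ^ 2 ≤ 3.15 ^ 2 := pow_le_pow_left₀ hpi.le hpi2.le 2
      rw [mul_pow, sq_abs] at h3 h4
      nlinarith
    exact (pow_le_pow_iff_left₀ (by positivity) (by norm_num) two_ne_zero).1 h2
  calc ‖mu b (x + y * I) - Mz b‖ ≤ 1.1692 * Vz b * ‖(x : ℂ) + y * I‖ := key
    _ ≤ 1.1692 * Vz b * (10.3 / p) := mul_le_mul_of_nonneg_left hn (by positivity)
    _ = 1.1692 * 10.3 * (Vz b / p) := by ring
    _ ≤ 12.1 * (Vz b / p) := by
        apply mul_le_mul_of_nonneg_right _ (by positivity)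
        norm_num

end Pool.Agent.LP
end

section

set_option autoImplicit false

/-! collects the parts -/
end

section

set_option autoImplicit false

/-! # D5a: ratios of consecutive `t_j` -/

namespace Pool.Agent.LP

open Complex MeasureTheory

variable {n : ℕ} {b : Fin n → ℝ} {p : ℝ}

private theorem D5a_im (t : ℝ) : |((t : ℂ)).im| < Real.pi := by
  simp [Real.pi_pos]

private theorem D5a_Rg {t : ℝ} (ht : |t| ≤ 0.155) : Rg (t : ℂ) := by
  refine ⟨by simpa using ht, ?_⟩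
  simp only [ofReal_im, abs_zero]
  norm_num

/-- convexity of `Λ` on the real axis -/
private theorem D5a_conv (h : Big p b) {x x' : ℝ} (hxx : x' ≤ x) (hx : |x| ≤ 0.155)
    (hx' : |x'| ≤ 0.155) :
    (mu b x').re * (x - x') ≤ (Lam b x).re - (Lam b x').re ∧
      (Lam b x).re - (Lam b x').re ≤ (mu b x).re * (x - x') := by
  rcases hxx.eq_or_lt with rfl | hlt
  · simp
  have hd : ∀ t : ℝ, HasDerivAt (fun t : ℝ => (Lam b t).re) (mu b t).re t := fun t =>
    (hasDerivAt_Lam h.ok (D5a_im t)).real_of_complex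
  obtain ⟨c, hc, hc2⟩ := exists_hasDerivAt_eq_slope (fun t : ℝ => (Lam b t).re)
    (fun t : ℝ => (mu b t).re) hlt (fun t _ => (hd t).continuousAt.continuousWithinAt)
    (fun t _ => hd t)
  have hc3 : |c| ≤ 0.155 := by
    rw [abs_le] at hx hx' ⊢
    exact ⟨by linarith [hc.1, hx'.1], by linarith [hc.2, hx.2]⟩
  have hV : 0 ≤ Vz b := by
    have := h.hV
    have := h.hp
    nlinarith
  have h1 := (mu_diff h hx' hc3 hc.1.le).1
  have h2 := (mu_diff h hc3 hx hc.2.le).1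
  have h3 : 0 ≤ 0.856 * Vz b * (c - x') :=
    mul_nonneg (by positivity) (by linarith [hc.1])
  have h4 : 0 ≤ 0.856 * Vz b * (x - c) :=
    mul_nonneg (by positivity) (by linarith [hc.2])
  have hpos : 0 < x - x' := by linarith
  have e : (Lam b x).re - (Lam b x').re = (mu b c).re * (x - x') := by
    rw [hc2]
    field_simp
  rw [e]
  exact ⟨mul_le_mul_of_nonneg_right (by linarith) hpos.le,
    mul_le_mul_of_nonneg_right (by linarith) hpos.le⟩

private theorem D5a_lg (h : Big p b) {x x' : ℝ} (hxx : x' ≤ x) (hx : |x| ≤ 0.155)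
    (hx' : |x'| ≤ 0.155) : |(lg b x).re - (lg b x').re| ≤ 0.713 * (x - x') := by
  have hmem : ∀ t ∈ Set.Icc x' x, |t| ≤ 0.155 := by
    intro t ht
    rw [abs_le] at hx hx' ⊢
    exact ⟨by linarith [ht.1, hx'.1], by linarith [ht.2, hx.2]⟩
  have key := (convex_Icc x' x).norm_image_sub_le_of_norm_hasDerivWithin_le
    (f := fun t : ℝ => (lg b t).re) (f' := fun t : ℝ => (ell b t).re) (C := 0.713)
    (x := x') (y := x)
    (fun t ht => (hasDerivAt_lg h (D5a_Rg (hmem t ht))).real_of_complex.hasDerivWithinAt)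
    (fun t ht => by
      rw [Real.norm_eq_abs]
      exact (abs_re_le_norm _).trans (norm_ell_le h (D5a_Rg (hmem t ht))))
    (Set.left_mem_Icc.2 hxx) (Set.right_mem_Icc.2 hxx)
  rw [Real.norm_eq_abs, Real.norm_eq_abs, abs_of_nonneg (sub_nonneg.2 hxx)] at key
  exact key

/-- PROOF. `th_eq` and `(d/dx)(Λ(x) - μ(x)x) = -x W(x)` integrated: for `0 ≤ x' ≤ x`,
`(Λ - μ x)(x) - (Λ - μx)(x') = -∫_{x'}^{x} t W(t) dt ≤ -x' (μ(x) - μ(x')) = -x'` for consecutive integers `μ(x) = j+1`, `μ(x') = j`; the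
`lg`-part by `norm_ell_le`. -/
theorem ratio_right (h : Big p b) (j : ℕ) {x x' : ℝ} (h0 : 0 ≤ x') (hxx : x' ≤ x)
    (hx : |x| ≤ 0.155) (h1 : mu b (x : ℂ) = (j : ℂ) + 1) (h2 : mu b (x' : ℂ) = (j : ℂ)) :
    th p b (j + 1) ≤ Real.exp (-(p * x') + 0.713 * (p * (x - x'))) * th p b j := by
  have hx0 : 0 ≤ x := h0.trans hxx
  have hx' : |x'| ≤ 0.155 := by
    rw [abs_of_nonneg h0]
    rw [abs_of_nonneg hx0] at hx
    linarith
  have hp : 0 < p := by have := h.hp; linarith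
  rw [th_eq h (j + 1) hx (by rw [h1]; push_cast; ring), th_eq h j hx' h2, ← Real.exp_add]
  refine Real.exp_le_exp.2 ?_
  have h3 := (D5a_conv h hxx hx hx').2
  have h4 := (abs_le.1 (D5a_lg h hxx hx hx')).2
  have h5 : (mu b (x : ℂ)).re = (j : ℝ) + 1 := by rw [h1]; simp
  rw [h5] at h3
  have h6 : (Lam b x).re - ((j + 1 : ℕ) : ℝ) * x + (lg b x).re ≤
      (-x' + 0.713 * (x - x')) + ((Lam b x').re - j * x' + (lg b x').re) := by
    push_cast
    nlinarith
  have h7 := mul_le_mul_of_nonneg_left h6 hp.le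
  refine h7.trans (le_of_eq ?_)
  ring

theorem ratio_left (h : Big p b) (j : ℕ) {x x' : ℝ} (h0 : x' ≤ 0) (hxx : x ≤ x')
    (hx : |x| ≤ 0.155) (h1 : mu b (x : ℂ) = (j : ℂ)) (h2 : mu b (x' : ℂ) = (j : ℂ) + 1) :
    th p b j ≤ Real.exp (p * x' + 0.713 * (p * (x' - x))) * th p b (j + 1) := by
  have hx0 : x ≤ 0 := hxx.trans h0
  have hx' : |x'| ≤ 0.155 := by
    rw [abs_of_nonpos h0]
    rw [abs_of_nonpos hx0] at hx
    linarith
  have hp : 0 < p := by have := h.hp; linarith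
  rw [th_eq h j hx h1, th_eq h (j + 1) hx' (by rw [h2]; push_cast; ring), ← Real.exp_add]
  refine Real.exp_le_exp.2 ?_
  have h3 := (D5a_conv h hxx hx' hx).1
  have h4 := (abs_le.1 (D5a_lg h hxx hx' hx)).1
  have h5 : (mu b (x : ℂ)).re = (j : ℝ) := by rw [h1]; simp
  rw [h5] at h3
  have h6 : (Lam b x).re - j * x + (lg b x).re ≤
      (x' + 0.713 * (x' - x)) + ((Lam b x').re - ((j + 1 : ℕ) : ℝ) * x' + (lg b x').re) := by
    push_cast
    nlinarith
  have h7 := mul_le_mul_of_nonneg_left h6 hp.le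
  refine h7.trans (le_of_eq ?_)
  ring

/-- PROOF. `th_eq`, `expo_real`, `lg_re_le`: exponent `≤ -0.428 S X² + 0.713 X + p Re lg(0)`, `X = p|x| ≥ 7.1`, decreasing in `X`. -/
theorem th_le (h : Big p b) (j : ℕ) {x : ℝ} (hx : |x| ≤ 0.155) (hx1 : 7.1 ≤ p * |x|)
    (hj : mu b (x : ℂ) = (j : ℂ)) :
    th p b j ≤ Real.exp (p * (lg b 0).re) * Real.exp (-(21.57 * (Vz b / p)) + 5.07) := by
  have hp : 0 < p := by have := h.hp; linarith
  have hS : 0.65 ≤ Vz b / p := by
    rw [le_div_iff₀ hp]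
    exact h.hV
  rw [th_eq h j hx hj, ← Real.exp_add]
  refine Real.exp_le_exp.2 ?_
  have h1 := expo_real h hx
  have h2 := lg_re_le h (x := x) (y := 0) hx (by norm_num)
  simp only [ofReal_zero, zero_mul, add_zero, abs_zero, mul_zero] at h2
  have h3 := (abs_le.1 h2).2
  have e1 : (Lam b x - mu b x * x).re = (Lam b x).re - j * x := by
    rw [hj]
    simp
  rw [e1] at h1
  set X : ℝ := p * |x| with hX
  set S : ℝ := Vz b / p with hSd
  have e2 : p * (0.428 * Vz b * x ^ 2) = 0.428 * S * X ^ 2 := by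
    rw [hX, hSd, mul_pow, sq_abs]
    field_simp
  have h4 := mul_le_mul_of_nonneg_left h1 hp.le
  have h5 := mul_le_mul_of_nonneg_left h3 hp.le
  have h6 : p * ((Lam b x).re - j * x + (lg b x).re) ≤
      p * (lg b 0).re + (-(0.428 * S * X ^ 2) + 0.713 * X) := by
    have e3 : p * (0.713 * |x|) = 0.713 * X := by rw [hX]; ring
    nlinarith
  refine h6.trans ?_
  have h7 : -(0.428 * S * X ^ 2) + 0.713 * X ≤ -(21.57 * S) + 5.07 := by
    have h8 : 0 ≤ (X - 7.1) * (0.428 * S * (X + 7.1) - 0.713) := by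
      refine mul_nonneg (by linarith) ?_
      nlinarith
    nlinarith
  linarith

end Pool.Agent.LP
end

section

set_option autoImplicit false

/-! # D5b: geometric decay -/

namespace Pool.Agent.LP

open Complex MeasureTheory

variable {n : ℕ} {b : Fin n → ℝ} {p : ℝ}

private theorem D5b_nonneg (h : Big p b) (j : ℕ) : 0 ≤ th p b j := by
  unfold th
  exact Real.rpow_nonneg (mul_nonneg (Real.sqrt_nonneg _) (uu_nonneg h.ok j)) _

private theorem D5b_sqrt : 0 < Real.sqrt (2 * Real.pi) :=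
  Real.sqrt_pos.2 (mul_pos two_pos Real.pi_pos)

private theorem D5b_pos (h : Big p b) {j : ℕ} (hj : j ≤ n) : 0 < th p b j := by
  unfold th
  exact Real.rpow_pos_of_pos (mul_pos D5b_sqrt (uu_pos h.ok hj)) _

private theorem D5b_zero (h : Big p b) {j : ℕ} (hj : n < j) : th p b j = 0 := by
  have hp := h.hp
  unfold th
  rw [uu_eq_zero h.ok hj, mul_zero]
  exact Real.zero_rpow (by linarith)

private theorem D5b_newton (h : Big p b) (j : ℕ) :
    th p b j * th p b (j + 2) ≤ th p b (j + 1) * th p b (j + 1) := by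
  have hp := h.hp
  have hs := D5b_sqrt
  unfold th
  rw [← Real.mul_rpow (mul_nonneg hs.le (uu_nonneg h.ok j))
    (mul_nonneg hs.le (uu_nonneg h.ok (j + 2))),
    ← Real.mul_rpow (mul_nonneg hs.le (uu_nonneg h.ok (j + 1)))
    (mul_nonneg hs.le (uu_nonneg h.ok (j + 1)))]
  refine Real.rpow_le_rpow (mul_nonneg (mul_nonneg hs.le (uu_nonneg h.ok j))
    (mul_nonneg hs.le (uu_nonneg h.ok (j + 2)))) ?_ (by linarith)
  have h1 := uu_newton h.ok j
  have h2 : 0 ≤ Real.sqrt (2 * Real.pi) * Real.sqrt (2 * Real.pi) := by positivity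
  have h3 := mul_le_mul_of_nonneg_left h1 h2
  nlinarith

private theorem D5b_q (h : Big p b) {i j : ℕ} {q : ℝ} (hi : i ≤ n) (hj : j ≤ n)
    (hq : th p b i ≤ q * th p b j) : 0 ≤ q := by
  by_contra hcon
  have h1 := D5b_pos h hi
  have h2 := D5b_pos h hj
  have h3 : q * th p b j < 0 := mul_neg_of_neg_of_pos (not_le.1 hcon) h2
  linarith

/-- Geometric decay to the right. -/
theorem th_geom_right (h : Big p b) {j₀ : ℕ} {q : ℝ} (hj : j₀ + 1 ≤ n)
    (hq : th p b (j₀ + 1) ≤ q * th p b j₀) (k : ℕ) :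
    th p b (j₀ + 1 + k) ≤ q ^ k * th p b (j₀ + 1) := by
  have hq0 : 0 ≤ q := D5b_q h hj (by omega) hq
  have key : ∀ k, th p b (j₀ + k + 1) ≤ q * th p b (j₀ + k) := by
    intro k
    induction k with
    | zero => exact hq
    | succ k ih =>
      by_cases hk : j₀ + k ≤ n
      · have h1 := D5b_newton h (j₀ + k)
        have h2 := D5b_pos h hk
        have h3 : th p b (j₀ + k + 1) * th p b (j₀ + k + 1) ≤
            th p b (j₀ + k + 1) * (q * th p b (j₀ + k)) :=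
          mul_le_mul_of_nonneg_left ih (D5b_nonneg h _)
        have h4 : th p b (j₀ + k) * th p b (j₀ + k + 2) ≤
            th p b (j₀ + k) * (q * th p b (j₀ + k + 1)) := by
          refine (h1.trans h3).trans (le_of_eq ?_)
          ring
        exact le_of_mul_le_mul_left h4 h2
      · have h1 : th p b (j₀ + (k + 1) + 1) = 0 := D5b_zero h (by omega)
        rw [h1]
        exact mul_nonneg hq0 (D5b_nonneg h _)
  induction k with
  | zero => simp
  | succ k ih =>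
    have h1 := key (k + 1)
    have h2 : j₀ + (k + 1) + 1 = j₀ + 1 + (k + 1) := by omega
    have h3 : j₀ + (k + 1) = j₀ + 1 + k := by omega
    rw [h2, h3] at h1
    refine h1.trans ?_
    refine (mul_le_mul_of_nonneg_left ih hq0).trans (le_of_eq ?_)
    ring

/-- Geometric decay to the left. -/
theorem th_geom_left (h : Big p b) {j₀ : ℕ} {q : ℝ} (hj : j₀ + 1 ≤ n)
    (hq : th p b j₀ ≤ q * th p b (j₀ + 1)) (k : ℕ) (hk : k ≤ j₀) :
    th p b (j₀ - k) ≤ q ^ k * th p b j₀ := by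
  have hq0 : 0 ≤ q := D5b_q h (by omega) hj hq
  have key : ∀ k, k ≤ j₀ → th p b (j₀ - k) ≤ q * th p b (j₀ - k + 1) := by
    intro k
    induction k with
    | zero => exact fun _ => hq
    | succ k ih =>
      intro hk
      have ih' := ih (by omega)
      obtain ⟨i, hi⟩ : ∃ i, i = j₀ - (k + 1) := ⟨_, rfl⟩
      have e1 : j₀ - k = i + 1 := by omega
      rw [e1] at ih'
      rw [← hi]
      have h1 := D5b_newton h i
      have h2 := D5b_pos h (j := i + 2) (by omega)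
      have h3 : th p b (i + 1) * th p b (i + 1) ≤ th p b (i + 1) * (q * th p b (i + 1 + 1)) :=
        mul_le_mul_of_nonneg_left ih' (D5b_nonneg h _)
      have h4 : th p b (i + 2) * th p b i ≤ th p b (i + 2) * (q * th p b (i + 1)) := by
        rw [mul_comm (th p b (i + 2)) (th p b i)]
        refine (h1.trans h3).trans (le_of_eq ?_)
        have e2 : i + 1 + 1 = i + 2 := rfl
        rw [e2]
        ring
      exact le_of_mul_le_mul_left h4 h2
  induction k with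
  | zero => simp
  | succ k ih =>
    have h1 := key (k + 1) hk
    have h2 : j₀ - (k + 1) + 1 = j₀ - k := by omega
    rw [h2] at h1
    refine h1.trans ?_
    refine (mul_le_mul_of_nonneg_left (ih (by omega)) hq0).trans (le_of_eq ?_)
    ring

end Pool.Agent.LP
end

section

set_option autoImplicit false

/-! # D7a: values at the saddle `iπ/p` -/

namespace Pool.Agent.LP

open Complex MeasureTheory

variable {n : ℕ} {b : Fin n → ℝ} {p : ℝ}

theorem zz_mem (h : Big p b) {s : ℝ} (hs : |s| ≤ 9.8) : Rg (zz p s) := by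
  have hp : (64 : ℝ) ≤ p := h.hp
  have hp0 : (0 : ℝ) < p := by linarith
  have e : zz p s = ((s / p : ℝ) : ℂ) + ((Real.pi / p : ℝ) : ℂ) * I := by
    simp only [zz]
    push_cast
    ring
  have hre : (zz p s).re = s / p := by rw [e]; simp
  have him : (zz p s).im = Real.pi / p := by rw [e]; simp
  refine ⟨?_, ?_⟩
  · rw [hre, abs_div, abs_of_pos hp0, div_le_iff₀ hp0]
    nlinarith
  · rw [him, abs_of_pos (by positivity), div_le_iff₀ hp0]
    have := Real.pi_lt_d2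
    nlinarith

/-- mean value inequality on a vertical segment -/
private theorem D7a_vert {F F' : ℂ → ℂ} {T : ℝ} {B B' : ℝ → ℝ} {c d : ℂ}
    (hF : ∀ y : ℝ, 0 ≤ y → y ≤ T → HasDerivAt F (F' (y * I)) (y * I))
    (h0 : ‖F 0 - c‖ ≤ B 0) (hB : ∀ x, HasDerivAt B (B' x) x)
    (bound : ∀ y : ℝ, 0 ≤ y → y ≤ T → ‖F' (y * I) * I - d‖ ≤ B' y) :
    ∀ y : ℝ, 0 ≤ y → y ≤ T → ‖F (y * I) - c - d * y‖ ≤ B y := by
  have hd : ∀ y : ℝ, 0 ≤ y → y ≤ T →
      HasDerivAt (fun y : ℝ => F (y * I) - c - d * y) (F' (y * I) * I - d) y := by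
    intro y hy hyT
    have h1 : HasDerivAt (fun y : ℝ => (y : ℂ) * I) I y := by
      simpa using (Complex.ofRealCLM.hasDerivAt (x := y)).mul_const I
    have h2 : HasDerivAt (fun y : ℝ => F (y * I)) (F' (y * I) * I) y :=
      (hF y hy hyT).comp y h1
    have h3 : HasDerivAt (fun y : ℝ => d * (y : ℂ)) d y := by
      simpa using (Complex.ofRealCLM.hasDerivAt (x := y)).const_mul d
    exact (h2.sub_const c).sub h3
  intro y hy hyT
  refine image_norm_le_of_norm_deriv_right_le_deriv_boundary (a := 0) (b := T)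
    (f := fun y : ℝ => F (y * I) - c - d * y) (f' := fun y => F' (y * I) * I - d)
    (B := B) (B' := B') ?_ ?_ ?_ hB ?_ ⟨hy, hyT⟩
  · intro x hx
    exact (hd x hx.1 hx.2).continuousAt.continuousWithinAt
  · intro x hx
    exact (hd x hx.1 hx.2.le).hasDerivWithinAt
  · simpa using h0
  · intro x hx
    exact bound x hx.1 hx.2.le

/-- the segment is in the small strip -/
private theorem D7a_seg (h : Big p b) {y : ℝ} (hy : 0 ≤ y) (hyT : y ≤ 0.05) :
    |((y : ℂ) * I).im| ≤ 0.05 ∧ |((y : ℂ) * I).im| < Real.pi ∧ ((y : ℂ) * I).re = 0 := by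
  have h3 := Real.pi_gt_three
  have e : ((y : ℂ) * I).im = y := by simp
  rw [e, abs_of_nonneg hy]
  refine ⟨hyT, by linarith, by simp⟩

private theorem D7a_vv (h : Big p b) {y : ℝ} (hy : 0 ≤ y) (hyT : y ≤ 0.05) :
    ‖vv b (y * I) - Vz b‖ ≤ 1.001 * Vz b * y := by
  have key := D7a_vert (F := vv b) (F' := vv1 b) (T := 0.05) (B := fun y => 1.001 * Vz b * y)
    (B' := fun _ => 1.001 * Vz b) (c := (Vz b : ℂ)) (d := 0)
    (fun y hy hyT => hasDerivAt_vv h.ok (D7a_seg h hy hyT).2.1) ?_ ?_ ?_ y hy hyT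
  · simpa using key
  · have e := vv_ofReal h.ok 0
    rw [W_zero] at e
    simp only [ofReal_zero] at e
    rw [e]
    simp
  · intro x
    simpa using (hasDerivAt_id x).const_mul (1.001 * Vz b)
  · intro y hy hyT
    obtain ⟨h1, _, h3⟩ := D7a_seg h hy hyT
    have h4 := (norm_vv_le5 h.ok h1).2.1
    rw [h3, W_zero] at h4
    simpa using h4

private theorem D7a_mu (h : Big p b) {y : ℝ} (hy : 0 ≤ y) (hyT : y ≤ 0.05) :
    ‖mu b (y * I) - Mz b‖ ≤ 1.001 * Vz b * y := by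
  have key := D7a_vert (F := mu b) (F' := vv b) (T := 0.05) (B := fun y => 1.001 * Vz b * y)
    (B' := fun _ => 1.001 * Vz b) (c := (Mz b : ℂ)) (d := 0)
    (fun y hy hyT => hasDerivAt_mu h.ok (D7a_seg h hy hyT).2.1) ?_ ?_ ?_ y hy hyT
  · simpa using key
  · rw [mu_zero]
    simp
  · intro x
    simpa using (hasDerivAt_id x).const_mul (1.001 * Vz b)
  · intro y hy hyT
    obtain ⟨h1, _, h3⟩ := D7a_seg h hy hyT
    have h4 := (norm_vv_le5 h.ok h1).1
    rw [h3, W_zero] at h4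
    simpa using h4

private theorem D7a_sq (K x : ℝ) : HasDerivAt (fun y => K * y ^ 2 / 2) (K * x) x := by
  have h := ((hasDerivAt_pow 2 x).const_mul K).div_const 2
  refine h.congr_deriv ?_
  norm_num
  ring

private theorem D7a_mu2 (h : Big p b) {y : ℝ} (hy : 0 ≤ y) (hyT : y ≤ 0.05) :
    ‖mu b (y * I) - Mz b - (Vz b : ℂ) * I * y‖ ≤ 1.001 * Vz b * y ^ 2 / 2 := by
  refine D7a_vert (F := mu b) (F' := vv b) (T := 0.05) (B := fun y => 1.001 * Vz b * y ^ 2 / 2)
    (B' := fun y => 1.001 * Vz b * y) (c := (Mz b : ℂ)) (d := (Vz b : ℂ) * I)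
    (fun y hy hyT => hasDerivAt_mu h.ok (D7a_seg h hy hyT).2.1) ?_ (D7a_sq _) ?_ y hy hyT
  · rw [mu_zero]
    simp
  · intro y hy hyT
    rw [← sub_mul, norm_mul, norm_I, mul_one]
    exact D7a_vv h hy hyT

private theorem D7a_Lam (h : Big p b) {y : ℝ} (hy : 0 ≤ y) (hyT : y ≤ 0.05) :
    ‖Lam b (y * I) - 0 - (Mz b : ℂ) * I * y‖ ≤ 1.001 * Vz b * y ^ 2 / 2 := by
  refine D7a_vert (F := Lam b) (F' := mu b) (T := 0.05) (B := fun y => 1.001 * Vz b * y ^ 2 / 2)
    (B' := fun y => 1.001 * Vz b * y) (c := 0) (d := (Mz b : ℂ) * I)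
    (fun y hy hyT => hasDerivAt_Lam h.ok (D7a_seg h hy hyT).2.1) ?_ (D7a_sq _) ?_ y hy hyT
  · rw [Lam_zero]
    simp
  · intro y hy hyT
    rw [← sub_mul, norm_mul, norm_I, mul_one]
    exact D7a_mu h hy hyT

private theorem D7a_T (h : Big p b) : zz p 0 = ((Real.pi / p : ℝ) : ℂ) * I ∧
    0 ≤ Real.pi / p ∧ Real.pi / p ≤ 0.0491 ∧ 0 < Vz b ∧ 0 < p := by
  have hp : (64 : ℝ) ≤ p := h.hp
  have hp0 : (0 : ℝ) < p := by linarith
  have hV := h.hV
  refine ⟨?_, by positivity, ?_, by nlinarith, hp0⟩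
  · simp only [zz]
    push_cast
    ring
  · rw [div_le_iff₀ hp0]
    have := Real.pi_lt_d4
    nlinarith

/-- PROOF. At `s = 0`: `z = iT`, `T = π/p`, `phi = p Λ(iT) + p lg(iT) + log v(iT)` (the terms with `μ` cancel: `p z = iπ`). `‖v(iT)‖ ≥ 0.998 V`;
`Re Λ(iT) ≥ -1.001 V T²/2` (`Re Λ(iy)` has derivative `-Im μ(iy)`, `|Im μ(iy)| ≤ 1.001 V |y|`), times `p`: `≥ -0.5005 π² S ≥ -4.94 S`;
`lg_re_le`: `p |Re lg(iT) - Re lg(0)| ≤ 0.262 π ≤ 0.83`. -/
theorem phi_zero_ge (h : Big p b) :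
    0.998 * Vz b * Real.exp (p * (lg b 0).re) * Real.exp (-(4.94 * (Vz b / p)) - 0.83) ≤
      Real.exp (phi p b 0).re := by
  obtain ⟨hz, hT0, hT1, hV, hp0⟩ := D7a_T h
  have hT2 : Real.pi / p ≤ 0.05 := by linarith
  set T : ℝ := Real.pi / p with hTdef
  have hpT : p * T = Real.pi := by rw [hTdef]; field_simp
  obtain ⟨h1, h2, h3⟩ := D7a_seg h hT0 hT2
  have hv := (norm_vv_le5 h.ok h1).2.2.2
  rw [h3, W_zero] at hv
  have hvn : 0.998 * Vz b ≤ ‖vv b (T * I)‖ := hv.trans (re_le_norm _)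
  have hvpos : 0 < ‖vv b (T * I)‖ := lt_of_lt_of_le (by positivity) hvn
  have hphi : phi p b 0 = p * Lam b (T * I) + p * lg b (T * I) + log (vv b (T * I)) := by
    simp only [phi]
    rw [hz]
    have e : (p : ℂ) * ((T : ℂ) * I) = Real.pi * I := by
      rw [← hpT]
      push_cast
      ring
    linear_combination (-(mu b (T * I))) * e
  have hre : (phi p b 0).re = p * (Lam b (T * I)).re + p * (lg b (T * I)).re
      + Real.log ‖vv b (T * I)‖ := by
    rw [hphi]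
    simp only [add_re, re_ofReal_mul, log_re]
  have hL : -(1.001 * Vz b * T ^ 2 / 2) ≤ (Lam b (T * I)).re := by
    have h4 := D7a_Lam h hT0 hT2
    have h5 := (abs_re_le_norm _).trans h4
    have e : (Lam b (T * I) - 0 - (Mz b : ℂ) * I * T).re = (Lam b (T * I)).re := by
      simp
    rw [e] at h5
    exact (abs_le.1 h5).1
  have hl : (lg b 0).re - 0.262 * T ≤ (lg b (T * I)).re := by
    have h4 := lg_re_le h (x := 0) (y := T) (by norm_num) (by rw [abs_of_nonneg hT0]; linarith)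
    rw [abs_of_nonneg hT0] at h4
    simp only [ofReal_zero, zero_add, abs_zero, mul_zero] at h4
    linarith [(abs_le.1 h4).1]
  have hpi := Real.pi_lt_d4
  have hpi0 := Real.pi_pos
  have hpi2 : Real.pi ^ 2 ≤ 9.8697 := by nlinarith
  have e1 : p * (1.001 * Vz b * T ^ 2 / 2) = 0.5005 * Real.pi ^ 2 * (Vz b / p) := by
    rw [hTdef]
    field_simp
    ring
  have hS : 0 < Vz b / p := div_pos hV hp0
  have e2 : p * (1.001 * Vz b * T ^ 2 / 2) ≤ 4.94 * (Vz b / p) := by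
    rw [e1]
    nlinarith
  have e3 : p * (0.262 * T) ≤ 0.83 := by
    have : p * (0.262 * T) = 0.262 * (p * T) := by ring
    rw [this, hpT]
    nlinarith
  have hmain : p * (lg b 0).re + (-(4.94 * (Vz b / p)) - 0.83)
      ≤ p * (Lam b (T * I)).re + p * (lg b (T * I)).re := by
    have g1 := mul_le_mul_of_nonneg_left hL hp0.le
    have g2 := mul_le_mul_of_nonneg_left hl hp0.le
    nlinarith
  rw [hre, Real.exp_add, Real.exp_log hvpos, mul_assoc, ← Real.exp_add, mul_comm]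
  exact mul_le_mul (Real.exp_le_exp.2 hmain) hvn (by positivity) (Real.exp_pos _).le

/-- PROOF. `‖v(iT) - V‖ ≤ T * 1.001 V`, `T ≤ π/64 ≤ 0.0491`; `Re v(iT) ≥ 0.998 V`. -/
theorem Ss_bd (h : Big p b) :
    ‖vv b (zz p 0) / p - ((Vz b / p : ℝ) : ℂ)‖ ≤ 0.05 * (Vz b / p) ∧
      0.998 * (Vz b / p) ≤ (vv b (zz p 0) / p).re := by
  obtain ⟨hz, hT0, hT1, hV, hp0⟩ := D7a_T h
  have hT2 : Real.pi / p ≤ 0.05 := by linarith
  rw [hz]
  set T : ℝ := Real.pi / p with hTdef
  obtain ⟨h1, h2, h3⟩ := D7a_seg h hT0 hT2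
  have hv := (norm_vv_le5 h.ok h1).2.2.2
  rw [h3, W_zero] at hv
  refine ⟨?_, ?_⟩
  · have e : vv b (T * I) / p - ((Vz b / p : ℝ) : ℂ) = (vv b (T * I) - Vz b) / (p : ℝ) := by
      push_cast
      ring
    rw [e, norm_div, norm_real, Real.norm_eq_abs, abs_of_pos hp0, div_le_iff₀ hp0]
    have h4 := D7a_vv h hT0 hT2
    have e2 : 0.05 * (Vz b / p) * p = 0.05 * Vz b := by field_simp
    rw [e2]
    refine h4.trans ?_
    nlinarith
  · have e : (vv b (T * I) / p).re = (vv b (T * I)).re / p := by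
      rw [div_ofReal_re]
    rw [e, le_div_iff₀ hp0]
    have e2 : 0.998 * (Vz b / p) * p = 0.998 * Vz b := by field_simp
    rw [e2]
    exact hv

/-- PROOF. `‖μ(iT) - M - i T V‖ ≤ 1.001 V T²/2` (derivative `v`, `‖v(iy) - V‖ ≤ 1.001 V |y|`), `T V = π S`, `1.001 T/2 ≤ 0.0246`. -/
theorem m0_bd (h : Big p b) :
    ‖mu b (zz p 0) - Mz b - Real.pi * ((Vz b / p : ℝ) : ℂ) * I‖ ≤
      0.026 * (Real.pi * (Vz b / p)) := by
  obtain ⟨hz, hT0, hT1, hV, hp0⟩ := D7a_T h
  have hT2 : Real.pi / p ≤ 0.05 := by linarith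
  rw [hz]
  set T : ℝ := Real.pi / p with hTdef
  have h4 := D7a_mu2 h hT0 hT2
  have e : Real.pi * (Vz b / p) = Vz b * T := by
    rw [hTdef]
    ring
  have e' : (Real.pi : ℂ) * ((Vz b / p : ℝ) : ℂ) * I = (Vz b : ℂ) * I * T := by
    have : (Real.pi : ℂ) * ((Vz b / p : ℝ) : ℂ) = (Vz b : ℂ) * T := by exact_mod_cast e
    rw [this]
    ring
  rw [e', e]
  refine h4.trans ?_
  have : 1.001 * Vz b * T ^ 2 / 2 = (1.001 / 2 * T) * (Vz b * T) := by ring
  rw [this]
  refine mul_le_mul_of_nonneg_right (by linarith) (by positivity)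

end Pool.Agent.LP
end
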