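import Mathlib
import Pool.Agent.Lib.MP_f91407_an.Mg.G001

section

set_option autoImplicit false

/-! # G2a: double counting -/

namespace Pool.Agent.LP

open Finset

variable {ι : Type} [DecidableEq ι]

/-- PROOF (double counting). Consider triples `(A, B, x)`, `A, B ⊆ S`, `|A| = |B| = m+1`, `x ∈ A \ B`, with weight `a^A a^B/(|A \ B| + 1)`.
The map `(A, B, x) ↦ (A', B', x) = (A \ {x}, B ∪ {x}, x)` is a bijection onto the triples with `|A'| = m`, `|B'| = m + 2`, `x ∈ B' \ A'` (inverse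
`A = A' ∪ {x}`, `B = B' \ {x}`), `a^A a^B = a^{A'} a^{B'}`, `B' \ A' = (B \ A) ∪ {x}` has `|B \ A| + 1 = |A \ B| + 1` elements. Summing over `x`:
`∑_{A,B} a^A a^B |A \ B|/(|A \ B| + 1) = ∑_{A',B'} a^{A'} a^{B'} |B' \ A'|/|B' \ A'| = e_m e_{m+2}` (`B' \ A'` is nonempty because `|B'| > |A'|`).
(`Finset.sum_bij'` on sigma/product finsets.) -/
theorem es_move (a : ι → ℝ) (S : Finset ι) (m : ℕ) :
    ∑ A ∈ S.powersetCard (m + 1), ∑ B ∈ S.powersetCard (m + 1),
        (∏ c ∈ A, a c) * (∏ c ∈ B, a c) * (((A \ B).card : ℝ) / ((A \ B).card + 1)) =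
      es a S m * es a S (m + 2) := by
  have hL : ∑ A ∈ S.powersetCard (m + 1), ∑ B ∈ S.powersetCard (m + 1),
        (∏ c ∈ A, a c) * (∏ c ∈ B, a c) * (((A \ B).card : ℝ) / ((A \ B).card + 1)) =
      ∑ q ∈ (S.powersetCard (m + 1) ×ˢ S.powersetCard (m + 1)).sigma
          (fun q => q.1 \ q.2),
        (∏ c ∈ q.1.1, a c) * (∏ c ∈ q.1.2, a c) / ((q.1.1 \ q.1.2).card + 1) := by
    rw [Finset.sum_sigma, Finset.sum_product]
    refine Finset.sum_congr rfl fun A _ => Finset.sum_congr rfl fun B _ => ?_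
    simp only [Finset.sum_const, nsmul_eq_mul]
    ring
  have hR : es a S m * es a S (m + 2) =
      ∑ q ∈ (S.powersetCard m ×ˢ S.powersetCard (m + 2)).sigma (fun q => q.2 \ q.1),
        (∏ c ∈ q.1.1, a c) * (∏ c ∈ q.1.2, a c) / (q.1.2 \ q.1.1).card := by
    unfold es
    rw [Finset.sum_sigma, Finset.sum_product, Finset.sum_mul_sum]
    refine Finset.sum_congr rfl fun A hA => Finset.sum_congr rfl fun B hB => ?_
    simp only [Finset.sum_const, nsmul_eq_mul]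
    have hA' := (Finset.mem_powersetCard.mp hA).2
    have hB' := (Finset.mem_powersetCard.mp hB).2
    have hpos : 0 < (B \ A).card := by
      have := Finset.le_card_sdiff A B
      omega
    have hne : ((B \ A).card : ℝ) ≠ 0 := by exact_mod_cast hpos.ne'
    field_simp
  rw [hL, hR]
  refine Finset.sum_bij' (fun q _ => ⟨(q.1.1.erase q.2, insert q.2 q.1.2), q.2⟩)
    (fun q _ => ⟨(insert q.2 q.1.1, q.1.2.erase q.2), q.2⟩) ?_ ?_ ?_ ?_ ?_
  · rintro ⟨⟨A, B⟩, x⟩ h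
    simp only [Finset.mem_sigma, Finset.mem_product, Finset.mem_powersetCard,
      Finset.mem_sdiff] at h ⊢
    obtain ⟨⟨⟨hA, hAc⟩, hB, hBc⟩, hxA, hxB⟩ := h
    refine ⟨⟨⟨(Finset.erase_subset _ _).trans hA, ?_⟩, ?_, ?_⟩, Finset.mem_insert_self _ _,
      Finset.notMem_erase _ _⟩
    · rw [Finset.card_erase_of_mem hxA]; omega
    · exact Finset.insert_subset (hA hxA) hB
    · rw [Finset.card_insert_of_notMem hxB]; omega
  · rintro ⟨⟨A, B⟩, x⟩ h
    simp only [Finset.mem_sigma, Finset.mem_product, Finset.mem_powersetCard,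
      Finset.mem_sdiff] at h ⊢
    obtain ⟨⟨⟨hA, hAc⟩, hB, hBc⟩, hxB, hxA⟩ := h
    refine ⟨⟨⟨Finset.insert_subset (hB hxB) hA, ?_⟩, (Finset.erase_subset _ _).trans hB, ?_⟩,
      Finset.mem_insert_self _ _, Finset.notMem_erase _ _⟩
    · rw [Finset.card_insert_of_notMem hxA]; omega
    · rw [Finset.card_erase_of_mem hxB]; omega
  · rintro ⟨⟨A, B⟩, x⟩ h
    simp only [Finset.mem_sigma, Finset.mem_product, Finset.mem_powersetCard,
      Finset.mem_sdiff] at h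
    obtain ⟨⟨⟨hA, hAc⟩, hB, hBc⟩, hxA, hxB⟩ := h
    simp [Finset.insert_erase hxA, Finset.erase_insert hxB]
  · rintro ⟨⟨A, B⟩, x⟩ h
    simp only [Finset.mem_sigma, Finset.mem_product, Finset.mem_powersetCard,
      Finset.mem_sdiff] at h
    obtain ⟨⟨⟨hA, hAc⟩, hB, hBc⟩, hxB, hxA⟩ := h
    simp [Finset.insert_erase hxB, Finset.erase_insert hxA]
  · rintro ⟨⟨A, B⟩, x⟩ h
    simp only [Finset.mem_sigma, Finset.mem_product, Finset.mem_powersetCard,
      Finset.mem_sdiff] at h ⊢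
    obtain ⟨⟨⟨hA, hAc⟩, hB, hBc⟩, hxA, hxB⟩ := h
    have h1 : insert x B \ A.erase x = insert x (B \ A) := by
      ext y
      by_cases hy : y = x
      · subst hy
        simp
      · simp [hy]
    have h2 : (insert x (B \ A)).card = (A \ B).card + 1 := by
      rw [Finset.card_insert_of_notMem (by simp [hxA]),
        Finset.card_sdiff_comm (hAc.trans hBc.symm)]
    have h3 : (∏ c ∈ A, a c) * (∏ c ∈ B, a c) =
        (∏ c ∈ A.erase x, a c) * ∏ c ∈ insert x B, a c := by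
      rw [Finset.prod_insert hxB, ← Finset.mul_prod_erase A a hxA]
      ring
    rw [h1, h2, h3]
    push_cast
    ring

end Pool.Agent.LP
end

section

set_option autoImplicit false

/-! # G2b: formula for `e_m² - e_{m-1} e_{m+1}` -/

namespace Pool.Agent.LP

open Finset

variable {ι : Type} [DecidableEq ι]

/-- PROOF. `1 - r/(r+1) = 1/(r+1)` and `es_move`. -/
theorem es_id (a : ι → ℝ) (S : Finset ι) (m : ℕ) :
    es a S (m + 1) ^ 2 - es a S m * es a S (m + 2) =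
      ∑ A ∈ S.powersetCard (m + 1), ∑ B ∈ S.powersetCard (m + 1),
        (∏ c ∈ A, a c) * (∏ c ∈ B, a c) / ((A \ B).card + 1) := by
  rw [← es_move, sq]
  conv_lhs => enter [1]; unfold es; rw [Finset.sum_mul_sum]
  rw [← Finset.sum_sub_distrib]
  refine Finset.sum_congr rfl fun A _ => ?_
  rw [← Finset.sum_sub_distrib]
  refine Finset.sum_congr rfl fun B _ => ?_
  have h : ((A \ B).card : ℝ) + 1 ≠ 0 := by positivity
  field_simp
  ring

/-- Newton (weak form). -/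
theorem es_newton {a : ι → ℝ} (ha : ∀ c, 0 ≤ a c) (S : Finset ι) (m : ℕ) :
    es a S m * es a S (m + 2) ≤ es a S (m + 1) ^ 2 := by
  rw [← sub_nonneg, es_id]
  refine Finset.sum_nonneg fun A _ => Finset.sum_nonneg fun B _ => ?_
  exact div_nonneg (mul_nonneg (Finset.prod_nonneg fun c _ => ha c)
    (Finset.prod_nonneg fun c _ => ha c)) (by positivity)

end Pool.Agent.LP
end

section

set_option autoImplicit false

/-! # E1: Gaussian integrals with a linear term -/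

namespace Pool.Agent.LP

open Complex MeasureTheory

/-- PROOF. Complete the square: `k/2 s² + a s = k/2 (s + a/k)² - a²/(2k)`; translation invariance; moments `1, 1/k, 3/k²` of the centred Gaussian. -/
theorem gl_integrable (k a : ℝ) (hk : 0 < k) (j : ℕ) :
    Integrable fun s : ℝ => s ^ j * Real.exp (-(k / 2 * s ^ 2) - a * s) := by
  have h1 : Integrable fun s : ℝ => s ^ (j : ℝ) * Real.exp (-(k / 4) * s ^ 2) :=
    integrable_rpow_mul_exp_neg_mul_sq (by positivity)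
      (lt_of_lt_of_le (by norm_num) (Nat.cast_nonneg j))
  have h2 : Integrable fun s : ℝ => Real.exp (a ^ 2 / k) *
      ‖s ^ (j : ℝ) * Real.exp (-(k / 4) * s ^ 2)‖ := h1.norm.const_mul _
  refine h2.mono' (by fun_prop) (Filter.Eventually.of_forall fun s => ?_)
  rw [Real.rpow_natCast, norm_mul, norm_mul, mul_left_comm]
  refine mul_le_mul_of_nonneg_left ?_ (norm_nonneg _)
  rw [Real.norm_of_nonneg (Real.exp_pos _).le, Real.norm_of_nonneg (Real.exp_pos _).le,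
    ← Real.exp_add]
  refine Real.exp_le_exp.2 ?_
  have h3 : a ^ 2 / k + -(k / 4) * s ^ 2 - (-(k / 2 * s ^ 2) - a * s) =
      (k * s / 2 + a) ^ 2 / k := by
    field_simp
    ring
  have h4 : 0 ≤ (k * s / 2 + a) ^ 2 / k := by positivity
  linarith

theorem gl_zero (k a : ℝ) (hk : 0 < k) :
    ∫ s : ℝ, Real.exp (-(k / 2 * s ^ 2) - a * s) =
      Real.sqrt (2 * Real.pi / k) * Real.exp (a ^ 2 / (2 * k)) := by
  have h1 : ∀ s : ℝ, Real.exp (-(k / 2 * s ^ 2) - a * s) =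
      (fun x : ℝ => Real.exp (-(k / 2) * x ^ 2) * Real.exp (a ^ 2 / (2 * k))) (s + a / k) := by
    intro s
    simp only
    rw [← Real.exp_add]
    congr 1
    field_simp
    ring
  simp_rw [h1]
  rw [integral_add_right_eq_self (μ := volume)
    (fun x : ℝ => Real.exp (-(k / 2) * x ^ 2) * Real.exp (a ^ 2 / (2 * k))) (a / k),
    integral_mul_const, integral_gaussian]
  congr 2
  field_simp

theorem E1_deriv (k a : ℝ) (j : ℕ) (s : ℝ) :
    HasDerivAt (fun s : ℝ => s ^ j * Real.exp (-(k / 2 * s ^ 2) - a * s))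
      ((j : ℝ) * s ^ (j - 1) * Real.exp (-(k / 2 * s ^ 2) - a * s) +
        s ^ j * (Real.exp (-(k / 2 * s ^ 2) - a * s) * (-(k * s) - a))) s := by
  have h1 : HasDerivAt (fun s : ℝ => -(k / 2 * s ^ 2) - a * s) (-(k * s) - a) s := by
    have h2 : HasDerivAt (fun s : ℝ => -(k / 2 * s ^ 2) - a * s)
        (-(k / 2 * ((2 : ℕ) * s ^ (2 - 1) * 1)) - a * 1) s :=
      ((((hasDerivAt_id s).pow 2).const_mul (k / 2)).neg).sub ((hasDerivAt_id s).const_mul a)
    convert h2 using 1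
    push_cast
    ring
  exact (hasDerivAt_pow j s).mul h1.exp

theorem E1_rec (k a : ℝ) (hk : 0 < k) (j : ℕ) :
    k * (∫ s : ℝ, s ^ (j + 1) * Real.exp (-(k / 2 * s ^ 2) - a * s)) =
      (j : ℝ) * (∫ s : ℝ, s ^ (j - 1) * Real.exp (-(k / 2 * s ^ 2) - a * s)) -
      a * (∫ s : ℝ, s ^ j * Real.exp (-(k / 2 * s ^ 2) - a * s)) := by
  have i1 := gl_integrable k a hk (j + 1)
  have i2 := gl_integrable k a hk (j - 1)
  have i3 := gl_integrable k a hk j
  have e : ∀ s : ℝ, (j : ℝ) * s ^ (j - 1) * Real.exp (-(k / 2 * s ^ 2) - a * s) +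
        s ^ j * (Real.exp (-(k / 2 * s ^ 2) - a * s) * (-(k * s) - a)) =
      (j : ℝ) * (s ^ (j - 1) * Real.exp (-(k / 2 * s ^ 2) - a * s)) -
        a * (s ^ j * Real.exp (-(k / 2 * s ^ 2) - a * s)) -
        k * (s ^ (j + 1) * Real.exp (-(k / 2 * s ^ 2) - a * s)) := by
    intro s
    ring
  have h1 : ∫ s : ℝ, ((j : ℝ) * s ^ (j - 1) * Real.exp (-(k / 2 * s ^ 2) - a * s) +
        s ^ j * (Real.exp (-(k / 2 * s ^ 2) - a * s) * (-(k * s) - a))) = 0 := by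
    refine integral_eq_zero_of_hasDerivAt_of_integrable (E1_deriv k a j) ?_ i3
    refine Integrable.congr (((i2.const_mul (j : ℝ)).sub (i3.const_mul a)).sub (i1.const_mul k)) ?_
    exact Filter.Eventually.of_forall fun s => (e s).symm
  simp_rw [e] at h1
  have i4 : Integrable fun s : ℝ => (j : ℝ) * (s ^ (j - 1) * Real.exp (-(k / 2 * s ^ 2) - a * s)) -
        a * (s ^ j * Real.exp (-(k / 2 * s ^ 2) - a * s)) :=
    (i2.const_mul (j : ℝ)).sub (i3.const_mul a)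
  rw [integral_sub i4 (i1.const_mul k),
    integral_sub (i2.const_mul (j : ℝ)) (i3.const_mul a), integral_const_mul, integral_const_mul,
    integral_const_mul] at h1
  linarith

theorem E1_f0 (k a : ℝ) : (∫ s : ℝ, s ^ 0 * Real.exp (-(k / 2 * s ^ 2) - a * s)) =
    ∫ s : ℝ, Real.exp (-(k / 2 * s ^ 2) - a * s) := by
  simp only [pow_zero, one_mul]

theorem gl_two (k a : ℝ) (hk : 0 < k) :
    ∫ s : ℝ, s ^ 2 * Real.exp (-(k / 2 * s ^ 2) - a * s) =
      Real.sqrt (2 * Real.pi / k) * Real.exp (a ^ 2 / (2 * k)) * (1 / k + a ^ 2 / k ^ 2) := by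
  have r0 := E1_rec k a hk 0
  have r1 := E1_rec k a hk 1
  simp only [Nat.cast_zero, zero_mul, zero_sub, Nat.cast_one, one_mul, Nat.sub_self, zero_add,
    Nat.reduceAdd] at r0 r1
  rw [E1_f0, gl_zero k a hk] at r0 r1
  set F := Real.sqrt (2 * Real.pi / k) * Real.exp (a ^ 2 / (2 * k)) with hF
  set f1 := ∫ s : ℝ, s ^ 1 * Real.exp (-(k / 2 * s ^ 2) - a * s) with hf1
  set f2 := ∫ s : ℝ, s ^ 2 * Real.exp (-(k / 2 * s ^ 2) - a * s) with hf2
  have e1 : f1 = -(a * F) / k := by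
    rw [eq_div_iff hk.ne']
    linarith
  have e2 : f2 = (F - a * f1) / k := by
    rw [eq_div_iff hk.ne']
    linarith
  rw [e2, e1]
  field_simp
  ring

theorem gl_four (k a : ℝ) (hk : 0 < k) :
    ∫ s : ℝ, s ^ 4 * Real.exp (-(k / 2 * s ^ 2) - a * s) =
      Real.sqrt (2 * Real.pi / k) * Real.exp (a ^ 2 / (2 * k)) *
        (3 / k ^ 2 + 6 * a ^ 2 / k ^ 3 + a ^ 4 / k ^ 4) := by
  have r0 := E1_rec k a hk 0
  have r2 := E1_rec k a hk 2
  have r3 := E1_rec k a hk 3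
  have g2 := gl_two k a hk
  simp only [Nat.cast_zero, zero_mul, zero_sub, zero_add, Nat.cast_ofNat, Nat.reduceAdd,
    Nat.reduceSub] at r0 r2 r3
  rw [E1_f0, gl_zero k a hk] at r0
  set F := Real.sqrt (2 * Real.pi / k) * Real.exp (a ^ 2 / (2 * k)) with hF
  set f1 := ∫ s : ℝ, s ^ 1 * Real.exp (-(k / 2 * s ^ 2) - a * s) with hf1
  set f2 := ∫ s : ℝ, s ^ 2 * Real.exp (-(k / 2 * s ^ 2) - a * s) with hf2
  set f3 := ∫ s : ℝ, s ^ 3 * Real.exp (-(k / 2 * s ^ 2) - a * s) with hf3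
  set f4 := ∫ s : ℝ, s ^ 4 * Real.exp (-(k / 2 * s ^ 2) - a * s) with hf4
  have e1 : f1 = -(a * F) / k := by
    rw [eq_div_iff hk.ne']
    linarith
  have e3 : f3 = (2 * f1 - a * f2) / k := by
    rw [eq_div_iff hk.ne']
    linarith
  have e4 : f4 = (3 * f2 - a * f3) / k := by
    rw [eq_div_iff hk.ne']
    linarith
  rw [e4, e3, e1, g2]
  field_simp
  ring

end Pool.Agent.LP
end

section

set_option autoImplicit false

/-! # E2a: the complex Gaussian with a linear term -/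

namespace Pool.Agent.LP

open Complex MeasureTheory

/-- `I₀ = ∫ exp(-S s²/2 - λ s) ds` -/
noncomputable def I0 (Ss lam : ℂ) : ℂ := ∫ s : ℝ, exp (-(Ss * s ^ 2 / 2) - lam * s)

theorem I0_integrable (Ss lam : ℂ) (h : 0 < Ss.re) (j : ℕ) :
    Integrable fun s : ℝ => (s : ℂ) ^ j * exp (-(Ss * s ^ 2 / 2) - lam * s) := by
  have h1 : Integrable (fun s : ℝ => Real.exp (lam.re ^ 2 / Ss.re) *
      ‖s ^ (j : ℝ) * Real.exp (-(Ss.re / 4) * s ^ 2)‖) :=
    ((integrable_rpow_mul_exp_neg_mul_sq (b := Ss.re / 4) (by positivity)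
      (by have := Nat.cast_nonneg (α := ℝ) j; linarith)).norm).const_mul _
  refine h1.mono' ?_ (Filter.Eventually.of_forall fun s => ?_)
  · exact Continuous.aestronglyMeasurable (by fun_prop)
  · rw [norm_mul, norm_mul, norm_pow, norm_real, Complex.norm_exp, Real.rpow_natCast, norm_pow,
      Real.norm_of_nonneg (Real.exp_pos _).le]
    have h2 : (-(Ss * (s : ℂ) ^ 2 / 2) - lam * s).re = -(Ss.re * s ^ 2 / 2) - lam.re * s := by
      rw [← ofReal_pow, sub_re, neg_re, mul_re, ofReal_re, ofReal_im]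
      have h3 : (Ss * ((s ^ 2 : ℝ) : ℂ) / 2).re = Ss.re * s ^ 2 / 2 := by
        have h4 : Ss * ((s ^ 2 : ℝ) : ℂ) / 2 = Ss * ((s ^ 2 / 2 : ℝ) : ℂ) := by
          push_cast
          ring
        rw [h4, mul_re, ofReal_re, ofReal_im]
        ring
      rw [h3]
      ring
    rw [h2]
    have h5 : Real.exp (-(Ss.re * s ^ 2 / 2) - lam.re * s)
        ≤ Real.exp (lam.re ^ 2 / Ss.re) * Real.exp (-(Ss.re / 4) * s ^ 2) := by
      rw [← Real.exp_add]
      refine Real.exp_le_exp.2 ?_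
      have h6 : 0 ≤ (lam.re / Ss.re + s / 2) ^ 2 * Ss.re := by positivity
      have h7 : (lam.re / Ss.re + s / 2) ^ 2 * Ss.re
          = lam.re ^ 2 / Ss.re + lam.re * s + Ss.re * s ^ 2 / 4 := by
        field_simp
        ring
      rw [h7] at h6
      linarith
    calc ‖s‖ ^ j * Real.exp (-(Ss.re * s ^ 2 / 2) - lam.re * s)
        ≤ ‖s‖ ^ j * (Real.exp (lam.re ^ 2 / Ss.re) * Real.exp (-(Ss.re / 4) * s ^ 2)) :=
          mul_le_mul_of_nonneg_left h5 (by positivity)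
      _ = _ := by ring

/-- PROOF. Mathlib `integral_cexp_quadratic`. -/
theorem I0_eq (Ss lam : ℂ) (h : 0 < Ss.re) :
    I0 Ss lam = (2 * Real.pi / Ss) ^ (1 / 2 : ℂ) * exp (lam ^ 2 / (2 * Ss)) := by
  have h0 : Ss ≠ 0 := by
    rintro rfl
    simp at h
  have h1 := integral_cexp_quadratic (b := -(Ss / 2)) (by
    have : (-(Ss / 2)).re = -(Ss.re / 2) := by
      rw [neg_re]
      congr 1
      have h4 : Ss / 2 = Ss * ((1 / 2 : ℝ) : ℂ) := by
        push_cast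
        ring
      rw [h4, mul_re, ofReal_re, ofReal_im]
      ring
    rw [this]
    linarith) (-lam) 0
  unfold I0
  have h2 : (fun s : ℝ => exp (-(Ss * s ^ 2 / 2) - lam * s))
      = fun s : ℝ => exp (-(Ss / 2) * (s : ℂ) ^ 2 + -lam * (s : ℂ) + 0) := by
    funext s
    congr 1
    ring
  rw [h2, h1]
  congr 1
  · congr 1
    rw [neg_neg]
    field_simp
  · congr 1
    field_simp
    ring

/-- PROOF. `∫ (d/ds) exp(-Ss s²/2 - λ s) ds = 0` (`integral_of_hasDerivAt_of_tendsto`-type lemma, the function tends to `0` at `±∞`):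
`∫ (-Ss s - λ) exp = 0`. -/
theorem I0_first (Ss lam : ℂ) (h : 0 < Ss.re) :
    ∫ s : ℝ, (s : ℂ) * exp (-(Ss * s ^ 2 / 2) - lam * s) = -(lam / Ss) * I0 Ss lam := by
  have h0 : Ss ≠ 0 := by
    rintro rfl
    simp at h
  have hi0 : Integrable fun s : ℝ => exp (-(Ss * s ^ 2 / 2) - lam * s) := by
    have := I0_integrable Ss lam h 0
    simpa using this
  have hi1 : Integrable fun s : ℝ => (s : ℂ) * exp (-(Ss * s ^ 2 / 2) - lam * s) := by
    have := I0_integrable Ss lam h 1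
    simpa using this
  have hd : ∀ s : ℝ, HasDerivAt (fun s : ℝ => exp (-(Ss * s ^ 2 / 2) - lam * s))
      (-Ss * ((s : ℂ) * exp (-(Ss * s ^ 2 / 2) - lam * s))
        - lam * exp (-(Ss * s ^ 2 / 2) - lam * s)) s := by
    intro s
    have h1 : HasDerivAt (fun s : ℝ => (s : ℂ)) 1 s := Complex.ofRealCLM.hasDerivAt
    have h2 : HasDerivAt (fun s : ℝ => -(Ss * (s : ℂ) ^ 2 / 2) - lam * (s : ℂ))
        (-(Ss * (2 * (s : ℂ)) / 2) - lam * 1) s := by
      have h3 := ((h1.pow 2).const_mul Ss).div_const 2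
      have h4 := h3.neg.sub (h1.const_mul lam)
      refine h4.congr_deriv ?_
      simp
    refine h2.cexp.congr_deriv ?_
    ring
  have hz := integral_eq_zero_of_hasDerivAt_of_integrable hd
    ((hi1.const_mul (-Ss)).sub (hi0.const_mul lam)) hi0
  rw [integral_sub (hi1.const_mul (-Ss)) (hi0.const_mul lam), integral_const_mul,
    integral_const_mul] at hz
  unfold I0
  have h5 : Ss * ∫ s : ℝ, (s : ℂ) * exp (-(Ss * s ^ 2 / 2) - lam * s)
      = -(lam * ∫ s : ℝ, exp (-(Ss * s ^ 2 / 2) - lam * s)) := by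
    linear_combination -hz
  refine mul_left_cancel₀ h0 ?_
  rw [h5]
  generalize (∫ s : ℝ, exp (-(Ss * s ^ 2 / 2) - lam * s)) = B
  field_simp

end Pool.Agent.LP
end

section

set_option autoImplicit false

/-! # E2b: lower bound for the complex Gaussian -/

namespace Pool.Agent.LP

open Complex MeasureTheory

/-- PROOF. `‖(2π/Ss)^{1/2}‖ = √(2π/|Ss|)`, `|Ss| ≤ 1.05 S`, `1/√1.05 ≥ 0.975`. `Re(λ²/Ss)`: `λ²/Ss = (λ²/S)(1 + δ)`, `|δ| = |S - Ss|/|Ss| ≤ 0.05/0.998 ≤ 0.0502`, so with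
`a = Re λ`, `i = Im λ`: `Re(λ²/Ss) ≥ (a² - i² - 0.0502(a² + i²))/S ≥ (0.949 a² - 0.0722)/S` (`i² ≤ 0.068644`). -/
theorem I0_ge (S : ℝ) (hS : 0.65 ≤ S) (Ss lam : ℂ) (h1 : ‖Ss - (S : ℂ)‖ ≤ 0.05 * S)
    (h2 : 0.998 * S ≤ Ss.re) (h4 : |lam.im| ≤ 0.262) :
    0.975 * Real.sqrt (2 * Real.pi / S) *
      Real.exp ((0.949 * lam.re ^ 2 - 0.0722) / (2 * S)) ≤ ‖I0 Ss lam‖ := by
  have hS0 : 0 < S := by linarith
  have hre : 0 < Ss.re := by nlinarith
  have h0 : Ss ≠ 0 := by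
    rintro rfl
    simp at hre
  have hn0 : 0 < ‖Ss‖ := norm_pos_iff.2 h0
  have hn1 : ‖Ss‖ ≤ 1.05 * S := by
    have h5 : ‖Ss‖ ≤ ‖Ss - (S : ℂ)‖ + ‖(S : ℂ)‖ := by
      have := norm_add_le (Ss - (S : ℂ)) (S : ℂ)
      rwa [sub_add_cancel] at this
    rw [norm_real, Real.norm_of_nonneg hS0.le] at h5
    linarith
  have hn2 : 0.998 * S ≤ ‖Ss‖ := h2.trans ((le_abs_self _).trans (abs_re_le_norm Ss))
  rw [I0_eq Ss lam hre, norm_mul, Complex.norm_exp]
  have e1 : ‖(2 * Real.pi / Ss : ℂ) ^ (1 / 2 : ℂ)‖ = √(2 * Real.pi / ‖Ss‖) := by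
    have h5 : (1 / 2 : ℂ) = ((1 / 2 : ℝ) : ℂ) := by push_cast; rfl
    rw [h5, Complex.norm_cpow_real, Real.sqrt_eq_rpow, norm_div, norm_mul, norm_real,
      Real.norm_of_nonneg Real.pi_pos.le]
    simp
  rw [e1]
  have g1 : 0.975 * √(2 * Real.pi / S) ≤ √(2 * Real.pi / ‖Ss‖) := by
    have h6 : 0.975 * √(2 * Real.pi / S) = √(0.975 ^ 2 * (2 * Real.pi / S)) := by
      rw [Real.sqrt_mul (by norm_num), Real.sqrt_sq (by norm_num)]
    rw [h6]
    refine Real.sqrt_le_sqrt ?_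
    rw [mul_div_assoc', div_le_div_iff₀ hS0 hn0]
    have hpi := Real.pi_pos
    have h7 : 0.975 ^ 2 * ‖Ss‖ ≤ S := by nlinarith
    calc 0.975 ^ 2 * (2 * Real.pi) * ‖Ss‖ = 2 * Real.pi * (0.975 ^ 2 * ‖Ss‖) := by ring
      _ ≤ 2 * Real.pi * S := mul_le_mul_of_nonneg_left h7 (by positivity)
  have g2 : (0.949 * lam.re ^ 2 - 0.0722) / (2 * S) ≤ (lam ^ 2 / (2 * Ss)).re := by
    have hSc : (S : ℂ) ≠ 0 := by exact_mod_cast hS0.ne'
    have h5 : lam ^ 2 / (2 * Ss) = ((1 / (2 * S) : ℝ) : ℂ) * lam ^ 2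
        + lam ^ 2 * ((S : ℂ) - Ss) / (2 * S * Ss) := by
      push_cast
      field_simp
      ring
    have h6 : ‖lam ^ 2 * ((S : ℂ) - Ss) / (2 * S * Ss)‖ ≤ 0.0502 * ‖lam‖ ^ 2 / (2 * S) := by
      rw [norm_div, norm_mul, norm_mul, norm_mul, norm_pow, norm_real,
        Real.norm_of_nonneg hS0.le, norm_sub_rev]
      have h7 : ‖(2 : ℂ)‖ = 2 := by simp
      rw [h7, div_le_div_iff₀ (by positivity) (by positivity)]
      have h8 : ‖Ss - (S : ℂ)‖ ≤ 0.0502 * ‖Ss‖ := by nlinarith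
      calc ‖lam‖ ^ 2 * ‖Ss - (S : ℂ)‖ * (2 * S)
          ≤ ‖lam‖ ^ 2 * (0.0502 * ‖Ss‖) * (2 * S) := by gcongr
        _ = 0.0502 * ‖lam‖ ^ 2 * (2 * S * ‖Ss‖) := by ring
    have h9 : -(0.0502 * ‖lam‖ ^ 2 / (2 * S)) ≤ (lam ^ 2 * ((S : ℂ) - Ss) / (2 * S * Ss)).re := by
      have h10 := (abs_re_le_norm (lam ^ 2 * ((S : ℂ) - Ss) / (2 * S * Ss))).trans h6
      exact (abs_le.1 h10).1
    have h11 : (lam ^ 2).re = lam.re ^ 2 - lam.im ^ 2 := by
      rw [sq, mul_re]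
      ring
    have h12 : ‖lam‖ ^ 2 = lam.re ^ 2 + lam.im ^ 2 := by
      rw [← Complex.normSq_eq_norm_sq, Complex.normSq_apply]
      ring
    rw [h5, add_re, re_ofReal_mul, h11]
    rw [h12] at h9
    have h13 : lam.im ^ 2 ≤ 0.262 ^ 2 := by
      rw [← sq_abs]
      exact pow_le_pow_left₀ (abs_nonneg _) h4 2
    have h14 : (0.949 * lam.re ^ 2 - 0.0722) / (2 * S)
        ≤ 1 / (2 * S) * (lam.re ^ 2 - lam.im ^ 2)
          + -(0.0502 * (lam.re ^ 2 + lam.im ^ 2) / (2 * S)) := by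
      have h15 : 1 / (2 * S) * (lam.re ^ 2 - lam.im ^ 2)
          + -(0.0502 * (lam.re ^ 2 + lam.im ^ 2) / (2 * S))
          = (lam.re ^ 2 - lam.im ^ 2 - 0.0502 * (lam.re ^ 2 + lam.im ^ 2)) / (2 * S) := by ring
      rw [h15]
      refine div_le_div_of_nonneg_right ?_ (by positivity)
      nlinarith [sq_nonneg lam.re]
    linarith
  exact mul_le_mul g1 (Real.exp_le_exp.2 g2) (Real.exp_pos _).le (Real.sqrt_nonneg _)

/-- PROOF. From `I0_ge` with `lam.re² ≥ 0`, `S ≥ 0.65`: `0.975 e^{-0.0722/1.3} ≥ 0.975 * 0.945 ≥ 0.9`. -/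
theorem I0_ge' (S : ℝ) (hS : 0.65 ≤ S) (Ss lam : ℂ) (h1 : ‖Ss - (S : ℂ)‖ ≤ 0.05 * S)
    (h2 : 0.998 * S ≤ Ss.re) (h4 : |lam.im| ≤ 0.262) :
    0.9 * Real.sqrt (2 * Real.pi / S) ≤ ‖I0 Ss lam‖ := by
  refine le_trans ?_ (I0_ge S hS Ss lam h1 h2 h4)
  have hS0 : 0 < S := by linarith
  have h5 : -0.06 ≤ (0.949 * lam.re ^ 2 - 0.0722) / (2 * S) := by
    rw [le_div_iff₀ (by positivity)]
    nlinarith [sq_nonneg lam.re]
  have h6 : 0.94 ≤ Real.exp ((0.949 * lam.re ^ 2 - 0.0722) / (2 * S)) := by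
    have := Real.add_one_le_exp ((0.949 * lam.re ^ 2 - 0.0722) / (2 * S))
    linarith
  have h7 := Real.sqrt_nonneg (2 * Real.pi / S)
  calc 0.9 * √(2 * Real.pi / S) ≤ 0.975 * √(2 * Real.pi / S) * 0.94 := by nlinarith
    _ ≤ _ := mul_le_mul_of_nonneg_left h6 (by positivity)

end Pool.Agent.LP
end

section

set_option autoImplicit false

/-! collects the parts -/
end
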