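import Pool.Agent.Lib.MP_f91407_an.Mg.G012

section

set_option autoImplicit false

/-! # D5c: terms to the right of the window -/

namespace Pool.Agent.LP

open Complex MeasureTheory

variable {n : ℕ} {b : Fin n → ℝ} {p : ℝ}

private theorem D5c_mu_zero (b : Fin n → ℝ) : mu b ((0 : ℝ) : ℂ) = (Mz b : ℂ) := by
  unfold mu Mz Pc be
  push_cast
  refine Finset.sum_congr rfl fun c _ => ?_
  rw [Complex.exp_zero, mul_one, sub_add_cancel, div_one]

private theorem D5c_sum1 (m : ℕ) :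
    ∑ k ∈ Finset.range m, (0.018 : ℝ) ^ (k + 1) ≤ 0.0184 * (1 - 0.018 ^ m) := by
  induction m with
  | zero => simp
  | succ m ih =>
    rw [Finset.sum_range_succ, pow_succ]
    have : (0 : ℝ) < 0.018 ^ m := by positivity
    nlinarith

private theorem D5c_sum2 (m : ℕ) :
    ∑ k ∈ Finset.range m, ((k : ℝ) + 1) * (0.018 : ℝ) ^ (k + 1) ≤
      0.0187 - (0.0184 * m + 0.0187) * 0.018 ^ m := by
  induction m with
  | zero => simp
  | succ m ih =>
    rw [Finset.sum_range_succ, pow_succ]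
    push_cast
    have h1 : (0 : ℝ) < 0.018 ^ m := by positivity
    have h2 : (0 : ℝ) ≤ (m : ℝ) * 0.018 ^ m := by positivity
    nlinarith

private theorem D5c_reindex (N m : ℕ) (f : ℕ → ℝ) :
    ∑ j ∈ Finset.Ioc N m, f j = ∑ k ∈ Finset.range (m - N), f (N + (k + 1)) := by
  have h1 : Finset.Ioc N m = Finset.Ico (N + 1) (m + 1) := by
    ext j
    simp only [Finset.mem_Ioc, Finset.mem_Ico]
    omega
  rw [h1, Finset.sum_Ico_eq_sum_range]
  have h2 : m + 1 - (N + 1) = m - N := by omega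
  rw [h2]
  refine Finset.sum_congr rfl fun k _ => ?_
  congr 1
  omega

private theorem D5c_exp : Real.exp (-4.02) ≤ 0.018 := by
  have h1 : (2.7182818283 : ℝ) < Real.exp 1 := Real.exp_one_gt_d9
  have h2 : Real.exp 4.02 = Real.exp 1 ^ 4 * Real.exp 0.02 := by
    rw [← Real.exp_nat_mul, ← Real.exp_add]
    norm_num
  have h3 : (1.02 : ℝ) ≤ Real.exp 0.02 := by
    have := Real.add_one_le_exp (0.02 : ℝ)
    linarith
  have h4 : (55.6 : ℝ) ≤ Real.exp 4.02 := by
    rw [h2]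
    have h5 : (2.7182818283 : ℝ) ^ 4 ≤ Real.exp 1 ^ 4 := pow_le_pow_left₀ (by norm_num) h1.le 4
    have h6 : (54.59 : ℝ) ≤ (2.7182818283 : ℝ) ^ 4 := by norm_num
    nlinarith
  rw [Real.exp_neg]
  have h7 : (Real.exp 4.02)⁻¹ ≤ (55.6 : ℝ)⁻¹ := inv_anti₀ (by norm_num) h4
  refine h7.trans ?_
  norm_num

private theorem D5c_mono (h : Big p b) {x x' : ℝ} (hx : |x| ≤ 0.155) (hx' : |x'| ≤ 0.155)
    (hlt : (mu b (x : ℂ)).re < (mu b (x' : ℂ)).re) : x ≤ x' := by
  by_contra h1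
  have h2 := (mu_diff h hx' hx (not_le.1 h1).le).1
  have h3 : 0 ≤ 0.856 * Vz b * (x - x') := by
    have := h.hV
    have := h.hp
    have : 0 ≤ Vz b := by linarith
    have : 0 ≤ x - x' := by linarith
    positivity
  linarith

/-- PROOF. Let `ζ, ζ'` be the real points with `μ(ζ) = N2`, `μ(ζ') = N2 - 1` (`Win.zeta`; `N2 - 1 > N1`). By `mu_diff`, `X2 - ζ ≤ 0.5/(0.856 V)`, so
`pζ ≥ 8 - 0.5/0.5564 ≥ 7.1`; `pζ' ≥ 8 - 1.5/0.5564 ≥ 5.3`; `p(ζ - ζ') ≤ 1/0.5564 ≤ 1.798`. `ratio_right`: `q ≤ e^{-5.3 + 1.282} ≤ 0.018`.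
`th_geom_right` with `j₀ + 1 = N2`: `th (N2 + k) ≤ 0.018^k th N2`; `∑_{k ≥ 1} 0.018^k ≤ 0.0184`; `th_le`. For the second claim
`|N2 + k - M| ≤ (N2 - M) + k`, `0 ≤ N2 - M ≤ 1.168 * 9.8 S ≤ 11.45 S` and `∑ (11.45 S + k) 0.018^k ≤ 0.211 S + 0.0187 ≤ 0.24 S`. -/
theorem out_right {N1 N2 : ℕ} {X1 X2 : ℝ} (w : Win p b N1 N2 X1 X2) :
    ∑ j ∈ Finset.Ioc N2 n, th p b j ≤
        0.02 * (Real.exp (p * (lg b 0).re) * Real.exp (-(21.57 * (Vz b / p)) + 5.07)) ∧
      ∑ j ∈ Finset.Ioc N2 n, |(j : ℝ) - Mz b| * th p b j ≤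
        0.24 * (Vz b / p) *
          (Real.exp (p * (lg b 0).re) * Real.exp (-(21.57 * (Vz b / p)) + 5.07)) := by
  have hb := w.big
  have hp : 64 ≤ p := hb.hp
  have hV := hb.hV
  have hp0 : 0 < p := by linarith
  have hV0 : 0 < Vz b := by linarith
  have ha1 := w.abs1
  have ha2 := w.abs2
  have hX12 : X1 ≤ X2 := by
    have h1 : p * X1 ≤ p * X2 := by linarith [w.hi1, w.lo2]
    exact le_of_mul_le_mul_left h1 hp0
  have hre1 : (mu b (X1 : ℂ)).re = (N1 : ℝ) + 1 / 2 := by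
    rw [w.h1]
    simp
  have hre2 : (mu b (X2 : ℂ)).re = (N2 : ℝ) + 1 / 2 := by
    rw [w.h2]
    simp
  -- N1 + 1 < N2
  have hN : N1 + 1 < N2 := by
    have h1 := (mu_diff hb ha1 ha2 hX12).1
    rw [hre1, hre2] at h1
    have h2 : 16 ≤ p * (X2 - X1) := by linarith [w.hi1, w.lo2]
    have h3 : 0.65 * (p * (X2 - X1)) ≤ Vz b * (X2 - X1) := by
      rw [← mul_assoc]
      exact mul_le_mul_of_nonneg_right hV (by linarith)
    have h4 : ((N1 : ℝ) + 1) < (N2 : ℝ) := by linarith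
    exact_mod_cast h4
  obtain ⟨z, hz1, hz2, hz3⟩ := w.zeta (j := N2) (by omega) le_rfl
  obtain ⟨z', hz1', hz2', hz3'⟩ := w.zeta (j := N2 - 1) (by omega) (by omega)
  have hza : |z| ≤ 0.155 := by
    rw [abs_le] at ha1 ha2 ⊢
    exact ⟨by linarith [ha1.1], by linarith [ha2.2]⟩
  have hza' : |z'| ≤ 0.155 := by
    rw [abs_le] at ha1 ha2 ⊢
    exact ⟨by linarith [ha1.1], by linarith [ha2.2]⟩
  have hzre : (mu b (z : ℂ)).re = (N2 : ℝ) := by
    rw [hz3]
    simp
  have hN2 : ((N2 - 1 : ℕ) : ℝ) = (N2 : ℝ) - 1 := by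
    rw [Nat.cast_sub (by omega)]
    simp
  have hzre' : (mu b (z' : ℂ)).re = (N2 : ℝ) - 1 := by
    rw [hz3', Complex.natCast_re, hN2]
  have hzz : z' ≤ z := D5c_mono hb hza' hza (by rw [hzre, hzre']; linarith)
  -- distances
  have key : ∀ {x y c : ℝ}, |x| ≤ 0.155 → |y| ≤ 0.155 → x ≤ y →
      (mu b (y : ℂ)).re - (mu b (x : ℂ)).re ≤ c → 0.5564 * (p * (y - x)) ≤ c := by
    intro x y c hx hy hxy hc
    have h1 := (mu_diff hb hx hy hxy).1
    have h2 : 0.65 * p * (y - x) ≤ Vz b * (y - x) :=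
      mul_le_mul_of_nonneg_right hV (by linarith)
    nlinarith
  have d1 : 0.5564 * (p * (X2 - z)) ≤ 1 / 2 :=
    key hza ha2 hz2.le (by rw [hre2, hzre]; linarith)
  have d2 : 0.5564 * (p * (z - z')) ≤ 1 :=
    key hza' hza hzz (by rw [hzre', hzre]; linarith)
  have d3 : 0.5564 * (p * (X2 - z')) ≤ 3 / 2 :=
    key hza' ha2 hz2'.le (by rw [hzre', hre2]; linarith)
  have hlo := w.lo2
  have e1 : 7.1 ≤ p * z := by linarith
  have e2 : 5.304 ≤ p * z' := by linarith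
  have e3 : p * (z - z') ≤ 1.7973 := by linarith
  have hz0' : 0 ≤ z' := by
    by_contra h1
    have : p * z' < 0 := mul_neg_of_pos_of_neg hp0 (not_le.1 h1)
    linarith
  have hz0 : 0 ≤ z := hz0'.trans hzz
  -- ratio
  have hN21 : N2 - 1 + 1 = N2 := by omega
  have hr := ratio_right hb (N2 - 1) hz0' hzz hza (by
    rw [hz3]
    have : (N2 : ℂ) = ((N2 - 1 + 1 : ℕ) : ℂ) := by rw [hN21]
    rw [this]
    push_cast
    ring) hz3'
  rw [hN21] at hr
  have hth0 : ∀ j, 0 ≤ th p b j := fun j => Real.rpow_nonneg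
    (mul_nonneg (Real.sqrt_nonneg _) (uu_nonneg hb.ok j)) p
  have hr2 : th p b N2 ≤ 0.018 * th p b (N2 - 1) := by
    refine hr.trans (mul_le_mul_of_nonneg_right ?_ (hth0 _))
    refine le_trans (Real.exp_le_exp.2 ?_) D5c_exp
    linarith
  have hlt := w.lt_n
  have hgeom : ∀ k, th p b (N2 + k) ≤ 0.018 ^ k * th p b N2 := by
    intro k
    have h1 := th_geom_right hb (j₀ := N2 - 1) (q := 0.018) (by omega) (by rw [hN21]; exact hr2) k
    rwa [hN21] at h1
  set E : ℝ := Real.exp (p * (lg b 0).re) * Real.exp (-(21.57 * (Vz b / p)) + 5.07) with hE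
  have hE0 : 0 < E := by positivity
  have hthE : th p b N2 ≤ E :=
    th_le hb N2 hza (by rw [abs_of_nonneg hz0]; exact e1) hz3
  set S : ℝ := Vz b / p with hS
  have hS1 : 0.65 ≤ S := by
    rw [hS, le_div_iff₀ hp0]
    exact hV
  -- N2 - M
  have hM0 : (mu b ((0 : ℝ) : ℂ)).re = Mz b := by
    rw [D5c_mu_zero, Complex.ofReal_re]
  have hMd := mu_diff hb (x := 0) (x' := z) (by norm_num) hza hz0
  rw [hM0, hzre, sub_zero] at hMd
  have hM1 : 0 ≤ (N2 : ℝ) - Mz b := by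
    refine le_trans ?_ hMd.1
    positivity
  have hM2 : (N2 : ℝ) - Mz b ≤ 11.45 * S := by
    refine hMd.2.trans ?_
    have h1 : p * z ≤ 9.8 := by
      have : p * z ≤ p * X2 := mul_le_mul_of_nonneg_left hz2.le hp0.le
      linarith [w.hi2]
    have h2 : Vz b = S * p := by
      rw [hS, div_mul_cancel₀ _ hp0.ne']
    have h3 : Vz b * z ≤ S * 9.8 := by
      rw [h2, mul_assoc]
      exact mul_le_mul_of_nonneg_left h1 (by linarith)
    linarith
  constructor
  · rw [D5c_reindex]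
    calc ∑ k ∈ Finset.range (n - N2), th p b (N2 + (k + 1))
        ≤ ∑ k ∈ Finset.range (n - N2), (0.018 : ℝ) ^ (k + 1) * E := by
          refine Finset.sum_le_sum fun k _ => ?_
          exact (hgeom (k + 1)).trans (mul_le_mul_of_nonneg_left hthE (by positivity))
      _ = (∑ k ∈ Finset.range (n - N2), (0.018 : ℝ) ^ (k + 1)) * E := by
          rw [Finset.sum_mul]
      _ ≤ 0.02 * E := by
          refine mul_le_mul_of_nonneg_right ((D5c_sum1 _).trans ?_) hE0.le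
          have : (0 : ℝ) < 0.018 ^ (n - N2) := by positivity
          linarith
  · rw [D5c_reindex]
    calc ∑ k ∈ Finset.range (n - N2), |((N2 + (k + 1) : ℕ) : ℝ) - Mz b| * th p b (N2 + (k + 1))
        ≤ ∑ k ∈ Finset.range (n - N2),
            ((11.45 * S) * (0.018 : ℝ) ^ (k + 1) + ((k : ℝ) + 1) * (0.018 : ℝ) ^ (k + 1)) * E := by
          refine Finset.sum_le_sum fun k _ => ?_
          have h1 : |((N2 + (k + 1) : ℕ) : ℝ) - Mz b| ≤ 11.45 * S + ((k : ℝ) + 1) := by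
            push_cast
            rw [abs_of_nonneg (by have := (Nat.cast_nonneg k : (0:ℝ) ≤ (k:ℝ)); linarith)]
            linarith
          have h2 := (hgeom (k + 1)).trans
            (mul_le_mul_of_nonneg_left hthE (by positivity : (0 : ℝ) ≤ 0.018 ^ (k + 1)))
          calc |((N2 + (k + 1) : ℕ) : ℝ) - Mz b| * th p b (N2 + (k + 1))
              ≤ (11.45 * S + ((k : ℝ) + 1)) * (0.018 ^ (k + 1) * E) :=
                mul_le_mul h1 h2 (hth0 _) (by positivity)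
            _ = _ := by ring
      _ = ((11.45 * S) * (∑ k ∈ Finset.range (n - N2), (0.018 : ℝ) ^ (k + 1)) +
            ∑ k ∈ Finset.range (n - N2), ((k : ℝ) + 1) * (0.018 : ℝ) ^ (k + 1)) * E := by
          rw [← Finset.sum_mul, Finset.sum_add_distrib, ← Finset.mul_sum]
      _ ≤ 0.24 * S * E := by
          refine mul_le_mul_of_nonneg_right ?_ hE0.le
          have h3 : (0 : ℝ) < 0.018 ^ (n - N2) := by positivity
          have h4 := D5c_sum1 (n - N2)
          have h5 := D5c_sum2 (n - N2)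
          have h6 : (0 : ℝ) ≤ (0.0184 * ((n - N2 : ℕ) : ℝ) + 0.0187) * 0.018 ^ (n - N2) := by
            positivity
          have h7 : (11.45 * S) * (∑ k ∈ Finset.range (n - N2), (0.018 : ℝ) ^ (k + 1)) ≤
              (11.45 * S) * 0.0184 := mul_le_mul_of_nonneg_left (by linarith) (by linarith)
          linarith

end Pool.Agent.LP
end

section

set_option autoImplicit false

/-! # D7b: the correction factor -/

namespace Pool.Agent.LP

open Complex MeasureTheory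

variable {n : ℕ} {b : Fin n → ℝ} {p : ℝ}

private theorem D7b_re (s : ℝ) : (zz p s).re = s / p := by
  unfold zz
  have e : ((s : ℂ) + Real.pi * I) / p = ((s / p : ℝ) : ℂ) + ((Real.pi / p : ℝ) : ℂ) * I := by
    push_cast
    ring
  rw [e]
  simp

private theorem D7b_im (s : ℝ) : (zz p s).im = Real.pi / p := by
  unfold zz
  have e : ((s : ℂ) + Real.pi * I) / p = ((s / p : ℝ) : ℂ) + ((Real.pi / p : ℝ) : ℂ) * I := by
    push_cast
    ring
  rw [e]
  simp

private theorem D7b_T (h : Big p b) : 0 < Real.pi / p ∧ Real.pi / p ≤ 0.05 := by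
  have hp := h.hp
  have hp0 : 0 < p := by linarith
  refine ⟨div_pos Real.pi_pos hp0, ?_⟩
  rw [div_le_iff₀ hp0]
  have := Real.pi_lt_d2
  norm_num at this ⊢
  linarith

private theorem D7b_strip (h : Big p b) (s : ℝ) : |(zz p s).im| < Real.pi := by
  rw [D7b_im, abs_of_pos (D7b_T h).1]
  have h1 := (D7b_T h).2
  have := Real.pi_gt_three
  norm_num at h1
  linarith

private theorem D7b_Im (h : Big p b) {s : ℝ} (hs : |s| ≤ 9.8) :
    1.73 ≤ (mu b (zz p s)).im := by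
  have hp := h.hp
  have hp0 : 0 < p := by linarith
  obtain ⟨T0, T1⟩ := D7b_T h
  have h1 := im_mu_ge h.ok (z := zz p s) (by rw [D7b_im]; exact T0.le)
    (by rw [D7b_im]; have := Real.pi_gt_three; norm_num at T1; linarith)
  rw [D7b_im, D7b_re] at h1
  have hx : |s / p| ≤ 0.155 := by
    rw [abs_div, abs_of_pos hp0, div_le_iff₀ hp0]
    norm_num at hs ⊢
    linarith
  have h2 := (W_bd h hx).1
  have h3 : 0.999 * (Real.pi / p) ≤ Real.sin (Real.pi / p) := by
    have h4 := Real.sin_gt_sub_cube T0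
    have h5 : (Real.pi / p) ^ 2 ≤ 0.05 ^ 2 := pow_le_pow_left₀ T0.le T1 2
    have h6 : (Real.pi / p) ^ 3 = (Real.pi / p) * (Real.pi / p) ^ 2 := by ring
    have h7 : (Real.pi / p) * (Real.pi / p) ^ 2 ≤ (Real.pi / p) * 0.05 ^ 2 :=
      mul_le_mul_of_nonneg_left h5 T0.le
    norm_num at h7 ⊢
    linarith
  have hV := h.hV
  have hV0 : 0 ≤ Vz b := le_trans (by positivity) hV
  have h8 : (0.856 * Vz b) * (0.999 * (Real.pi / p)) ≤ W b (s / p) * Real.sin (Real.pi / p) :=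
    mul_le_mul h2 h3 (by positivity) (le_trans (by positivity) h2)
  have h9 : (0.856 * Vz b) * (0.999 * (Real.pi / p)) = 0.856 * 0.999 * Real.pi * (Vz b / p) := by
    ring
  have h10 : 0.65 ≤ Vz b / p := by
    rw [le_div_iff₀ hp0]
    exact hV
  have h11 : 0.856 * 0.999 * 3.14 * 0.65 ≤ 0.856 * 0.999 * Real.pi * (Vz b / p) := by
    apply mul_le_mul _ h10 (by norm_num) (by positivity)
    have := Real.pi_gt_d2
    norm_num at this ⊢
    linarith
  norm_num at h11 ⊢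
  norm_num at h9 h8
  linarith

private theorem D7b_norm (h : Big p b) {s : ℝ} (hs : |s| ≤ 9.8) :
    ‖exp (2 * Real.pi * I * mu b (zz p s))‖ ≤ 0.00009 := by
  rw [norm_exp]
  have e : (2 * Real.pi * I * mu b (zz p s)).re = -(2 * Real.pi * (mu b (zz p s)).im) := by
    have e1 : 2 * Real.pi * I * mu b (zz p s) =
        ((2 * Real.pi : ℝ) : ℂ) * (I * mu b (zz p s)) := by
      push_cast
      ring
    rw [e1, re_ofReal_mul, I_mul_re]
    ring
  rw [e]
  have h1 := D7b_Im h hs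
  have h2 := Real.pi_gt_d2
  have h3 : 2 * 3.14 * 1.73 ≤ 2 * Real.pi * (mu b (zz p s)).im := by
    apply mul_le_mul _ h1 (by norm_num) (by positivity)
    linarith
  have h4 : Real.exp (-(2 * Real.pi * (mu b (zz p s)).im)) ≤ Real.exp (-10) := by
    apply Real.exp_le_exp.2
    norm_num at h3 ⊢
    linarith
  refine h4.trans ?_
  have h5 : (2.7 : ℝ) ≤ Real.exp 1 := by
    have := Real.exp_one_gt_d9
    norm_num at this ⊢
    linarith
  have h6 : Real.exp (-10) = (Real.exp 1 ^ 10)⁻¹ := by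
    rw [Real.exp_neg, ← Real.exp_nat_mul]
    norm_num
  rw [h6]
  have h7 : (2.7 : ℝ) ^ 10 ≤ Real.exp 1 ^ 10 := pow_le_pow_left₀ (by norm_num) h5 10
  calc (Real.exp 1 ^ 10)⁻¹ ≤ ((2.7 : ℝ) ^ 10)⁻¹ := inv_anti₀ (by positivity) h7
    _ ≤ 0.00009 := by norm_num

/-- PROOF. `‖exp(2π i μ)‖ = e^{-2π Im μ}`, `Im μ ≥ W sin T ≥ 0.856 V * 0.9995 T = 0.8555 π S ≥ 0.556 π`; `2π * 0.556 π ≥ 10.9`, `e^{-10.9} ≤ 2e-5`. -/
theorem ee_bd (h : Big p b) {s : ℝ} (hs : |s| ≤ 9.8) : ‖ee p b s - 1‖ ≤ 0.0001 := by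
  have h1 := D7b_norm h hs
  unfold ee
  obtain ⟨E, hE⟩ : ∃ E, E = exp (2 * Real.pi * I * mu b (zz p s)) := ⟨_, rfl⟩
  rw [← hE] at h1 ⊢
  have h2 : 1 - ‖E‖ ≤ ‖1 - E‖ := by
    have := norm_sub_norm_le (1 : ℂ) E
    rwa [norm_one] at this
  have h3 : 0.9999 ≤ ‖1 - E‖ := by
    norm_num at h1 ⊢
    linarith
  have h4 : 1 - E ≠ 0 := by
    intro h0
    rw [h0, norm_zero] at h3
    norm_num at h3
  have h5 : 1 / (1 - E) - 1 = E / (1 - E) := by
    field_simp
    ring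
  rw [h5, norm_div, div_le_iff₀ (lt_of_lt_of_le (by norm_num) h3)]
  norm_num at h1 h3 ⊢
  linarith

theorem ee_cont (h : Big p b) : ContinuousOn (ee p b) (Set.Icc (-9.8) 9.8) := by
  intro s hs
  have hs' : |s| ≤ 9.8 := abs_le.2 hs
  apply ContinuousAt.continuousWithinAt
  have h1 : ContinuousAt (mu b) (zz p s) := (hasDerivAt_mu h.ok (D7b_strip h s)).continuousAt
  have h2 : ContinuousAt (zz p) s := by
    unfold zz
    fun_prop
  have h3 : ContinuousAt (fun s => mu b (zz p s)) s := ContinuousAt.comp (f := zz p) h1 h2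
  unfold ee
  refine ContinuousAt.div continuousAt_const ?_ ?_
  · exact continuousAt_const.sub ((continuousAt_const.mul h3).cexp)
  · intro h0
    have h4 := D7b_norm h hs'
    have h5 : exp (2 * Real.pi * I * mu b (zz p s)) = 1 := (sub_eq_zero.1 h0).symm
    rw [h5, norm_one] at h4
    norm_num at h4

end Pool.Agent.LP
end
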