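import Pool.Agent.Lib.MP_f91407_an.Mg.G012
import Pool.Agent.Lib.MP_f91407_an.Mg.G015

section

set_option autoImplicit false

/-! # D7c: the derivative of `phi` and the remainder -/

namespace Pool.Agent.LP

open Complex MeasureTheory

variable {n : ℕ} {b : Fin n → ℝ} {p : ℝ}

private theorem D7c_aux_mem (h : Big p b) {s : ℝ} (hs : |s| < 9.8 + 0.1) :
    Rg (zz p s) ∧ |(zz p s).im| < Real.pi ∧ (zz p s).re = s / p := by
  have hp : (0 : ℝ) < p := by linarith [h.hp]
  have hp64 := h.hp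
  have hre : (zz p s).re = s / p := by
    unfold zz
    rw [Complex.div_ofReal_re]
    simp
  have him : (zz p s).im = Real.pi / p := by
    unfold zz
    rw [Complex.div_ofReal_im]
    simp
  have hpi : Real.pi < 3.1416 := Real.pi_lt_d4
  have hpi0 : (0 : ℝ) < Real.pi := Real.pi_pos
  have h1 : |(zz p s).re| ≤ 0.155 := by
    rw [hre, abs_div, abs_of_pos hp, div_le_iff₀ hp]
    nlinarith
  have h2 : |(zz p s).im| ≤ 0.05 := by
    rw [him, abs_div, abs_of_pos hp, abs_of_pos hpi0, div_le_iff₀ hp]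
    nlinarith
  refine ⟨⟨h1, h2⟩, ?_, hre⟩
  have : (3 : ℝ) < Real.pi := Real.pi_gt_three
  linarith

private theorem D7c_aux_zz (p s : ℝ) : HasDerivAt (fun t : ℝ => zz p t) (1 / (p : ℂ)) s := by
  unfold zz
  have h1 : HasDerivAt (fun t : ℝ => (t : ℂ) + Real.pi * I) 1 s := by
    have := (Complex.ofRealCLM.hasDerivAt (x := s)).add_const ((Real.pi : ℂ) * I)
    simpa using this
  exact h1.div_const (p : ℂ)

private theorem D7c_aux_slit (h : Big p b) {s : ℝ} (hs : |s| < 9.8 + 0.1) :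
    vv b (zz p s) ∈ slitPlane := by
  obtain ⟨⟨h1, h2⟩, h3, h4⟩ := D7c_aux_mem h hs
  have h5 := (norm_vv_le5 h.ok h2).2.2.2
  have h6 := W_ge27 h (x := (zz p s).re) (by linarith)
  left
  nlinarith

/-- PROOF. With `z = zz p s`, `dz/ds = 1/p`: `phi' = (1/p)(p(-z v) + iπ v + p ell + v'/v) = -(s/p) v(z) + n(z)/p`
(`hasDerivAt_lg`, `hasDerivAt_vv`, `hasDerivAt_mu`, `hasDerivAt_Lam`; `log` at `v`, `Re v > 0`). -/
theorem hasDerivAt_phi (h : Big p b) {s : ℝ} (hs : |s| < 9.8 + 0.1) :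
    HasDerivAt (phi p b) (-(s / p) * vv b (zz p s) + nn p b (zz p s) / p) s := by
  obtain ⟨hR, h3, h4⟩ := D7c_aux_mem h hs
  have hp : (p : ℂ) ≠ 0 := by
    have : (0 : ℝ) < p := by linarith [h.hp]
    exact_mod_cast this.ne'
  have hz := D7c_aux_zz p s
  have hL : HasDerivAt (fun t : ℝ => Lam b (zz p t)) (mu b (zz p s) * (1 / (p : ℂ))) s :=
    (hasDerivAt_Lam h.ok h3).comp s hz
  have hm : HasDerivAt (fun t : ℝ => mu b (zz p t)) (vv b (zz p s) * (1 / (p : ℂ))) s :=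
    (hasDerivAt_mu h.ok h3).comp s hz
  have hv : HasDerivAt (fun t : ℝ => vv b (zz p t)) (vv1 b (zz p s) * (1 / (p : ℂ))) s :=
    (hasDerivAt_vv h.ok h3).comp s hz
  have hl : HasDerivAt (fun t : ℝ => lg b (zz p t)) (ell b (zz p s) * (1 / (p : ℂ))) s :=
    (hasDerivAt_lg h hR).comp s hz
  have hsl := D7c_aux_slit h hs
  have hlog : HasDerivAt (fun t : ℝ => log (vv b (zz p t)))
      (vv1 b (zz p s) * (1 / (p : ℂ)) / vv b (zz p s)) s := hv.clog_real hsl
  have hv0 : vv b (zz p s) ≠ 0 := slitPlane_ne_zero hsl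
  have hzz : zz p s = ((s : ℂ) + Real.pi * I) / p := rfl
  have hall := ((((hL.sub (hm.mul hz)).const_mul (p : ℂ)).add (hm.const_mul ((Real.pi : ℂ) * I))).add
    (hl.const_mul (p : ℂ))).add hlog
  have he : (p : ℂ) * (mu b (zz p s) * (1 / (p : ℂ)) - (vv b (zz p s) * (1 / (p : ℂ)) * zz p s +
        mu b (zz p s) * (1 / (p : ℂ)))) + (Real.pi : ℂ) * I * (vv b (zz p s) * (1 / (p : ℂ))) +
        (p : ℂ) * (ell b (zz p s) * (1 / (p : ℂ))) + vv1 b (zz p s) * (1 / (p : ℂ)) / vv b (zz p s) =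
      -(s / p) * vv b (zz p s) + nn p b (zz p s) / p := by
    unfold nn
    have hv0' := hv0
    have key : vv b (zz p s) * (1 / (p : ℂ)) * zz p s =
        vv b (zz p s) * (1 / (p : ℂ)) * (((s : ℂ) + Real.pi * I) / p) := by
      rw [← hzz]
    rw [key]
    generalize vv b (zz p s) = V at hv0' ⊢
    generalize vv1 b (zz p s) = V1
    generalize mu b (zz p s) = M
    generalize ell b (zz p s) = E
    field_simp
    ring
  rw [he] at hall
  refine hall.congr_of_eventuallyEq ?_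
  filter_upwards with t
  simp [phi]

/-- `lam = -n(iT)/p`. -/
noncomputable def lamp (p : ℝ) (b : Fin n → ℝ) : ℂ := -(nn p b (zz p 0)) / p

theorem lamp_bd (h : Big p b) : |(lamp p b).re| ≤ 0.713 ∧ |(lamp p b).im| ≤ 0.262 := by
  have hp : (0 : ℝ) < p := by linarith [h.hp]
  obtain ⟨hR, -, -⟩ := D7c_aux_mem h (s := 0) (by norm_num)
  obtain ⟨h1, h2⟩ := nn_bd h hR
  constructor
  · unfold lamp
    rw [Complex.div_ofReal_re, Complex.neg_re, abs_div, abs_neg, abs_of_pos hp, div_le_iff₀ hp]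
    exact h1
  · unfold lamp
    rw [Complex.div_ofReal_im, Complex.neg_im, abs_div, abs_neg, abs_of_pos hp, div_le_iff₀ hp]
    exact h2

/-- the remainder -/
noncomputable def rr (p : ℝ) (b : Fin n → ℝ) (s : ℝ) : ℂ :=
  phi p b s - (phi p b 0 - vv b (zz p 0) / p * s ^ 2 / 2 - lamp p b * s)

private theorem D7c_aux_rr (h : Big p b) {s : ℝ} (hs : |s| < 9.8 + 0.1) :
    HasDerivAt (rr p b) (-(s / p) * (vv b (zz p s) - vv b (zz p 0)) +
      (nn p b (zz p s) - nn p b (zz p 0)) / p) s := by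
  have h1 := hasDerivAt_phi h hs
  have hof : HasDerivAt (fun t : ℝ => (t : ℂ)) 1 s := (hasDerivAt_id s).ofReal_comp
  have h2 : HasDerivAt (fun t : ℝ => phi p b 0 - vv b (zz p 0) / p * (t : ℂ) ^ 2 / 2 - lamp p b * t)
      (-(vv b (zz p 0) / p * s) - lamp p b) s := by
    have h3 := (((((hof.pow 2).const_mul (vv b (zz p 0) / p)).div_const 2).const_sub (phi p b 0)).sub
      (hof.const_mul (lamp p b)))
    refine HasDerivAt.congr_deriv h3 ?_
    simp
    ring
  have h4 := h1.sub h2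
  refine HasDerivAt.congr_deriv h4 ?_
  unfold lamp
  ring

private theorem D7c_aux_vdiff (h : Big p b) {s : ℝ} (hs : |s| ≤ 9.8) :
    ‖vv b (zz p s) - vv b (zz p 0)‖ ≤ 1.1692 * Vz b / p * |s| := by
  have hp : (0 : ℝ) < p := by linarith [h.hp]
  have hV : 0 ≤ Vz b := by linarith [h.hV, h.hp]
  have := taylor_step 9.8 (1.1692 * Vz b / p) 0 (fun t => vv b (zz p t) - vv b (zz p 0))
    (fun t => vv1 b (zz p t) * (1 / (p : ℂ))) (by simp) (by
      intro t ht
      obtain ⟨hR, h3, h4⟩ := D7c_aux_mem h (s := t) (by linarith)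
      exact ((hasDerivAt_vv h.ok h3).comp t (D7c_aux_zz p t)).sub_const _) (by
      intro t ht
      obtain ⟨hR, h3, h4⟩ := D7c_aux_mem h (s := t) (by linarith)
      have h5 := (norm_vv_le5 h.ok hR.2).2.1
      have h6 := (W_bd h hR.1).2
      rw [norm_mul, norm_div, Complex.norm_real, Real.norm_of_nonneg hp.le, norm_one, pow_zero, mul_one,
        mul_one_div]
      apply div_le_div_of_nonneg_right _ hp.le
      nlinarith) s hs
  simpa using this

private theorem D7c_aux_ndiff (h : Big p b) {s : ℝ} (hs : |s| ≤ 9.8) :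
    ‖nn p b (zz p s) - nn p b (zz p 0)‖ ≤ 2.74 * |s| := by
  have hp : (0 : ℝ) < p := by linarith [h.hp]
  have hex : ∀ t : ℝ, ∃ d : ℂ, |t| ≤ 9.8 → HasDerivAt (nn p b) d (zz p t) ∧ ‖d‖ ≤ 2.74 * p := by
    intro t
    by_cases ht : |t| ≤ 9.8
    · obtain ⟨hR, h3, h4⟩ := D7c_aux_mem h (s := t) (by linarith)
      obtain ⟨d, hd⟩ := hasDerivAt_nn h hR
      exact ⟨d, fun _ => hd⟩
    · exact ⟨0, fun h => absurd h ht⟩
  choose d hd using hex
  have := taylor_step 9.8 2.74 0 (fun t => nn p b (zz p t) - nn p b (zz p 0))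
    (fun t => d t * (1 / (p : ℂ))) (by simp) (by
      intro t ht
      exact ((hd t ht).1.comp t (D7c_aux_zz p t)).sub_const _) (by
      intro t ht
      have h5 := (hd t ht).2
      rw [norm_mul, norm_div, Complex.norm_real, Real.norm_of_nonneg hp.le, norm_one, pow_zero, mul_one,
        mul_one_div, div_le_iff₀ hp]
      exact h5) s hs
  simpa using this

private theorem D7c_aux_int (a A C : ℝ) (f f' : ℝ → ℂ) (f0 : f 0 = 0)
    (hd : ∀ t, |t| ≤ a → HasDerivAt f (f' t) t) (hb : ∀ t, |t| ≤ a → ‖f' t‖ ≤ A * t ^ 2 + C * |t|) :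
    ∀ t, |t| ≤ a → ‖f t‖ ≤ A * |t| ^ 3 / 3 + C * t ^ 2 / 2 := by
  have key : ∀ (g g' : ℝ → ℂ), g 0 = 0 → (∀ t, |t| ≤ a → HasDerivAt g (g' t) t) →
      (∀ t, |t| ≤ a → ‖g' t‖ ≤ A * t ^ 2 + C * |t|) → ∀ t, 0 ≤ t → t ≤ a →
      ‖g t‖ ≤ A * t ^ 3 / 3 + C * t ^ 2 / 2 := by
    intro g g' g0 hg hg' t ht hta
    have habs : ∀ x ∈ Set.Icc (0 : ℝ) t, |x| ≤ a := fun x hx => by
      rw [abs_of_nonneg hx.1]
      exact hx.2.trans hta
    refine image_norm_le_of_norm_deriv_right_le_deriv_boundary (f := g) (f' := g') (a := 0) (b := t)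
      (fun x hx => (hg x (habs x hx)).continuousAt.continuousWithinAt)
      (fun x hx => (hg x (habs x ⟨hx.1, hx.2.le⟩)).hasDerivWithinAt)
      (B := fun x => A * x ^ 3 / 3 + C * x ^ 2 / 2) (B' := fun x => A * x ^ 2 + C * x)
      (by simp [g0]) ?_ ?_ ⟨ht, le_refl t⟩
    · intro x
      have h1 := (((hasDerivAt_pow 3 x).const_mul A).div_const 3).add
        (((hasDerivAt_pow 2 x).const_mul C).div_const 2)
      refine HasDerivAt.congr_deriv h1 ?_
      norm_num
      ring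
    · intro x hx
      have := hg' x (habs x ⟨hx.1, hx.2.le⟩)
      rwa [abs_of_nonneg hx.1] at this
  intro t ht
  rcases le_total 0 t with h0 | h0
  · rw [abs_of_nonneg h0] at ht ⊢
    exact key f f' f0 hd hb t h0 ht
  · have h1 := key (fun x => f (-x)) (fun x => -(f' (-x))) (by simpa using f0) (by
      intro x hx
      have h2 := hd (-x) (by rwa [abs_neg])
      have h3 := h2.scomp x (hasDerivAt_neg x)
      refine HasDerivAt.congr_deriv h3 ?_
      simp) (by
      intro x hx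
      have := hb (-x) (by rwa [abs_neg])
      rw [norm_neg]
      simpa using this) (-t) (by linarith) (by rwa [abs_of_nonpos h0] at ht)
    rw [abs_of_nonpos h0]
    simpa using h1

/-- PROOF. `rr' = -(s/p)(v(z_s) - v(z_0)) + (n(z_s) - n(z_0))/p`, `‖v(z_s) - v(z_0)‖ ≤ 1.1692 V |s|/p` (`‖v'‖ ≤ 1.001 * 1.168 V`, convexity of the
segment), `‖n(z_s) - n(z_0)‖ ≤ 2.74 |s|` (`hasDerivAt_nn`); integrate: `1.1692 S |s|³/(3p) + 1.37 s²/p`, `p ≥ 64`. -/
theorem rr_bd (h : Big p b) {s : ℝ} (hs : |s| ≤ 9.8) :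
    ‖rr p b s‖ ≤ 0.0061 * (Vz b / p) * |s| ^ 3 + 0.0215 * s ^ 2 := by
  have hp : (0 : ℝ) < p := by linarith [h.hp]
  have hp64 := h.hp
  have hV : 0 ≤ Vz b := by linarith [h.hV, h.hp]
  have hVp : 0 ≤ Vz b / p := div_nonneg hV hp.le
  have hip : 1 / p ≤ 1 / 64 := one_div_le_one_div_of_le (by norm_num) hp64
  have h0 : rr p b 0 = 0 := by simp [rr]
  have hbd := D7c_aux_int 9.8 (1.1692 * (Vz b / p) / p) (2.74 / p) (rr p b)
    (fun s => -(s / p) * (vv b (zz p s) - vv b (zz p 0)) + (nn p b (zz p s) - nn p b (zz p 0)) / p)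
    h0 (fun t ht => D7c_aux_rr h (by linarith)) (by
      intro t ht
      have h1 := D7c_aux_vdiff h ht
      have h2 := D7c_aux_ndiff h ht
      refine (norm_add_le _ _).trans ?_
      rw [norm_mul, norm_neg, norm_div, norm_div, Complex.norm_real, Complex.norm_real,
        Real.norm_of_nonneg hp.le, Real.norm_eq_abs]
      have e1 : |t| / p * ‖vv b (zz p t) - vv b (zz p 0)‖ ≤ 1.1692 * (Vz b / p) / p * t ^ 2 := by
        have : |t| / p * ‖vv b (zz p t) - vv b (zz p 0)‖ ≤ |t| / p * (1.1692 * Vz b / p * |t|) :=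
          mul_le_mul_of_nonneg_left h1 (by positivity)
        refine this.trans (le_of_eq ?_)
        rw [← sq_abs t]
        ring
      have e2 : ‖nn p b (zz p t) - nn p b (zz p 0)‖ / p ≤ 2.74 / p * |t| := by
        have : ‖nn p b (zz p t) - nn p b (zz p 0)‖ / p ≤ 2.74 * |t| / p :=
          div_le_div_of_nonneg_right h2 hp.le
        refine this.trans (le_of_eq ?_)
        ring
      exact add_le_add e1 e2) s hs
  refine hbd.trans ?_
  have hs3 : 0 ≤ |s| ^ 3 := by positivity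
  have hs2 : 0 ≤ s ^ 2 := sq_nonneg s
  have e1 : 1.1692 * (Vz b / p) / p * |s| ^ 3 / 3 ≤ 0.0061 * (Vz b / p) * |s| ^ 3 := by
    have h1 : 1.1692 * (Vz b / p) / p * |s| ^ 3 / 3 = (1.1692 / 3 * (1 / p)) * ((Vz b / p) * |s| ^ 3) := by
      ring
    have h2 : 0.0061 * (Vz b / p) * |s| ^ 3 = 0.0061 * ((Vz b / p) * |s| ^ 3) := by ring
    rw [h1, h2]
    apply mul_le_mul_of_nonneg_right _ (by positivity)
    nlinarith
  have e2 : 2.74 / p * s ^ 2 / 2 ≤ 0.0215 * s ^ 2 := by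
    have h1 : 2.74 / p * s ^ 2 / 2 = (1.37 * (1 / p)) * s ^ 2 := by ring
    rw [h1]
    apply mul_le_mul_of_nonneg_right _ hs2
    nlinarith
  linarith

theorem rr_cont (h : Big p b) : ContinuousOn (rr p b) (Set.Icc (-9.8) 9.8) := by
  intro s hs
  have hs' : |s| < 9.8 + 0.1 := by
    rw [abs_lt]
    constructor
    · have := hs.1
      linarith
    · have := hs.2
      linarith
  exact (D7c_aux_rr h hs').continuousAt.continuousWithinAt

end Pool.Agent.LP
end

section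

set_option autoImplicit false

/-! # D7d: the remainder of `μ` -/

namespace Pool.Agent.LP

open Complex MeasureTheory

variable {n : ℕ} {b : Fin n → ℝ} {p : ℝ}

/-- remainder of `μ` on the top side -/
noncomputable def mm (p : ℝ) (b : Fin n → ℝ) (s : ℝ) : ℂ :=
  mu b (zz p s) - mu b (zz p 0) - vv b (zz p 0) / p * s

private theorem D7d_re (s : ℝ) : (zz p s).re = s / p := by
  unfold zz
  have e : ((s : ℂ) + Real.pi * I) / p = ((s / p : ℝ) : ℂ) + ((Real.pi / p : ℝ) : ℂ) * I := by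
    push_cast
    ring
  rw [e]
  simp

private theorem D7d_im (s : ℝ) : (zz p s).im = Real.pi / p := by
  unfold zz
  have e : ((s : ℂ) + Real.pi * I) / p = ((s / p : ℝ) : ℂ) + ((Real.pi / p : ℝ) : ℂ) * I := by
    push_cast
    ring
  rw [e]
  simp

private theorem D7d_T (h : Big p b) : 0 < Real.pi / p ∧ Real.pi / p ≤ 0.05 := by
  have hp := h.hp
  have hp0 : 0 < p := by linarith
  refine ⟨div_pos Real.pi_pos hp0, ?_⟩
  rw [div_le_iff₀ hp0]
  have := Real.pi_lt_d2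
  norm_num at this ⊢
  linarith

private theorem D7d_strip (h : Big p b) (s : ℝ) : |(zz p s).im| < Real.pi := by
  rw [D7d_im, abs_of_pos (D7d_T h).1]
  have h1 := (D7d_T h).2
  have := Real.pi_gt_three
  norm_num at h1
  linarith

private theorem D7d_der (s : ℝ) : HasDerivAt (zz p) ((1 / p : ℝ) : ℂ) s := by
  have h1 : HasDerivAt (fun s : ℝ => (s : ℂ)) 1 s := (hasDerivAt_id s).ofReal_comp
  have h2 := (h1.add_const (Real.pi * I)).div_const (p : ℂ)
  have e : ((1 / p : ℝ) : ℂ) = 1 / (p : ℂ) := by push_cast; rfl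
  rw [e]
  exact h2

private theorem D7d_comp {f f' : ℂ → ℂ} {s : ℝ} (hf : HasDerivAt f (f' (zz p s)) (zz p s)) :
    HasDerivAt (fun s : ℝ => f (zz p s)) (f' (zz p s) * ((1 / p : ℝ) : ℂ)) s :=
  HasDerivAt.comp_of_eq (h₂ := f) s hf (D7d_der s) rfl

private theorem D7d_mm (h : Big p b) (s : ℝ) :
    HasDerivAt (mm p b) ((vv b (zz p s) - vv b (zz p 0)) * ((1 / p : ℝ) : ℂ)) s := by
  have h1 := D7d_comp (hasDerivAt_mu h.ok (D7d_strip h s))
  have h2 : HasDerivAt (fun s : ℝ => vv b (zz p 0) / p * (s : ℂ)) (vv b (zz p 0) / p * 1) s :=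
    ((hasDerivAt_id s).ofReal_comp).const_mul _
  have h3 := (h1.sub_const (mu b (zz p 0))).sub h2
  have e : (vv b (zz p s) - vv b (zz p 0)) * ((1 / p : ℝ) : ℂ) =
      vv b (zz p s) * ((1 / p : ℝ) : ℂ) - vv b (zz p 0) / p * 1 := by
    push_cast
    ring
  rw [e]
  exact h3

/-- PROOF. `mm' = (v(z_s) - v(z_0))/p`. -/
theorem mm_bd (h : Big p b) {s : ℝ} (hs : |s| ≤ 9.8) :
    ‖mm p b s‖ ≤ 0.0092 * (Vz b / p) * s ^ 2 := by
  have hp := h.hp
  have hp0 : 0 < p := by linarith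
  have hV0 : 0 ≤ Vz b := le_trans (by positivity) h.hV
  have hn : ‖((1 / p : ℝ) : ℂ)‖ = 1 / p := by
    rw [norm_real, Real.norm_eq_abs, abs_of_pos (by positivity)]
  have step1 : ∀ t : ℝ, |t| ≤ 9.8 → ‖vv b (zz p t) - vv b (zz p 0)‖ ≤
      (1.001 * (1.168 * Vz b) * (1 / p)) * |t| ^ (0 + 1) / ((0 : ℕ) + 1) := by
    refine taylor_step 9.8 _ 0 (fun t => vv b (zz p t) - vv b (zz p 0))
      (fun t => vv1 b (zz p t) * ((1 / p : ℝ) : ℂ)) (sub_self _) (fun t _ => ?_) (fun t ht => ?_)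
    · exact (D7d_comp (hasDerivAt_vv h.ok (D7d_strip h t))).sub_const _
    · rw [norm_mul, hn, pow_zero, mul_one]
      apply mul_le_mul_of_nonneg_right _ (by positivity)
      have h1 : |(zz p t).im| ≤ 0.05 := by
        rw [D7d_im, abs_of_pos (D7d_T h).1]
        exact (D7d_T h).2
      have h2 := (norm_vv_le5 h.ok h1).2.1
      have h3 : |(zz p t).re| ≤ 0.155 := by
        rw [D7d_re, abs_div, abs_of_pos hp0, div_le_iff₀ hp0]
        norm_num at ht ⊢
        linarith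
      have h4 := (W_bd h h3).2
      exact h2.trans (mul_le_mul_of_nonneg_left h4 (by norm_num))
  have step2 := taylor_step 9.8 (1.001 * (1.168 * Vz b) * (1 / p) * (1 / p)) 1 (mm p b)
    (fun t => (vv b (zz p t) - vv b (zz p 0)) * ((1 / p : ℝ) : ℂ))
    (by unfold mm; simp) (fun t _ => D7d_mm h t) (fun t ht => by
      rw [norm_mul, hn]
      have h1 := mul_le_mul_of_nonneg_right (step1 t ht) (by positivity : (0 : ℝ) ≤ 1 / p)
      refine h1.trans (le_of_eq ?_)
      push_cast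
      ring) s hs
  refine step2.trans ?_
  rw [← sq_abs s]
  have e : 1.001 * (1.168 * Vz b) * (1 / p) * (1 / p) * |s| ^ (1 + 1) / ((1 : ℕ) + 1) =
      (1.001 * 1.168 / 2 * (1 / p)) * ((Vz b / p) * |s| ^ 2) := by
    push_cast
    ring
  rw [e]
  have e2 : 0.0092 * (Vz b / p) * |s| ^ 2 = 0.0092 * ((Vz b / p) * |s| ^ 2) := by ring
  rw [e2]
  apply mul_le_mul_of_nonneg_right _ (mul_nonneg (div_nonneg hV0 hp0.le) (sq_nonneg _))
  have h1 : 1 / p ≤ 1 / 64 := one_div_le_one_div_of_le (by norm_num) hp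
  calc 1.001 * 1.168 / 2 * (1 / p) ≤ 1.001 * 1.168 / 2 * (1 / 64) :=
        mul_le_mul_of_nonneg_left h1 (by norm_num)
    _ ≤ 0.0092 := by norm_num

theorem mm_cont (h : Big p b) : ContinuousOn (mm p b) (Set.Icc (-9.8) 9.8) :=
  fun s _ => (D7d_mm h s).continuousAt.continuousWithinAt

end Pool.Agent.LP
end

section

set_option autoImplicit false

/-! collects the parts -/
end
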