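import Mathlib

section

set_option autoImplicit false

/-! # E5a: the final contradiction -/

namespace Pool.Agent.LP

open Complex

/-- PROOF. `|Re c| ≤ 0.26 ‖c‖`. `|Re(c(m0 - λ))| ≤ 0.47 π S ‖c‖`, so `π S |Im c| = |Re(c * iπS)| ≤ (0.47 + 0.026) π S ‖c‖ + |Re(c λ)|` and
`|Re(cλ)| ≤ 0.713 * 0.26 ‖c‖ + 0.262 |Im c|`. Hence `(π S - 0.262)|Im c| ≤ (0.496 π S + 0.1854)‖c‖`; with `π S ≥ 2.042` this gives
`|Im c| ≤ 0.68 ‖c‖` (`0.496 x + 0.1854 ≤ 0.68 (x - 0.262)` for `x ≥ 2.042`). But `0.26² + 0.68² < 1`. -/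
theorem final_contra (S : ℝ) (hS : 0.65 ≤ S) (c m0 lam Z0 Z1 : ℂ) (hc : c ≠ 0)
    (hm0 : ‖m0 - Real.pi * (S : ℂ) * I‖ ≤ 0.026 * (Real.pi * S)) (h1 : |lam.re| ≤ 0.713)
    (h2 : |lam.im| ≤ 0.262) (hZ0 : ‖Z0 - c‖ ≤ 0.25 * ‖c‖)
    (hZ1 : ‖Z1 - c * (m0 - lam)‖ ≤ 0.45 * (Real.pi * S) * ‖c‖) (hr0 : |Z0.re| ≤ 0.01 * ‖c‖)
    (hr1 : |Z1.re| ≤ 0.02 * (Real.pi * S) * ‖c‖) : False := by
  have hN : 0 < ‖c‖ := norm_pos_iff.mpr hc
  have hx : 2.042 ≤ Real.pi * S := by nlinarith [Real.pi_gt_d6]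
  set x : ℝ := Real.pi * S with hxd
  set N : ℝ := ‖c‖ with hNd
  have hsq : c.re ^ 2 + c.im ^ 2 = N ^ 2 := by
    rw [hNd, ← Complex.sq_norm_sub_sq_re]
    ring
  have e1 : |c.re| ≤ 0.26 * N := by
    have h3 := (Complex.abs_re_le_norm (Z0 - c)).trans hZ0
    rw [Complex.sub_re] at h3
    have h4 := abs_le.mp h3
    have h5 := abs_le.mp hr0
    exact abs_le.mpr ⟨by linarith, by linarith⟩
  have e2 : |(c * (m0 - lam)).re| ≤ 0.47 * x * N := by
    have h3 := (Complex.abs_re_le_norm (Z1 - c * (m0 - lam))).trans hZ1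
    rw [Complex.sub_re] at h3
    have h4 := abs_le.mp h3
    have h5 := abs_le.mp hr1
    exact abs_le.mpr ⟨by linarith, by linarith⟩
  have hxc : (Real.pi : ℂ) * (S : ℂ) * I = (x : ℂ) * I := by
    rw [hxd]
    push_cast
    ring
  rw [hxc] at hm0
  set δ : ℂ := m0 - (x : ℂ) * I with hδ
  have e3 : |(c * δ).re| ≤ 0.026 * x * N := by
    refine (Complex.abs_re_le_norm _).trans ?_
    rw [norm_mul]
    nlinarith [norm_nonneg c]
  have e4 : (c * (m0 - lam)).re = -(x * c.im) + (c * δ).re - (c.re * lam.re - c.im * lam.im) := by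
    rw [show m0 - lam = (x : ℂ) * I + δ - lam by rw [hδ]; ring]
    simp only [Complex.mul_re, Complex.add_re, Complex.sub_re, Complex.add_im, Complex.sub_im,
      Complex.mul_im, Complex.ofReal_re, Complex.ofReal_im, Complex.I_re, Complex.I_im]
    ring
  have e5 : |c.re * lam.re| ≤ 0.26 * N * 0.713 := by
    rw [abs_mul]
    exact mul_le_mul e1 h1 (abs_nonneg _) (by positivity)
  have e6 : |c.im * lam.im| ≤ |c.im| * 0.262 := by
    rw [abs_mul]
    exact mul_le_mul_of_nonneg_left h2 (abs_nonneg _)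
  have e7 : x * |c.im| ≤ 0.496 * x * N + 0.18538 * N + 0.262 * |c.im| := by
    have h3 : x * |c.im| = |x * c.im| := by
      rw [abs_mul, abs_of_nonneg (by linarith : (0 : ℝ) ≤ x)]
    have h4 : x * c.im = -(c * (m0 - lam)).re + (c * δ).re - c.re * lam.re + c.im * lam.im := by
      rw [e4]
      ring
    have h5 := abs_le.mp e2
    have h6 := abs_le.mp e3
    have h7 := abs_le.mp e5
    have h8 := abs_le.mp e6
    rw [h3, abs_le]
    constructor <;> linarith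
  have e8 : |c.im| ≤ 0.68 * N := by
    by_contra h3
    push Not at h3
    nlinarith
  have h3 := abs_le.mp e1
  have h4 := abs_le.mp e8
  nlinarith [sq_abs c.re, sq_abs c.im, abs_nonneg c.re, abs_nonneg c.im]

end Pool.Agent.LP
end

section

set_option autoImplicit false

/-! # G9a: numerics -/

namespace Pool.Agent.LP

open Finset

theorem G9a_aux {t : ℝ} (h0 : 0 < t) (h1 : t ≤ 1) :
    1 / t - 1 / 2 ≤ Real.exp (-t) / (1 - Real.exp (-t)) := by
  have hE : 1 < Real.exp t := Real.one_lt_exp_iff.2 h0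
  have h2 : Real.exp (-t) / (1 - Real.exp (-t)) = 1 / (Real.exp t - 1) := by
    rw [Real.exp_neg]
    have h3 : Real.exp t ≠ 0 := (Real.exp_pos t).ne'
    have h4 : Real.exp t - 1 ≠ 0 := by linarith
    have h5 : 1 - (Real.exp t)⁻¹ ≠ 0 := by
      intro h6
      have h7 : (Real.exp t)⁻¹ < 1 := inv_lt_one_of_one_lt₀ hE
      linarith
    field_simp
  have h3 : Real.exp t ≤ 1 + t + t ^ 2 / 2 + 2 / 9 * t ^ 3 := by
    have h4 := Real.exp_bound' h0.le h1 (n := 3) (by norm_num)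
    norm_num [Finset.sum_range_succ, Nat.factorial] at h4
    linarith
  rw [h2]
  have h4 : Real.exp t - 1 ≤ t + t ^ 2 / 2 + 2 / 9 * t ^ 3 := by linarith
  have h5 : 0 < Real.exp t - 1 := by linarith
  have h6 : (1 / t - 1 / 2) * (Real.exp t - 1) ≤ 1 := by
    have h7 : 0 ≤ 1 / t - 1 / 2 := by
      have : 1 ≤ 1 / t := by rw [le_div_iff₀ h0]; linarith
      linarith
    refine (mul_le_mul_of_nonneg_left h4 h7).trans ?_
    have h8 : (1 / t - 1 / 2) * (t + t ^ 2 / 2 + 2 / 9 * t ^ 3) =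
        1 - t ^ 2 / 36 - t ^ 3 / 9 := by
      field_simp
      ring
    rw [h8]
    have h9 : 0 < t ^ 2 := by positivity
    have h10 : 0 < t ^ 3 := by positivity
    linarith
  rw [le_div_iff₀ h5]
  exact h6

/-- PROOF. `e^t - 1 ≤ t/(1 - t/2)` for `0 < t < 2`, i.e. `1/(e^t - 1) ≥ 1/t - 1/2`; with `t = 1.45/p`: `x/(1-x) = 1/(e^{t} - 1) ≥ p/1.45 - 1/2` for
`x = e^{-t}`. `e^{-2.15/p} ≥ 1 - 2.15/64 ≥ 0.9664`; `0.9664 (p/1.45 - 1/2) ≥ 0.65 p` for `p ≥ 64` (`0.9664/1.45 ≥ 0.6664`, `0.0164 * 64 ≥ 0.4832 `). -/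
theorem num_V (p V : ℝ) (hp : 64 ≤ p)
    (h : Real.exp (-(1.45 / p)) / (1 - Real.exp (-(1.45 / p))) ≤ Real.exp (2.15 / p) * V) :
    0.65 * p ≤ V := by
  have hp0 : 0 < p := by linarith
  have h1 : (0:ℝ) < 1.45 / p := by positivity
  have h2 : 1.45 / p ≤ 1 := by rw [div_le_one hp0]; linarith
  have h3 := (G9a_aux h1 h2).trans h
  have h4 : 1 / (1.45 / p) = p / 1.45 := by
    field_simp
  rw [h4] at h3
  have h5 : 1 - 2.15 / p ≤ Real.exp (-(2.15 / p)) := by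
    have := Real.add_one_le_exp (-(2.15 / p))
    linarith
  have h6 : 2.15 / p ≤ 2.15 / 64 := by
    gcongr
  have h7 : (0.9664 : ℝ) ≤ Real.exp (-(2.15 / p)) := by
    have : (2.15 : ℝ) / 64 ≤ 0.0336 := by norm_num
    linarith
  have h8 : Real.exp (-(2.15 / p)) * (Real.exp (2.15 / p) * V) = V := by
    rw [← mul_assoc, ← Real.exp_add, neg_add_cancel, Real.exp_zero, one_mul]
  have h9 : 0 ≤ p / 1.45 - 1 / 2 := by
    have : (64 : ℝ) / 1.45 ≤ p / 1.45 := by gcongr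
    norm_num at this ⊢
    linarith
  have h10 : 0.9664 * (p / 1.45 - 1 / 2) ≤ V := by
    calc 0.9664 * (p / 1.45 - 1 / 2) ≤ Real.exp (-(2.15 / p)) * (p / 1.45 - 1 / 2) :=
          mul_le_mul_of_nonneg_right h7 h9
      _ ≤ Real.exp (-(2.15 / p)) * (Real.exp (2.15 / p) * V) :=
          mul_le_mul_of_nonneg_left h3 (Real.exp_pos _).le
      _ = V := h8
  refine le_trans ?_ h10
  have h11 : p / 1.45 = p * (20 / 29) := by
    rw [div_eq_mul_inv]
    norm_num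
  rw [h11]
  norm_num
  linarith

end Pool.Agent.LP
end

section

set_option autoImplicit false

/-! # G7a: alternating sums of log-concave sequences -/

namespace Pool.Agent.LP

open Finset

/-- PROOF. Induction on `M` (peel off the first term, apply the induction hypothesis to `c (i + 1)`). -/
theorem alt_bound (c : ℕ → ℝ) (h0 : ∀ i, 0 ≤ c i) (h1 : ∀ i, c (i + 1) ≤ c i) (M : ℕ) :
    0 ≤ ∑ i ∈ range M, (-1) ^ i * c i ∧ ∑ i ∈ range M, (-1) ^ i * c i ≤ c 0 := by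
  induction M generalizing c with
  | zero =>
    rw [range_zero, sum_empty]
    exact ⟨le_rfl, h0 0⟩
  | succ M ih =>
    obtain ⟨h2, h3⟩ := ih (fun i => c (i + 1)) (fun i => h0 _) (fun i => h1 _)
    have h4 : ∑ i ∈ range (M + 1), (-1) ^ i * c i = c 0 - ∑ i ∈ range M, (-1) ^ i * c (i + 1) := by
      rw [sum_range_succ', pow_zero, one_mul, sub_eq_add_neg, add_comm, ← sum_neg_distrib]
      congr 1
      refine sum_congr rfl fun i _ => ?_
      rw [pow_succ]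
      ring
    rw [h4]
    have h5 := h1 0
    rw [zero_add] at h5 h3
    constructor <;> linarith

/-- a normalised half sequence: nonnegative, value `1` at `0`, nonincreasing from `0` to `1`, ratios nonincreasing -/
structure Half (α : ℕ → ℝ) : Prop where
  nn : ∀ i, 0 ≤ α i
  one : α 0 = 1
  le : α 1 ≤ 1
  lc : ∀ i, α i * α (i + 2) ≤ α (i + 1) ^ 2
  zero : ∀ i, α i = 0 → α (i + 1) = 0

/-- PROOF. Ratios: `α_{i+1} ≤ α_1 α_i` by induction (`α_{i+2} ≤ α_{i+1}²/α_i ≤ α_1 α_{i+1}` if `α_i > 0`, else `0`). -/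
theorem Half.ratio {α : ℕ → ℝ} (h : Half α) (i : ℕ) : α (i + 1) ≤ α 1 * α i := by
  induction i with
  | zero => rw [h.one, mul_one]
  | succ i ih =>
    rcases (h.nn i).eq_or_lt with h0 | h0
    · have h1 := h.zero i h0.symm
      have h2 := h.zero (i + 1) h1
      rw [h1, h2, mul_zero]
    · have h1 := h.lc i
      have h2 : α (i + 1) ^ 2 ≤ α (i + 1) * (α 1 * α i) := by
        rw [sq]
        exact mul_le_mul_of_nonneg_left ih (h.nn _)
      refine le_of_mul_le_mul_left ?_ h0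
      calc α i * α (i + 1 + 1) ≤ α (i + 1) * (α 1 * α i) := h1.trans h2
        _ = α i * (α 1 * α (i + 1)) := by ring

/-- PROOF. As `Half.ratio`, starting from `α_2 ≤ q α_1` (`α_1 > 0` or everything is `0`). -/
theorem Half.ratio2 {α : ℕ → ℝ} (h : Half α) {q : ℝ} (hq : α 2 ≤ q * α 1) (hq0 : 0 ≤ q) (i : ℕ) :
    α (i + 2) ≤ q * α (i + 1) := by
  induction i with
  | zero => exact hq
  | succ i ih =>
    rcases (h.nn (i + 1)).eq_or_lt with h0 | h0
    · have h1 := h.zero (i + 1) h0.symm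
      have h2 := h.zero (i + 2) h1
      have h3 : α (i + 1 + 1) = 0 := h1
      have h4 : α (i + 1 + 2) = 0 := h2
      rw [h3, h4, mul_zero]
    · have h1 := h.lc (i + 1)
      have h2 : α (i + 1 + 1) ^ 2 ≤ α (i + 1 + 1) * (q * α (i + 1)) := by
        rw [sq]
        exact mul_le_mul_of_nonneg_left ih (h.nn _)
      refine le_of_mul_le_mul_left ?_ h0
      calc α (i + 1) * α (i + 1 + 2) ≤ α (i + 1 + 1) * (q * α (i + 1)) := h1.trans h2
        _ = α (i + 1) * (q * α (i + 1 + 1)) := by ring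

/-- PROOF. `∑_{i ≥ 2} (-1)^i (α_i + β_i) ≥ 0` by `alt_bound` (the sequence is nonincreasing because the ratios are `≤ α_1, β_1 ≤ 1`), so
`1 = 2 - (α_1 + β_1) + (≥ 0)`. (`M ≥ 2` may be assumed: for `M = 0` the sum is `0 ≠ 1`, for `M = 1` it is `2 ≠ 1`.) -/
theorem sum_ge_one {α β : ℕ → ℝ} (hα : Half α) (hβ : Half β) (M : ℕ)
    (h : ∑ i ∈ range M, (-1) ^ i * (α i + β i) = 1) : 1 ≤ α 1 + β 1 := by
  have dec : ∀ {γ : ℕ → ℝ}, Half γ → ∀ i, γ (i + 1) ≤ γ i := by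
    intro γ hγ i
    have h1 := hγ.ratio i
    have h2 := mul_le_mul_of_nonneg_right hγ.le (hγ.nn i)
    linarith
  rcases M with _ | _ | M
  · rw [range_zero, sum_empty] at h
    norm_num at h
  · rw [zero_add, sum_range_one, pow_zero, one_mul, hα.one, hβ.one] at h
    norm_num at h
  · rw [sum_range_succ', sum_range_succ'] at h
    have h1 := (alt_bound (fun i => α (i + 2) + β (i + 2))
      (fun i => add_nonneg (hα.nn _) (hβ.nn _))
      (fun i => add_le_add (dec hα (i + 2)) (dec hβ (i + 2))) M).1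
    have h2 : ∑ k ∈ range M, (-1) ^ (k + 1 + 1) * (α (k + 1 + 1) + β (k + 1 + 1)) =
        ∑ i ∈ range M, (-1) ^ i * (α (i + 2) + β (i + 2)) := by
      refine sum_congr rfl fun i _ => ?_
      rw [pow_succ, pow_succ]
      ring
    rw [h2, hα.one, hβ.one] at h
    norm_num at h
    linarith

end Pool.Agent.LP
end

section

set_option autoImplicit false

/-! # G7b: the elementary contradiction -/

namespace Pool.Agent.LP

open Finset

/-- PROOF. Put `q = e^{-1.45} ≤ 0.2346`. `α_1 + β_1 ≥ 1` (`sum_ge_one`), `α_1 ≥ β_1`, `α_1 β_1 ≤ q` give `α_1(1 - α_1) ≤ q` and `α_1 ≥ 1/2`, hence `α_1 ≥ 0.624`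
(`0.624 * 0.376 = 0.234624 > 0.2346`). `L := -∑ (-1)^i i α_i = α_1 - 2α_2 + (3α_3 - ...) ≥ α_1 - 2α_2` (`alt_bound`: `(i+1) α_{i+1} ≤ i α_i` for `i ≥ 2` as
`α_{i+1} ≤ q α_1 α_i`, `Half.ratio2`), `≥ α_1 (1 - 2 q α_1) ≥ 0.44` on `[0.624, 1]`. `R := β_1 - (2β_2 - 3β_3 + ...) ≤ β_1 ≤ q/α_1 ≤ 0.376` (ratios
`(i+1)β_{i+1}/(i β_i) ≤ 2 * 0.376 < 1`). But `L = R`. (Check `M` small: if `M ≤ 1` the first hypothesis fails.) -/
theorem half_contra {α β : ℕ → ℝ} (hα : Half α) (hβ : Half β) (M : ℕ)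
    (h : ∑ i ∈ range M, (-1) ^ i * (α i + β i) = 1)
    (h' : ∑ i ∈ range M, (-1) ^ i * ((i : ℝ) * α i) = ∑ i ∈ range M, (-1) ^ i * ((i : ℝ) * β i))
    (hle : β 1 ≤ α 1) (h1 : α 1 * β 1 ≤ Real.exp (-1.45))
    (h2 : α 2 ≤ Real.exp (-1.45) * α 1 ^ 2) (hM : ∀ i, M ≤ i → α i = 0 ∧ β i = 0) : False := by
  have hq : Real.exp (-1.45) ≤ 0.2346 := by
    have h10 := Real.sum_le_exp_of_nonneg (x := 1.45) (by norm_num) 10
    have h11 : (1 : ℝ) / 0.2346 ≤ Real.exp 1.45 := by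
      refine le_trans ?_ h10
      norm_num [Finset.sum_range_succ, Nat.factorial]
    rw [Real.exp_neg]
    have h12 : (0 : ℝ) < 1 / 0.2346 := by norm_num
    calc (Real.exp 1.45)⁻¹ ≤ ((1 : ℝ) / 0.2346)⁻¹ := by
          gcongr
      _ = 0.2346 := by norm_num
  have hq0 : 0 ≤ Real.exp (-1.45) := (Real.exp_pos _).le
  have hs := sum_ge_one hα hβ M h
  have ha1 := hα.le
  have hb0 := hβ.nn 1
  have ha0 : 1 / 2 ≤ α 1 := by linarith
  have hab : α 1 * β 1 ≤ 0.2346 := h1.trans hq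
  have ha : 0.624 ≤ α 1 := by
    by_contra hcon
    push Not at hcon
    nlinarith
  have hb : β 1 ≤ 0.376 := by
    by_contra hcon
    push Not at hcon
    nlinarith
  have h22 : α 2 ≤ 0.2346 * α 1 ^ 2 := h2.trans (by gcongr)
  -- extend the sums
  have ext : ∀ γ : ℕ → ℝ, (∀ i, M ≤ i → γ i = 0) →
      ∑ i ∈ range M, (-1 : ℝ) ^ i * ((i : ℝ) * γ i) =
        ∑ i ∈ range (M + 3), (-1 : ℝ) ^ i * ((i : ℝ) * γ i) := by
    intro γ hγ
    refine Finset.sum_subset (fun i hi => ?_) (fun i _ hi => ?_)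
    · rw [Finset.mem_range] at hi ⊢
      omega
    · rw [Finset.mem_range, not_lt] at hi
      rw [hγ i hi]
      ring
  rw [ext α fun i hi => (hM i hi).1, ext β fun i hi => (hM i hi).2] at h'
  -- the sum of `α`
  have hr2 : ∀ i, α (i + 2) ≤ (0.2346 * α 1) * α (i + 1) := fun i =>
    hα.ratio2 (by nlinarith) (by positivity) i
  have hA := (alt_bound (fun j => ((j : ℝ) + 3) * α (j + 3))
    (fun i => mul_nonneg (by positivity) (hα.nn _)) (fun i => by
      have h3 := hr2 (i + 2)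
      have h4 := hα.nn (i + 3)
      have h5 : (0.2346 * α 1) * α (i + 3) ≤ 0.2346 * α (i + 3) := by
        nlinarith
      have h6 : α (i + 1 + 3) ≤ 0.2346 * α (i + 3) := h3.trans h5
      have h7 : (0 : ℝ) ≤ i := Nat.cast_nonneg i
      push_cast
      nlinarith [mul_nonneg h7 h4]) M).1
  have eA : ∑ i ∈ range (M + 3), (-1 : ℝ) ^ i * ((i : ℝ) * α i) =
      -(∑ i ∈ range M, (-1 : ℝ) ^ i * (((i : ℝ) + 3) * α (i + 3))) + 2 * α 2 - α 1 := by
    rw [Finset.sum_range_succ', Finset.sum_range_succ', Finset.sum_range_succ',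
      ← Finset.sum_neg_distrib]
    have : ∀ i ∈ range M, (-1 : ℝ) ^ (i + 1 + 1 + 1) * (((i + 1 + 1 + 1 : ℕ) : ℝ) *
        α (i + 1 + 1 + 1)) = -((-1 : ℝ) ^ i * (((i : ℝ) + 3) * α (i + 3))) := by
      intro i _
      push_cast
      ring
    rw [Finset.sum_congr rfl this]
    push_cast
    ring
  -- the sum of `β`
  have hB := (alt_bound (fun j => ((j : ℝ) + 2) * β (j + 2))
    (fun i => mul_nonneg (by positivity) (hβ.nn _)) (fun i => by
      have h3 := hβ.ratio (i + 2)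
      have h4 := hβ.nn (i + 2)
      have h5 : β 1 * β (i + 2) ≤ 0.376 * β (i + 2) := by
        nlinarith
      have h6 : β (i + 1 + 2) ≤ 0.376 * β (i + 2) := h3.trans h5
      have h7 : (0 : ℝ) ≤ i := Nat.cast_nonneg i
      push_cast
      nlinarith [mul_nonneg h7 h4]) (M + 1)).1
  have eB : ∑ i ∈ range (M + 3), (-1 : ℝ) ^ i * ((i : ℝ) * β i) =
      (∑ i ∈ range (M + 1), (-1 : ℝ) ^ i * (((i : ℝ) + 2) * β (i + 2))) - β 1 := by
    rw [Finset.sum_range_succ', Finset.sum_range_succ']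
    have : ∀ i ∈ range (M + 1), (-1 : ℝ) ^ (i + 1 + 1) * (((i + 1 + 1 : ℕ) : ℝ) *
        β (i + 1 + 1)) = ((-1 : ℝ) ^ i * (((i : ℝ) + 2) * β (i + 2))) := by
      intro i _
      push_cast
      ring
    rw [Finset.sum_congr rfl this]
    push_cast
    ring
  rw [eA, eB] at h'
  nlinarith

end Pool.Agent.LP
end

section

set_option autoImplicit false

/-! collects the parts -/
end
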