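import Mathlib
import Pool.Agent.Lib.MP_f91407_an.Mg.G020

section

set_option autoImplicit false

/-! # E5b: two numerical inequalities -/

namespace Pool.Agent.LP

open Complex

theorem E5b_aux {S : ℝ} (hS : 0.65 ≤ S) :
    S * Real.exp (-(22.45 * S) + 7.37) ≤ 0.0006 ∧ Real.exp (-(16.63 * S) + 5.9) ≤ 0.0184 ∧
      2 / S ≤ Real.sqrt (2 * Real.pi / S) := by
  have hS0 : 0 < S := by linarith
  have he := Real.exp_neg_one_lt_d9
  have he0 := Real.exp_pos (-1)
  have h7 : Real.exp (-7) ≤ 0.00092 := by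
    have h1 : Real.exp (-7) = Real.exp (-1) ^ 7 := by
      rw [← Real.exp_nat_mul]
      norm_num
    rw [h1]
    calc Real.exp (-1) ^ 7 ≤ 0.36788 ^ 7 := pow_le_pow_left₀ he0.le (by linarith) 7
      _ ≤ 0.00092 := by norm_num
  have h4 : Real.exp (-4) ≤ 0.0184 := by
    have h1 : Real.exp (-4) = Real.exp (-1) ^ 4 := by
      rw [← Real.exp_nat_mul]
      norm_num
    rw [h1]
    calc Real.exp (-1) ^ 4 ≤ 0.36788 ^ 4 := pow_le_pow_left₀ he0.le (by linarith) 4
      _ ≤ 0.0184 := by norm_num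
  refine ⟨?_, ?_, ?_⟩
  · obtain ⟨t, ht⟩ : ∃ t, t = S - 0.65 := ⟨_, rfl⟩
    have ht0 : 0 ≤ t := by linarith
    have hSt : S = 0.65 + t := by linarith
    have h2 : Real.exp (-(22.45 * S) + 7.37) ≤ Real.exp (-7) * Real.exp (-(22.45 * t)) := by
      rw [← Real.exp_add]
      refine Real.exp_le_exp.2 ?_
      rw [hSt]
      linarith
    have h3 : S * Real.exp (-(22.45 * t)) ≤ 0.65 := by
      have h5 : 1 + 22.45 * t ≤ Real.exp (22.45 * t) := by
        have := Real.add_one_le_exp (22.45 * t)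
        linarith
      rw [Real.exp_neg, ← div_eq_mul_inv, div_le_iff₀ (Real.exp_pos _)]
      nlinarith
    calc S * Real.exp (-(22.45 * S) + 7.37)
        ≤ S * (Real.exp (-7) * Real.exp (-(22.45 * t))) := mul_le_mul_of_nonneg_left h2 hS0.le
      _ = Real.exp (-7) * (S * Real.exp (-(22.45 * t))) := by ring
      _ ≤ 0.00092 * 0.65 := mul_le_mul h7 h3 (by positivity) (by norm_num)
      _ ≤ 0.0006 := by norm_num
  · refine le_trans (Real.exp_le_exp.2 ?_) h4
    linarith
  · refine Real.le_sqrt_of_sq_le ?_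
    rw [div_pow, div_le_div_iff₀ (by positivity) hS0]
    have hpi := Real.pi_gt_d2
    nlinarith [mul_le_mul_of_nonneg_left hS hS0.le]

/-- sides, unweighted. PROOF. Divide by `V E`: with `‖c‖ ≥ 0.998 V E e^{-4.94 S - 0.83} * 0.9 √(2π/S)` and `√(2π/S) ≥ 2.506/√S` the claim follows from
`(7.6 e^{-27.39 S + 6.54} + 0.02/S e^{-21.57 S + 5.07}) √S ≤ 0.01 * 0.998 * 0.9 * 2.506 e^{-4.94 S - 0.83}`, i.e.
`7.6 √S e^{-22.45 S + 7.37} + 0.02/√S e^{-16.63 S + 5.9} ≤ 0.0225`; both terms decrease for `S ≥ 0.65`, where they are `≤ 0.0045` and `≤ 0.0002`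
(use `√S ≤ S/0.8` for `S ≥ 0.65`, `S e^{-22.45 S}` decreasing, ...). -/
theorem num0 (S V E C : ℝ) (hS : 0.65 ≤ S) (hV : 0 < V) (hE : 0 < E)
    (hC : 0.998 * V * E * Real.exp (-(4.94 * S) - 0.83) * (0.9 * Real.sqrt (2 * Real.pi / S)) ≤ C) :
    7.6 * V * E * Real.exp (-(27.39 * S) + 6.54) +
        0.02 * (V / S) * E * Real.exp (-(21.57 * S) + 5.07) ≤ 0.01 * C := by
  obtain ⟨h1, h2, h3⟩ := E5b_aux hS
  have hS0 : 0 < S := by linarith
  have e1 : Real.exp (-(27.39 * S) + 6.54) =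
      Real.exp (-(4.94 * S) - 0.83) * Real.exp (-(22.45 * S) + 7.37) := by
    rw [← Real.exp_add]
    congr 1
    ring
  have e2 : Real.exp (-(21.57 * S) + 5.07) =
      Real.exp (-(4.94 * S) - 0.83) * Real.exp (-(16.63 * S) + 5.9) := by
    rw [← Real.exp_add]
    congr 1
    ring
  rw [e1, e2]
  obtain ⟨X, hX⟩ : ∃ X, X = Real.exp (-(4.94 * S) - 0.83) := ⟨_, rfl⟩
  obtain ⟨A, hA⟩ : ∃ A, A = Real.exp (-(22.45 * S) + 7.37) := ⟨_, rfl⟩
  obtain ⟨B, hB⟩ : ∃ B, B = Real.exp (-(16.63 * S) + 5.9) := ⟨_, rfl⟩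
  have hX0 : 0 < X := by rw [hX]; exact Real.exp_pos _
  rw [← hX, ← hA, ← hB]
  rw [← hX] at hC
  rw [← hA] at h1
  rw [← hB] at h2
  obtain ⟨W, hW⟩ : ∃ W, W = V * E * X / S := ⟨_, rfl⟩
  have hW0 : 0 < W := by rw [hW]; positivity
  have hWS : V * E * X = W * S := by rw [hW]; field_simp
  have hC2 : 1.7964 * W ≤ C := by
    refine le_trans ?_ hC
    have h5 : 0.998 * V * E * X * (0.9 * (2 / S)) ≤ 0.998 * V * E * X * (0.9 * √(2 * Real.pi / S)) :=
      mul_le_mul_of_nonneg_left (mul_le_mul_of_nonneg_left h3 (by norm_num)) (by positivity)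
    refine le_trans (le_of_eq ?_) h5
    rw [hW]
    ring
  have e3 : 7.6 * V * E * (X * A) = 7.6 * W * (S * A) := by
    linear_combination 7.6 * A * hWS
  have e4 : 0.02 * (V / S) * E * (X * B) = 0.02 * W * B := by
    rw [hW]
    ring
  rw [e3, e4]
  have h5 : W * (S * A) ≤ W * 0.0006 := mul_le_mul_of_nonneg_left h1 hW0.le
  have h6 : W * B ≤ W * 0.0184 := mul_le_mul_of_nonneg_left h2 hW0.le
  linarith

/-- weighted. PROOF. As `num0`: `7.6 * 12.1 √S e^{-22.45 S + 7.37} + 0.24/√S e^{-16.63 S + 5.9} ≤ 0.02 π * 2.25`: at `S = 0.65`: `0.055 + 0.0022 ≤ 0.14`. -/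
theorem num1 (S V E C : ℝ) (hS : 0.65 ≤ S) (hV : 0 < V) (hE : 0 < E)
    (hC : 0.998 * V * E * Real.exp (-(4.94 * S) - 0.83) * (0.9 * Real.sqrt (2 * Real.pi / S)) ≤ C) :
    12.1 * S * (7.6 * V * E * Real.exp (-(27.39 * S) + 6.54)) +
        0.24 * V * E * Real.exp (-(21.57 * S) + 5.07) ≤ 0.02 * (Real.pi * S) * C := by
  obtain ⟨h1, h2, h3⟩ := E5b_aux hS
  have hS0 : 0 < S := by linarith
  have e1 : Real.exp (-(27.39 * S) + 6.54) =
      Real.exp (-(4.94 * S) - 0.83) * Real.exp (-(22.45 * S) + 7.37) := by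
    rw [← Real.exp_add]
    congr 1
    ring
  have e2 : Real.exp (-(21.57 * S) + 5.07) =
      Real.exp (-(4.94 * S) - 0.83) * Real.exp (-(16.63 * S) + 5.9) := by
    rw [← Real.exp_add]
    congr 1
    ring
  rw [e1, e2]
  obtain ⟨X, hX⟩ : ∃ X, X = Real.exp (-(4.94 * S) - 0.83) := ⟨_, rfl⟩
  obtain ⟨A, hA⟩ : ∃ A, A = Real.exp (-(22.45 * S) + 7.37) := ⟨_, rfl⟩
  obtain ⟨B, hB⟩ : ∃ B, B = Real.exp (-(16.63 * S) + 5.9) := ⟨_, rfl⟩
  have hX0 : 0 < X := by rw [hX]; exact Real.exp_pos _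
  rw [← hX, ← hA, ← hB]
  rw [← hX] at hC
  rw [← hA] at h1
  rw [← hB] at h2
  obtain ⟨W, hW⟩ : ∃ W, W = V * E * X := ⟨_, rfl⟩
  have hW0 : 0 < W := by rw [hW]; positivity
  have hC2 : 1.7964 * W ≤ S * C := by
    have h5 : 0.998 * V * E * X * (0.9 * (2 / S)) ≤ 0.998 * V * E * X * (0.9 * √(2 * Real.pi / S)) :=
      mul_le_mul_of_nonneg_left (mul_le_mul_of_nonneg_left h3 (by norm_num)) (by positivity)
    refine le_trans (le_of_eq ?_) (mul_le_mul_of_nonneg_left (h5.trans hC) hS0.le)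
    rw [hW]
    field_simp
    ring
  have e3 : 12.1 * S * (7.6 * V * E * (X * A)) + 0.24 * V * E * (X * B)
      = 91.96 * (W * (S * A)) + 0.24 * (W * B) := by
    rw [hW]
    ring
  rw [e3]
  have h5 : W * (S * A) ≤ W * 0.0006 := mul_le_mul_of_nonneg_left h1 hW0.le
  have h6 : W * B ≤ W * 0.0184 := mul_le_mul_of_nonneg_left h2 hW0.le
  have hpi := Real.pi_gt_d2
  have h7 : 3.14 * (S * C) ≤ Real.pi * (S * C) :=
    mul_le_mul_of_nonneg_right hpi.le (le_trans (by positivity) hC2)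
  linarith

end Pool.Agent.LP
end

section

set_option autoImplicit false

/-! collects the parts -/
end

section

set_option autoImplicit false

/-! # G8: if a log-concave sequence has alternating sum and first moment `0`, then it is flat near its mode -/

namespace Pool.Agent.LP

open Finset

private theorem G8_fold (N k : ℕ) (hk : k ≤ N) (g : ℕ → ℝ) (hg : ∀ j, N < j → g j = 0) :
    ∑ i ∈ range (N + 1), (if i ≤ k then g (k - i) else 0) + ∑ i ∈ range (N + 1), g (k + i) =
      ∑ j ∈ range (N + 1), g j + g k := by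
  have h1 : ∑ i ∈ range (N + 1), (if i ≤ k then g (k - i) else 0) =
      ∑ i ∈ range (k + 1), g (k - i) := by
    rw [← Finset.sum_subset (s₁ := range (k + 1)) (s₂ := range (N + 1))]
    · refine Finset.sum_congr rfl fun i hi => ?_
      rw [Finset.mem_range] at hi
      rw [if_pos (by omega)]
    · intro i hi
      rw [Finset.mem_range] at hi ⊢
      omega
    · intro i _ hi
      rw [Finset.mem_range] at hi
      rw [if_neg (by omega)]
  have h2 : ∑ j ∈ range (k + (N + 1)), g j = ∑ j ∈ range (N + 1), g j := by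
    symm
    apply Finset.sum_subset
    · intro i hi
      rw [Finset.mem_range] at hi ⊢
      omega
    · intro i _ hi
      rw [Finset.mem_range] at hi
      exact hg i (by omega)
  have h3 := Finset.sum_range_add g k (N + 1)
  have h4 := Finset.sum_range_succ g k
  have h5 := Finset.sum_flip (n := k) g
  linarith

private theorem G8_exp1 : 2 ≤ Real.exp 0.7 := by
  have h := Real.log_two_lt_d9
  calc (2 : ℝ) = Real.exp (Real.log 2) := (Real.exp_log (by norm_num)).symm
    _ ≤ Real.exp 0.7 := Real.exp_le_exp.mpr (by linarith)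

private theorem G8_exp2 : 2 * Real.exp (-2.15) ≤ Real.exp (-1.45) := by
  have h : Real.exp (-1.45) = Real.exp 0.7 * Real.exp (-2.15) := by
    rw [← Real.exp_add]
    norm_num
  rw [h]
  exact mul_le_mul_of_nonneg_right G8_exp1 (Real.exp_pos _).le

private theorem G8_exp3 : Real.exp 2.15 * Real.exp (-2.15) = 1 := by
  rw [← Real.exp_add]
  norm_num

/-- PROOF. Let `k ≤ N` be a maximum of `t` on `[0, N]`, `α_i = t(k-i)/t(k)` for `i ≤ k`, `0` for `i > k`, `β_i = t(k+i)/t(k)`, `M = N + 1`: both are `Half`.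
`∑_{j ≤ N} (-1)^j t_j = (-1)^k t_k (∑ (-1)^i α_i + ∑ (-1)^i β_i - 1)` gives hypothesis `h` of `half_contra`, and
`∑ (-1)^j (j - k) t_j = (-1)^k t_k (∑ (-1)^i i β_i - ∑ (-1)^i i α_i)` gives `h'`. Suppose first `β_1 ≤ α_1`; by `sum_ge_one` `α_1 ≥ 1/2`, so `k ≥ 1`.
By `half_contra` either (i) `α_1 β_1 > e^{-1.45}` or (ii) `α_2 > e^{-1.45} α_1²`.
(i) take `m = k - 1`: `t_m t_{m+2} > e^{-1.45} t_{m+1}²` (in particular `k + 1 ≤ N`), `t_m/t_{m+1} = α_1 ≥ 1/2 ≥ e^{-2.15}`, `t_{m+1}/t_{m+2} = 1/β_1 < e^{1.45} α_1 ≤ e^{2.15}`.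
(ii) take `m = k - 2` (`α_2 > 0` so `k ≥ 2`): `t_m t_{m+2} > e^{-1.45} t_{m+1}²`, `t_{m+1}/t_{m+2} = α_1 ≤ 1`, `t_m/t_{m+1} = α_2/α_1 > e^{-1.45} α_1 ≥ e^{-1.45}/2 ≥ e^{-2.15}`.
The case `α_1 ≤ β_1` is symmetric: (i) again `m = k - 1` (`t_{m+1}/t_{m+2} = 1/β_1 ≤ 2`, `t_m/t_{m+1} = α_1 > e^{-1.45}/β_1 ≥ e^{-1.45}`; note `α_1 > 0`, so `k ≥ 1`);
(ii) `β_2 > e^{-1.45} β_1²`: `m = k`, `t_m/t_{m+1} = 1/β_1 ≥ 1`, `t_{m+1}/t_{m+2} = β_1/β_2 < e^{1.45}/β_1 ≤ 2 e^{1.45} ≤ e^{2.15}`. (`log 2 ≤ 0.6932`.) -/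
theorem alt_elem (N : ℕ) (t : ℕ → ℝ) (hpos : ∀ j, j ≤ N → 0 < t j) (hz : ∀ j, N < j → t j = 0)
    (hlc : ∀ j, t j * t (j + 2) ≤ t (j + 1) ^ 2)
    (h0 : ∑ j ∈ range (N + 1), (-1) ^ j * t j = 0)
    (h1 : ∑ j ∈ range (N + 1), (-1) ^ j * ((j : ℝ) * t j) = 0) :
    ∃ m : ℕ, m + 2 ≤ N ∧ Real.exp (-1.45) * t (m + 1) ^ 2 < t m * t (m + 2) ∧
      Real.exp (-2.15) * t (m + 1) ≤ t m ∧ t (m + 1) ≤ Real.exp 2.15 * t (m + 2) := by
  have htn : ∀ j, 0 ≤ t j := by
    intro j
    rcases Nat.lt_or_ge N j with h | h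
    · exact (hz j h).ge
    · exact (hpos j h).le
  obtain ⟨k, hkm, hmax⟩ := Finset.exists_max_image (range (N + 1)) t ⟨0, by simp⟩
  have hkN : k ≤ N := by
    rw [Finset.mem_range] at hkm
    omega
  have htk : 0 < t k := hpos k hkN
  have htk0 : t k ≠ 0 := htk.ne'
  have hmax' : ∀ j, t j ≤ t k := by
    intro j
    rcases Nat.lt_or_ge N j with h | h
    · rw [hz j h]
      exact htk.le
    · exact hmax j (by rw [Finset.mem_range]; omega)
  obtain ⟨α, hαdef⟩ : ∃ α : ℕ → ℝ, α = fun i => if i ≤ k then t (k - i) / t k else 0 := ⟨_, rfl⟩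
  obtain ⟨β, hβdef⟩ : ∃ β : ℕ → ℝ, β = fun i => t (k + i) / t k := ⟨_, rfl⟩
  have hα1 : ∀ i, i ≤ k → α i = t (k - i) / t k := by
    intro i hi
    rw [hαdef]
    exact if_pos hi
  have hα2 : ∀ i, k < i → α i = 0 := by
    intro i hi
    rw [hαdef]
    exact if_neg (by omega)
  have hβ1 : ∀ i, β i = t (k + i) / t k := by
    intro i
    rw [hβdef]
  have hα : Half α := by
    refine ⟨?_, ?_, ?_, ?_, ?_⟩
    · intro i
      rcases Nat.lt_or_ge k i with h | h
      · exact (hα2 i h).ge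
      · rw [hα1 i h]
        exact div_nonneg (htn _) htk.le
    · rw [hα1 0 (Nat.zero_le _), Nat.sub_zero, div_self htk0]
    · rcases Nat.lt_or_ge k 1 with h | h
      · rw [hα2 1 h]
        norm_num
      · rw [hα1 1 h]
        exact (div_le_one htk).mpr (hmax' _)
    · intro i
      rcases Nat.lt_or_ge k (i + 2) with h | h
      · rw [hα2 (i + 2) h, mul_zero]
        exact sq_nonneg _
      · rw [hα1 i (by omega), hα1 (i + 2) h, hα1 (i + 1) (by omega), div_mul_div_comm, div_pow,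
          ← sq (t k)]
        refine div_le_div_of_nonneg_right ?_ (sq_nonneg _)
        have h3 := hlc (k - (i + 2))
        rw [show k - (i + 2) + 2 = k - i by omega, show k - (i + 2) + 1 = k - (i + 1) by omega] at h3
        linarith
    · intro i h
      rcases Nat.lt_or_ge k i with h' | h'
      · exact hα2 _ (by omega)
      · rw [hα1 i h'] at h
        exact absurd h (div_pos (hpos _ (by omega)) htk).ne'
  have hβ : Half β := by
    refine ⟨?_, ?_, ?_, ?_, ?_⟩
    · intro i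
      rw [hβ1]
      exact div_nonneg (htn _) htk.le
    · rw [hβ1, Nat.add_zero, div_self htk0]
    · rw [hβ1]
      exact (div_le_one htk).mpr (hmax' _)
    · intro i
      rw [hβ1, hβ1, hβ1, div_mul_div_comm, div_pow, ← sq (t k)]
      exact div_le_div_of_nonneg_right (hlc (k + i)) (sq_nonneg _)
    · intro i h
      rw [hβ1] at h ⊢
      rcases div_eq_zero_iff.mp h with h' | h'
      · rcases Nat.lt_or_ge N (k + i) with h2 | h2
        · rw [hz _ (by omega), zero_div]
        · exact absurd h' (hpos _ h2).ne'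
      · exact absurd h' htk0
  have hs1 : ∀ i, i ≤ k → (-1 : ℝ) ^ (k + (k - i)) = (-1) ^ i := by
    intro i hi
    have h : k + (k - i) + i = 2 * k := by omega
    have h2 : (-1 : ℝ) ^ (k + (k - i)) * (-1) ^ i = 1 := by
      rw [← pow_add, h, pow_mul]
      norm_num
    have h3 : (-1 : ℝ) ^ i * (-1) ^ i = 1 := by
      rw [← pow_add, ← two_mul, pow_mul]
      norm_num
    calc (-1 : ℝ) ^ (k + (k - i)) = (-1 : ℝ) ^ (k + (k - i)) * ((-1) ^ i * (-1) ^ i) := by
          rw [h3, mul_one]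
      _ = (-1 : ℝ) ^ (k + (k - i)) * (-1) ^ i * (-1) ^ i := by ring
      _ = (-1) ^ i := by rw [h2, one_mul]
  have hs2 : ∀ i, (-1 : ℝ) ^ (k + (k + i)) = (-1) ^ i := by
    intro i
    rw [← add_assoc, pow_add, ← two_mul, pow_mul]
    norm_num
  have hsum : ∑ i ∈ range (N + 1), (-1) ^ i * (α i + β i) = 1 := by
    have h := G8_fold N k hkN (fun j => (-1) ^ (k + j) * t j / t k)
      (fun j hj => by simp only [hz j hj, mul_zero, zero_div])
    have e1 : ∑ i ∈ range (N + 1),
        (if i ≤ k then (fun j => (-1 : ℝ) ^ (k + j) * t j / t k) (k - i) else 0) =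
        ∑ i ∈ range (N + 1), (-1) ^ i * α i := by
      refine Finset.sum_congr rfl fun i _ => ?_
      rcases Nat.lt_or_ge k i with h' | h'
      · rw [if_neg (by omega), hα2 i h', mul_zero]
      · rw [if_pos h', hα1 i h']
        simp only []
        rw [hs1 i h', mul_div_assoc]
    have e2 : ∑ i ∈ range (N + 1), (fun j => (-1 : ℝ) ^ (k + j) * t j / t k) (k + i) =
        ∑ i ∈ range (N + 1), (-1) ^ i * β i := by
      refine Finset.sum_congr rfl fun i _ => ?_
      simp only []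
      rw [hs2 i, hβ1 i, mul_div_assoc]
    have e3 : ∑ j ∈ range (N + 1), (fun j => (-1 : ℝ) ^ (k + j) * t j / t k) j = 0 := by
      have : ∑ j ∈ range (N + 1), (fun j => (-1 : ℝ) ^ (k + j) * t j / t k) j =
          (-1) ^ k / t k * ∑ j ∈ range (N + 1), (-1) ^ j * t j := by
        rw [Finset.mul_sum]
        refine Finset.sum_congr rfl fun j _ => ?_
        simp only [pow_add]
        ring
      rw [this, h0, mul_zero]
    have e4 : (-1 : ℝ) ^ (k + k) * t k / t k = 1 := by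
      rw [mul_div_assoc, div_self htk0, ← two_mul, pow_mul]
      norm_num
    rw [e1, e2, e3, e4, ← Finset.sum_add_distrib, zero_add] at h
    refine (Finset.sum_congr rfl fun i _ => ?_).trans h
    ring
  have hsum' : ∑ i ∈ range (N + 1), (-1) ^ i * ((i : ℝ) * α i) =
      ∑ i ∈ range (N + 1), (-1) ^ i * ((i : ℝ) * β i) := by
    have h := G8_fold N k hkN (fun j => (-1) ^ (k + j) * (((j : ℝ) - k) * t j) / t k)
      (fun j hj => by simp only [hz j hj, mul_zero, zero_div])
    have e1 : ∑ i ∈ range (N + 1),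
        (if i ≤ k then (fun j : ℕ => (-1 : ℝ) ^ (k + j) * (((j : ℝ) - k) * t j) / t k) (k - i)
          else 0) =
        -∑ i ∈ range (N + 1), (-1) ^ i * ((i : ℝ) * α i) := by
      rw [← Finset.sum_neg_distrib]
      refine Finset.sum_congr rfl fun i _ => ?_
      rcases Nat.lt_or_ge k i with h' | h'
      · rw [if_neg (by omega), hα2 i h', mul_zero, mul_zero, neg_zero]
      · rw [if_pos h', hα1 i h']
        simp only []
        rw [hs1 i h', Nat.cast_sub h']
        ring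
    have e2 : ∑ i ∈ range (N + 1),
        (fun j : ℕ => (-1 : ℝ) ^ (k + j) * (((j : ℝ) - k) * t j) / t k) (k + i) =
        ∑ i ∈ range (N + 1), (-1) ^ i * ((i : ℝ) * β i) := by
      refine Finset.sum_congr rfl fun i _ => ?_
      simp only []
      rw [hs2 i, hβ1 i]
      push_cast
      ring
    have e3 : ∑ j ∈ range (N + 1),
        (fun j : ℕ => (-1 : ℝ) ^ (k + j) * (((j : ℝ) - k) * t j) / t k) j = 0 := by
      have : ∑ j ∈ range (N + 1),
          (fun j : ℕ => (-1 : ℝ) ^ (k + j) * (((j : ℝ) - k) * t j) / t k) j =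
          (-1) ^ k / t k * (∑ j ∈ range (N + 1), (-1) ^ j * ((j : ℝ) * t j) -
            k * ∑ j ∈ range (N + 1), (-1) ^ j * t j) := by
        rw [Finset.mul_sum, ← Finset.sum_sub_distrib, Finset.mul_sum]
        refine Finset.sum_congr rfl fun j _ => ?_
        simp only [pow_add]
        ring
      rw [this, h0, h1, mul_zero, sub_zero, mul_zero]
    have e4 : (-1 : ℝ) ^ (k + k) * (((k : ℝ) - k) * t k) / t k = 0 := by
      ring
    rw [e1, e2, e3, e4] at h
    linarith
  have hM : ∀ i, N + 1 ≤ i → α i = 0 ∧ β i = 0 := by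
    intro i hi
    refine ⟨hα2 i (by omega), ?_⟩
    rw [hβ1, hz _ (by omega), zero_div]
  have hge := sum_ge_one hα hβ (N + 1) hsum
  have hq := Real.exp_pos (-1.45)
  have hr := Real.exp_pos (-2.15)
  have hR := Real.exp_pos 2.15
  have hx2 := G8_exp2
  have hx3 := G8_exp3
  have ha0 := hα.nn 1
  have hb0 := hβ.nn 1
  have ha1 := hα.le
  have hb1 := hβ.le
  -- the case `α₁ β₁ > q`
  have key1 : Real.exp (-1.45) < α 1 * β 1 → ∃ m : ℕ, m + 2 ≤ N ∧
      Real.exp (-1.45) * t (m + 1) ^ 2 < t m * t (m + 2) ∧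
      Real.exp (-2.15) * t (m + 1) ≤ t m ∧ t (m + 1) ≤ Real.exp 2.15 * t (m + 2) := by
    intro h
    have hk1 : 1 ≤ k := by
      by_contra hc
      rw [hα2 1 (by omega), zero_mul] at h
      linarith
    have hk2 : k + 1 ≤ N := by
      by_contra hc
      rw [hβ1 1, hz (k + 1) (by omega), zero_div, mul_zero] at h
      linarith
    obtain ⟨m, rfl⟩ : ∃ m, k = m + 1 := ⟨k - 1, by omega⟩
    have hA : α 1 * t (m + 1) = t m := by
      rw [hα1 1 hk1, Nat.add_sub_cancel, div_mul_cancel₀ _ htk0]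
    have hB : β 1 * t (m + 1) = t (m + 2) := by
      rw [hβ1 1, div_mul_cancel₀ _ htk0]
    have hαq : Real.exp (-1.45) < α 1 := lt_of_lt_of_le h (mul_le_of_le_one_right ha0 hb1)
    have hβq : Real.exp (-1.45) < β 1 := lt_of_lt_of_le h (mul_le_of_le_one_left hb0 ha1)
    refine ⟨m, by omega, ?_, ?_, ?_⟩
    · rw [← hA, ← hB]
      have : 0 < t (m + 1) ^ 2 := by positivity
      calc Real.exp (-1.45) * t (m + 1) ^ 2 < α 1 * β 1 * t (m + 1) ^ 2 :=
            mul_lt_mul_of_pos_right h this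
        _ = α 1 * t (m + 1) * (β 1 * t (m + 1)) := by ring
    · rw [← hA]
      exact mul_le_mul_of_nonneg_right (by linarith) htk.le
    · rw [← hB, ← mul_assoc]
      refine le_mul_of_one_le_left htk.le ?_
      rw [← hx3]
      exact mul_le_mul_of_nonneg_left (by linarith) hR.le
  rcases le_total (β 1) (α 1) with hle | hle
  · by_cases hc1 : α 1 * β 1 ≤ Real.exp (-1.45)
    · by_cases hc2 : α 2 ≤ Real.exp (-1.45) * α 1 ^ 2
      · exact (half_contra hα hβ (N + 1) hsum hsum' hle hc1 hc2 hM).elim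
      · rw [not_le] at hc2
        have hk2 : 2 ≤ k := by
          by_contra hc
          rw [hα2 2 (by omega)] at hc2
          have : 0 ≤ Real.exp (-1.45) * α 1 ^ 2 := by positivity
          linarith
        obtain ⟨m, rfl⟩ : ∃ m, k = m + 2 := ⟨k - 2, by omega⟩
        have hA : α 1 * t (m + 2) = t (m + 1) := by
          rw [hα1 1 (by omega), div_mul_cancel₀ _ htk0]
          rfl
        have hB : α 2 * t (m + 2) = t m := by
          rw [hα1 2 (by omega), div_mul_cancel₀ _ htk0]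
          rfl
        refine ⟨m, hkN, ?_, ?_, ?_⟩
        · rw [← hA, ← hB]
          have : 0 < t (m + 2) ^ 2 := by positivity
          calc Real.exp (-1.45) * (α 1 * t (m + 2)) ^ 2 =
                Real.exp (-1.45) * α 1 ^ 2 * t (m + 2) ^ 2 := by ring
            _ < α 2 * t (m + 2) ^ 2 := mul_lt_mul_of_pos_right hc2 this
            _ = α 2 * t (m + 2) * t (m + 2) := by ring
        · rw [← hA, ← hB, ← mul_assoc]
          refine mul_le_mul_of_nonneg_right ?_ htk.le
          have h5 : Real.exp (-1.45) * α 1 * (1 / 2) ≤ Real.exp (-1.45) * α 1 * α 1 :=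
            mul_le_mul_of_nonneg_left (by linarith) (by positivity)
          have h6 : 2 * Real.exp (-2.15) * α 1 ≤ Real.exp (-1.45) * α 1 :=
            mul_le_mul_of_nonneg_right hx2 ha0
          nlinarith
        · rw [← hA]
          refine mul_le_mul_of_nonneg_right ?_ htk.le
          have : (1 : ℝ) ≤ Real.exp 2.15 := Real.one_le_exp (by norm_num)
          linarith
    · exact key1 (not_le.mp hc1)
  · by_cases hc1 : α 1 * β 1 ≤ Real.exp (-1.45)
    · by_cases hc2 : β 2 ≤ Real.exp (-1.45) * β 1 ^ 2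
      · refine (half_contra hβ hα (N + 1) ?_ hsum'.symm hle ?_ hc2
          (fun i hi => (hM i hi).symm)).elim
        · refine (Finset.sum_congr rfl fun i _ => ?_).trans hsum
          ring
        · rw [mul_comm]
          exact hc1
      · rw [not_le] at hc2
        have hk2 : k + 2 ≤ N := by
          by_contra hc
          rw [hβ1 2, hz (k + 2) (by omega), zero_div] at hc2
          have : 0 ≤ Real.exp (-1.45) * β 1 ^ 2 := by positivity
          linarith
        have hA : β 1 * t k = t (k + 1) := by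
          rw [hβ1 1, div_mul_cancel₀ _ htk0]
        have hB : β 2 * t k = t (k + 2) := by
          rw [hβ1 2, div_mul_cancel₀ _ htk0]
        refine ⟨k, hk2, ?_, ?_, ?_⟩
        · rw [← hA, ← hB]
          have : 0 < t k ^ 2 := by positivity
          calc Real.exp (-1.45) * (β 1 * t k) ^ 2 =
                Real.exp (-1.45) * β 1 ^ 2 * t k ^ 2 := by ring
            _ < β 2 * t k ^ 2 := mul_lt_mul_of_pos_right hc2 this
            _ = t k * (β 2 * t k) := by ring
        · rw [← hA, ← mul_assoc]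
          refine mul_le_of_le_one_left htk.le ?_
          have h7 : Real.exp (-2.15) ≤ 1 := Real.exp_le_one_iff.mpr (by norm_num)
          exact mul_le_one₀ h7 hb0 hb1
        · rw [← hA, ← hB, ← mul_assoc]
          refine mul_le_mul_of_nonneg_right ?_ htk.le
          have h5 : Real.exp (-1.45) * β 1 * (1 / 2) ≤ Real.exp (-1.45) * β 1 * β 1 :=
            mul_le_mul_of_nonneg_left (by linarith) (by positivity)
          have h6 : 2 * Real.exp (-2.15) * β 1 ≤ Real.exp (-1.45) * β 1 :=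
            mul_le_mul_of_nonneg_right hx2 hb0
          have h8 : Real.exp (-2.15) * β 1 ≤ β 2 := by nlinarith
          calc β 1 = Real.exp 2.15 * Real.exp (-2.15) * β 1 := by rw [hx3, one_mul]
            _ = Real.exp 2.15 * (Real.exp (-2.15) * β 1) := by ring
            _ ≤ Real.exp 2.15 * β 2 := mul_le_mul_of_nonneg_left h8 hR.le
    · exact key1 (not_le.mp hc1)

end Pool.Agent.LP
end
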