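import Pool.Agent.Lib.MP_f91407_an.Mg.G003
import Pool.Agent.Lib.MP_f91407_an.Mg.G020
import Pool.Agent.Lib.MP_f91407_an.Mg.G014
import Pool.Agent.Lib.MP_f91407_an.Mg.G021

section

set_option autoImplicit false

/-! # G4b: the variance is large where the curvature is small -/

namespace Pool.Agent.LP

open Finset

variable {ι : Type} [DecidableEq ι]

/-- PROOF. For `c ∈ S` put `σ = E'_m/E'_{m+1}` (`E'_{m+1} > 0` because `m + 1 ≤ |S| - 1`). `ratio_low`, `ratio_high` and the hypotheses give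
`e^{-δ} ≤ E_m/E_{m+1} ≤ σ ≤ E_{m+1}/E_{m+2} ≤ e^{δ}`; `E_{m+1} = E'_{m+1}(1 + a_c σ)`, so `a_c E'_m E'_{m+1}/E_{m+1}² = a_c σ/(1 + a_c σ)² ≤ e^δ a_c/(1+a_c)²`.
`es_cs` and `E_m E_{m+2} ≥ x E_{m+1}²`: `1 ≤ (1 - x)(1 + ∑_c ...)`, i.e. `x/(1-x) ≤ ∑_c ...`. -/
theorem V_ge {a : ι → ℝ} (ha : ∀ c, 0 < a c) {S : Finset ι} {m : ℕ} (hm : m + 2 ≤ S.card)
    {x δ : ℝ} (hx : x < 1) (hδ : 0 ≤ δ)
    (h : x * es a S (m + 1) ^ 2 ≤ es a S m * es a S (m + 2))
    (h1 : Real.exp (-δ) * es a S (m + 1) ≤ es a S m)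
    (h2 : es a S (m + 1) ≤ Real.exp δ * es a S (m + 2)) :
    x / (1 - x) ≤ Real.exp δ * ∑ c ∈ S, a c / (1 + a c) ^ 2 := by
  have ha' : ∀ c, 0 ≤ a c := fun c => (ha c).le
  have E1 : 0 < es a S (m + 1) := es_pos ha (by omega)
  have E2 : 0 < es a S (m + 2) := es_pos ha hm
  have key : ∀ c ∈ S, a c * es a (S.erase c) m * es a (S.erase c) (m + 1) ≤
      es a S (m + 1) ^ 2 * (Real.exp δ * (a c / (1 + a c) ^ 2)) := by
    intro c hc
    have hcard : (S.erase c).card = S.card - 1 := Finset.card_erase_of_mem hc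
    have F1 : 0 < es a (S.erase c) (m + 1) := es_pos ha (by omega)
    have F0 : 0 < es a (S.erase c) m := es_pos ha (by omega)
    have hlow := ratio_low ha' hc m
    have hhigh := ratio_high ha' hc m
    have her := es_erase a hc m
    have s1 : Real.exp (-δ) ≤ es a (S.erase c) m / es a (S.erase c) (m + 1) := by
      rw [le_div_iff₀ F1]
      have h3 : Real.exp (-δ) * es a S (m + 1) * es a (S.erase c) (m + 1) ≤
          es a S (m + 1) * es a (S.erase c) m :=
        (mul_le_mul_of_nonneg_right h1 F1.le).trans hlow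
      have h4 : es a S (m + 1) * (Real.exp (-δ) * es a (S.erase c) (m + 1)) ≤
          es a S (m + 1) * es a (S.erase c) m := by
        refine le_trans (le_of_eq ?_) h3
        ring
      exact le_of_mul_le_mul_left h4 E1
    have s2 : es a (S.erase c) m / es a (S.erase c) (m + 1) ≤ Real.exp δ := by
      rw [div_le_iff₀ F1]
      have h3 : es a (S.erase c) m * es a S (m + 2) ≤
          es a (S.erase c) (m + 1) * (Real.exp δ * es a S (m + 2)) :=
        hhigh.trans (mul_le_mul_of_nonneg_left h2 F1.le)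
      have h4 : es a S (m + 2) * es a (S.erase c) m ≤
          es a S (m + 2) * (Real.exp δ * es a (S.erase c) (m + 1)) := by
        refine le_trans (le_of_eq (by ring)) (h3.trans (le_of_eq (by ring)))
      exact le_of_mul_le_mul_left h4 E2
    have h5 := frac_le (ha c) s1 s2
    have h6 : a c * es a (S.erase c) m * es a (S.erase c) (m + 1) =
        es a S (m + 1) ^ 2 * (a c * (es a (S.erase c) m / es a (S.erase c) (m + 1)) /
          (1 + a c * (es a (S.erase c) m / es a (S.erase c) (m + 1))) ^ 2) := by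
      have h7 : es a S (m + 1) = es a (S.erase c) (m + 1) *
          (1 + a c * (es a (S.erase c) m / es a (S.erase c) (m + 1))) := by
        rw [her]
        field_simp
      have h8 : 0 < 1 + a c * (es a (S.erase c) m / es a (S.erase c) (m + 1)) := by
        have := mul_pos (ha c) (div_pos F0 F1)
        linarith
      have h9 : es a (S.erase c) (m + 1) + a c * es a (S.erase c) m ≠ 0 := by
        rw [← her]
        exact E1.ne'
      rw [h7, mul_pow]
      field_simp
    rw [h6]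
    exact mul_le_mul_of_nonneg_left h5 (by positivity)
  have hT := Finset.sum_le_sum key
  rw [← Finset.mul_sum, ← Finset.mul_sum] at hT
  have hcs := es_cs ha' S m
  have hx1 : 0 < 1 - x := by linarith
  have hT0 : 0 ≤ ∑ c ∈ S, a c * es a (S.erase c) m * es a (S.erase c) (m + 1) :=
    Finset.sum_nonneg fun c _ => mul_nonneg (mul_nonneg (ha' c) (es_nonneg ha' _ _))
      (es_nonneg ha' _ _)
  set T := ∑ c ∈ S, a c * es a (S.erase c) m * es a (S.erase c) (m + 1) with hTdef
  set e := es a S (m + 1) with he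
  have g1 : e ^ 2 - es a S m * es a S (m + 2) ≤ (1 - x) * e ^ 2 := by linarith
  have g2 : e ^ 4 ≤ (1 - x) * e ^ 2 * (e ^ 2 + T) :=
    hcs.trans (mul_le_mul_of_nonneg_right g1 (by positivity))
  have he2 : 0 < e ^ 2 := by positivity
  have g3 : e ^ 2 ≤ (1 - x) * (e ^ 2 + T) := by
    have h4 : e ^ 2 * e ^ 2 ≤ e ^ 2 * ((1 - x) * (e ^ 2 + T)) := by
      refine le_trans (le_of_eq (by ring)) (g2.trans (le_of_eq (by ring)))
    exact le_of_mul_le_mul_left h4 he2
  rw [div_le_iff₀ hx1]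
  have g4 : x * e ^ 2 ≤ (1 - x) * T := by linarith
  have g5 : (1 - x) * T ≤ (1 - x) * (e ^ 2 * (Real.exp δ * ∑ c ∈ S, a c / (1 + a c) ^ 2)) :=
    mul_le_mul_of_nonneg_left hT hx1.le
  have g6 : e ^ 2 * x ≤ e ^ 2 * (Real.exp δ * (∑ c ∈ S, a c / (1 + a c) ^ 2) * (1 - x)) := by
    refine le_trans (le_of_eq (by ring)) ((g4.trans g5).trans (le_of_eq (by ring)))
  exact le_of_mul_le_mul_left g6 he2

end Pool.Agent.LP
end

section

set_option autoImplicit false

/-! collects the parts -/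
end

section

set_option autoImplicit false

/-! # G9b: the variance is at least `0.65 p` -/

namespace Pool.Agent.LP

open Finset

variable {n : ℕ} {b : Fin n → ℝ}

/-- PROOF. `alt_elem` for `t_j = u_j^p`, `N = n` (`uu_pos`, `uu_eq_zero`, `uu_newton` raised to the power `p`). Taking `p`-th roots:
`e^{-1.45/p} u_{m+1}² ≤ u_m u_{m+2}`, `e^{-2.15/p} u_{m+1} ≤ u_m`, `u_{m+1} ≤ e^{2.15/p} u_{m+2}`. By `uu_eq_es` the same holds for `es a univ`, `a_c = b_c/(1-b_c)`.
`V_ge` with `x = e^{-1.45/p}`, `δ = 2.15/p`, and `a/(1+a)² = b(1-b)`; `num_V`. -/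
theorem V_ge_of_zero (hb : Ok b) {p : ℝ} (hp : 64 ≤ p)
    (h0 : ∑ j ∈ range (n + 1), (-1) ^ j * uu b j ^ p = 0)
    (h1 : ∑ j ∈ range (n + 1), (-1) ^ j * ((j : ℝ) * uu b j ^ p) = 0) :
    0.65 * p ≤ Vz b := by
  have hp0 : 0 < p := by linarith
  have hu0 : ∀ j, 0 ≤ uu b j := uu_nonneg hb
  obtain ⟨m, hm, e1, e2, e3⟩ := alt_elem n (fun j => uu b j ^ p)
    (fun j hj => Real.rpow_pos_of_pos (uu_pos hb hj) p)
    (fun j hj => by
      rw [uu_eq_zero hb hj, Real.zero_rpow hp0.ne'])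
    (fun j => by
      rw [sq, ← Real.mul_rpow (hu0 _) (hu0 _), ← Real.mul_rpow (hu0 _) (hu0 _)]
      refine Real.rpow_le_rpow (mul_nonneg (hu0 _) (hu0 _)) ?_ hp0.le
      have := uu_newton hb j
      rw [sq] at this
      exact this)
    h0 h1
  have hexp : ∀ c : ℝ, Real.exp c = Real.exp (c / p) ^ p := by
    intro c
    rw [← Real.exp_mul, div_mul_cancel₀ c hp0.ne']
  have f1 : Real.exp (-(1.45 / p)) * uu b (m + 1) ^ 2 ≤ uu b m * uu b (m + 2) := by
    have h2 : Real.exp (-1.45) * (uu b (m + 1) ^ p) ^ 2 < uu b m ^ p * uu b (m + 2) ^ p := e1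
    rw [hexp (-1.45), sq, ← Real.mul_rpow (hu0 _) (hu0 _), ← Real.mul_rpow (hu0 _) (hu0 _),
      ← Real.mul_rpow (Real.exp_pos _).le (mul_nonneg (hu0 _) (hu0 _))] at h2
    have h3 := (Real.rpow_le_rpow_iff (mul_nonneg (Real.exp_pos _).le
      (mul_nonneg (hu0 _) (hu0 _))) (mul_nonneg (hu0 _) (hu0 _)) hp0).mp h2.le
    rw [neg_div] at h3
    rw [sq]
    exact h3
  have f2 : Real.exp (-(2.15 / p)) * uu b (m + 1) ≤ uu b m := by
    have h2 : Real.exp (-2.15) * uu b (m + 1) ^ p ≤ uu b m ^ p := e2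
    rw [hexp (-2.15), ← Real.mul_rpow (Real.exp_pos _).le (hu0 _)] at h2
    have h3 := (Real.rpow_le_rpow_iff (mul_nonneg (Real.exp_pos _).le (hu0 _)) (hu0 _) hp0).mp h2
    rw [neg_div] at h3
    exact h3
  have f3 : uu b (m + 1) ≤ Real.exp (2.15 / p) * uu b (m + 2) := by
    have h2 : uu b (m + 1) ^ p ≤ Real.exp 2.15 * uu b (m + 2) ^ p := e3
    rw [hexp 2.15, ← Real.mul_rpow (Real.exp_pos _).le (hu0 _)] at h2
    exact (Real.rpow_le_rpow_iff (hu0 _) (mul_nonneg (Real.exp_pos _).le (hu0 _)) hp0).mp h2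
  have hQ : 0 < ∏ c, (1 - b c) := Finset.prod_pos fun c _ => by linarith [(hb c).2]
  have ha : ∀ c, 0 < b c / (1 - b c) := fun c => div_pos (hb c).1 (by linarith [(hb c).2])
  rw [uu_eq_es hb, uu_eq_es hb, uu_eq_es hb] at f1
  rw [uu_eq_es hb, uu_eq_es hb] at f2 f3
  have g1 : Real.exp (-(1.45 / p)) * es (fun c => b c / (1 - b c)) Finset.univ (m + 1) ^ 2 ≤
      es (fun c => b c / (1 - b c)) Finset.univ m *
        es (fun c => b c / (1 - b c)) Finset.univ (m + 2) := by
    have hQ2 : 0 < (∏ c, (1 - b c)) ^ 2 := by positivity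
    refine le_of_mul_le_mul_left ?_ hQ2
    calc _ = _ := by ring
      _ ≤ _ := f1
      _ = _ := by ring
  have g2 : Real.exp (-(2.15 / p)) * es (fun c => b c / (1 - b c)) Finset.univ (m + 1) ≤
      es (fun c => b c / (1 - b c)) Finset.univ m := by
    refine le_of_mul_le_mul_left ?_ hQ
    calc _ = _ := by ring
      _ ≤ _ := f2
  have g3 : es (fun c => b c / (1 - b c)) Finset.univ (m + 1) ≤
      Real.exp (2.15 / p) * es (fun c => b c / (1 - b c)) Finset.univ (m + 2) := by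
    refine le_of_mul_le_mul_left ?_ hQ
    calc _ ≤ _ := f3
      _ = _ := by ring
  have hx : Real.exp (-(1.45 / p)) < 1 := by
    rw [Real.exp_lt_one_iff]
    have : 0 < 1.45 / p := by positivity
    linarith
  have hδ : 0 ≤ 2.15 / p := by positivity
  have hcard : m + 2 ≤ (Finset.univ : Finset (Fin n)).card := by
    rw [Finset.card_univ, Fintype.card_fin]
    exact hm
  have h4 := V_ge ha hcard hx hδ g1 g2 g3
  have h5 : ∑ c, (b c / (1 - b c)) / (1 + b c / (1 - b c)) ^ 2 = Vz b := by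
    unfold Vz
    refine Finset.sum_congr rfl fun c _ => ?_
    have h6 : (1 : ℝ) - b c ≠ 0 := by
      have := (hb c).2
      intro h
      linarith
    have h7 : 1 + b c / (1 - b c) = 1 / (1 - b c) := by
      field_simp
      ring
    rw [h7]
    field_simp
  rw [h5] at h4
  exact num_V p (Vz b) hp h4

end Pool.Agent.LP
end

section

set_option autoImplicit false

/-! collects the parts -/
end
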