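import Pool.Agent.Lib.MP_f91407_an.Mg.G012
import Pool.Agent.Lib.MP_f91407_an.Mg.G015
import Pool.Agent.Lib.MP_f91407_an.Mg.G011
import Pool.Agent.Lib.MP_f91407_an.Mg.G017
import Pool.Agent.Lib.MP_f91407_an.Mg.G007
import Pool.Agent.Lib.MP_f91407_an.Mg.G021
import Pool.Agent.Lib.MP_f91407_an.Mg.G022

section

set_option autoImplicit false

/-! # D5d: terms to the left of the window -/

namespace Pool.Agent.LP

open Complex MeasureTheory

variable {n : ℕ} {b : Fin n → ℝ} {p : ℝ}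

private theorem D5d_g1 (m : ℕ) :
    ∑ k ∈ Finset.range m, (0.018 : ℝ) ^ (k + 1) = (0.018 - 0.018 ^ (m + 1)) / 0.982 := by
  induction m with
  | zero => norm_num
  | succ m ih =>
    rw [Finset.sum_range_succ, ih, pow_succ (0.018 : ℝ) (m + 1)]
    ring

private theorem D5d_g1' (m : ℕ) : ∑ k ∈ Finset.range m, (0.018 : ℝ) ^ (k + 1) ≤ 0.0184 := by
  have h1 : (0 : ℝ) < 0.018 ^ (m + 1) := by positivity
  rw [D5d_g1]
  rw [div_le_iff₀ (by norm_num)]
  linarith

private theorem D5d_g2 (m : ℕ) :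
    ∑ k ∈ Finset.range m, ((k : ℝ) + 1) * (0.018 : ℝ) ^ (k + 1) ≤
      0.0187 - 1.0375 * ((m : ℝ) + 1) * 0.018 ^ (m + 1) := by
  induction m with
  | zero => norm_num
  | succ m ih =>
    rw [Finset.sum_range_succ, pow_succ (0.018 : ℝ) (m + 1)]
    have h1 : (0 : ℝ) < 0.018 ^ (m + 1) := by positivity
    have h2 : (0 : ℝ) ≤ m := Nat.cast_nonneg m
    have h3 : 0 ≤ (m : ℝ) * 0.018 ^ (m + 1) := mul_nonneg h2 h1.le
    push_cast
    nlinarith

private theorem D5d_g2' (m : ℕ) :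
    ∑ k ∈ Finset.range m, ((k : ℝ) + 1) * (0.018 : ℝ) ^ (k + 1) ≤ 0.0187 := by
  have h1 : (0 : ℝ) ≤ 1.0375 * ((m : ℝ) + 1) * 0.018 ^ (m + 1) := by positivity
  linarith [D5d_g2 m]

private theorem D5d_exp : Real.exp (-4.022) ≤ 0.018 := by
  have h1 : (2.7182818283 : ℝ) < Real.exp 1 := Real.exp_one_gt_d9
  have h2 : (0.022 : ℝ) + 1 ≤ Real.exp 0.022 := Real.add_one_le_exp _
  have h3 : Real.exp (4.022 : ℝ) = Real.exp 1 ^ 4 * Real.exp 0.022 := by
    rw [← Real.exp_nat_mul, ← Real.exp_add]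
    norm_num
  have h4 : (2.7182818283 : ℝ) ^ 4 ≤ Real.exp 1 ^ 4 := by gcongr
  have h5 : (55.56 : ℝ) ≤ Real.exp 4.022 := by
    rw [h3]
    have h6 : (2.7182818283 : ℝ) ^ 4 * (0.022 + 1) ≤ Real.exp 1 ^ 4 * Real.exp 0.022 := by gcongr
    refine le_trans ?_ h6
    norm_num
  rw [Real.exp_neg, inv_le_comm₀ (Real.exp_pos _) (by norm_num)]
  refine le_trans ?_ h5
  norm_num

private theorem D5d_th_nonneg (h : Big p b) (j : ℕ) : 0 ≤ th p b j := by
  unfold th
  exact Real.rpow_nonneg (mul_nonneg (Real.sqrt_nonneg _) (uu_nonneg h.ok j)) _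

private theorem D5d_mu_zero : (mu b ((0 : ℝ) : ℂ)).re = Mz b := by
  unfold mu Mz
  rw [Complex.re_sum]
  refine Finset.sum_congr rfl fun c _ => ?_
  unfold Pc be
  simp

/-- Terms to the left of the window. -/
theorem out_left {N1 N2 : ℕ} {X1 X2 : ℝ} (w : Win p b N1 N2 X1 X2) :
    ∑ j ∈ Finset.range (N1 + 1), th p b j ≤
        0.02 * (Real.exp (p * (lg b 0).re) * Real.exp (-(21.57 * (Vz b / p)) + 5.07)) ∧
      ∑ j ∈ Finset.range (N1 + 1), |(j : ℝ) - Mz b| * th p b j ≤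
        0.24 * (Vz b / p) *
          (Real.exp (p * (lg b 0).re) * Real.exp (-(21.57 * (Vz b / p)) + 5.07)) := by
  have hV := w.big.hV
  have hp := w.big.hp
  have hp0 : 0 < p := by linarith
  have hlo1 := w.lo1
  have hhi1 := w.hi1
  have hlo2 := w.lo2
  have hre1 : (mu b (X1 : ℂ)).re = (N1 : ℝ) + 1 / 2 := by
    rw [w.h1]
    simp
  have hre2 : (mu b (X2 : ℂ)).re = (N2 : ℝ) + 1 / 2 := by
    rw [w.h2]
    simp
  have h12 : X1 ≤ X2 := by
    have h1 : p * X1 ≤ p * X2 := by linarith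
    exact le_of_mul_le_mul_left h1 hp0
  have key : ∀ x x' : ℝ, |x| ≤ 0.155 → |x'| ≤ 0.155 → x ≤ x' →
      0.5564 * (p * (x' - x)) ≤ (mu b x').re - (mu b x).re := by
    intro x x' hx hx' hxx
    have h1 := (mu_diff w.big hx hx' hxx).1
    have h2 : 0.65 * p * (x' - x) ≤ Vz b * (x' - x) :=
      mul_le_mul_of_nonneg_right hV (sub_nonneg.2 hxx)
    nlinarith
  have hN : N1 + 2 ≤ N2 := by
    have h1 := key X1 X2 w.abs1 w.abs2 h12
    rw [hre1, hre2] at h1
    have h2 : (2 : ℝ) ≤ (N2 : ℝ) - N1 := by nlinarith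
    have h3 : ((N1 + 2 : ℕ) : ℝ) ≤ (N2 : ℝ) := by
      push_cast
      linarith
    exact_mod_cast h3
  obtain ⟨z, hz1, hz2, hz⟩ := w.zeta (j := N1 + 1) (by omega) (by omega)
  obtain ⟨y, hy1, hy2, hy⟩ := w.zeta (j := N1 + 2) (by omega) (by omega)
  have ha1 := abs_le.1 w.abs1
  have ha2 := abs_le.1 w.abs2
  have hza : |z| ≤ 0.155 := abs_le.2 ⟨by linarith, by linarith⟩
  have hya : |y| ≤ 0.155 := abs_le.2 ⟨by linarith, by linarith⟩
  have hzr : (mu b (z : ℂ)).re = (N1 : ℝ) + 1 := by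
    rw [hz]
    simp
  have hyr : (mu b (y : ℂ)).re = (N1 : ℝ) + 2 := by
    rw [hy]
    simp
  have hzy : z ≤ y := by
    by_contra hcon
    have h1 := key y z hya hza (le_of_lt (not_le.1 hcon))
    rw [hzr, hyr] at h1
    have h2 : 0 ≤ p * (z - y) := mul_nonneg hp0.le (by linarith)
    linarith
  have e1 := key X1 z w.abs1 hza hz1.le
  have e2 := key X1 y w.abs1 hya hy1.le
  have e3 := key z y hza hya hzy
  rw [hre1, hzr] at e1
  rw [hre1, hyr] at e2
  rw [hzr, hyr] at e3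
  have f1 : p * z ≤ -7.1 := by linarith
  have f2 : p * y ≤ -5.304 := by linarith
  have f3 : p * (y - z) ≤ 1.79728 := by linarith
  have hy0 : y ≤ 0 := by
    by_contra hcon
    have : 0 < p * y := mul_pos hp0 (not_le.1 hcon)
    linarith
  have hz0 : z ≤ 0 := hzy.trans hy0
  -- the ratio
  have hq : th p b (N1 + 1) ≤ 0.018 * th p b (N1 + 1 + 1) := by
    have h1 := ratio_left w.big (N1 + 1) hy0 hzy hza hz (by rw [hy]; push_cast; ring)
    refine h1.trans (mul_le_mul_of_nonneg_right ?_ (D5d_th_nonneg w.big _))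
    refine le_trans (Real.exp_le_exp.2 ?_) D5d_exp
    linarith
  have hgeo : ∀ k, k ≤ N1 → th p b (N1 - k) ≤ 0.018 ^ (k + 1) * th p b (N1 + 1) := by
    intro k hk
    have h1 := th_geom_left w.big (j₀ := N1 + 1) (by have := w.lt_n; omega) hq (k + 1) (by omega)
    have h2 : N1 + 1 - (k + 1) = N1 - k := by omega
    rw [h2] at h1
    exact h1
  obtain ⟨B, hB⟩ : ∃ B, B = Real.exp (p * (lg b 0).re) *
    Real.exp (-(21.57 * (Vz b / p)) + 5.07) := ⟨_, rfl⟩
  have hB0 : 0 < B := by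
    rw [hB]
    positivity
  have hthle : th p b (N1 + 1) ≤ B := by
    rw [hB]
    refine th_le w.big (N1 + 1) hza ?_ hz
    rw [abs_of_nonpos hz0]
    linarith
  have hgeo' : ∀ k, k ≤ N1 → th p b (N1 - k) ≤ 0.018 ^ (k + 1) * B := fun k hk =>
    (hgeo k hk).trans (mul_le_mul_of_nonneg_left hthle (by positivity))
  rw [← hB]
  have hS : 0.65 ≤ Vz b / p := by
    rw [le_div_iff₀ hp0]
    exact hV
  constructor
  · rw [← Finset.sum_range_reflect]
    have h1 : ∑ j ∈ Finset.range (N1 + 1), th p b (N1 + 1 - 1 - j) ≤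
        ∑ j ∈ Finset.range (N1 + 1), 0.018 ^ (j + 1) * B := by
      refine Finset.sum_le_sum fun k hk => ?_
      have hk' : k ≤ N1 := Nat.lt_succ_iff.1 (Finset.mem_range.1 hk)
      exact hgeo' k hk'
    refine h1.trans ?_
    rw [← Finset.sum_mul]
    refine mul_le_mul_of_nonneg_right ?_ hB0.le
    linarith [D5d_g1' (N1 + 1)]
  · have hM : |((N1 : ℝ) + 1) - Mz b| ≤ 11.45 * (Vz b / p) := by
      have h1 := (mu_diff w.big hza (by norm_num : |(0 : ℝ)| ≤ 0.155) hz0)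
      rw [D5d_mu_zero, hzr] at h1
      have h2 : 1.168 * Vz b * (0 - z) ≤ 11.45 * (Vz b / p) := by
        have h3 : Vz b = Vz b / p * p := by
          field_simp
        have h4 : 0 ≤ Vz b / p := by linarith
        have h5 : 1.168 * Vz b * (0 - z) = 1.168 * (Vz b / p) * (-(p * z)) := by
          rw [h3]
          field_simp
          ring
        rw [h5]
        have h6 : -(p * z) ≤ 9.8 := by
          have : p * X1 ≤ p * z := mul_le_mul_of_nonneg_left hz1.le hp0.le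
          linarith
        nlinarith
      have hV0 : 0 ≤ Vz b := by
        have : 0 < 0.65 * p := by positivity
        linarith
      have h3 : 0 ≤ 0.856 * Vz b * (0 - z) := mul_nonneg (by positivity) (by linarith)
      rw [abs_sub_comm, abs_of_nonneg (by linarith [h1.1])]
      linarith [h1.2]
    have habs : ∀ k, k ≤ N1 → |((N1 - k : ℕ) : ℝ) - Mz b| ≤ 11.45 * (Vz b / p) + ((k : ℝ) + 1) := by
      intro k hk
      rw [Nat.cast_sub hk]
      have h1 : (N1 : ℝ) - k - Mz b = ((N1 : ℝ) + 1 - Mz b) - ((k : ℝ) + 1) := by ring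
      rw [h1]
      refine (abs_sub _ _).trans ?_
      have h2 : |((k : ℝ) + 1)| = (k : ℝ) + 1 := abs_of_nonneg (by positivity)
      rw [h2]
      linarith
    rw [← Finset.sum_range_reflect]
    have h1 : ∑ j ∈ Finset.range (N1 + 1),
        |((N1 + 1 - 1 - j : ℕ) : ℝ) - Mz b| * th p b (N1 + 1 - 1 - j) ≤
        ∑ j ∈ Finset.range (N1 + 1), (11.45 * (Vz b / p) + ((j : ℝ) + 1)) * (0.018 ^ (j + 1) * B) := by
      refine Finset.sum_le_sum fun k hk => ?_
      have hk' : k ≤ N1 := Nat.lt_succ_iff.1 (Finset.mem_range.1 hk)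
      refine mul_le_mul (habs k hk') (hgeo' k hk') (D5d_th_nonneg w.big _) ?_
      have : 0 ≤ Vz b / p := by linarith
      positivity
    refine h1.trans ?_
    have h2 : ∑ j ∈ Finset.range (N1 + 1),
        (11.45 * (Vz b / p) + ((j : ℝ) + 1)) * (0.018 ^ (j + 1) * B) =
        (11.45 * (Vz b / p) * (∑ j ∈ Finset.range (N1 + 1), (0.018 : ℝ) ^ (j + 1)) +
        ∑ j ∈ Finset.range (N1 + 1), ((j : ℝ) + 1) * 0.018 ^ (j + 1)) * B := by
      rw [Finset.mul_sum, ← Finset.sum_add_distrib, Finset.sum_mul]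
      refine Finset.sum_congr rfl fun k _ => ?_
      ring
    rw [h2]
    refine mul_le_mul_of_nonneg_right ?_ hB0.le
    have h3 := D5d_g1' (N1 + 1)
    have h4 := D5d_g2' (N1 + 1)
    have h5 : 11.45 * (Vz b / p) * (∑ j ∈ Finset.range (N1 + 1), (0.018 : ℝ) ^ (j + 1)) ≤
        11.45 * (Vz b / p) * 0.0184 := mul_le_mul_of_nonneg_left h3 (by linarith)
    linarith

end Pool.Agent.LP
end

section

set_option autoImplicit false

/-! collects the parts -/
end

section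

set_option autoImplicit false

/-! # F1: assembly of the local lemma -/

namespace Pool.Agent.LP

open Complex MeasureTheory

variable {n : ℕ} {b : Fin n → ℝ} {p : ℝ}

/-- the constant of the top side -/
noncomputable def cc (p : ℝ) (b : Fin n → ℝ) : ℂ :=
  exp (phi p b 0) * I0 (vv b (zz p 0) / p) (lamp p b)

theorem F1_S (h : Big p b) : 0.65 ≤ Vz b / p := by
  have hp : 0 < p := by linarith [h.hp]
  rw [le_div_iff₀ hp]
  exact h.hV

theorem F1_top (h : Big p b) {N1 N2 : ℕ} {X1 X2 : ℝ} (w : Win p b N1 N2 X1 X2) :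
    TopData (Vz b / p) (vv b (zz p 0) / p) (lamp p b) (mu b (zz p 0) - Mz b) (p * X1) (p * X2)
      (rr p b) (ee p b) (mm p b) where
  hS := F1_S h
  hSs := (Ss_bd h).1
  hSr := (Ss_bd h).2
  hl1 := (lamp_bd h).1
  hl2 := (lamp_bd h).2
  hm0 := m0_bd h
  h1 := ⟨w.lo1, w.hi1⟩
  h2 := ⟨w.lo2, w.hi2⟩
  hr := fun _ hs => rr_bd h hs
  he := fun _ hs => ee_bd h hs
  hm := fun _ hs => mm_bd h hs
  cr := rr_cont h
  ce := ee_cont h
  cm := mm_cont h

theorem F1_exp (p : ℝ) (b : Fin n → ℝ) (s : ℝ) :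
    exp (phi p b s) = exp (phi p b 0) *
      exp (-(vv b (zz p 0) / p * s ^ 2 / 2) - lamp p b * s + rr p b s) := by
  rw [← Complex.exp_add]
  congr 1
  unfold rr
  ring

theorem F1_mu (p : ℝ) (b : Fin n → ℝ) (s : ℝ) :
    mu b (zz p s) - Mz b = (mu b (zz p 0) - Mz b) + vv b (zz p 0) / p * s + mm p b s := by
  unfold mm
  ring

theorem F1_c_ge (h : Big p b) :
    0.998 * Vz b * Real.exp (p * (lg b 0).re) * Real.exp (-(4.94 * (Vz b / p)) - 0.83) *
      (0.9 * Real.sqrt (2 * Real.pi / (Vz b / p))) ≤ ‖cc p b‖ := by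
  unfold cc
  rw [norm_mul, Complex.norm_exp]
  refine mul_le_mul (phi_zero_ge h) ?_ (by positivity) (Real.exp_pos _).le
  exact I0_ge' _ (F1_S h) _ _ (Ss_bd h).1 (Ss_bd h).2 (lamp_bd h).2

theorem F1_c_ne (h : Big p b) : cc p b ≠ 0 := by
  have h1 := F1_c_ge h
  have hS := F1_S h
  have hV : 0 < Vz b := by have := h.hV; have := h.hp; linarith
  have h2 : 0 < 0.998 * Vz b * Real.exp (p * (lg b 0).re) *
      Real.exp (-(4.94 * (Vz b / p)) - 0.83) *
      (0.9 * Real.sqrt (2 * Real.pi / (Vz b / p))) := by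
    have : 0 < Vz b / p := by linarith
    positivity
  intro h3
  rw [h3, norm_zero] at h1
  linarith

/-- the integral over the top side -/
noncomputable def Ztop (p : ℝ) (b : Fin n → ℝ) (X1 X2 α β : ℝ) : ℂ :=
  ∫ s in (p * X1)..(p * X2), exp (phi p b s) * ee p b s * ((α : ℂ) + β * mu b (zz p s))

theorem F1_Z0 (h : Big p b) {N1 N2 : ℕ} {X1 X2 : ℝ} (w : Win p b N1 N2 X1 X2) :
    ‖Ztop p b X1 X2 1 0 - cc p b‖ ≤ 0.25 * ‖cc p b‖ := by
  have h1 := top_Z0 (F1_top h w)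
  have h2 : Ztop p b X1 X2 1 0 = exp (phi p b 0) * ∫ s in (p * X1)..(p * X2),
      exp (-(vv b (zz p 0) / p * s ^ 2 / 2) - lamp p b * s + rr p b s) * ee p b s := by
    unfold Ztop
    rw [← intervalIntegral.integral_const_mul]
    refine intervalIntegral.integral_congr fun s _ => ?_
    simp only [ofReal_one, ofReal_zero, zero_mul, add_zero, mul_one]
    rw [F1_exp]
    ring
  unfold cc
  rw [h2, ← mul_sub, norm_mul, norm_mul]
  have h3 := norm_nonneg (exp (phi p b 0))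
  nlinarith [mul_le_mul_of_nonneg_left h1 h3]

theorem F1_Z1 (h : Big p b) {N1 N2 : ℕ} {X1 X2 : ℝ} (w : Win p b N1 N2 X1 X2) :
    ‖Ztop p b X1 X2 (-Mz b) 1 - cc p b * ((mu b (zz p 0) - Mz b) - lamp p b)‖ ≤
      0.45 * (Real.pi * (Vz b / p)) * ‖cc p b‖ := by
  have h1 := top_Z1 (F1_top h w)
  have h2 : Ztop p b X1 X2 (-Mz b) 1 = exp (phi p b 0) * ∫ s in (p * X1)..(p * X2),
      exp (-(vv b (zz p 0) / p * s ^ 2 / 2) - lamp p b * s + rr p b s) * ee p b s *
        ((mu b (zz p 0) - Mz b) + vv b (zz p 0) / p * s + mm p b s) := by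
    unfold Ztop
    rw [← intervalIntegral.integral_const_mul]
    refine intervalIntegral.integral_congr fun s _ => ?_
    rw [F1_exp, ← F1_mu]
    push_cast
    ring
  unfold cc
  rw [h2, mul_assoc, ← mul_sub, norm_mul, norm_mul]
  have h3 := norm_nonneg (exp (phi p b 0))
  nlinarith [mul_le_mul_of_nonneg_left h1 h3]

/-- kernel with weight -/
noncomputable def Kw (p : ℝ) (b : Fin n → ℝ) (α β : ℝ) (z : ℂ) : ℂ :=
  ((α : ℂ) + β * mu b z) * Nk p b z / Dk b z

/-- PROOF. Two sides of length `2π/p`, each with integrand `≤ K`. -/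
theorem F1_sides (h : Big p b) {X1 X2 : ℝ} (α β K : ℝ)
    (hK1 : ∀ v : ℝ, |v| ≤ Real.pi / p → ‖Kw p b α β ((X1 : ℂ) + v * I)‖ ≤ K)
    (hK2 : ∀ v : ℝ, |v| ≤ Real.pi / p → ‖Kw p b α β ((X2 : ℂ) + v * I)‖ ≤ K) :
    ‖(∫ v in (-(Real.pi / p))..(Real.pi / p), Kw p b α β ((X2 : ℂ) + v * I)) -
      ∫ v in (-(Real.pi / p))..(Real.pi / p), Kw p b α β ((X1 : ℂ) + v * I)‖ ≤
      K * (4 * Real.pi / p) := by
  have hp : 0 < p := by linarith [h.hp]
  have hpi := Real.pi_pos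
  have hT : 0 < Real.pi / p := by positivity
  have key : ∀ X : ℝ, (∀ v : ℝ, |v| ≤ Real.pi / p → ‖Kw p b α β ((X : ℂ) + v * I)‖ ≤ K) →
      ‖∫ v in (-(Real.pi / p))..(Real.pi / p), Kw p b α β ((X : ℂ) + v * I)‖ ≤
        K * (2 * Real.pi / p) := by
    intro X hX
    have := intervalIntegral.norm_integral_le_of_norm_le_const (a := -(Real.pi / p))
      (b := Real.pi / p) (C := K) (f := fun v : ℝ => Kw p b α β ((X : ℂ) + v * I)) (by
        intro v hv
        rw [Set.uIoc_of_le (by linarith)] at hv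
        exact hX v (abs_le.2 ⟨hv.1.le, hv.2⟩))
    refine this.trans (le_of_eq ?_)
    rw [abs_of_pos (by linarith)]
    ring
  calc _ ≤ _ := norm_sub_le _ _
    _ ≤ K * (2 * Real.pi / p) + K * (2 * Real.pi / p) := add_le_add (key X2 hK2) (key X1 hK1)
    _ = _ := by ring

theorem F1_th (hb : Ok b) (j : ℕ) : th p b j = Real.sqrt (2 * Real.pi) ^ p * uu b j ^ p := by
  unfold th
  exact Real.mul_rpow (Real.sqrt_nonneg _) (uu_nonneg hb j)

theorem F1_th_nonneg (p : ℝ) (hb : Ok b) (j : ℕ) : 0 ≤ th p b j := by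
  rw [F1_th hb]
  have := uu_nonneg hb j
  positivity

theorem F1_split {N1 N2 : ℕ} (h1 : N1 < N2) (h2 : N2 < n) (f : ℕ → ℝ) :
    ∑ j ∈ Finset.range (n + 1), f j = ∑ j ∈ Finset.range (N1 + 1), f j +
      ∑ j ∈ Finset.Ioc N1 N2, f j + ∑ j ∈ Finset.Ioc N2 n, f j := by
  have e1 : Finset.range (n + 1) = Finset.range (N1 + 1) ∪ Finset.Ioc N1 N2 ∪ Finset.Ioc N2 n := by
    ext j
    simp only [Finset.mem_range, Finset.mem_union, Finset.mem_Ioc]
    omega
  rw [e1, Finset.sum_union, Finset.sum_union]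
  · rw [Finset.disjoint_left]
    intro j hj hj'
    simp only [Finset.mem_range, Finset.mem_Ioc] at hj hj'
    omega
  · rw [Finset.disjoint_left]
    intro j hj hj'
    simp only [Finset.mem_range, Finset.mem_Ioc, Finset.mem_union] at hj hj'
    omega

/-- the real part of the top integral. `A`, `B` = sums of the absolute values outside of the window. -/
theorem F1_re (h : Big p b) {N1 N2 : ℕ} {X1 X2 : ℝ} (w : Win p b N1 N2 X1 X2) (α β K A B : ℝ)
    (hK1 : ∀ v : ℝ, |v| ≤ Real.pi / p → ‖Kw p b α β ((X1 : ℂ) + v * I)‖ ≤ K)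
    (hK2 : ∀ v : ℝ, |v| ≤ Real.pi / p → ‖Kw p b α β ((X2 : ℂ) + v * I)‖ ≤ K)
    (hsum : ∑ j ∈ Finset.range (n + 1), (-1) ^ j * ((α + β * j) * th p b j) = 0)
    (hA : ∑ j ∈ Finset.Ioc N2 n, |α + β * j| * th p b j ≤ A)
    (hB : ∑ j ∈ Finset.range (N1 + 1), |α + β * j| * th p b j ≤ B) :
    |(Ztop p b X1 X2 α β).re| ≤ p / 4 * (K * (4 * Real.pi / p) + 2 * (A + B)) := by
  have hp : 0 < p := by linarith [h.hp]
  have e1 := window_identity w (α : ℂ) (β : ℂ)
  have e2 := top_bottom w α β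
  rw [e1] at e2
  have e3 := F1_sides h α β K hK1 hK2
  -- the window sum is real
  have e4 : (2 * ∑ j ∈ Finset.Ioc N1 N2, (-1) ^ j * ((α : ℂ) + β * j) * (th p b j : ℂ)) =
      ((2 * ∑ j ∈ Finset.Ioc N1 N2, (-1) ^ j * ((α + β * j) * th p b j) : ℝ) : ℂ) := by
    push_cast
    congr 1
    refine Finset.sum_congr rfl fun j _ => ?_
    ring
  rw [e4] at e2
  have e5 := congrArg Complex.re e2
  rw [ofReal_re, add_re, ofReal_re] at e5
  have e6 := F1_split w.lt w.lt_n fun j => (-1) ^ j * ((α + β * j) * th p b j)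
  rw [hsum] at e6
  have habs : ∀ S : Finset ℕ, |∑ j ∈ S, (-1) ^ j * ((α + β * j) * th p b j)| ≤
      ∑ j ∈ S, |α + β * j| * th p b j := by
    intro S
    refine (Finset.abs_sum_le_sum_abs _ _).trans (Finset.sum_le_sum fun j _ => ?_)
    rw [abs_mul, abs_pow, abs_neg, abs_one, one_pow, one_mul, abs_mul,
      abs_of_nonneg (F1_th_nonneg p h.ok j)]
  have a1 := habs (Finset.Ioc N2 n)
  have a2 := habs (Finset.range (N1 + 1))
  have a3 := Complex.abs_re_le_norm ((∫ v in (-(Real.pi / p))..(Real.pi / p),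
      Kw p b α β ((X2 : ℂ) + v * I)) -
      ∫ v in (-(Real.pi / p))..(Real.pi / p), Kw p b α β ((X1 : ℂ) + v * I))
  have e7 : (Ztop p b X1 X2 α β).re = p / 4 * (2 * ∑ j ∈ Finset.Ioc N1 N2,
      (-1) ^ j * ((α + β * j) * th p b j) - ((∫ v in (-(Real.pi / p))..(Real.pi / p),
      Kw p b α β ((X2 : ℂ) + v * I)) -
      ∫ v in (-(Real.pi / p))..(Real.pi / p), Kw p b α β ((X1 : ℂ) + v * I)).re) := by
    have : 4 / p * (Ztop p b X1 X2 α β).re = (2 * ∑ j ∈ Finset.Ioc N1 N2,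
      (-1) ^ j * ((α + β * j) * th p b j) - ((∫ v in (-(Real.pi / p))..(Real.pi / p),
      Kw p b α β ((X2 : ℂ) + v * I)) -
      ∫ v in (-(Real.pi / p))..(Real.pi / p), Kw p b α β ((X1 : ℂ) + v * I)).re) := by
      rw [e5]
      unfold Kw Ztop
      ring
    rw [← this]
    field_simp
  rw [e7, abs_mul, abs_of_pos (by positivity : (0 : ℝ) < p / 4)]
  refine mul_le_mul_of_nonneg_left ?_ (by positivity)
  have hwin : ∑ j ∈ Finset.Ioc N1 N2, (-1) ^ j * ((α + β * j) * th p b j) =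
      -(∑ j ∈ Finset.range (N1 + 1), (-1) ^ j * ((α + β * j) * th p b j)) -
        ∑ j ∈ Finset.Ioc N2 n, (-1) ^ j * ((α + β * j) * th p b j) := by linarith
  rw [hwin]
  have b1 := abs_le.1 (a1.trans hA)
  have b2 := abs_le.1 (a2.trans hB)
  have b3 := abs_le.1 (a3.trans e3)
  rw [abs_le]
  constructor <;> linarith [b1.1, b1.2, b2.1, b2.2, b3.1, b3.2]

theorem F1_K (h : Big p b) {X : ℝ} (hx1 : 8 ≤ p * |X|) (hx2 : p * |X| ≤ 9.8) (N : ℕ)
    (hN : mu b (X : ℂ) = (N : ℂ) + 1 / 2) {v : ℝ} (hv : |v| ≤ Real.pi / p) :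
    ‖Nk p b (X + v * I) / Dk b (X + v * I)‖ ≤
      2.4 * Vz b * Real.exp (p * (lg b 0).re) * Real.exp (-(27.39 * (Vz b / p)) + 6.54) := by
  have hp : 0 < p := by linarith [h.hp]
  refine side_bd h hx1 hx2 ?_ N hN
  rw [le_div_iff₀ hp] at hv
  linarith

theorem local_big (h : Big p b)
    (h0 : ∑ j ∈ Finset.range (n + 1), (-1) ^ j * uu b j ^ p = 0)
    (h1 : ∑ j ∈ Finset.range (n + 1), (-1) ^ j * ((j : ℝ) * uu b j ^ p) = 0) : False := by
  obtain ⟨N1, N2, X1, X2, w⟩ := exists_window h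
  have hp : 0 < p := by linarith [h.hp]
  have hS := F1_S h
  have hV : 0 < Vz b := by have := h.hV; have := h.hp; linarith
  set S := Vz b / p with hSdef
  set E := Real.exp (p * (lg b 0).re) with hE
  have hE0 : 0 < E := Real.exp_pos _
  have hX1 : p * |X1| = -(p * X1) := by
    have : X1 ≤ 0 := by
      by_contra hcon
      have := w.hi1
      nlinarith [mul_pos hp (not_le.1 hcon)]
    rw [abs_of_nonpos this]; ring
  have hX2 : p * |X2| = p * X2 := by
    have : 0 ≤ X2 := by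
      by_contra hcon
      have := w.lo2
      nlinarith [mul_pos hp (neg_pos.2 (not_le.1 hcon))]
    rw [abs_of_nonneg this]
  have w1 := w.lo1
  have w2 := w.hi1
  have w3 := w.lo2
  have w4 := w.hi2
  have k1 : ∀ v : ℝ, |v| ≤ Real.pi / p → ‖Nk p b ((X1 : ℂ) + v * I) / Dk b ((X1 : ℂ) + v * I)‖ ≤
      2.4 * Vz b * E * Real.exp (-(27.39 * S) + 6.54) := fun v hv =>
    F1_K h (by rw [hX1]; linarith) (by rw [hX1]; linarith) N1 w.h1 hv
  have k2 : ∀ v : ℝ, |v| ≤ Real.pi / p → ‖Nk p b ((X2 : ℂ) + v * I) / Dk b ((X2 : ℂ) + v * I)‖ ≤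
      2.4 * Vz b * E * Real.exp (-(27.39 * S) + 6.54) := fun v hv =>
    F1_K h (by rw [hX2]; linarith) (by rw [hX2]; linarith) N2 w.h2 hv
  have hc := F1_c_ge h
  -- sums of `th`
  have hs0 : ∑ j ∈ Finset.range (n + 1), (-1) ^ j * th p b j = 0 := by
    have : ∑ j ∈ Finset.range (n + 1), (-1) ^ j * th p b j =
        Real.sqrt (2 * Real.pi) ^ p * ∑ j ∈ Finset.range (n + 1), (-1) ^ j * uu b j ^ p := by
      rw [Finset.mul_sum]
      refine Finset.sum_congr rfl fun j _ => ?_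
      rw [F1_th h.ok]; ring
    rw [this, h0, mul_zero]
  have hs1 : ∑ j ∈ Finset.range (n + 1), (-1) ^ j * ((j : ℝ) * th p b j) = 0 := by
    have : ∑ j ∈ Finset.range (n + 1), (-1) ^ j * ((j : ℝ) * th p b j) =
        Real.sqrt (2 * Real.pi) ^ p *
          ∑ j ∈ Finset.range (n + 1), (-1) ^ j * ((j : ℝ) * uu b j ^ p) := by
      rw [Finset.mul_sum]
      refine Finset.sum_congr rfl fun j _ => ?_
      rw [F1_th h.ok]; ring
    rw [this, h1, mul_zero]
  -- unweighted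
  have z0 : |(Ztop p b X1 X2 1 0).re| ≤ 0.01 * ‖cc p b‖ := by
    have t1 := F1_re h w 1 0 (2.4 * Vz b * E * Real.exp (-(27.39 * S) + 6.54))
      (0.02 * (E * Real.exp (-(21.57 * S) + 5.07))) (0.02 * (E * Real.exp (-(21.57 * S) + 5.07)))
      (fun v hv => by simpa [Kw] using k1 v hv) (fun v hv => by simpa [Kw] using k2 v hv)
      (by simpa using hs0) (by simpa using (out_right w).1) (by simpa using (out_left w).1)
    refine t1.trans (le_trans ?_ (num0 S (Vz b) E ‖cc p b‖ hS hV hE0 hc))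
    have e1 : Vz b / S = p := by rw [hSdef]; field_simp
    rw [e1]
    have e2 : p / 4 * (2.4 * Vz b * E * Real.exp (-(27.39 * S) + 6.54) * (4 * Real.pi / p) +
        2 * (0.02 * (E * Real.exp (-(21.57 * S) + 5.07)) +
          0.02 * (E * Real.exp (-(21.57 * S) + 5.07)))) =
        2.4 * Real.pi * (Vz b * E * Real.exp (-(27.39 * S) + 6.54)) +
          0.02 * p * E * Real.exp (-(21.57 * S) + 5.07) := by
      field_simp
      ring
    rw [e2]
    have e3 : 0 < Vz b * E * Real.exp (-(27.39 * S) + 6.54) := by positivity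
    have e4 : 2.4 * Real.pi ≤ 7.6 := by linarith [Real.pi_lt_d2]
    nlinarith
  have z1 : |(Ztop p b X1 X2 (-Mz b) 1).re| ≤ 0.02 * (Real.pi * S) * ‖cc p b‖ := by
    have kk : ∀ X : ℝ, p * |X| ≤ 9.8 → (∀ v : ℝ, |v| ≤ Real.pi / p →
        ‖Nk p b ((X : ℂ) + v * I) / Dk b ((X : ℂ) + v * I)‖ ≤
          2.4 * Vz b * E * Real.exp (-(27.39 * S) + 6.54)) → ∀ v : ℝ, |v| ≤ Real.pi / p →
        ‖Kw p b (-Mz b) 1 ((X : ℂ) + v * I)‖ ≤
          12.1 * S * (2.4 * Vz b * E * Real.exp (-(27.39 * S) + 6.54)) := by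
      intro X hX hk v hv
      have e1 : Kw p b (-Mz b) 1 ((X : ℂ) + v * I) = (mu b ((X : ℂ) + v * I) - Mz b) *
          (Nk p b ((X : ℂ) + v * I) / Dk b ((X : ℂ) + v * I)) := by
        unfold Kw
        push_cast
        ring
      rw [e1, norm_mul]
      refine mul_le_mul (mu_sub_le h hX ?_) (hk v hv) (norm_nonneg _) (by positivity)
      rw [le_div_iff₀ hp] at hv
      linarith
    have hr : ∀ j : ℕ, (-Mz b + 1 * (j : ℝ)) = (j : ℝ) - Mz b := fun j => by ring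
    have t1 := F1_re h w (-Mz b) 1 (12.1 * S * (2.4 * Vz b * E * Real.exp (-(27.39 * S) + 6.54)))
      (0.24 * S * (E * Real.exp (-(21.57 * S) + 5.07)))
      (0.24 * S * (E * Real.exp (-(21.57 * S) + 5.07)))
      (kk X1 (by rw [hX1]; linarith) k1) (kk X2 (by rw [hX2]; linarith) k2)
      (by
        have : ∑ j ∈ Finset.range (n + 1), (-1) ^ j * ((-Mz b + 1 * (j : ℝ)) * th p b j) =
            (∑ j ∈ Finset.range (n + 1), (-1) ^ j * ((j : ℝ) * th p b j)) -
              Mz b * ∑ j ∈ Finset.range (n + 1), (-1) ^ j * th p b j := by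
          rw [Finset.mul_sum, ← Finset.sum_sub_distrib]
          refine Finset.sum_congr rfl fun j _ => ?_
          ring
        rw [this, hs0, hs1]; ring)
      (by simp only [hr]; exact (out_right w).2) (by simp only [hr]; exact (out_left w).2)
    refine t1.trans (le_trans ?_ (num1 S (Vz b) E ‖cc p b‖ hS hV hE0 hc))
    have e0 : p * S = Vz b := by rw [hSdef]; field_simp
    have e2 : p / 4 * (12.1 * S * (2.4 * Vz b * E * Real.exp (-(27.39 * S) + 6.54)) *
        (4 * Real.pi / p) + 2 * (0.24 * S * (E * Real.exp (-(21.57 * S) + 5.07)) +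
          0.24 * S * (E * Real.exp (-(21.57 * S) + 5.07)))) =
        12.1 * S * (2.4 * Real.pi * (Vz b * E * Real.exp (-(27.39 * S) + 6.54))) +
          0.24 * (p * S) * E * Real.exp (-(21.57 * S) + 5.07) := by
      field_simp
      ring
    rw [e2, e0]
    have e3 : 0 < S * (Vz b * E * Real.exp (-(27.39 * S) + 6.54)) := by
      have : 0 < S := by linarith
      positivity
    have e4 : 2.4 * Real.pi ≤ 7.6 := by linarith [Real.pi_lt_d2]
    nlinarith
  exact final_contra S hS (cc p b) (mu b (zz p 0) - Mz b) (lamp p b) (Ztop p b X1 X2 1 0)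
    (Ztop p b X1 X2 (-Mz b) 1) (F1_c_ne h) (m0_bd h) (lamp_bd h).1 (lamp_bd h).2 (F1_Z0 h w)
    (F1_Z1 h w) z0 z1

/-- **The local lemma.** -/
theorem local_all (hb : Ok b) (hp : 64 ≤ p)
    (h0 : ∑ j ∈ Finset.range (n + 1), (-1) ^ j * uu b j ^ p = 0)
    (h1 : ∑ j ∈ Finset.range (n + 1), (-1) ^ j * ((j : ℝ) * uu b j ^ p) = 0) : False :=
  local_big ⟨hb, hp, V_ge_of_zero hb hp h0 h1⟩ h0 h1

end Pool.Agent.LP
end
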