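import Mathlib

section

set_option autoImplicit false

/-! # H2a: sign changes of a polynomial with simple real zeros -/

namespace Pool.Agent.LP

open Polynomial

private theorem H2a_aux (s : Finset ℝ) : ∀ M : ℝ, (∀ r ∈ s, r < M) →
    ∃ x : ℕ → ℝ, (∀ i, i < s.card → x i < x (i + 1)) ∧ (∀ i, i ≤ s.card → x i < M) ∧
      ∀ i, i ≤ s.card → 0 < (-1) ^ (s.card - i) * ∏ r ∈ s, (x i - r) := by
  classical
  induction s using Finset.induction_on_max with
  | empty =>
    intro M _
    refine ⟨fun _ => M - 1, fun i hi => ?_, fun i _ => by linarith, fun i hi => ?_⟩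
    · rw [Finset.card_empty] at hi
      omega
    · rw [Finset.prod_empty, Finset.card_empty, Nat.zero_sub, pow_zero, one_mul]
      exact one_pos
  | insert a s hs ih =>
    intro M hM
    obtain ⟨x, hx1, hx2, hx3⟩ := ih a hs
    have ha : a ∉ s := fun h => lt_irrefl _ (hs a h)
    have hc : (insert a s).card = s.card + 1 := Finset.card_insert_of_notMem ha
    have haM : a < M := hM a (Finset.mem_insert_self a s)
    rw [hc]
    refine ⟨fun i => if i ≤ s.card then x i else (a + M) / 2, ?_, ?_, ?_⟩
    · intro i hi
      by_cases h1 : i + 1 ≤ s.card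
      · have h2 : i ≤ s.card := by omega
        simp only [h1, h2, if_true]
        exact hx1 i (by omega)
      · have h2 : i ≤ s.card := by omega
        simp only [h1, h2, if_true, if_false]
        have := hx2 i h2
        linarith
    · intro i hi
      by_cases h1 : i ≤ s.card
      · simp only [h1, if_true]
        exact (hx2 i h1).trans haM
      · simp only [h1, if_false]
        linarith
    · intro i hi
      rw [Finset.prod_insert ha]
      by_cases h1 : i ≤ s.card
      · simp only [h1, if_true]
        have h2 : s.card + 1 - i = (s.card - i) + 1 := by omega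
        have h3 := hx3 i h1
        have h4 : 0 < a - x i := by
          have := hx2 i h1
          linarith
        rw [h2, pow_succ]
        have h5 := mul_pos h4 h3
        calc 0 < (a - x i) * ((-1) ^ (s.card - i) * ∏ r ∈ s, (x i - r)) := h5
          _ = _ := by ring
      · simp only [h1, if_false]
        have h2 : s.card + 1 - i = 0 := by omega
        rw [h2, pow_zero, one_mul]
        refine mul_pos (by linarith) (Finset.prod_pos fun r hr => ?_)
        have := hs r hr
        linarith

/-- A real polynomial of degree `d` with `d` distinct real zeros and positive leading coefficient alternates in sign.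
PROOF. Let `r_0 < ... < r_{d-1}` be the zeros (`Finset.orderEmbOfFin` of `P.roots.toFinset`, card `d` because `P` splits and is separable/has nodup roots);
`x_0 = r_0 - 1`, `x_i ∈ (r_{i-1}, r_i)` the midpoints, `x_d = r_{d-1} + 1`; `P(x) = lc ∏ (x - r_j)` and exactly `d - i` factors are negative at `x_i`.
(For `d = 0` take `x_0 = 0`.) -/
theorem sign_points {d : ℕ} {P : ℝ[X]} (hd : P.natDegree = d) (hl : 0 < P.leadingCoeff)
    (hs : P.Splits) (hn : P.roots.Nodup) :
    ∃ x : ℕ → ℝ, (∀ i, i < d → x i < x (i + 1)) ∧ ∀ i, i ≤ d → 0 < (-1) ^ (d - i) * P.eval (x i) := by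
  classical
  have hcard : P.roots.toFinset.card = d := by
    rw [Multiset.toFinset_card_of_nodup hn, ← hs.natDegree_eq_card_roots, hd]
  obtain ⟨M, hM⟩ : ∃ M : ℝ, ∀ r ∈ P.roots.toFinset, r < M := by
    obtain ⟨M, hM⟩ := P.roots.toFinset.bddAbove
    exact ⟨M + 1, fun r hr => by
      have := hM hr
      linarith⟩
  obtain ⟨x, hx1, -, hx3⟩ := H2a_aux P.roots.toFinset M hM
  rw [hcard] at hx1 hx3
  refine ⟨x, hx1, fun i hi => ?_⟩
  have h1 : P.eval (x i) = P.leadingCoeff * ∏ r ∈ P.roots.toFinset, (x i - r) := by
    rw [hs.eval_eq_prod_roots (x i), Finset.prod_multiset_map_count]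
    congr 1
    refine Finset.prod_congr rfl fun r hr => ?_
    rw [Multiset.count_eq_one_of_mem hn (Multiset.mem_toFinset.mp hr), pow_one]
  have h2 := mul_pos hl (hx3 i hi)
  rw [h1]
  calc 0 < P.leadingCoeff * ((-1) ^ (d - i) * ∏ r ∈ P.roots.toFinset, (x i - r)) := h2
    _ = _ := by ring

end Pool.Agent.LP
end

section

set_option autoImplicit false

/-! # H2b: sign changes give real zeros -/

namespace Pool.Agent.LP

open Polynomial

/-- PROOF. Intermediate value theorem in each `(x_i, x_{i+1})`, `i < d`: `d` distinct real zeros, so all complex zeros are real (the number of roots is at most the degree;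
`P` splits over `ℝ`: `Polynomial.splits_iff_card_roots`). -/
theorem real_of_signs {d : ℕ} {P : ℝ[X]} (hd : P.natDegree = d) (h0 : P ≠ 0) (x : ℕ → ℝ)
    (hx : ∀ i, i < d → x i < x (i + 1)) (hs : ∀ i, i ≤ d → 0 < (-1) ^ (d - i) * P.eval (x i)) :
    ∀ z : ℂ, aeval z P = 0 → z.im = 0 := by
  intro z hz
  by_contra him
  have hex : ∀ i, i < d → ∃ r, x i < r ∧ r < x (i + 1) ∧ P.eval r = 0 := by
    intro i hi
    have h1 := hs i hi.le
    have h2 := hs (i + 1) hi
    have h3 : d - i = (d - (i + 1)) + 1 := by omega
    obtain ⟨e, he⟩ : ∃ e : ℝ, e = (-1) ^ (d - (i + 1)) := ⟨_, rfl⟩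
    rw [h3, pow_succ, ← he] at h1
    rw [← he] at h2
    have h4 := intermediate_value_Ioo (hx i hi).le
      (f := fun t => e * P.eval t) (continuous_const.mul P.continuous).continuousOn
    have h5 : (0 : ℝ) ∈ Set.Ioo (e * P.eval (x i)) (e * P.eval (x (i + 1))) :=
      ⟨by linarith, h2⟩
    obtain ⟨r, hr, hr0⟩ := h4 h5
    refine ⟨r, hr.1, hr.2, ?_⟩
    have he0 : e ≠ 0 := by
      rw [he]
      exact pow_ne_zero _ (by norm_num)
    exact (mul_eq_zero.1 hr0).resolve_left he0
  choose! r hr1 hr2 hr3 using hex
  have hmono : ∀ i j, i ≤ j → j ≤ d → x i ≤ x j := by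
    intro i j hij
    induction j, hij using Nat.le_induction with
    | base => exact fun _ => le_rfl
    | succ j _ ih => exact fun hj => (ih (by omega)).trans (hx j hj).le
  have hlt : ∀ i j, i < j → j < d → r i < r j := by
    intro i j hij hj
    exact ((hr2 i (hij.trans hj)).trans_le (hmono (i + 1) j hij hj.le)).trans (hr1 j hj)
  have hinj : Set.InjOn (fun i => (r i : ℂ)) (Finset.range d : Set ℕ) := by
    intro i hi j hj hij
    have hi' : i < d := Finset.mem_range.1 hi
    have hj' : j < d := Finset.mem_range.1 hj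
    have hij' : r i = r j := Complex.ofReal_injective hij
    rcases lt_trichotomy i j with h | h | h
    · exact absurd hij' (hlt i j h hj').ne
    · exact h
    · exact absurd hij' (hlt j i h hi').ne'
  have hz' : z ∉ (Finset.range d).image fun i => (r i : ℂ) := by
    intro h
    obtain ⟨i, _, hi⟩ := Finset.mem_image.1 h
    exact him (by rw [← hi]; exact Complex.ofReal_im _)
  have hcard : (insert z ((Finset.range d).image fun i => (r i : ℂ))).card = d + 1 := by
    rw [Finset.card_insert_of_notMem hz', Finset.card_image_of_injOn hinj, Finset.card_range]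
  have hP0 : P.map (algebraMap ℝ ℂ) ≠ 0 := by
    rwa [Ne, Polynomial.map_eq_zero]
  have hsub : (insert z ((Finset.range d).image fun i => (r i : ℂ))).val ⊆
      (P.map (algebraMap ℝ ℂ)).roots := by
    intro w hw
    rw [mem_roots hP0, IsRoot.def]
    have hw' : w ∈ insert z ((Finset.range d).image fun i => (r i : ℂ)) := hw
    rcases Finset.mem_insert.1 hw' with h | h
    · rw [h, eval_map_algebraMap]
      exact hz
    · obtain ⟨i, hi, hi'⟩ := Finset.mem_image.1 h
      have h6 : (algebraMap ℝ ℂ) (r i) = w := hi'
      rw [← h6, eval_map, eval₂_at_apply, hr3 i (Finset.mem_range.1 hi), map_zero]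
  have hle := card_le_degree_of_subset_roots hsub
  rw [hcard, natDegree_map, hd] at hle
  omega

end Pool.Agent.LP
end
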