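import Pool.Agent.Lib.MP_f91407_an.Bin.Final
import Pool.Agent.Lib.MP_f91407_an.Mg.G024
import Pool.Agent.Lib.MP_f91407_an.Mg.G001
import Pool.Agent.Lib.MP_f91407_an.Mg.G016

section

set_option autoImplicit false

/-! # H1: real-rootedness is a closed condition in the exponent -/

namespace Pool.Agent.LP

open Pool.Agent.Lib.MP_f91407_an Polynomial

/-- PROOF. `poly d a` splits over `ℝ` (`splits_of_RRn`), has degree `d` and leading coefficient `a d`:
`|P(z)| = a_d ∏ |z - x_i| ≥ a_d |Im z|^d` for the real roots `x_i`. -/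
theorem rr_lower {d : ℕ} {a : ℕ → ℝ} (ha : 0 < a d) (h : RRn d a) (z : ℂ) :
    a d * |z.im| ^ d ≤ ‖∑ j ∈ Finset.range (d + 1), ((a j : ℝ) : ℂ) * z ^ j‖ := by
  have hs := splits_of_RRn h
  have hd := natDegree_poly (n := d) (a := a) ha.ne'
  have hl := leadingCoeff_poly (n := d) (a := a) ha.ne'
  have hc : Multiset.card (poly d a).roots = d := by
    rw [← hs.natDegree_eq_card_roots, hd]
  have hP := hs.eq_prod_roots
  rw [hl] at hP
  rw [← aeval_poly]
  have key : ∀ s : Multiset ℝ, |z.im| ^ Multiset.card s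
      ≤ ‖aeval z (Multiset.map (fun r => X - C r) s).prod‖ := by
    intro s
    induction s using Multiset.induction_on with
    | empty => simp
    | cons r s ih =>
      rw [Multiset.card_cons, Multiset.map_cons, Multiset.prod_cons, map_mul, norm_mul, pow_succ,
        mul_comm]
      refine mul_le_mul ?_ ih (by positivity) (norm_nonneg _)
      have h1 : aeval z (X - C r : ℝ[X]) = z - (r : ℂ) := by simp
      rw [h1]
      have h2 := Complex.abs_im_le_norm (z - (r : ℂ))
      simpa using h2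
  have h1 := key (poly d a).roots
  rw [hc] at h1
  conv_rhs => rw [hP]
  rw [map_mul, norm_mul]
  have h2 : ‖aeval z (C (a d) : ℝ[X])‖ = a d := by
    rw [aeval_C]
    simp [abs_of_pos ha]
  rw [h2]
  exact mul_le_mul_of_nonneg_left h1 ha.le

/-- PROOF. If `∑ c_j^q z^j = 0` with `Im z ≠ 0`: by `rr_lower` `c_d^{q'} |Im z|^d ≤ |∑ c_j^{q'} z^j|` for `q'` arbitrarily close to `q`; both sides are continuous in
`q'` and the right side tends to `0`, the left one to `c_d^q |Im z|^d > 0`. -/
theorem rr_closed {d : ℕ} {c : ℕ → ℝ} (hc : ∀ j, j ≤ d → 0 < c j) (q : ℝ)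
    (h : ∀ ε : ℝ, 0 < ε → ∃ q' : ℝ, |q' - q| < ε ∧ RRn d fun j => c j ^ q') :
    RRn d fun j => c j ^ q := by
  intro z hz
  by_contra him
  have hL : Continuous fun q' : ℝ => c d ^ q' * |z.im| ^ d :=
    (Real.continuous_const_rpow (hc d le_rfl).ne').mul continuous_const
  have hR : Continuous fun q' : ℝ =>
      ‖∑ j ∈ Finset.range (d + 1), ((c j ^ q' : ℝ) : ℂ) * z ^ j‖ := by
    refine Continuous.norm (continuous_finsetSum _ fun j hj => ?_)
    have hj' : j ≤ d := by
      have := Finset.mem_range.1 hj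
      omega
    exact (Complex.continuous_ofReal.comp
      (Real.continuous_const_rpow (hc j hj').ne')).mul continuous_const
  have hcl : IsClosed {q' : ℝ | c d ^ q' * |z.im| ^ d
      ≤ ‖∑ j ∈ Finset.range (d + 1), ((c j ^ q' : ℝ) : ℂ) * z ^ j‖} := isClosed_le hL hR
  have hmem : q ∈ closure {q' : ℝ | c d ^ q' * |z.im| ^ d
      ≤ ‖∑ j ∈ Finset.range (d + 1), ((c j ^ q' : ℝ) : ℂ) * z ^ j‖} := by
    rw [Metric.mem_closure_iff]
    intro ε hε
    obtain ⟨q', h1, h2⟩ := h ε hε
    refine ⟨q', ?_, ?_⟩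
    · exact rr_lower (a := fun j => c j ^ q') (Real.rpow_pos_of_pos (hc d le_rfl) _) h2 z
    · rw [dist_comm, Real.dist_eq]
      exact h1
  have h3 : c d ^ q * |z.im| ^ d
      ≤ ‖∑ j ∈ Finset.range (d + 1), ((c j ^ q : ℝ) : ℂ) * z ^ j‖ := hcl.closure_subset hmem
  rw [hz, norm_zero] at h3
  have h4 : 0 < c d ^ q * |z.im| ^ d :=
    mul_pos (Real.rpow_pos_of_pos (hc d le_rfl) _) (pow_pos (abs_pos.2 him) _)
  linarith

end Pool.Agent.LP
end

section

set_option autoImplicit false

/-! # H2c: real-rootedness with simple zeros is an open condition in the exponent -/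

namespace Pool.Agent.LP

open Pool.Agent.Lib.MP_f91407_an Polynomial

/-- PROOF. `P_q = poly d (c^q)`: degree `d`, positive leading coefficient, splits (`splits_of_RRn`); its roots are negative (all coefficients positive), and a multiple root
`-y` would give `P(-y) = 0 = P'(-y)`, i.e. both sums of `hs` vanish (`y P'(-y) = -∑ j c_j^q (-y)^j`): so the roots are simple (`Polynomial.nodup_roots`/
`one_lt_rootMultiplicity_iff_isRoot`). Take `x` from `sign_points`; `q' ↦ P_{q'}(x_i)` is continuous, so the signs persist for `q'` near `q` (finitely many `i`); `real_of_signs`. -/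
theorem rr_open {d : ℕ} {c : ℕ → ℝ} (hc : ∀ j, j ≤ d → 0 < c j) (q : ℝ)
    (h : RRn d fun j => c j ^ q)
    (hs : ∀ y : ℝ, 0 < y → ¬ (∑ j ∈ Finset.range (d + 1), c j ^ q * (-y) ^ j = 0 ∧
      ∑ j ∈ Finset.range (d + 1), (j : ℝ) * (c j ^ q * (-y) ^ j) = 0)) :
    ∃ ε : ℝ, 0 < ε ∧ ∀ q' : ℝ, |q' - q| < ε → RRn d fun j => c j ^ q' := by
  have hcd : ∀ q' : ℝ, 0 < c d ^ q' := fun q' => Real.rpow_pos_of_pos (hc d le_rfl) _
  have hsp := splits_of_RRn h
  have hd := natDegree_poly (n := d) (a := fun j => c j ^ q) (hcd q).ne'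
  have hl := leadingCoeff_poly (n := d) (a := fun j => c j ^ q) (hcd q).ne'
  have hne : ∀ q' : ℝ, poly d (fun j => c j ^ q') ≠ 0 := by
    intro q' h0
    have h1 := leadingCoeff_poly (n := d) (a := fun j => c j ^ q') (hcd q').ne'
    rw [h0, leadingCoeff_zero] at h1
    exact (hcd q').ne h1
  have hnd : (poly d fun j => c j ^ q).roots.Nodup := by
    rw [Multiset.nodup_iff_count_le_one]
    intro t
    by_contra hcon
    rw [count_roots, not_le, one_lt_rootMultiplicity_iff_isRoot (hne q)] at hcon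
    obtain ⟨h1, h2⟩ := hcon
    rw [IsRoot.def] at h1 h2
    rw [eval_poly] at h1
    have ht : t < 0 := by
      by_contra hge
      push Not at hge
      have h3 : 0 < ∑ j ∈ Finset.range (d + 1), c j ^ q * t ^ j := by
        rw [Finset.sum_range_succ']
        have h4 : 0 ≤ ∑ j ∈ Finset.range d, c (j + 1) ^ q * t ^ (j + 1) := by
          refine Finset.sum_nonneg fun j hj => ?_
          have : 0 < c (j + 1) ^ q := Real.rpow_pos_of_pos (hc _ (by
            have := Finset.mem_range.1 hj
            omega)) _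
          positivity
        have h5 : 0 < c 0 ^ q * t ^ 0 := by
          rw [pow_zero, mul_one]
          exact Real.rpow_pos_of_pos (hc 0 (Nat.zero_le _)) _
        linarith
      linarith
    refine hs (-t) (by linarith) ⟨?_, ?_⟩
    · rw [neg_neg]
      exact h1
    · rw [neg_neg]
      have h3 : (derivative (poly d fun j => c j ^ q)).eval t
          = ∑ j ∈ Finset.range (d + 1), (c j ^ q * ((j : ℝ) * t ^ (j - 1))) := by
        unfold poly
        rw [derivative_sum, eval_finsetSum]
        refine Finset.sum_congr rfl fun j _ => ?_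
        rw [derivative_C_mul_X_pow]
        simp [mul_assoc]
      rw [h3] at h2
      have h4 : ∑ j ∈ Finset.range (d + 1), (j : ℝ) * (c j ^ q * t ^ j)
          = t * ∑ j ∈ Finset.range (d + 1), (c j ^ q * ((j : ℝ) * t ^ (j - 1))) := by
        rw [Finset.mul_sum]
        refine Finset.sum_congr rfl fun j _ => ?_
        rcases Nat.eq_zero_or_pos j with rfl | hj
        · simp
        · have : t ^ j = t * t ^ (j - 1) := by
            rw [← pow_succ']
            congr 1
            omega
          rw [this]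
          ring
      rw [h4, h2, mul_zero]
  obtain ⟨x, hx, hx2⟩ := sign_points hd (by rw [hl]; exact hcd q) hsp hnd
  have hev : ∀ᶠ q' in nhds q, ∀ i ∈ Finset.range (d + 1),
      0 < (-1) ^ (d - i) * (poly d fun j => c j ^ q').eval (x i) := by
    rw [Finset.eventually_all]
    intro i hi
    have hcont : Continuous fun q' : ℝ => (-1) ^ (d - i) * (poly d fun j => c j ^ q').eval (x i) := by
      simp_rw [eval_poly]
      refine continuous_const.mul (continuous_finsetSum _ fun j hj => ?_)
      have hj' : j ≤ d := by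
        have := Finset.mem_range.1 hj
        omega
      exact (Real.continuous_const_rpow (hc j hj').ne').mul continuous_const
    refine hcont.continuousAt.eventually (lt_mem_nhds (hx2 i ?_))
    have := Finset.mem_range.1 hi
    omega
  obtain ⟨ε, hε, h1⟩ := Metric.eventually_nhds_iff.1 hev
  refine ⟨ε, hε, fun q' hq' z hz => ?_⟩
  rw [← aeval_poly] at hz
  refine real_of_signs (natDegree_poly (hcd q').ne') (hne q') x hx (fun i hi => ?_) z hz
  exact h1 (by rw [Real.dist_eq]; exact hq') i (Finset.mem_range.2 (by omega))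

end Pool.Agent.LP
end

section

set_option autoImplicit false

/-! collects the parts -/
end

section

set_option autoImplicit false

/-! # H3: the homotopy in the exponent -/

namespace Pool.Agent.LP

open Pool.Agent.Lib.MP_f91407_an Polynomial

/-- PROOF. The set of `q ∈ [q₀, p]` with `RRn d (c^q)` is closed (`rr_closed`) and open in `[q₀, p]` (`rr_open`) and contains `q₀`;
`[q₀, p]` is connected (`isPreconnected_Icc`, or `IsClosed.Icc_subset_of_forall_exists_gt`). -/
theorem homotopy {d : ℕ} {c : ℕ → ℝ} (hc : ∀ j, j ≤ d → 0 < c j) {q₀ p : ℝ} (hq : q₀ ≤ p)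
    (h0 : RRn d fun j => c j ^ q₀)
    (hs : ∀ q : ℝ, q₀ ≤ q → q ≤ p → ∀ y : ℝ, 0 < y →
      ¬ (∑ j ∈ Finset.range (d + 1), c j ^ q * (-y) ^ j = 0 ∧
        ∑ j ∈ Finset.range (d + 1), (j : ℝ) * (c j ^ q * (-y) ^ j) = 0)) :
    RRn d fun j => c j ^ p := by
  set s : Set ℝ := {q | RRn d fun j => c j ^ q} with hsdef
  have hcl : IsClosed s := by
    refine isClosed_of_closure_subset fun q hqc => ?_
    refine rr_closed hc q fun ε hε => ?_
    obtain ⟨q', h1, h2⟩ := Metric.mem_closure_iff.1 hqc ε hε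
    refine ⟨q', ?_, h1⟩
    rw [dist_comm, Real.dist_eq] at h2
    exact h2
  have hsub : Set.Icc q₀ p ⊆ s := by
    refine IsClosed.Icc_subset_of_forall_exists_gt (hcl.inter isClosed_Icc) h0 ?_
    rintro x ⟨hx, hx1⟩ y hy
    obtain ⟨ε, hε, h1⟩ := rr_open hc x hx (hs x hx1.1 hx1.2.le)
    have hxy : x < y := hy
    refine ⟨min y (x + ε / 2), ?_, ?_, min_le_left _ _⟩
    · refine h1 _ ?_
      have h2 : x < min y (x + ε / 2) := lt_min hxy (by linarith)
      rw [abs_of_pos (by linarith)]
      have h3 := min_le_right y (x + ε / 2)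
      linarith
    · exact lt_min hxy (by linarith)
  exact hsub ⟨hq, le_rfl⟩

end Pool.Agent.LP
end

section

set_option autoImplicit false

/-! # H4a: the product polynomial and integer powers -/

namespace Pool.Agent.LP

open Pool.Agent.Lib.MP_f91407_an Polynomial

theorem H4a_deg {n : ℕ} (w : Fin n → ℝ) :
    (∏ c : Fin n, (1 + Polynomial.C (w c) * Polynomial.X)).natDegree < n + 1 := by
  have h1 : (∏ c : Fin n, (1 + Polynomial.C (w c) * Polynomial.X)).natDegree ≤
      ∑ c : Fin n, (1 + Polynomial.C (w c) * Polynomial.X).natDegree :=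
    Polynomial.natDegree_prod_le _ _
  have h2 : ∑ c : Fin n, (1 + Polynomial.C (w c) * Polynomial.X).natDegree ≤
      ∑ _c : Fin n, 1 := by
    refine Finset.sum_le_sum fun c _ => ?_
    have h3 : (1 + Polynomial.C (w c) * Polynomial.X) =
        Polynomial.C (w c) * Polynomial.X + Polynomial.C 1 := by
      rw [Polynomial.C_1, add_comm]
    rw [h3]
    exact Polynomial.natDegree_linear_le
  have h3 : (∑ _c : Fin n, 1) = n := by simp
  omega

/-- PROOF. `∏ (1 + w_c X)` has only the real zeros `-1/w_c` (`coeff_prod`). -/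
theorem rrn_es {n : ℕ} (w : Fin n → ℝ) (hw : ∀ c, 0 < w c) : RRn n fun j => es w Finset.univ j := by
  intro z hz
  have h1 := Polynomial.eval₂_eq_sum_range' (Complex.ofRealHom) (H4a_deg w) z
  rw [Polynomial.eval₂_finsetProd] at h1
  have h2 : ∀ j, (∏ c : Fin n, (1 + Polynomial.C (w c) * Polynomial.X)).coeff j =
      es w Finset.univ j := fun j => coeff_prod w Finset.univ j
  have h3 : ∑ i ∈ Finset.range (n + 1), Complex.ofRealHom
      ((∏ c : Fin n, (1 + Polynomial.C (w c) * Polynomial.X)).coeff i) * z ^ i = 0 := by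
    rw [← hz]
    refine Finset.sum_congr rfl fun j _ => ?_
    rw [h2 j]
    rfl
  rw [h3, Finset.prod_eq_zero_iff] at h1
  obtain ⟨c, _, hc⟩ := h1
  have h4 : (1 : ℂ) + (w c : ℂ) * z = 0 := by
    rw [← hc]
    simp
  have h5 := congrArg Complex.im h4
  rw [Complex.add_im, Complex.one_im, zero_add, Complex.im_ofReal_mul, Complex.zero_im] at h5
  exact (mul_eq_zero.1 h5).resolve_left (hw c).ne'

theorem pfs_es {n : ℕ} (w : Fin n → ℝ) (hw : ∀ c, 0 < w c) :
    PFs fun j => es w Finset.univ j := by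
  refine ⟨fun j => es_nonneg (fun c => (hw c).le) _ _, ?_, n, ?_, rrn_es w hw⟩
  · show 0 < es w Finset.univ 0
    rw [es_zero]
    exact one_pos
  · intro j hj
    exact es_eq_zero w (by rwa [Finset.card_univ, Fintype.card_fin])

/-- Malo's theorem, iterated. PROOF. `PFs.mul`, induction on `k`. -/
theorem pfs_pow {a : ℕ → ℝ} (ha : PFs a) (k : ℕ) (hk : 1 ≤ k) : PFs fun j => a j ^ k := by
  induction k, hk using Nat.le_induction with
  | base => simpa using ha
  | succ k _ ih =>
    have h := ih.mul ha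
    have e : (fun j => a j ^ (k + 1)) = fun j => a j ^ k * a j := by
      funext j
      exact pow_succ _ _
    rw [e]
    exact h

end Pool.Agent.LP
end

section

set_option autoImplicit false

/-! # H4b: factorisation -/

namespace Pool.Agent.LP

open Pool.Agent.Lib.MP_f91407_an Polynomial

private theorem H4b_aux (s : Multiset ℝ) (hs : ∀ r ∈ s, r < 0) :
    ∃ (n : ℕ) (w : Fin n → ℝ), n = s.card ∧ (∀ c, 0 < w c) ∧
      (s.map (fun r => X - C r)).prod = C ((s.map (fun r => -r)).prod) *
        ∏ c, (1 + C (w c) * X) := by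
  induction s using Multiset.induction_on with
  | empty => exact ⟨0, fun c => c.elim0, rfl, fun c => c.elim0, by simp⟩
  | cons r s ih =>
    obtain ⟨n, w, hn, hw, hp⟩ := ih fun t ht => hs t (Multiset.mem_cons_of_mem ht)
    have hr : r < 0 := hs r (Multiset.mem_cons_self r s)
    refine ⟨n + 1, Fin.cons (-r⁻¹) w, by rw [Multiset.card_cons, hn], fun c => ?_, ?_⟩
    · refine Fin.cases ?_ (fun i => ?_) c
      · rw [Fin.cons_zero]
        exact neg_pos.mpr (inv_lt_zero.mpr hr)
      · rw [Fin.cons_succ]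
        exact hw i
    · rw [Multiset.map_cons, Multiset.prod_cons, Multiset.map_cons, Multiset.prod_cons, hp,
        Fin.prod_univ_succ]
      simp only [Fin.cons_zero, Fin.cons_succ]
      have h1 : (X - C r : ℝ[X]) = C (-r) * (1 + C (-r⁻¹) * X) := by
        rw [mul_add, mul_one, ← mul_assoc, ← C_mul, neg_mul_neg, mul_inv_cancel₀ hr.ne, C_1,
          one_mul, C_neg]
        ring
      rw [h1, C_mul]
      ring

/-- PROOF. `poly d a` splits over `ℝ` (`splits_of_RRn`); its roots are negative because `a_0 > 0`, `a_j ≥ 0` (`P(x) > 0` for `x ≥ 0`). With `r_1, ..., r_n` the roots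
with multiplicity, `n = natDegree ≤ d`: `P = a_0 ∏ (1 - X/r_i)`; `w_i = -1/r_i`; `coeff_prod`. -/
theorem factor_rrn {d : ℕ} {a : ℕ → ℝ} (ha : ∀ j, 0 ≤ a j) (ha0 : 0 < a 0) (h : RRn d a) :
    ∃ (n : ℕ) (w : Fin n → ℝ), n ≤ d ∧ (∀ c, 0 < w c) ∧
      ∀ j, j ≤ d → a j = a 0 * es w Finset.univ j := by
  have h0 : (poly d a).coeff 0 = a 0 := by rw [coeff_poly, if_pos (Nat.zero_le d)]
  have hne : poly d a ≠ 0 := fun h1 => by
    rw [h1, coeff_zero] at h0
    exact ha0.ne h0
  have hneg : ∀ r ∈ (poly d a).roots, r < 0 := by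
    intro r hr
    by_contra h1
    push Not at h1
    have h2 : (poly d a).eval r = 0 := (mem_roots'.mp hr).2
    have h3 : (poly d a).eval r = ∑ j ∈ Finset.range (d + 1), a j * r ^ j := by
      unfold poly
      simp [eval_finsetSum]
    rw [h3] at h2
    have h4 : a 0 * r ^ 0 ≤ ∑ j ∈ Finset.range (d + 1), a j * r ^ j :=
      Finset.single_le_sum (f := fun j => a j * r ^ j)
        (fun j _ => mul_nonneg (ha j) (pow_nonneg h1 j)) (Finset.mem_range.mpr d.succ_pos)
    rw [h2, pow_zero, mul_one] at h4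
    exact absurd ha0 (not_lt.mpr h4)
  obtain ⟨n, w, hn, hw, hp⟩ := H4b_aux _ hneg
  have hfac : poly d a = C (poly d a).leadingCoeff *
      ((poly d a).roots.map (fun r => X - C r)).prod := (splits_of_RRn h).eq_prod_roots
  rw [hp, ← mul_assoc, ← C_mul] at hfac
  set k := (poly d a).leadingCoeff * ((poly d a).roots.map (fun r => -r)).prod
  have hco : ∀ j, (poly d a).coeff j = k * es w Finset.univ j := fun j => by
    rw [hfac, coeff_C_mul, coeff_prod]
  have hk : k = a 0 := by
    have h1 := hco 0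
    rw [es_zero, mul_one, h0] at h1
    exact h1.symm
  have hdeg : (poly d a).natDegree ≤ d := by
    rw [natDegree_le_iff_coeff_eq_zero]
    intro i hi
    rw [coeff_poly, if_neg (not_le.mpr hi)]
  refine ⟨n, w, ?_, hw, fun j hj => ?_⟩
  · rw [hn]
    exact (card_roots' _).trans hdeg
  · have h1 := hco j
    rw [coeff_poly, if_pos hj, hk] at h1
    exact h1

end Pool.Agent.LP
end

section

set_option autoImplicit false

/-! collects the parts -/
end

section

set_option autoImplicit false

/-! # H5a: the local lemma, scaled -/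

namespace Pool.Agent.LP

open Pool.Agent.Lib.MP_f91407_an Polynomial

private theorem H5a_es {ι : Type} [DecidableEq ι] (w : ι → ℝ) (k : ℝ) (S : Finset ι) (j : ℕ) :
    es (fun c => w c * k) S j = k ^ j * es w S j := by
  unfold es
  rw [Finset.mul_sum]
  refine Finset.sum_congr rfl fun A hA => ?_
  rw [Finset.prod_mul_distrib, Finset.prod_const, (Finset.mem_powersetCard.1 hA).2, mul_comm]

/-- PROOF. Put `κ = y^{1/q}`, `b_c = w_c κ/(1 + w_c κ) ∈ (0,1)`, so `b_c/(1 - b_c) = w_c κ` and by `uu_eq_es` `u_j(b) = (∏ (1 - b_c)) κ^j es w univ j`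
(`es (κ w) S j = κ^j es w S j`). Hence `u_j^q = C (es w univ j)^q y^j` with `C = (∏ (1-b_c))^q > 0` and both sums of `local_all` vanish. -/
theorem local_scaled {n : ℕ} (w : Fin n → ℝ) (hw : ∀ c, 0 < w c) {q : ℝ} (hq : 64 ≤ q) {y : ℝ}
    (hy : 0 < y) :
    ¬ (∑ j ∈ Finset.range (n + 1), es w Finset.univ j ^ q * (-y) ^ j = 0 ∧
      ∑ j ∈ Finset.range (n + 1), (j : ℝ) * (es w Finset.univ j ^ q * (-y) ^ j) = 0) := by
  rintro ⟨h0, h1⟩
  have hq0 : q ≠ 0 := by
    intro h
    rw [h] at hq
    norm_num at hq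
  obtain ⟨k, hk⟩ : ∃ k, k = y ^ q⁻¹ := ⟨_, rfl⟩
  have hk0 : 0 < k := by rw [hk]; exact Real.rpow_pos_of_pos hy _
  have hkq : k ^ q = y := by rw [hk]; exact Real.rpow_inv_rpow hy.le hq0
  have hden : ∀ c, 0 < 1 + w c * k := fun c => by
    have := mul_pos (hw c) hk0
    linarith
  obtain ⟨b, hbdef⟩ : ∃ b : Fin n → ℝ, b = fun c => w c * k / (1 + w c * k) := ⟨_, rfl⟩
  have h1b : ∀ c, 1 - b c = 1 / (1 + w c * k) := by
    intro c
    have := (hden c).ne'
    rw [hbdef]
    field_simp
    ring
  have hok : Ok b := by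
    intro c
    have h2 : 0 < 1 - b c := by
      rw [h1b]
      exact one_div_pos.2 (hden c)
    refine ⟨?_, by linarith⟩
    rw [hbdef]
    exact div_pos (mul_pos (hw c) hk0) (hden c)
  have hratio : (fun c => b c / (1 - b c)) = fun c => w c * k := by
    funext c
    have := (hden c).ne'
    rw [h1b, hbdef]
    field_simp
  obtain ⟨K, hK⟩ : ∃ K, K = ∏ c, (1 - b c) := ⟨_, rfl⟩
  have hK0 : 0 < K := by
    rw [hK]
    exact Finset.prod_pos fun c _ => by linarith [(hok c).2]
  have hes0 : ∀ j, 0 ≤ es w Finset.univ j := fun j =>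
    Finset.sum_nonneg fun A _ => Finset.prod_nonneg fun c _ => (hw c).le
  have hu : ∀ j, uu b j ^ q = K ^ q * (es w Finset.univ j ^ q * y ^ j) := by
    intro j
    rw [uu_eq_es hok, hratio, H5a_es, ← hK, Real.mul_rpow hK0.le
      (mul_nonneg (pow_pos hk0 j).le (hes0 j)), Real.mul_rpow (pow_pos hk0 j).le (hes0 j)]
    have h2 : (k ^ j) ^ q = y ^ j := by
      rw [← Real.rpow_natCast k j, ← Real.rpow_mul hk0.le, mul_comm, Real.rpow_mul hk0.le, hkq,
        Real.rpow_natCast]
    rw [h2]
    ring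
  refine local_all hok hq ?_ ?_
  · rw [← mul_zero (K ^ q), ← h0, Finset.mul_sum]
    refine Finset.sum_congr rfl fun j _ => ?_
    rw [hu, neg_pow y j]
    ring
  · rw [← mul_zero (K ^ q), ← h1, Finset.mul_sum]
    refine Finset.sum_congr rfl fun j _ => ?_
    rw [hu, neg_pow y j]
    ring

end Pool.Agent.LP
end
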