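import Pool.Agent.Lib.MP_f91407_an.Mg.G023

section

set_option autoImplicit false

/-! # H5b: all real `p ≥ 64` for products `∏ (1 + w_c X)` -/

namespace Pool.Agent.LP

open Pool.Agent.Lib.MP_f91407_an Polynomial

/-- PROOF. `homotopy` from `q₀ = ⌊p⌋ ≥ 64` (`pfs_pow`, `pfs_es`, `PFs.rrn`, `Real.rpow_natCast`), `local_scaled`. -/
theorem rrn_es_rpow {n : ℕ} (w : Fin n → ℝ) (hw : ∀ c, 0 < w c) {p : ℝ} (hp : 64 ≤ p) :
    RRn n fun j => es w Finset.univ j ^ p := by
  have hk : 64 ≤ ⌊p⌋₊ := Nat.le_floor (by exact_mod_cast hp)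
  have hk' : (64 : ℝ) ≤ (⌊p⌋₊ : ℝ) := by exact_mod_cast hk
  refine homotopy (q₀ := (⌊p⌋₊ : ℝ)) (fun j hj => es_pos hw (by simpa using hj))
    (Nat.floor_le (by linarith)) ?_ fun q hq _ y hy => local_scaled w hw (hk'.trans hq) hy
  have h := (pfs_pow (pfs_es w hw) ⌊p⌋₊ (by omega)).rrn (d := n) fun j hj => by
    rw [es_eq_zero w (by simpa using hj), zero_pow (by omega)]
  simpa only [Real.rpow_natCast] using h

end Pool.Agent.LP
end

section

set_option autoImplicit false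

/-! collects the parts -/
end

section

set_option autoImplicit false

/-! # H6a: good exponents, `a 0 > 0` -/

namespace Pool.Agent.LP

open Pool.Agent.Lib.MP_f91407_an Polynomial

/-- a real exponent which is a positive integer or at least `64` -/
def Good (p : ℝ) : Prop := (∃ k : ℕ, 1 ≤ k ∧ p = k) ∨ 64 ≤ p

/-- PROOF. `factor_rrn`: `a_j = a_0 e_j(w)` for `j ≤ d`. If `p ≥ 64`: `rrn_es_rpow`, `RRn_iff_of_le`, `RRn.smul`, `RRn.of_eqOn`
(`(a_0 e_j)^p = a_0^p e_j^p`; `e_j = 0` for `j > n`, `0^p = 0`). If `p = k`: `pfs_pow`. -/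
theorem rrn_good {d : ℕ} {a : ℕ → ℝ} (ha : ∀ j, 0 ≤ a j) (ha0 : 0 < a 0) (h : RRn d a) {p : ℝ}
    (hp : Good p) : RRn d fun j => a j ^ p := by
  obtain ⟨n, w, hn, hw, he⟩ := factor_rrn ha ha0 h
  have h0 : ∀ j, n < j → es w Finset.univ j = 0 := fun j hj => es_eq_zero w (by simpa using hj)
  rcases hp with ⟨k, hk, rfl⟩ | hp
  · have h1 := (pfs_pow ((pfs_es w hw).scale ha0 one_pos) k hk).rrn (d := d) fun j hj => by
      rw [h0 j (by omega), mul_zero, mul_zero, zero_pow (by omega)]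
    refine h1.of_eqOn fun j hj => ?_
    rw [Real.rpow_natCast, he j hj, one_pow, one_mul]
  · have h1 : RRn d fun j => es w Finset.univ j ^ p :=
      (RRn_iff_of_le hn fun j hj => by
        rw [h0 j hj, Real.zero_rpow (by linarith)]).mpr (rrn_es_rpow w hw hp)
    refine (h1.smul (Real.rpow_pos_of_pos ha0 p).ne').of_eqOn fun j hj => ?_
    rw [he j hj, Real.mul_rpow ha0.le (es_nonneg (fun c => (hw c).le) _ _)]

end Pool.Agent.LP
end

section

set_option autoImplicit false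

/-! # H6b: the case `a 0 = 0` -/

namespace Pool.Agent.LP

open Pool.Agent.Lib.MP_f91407_an Polynomial

/-- the same without the assumption `a 0 > 0`. PROOF. `RRn d a` implies that some `a_j ≠ 0`, `j ≤ d` (otherwise `z = i` is a zero). Let `k` be the first index with
`a_k > 0`, `k ≤ d`; `∑_{j ≤ d} a_j z^j = z^k ∑_{j ≤ d-k} a_{j+k} z^j`, so `RRn (d - k) (a_{·+k})`; apply `rrn_good` and multiply by `z^k` again (`0^p = 0`). -/
theorem rrn_good' {d : ℕ} {a : ℕ → ℝ} (ha : ∀ j, 0 ≤ a j) (h : RRn d a) {p : ℝ}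
    (hp : Good p) : RRn d fun j => a j ^ p := by
  have hp0 : p ≠ 0 := by
    rcases hp with ⟨k, hk, rfl⟩ | h64
    · have : (1 : ℝ) ≤ k := by exact_mod_cast hk
      linarith
    · linarith
  have hex : ∃ j, j ≤ d ∧ a j ≠ 0 := by
    by_contra hne
    push Not at hne
    have h1 := h Complex.I (Finset.sum_eq_zero fun j hj => by
      rw [hne j (by rw [Finset.mem_range] at hj; omega)]; simp)
    simp at h1
  classical
  obtain ⟨hkd, hk0⟩ := Nat.find_spec hex
  have hmin : ∀ j, j < Nat.find hex → a j = 0 := by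
    intro j hj
    have h2 := Nat.find_min hex hj
    by_contra h3
    exact h2 ⟨by omega, h3⟩
  generalize Nat.find hex = k at hkd hk0 hmin
  have key : ∀ (b : ℕ → ℝ) (z : ℂ), (∀ j, j < k → b j = 0) →
      ∑ j ∈ Finset.range (d + 1), ((b j : ℝ) : ℂ) * z ^ j =
        z ^ k * ∑ j ∈ Finset.range (d - k + 1), ((b (j + k) : ℝ) : ℂ) * z ^ j := by
    intro b z hb
    have h4 : d + 1 = k + (d - k + 1) := by omega
    rw [h4, Finset.sum_range_add, Finset.sum_eq_zero (fun j hj => by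
      rw [hb j (Finset.mem_range.1 hj)]; simp), zero_add, Finset.mul_sum]
    refine Finset.sum_congr rfl fun j _ => ?_
    rw [add_comm k j, pow_add]
    ring
  have hsh : RRn (d - k) fun j => a (j + k) := by
    intro z hz
    apply h z
    rw [key a z hmin]
    show z ^ k * ∑ j ∈ Finset.range (d - k + 1), ((a (j + k) : ℝ) : ℂ) * z ^ j = 0
    have hz' : ∑ j ∈ Finset.range (d - k + 1), ((a (j + k) : ℝ) : ℂ) * z ^ j = 0 := hz
    rw [hz', mul_zero]
  have hgood := rrn_good (fun j => ha (j + k))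
    (by rw [zero_add]; exact lt_of_le_of_ne (ha k) (Ne.symm hk0)) hsh hp
  intro z hz
  have h5 := key (fun j => a j ^ p) z (fun j hj => by
    show a j ^ p = 0
    rw [hmin j hj, Real.zero_rpow hp0])
  have h6 : ∑ j ∈ Finset.range (d + 1), (((fun j => a j ^ p) j : ℝ) : ℂ) * z ^ j = 0 := hz
  rw [h6] at h5
  by_contra hne
  have hz0 : z ≠ 0 := by
    rintro rfl
    exact hne rfl
  rcases mul_eq_zero.1 h5.symm with h7 | h7
  · exact pow_ne_zero k hz0 h7
  · exact hne (hgood z h7)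

end Pool.Agent.LP
end

section

set_option autoImplicit false

/-! # H6c: `Preserves` -/

namespace Pool.Agent.LP

open Pool.Agent.Lib.MP_f91407_an Polynomial NNReal

/-- PROOF. Extend `a : Fin (d+1) → ℝ≥0` by `0` to `ℕ`; `RRn` and `InP` are the same statement (`Finset.sum_range`, cf. `inP_of_RRn`, `RRn_of_inP`); `RRn.smul`. -/
theorem preserves_good {F : ℝ≥0 → ℝ≥0} {c p : ℝ} (hc : 0 < c) (hp : Good p)
    (hF : ∀ x : ℝ≥0, ((F x : ℝ≥0) : ℝ) = c * (x : ℝ) ^ p) : Preserves F := by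
  have hp0 : 0 < p := by
    rcases hp with ⟨k, hk, rfl⟩ | h
    · exact_mod_cast hk
    · linarith
  refine ⟨?_, fun d a ha => ?_⟩
  · apply NNReal.coe_injective
    rw [hF, NNReal.coe_zero, Real.zero_rpow hp0.ne', mul_zero]
  · obtain ⟨b, hb⟩ : ∃ b : ℕ → ℝ≥0, ∀ j : Fin (d + 1), b j = a j :=
      ⟨fun j => if h : j < d + 1 then a ⟨j, h⟩ else 0, fun j => dif_pos j.2⟩
    obtain rfl : (fun j : Fin (d + 1) => b j) = a := funext hb
    have h1 : RRn d fun j => ((b j : ℝ≥0) : ℝ) := RRn_of_inP (F := id) ha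
    have h2 := (rrn_good' (fun j => NNReal.coe_nonneg _) h1 hp).smul hc.ne'
    simp only [← hF] at h2
    exact inP_of_RRn h2

end Pool.Agent.LP
end
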