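import Pool.Agent.Lib.MP_f91407_an.Mg.G026

section

/-!
# Malo's theorem: Hadamard products of polynomials with nonnegative coefficients and real zeros
-/

namespace Pool.Agent.Lib.MP_f91407_an

open Polynomial

/-- `g` has no zero in the open upper half plane and none at `0`. -/
def ZF (g : ℂ[X]) : Prop := ∀ y : ℂ, (0 < y.im ∨ y = 0) → g.eval y ≠ 0

theorem ZF.step {g : ℂ[X]} (hg : ZF g) {w : ℝ} (hw : 0 < w) {t : ℂ} (ht : 0 < t.im) :
    ZF (C (w : ℂ) * g + C t * derivative g) := by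
  intro y hy h
  have hgy := hg y hy
  have ht0 : t ≠ 0 := by rintro rfl; simp at ht
  have h1 := (IsAlgClosed.splits g).eval_derivative_div_eval_of_ne_zero hgy
  have h2 : (derivative g).eval y = -(w / t) * g.eval y := by
    simp only [eval_add, eval_mul, eval_C] at h
    field_simp
    linear_combination h
  rw [h2, mul_div_assoc, div_self hgy, mul_one] at h1
  have h3 : (-(w / t : ℂ)).im > 0 := by
    rw [Complex.neg_im, Complex.div_im]
    simp only [Complex.ofReal_im, zero_mul, zero_div, Complex.ofReal_re, zero_sub, neg_neg]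
    have : 0 < Complex.normSq t := Complex.normSq_pos.mpr ht0
    positivity
  have h4 : ((g.roots.map fun z ↦ 1 / (y - z)).sum).im ≤ 0 := by
    have h5 : ∀ s : Multiset ℂ, (∀ z ∈ s, (1 / (y - z)).im ≤ 0) →
        ((s.map fun z ↦ 1 / (y - z)).sum).im ≤ 0 := by
      intro s
      induction s using Multiset.induction_on with
      | empty => intro _; simp
      | cons a s ih =>
        intro hs
        rw [Multiset.map_cons, Multiset.sum_cons, Complex.add_im]
        have := hs a (Multiset.mem_cons_self a s)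
        have := ih fun z hz => hs z (Multiset.mem_cons_of_mem hz)
        linarith
    apply h5
    intro z hz
    have hz0 : g.eval z = 0 := (mem_roots'.mp hz).2
    have hz1 : z.im ≤ 0 := by
      by_contra hlt
      push Not at hlt
      exact hg z (Or.inl hlt) hz0
    have hy1 : 0 ≤ y.im := by
      rcases hy with h | h
      · exact h.le
      · rw [h]; simp
    rw [one_div, Complex.inv_im]
    apply div_nonpos_of_nonpos_of_nonneg
    · rw [Complex.sub_im]; linarith
    · exact Complex.normSq_nonneg _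
  rw [← h1] at h4
  linarith

theorem ZF.C_mul {g : ℂ[X]} (hg : ZF g) {c : ℂ} (hc : c ≠ 0) : ZF (C c * g) := by
  intro y hy
  rw [eval_mul, eval_C]
  exact mul_ne_zero hc (hg y hy)

/-- The operator `f(t D)` applied to `g`. -/
noncomputable def opd (t : ℂ) (f g : ℂ[X]) : ℂ[X] :=
  aeval (t • (derivative : Module.End ℂ ℂ[X])) f g

theorem opd_mul (t : ℂ) (f f' g : ℂ[X]) : opd t (f * f') g = opd t f (opd t f' g) := by
  unfold opd
  rw [map_mul]
  rfl

theorem opd_C (t c : ℂ) (g : ℂ[X]) : opd t (C c) g = C c * g := by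
  unfold opd
  rw [aeval_C, Module.algebraMap_end_apply, smul_eq_C_mul]

theorem opd_X_add_C (t c : ℂ) (g : ℂ[X]) :
    opd t (X + C c) g = C c * g + C t * derivative g := by
  unfold opd
  rw [map_add, aeval_C, aeval_X, LinearMap.add_apply, Module.algebraMap_end_apply,
    smul_eq_C_mul, LinearMap.smul_apply, smul_eq_C_mul, add_comm]

theorem ZF.opd_prod {g : ℂ[X]} (hg : ZF g) {t : ℂ} (ht : 0 < t.im) (s : Multiset ℝ)
    (hs : ∀ w ∈ s, 0 < w) :
    ZF (opd t ((s.map fun w : ℝ => (X + C (w : ℂ) : ℂ[X])).prod) g) := by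
  induction s using Multiset.induction_on with
  | empty =>
    rw [Multiset.map_zero, Multiset.prod_zero, ← C_1, opd_C, C_1, one_mul]
    exact hg
  | cons a s ih =>
    rw [Multiset.map_cons, Multiset.prod_cons, opd_mul, opd_X_add_C]
    exact (ih fun w hw => hs w (Multiset.mem_cons_of_mem hw)).step
      (hs a (Multiset.mem_cons_self a s)) ht

theorem iterate_smul_derivative (t : ℂ) (g : ℂ[X]) (k : ℕ) :
    ((t • (derivative : Module.End ℂ ℂ[X])) ^ k) g = C (t ^ k) * derivative^[k] g := by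
  rw [_root_.smul_pow, LinearMap.smul_apply, smul_eq_C_mul, Module.End.pow_apply]

theorem opd_eval_zero (t : ℂ) (n : ℕ) (a : ℕ → ℂ) (g : ℂ[X]) :
    (opd t (∑ j ∈ Finset.range (n + 1), C (a j) * X ^ j) g).eval 0 =
      ∑ j ∈ Finset.range (n + 1), (j.factorial : ℂ) * a j * g.coeff j * t ^ j := by
  unfold opd
  rw [map_sum, LinearMap.sum_apply, eval_finsetSum]
  refine Finset.sum_congr rfl fun j _ => ?_
  rw [map_mul, aeval_C, map_pow, aeval_X, Module.End.mul_apply, Module.algebraMap_end_apply,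
    iterate_smul_derivative, smul_eq_C_mul, eval_mul, eval_mul, eval_C, eval_C,
    ← coeff_zero_eq_eval_zero, coeff_iterate_derivative, zero_add, Nat.descFactorial_self,
    nsmul_eq_mul]
  ring

/-- Schur's form of the composition theorem. -/
theorem RRn.schur {n : ℕ} {a b : ℕ → ℝ} (ha : ∀ j, 0 ≤ a j) (ha0 : 0 < a 0)
    (hra : RRn n a) (hb0 : b 0 ≠ 0) (hrb : RRn n b) :
    RRn n fun j => (j.factorial : ℝ) * a j * b j := by
  -- factorisation of `a`
  have hP0 : poly n a ≠ 0 := by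
    intro h
    have := congrArg (fun P => coeff P 0) h
    simp only [coeff_poly, coeff_zero] at this
    simp at this
    exact ha0.ne' this
  obtain ⟨s, hs, hP⟩ := exists_factor (poly n a) hP0
    (by intro i; rw [coeff_poly]; split_ifs; exacts [ha i, le_rfl])
    (by intro z hz; rw [aeval_poly] at hz; exact hra z hz)
  have hs' : ∀ w ∈ s, 0 < w := by
    intro w hw
    rcases (hs w hw).lt_or_eq with h | h
    · exact h
    · exfalso
      have h1 := congrArg (fun P => eval 0 P) hP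
      simp only [eval_poly, eval_mul, eval_C, eval_multiset_prod, Multiset.map_map] at h1
      rw [Finset.sum_range_succ'] at h1
      simp only [ne_eq, Nat.add_eq_zero_iff, one_ne_zero, and_false, not_false_eq_true, zero_pow,
        mul_zero, Finset.sum_const_zero, pow_zero, mul_one, zero_add] at h1
      have h2 : (Multiset.map ((fun P : ℝ[X] => eval 0 P) ∘ fun ω => X + C ω) s).prod = 0 := by
        apply Multiset.prod_eq_zero
        rw [Multiset.mem_map]
        exact ⟨w, hw, by simp [← h]⟩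
      rw [h2, mul_zero] at h1
      exact ha0.ne' h1
  have hPC : (∑ j ∈ Finset.range (n + 1), C ((a j : ℝ) : ℂ) * X ^ j : ℂ[X]) =
      C (((poly n a).leadingCoeff : ℝ) : ℂ) *
        (s.map fun w : ℝ => (X + C (w : ℂ) : ℂ[X])).prod := by
    have h1 := congrArg (Polynomial.map (algebraMap ℝ ℂ)) hP
    rw [Polynomial.map_mul, map_C, Polynomial.map_multiset_prod, Multiset.map_map] at h1
    have h2 : (poly n a).map (algebraMap ℝ ℂ) =
        ∑ j ∈ Finset.range (n + 1), C ((a j : ℝ) : ℂ) * X ^ j := by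
      unfold poly
      rw [Polynomial.map_sum]
      refine Finset.sum_congr rfl fun j _ => ?_
      simp
    rw [← h2, h1]
    have h3 : Multiset.map (Polynomial.map (algebraMap ℝ ℂ) ∘ fun ω => X + C ω) s =
        Multiset.map (fun w : ℝ => (X + C (w : ℂ) : ℂ[X])) s :=
      Multiset.map_congr rfl fun w _ => by simp
    rw [h3]
    rfl
  -- `g`
  set g : ℂ[X] := ∑ j ∈ Finset.range (n + 1), C ((b j : ℝ) : ℂ) * X ^ j with hgdef
  have hge : ∀ y : ℂ, g.eval y = ∑ j ∈ Finset.range (n + 1), ((b j : ℝ) : ℂ) * y ^ j := by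
    intro y
    rw [hgdef, eval_finsetSum]
    simp
  have hg : ZF g := by
    intro y hy h
    rw [hge] at h
    rcases hy with h1 | h1
    · exact h1.ne' (hrb y h)
    · subst h1
      rw [Finset.sum_range_succ'] at h
      simp at h
      exact hb0 h
  have hgc : ∀ j ∈ Finset.range (n + 1), g.coeff j = ((b j : ℝ) : ℂ) := by
    intro j hj
    rw [hgdef, finsetSum_coeff]
    simp only [coeff_C_mul_X_pow]
    rw [Finset.sum_ite_eq, if_pos hj]
  have hlc : (((poly n a).leadingCoeff : ℝ) : ℂ) ≠ 0 := by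
    exact_mod_cast leadingCoeff_ne_zero.mpr hP0
  have key : ∀ t : ℂ, 0 < t.im →
      ∑ j ∈ Finset.range (n + 1), (((j.factorial : ℝ) * a j * b j : ℝ) : ℂ) * t ^ j ≠ 0 := by
    intro t ht h
    have h1 := opd_eval_zero t n (fun j => ((a j : ℝ) : ℂ)) g
    rw [hPC, opd_mul, opd_C] at h1
    refine ((hg.opd_prod ht s hs').C_mul hlc) 0 (Or.inr rfl) ?_
    rw [h1, ← h]
    refine Finset.sum_congr rfl fun j hj => ?_
    rw [hgc j hj]
    push_cast
    ring
  intro z hz
  by_contra him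
  rcases lt_or_gt_of_ne him with h | h
  · apply key (starRingEnd ℂ z) (by simpa using h)
    have := congrArg (starRingEnd ℂ) hz
    simp only [map_sum, map_mul, map_pow, Complex.conj_ofReal, map_zero] at this
    exact this
  · exact key z h hz

/-- Reversal of the coefficients. -/
theorem RRn.rev {n : ℕ} {a : ℕ → ℝ} (h : RRn n a) : RRn n fun j => a (n - j) := by
  intro z hz
  by_cases hz0 : z = 0
  · rw [hz0]; simp
  have h1 : ∑ j ∈ Finset.range (n + 1), ((a j : ℝ) : ℂ) * z⁻¹ ^ j = 0 := by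
    have h2 := Finset.sum_range_reflect (fun j => ((a (n - j) : ℝ) : ℂ) * z ^ j) (n + 1)
    rw [hz] at h2
    have h3 : ∑ j ∈ Finset.range (n + 1), ((a j : ℝ) : ℂ) * z⁻¹ ^ j =
        (z ^ n)⁻¹ * ∑ j ∈ Finset.range (n + 1),
          ((a (n - (n + 1 - 1 - j)) : ℝ) : ℂ) * z ^ (n + 1 - 1 - j) := by
      rw [Finset.mul_sum]
      refine Finset.sum_congr rfl fun j hj => ?_
      have hj' : j ≤ n := by simpa [Nat.lt_succ_iff] using hj
      rw [show n + 1 - 1 - j = n - j by omega, show n - (n - j) = j by omega,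
        pow_sub₀ _ hz0 hj', inv_pow]
      field_simp
    rw [h3, h2, mul_zero]
  have h4 := h _ h1
  rw [Complex.inv_im] at h4
  have h5 : Complex.normSq z ≠ 0 := by
    rw [Ne, Complex.normSq_eq_zero]; exact hz0
  field_simp at h4
  linarith

theorem RRn.of_eqOn {n : ℕ} {a b : ℕ → ℝ} (h : RRn n a) (hab : ∀ j ≤ n, a j = b j) :
    RRn n b := by
  intro z hz
  apply h z
  rw [← hz]
  refine Finset.sum_congr rfl fun j hj => ?_
  rw [hab j (by simpa [Nat.lt_succ_iff] using hj)]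

theorem RRn.smul {n : ℕ} {a : ℕ → ℝ} (h : RRn n a) {c : ℝ} (hc : c ≠ 0) :
    RRn n fun j => c * a j := by
  intro z hz
  apply h z
  have h1 : ∑ j ∈ Finset.range (n + 1), ((c * a j : ℝ) : ℂ) * z ^ j =
      (c : ℂ) * ∑ j ∈ Finset.range (n + 1), ((a j : ℝ) : ℂ) * z ^ j := by
    rw [Finset.mul_sum]
    refine Finset.sum_congr rfl fun j _ => ?_
    push_cast
    ring
  rw [h1] at hz
  exact (mul_eq_zero.mp hz).resolve_left (by exact_mod_cast hc)

/-- Changing the degree bound when the higher coefficients vanish. -/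
theorem RRn_iff_of_le {n N : ℕ} (h : n ≤ N) {a : ℕ → ℝ} (ha : ∀ j, n < j → a j = 0) :
    RRn N a ↔ RRn n a := by
  have key : ∀ z : ℂ, ∑ j ∈ Finset.range (N + 1), ((a j : ℝ) : ℂ) * z ^ j =
      ∑ j ∈ Finset.range (n + 1), ((a j : ℝ) : ℂ) * z ^ j := by
    intro z
    symm
    apply Finset.sum_subset
    · intro j hj; rw [Finset.mem_range] at hj ⊢; omega
    · intro j _ hj
      rw [Finset.mem_range] at hj
      rw [ha j (by omega)]
      simp
  unfold RRn
  simp only [key]

/-- `1/j!` is a multiplier sequence on polynomials with nonnegative coefficients. -/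
theorem RRn.div_factorial_aux {n : ℕ} {c : ℕ → ℝ} (hcn : 0 < c n) (hr : RRn n c) :
    RRn n fun j => c j / j.factorial := by
  have h1 : RRn n fun j => (j.factorial : ℝ) * bseq n 1 1 j * (fun j => c (n - j)) j := by
    apply RRn.schur (bseq_nonneg zero_le_one zero_le_one)
    · simp [bseq]
    · exact RRn_bseq n one_pos
    · simpa using hcn.ne'
    · exact hr.rev
  have h2 := h1.rev
  have h3 : ∀ j ≤ n, ((n - j).factorial : ℝ) * bseq n 1 1 (n - j) * c (n - (n - j)) =
      (n.factorial : ℝ) * (c j / j.factorial) := by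
    intro j hj
    rw [show n - (n - j) = j by omega]
    unfold bseq
    rw [Nat.choose_symm hj, Nat.choose_eq_factorial_div_factorial hj,
      Nat.cast_div (Nat.factorial_mul_factorial_dvd_factorial hj) (by positivity)]
    push_cast
    field_simp
    ring
  have h4 := h2.of_eqOn h3
  have h5 := h4.smul (c := ((n.factorial : ℝ))⁻¹) (by positivity)
  refine h5.of_eqOn fun j _ => ?_
  field_simp

theorem RRn.div_factorial {n : ℕ} {c : ℕ → ℝ} (hc : ∀ j, 0 ≤ c j) (hc0 : 0 < c 0)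
    (hr : RRn n c) : RRn n fun j => c j / j.factorial := by
  induction n with
  | zero => exact RRn.div_factorial_aux hc0 hr
  | succ n ih =>
    rcases (hc (n + 1)).lt_or_eq with h | h
    · exact RRn.div_factorial_aux h hr
    · set c' : ℕ → ℝ := fun j => if j ≤ n then c j else 0 with hc'
      have e : ∀ j ≤ n + 1, c j = c' j := by
        intro j hj
        simp only [hc']
        split_ifs with h1
        · rfl
        · rw [show j = n + 1 by omega, ← h]
      have h1 : RRn n c' := (RRn_iff_of_le (Nat.le_succ n) (by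
        intro j hj; simp only [hc']; rw [if_neg (by omega)])).mp (hr.of_eqOn e)
      have h2 : RRn n c := h1.of_eqOn fun j hj => (e j (by omega)).symm
      have h3 := ih h2
      have h4 : RRn n fun j => c' j / j.factorial := h3.of_eqOn fun j hj => by
        rw [e j (by omega)]
      have h5 := (RRn_iff_of_le (Nat.le_succ n) (a := fun j => c' j / (j.factorial : ℝ)) (by
        intro j hj; simp only [hc']; rw [if_neg (by omega), zero_div])).mpr h4
      exact h5.of_eqOn fun j hj => by rw [e j hj]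

/-- **Malo's theorem** (for nonnegative coefficients and nonzero constant terms). -/
theorem RRn.malo {n : ℕ} {a b : ℕ → ℝ} (ha : ∀ j, 0 ≤ a j) (ha0 : 0 < a 0) (hra : RRn n a)
    (hb : ∀ j, 0 ≤ b j) (hb0 : 0 < b 0) (hrb : RRn n b) : RRn n fun j => a j * b j := by
  have h1 := RRn.schur ha ha0 hra hb0.ne' hrb
  have h2 := h1.div_factorial (fun j => by have := ha j; have := hb j; positivity)
    (by simp; positivity)
  refine h2.of_eqOn fun j _ => ?_
  field_simp

end Pool.Agent.Lib.MP_f91407_an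
end

section

/-!
# The forms `∑ v_n v_m (x_n² x_m^(1+s) + x_n^(1+s) x_m²)/(x_n + x_m)`
-/

namespace Pool.Agent.Lib.MP_f91407_an

open Finset MeasureTheory Set Real

/-- The constant `∫ t^(s-1)/(1+t) dt`. -/
noncomputable def Kc (s : ℝ) : ℝ := ∫ t in Ioi (0 : ℝ), rpowIntegrand₀₁ s t 1

/-- The integrand `t^(s-1) x/(t+x)`. -/
noncomputable def ph (s t x : ℝ) : ℝ := t ^ (s - 1) * x / (t + x)

variable {s : ℝ}

theorem ph_int (hs : s ∈ Ioo (0 : ℝ) 1) {x : ℝ} (hx : 0 ≤ x) :
    IntegrableOn (fun t => ph s t x) (Ioi 0) :=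
  (integrableOn_rpowIntegrand₀₁_Ioi hs hx).congr_fun
    (fun _ ht => rpowIntegrand₀₁_eq_pow_div hs (le_of_lt ht) hx) measurableSet_Ioi

theorem ph_integral (hs : s ∈ Ioo (0 : ℝ) 1) {x : ℝ} (hx : 0 ≤ x) :
    ∫ t in Ioi (0 : ℝ), ph s t x = x ^ s * Kc s := by
  rw [Kc, ← integral_rpowIntegrand₀₁_eq_rpow_mul_const hs hx]
  refine setIntegral_congr_fun measurableSet_Ioi fun t ht => ?_
  exact (rpowIntegrand₀₁_eq_pow_div hs (le_of_lt ht) hx).symm

theorem rpow_int_Ioc {r a : ℝ} (hr : -1 < r) (ha : 0 ≤ a) :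
    IntegrableOn (fun t : ℝ => t ^ r) (Ioc 0 a) ∧
      ∫ t in Ioc 0 a, t ^ r = a ^ (r + 1) / (r + 1) := by
  constructor
  · exact (intervalIntegrable_iff_integrableOn_Ioc_of_le ha).mp
      (intervalIntegral.intervalIntegrable_rpow' hr)
  · rw [← intervalIntegral.integral_of_le ha, integral_rpow (Or.inl hr),
      zero_rpow (by linarith : r + 1 ≠ 0), sub_zero]

theorem Kc_ge (hs : s ∈ Ioo (0 : ℝ) 1) : 1 / (2 * s) + 1 / (2 * (1 - s)) ≤ Kc s := by
  have hs0 := hs.1
  have hs1 := hs.2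
  have h0 := ph_int hs zero_le_one
  have h1 : Kc s = ∫ t in Ioi (0 : ℝ), ph s t 1 := by rw [ph_integral hs zero_le_one]; simp
  rw [h1, ← Ioc_union_Ioi_eq_Ioi (zero_le_one (α := ℝ)),
    setIntegral_union (Ioc_disjoint_Ioi le_rfl) measurableSet_Ioi
      (h0.mono_set Ioc_subset_Ioi_self) (h0.mono_set (Ioi_subset_Ioi zero_le_one))]
  apply add_le_add
  · have e := (rpow_int_Ioc (r := s - 1) (by linarith) (zero_le_one (α := ℝ)))
    have e2 : 1 / (2 * s) = ∫ t in Ioc (0 : ℝ) 1, (1 / 2) * t ^ (s - 1) := by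
      rw [integral_const_mul, e.2]
      simp
      field_simp
    rw [e2]
    refine setIntegral_mono_on (e.1.const_mul _) (h0.mono_set Ioc_subset_Ioi_self)
      measurableSet_Ioc fun t ht => ?_
    unfold ph
    have t0 : 0 < t := ht.1
    have t1 : t ≤ 1 := ht.2
    have : 0 < t ^ (s - 1) := rpow_pos_of_pos t0 _
    rw [mul_one, le_div_iff₀ (by linarith)]
    nlinarith
  · have e2 : 1 / (2 * (1 - s)) = ∫ t in Ioi (1 : ℝ), (1 / 2) * t ^ (s - 2) := by
      rw [integral_const_mul, integral_Ioi_rpow_of_lt (by linarith) one_pos]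
      simp
      have : s - 2 + 1 ≠ 0 := by linarith
      have : 1 - s ≠ 0 := by linarith
      rw [show (s - 2 + 1 : ℝ) = -(1 - s) by ring]
      field_simp
    rw [e2]
    refine setIntegral_mono_on ((integrableOn_Ioi_rpow_of_lt (by linarith) one_pos).const_mul _)
      (h0.mono_set (Ioi_subset_Ioi zero_le_one)) measurableSet_Ioi fun t ht => ?_
    unfold ph
    have t1 : 1 < t := ht
    have t0 : 0 < t := by linarith
    have h2 : t ^ (s - 1) = t ^ (s - 2) * t := by
      rw [← rpow_add_one t0.ne']; congr 1; ring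
    have : 0 < t ^ (s - 2) := rpow_pos_of_pos t0 _
    rw [mul_one, h2, le_div_iff₀ (by linarith)]
    nlinarith

theorem Kc_pos (hs : s ∈ Ioo (0 : ℝ) 1) : 0 < Kc s := by
  have h1 := Kc_ge hs
  have h2 : 0 < 1 / (2 * s) := by have := hs.1; positivity
  have h3 : 0 < 1 / (2 * (1 - s)) := by
    have : 0 < 1 - s := by linarith [hs.2]
    positivity
  linarith

/-- The Cauchy kernel is positive semidefinite. -/
theorem cauchy_psd (S : Finset ℕ) (x w : ℕ → ℝ) (hx : ∀ n ∈ S, 0 < x n) :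
    0 ≤ ∑ n ∈ S, ∑ m ∈ S, w n * w m * (1 / (x n + x m)) := by
  have hint : ∀ n ∈ S, ∀ m ∈ S,
      Integrable (fun t : ℝ => w n * w m * Real.exp (-(x n + x m) * t))
        (volume.restrict (Ioi 0)) := by
    intro n hn m hm
    exact (exp_neg_integrableOn_Ioi 0 (by linarith [hx n hn, hx m hm])).const_mul _
  have e1 : ∑ n ∈ S, ∑ m ∈ S, w n * w m * (1 / (x n + x m)) =
      ∫ t in Ioi (0 : ℝ), ∑ n ∈ S, ∑ m ∈ S, w n * w m * Real.exp (-(x n + x m) * t) := by
    rw [integral_finsetSum _ fun n hn => integrable_finsetSum _ fun m hm => hint n hn m hm]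
    refine sum_congr rfl fun n hn => ?_
    rw [integral_finsetSum _ fun m hm => hint n hn m hm]
    refine sum_congr rfl fun m hm => ?_
    rw [integral_const_mul, int_exp (by linarith [hx n hn, hx m hm])]
  rw [e1]
  refine setIntegral_nonneg measurableSet_Ioi fun t _ => ?_
  have e2 : ∑ n ∈ S, ∑ m ∈ S, w n * w m * Real.exp (-(x n + x m) * t) =
      (∑ n ∈ S, w n * Real.exp (-x n * t)) ^ 2 := by
    rw [pow_two, sum_mul_sum]
    refine sum_congr rfl fun n _ => sum_congr rfl fun m _ => ?_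
    rw [show -(x n + x m) * t = -x n * t + -x m * t by ring, Real.exp_add]
    ring
  rw [e2]
  positivity

/-- `J(t) = ∑ v_n x_n²/(x_n + t)`. -/
noncomputable def Jf (S : Finset ℕ) (x v : ℕ → ℝ) (t : ℝ) : ℝ :=
  ∑ n ∈ S, v n * (x n ^ 2 / (x n + t))

/-- The form `P`. -/
noncomputable def Pf (S : Finset ℕ) (x v : ℕ → ℝ) (s : ℝ) : ℝ :=
  ∑ n ∈ S, ∑ m ∈ S, v n * v m *
    ((x n ^ 2 * x m ^ (1 + s) + x n ^ (1 + s) * x m ^ 2) / (x n + x m))

/-- The full integrand. -/
noncomputable def If (S : Finset ℕ) (x v : ℕ → ℝ) (s t : ℝ) : ℝ :=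
  ∑ n ∈ S, ∑ m ∈ S, v n * v m *
    ((x n * x m * (x n * ph s t (x m) + x m * ph s t (x n))) / (x n + x m))

theorem If_int (hs : s ∈ Ioo (0 : ℝ) 1) (S : Finset ℕ) (x v : ℕ → ℝ) (hx : ∀ n ∈ S, 0 < x n) :
    IntegrableOn (fun t => If S x v s t) (Ioi 0) ∧
      ∫ t in Ioi (0 : ℝ), If S x v s t = Kc s * Pf S x v s := by
  have hint : ∀ n ∈ S, ∀ m ∈ S, Integrable (fun t : ℝ => v n * v m *
      ((x n * x m * (x n * ph s t (x m) + x m * ph s t (x n))) / (x n + x m)))
        (volume.restrict (Ioi 0)) := by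
    intro n hn m hm
    apply Integrable.const_mul
    apply Integrable.div_const
    apply Integrable.const_mul
    exact ((ph_int hs (hx m hm).le).const_mul _).add ((ph_int hs (hx n hn).le).const_mul _)
  constructor
  · exact integrable_finsetSum _ fun n hn => integrable_finsetSum _ fun m hm => hint n hn m hm
  · unfold If Pf
    rw [integral_finsetSum _ fun n hn => integrable_finsetSum _ fun m hm => hint n hn m hm,
      mul_sum]
    refine sum_congr rfl fun n hn => ?_
    rw [integral_finsetSum _ fun m hm => hint n hn m hm, mul_sum]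
    refine sum_congr rfl fun m hm => ?_
    rw [integral_const_mul, integral_div, integral_const_mul,
      integral_add ((ph_int hs (hx m hm).le).const_mul _) ((ph_int hs (hx n hn).le).const_mul _),
      integral_const_mul, integral_const_mul, ph_integral hs (hx m hm).le,
      ph_integral hs (hx n hn).le, rpow_add (hx n hn), rpow_add (hx m hm), rpow_one, rpow_one]
    ring

theorem If_ge (S : Finset ℕ) (x v : ℕ → ℝ) (hx : ∀ n ∈ S, 0 < x n) {t : ℝ} (ht : 0 < t) :
    Jf S x v t ^ 2 * t ^ (s - 1) ≤ If S x v s t := by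
  have h1 := cauchy_psd S x (fun n => v n * (x n ^ 2 / (x n + t))) hx
  have h2 : If S x v s t = Jf S x v t ^ 2 * t ^ (s - 1) + 2 * t * t ^ (s - 1) *
      ∑ n ∈ S, ∑ m ∈ S, (v n * (x n ^ 2 / (x n + t))) * (v m * (x m ^ 2 / (x m + t))) *
        (1 / (x n + x m)) := by
    unfold If Jf
    rw [pow_two, sum_mul_sum, sum_mul, mul_sum, ← sum_add_distrib]
    refine sum_congr rfl fun n hn => ?_
    rw [sum_mul, mul_sum, ← sum_add_distrib]
    refine sum_congr rfl fun m hm => ?_
    have p1 := hx n hn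
    have p2 := hx m hm
    unfold ph
    field_simp
    ring
  rw [h2]
  have h3 : 0 < t ^ (s - 1) := rpow_pos_of_pos ht _
  have : 0 ≤ 2 * t * t ^ (s - 1) := by positivity
  have := mul_nonneg this h1
  linarith

theorem Jf_cont (S : Finset ℕ) (x v : ℕ → ℝ) (hx : ∀ n ∈ S, 0 < x n) :
    ContinuousOn (Jf S x v) (Ioi 0) := by
  unfold Jf
  apply continuousOn_finsetSum
  intro n hn
  apply ContinuousOn.mul continuousOn_const
  apply ContinuousOn.div continuousOn_const (by fun_prop)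
  intro t ht
  have := hx n hn
  have : (0 : ℝ) < t := ht
  positivity

theorem J2_cont (S : Finset ℕ) (x v : ℕ → ℝ) (hx : ∀ n ∈ S, 0 < x n) :
    ContinuousOn (fun t => Jf S x v t ^ 2 * t ^ (s - 1)) (Ioi 0) := by
  apply ((Jf_cont S x v hx).pow 2).mul
  exact ContinuousOn.rpow_const (by fun_prop) fun t ht => Or.inl (ne_of_gt ht)

theorem J2_int (hs : s ∈ Ioo (0 : ℝ) 1) (S : Finset ℕ) (x v : ℕ → ℝ) (hx : ∀ n ∈ S, 0 < x n) :
    IntegrableOn (fun t => Jf S x v t ^ 2 * t ^ (s - 1)) (Ioi 0) := by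
  refine Integrable.mono' (If_int hs S x v hx).1
    ((J2_cont S x v hx).aestronglyMeasurable measurableSet_Ioi) ?_
  refine ae_restrict_of_forall_mem measurableSet_Ioi fun t ht => ?_
  have ht0 : (0 : ℝ) < t := ht
  have h3 : 0 < t ^ (s - 1) := rpow_pos_of_pos ht0 _
  rw [norm_of_nonneg (by positivity)]
  exact If_ge S x v hx ht0

/-- `P1 ≤ K P`. -/
theorem P_ge (hs : s ∈ Ioo (0 : ℝ) 1) (S : Finset ℕ) (x v : ℕ → ℝ) (hx : ∀ n ∈ S, 0 < x n) :
    ∫ t in Ioi (0 : ℝ), Jf S x v t ^ 2 * t ^ (s - 1) ≤ Kc s * Pf S x v s := by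
  rw [← (If_int hs S x v hx).2]
  exact setIntegral_mono_on (J2_int hs S x v hx) (If_int hs S x v hx).1 measurableSet_Ioi
    fun t ht => If_ge S x v hx ht

theorem J2_nonneg (S : Finset ℕ) (x v : ℕ → ℝ) :
    0 ≤ ∫ t in Ioi (0 : ℝ), Jf S x v t ^ 2 * t ^ (s - 1) :=
  setIntegral_nonneg measurableSet_Ioi fun t ht => by
    have h3 : 0 < t ^ (s - 1) := rpow_pos_of_pos ht _
    positivity

theorem P_nonneg (hs : s ∈ Ioo (0 : ℝ) 1) (S : Finset ℕ) (x v : ℕ → ℝ) (hx : ∀ n ∈ S, 0 < x n) :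
    0 ≤ Pf S x v s := by
  have h1 := (J2_nonneg (s := s) S x v).trans (P_ge hs S x v hx)
  exact nonneg_of_mul_nonneg_right h1 (Kc_pos hs)

open Polynomial in
theorem Jf_ne (S : Finset ℕ) (x v : ℕ → ℝ) (hx : ∀ n ∈ S, 0 < x n)
    (hinj : ∀ n ∈ S, ∀ m ∈ S, n ≠ m → x n ≠ x m) {n₀ : ℕ} (hn₀ : n₀ ∈ S) (hv : v n₀ ≠ 0) :
    ∃ t : ℝ, 0 < t ∧ Jf S x v t ≠ 0 := by
  by_contra hcon
  push Not at hcon
  classical
  set Q : ℝ[X] := ∑ n ∈ S, C (v n * x n ^ 2) * ∏ m ∈ S.erase n, (X + C (x m)) with hQ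
  have hQe : ∀ t : ℝ, Q.eval t = ∑ n ∈ S, v n * x n ^ 2 * ∏ m ∈ S.erase n, (t + x m) := by
    intro t
    rw [hQ, eval_finsetSum]
    refine sum_congr rfl fun n _ => ?_
    rw [eval_mul, eval_C, eval_prod]
    simp
  have hQ0 : Q = 0 := by
    apply Polynomial.eq_zero_of_infinite_isRoot
    refine Set.Infinite.mono ?_ (Set.Ioi_infinite (0 : ℝ))
    intro t ht
    have ht0 : (0 : ℝ) < t := ht
    show Q.eval t = 0
    rw [hQe]
    have h1 : ∑ n ∈ S, v n * x n ^ 2 * ∏ m ∈ S.erase n, (t + x m) =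
        Jf S x v t * ∏ m ∈ S, (t + x m) := by
      unfold Jf
      rw [sum_mul]
      refine sum_congr rfl fun n hn => ?_
      rw [← mul_prod_erase S (fun m => t + x m) hn]
      have := hx n hn
      field_simp
      ring
    rw [h1, hcon t ht0, zero_mul]
  have h2 := hQe (-x n₀)
  rw [hQ0, eval_zero] at h2
  rw [sum_eq_single_of_mem n₀ hn₀] at h2
  · have h3 : ∏ m ∈ S.erase n₀, (-x n₀ + x m) ≠ 0 := by
      rw [prod_ne_zero_iff]
      intro m hm
      have := hinj m (mem_of_mem_erase hm) n₀ hn₀ (ne_of_mem_erase hm)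
      intro h
      exact this (by linarith)
    have h4 : v n₀ * x n₀ ^ 2 ≠ 0 := mul_ne_zero hv (pow_ne_zero 2 (hx n₀ hn₀).ne')
    exact mul_ne_zero h4 h3 h2.symm
  · intro n hn hne
    have : ∏ m ∈ S.erase n, (-x n₀ + x m) = 0 :=
      prod_eq_zero (mem_erase.mpr ⟨hne.symm, hn₀⟩) (by ring)
    rw [this, mul_zero]

theorem J2_pos (hs : s ∈ Ioo (0 : ℝ) 1) (S : Finset ℕ) (x v : ℕ → ℝ) (hx : ∀ n ∈ S, 0 < x n)
    (hinj : ∀ n ∈ S, ∀ m ∈ S, n ≠ m → x n ≠ x m) {n₀ : ℕ} (hn₀ : n₀ ∈ S) (hv : v n₀ ≠ 0) :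
    0 < ∫ t in Ioi (0 : ℝ), Jf S x v t ^ 2 * t ^ (s - 1) := by
  rw [setIntegral_pos_iff_support_of_nonneg_ae
    (ae_restrict_of_forall_mem measurableSet_Ioi fun t ht => by
      have h3 : 0 < t ^ (s - 1) := rpow_pos_of_pos ht _
      show (0 : ℝ) ≤ _
      positivity) (J2_int hs S x v hx)]
  obtain ⟨t, ht, hJ⟩ := Jf_ne S x v hx hinj hn₀ hv
  have hopen : IsOpen (Ioi (0 : ℝ) ∩ (fun t => Jf S x v t ^ 2 * t ^ (s - 1)) ⁻¹' {0}ᶜ) :=
    (J2_cont S x v hx).isOpen_inter_preimage isOpen_Ioi isOpen_compl_singleton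
  have hne : (Ioi (0 : ℝ) ∩ (fun t => Jf S x v t ^ 2 * t ^ (s - 1)) ⁻¹' {0}ᶜ).Nonempty := by
    refine ⟨t, ht, ?_⟩
    show Jf S x v t ^ 2 * t ^ (s - 1) ≠ 0
    exact mul_ne_zero (pow_ne_zero 2 hJ) (rpow_pos_of_pos ht _).ne'
  refine (hopen.measure_pos volume hne).trans_le (measure_mono ?_)
  rintro y ⟨hy1, hy2⟩
  exact ⟨hy2, hy1⟩

theorem P_pos (hs : s ∈ Ioo (0 : ℝ) 1) (S : Finset ℕ) (x v : ℕ → ℝ) (hx : ∀ n ∈ S, 0 < x n)
    (hinj : ∀ n ∈ S, ∀ m ∈ S, n ≠ m → x n ≠ x m) {n₀ : ℕ} (hn₀ : n₀ ∈ S) (hv : v n₀ ≠ 0) :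
    0 < Pf S x v s := by
  have h1 := (J2_pos hs S x v hx hinj hn₀ hv).trans_le (P_ge hs S x v hx)
  exact pos_of_mul_pos_right h1 (Kc_pos hs).le

end Pool.Agent.Lib.MP_f91407_an
end

section

/-!
# The estimate for `S(a) = ∑ u_n x_n (x_n + a)^s`
-/

namespace Pool.Agent.Lib.MP_f91407_an

open Finset MeasureTheory Set Real

variable {s : ℝ}

/-- The weight `W(t)`. -/
noncomputable def Wf (s a t : ℝ) : ℝ := t ^ (s - 1) - if a < t then (t - a) ^ s / t else 0

theorem shift_int {f : ℝ → ℝ} (a : ℝ) :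
    ∫ t in Ioi (0 : ℝ), f (t + a) = ∫ t in Ioi a, f t := by
  rw [← integral_indicator measurableSet_Ioi, ← integral_indicator measurableSet_Ioi,
    ← integral_add_right_eq_self (Set.indicator (Ioi a) f) a]
  congr 1
  funext t
  simp only [Set.indicator, Set.mem_Ioi]
  by_cases h : 0 < t
  · rw [if_pos h, if_pos (by linarith)]
  · rw [if_neg h, if_neg (by linarith)]

theorem shift_integrable {f : ℝ → ℝ} (a : ℝ) :
    IntegrableOn (fun t => f (t + a)) (Ioi (0 : ℝ)) ↔ IntegrableOn f (Ioi a) := by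
  rw [← integrable_indicator_iff measurableSet_Ioi, ← integrable_indicator_iff measurableSet_Ioi]
  have : (Set.indicator (Ioi (0 : ℝ)) fun t => f (t + a)) =
      fun t => Set.indicator (Ioi a) f (t + a) := by
    funext t
    simp only [Set.indicator, Set.mem_Ioi]
    by_cases h : 0 < t
    · rw [if_pos h, if_pos (by linarith)]
    · rw [if_neg h, if_neg (by linarith)]
  rw [this]
  exact ⟨fun h => by simpa using h.comp_add_right (-a), fun h => h.comp_add_right a⟩

theorem g_rep (hs : s ∈ Ioo (0 : ℝ) 1) {a x : ℝ} (ha : 0 < a) (hx : 0 < x) :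
    IntegrableOn (fun t => x / (x + t) * Wf s a t) (Ioi 0) ∧
    ∫ t in Ioi (0 : ℝ), x / (x + t) * Wf s a t =
      Kc s * (x ^ s + a ^ s - (x + a) ^ s) := by
  have hxa : 0 < x + a := by linarith
  -- the shifted function
  have h1 : IntegrableOn (fun t => ph s t (x + a) - ph s t a) (Ioi 0) :=
    (ph_int hs hxa.le).sub (ph_int hs ha.le)
  have h2 : ∫ t in Ioi (0 : ℝ), (ph s t (x + a) - ph s t a) = ((x + a) ^ s - a ^ s) * Kc s := by
    rw [integral_sub (ph_int hs hxa.le) (ph_int hs ha.le), ph_integral hs hxa.le,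
      ph_integral hs ha.le]
    ring
  set f : ℝ → ℝ := fun t => (t - a) ^ s * x / ((x + t) * t) with hf
  have e1 : Set.EqOn (fun t => ph s t (x + a) - ph s t a) (fun t => f (t + a)) (Ioi 0) := by
    intro t ht
    have ht0 : (0 : ℝ) < t := ht
    simp only [hf, ph]
    have h3 : t ^ (s - 1) = t ^ s / t := rpow_sub_one ht0.ne' s
    rw [h3, show t + a - a = t by ring]
    have : x + (t + a) ≠ 0 := by positivity
    have : t + (x + a) ≠ 0 := by positivity
    field_simp
    ring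
  have h4 : IntegrableOn (fun t => f (t + a)) (Ioi 0) := h1.congr_fun e1 measurableSet_Ioi
  have h5 : IntegrableOn f (Ioi a) := (shift_integrable a).mp h4
  have h6 : ∫ t in Ioi a, f t = ((x + a) ^ s - a ^ s) * Kc s := by
    rw [← shift_int, ← h2]
    exact (setIntegral_congr_fun measurableSet_Ioi e1).symm
  have hsub : Ioi a ⊆ Ioi (0 : ℝ) := Ioi_subset_Ioi ha.le
  have h7 : IntegrableOn (Set.indicator (Ioi a) f) (Ioi 0) := by
    rw [← integrable_indicator_iff measurableSet_Ioi] at h5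
    exact h5.integrableOn
  have h8 : ∫ t in Ioi (0 : ℝ), Set.indicator (Ioi a) f t = ((x + a) ^ s - a ^ s) * Kc s := by
    rw [setIntegral_indicator measurableSet_Ioi, Set.inter_eq_right.mpr hsub, h6]
  have e2 : Set.EqOn (fun t => ph s t x - Set.indicator (Ioi a) f t)
      (fun t => x / (x + t) * Wf s a t) (Ioi 0) := by
    intro t ht
    have ht0 : (0 : ℝ) < t := ht
    simp only [ph, Wf, Set.indicator, Set.mem_Ioi, hf]
    split_ifs with h
    · field_simp
      ring
    · field_simp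
      ring
  constructor
  · exact ((ph_int hs hx.le).sub h7).congr_fun e2 measurableSet_Ioi
  · rw [← setIntegral_congr_fun measurableSet_Ioi e2, integral_sub (ph_int hs hx.le) h7,
      ph_integral hs hx.le, h8]
    ring

/-- The bound for `W² t^(1-s)`. -/
noncomputable def Vf (s a t : ℝ) : ℝ := if t ≤ a then t ^ (s - 1) else a ^ 2 * t ^ (s - 3)

theorem Vf_int (hs : s ∈ Ioo (0 : ℝ) 1) {a : ℝ} (ha : 0 < a) :
    IntegrableOn (Vf s a) (Ioi 0) ∧
      ∫ t in Ioi (0 : ℝ), Vf s a t = a ^ s * (1 / s + 1 / (2 - s)) := by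
  have hs0 := hs.1
  have hs1 := hs.2
  have e1 := rpow_int_Ioc (r := s - 1) (by linarith) ha.le
  have c1 : Set.EqOn (fun t : ℝ => t ^ (s - 1)) (Vf s a) (Ioc 0 a) := by
    intro t ht
    simp only [Vf]
    rw [if_pos ht.2]
  have c2 : Set.EqOn (fun t : ℝ => a ^ 2 * t ^ (s - 3)) (Vf s a) (Ioi a) := by
    intro t ht
    simp only [Vf]
    rw [if_neg (not_le.mpr ht)]
  have i1 : IntegrableOn (Vf s a) (Ioc 0 a) := e1.1.congr_fun c1 measurableSet_Ioc
  have i2' : IntegrableOn (fun t : ℝ => a ^ 2 * t ^ (s - 3)) (Ioi a) :=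
    Integrable.const_mul (integrableOn_Ioi_rpow_of_lt (by linarith) ha) _
  have i2 : IntegrableOn (Vf s a) (Ioi a) := i2'.congr_fun c2 measurableSet_Ioi
  constructor
  · rw [← Ioc_union_Ioi_eq_Ioi ha.le]
    exact i1.union i2
  · rw [← Ioc_union_Ioi_eq_Ioi ha.le, setIntegral_union (Ioc_disjoint_Ioi le_rfl)
      measurableSet_Ioi i1 i2, ← setIntegral_congr_fun measurableSet_Ioc c1,
      ← setIntegral_congr_fun measurableSet_Ioi c2, e1.2, integral_const_mul,
      integral_Ioi_rpow_of_lt (by linarith) ha]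
    have h1 : a ^ s = a ^ 2 * a ^ (s - 3 + 1) := by
      rw [← rpow_natCast, ← rpow_add ha]; congr 1; push_cast; ring
    rw [show s - 1 + 1 = s by ring]
    have h2 : s - 3 + 1 ≠ 0 := by linarith
    have h3 : 2 - s ≠ 0 := by linarith
    rw [mul_add, show a ^ s * (1 / (2 - s)) = a ^ 2 * (-a ^ (s - 3 + 1) / (s - 3 + 1)) by
      rw [h1, show (s - 3 + 1 : ℝ) = -(2 - s) by ring]
      field_simp]
    field_simp

theorem Wf_le (hs : s ∈ Ioo (0 : ℝ) 1) {a t : ℝ} (ha : 0 < a) (ht : 0 < t) :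
    Wf s a t ^ 2 ≤ Vf s a t * t ^ (s - 1) := by
  have h3 : 0 < t ^ (s - 1) := rpow_pos_of_pos ht _
  unfold Wf Vf
  by_cases h : t ≤ a
  · rw [if_neg (not_lt.mpr h), if_pos h, sub_zero, pow_two]
  · push Not at h
    rw [if_pos h, if_neg (not_le.mpr h)]
    have hy0 : 0 ≤ 1 - a / t := by
      rw [sub_nonneg, div_le_one ht]; exact h.le
    have hy1 : 1 - a / t ≤ 1 := by
      have : 0 < a / t := by positivity
      linarith
    have e1 : (t - a) ^ s / t = t ^ (s - 1) * (1 - a / t) ^ s := by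
      rw [rpow_sub_one ht.ne', show t - a = t * (1 - a / t) by field_simp,
        mul_rpow ht.le hy0]
      ring
    have e2 : 1 - a / t ≤ (1 - a / t) ^ s := by
      rcases hy0.eq_or_lt with h0 | h0
      · rw [← h0]; exact rpow_nonneg le_rfl _
      · calc 1 - a / t = (1 - a / t) ^ (1 : ℝ) := (rpow_one _).symm
          _ ≤ (1 - a / t) ^ s := rpow_le_rpow_of_exponent_ge h0 hy1 hs.2.le
    have e3 : (1 - a / t) ^ s ≤ 1 := rpow_le_one hy0 hy1 hs.1.le
    rw [e1]
    have e4 : t ^ (s - 1) - t ^ (s - 1) * (1 - a / t) ^ s = t ^ (s - 1) * (1 - (1 - a / t) ^ s) := by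
      ring
    rw [e4, mul_pow]
    have e5 : (1 - (1 - a / t) ^ s) ^ 2 ≤ (a / t) ^ 2 := by
      apply pow_le_pow_left₀ (by linarith)
      linarith
    have e6 : t ^ (s - 3) * t ^ 2 = t ^ (s - 1) := by
      rw [← rpow_natCast t 2, ← rpow_add ht]; congr 1; push_cast; ring
    calc (t ^ (s - 1)) ^ 2 * (1 - (1 - a / t) ^ s) ^ 2 ≤ (t ^ (s - 1)) ^ 2 * (a / t) ^ 2 :=
          mul_le_mul_of_nonneg_left e5 (by positivity)
      _ = a ^ 2 * t ^ (s - 3) * t ^ (s - 1) := by
          rw [pow_two (t ^ (s - 1))]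
          nth_rewrite 1 [← e6]
          field_simp

/-- **The main estimate.** -/
theorem S_pos (hs : s ∈ Ioo (0 : ℝ) 1) (S : Finset ℕ) (x v : ℕ → ℝ) (hx : ∀ n ∈ S, 0 < x n)
    {a : ℝ} (ha : 0 < a) (hb : 0 < ∑ n ∈ S, v n * x n)
    (hab : Pf S x v s ≤ 2 * ((∑ n ∈ S, v n * x n) * ∑ n ∈ S, v n * x n ^ (1 + s))) :
    0 < ∑ n ∈ S, v n * x n * (x n + a) ^ s := by
  set β := ∑ n ∈ S, v n * x n with hβ
  set α := ∑ n ∈ S, v n * x n ^ (1 + s) with hα
  have hK := Kc_pos hs
  have hs0 := hs.1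
  have hs1 := hs.2
  have has : 0 < a ^ s := rpow_pos_of_pos ha _
  -- the integral of `J W`
  have hint : ∀ n ∈ S, Integrable (fun t => v n * x n * (x n / (x n + t) * Wf s a t))
      (volume.restrict (Ioi 0)) := fun n hn => (g_rep hs ha (hx n hn)).1.const_mul _
  have e1 : ∀ t, Jf S x v t * Wf s a t =
      ∑ n ∈ S, v n * x n * (x n / (x n + t) * Wf s a t) := by
    intro t
    unfold Jf
    rw [sum_mul]
    refine sum_congr rfl fun n _ => ?_
    ring
  have i1 : IntegrableOn (fun t => Jf S x v t * Wf s a t) (Ioi 0) := by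
    simp only [e1]
    exact integrable_finsetSum _ fun n hn => hint n hn
  have e2 : ∫ t in Ioi (0 : ℝ), Jf S x v t * Wf s a t =
      Kc s * (α + a ^ s * β - ∑ n ∈ S, v n * x n * (x n + a) ^ s) := by
    simp only [e1]
    rw [integral_finsetSum _ fun n hn => hint n hn, hα, hβ, mul_sum, ← sum_add_distrib,
      ← sum_sub_distrib, mul_sum]
    refine sum_congr rfl fun n hn => ?_
    rw [integral_const_mul, (g_rep hs ha (hx n hn)).2, rpow_add (hx n hn), rpow_one]
    ring
  -- the upper bound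
  have e3 : ∫ t in Ioi (0 : ℝ), Jf S x v t * Wf s a t ≤
      ∫ t in Ioi (0 : ℝ), ((1 / (2 * β)) * (Jf S x v t ^ 2 * t ^ (s - 1)) +
        (β / 2) * Vf s a t) := by
    refine setIntegral_mono_on i1 (((J2_int hs S x v hx).const_mul _).add
      ((Vf_int hs ha).1.const_mul _)) measurableSet_Ioi fun t ht => ?_
    have ht0 : (0 : ℝ) < t := ht
    have h3 : 0 < t ^ (s - 1) := rpow_pos_of_pos ht0 _
    have h4 := Wf_le hs ha ht0
    set τ := t ^ (s - 1)
    set J := Jf S x v t
    set W := Wf s a t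
    have h5 : 0 ≤ (J * τ - β * W) ^ 2 / (2 * β * τ) := by positivity
    have h6 : (J * τ - β * W) ^ 2 / (2 * β * τ) =
        1 / (2 * β) * (J ^ 2 * τ) + β / 2 * (W ^ 2 / τ) - J * W := by
      field_simp
      ring
    have h7 : W ^ 2 / τ ≤ Vf s a t := by
      rw [div_le_iff₀ h3]; exact h4
    have h8 : β / 2 * (W ^ 2 / τ) ≤ β / 2 * Vf s a t :=
      mul_le_mul_of_nonneg_left h7 (by positivity)
    linarith
  rw [integral_add ((J2_int hs S x v hx).const_mul _) ((Vf_int hs ha).1.const_mul _),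
    integral_const_mul, integral_const_mul, (Vf_int hs ha).2, e2] at e3
  have e4 := P_ge hs S x v hx
  have e5 : 1 / (2 * β) * (∫ t in Ioi (0 : ℝ), Jf S x v t ^ 2 * t ^ (s - 1)) ≤ Kc s * α := by
    have h1 : (∫ t in Ioi (0 : ℝ), Jf S x v t ^ 2 * t ^ (s - 1)) ≤ Kc s * (2 * (β * α)) :=
      e4.trans (mul_le_mul_of_nonneg_left hab hK.le)
    calc 1 / (2 * β) * (∫ t in Ioi (0 : ℝ), Jf S x v t ^ 2 * t ^ (s - 1)) ≤
        1 / (2 * β) * (Kc s * (2 * (β * α))) := mul_le_mul_of_nonneg_left h1 (by positivity)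
      _ = Kc s * α := by field_simp
  have e6 : (1 / s + 1 / (2 - s)) / 2 < Kc s := by
    have h1 := Kc_ge hs
    have h2 : 1 / (2 - s) < 1 / (1 - s) :=
      one_div_lt_one_div_of_lt (by linarith) (by linarith)
    have h3 : 1 / (2 * s) + 1 / (2 * (1 - s)) = (1 / s + 1 / (1 - s)) / 2 := by
      have : 1 - s ≠ 0 := by linarith
      field_simp
    rw [h3] at h1
    linarith
  have e7 : 0 < β * a ^ s * (Kc s - (1 / s + 1 / (2 - s)) / 2) := by
    have : 0 < Kc s - (1 / s + 1 / (2 - s)) / 2 := by linarith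
    positivity
  have e8 : β * a ^ s * (Kc s - (1 / s + 1 / (2 - s)) / 2) ≤
      Kc s * ∑ n ∈ S, v n * x n * (x n + a) ^ s := by
    nlinarith [e3, e5]
  exact pos_of_mul_pos_right (e7.trans_le e8) hK.le

end Pool.Agent.Lib.MP_f91407_an
end

section

/-!
# Reduction: `R ≥ 0` gives the sign of `∑ u_n (1 + r x_n)^p - r^p u_d`
-/

namespace Pool.Agent.Lib.MP_f91407_an

open Finset Set Real

variable {s : ℝ}

/-- The identity `R = M(1) M(p-1) - P/2`. -/
theorem R_identity (d : ℕ) (u σ : ℕ → ℝ) (T : ℕ → ℕ → ℝ) (h0 : σ 0 = 0)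
    (hσ : ∀ n < d, 0 < σ (n + 1)) (hu : ∀ n < d, u n = -(σ (n + 1) ^ (2 + s) * u (n + 1)))
    (hsum : ∑ n ∈ range (d + 1), u n = 0)
    (hT : ∀ n ≤ d, ∀ m < d, T n m = σ (m + 1) / (σ n + σ (m + 1)))
    (hTd : ∀ n ≤ d, T n d = 1) :
    ∑ n ∈ range (d + 1), ∑ m ∈ range (d + 1), u n * u m * T n m =
      (∑ n ∈ range d, u (n + 1) * σ (n + 1)) * (∑ n ∈ range d, u (n + 1) * σ (n + 1) ^ (1 + s)) -
      Pf (range d) (fun n => σ (n + 1)) (fun n => u (n + 1)) s / 2 := by
  have hnn : ∀ n ≤ d, 0 ≤ σ n := by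
    intro n hn
    rcases n with _ | n
    · rw [h0]
    · exact (hσ n (by omega)).le
  have e1 : ∀ n ∈ range (d + 1), ∀ m ∈ range d, u n * u m * T n m =
      -(u n * (u (m + 1) * σ (m + 1) ^ (2 + s))) +
        (u n * σ n) * (u (m + 1) * σ (m + 1) ^ (1 + s)) -
        u n * σ n ^ 2 * (u (m + 1) * σ (m + 1) ^ (1 + s)) / (σ n + σ (m + 1)) := by
    intro n hn m hm
    have hn' : n ≤ d := by simpa [Nat.lt_succ_iff] using hn
    have hm' : m < d := by simpa using hm
    rw [hT n hn' m hm', hu m hm']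
    have p1 := hσ m hm'
    have p2 := hnn n hn'
    have e : σ (m + 1) ^ (2 + s) = σ (m + 1) * σ (m + 1) ^ (1 + s) := by
      rw [show (2 : ℝ) + s = 1 + (1 + s) by ring, rpow_add p1, rpow_one]
    rw [e]
    have : σ n + σ (m + 1) ≠ 0 := by positivity
    field_simp
    ring
  have e2 : ∑ n ∈ range (d + 1), ∑ m ∈ range (d + 1), u n * u m * T n m =
      ∑ n ∈ range (d + 1), ∑ m ∈ range d, u n * u m * T n m := by
    have : ∀ n ∈ range (d + 1), ∑ m ∈ range (d + 1), u n * u m * T n m =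
        (∑ m ∈ range d, u n * u m * T n m) + u n * u d := by
      intro n hn
      rw [sum_range_succ, hTd n (by simpa [Nat.lt_succ_iff] using hn), mul_one]
    rw [sum_congr rfl this, sum_add_distrib, ← sum_mul, hsum, zero_mul, add_zero]
  rw [e2, sum_congr rfl fun n hn => sum_congr rfl fun m hm => e1 n hn m hm]
  have e3 : ∀ n ∈ range (d + 1), ∑ m ∈ range d,
      (-(u n * (u (m + 1) * σ (m + 1) ^ (2 + s))) +
        (u n * σ n) * (u (m + 1) * σ (m + 1) ^ (1 + s)) -
        u n * σ n ^ 2 * (u (m + 1) * σ (m + 1) ^ (1 + s)) / (σ n + σ (m + 1))) =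
      u n * (-(∑ m ∈ range d, u (m + 1) * σ (m + 1) ^ (2 + s))) +
      (u n * σ n) * (∑ m ∈ range d, u (m + 1) * σ (m + 1) ^ (1 + s)) -
      ∑ m ∈ range d, u n * σ n ^ 2 * (u (m + 1) * σ (m + 1) ^ (1 + s)) / (σ n + σ (m + 1)) := by
    intro n _
    rw [sum_sub_distrib, sum_add_distrib, sum_neg_distrib, ← mul_sum, ← mul_sum]
    ring
  rw [sum_congr rfl e3, sum_sub_distrib, sum_add_distrib, ← sum_mul, ← sum_mul, hsum, zero_mul,
    zero_add]
  have e4 : ∑ n ∈ range (d + 1), u n * σ n = ∑ n ∈ range d, u (n + 1) * σ (n + 1) := by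
    rw [sum_range_succ', h0, mul_zero, add_zero]
  rw [e4]
  congr 1
  rw [sum_range_succ']
  have e5 : ∑ m ∈ range d, u 0 * σ 0 ^ 2 * (u (m + 1) * σ (m + 1) ^ (1 + s)) /
      (σ 0 + σ (m + 1)) = 0 := by
    refine sum_eq_zero fun m _ => ?_
    rw [h0]; simp
  rw [e5, add_zero]
  unfold Pf
  rw [eq_div_iff two_ne_zero, mul_two]
  have e6 : ∑ n ∈ range d, ∑ m ∈ range d,
      u (n + 1) * σ (n + 1) ^ 2 * (u (m + 1) * σ (m + 1) ^ (1 + s)) / (σ (n + 1) + σ (m + 1)) =
      ∑ n ∈ range d, ∑ m ∈ range d,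
      u (m + 1) * σ (m + 1) ^ 2 * (u (n + 1) * σ (n + 1) ^ (1 + s)) /
        (σ (m + 1) + σ (n + 1)) := by
    rw [sum_comm]
  nth_rewrite 2 [e6]
  rw [← sum_add_distrib]
  refine sum_congr rfl fun n hn => ?_
  rw [← sum_add_distrib]
  refine sum_congr rfl fun m hm => ?_
  have p1 := hσ n (by simpa using hn)
  have p2 := hσ m (by simpa using hm)
  rw [add_comm (σ (m + 1)) (σ (n + 1))]
  field_simp

/-- From `S(a) > 0` to the sign of `T(r)`. -/
theorem T_pos (hs : s ∈ Ioo (0 : ℝ) 1) (d : ℕ) (u σ : ℕ → ℝ) (h0 : σ 0 = 0)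
    (hσ : ∀ n < d, 0 < σ (n + 1)) (hu : ∀ n < d, u n = -(σ (n + 1) ^ (2 + s) * u (n + 1)))
    (hsum : ∑ n ∈ range (d + 1), u n = 0)
    (hS : ∀ a : ℝ, 0 < a → 0 < ∑ n ∈ range d, u (n + 1) * σ (n + 1) * (σ (n + 1) + a) ^ s)
    {r : ℝ} (hr : 0 < r) :
    0 < ∑ n ∈ range (d + 1), u n * (1 + r * σ n) ^ (2 + s) - r ^ (2 + s) * u d := by
  have hs0 := hs.1
  have hnn : ∀ n ∈ range (d + 1), 0 ≤ σ n := by
    intro n hn
    have hn' : n ≤ d := by simpa [Nat.lt_succ_iff] using hn
    rcases n with _ | n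
    · rw [h0]
    · exact (hσ n (by omega)).le
  -- first integration
  set Ψ : ℝ → ℝ := fun b => ∑ n ∈ range (d + 1), u n * (1 + b * σ n) ^ (1 + s) with hΨ
  have hΨ0 : Ψ 0 = 0 := by
    simp only [hΨ]
    simpa using hsum
  have hΨd : ∀ b : ℝ, 0 < b → HasDerivAt Ψ
      (∑ n ∈ range (d + 1), u n * (σ n * (1 + s) * (1 + b * σ n) ^ (1 + s - 1))) b := by
    intro b hb
    simp only [hΨ]
    apply HasDerivAt.fun_sum
    intro n hn
    apply HasDerivAt.const_mul
    have h1 : HasDerivAt (fun b => 1 + b * σ n) (σ n) b := by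
      simpa using ((hasDerivAt_id b).mul_const (σ n)).const_add 1
    have := hnn n hn
    have h2 := h1.rpow_const (p := 1 + s) (Or.inl (by positivity))
    exact h2
  have hΨc : ContinuousOn Ψ (Ici 0) := by
    simp only [hΨ]
    apply continuousOn_finsetSum
    intro n hn
    apply ContinuousOn.mul continuousOn_const
    apply ContinuousOn.rpow_const (by fun_prop)
    intro b hb
    left
    have := hnn n hn
    have : (0 : ℝ) ≤ b := hb
    positivity
  have hΨm : StrictMonoOn Ψ (Ici 0) := by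
    apply strictMonoOn_of_deriv_pos (convex_Ici 0) hΨc
    intro b hb
    rw [interior_Ici] at hb
    have hb0 : (0 : ℝ) < b := hb
    rw [(hΨd b hb0).deriv]
    have h1 := hS (1 / b) (by positivity)
    have h2 : ∑ n ∈ range (d + 1), u n * (σ n * (1 + s) * (1 + b * σ n) ^ (1 + s - 1)) =
        (1 + s) * b ^ s * ∑ n ∈ range d, u (n + 1) * σ (n + 1) * (σ (n + 1) + 1 / b) ^ s := by
      rw [sum_range_succ', h0, mul_sum]
      simp only [zero_mul, mul_zero, add_zero]
      refine sum_congr rfl fun n hn => ?_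
      have p1 := hσ n (by simpa using hn)
      rw [show (1 : ℝ) + s - 1 = s by ring,
        show 1 + b * σ (n + 1) = b * (σ (n + 1) + 1 / b) by field_simp; ring,
        mul_rpow hb0.le (by positivity)]
      ring
    rw [h2]
    have : 0 < b ^ s := rpow_pos_of_pos hb0 _
    positivity
  have hΨp : ∀ b : ℝ, 0 < b → 0 < Ψ b := by
    intro b hb
    rw [← hΨ0]
    exact hΨm (by simp) (by simpa using hb.le) hb
  -- second integration
  set W : ℝ → ℝ := fun a => ∑ n ∈ range (d + 1), u n * (a + σ n) ^ (2 + s) - u d with hW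
  have hW0 : W 0 = 0 := by
    simp only [hW, zero_add]
    rw [sum_range_succ', h0, zero_rpow (by linarith), mul_zero, add_zero]
    have e : ∀ n ∈ range d, u (n + 1) * σ (n + 1) ^ (2 + s) = -u n := by
      intro n hn
      rw [hu n (by simpa using hn)]; ring
    rw [sum_congr rfl e, sum_neg_distrib]
    rw [sum_range_succ] at hsum
    linarith
  have hWd : ∀ a : ℝ, 0 < a → HasDerivAt W
      (∑ n ∈ range (d + 1), u n * (1 * (2 + s) * (a + σ n) ^ (2 + s - 1))) a := by
    intro a ha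
    simp only [hW]
    apply HasDerivAt.sub_const
    apply HasDerivAt.fun_sum
    intro n hn
    apply HasDerivAt.const_mul
    have h1 : HasDerivAt (fun a => a + σ n) 1 a := (hasDerivAt_id a).add_const _
    have := hnn n hn
    exact h1.rpow_const (p := 2 + s) (Or.inl (by positivity))
  have hWc : ContinuousOn W (Ici 0) := by
    simp only [hW]
    apply ContinuousOn.sub _ continuousOn_const
    apply continuousOn_finsetSum
    intro n hn
    apply ContinuousOn.mul continuousOn_const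
    apply ContinuousOn.rpow_const (by fun_prop)
    intro b hb
    right
    linarith
  have hWm : StrictMonoOn W (Ici 0) := by
    apply strictMonoOn_of_deriv_pos (convex_Ici 0) hWc
    intro a ha
    rw [interior_Ici] at ha
    have ha0 : (0 : ℝ) < a := ha
    rw [(hWd a ha0).deriv]
    have h1 := hΨp (1 / a) (by positivity)
    have h2 : ∑ n ∈ range (d + 1), u n * (1 * (2 + s) * (a + σ n) ^ (2 + s - 1)) =
        (2 + s) * a ^ (1 + s) * Ψ (1 / a) := by
      simp only [hΨ]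
      rw [mul_sum]
      refine sum_congr rfl fun n hn => ?_
      have p1 := hnn n hn
      rw [show (2 : ℝ) + s - 1 = 1 + s by ring,
        show a + σ n = a * (1 + 1 / a * σ n) by field_simp,
        mul_rpow ha0.le (by positivity)]
      ring
    rw [h2]
    have : 0 < a ^ (1 + s) := rpow_pos_of_pos ha0 _
    positivity
  have hWp : 0 < W (1 / r) := by
    rw [← hW0]
    exact hWm (by simp) (by simp; positivity) (by positivity)
  have h3 : ∑ n ∈ range (d + 1), u n * (1 + r * σ n) ^ (2 + s) - r ^ (2 + s) * u d =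
      r ^ (2 + s) * W (1 / r) := by
    simp only [hW]
    rw [mul_sub, mul_sum]
    congr 1
    refine sum_congr rfl fun n hn => ?_
    have p1 := hnn n hn
    rw [show 1 + r * σ n = r * (1 / r + σ n) by field_simp, mul_rpow hr.le (by positivity)]
    ring
  rw [h3]
  have : 0 < r ^ (2 + s) := rpow_pos_of_pos hr _
  positivity

/-- **Reduction**: if `R ≥ 0` then `T(r)` has the sign of `M(1)`, which is not zero. -/
theorem T_sign (hs : s ∈ Ioo (0 : ℝ) 1) (d : ℕ) (hd : 0 < d) (u σ : ℕ → ℝ) (T : ℕ → ℕ → ℝ)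
    (h0 : σ 0 = 0) (hσ : ∀ n < d, 0 < σ (n + 1))
    (hinj : ∀ n < d, ∀ m < d, n ≠ m → σ (n + 1) ≠ σ (m + 1))
    (hu : ∀ n < d, u n = -(σ (n + 1) ^ (2 + s) * u (n + 1))) (hud : u d ≠ 0)
    (hsum : ∑ n ∈ range (d + 1), u n = 0)
    (hT : ∀ n ≤ d, ∀ m < d, T n m = σ (m + 1) / (σ n + σ (m + 1)))
    (hTd : ∀ n ≤ d, T n d = 1)
    (hR : 0 ≤ ∑ n ∈ range (d + 1), ∑ m ∈ range (d + 1), u n * u m * T n m) :
    0 < (∑ n ∈ range d, u (n + 1) * σ (n + 1)) *
        (∑ n ∈ range d, u (n + 1) * σ (n + 1) ^ (1 + s)) ∧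
    ∀ r : ℝ, 0 < r → 0 < (∑ n ∈ range d, u (n + 1) * σ (n + 1)) *
      (∑ n ∈ range (d + 1), u n * (1 + r * σ n) ^ (2 + s) - r ^ (2 + s) * u d) := by
  have hx : ∀ n ∈ range d, 0 < (fun n => σ (n + 1)) n := fun n hn => hσ n (by simpa using hn)
  have hP : 0 < Pf (range d) (fun n => σ (n + 1)) (fun n => u (n + 1)) s := by
    refine P_pos hs _ _ _ hx ?_ (n₀ := d - 1) (by simp; omega) ?_
    · intro n hn m hm hne
      exact hinj n (by simpa using hn) m (by simpa using hm) hne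
    · show u (d - 1 + 1) ≠ 0
      rwa [Nat.sub_add_cancel hd]
  have hid := R_identity (s := s) d u σ T h0 hσ hu hsum hT hTd
  have hprod : 0 < (∑ n ∈ range d, u (n + 1) * σ (n + 1)) *
        (∑ n ∈ range d, u (n + 1) * σ (n + 1) ^ (1 + s)) := by
    rw [hid] at hR
    linarith
  refine ⟨hprod, fun r hr => ?_⟩
  rcases lt_trichotomy (∑ n ∈ range d, u (n + 1) * σ (n + 1)) 0 with hb | hb | hb
  · -- replace `u` by `-u`
    have hPn : Pf (range d) (fun n => σ (n + 1)) (fun n => -u (n + 1)) s =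
        Pf (range d) (fun n => σ (n + 1)) (fun n => u (n + 1)) s := by
      unfold Pf
      refine sum_congr rfl fun n _ => sum_congr rfl fun m _ => ?_
      ring
    have h1 : ∀ a : ℝ, 0 < a →
        0 < ∑ n ∈ range d, (-u (n + 1)) * σ (n + 1) * (σ (n + 1) + a) ^ s := by
      intro a ha
      refine S_pos hs (range d) (fun n => σ (n + 1)) (fun n => -u (n + 1)) hx ha ?_ ?_
      · simp only [neg_mul, sum_neg_distrib]; linarith
      · rw [hPn]
        simp only [neg_mul, sum_neg_distrib]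
        rw [hid] at hR
        linarith
    have h2 := T_pos hs d (fun n => -u n) σ h0 hσ (by
      intro n hn
      rw [hu n hn]; ring) (by rw [sum_neg_distrib, hsum, neg_zero]) h1 hr
    have h3 : ∑ n ∈ range (d + 1), (-u n) * (1 + r * σ n) ^ (2 + s) - r ^ (2 + s) * (-u d) =
        -(∑ n ∈ range (d + 1), u n * (1 + r * σ n) ^ (2 + s) - r ^ (2 + s) * u d) := by
      simp only [neg_mul, sum_neg_distrib]
      ring
    rw [h3] at h2
    exact mul_pos_of_neg_of_neg hb (by linarith)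
  · rw [hb, zero_mul] at hprod
    exact absurd hprod (lt_irrefl _)
  · have h1 : ∀ a : ℝ, 0 < a →
        0 < ∑ n ∈ range d, u (n + 1) * σ (n + 1) * (σ (n + 1) + a) ^ s := by
      intro a ha
      refine S_pos hs (range d) (fun n => σ (n + 1)) (fun n => u (n + 1)) hx ha hb ?_
      rw [hid] at hR
      linarith
    exact mul_pos hb (T_pos hs d u σ h0 hσ hu hsum h1 hr)

end Pool.Agent.Lib.MP_f91407_an
end
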