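import Pool.Agent.Lib.MP_f91407_an.NoJump

section

/-!
# A preserver is a power function `c x^p` with `p ≥ 1`
-/

namespace Pool.Agent.Lib.MP_f91407_an

open Polynomial NNReal

/-- A monotone additive function is linear. -/
theorem additive_mono_linear (g : ℝ → ℝ) (hadd : ∀ a b, g (a + b) = g a + g b)
    (hmono : ∀ a b, a ≤ b → g a ≤ g b) (s : ℝ) : g s = s * g 1 := by
  have h0 : g 0 = 0 := by have := hadd 0 0; rw [add_zero] at this; linarith
  have hnat : ∀ (n : ℕ) (a : ℝ), g (n * a) = n * g a := by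
    intro n a
    induction n with
    | zero => simp [h0]
    | succ n ih => push_cast; rw [add_mul, one_mul, hadd, ih]; ring
  have hneg : ∀ a, g (-a) = -g a := by
    intro a
    have := hadd a (-a)
    rw [add_neg_cancel, h0] at this
    linarith
  have hint : ∀ k : ℤ, g k = k * g 1 := by
    intro k
    rcases Int.eq_nat_or_neg k with ⟨n, rfl | rfl⟩
    · have := hnat n 1; rw [mul_one] at this; simpa using this
    · have := hnat n 1; rw [mul_one] at this
      push_cast; rw [hneg, this]; ring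
  have hp : 0 ≤ g 1 := by have := hmono 0 1 (by norm_num); rwa [h0] at this
  have key : ∀ N : ℕ, (N : ℝ) * |g s - s * g 1| ≤ g 1 := by
    intro N
    have h1 := hnat N s
    set k := ⌊(N : ℝ) * s⌋ with hk
    have k1 : (k : ℝ) ≤ N * s := Int.floor_le _
    have k2 : (N : ℝ) * s ≤ k + 1 := (Int.lt_floor_add_one _).le
    have g1 := hmono _ _ k1
    have g2 := hmono _ _ k2
    rw [hint k, h1] at g1
    have h2 := hint (k + 1)
    push_cast at h2
    rw [h1, h2] at g2
    have m1 := mul_le_mul_of_nonneg_right k1 hp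
    have m2 := mul_le_mul_of_nonneg_right k2 hp
    rw [← abs_of_nonneg (Nat.cast_nonneg (α := ℝ) N), ← abs_mul, abs_le]
    constructor <;> nlinarith
  by_contra hne
  have hpos : 0 < |g s - s * g 1| := abs_pos.mpr (sub_ne_zero.mpr hne)
  obtain ⟨N, hN⟩ := exists_nat_gt (g 1 / |g s - s * g 1|)
  rw [div_lt_iff₀ hpos] at hN
  linarith [key N]

variable {f : ℝ → ℝ}

theorem PresR.power (hf : PresR f) :
    ∃ c p : ℝ, 0 < c ∧ 1 ≤ p ∧ ∀ x, 0 < x → f x = c * x ^ p := by
  set G : ℝ → ℝ := fun s => Real.log (f (Real.exp s)) with hG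
  have fe : ∀ s, 0 < f (Real.exp s) := fun s => hf.pos (Real.exp_pos s)
  have hmono : ∀ a b, a ≤ b → G a ≤ G b := by
    intro a b hab
    exact Real.log_le_log (fe a) (hf.mono (Real.exp_pos a) (Real.exp_le_exp.mpr hab))
  have hcvx : ∀ s h, 0 < h → 2 * G s ≤ G (s + h) + G (s - h) := by
    intro s h hh
    have h1 := hf.convex_ineq (Real.exp_pos s) (l := Real.exp h) (by
      rw [← Real.exp_zero]; exact Real.exp_lt_exp.mpr hh)
    rw [← Real.exp_add, ← Real.exp_sub, add_comm h s] at h1
    have h2 := Real.log_le_log (by have := fe s; positivity) h1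
    rw [Real.log_mul (fe _).ne' (fe _).ne', Real.log_pow] at h2
    push_cast at h2
    exact h2
  have hrc : ∀ s (N : ℕ), 0 < N → (N : ℝ) * (G (s + 1 / N) - G s) ≤ G (s + 1) - G s := by
    intro s N hN
    have hN' : (0 : ℝ) < N := by exact_mod_cast hN
    set h : ℝ := 1 / N with hh
    have hh0 : 0 < h := by positivity
    have hd : ∀ k : ℕ, G (s + h) - G s ≤ G (s + (k + 1 : ℕ) * h) - G (s + k * h) := by
      intro k
      induction k with
      | zero => simp
      | succ k ih =>
        have h1 := hcvx (s + (k + 1 : ℕ) * h) h hh0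
        have e1 : s + (k + 1 : ℕ) * h + h = s + (k + 1 + 1 : ℕ) * h := by push_cast; ring
        have e2 : s + (k + 1 : ℕ) * h - h = s + k * h := by push_cast; ring
        rw [e1, e2] at h1
        linarith
    have hsum : ∀ k : ℕ, (k : ℝ) * (G (s + h) - G s) ≤ G (s + k * h) - G s := by
      intro k
      induction k with
      | zero => simp
      | succ k ih =>
        have := hd k
        have e : ((k + 1 : ℕ) : ℝ) * (G (s + h) - G s) =
          (k : ℝ) * (G (s + h) - G s) + (G (s + h) - G s) := by push_cast; ring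
        rw [e]; linarith
    have := hsum N
    rwa [hh, mul_one_div_cancel hN'.ne', ← hh] at this
  have hmid : ∀ a b, G a + G b ≤ 2 * G ((a + b) / 2) := by
    intro a b
    set c := (a + b) / 2 with hc
    have key : ∀ N : ℕ, 0 < N → (N : ℝ) * (G a + G b - 2 * G c) ≤ 2 * (G (c + 1) - G c) := by
      intro N hN
      have hN' : (0 : ℝ) < N := by exact_mod_cast hN
      have h1 := hf.mid (Real.exp_pos a) (Real.exp_pos b) N
      have e1 : Real.sqrt (Real.exp a * Real.exp b) = Real.exp c := by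
        rw [← Real.exp_add, hc, Real.sqrt_eq_iff_mul_self_eq (Real.exp_pos _).le
          (Real.exp_pos _).le, ← Real.exp_add]
        congr 1; ring
      rw [e1] at h1
      have e2 : Real.exp c * (((N : ℝ) + 2) / (N + 1)) ≤ Real.exp (c + 1 / N) := by
        rw [Real.exp_add]
        apply mul_le_mul_of_nonneg_left _ (Real.exp_pos c).le
        have := Real.add_one_le_exp (1 / (N : ℝ))
        refine le_trans ?_ this
        rw [div_le_iff₀ (by positivity)]
        have : 1 / (N : ℝ) * N = 1 := by field_simp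
        have h3 : 0 < 1 / (N : ℝ) := by positivity
        nlinarith
      have h2 : f (Real.exp c * (((N : ℝ) + 2) / (N + 1))) ≤ f (Real.exp (c + 1 / N)) :=
        hf.mono (by have := Real.exp_pos c; positivity) e2
      have h3 : f (Real.exp a) * f (Real.exp b) ≤ f (Real.exp (c + 1 / N)) ^ 2 :=
        h1.trans (pow_le_pow_left₀ (hf.nonneg _) h2 2)
      have h4 := Real.log_le_log (mul_pos (fe a) (fe b)) h3
      rw [Real.log_mul (fe _).ne' (fe _).ne', Real.log_pow] at h4
      push_cast at h4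
      have h5 : G a + G b ≤ 2 * G (c + 1 / N) := h4
      have h6 := hrc c N hN
      nlinarith
    by_contra hlt
    push Not at hlt
    have hpos : 0 < G a + G b - 2 * G c := by linarith
    obtain ⟨N, hN⟩ := exists_nat_gt (2 * (G (c + 1) - G c) / (G a + G b - 2 * G c))
    rw [div_lt_iff₀ hpos] at hN
    rcases Nat.eq_zero_or_pos N with h0 | h0
    · subst h0
      have := hmono c (c + 1) (by linarith)
      simp at hN
      linarith
    · linarith [key N h0]
  have hJ : ∀ a b, G a + G b = 2 * G ((a + b) / 2) := by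
    intro a b
    apply le_antisymm (hmid a b)
    rcases lt_trichotomy a b with h | h | h
    · have := hcvx ((a + b) / 2) ((b - a) / 2) (by linarith)
      rw [show (a + b) / 2 + (b - a) / 2 = b by ring,
        show (a + b) / 2 - (b - a) / 2 = a by ring] at this
      linarith
    · subst h; rw [show (a + a) / 2 = a by ring]; linarith
    · have := hcvx ((a + b) / 2) ((a - b) / 2) (by linarith)
      rw [show (a + b) / 2 + (a - b) / 2 = a by ring,
        show (a + b) / 2 - (a - b) / 2 = b by ring] at this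
      linarith
  have hlin : ∀ s, G s - G 0 = s * (G 1 - G 0) := by
    intro s
    refine additive_mono_linear (fun s => G s - G 0) ?_ ?_ s
    · intro a b
      have h1 := hJ a b
      have h2 := hJ (a + b) 0
      rw [add_zero] at h2
      linarith
    · intro a b hab
      have := hmono a b hab
      linarith
  refine ⟨Real.exp (G 0), G 1 - G 0, Real.exp_pos _, ?_, ?_⟩
  · -- `p ≥ 1`
    have h1 := hf.two_mul (x := 1) one_pos (b := 2) (by norm_num)
    have h2 := hlin (Real.log 2)
    have f1 := fe 0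
    have f2 := fe (Real.log 2)
    have g0 : G 0 = Real.log (f 1) := by simp only [hG, Real.exp_zero]
    have g2 : G (Real.log 2) = Real.log (f 2) := by
      simp only [hG]; rw [Real.exp_log (by norm_num)]
    rw [Real.exp_zero] at f1
    have h3 := Real.log_le_log (by positivity) h1
    rw [Real.log_mul (by norm_num) f1.ne', ← g0, ← g2] at h3
    have hl2 : 0 < Real.log 2 := Real.log_pos (by norm_num)
    have h4 : Real.log 2 * 1 ≤ Real.log 2 * (G 1 - G 0) := by linarith
    exact le_of_mul_le_mul_left h4 hl2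
  · intro x hx
    have h1 := hlin (Real.log x)
    have h2 : G (Real.log x) = Real.log (f x) := by
      simp only [hG]; rw [Real.exp_log hx]
    have h3 : Real.log (f x) = G 0 + Real.log x * (G 1 - G 0) := by rw [← h2]; linarith
    rw [← Real.exp_log (hf.pos hx), h3, Real.exp_add, Real.rpow_def_of_pos hx]

end Pool.Agent.Lib.MP_f91407_an
end

section

/-!
# The polynomials `∑ (C(n,j) / n^j)^p z^j`: growth on the positive axis
-/

namespace Pool.Agent.Lib.MP_f91407_an

open Polynomial NNReal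

/-- Normalised factorisation. -/
theorem exists_factor_one (P : ℝ[X]) (hnn : ∀ i, 0 ≤ P.coeff i)
    (hr : ∀ z : ℂ, aeval z P = 0 → z.im = 0) (h1 : P.coeff 0 = 1) :
    ∃ s : Multiset ℝ, (∀ ω ∈ s, 0 < ω) ∧ P = (s.map fun ω => 1 + C ω * X).prod := by
  have h0 : P ≠ 0 := by rintro rfl; simp at h1
  obtain ⟨s, hs, hP⟩ := exists_factor P h0 hnn hr
  have hc : P.leadingCoeff * s.prod = 1 := by
    have : (C P.leadingCoeff * (s.map fun ω => X + C ω).prod).coeff 0 =
        P.leadingCoeff * s.prod := by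
      rw [coeff_C_mul, coeff_zero_eq_eval_zero, eval_multiset_prod, Multiset.map_map]
      simp
    rw [← this, ← hP, h1]
  have hprod : s.prod ≠ 0 := by rintro h; rw [h, mul_zero] at hc; exact zero_ne_one hc
  have hs' : ∀ ω ∈ s, 0 < ω := by
    intro ω hω
    rcases (hs ω hω).lt_or_eq with h | h
    · exact h
    · exfalso; apply hprod; rw [Multiset.prod_eq_zero_iff, h]; exact hω
  refine ⟨s.map fun ω => ω⁻¹, ?_, ?_⟩
  · intro ω hω
    obtain ⟨r, hr1, rfl⟩ := Multiset.mem_map.mp hω
    exact inv_pos.mpr (hs' r hr1)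
  · rw [Multiset.map_map]
    have key : ∀ s : Multiset ℝ, (∀ ω ∈ s, 0 < ω) →
        (s.map fun ω => X + C ω).prod =
          C s.prod * (s.map ((fun ω => 1 + C ω * X) ∘ fun ω => ω⁻¹)).prod := by
      intro s
      induction s using Multiset.induction_on with
      | empty => intro _; simp
      | cons a s ih =>
        intro hs
        rw [Multiset.map_cons, Multiset.prod_cons, Multiset.prod_cons, Multiset.map_cons,
          Multiset.prod_cons, ih fun ω hω => hs ω (Multiset.mem_cons_of_mem hω)]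
        have ha := (hs a (Multiset.mem_cons_self a s)).ne'
        have e : (X + C a : ℝ[X]) = C a * (1 + C a⁻¹ * X) := by
          rw [mul_add, mul_one, ← mul_assoc, ← C_mul, mul_inv_cancel₀ ha, C_1, one_mul, add_comm]
        simp only [Function.comp_apply]
        rw [e, C_mul]
        ring
    conv_lhs => rw [hP, key s hs', ← mul_assoc, ← C_mul, hc, C_1, one_mul]

/-- The coefficients of `(1 + z / n)^n`. -/
noncomputable def An (n j : ℕ) : ℝ := n.choose j / (n : ℝ) ^ j

theorem An_nonneg (n j : ℕ) : 0 ≤ An n j := by unfold An; positivity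

theorem An_zero (n : ℕ) : An n 0 = 1 := by simp [An]

theorem An_eq_zero {n j : ℕ} (h : n < j) : An n j = 0 := by
  simp [An, Nat.choose_eq_zero_of_lt h]

theorem An_le (n j : ℕ) (hn : 0 < n) : An n j ≤ 1 / j.factorial := by
  have h := Nat.choose_le_pow_div (α := ℝ) j n
  unfold An
  have h1 : (0 : ℝ) < (n : ℝ) ^ j := by positivity
  rw [div_le_iff₀ h1]
  calc (n.choose j : ℝ) ≤ (n : ℝ) ^ j / j.factorial := h
    _ = 1 / j.factorial * (n : ℝ) ^ j := by ring

theorem An_ge (n j : ℕ) (hn : 0 < n) : (1 - (j : ℝ) ^ 2 / n) / j.factorial ≤ An n j := by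
  have hn' : (0 : ℝ) < n := by exact_mod_cast hn
  rcases Nat.lt_or_ge n j with h | h
  · rw [An_eq_zero h]
    apply div_nonpos_of_nonpos_of_nonneg _ (by positivity)
    have h' : (n : ℝ) < j := by exact_mod_cast h
    rw [sub_nonpos, le_div_iff₀ hn']
    have hn1 : (1 : ℝ) ≤ n := by exact_mod_cast hn
    nlinarith
  · have h1 : (n + 1 - j) ^ j ≤ n.descFactorial j := Nat.pow_sub_le_descFactorial n j
    rw [Nat.descFactorial_eq_factorial_mul_choose] at h1
    have h2 : ((n : ℝ) - j) ^ j ≤ j.factorial * n.choose j := by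
      have h3 : (((n + 1 - j : ℕ) : ℝ)) ^ j ≤ j.factorial * n.choose j := by exact_mod_cast h1
      refine le_trans ?_ h3
      apply pow_le_pow_left₀
      · have : (j : ℝ) ≤ n := by exact_mod_cast h
        linarith
      · rw [Nat.cast_sub (by omega)]; push_cast; linarith
    have h4 := one_add_mul_le_pow (a := -((j : ℝ) / n)) (by
      have : (j : ℝ) / n ≤ 1 := by rw [div_le_one hn']; exact_mod_cast h
      linarith) j
    have h5 : (1 + -((j : ℝ) / n)) ^ j * (n : ℝ) ^ j = ((n : ℝ) - j) ^ j := by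
      rw [← mul_pow]; congr 1; field_simp; ring
    have hf : (0 : ℝ) < j.factorial := by exact_mod_cast Nat.factorial_pos j
    unfold An
    rw [div_le_div_iff₀ hf (by positivity)]
    calc (1 - (j : ℝ) ^ 2 / n) * (n : ℝ) ^ j = (1 + j * -((j : ℝ) / n)) * (n : ℝ) ^ j := by ring
      _ ≤ (1 + -((j : ℝ) / n)) ^ j * (n : ℝ) ^ j :=
          mul_le_mul_of_nonneg_right h4 (by positivity)
      _ = ((n : ℝ) - j) ^ j := h5
      _ ≤ j.factorial * n.choose j := h2
      _ = n.choose j * j.factorial := mul_comm _ _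

theorem sum_rpow_le {ι : Type*} (s : Finset ι) (x : ι → ℝ) (hx : ∀ i ∈ s, 0 ≤ x i) {p : ℝ}
    (hp : 1 ≤ p) : ∑ i ∈ s, x i ^ p ≤ (∑ i ∈ s, x i) ^ p := by
  set S := ∑ i ∈ s, x i with hS
  have hS0 : 0 ≤ S := Finset.sum_nonneg hx
  have h1 : ∀ i ∈ s, x i ^ p ≤ x i * S ^ (p - 1) := by
    intro i hi
    rcases (hx i hi).lt_or_eq with h | h
    · have e : x i ^ p = x i * x i ^ (p - 1) := by
        nth_rewrite 2 [← Real.rpow_one (x i)]
        rw [← Real.rpow_add h]; congr 1; ring
      rw [e]
      apply mul_le_mul_of_nonneg_left _ h.le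
      exact Real.rpow_le_rpow h.le (Finset.single_le_sum hx hi) (by linarith)
    · rw [← h, Real.zero_rpow (by linarith), zero_mul]
  calc ∑ i ∈ s, x i ^ p ≤ ∑ i ∈ s, x i * S ^ (p - 1) := Finset.sum_le_sum h1
    _ = S * S ^ (p - 1) := by rw [← Finset.sum_mul]
    _ = S ^ p := by
        rcases hS0.lt_or_eq with h | h
        · nth_rewrite 1 [← Real.rpow_one S]
          rw [← Real.rpow_add h]; congr 1; ring
        · rw [← h, Real.zero_rpow (by linarith : p ≠ 0), zero_mul]

/-- The value of `∑ (A n j)^p t^j` at `t ≥ 0`. -/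
noncomputable def PV (p : ℝ) (n : ℕ) (t : ℝ) : ℝ :=
  ∑ j ∈ Finset.range (n + 1), An n j ^ p * t ^ j

theorem term_eq {p t : ℝ} (hp : 1 ≤ p) (ht : 0 ≤ t) (n j : ℕ) :
    An n j ^ p * t ^ j = (An n j * (t ^ (1 / p)) ^ j) ^ p := by
  have hp0 : p ≠ 0 := by linarith
  have h1 : 0 ≤ t ^ (1 / p) := Real.rpow_nonneg ht _
  rw [Real.mul_rpow (An_nonneg n j) (by positivity)]
  congr 1
  rw [← Real.rpow_natCast (t ^ (1 / p)), ← Real.rpow_mul ht, ← Real.rpow_mul ht,
    ← Real.rpow_natCast t]
  congr 1
  field_simp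

theorem PV_le {p t : ℝ} (hp : 1 ≤ p) (ht : 0 ≤ t) {n : ℕ} (hn : 0 < n) :
    PV p n t ≤ Real.exp (p * t ^ (1 / p)) := by
  unfold PV
  have h1 : 0 ≤ t ^ (1 / p) := Real.rpow_nonneg ht _
  calc ∑ j ∈ Finset.range (n + 1), An n j ^ p * t ^ j
      = ∑ j ∈ Finset.range (n + 1), (An n j * (t ^ (1 / p)) ^ j) ^ p :=
        Finset.sum_congr rfl fun j _ => term_eq hp ht n j
    _ ≤ (∑ j ∈ Finset.range (n + 1), An n j * (t ^ (1 / p)) ^ j) ^ p :=
        sum_rpow_le _ _ (fun j _ => mul_nonneg (An_nonneg n j) (by positivity)) hp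
    _ ≤ (Real.exp (t ^ (1 / p))) ^ p := by
        apply Real.rpow_le_rpow
        · exact Finset.sum_nonneg fun j _ => mul_nonneg (An_nonneg n j) (by positivity)
        · refine le_trans ?_ (Real.sum_le_exp_of_nonneg h1 (n + 1))
          refine Finset.sum_le_sum fun j _ => ?_
          have := mul_le_mul_of_nonneg_right (An_le n j hn) (show 0 ≤ (t ^ (1 / p)) ^ j by positivity)
          refine this.trans (le_of_eq ?_)
          ring
        · linarith
    _ = Real.exp (p * t ^ (1 / p)) := by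
        rw [← Real.exp_mul, mul_comm]

theorem PV_ge_one {p t : ℝ} (ht : 0 ≤ t) {n : ℕ} : 1 ≤ PV p n t := by
  unfold PV
  have h := Finset.single_le_sum (f := fun j => An n j ^ p * t ^ j)
    (s := Finset.range (n + 1)) (fun j _ => mul_nonneg (Real.rpow_nonneg (An_nonneg n j) _)
      (by positivity)) (Finset.mem_range.mpr (Nat.succ_pos n))
  simpa [An_zero] using h

theorem pow_div_factorial_ge (m : ℕ) (hm : 0 < m) :
    Real.exp (m - 1) / m ≤ (m : ℝ) ^ m / m.factorial := by
  induction m, hm using Nat.le_induction with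
  | base => simp
  | succ m hm ih =>
    have hm' : (0 : ℝ) < m := by exact_mod_cast hm
    have hf : (0 : ℝ) < m.factorial := by exact_mod_cast Nat.factorial_pos m
    have h1 : Real.exp 1 ≤ (1 + 1 / (m : ℝ)) ^ (m + 1) := by
      have h2 : 1 / ((m : ℝ) + 1) ≤ Real.log (1 + 1 / m) := by
        have h3 := Real.one_sub_inv_le_log_of_pos (show 0 < 1 + 1 / (m : ℝ) by positivity)
        refine le_trans (le_of_eq ?_) h3
        field_simp
        ring
      have h4 : 1 ≤ Real.log ((1 + 1 / (m : ℝ)) ^ (m + 1)) := by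
        rw [Real.log_pow]
        push_cast
        have : ((m : ℝ) + 1) * (1 / ((m : ℝ) + 1)) = 1 := by field_simp
        nlinarith
      calc Real.exp 1 ≤ Real.exp (Real.log ((1 + 1 / (m : ℝ)) ^ (m + 1))) :=
            Real.exp_le_exp.mpr h4
        _ = _ := Real.exp_log (by positivity)
    have e1 : (((m + 1 : ℕ) : ℝ)) ^ (m + 1) / (m + 1).factorial =
        ((m : ℝ) ^ m / m.factorial) * (1 + 1 / (m : ℝ)) ^ m := by
      rw [Nat.factorial_succ]
      push_cast
      have : (1 + 1 / (m : ℝ)) ^ m = ((m : ℝ) + 1) ^ m / (m : ℝ) ^ m := by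
        rw [← div_pow]; congr 1; field_simp
      rw [this, pow_succ]
      field_simp
    rw [e1]
    have e2 : Real.exp (((m + 1 : ℕ) : ℝ) - 1) / ((m + 1 : ℕ) : ℝ) =
        (Real.exp (m - 1) / m) * (Real.exp 1 * (m / (m + 1))) := by
      push_cast
      rw [show (m : ℝ) + 1 - 1 = (m - 1) + 1 by ring, Real.exp_add]
      field_simp
    rw [e2]
    apply mul_le_mul ih _ (by positivity) (by positivity)
    rw [pow_succ] at h1
    have h5 : 1 + 1 / (m : ℝ) = (m + 1) / m := by field_simp
    calc Real.exp 1 * (m / (m + 1)) ≤ ((1 + 1 / (m : ℝ)) ^ m * (1 + 1 / (m : ℝ))) * (m / (m + 1)) :=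
          mul_le_mul_of_nonneg_right h1 (by positivity)
      _ = (1 + 1 / (m : ℝ)) ^ m * ((1 + 1 / (m : ℝ)) * (m / (m + 1))) := by ring
      _ = (1 + 1 / (m : ℝ)) ^ m := by rw [h5]; field_simp

theorem PV_ge {p τ : ℝ} (hp : 1 ≤ p) (hτ : 1 ≤ τ) {n : ℕ} (hn : 2 * τ ^ 2 ≤ n) :
    p * (τ - 3 - Real.log τ) ≤ Real.log (PV p n (τ ^ p)) := by
  set j := ⌊τ⌋₊ with hj
  have hτ0 : 0 < τ := by linarith
  have hj1 : 1 ≤ j := Nat.one_le_floor_iff _ |>.mpr hτ
  have hjτ : (j : ℝ) ≤ τ := Nat.floor_le hτ0.le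
  have hτj : τ < j + 1 := Nat.lt_floor_add_one τ
  have hj0 : (0 : ℝ) < j := by exact_mod_cast hj1
  have hnR : (0 : ℝ) < n := by nlinarith
  have hn0 : 0 < n := by exact_mod_cast hnR
  have hjn : (j : ℝ) ≤ n := by nlinarith
  have hjn' : j ≤ n := by exact_mod_cast hjn
  have hf : (0 : ℝ) < j.factorial := by exact_mod_cast Nat.factorial_pos j
  have hA : 1 / 2 / (j.factorial : ℝ) ≤ An n j := by
    refine le_trans ?_ (An_ge n j hn0)
    apply div_le_div_of_nonneg_right _ hf.le
    have : (j : ℝ) ^ 2 / n ≤ 1 / 2 := by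
      rw [div_le_iff₀ hnR]; nlinarith
    linarith
  have hroot : (τ ^ p) ^ (1 / p) = τ := by
    rw [← Real.rpow_mul hτ0.le, mul_one_div_cancel (by linarith), Real.rpow_one]
  have h1 : (1 / 2 * (Real.exp (τ - 2) / τ)) ^ p ≤ PV p n (τ ^ p) := by
    have h2 : An n j ^ p * (τ ^ p) ^ j ≤ PV p n (τ ^ p) :=
      Finset.single_le_sum (f := fun j => An n j ^ p * (τ ^ p) ^ j)
        (fun i _ => mul_nonneg (Real.rpow_nonneg (An_nonneg n i) _)
          (pow_nonneg (Real.rpow_nonneg hτ0.le _) _)) (Finset.mem_range.mpr (by omega))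
    refine le_trans ?_ h2
    rw [term_eq hp (Real.rpow_nonneg hτ0.le _), hroot]
    apply Real.rpow_le_rpow (by positivity) _ (by linarith)
    have h3 := pow_div_factorial_ge j hj1
    have h4 : Real.exp (τ - 2) / τ ≤ Real.exp (j - 1) / j := by
      apply div_le_div₀ (Real.exp_pos _).le _ hj0 hjτ
      exact Real.exp_le_exp.mpr (by linarith)
    have h5 : (j : ℝ) ^ j ≤ τ ^ j := pow_le_pow_left₀ hj0.le hjτ j
    calc 1 / 2 * (Real.exp (τ - 2) / τ) ≤ 1 / 2 * ((j : ℝ) ^ j / j.factorial) := by linarith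
      _ = 1 / 2 / j.factorial * (j : ℝ) ^ j := by ring
      _ ≤ An n j * τ ^ j := mul_le_mul hA h5 (by positivity) (An_nonneg n j)
  have h6 := Real.log_le_log (by positivity) h1
  rw [Real.log_rpow (by positivity), Real.log_mul (by norm_num) (by positivity),
    Real.log_div (Real.exp_pos _).ne' hτ0.ne', Real.log_exp] at h6
  refine le_trans ?_ h6
  apply mul_le_mul_of_nonneg_left _ (by linarith)
  have h7 : -1 ≤ Real.log (1 / 2) := by
    have := Real.one_sub_inv_le_log_of_pos (show (0 : ℝ) < 1 / 2 by norm_num)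
    norm_num at this ⊢
    linarith
  linarith

end Pool.Agent.Lib.MP_f91407_an
end
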