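import Pool.Agent.Lib.MP_f91407_an.Mg.G029

section

/-!
# Three lines theorem for products `∏ (1 + ω z)`
-/

namespace Pool.Agent.Lib.MP_f91407_an

open Complex

theorem norm_one_add_ge {ρ v : ℝ} :
    Real.cos (v / 2) ^ 2 * (1 + ρ) ^ 2 ≤ ‖(1 : ℂ) + ρ * exp (v * I)‖ ^ 2 := by
  rw [← normSq_eq_norm_sq, normSq_apply]
  have e1 : ((1 : ℂ) + ρ * exp (v * I)).re = 1 + ρ * Real.cos v := by
    simp [exp_ofReal_mul_I_re]
  have e2 : ((1 : ℂ) + ρ * exp (v * I)).im = ρ * Real.sin v := by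
    simp [exp_ofReal_mul_I_im]
  rw [e1, e2]
  have h1 : Real.cos v = 2 * Real.cos (v / 2) ^ 2 - 1 := by
    rw [← Real.cos_two_mul]; congr 1; ring
  have h2 := Real.sin_sq_add_cos_sq v
  have h3 : Real.cos (v / 2) ^ 2 ≤ 1 := Real.cos_sq_le_one _
  have e3 : (1 + ρ * Real.cos v) * (1 + ρ * Real.cos v) + ρ * Real.sin v * (ρ * Real.sin v) =
      1 + 2 * ρ * Real.cos v + ρ ^ 2 := by nlinarith
  rw [e3, h1]
  nlinarith [mul_nonneg (sub_nonneg.mpr h3) (sq_nonneg (1 - ρ))]

theorem norm_one_add_ge' {ρ v κ : ℝ} (hρ : 0 ≤ ρ) (hκ : 0 < κ) (h : κ ≤ Real.cos (v / 2)) :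
    κ * (1 + ρ) ≤ ‖(1 : ℂ) + ρ * exp (v * I)‖ := by
  apply le_of_sq_le_sq _ (norm_nonneg _)
  refine le_trans ?_ norm_one_add_ge
  rw [mul_pow]
  apply mul_le_mul_of_nonneg_right _ (by positivity)
  exact pow_le_pow_left₀ hκ.le h 2

theorem mem_slit {ρ v : ℝ} (hρ : 0 ≤ ρ) (hv : |v| < Real.pi) :
    (1 : ℂ) + ρ * exp (v * I) ∈ slitPlane := by
  rw [mem_slitPlane_iff]
  have e1 : ((1 : ℂ) + ρ * exp (v * I)).re = 1 + ρ * Real.cos v := by
    simp [exp_ofReal_mul_I_re]
  have e2 : ((1 : ℂ) + ρ * exp (v * I)).im = ρ * Real.sin v := by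
    simp [exp_ofReal_mul_I_im]
  rw [e1, e2]
  by_cases h : ρ * Real.sin v = 0
  · left
    rcases mul_eq_zero.mp h with h | h
    · rw [h]; simp
    · have hv0 : v = 0 := by
        rw [abs_lt] at hv
        exact (Real.sin_eq_zero_iff_of_lt_of_lt hv.1 hv.2).mp h
      rw [hv0, Real.cos_zero]; linarith
  · right; exact h

theorem norm_log_le {ρ v κ : ℝ} (hρ : 0 ≤ ρ) (hv : |v| < Real.pi) (hκ : 0 < κ)
    (h : κ ≤ Real.cos (v / 2)) :
    ‖log ((1 : ℂ) + ρ * exp (v * I))‖ ≤ Real.log (1 + ρ) / κ := by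
  have hd : ∀ x : ℝ, 0 ≤ x → HasDerivAt (fun s : ℝ => log ((1 : ℂ) + s * exp (v * I)))
      (exp (v * I) / ((1 : ℂ) + x * exp (v * I))) x := by
    intro x hx
    have h1 : HasDerivAt (fun s : ℝ => (1 : ℂ) + (s : ℂ) * exp (v * I)) (exp (v * I)) x := by
      have h2 : HasDerivAt (fun s : ℝ => (s : ℂ)) 1 x := Complex.ofRealCLM.hasDerivAt
      have := (h2.mul_const (exp (v * I))).const_add (1 : ℂ)
      simpa using this
    exact h1.clog_real (mem_slit hx hv)
  have hB : ∀ x : ℝ, 0 ≤ x → HasDerivAt (fun s : ℝ => Real.log (1 + s) / κ)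
      (1 / (1 + x) / κ) x := by
    intro x hx
    have h1 : HasDerivAt (fun s : ℝ => 1 + s) 1 x := by
      simpa using (hasDerivAt_id x).const_add 1
    exact (h1.log (by linarith)).div_const κ
  refine image_norm_le_of_norm_deriv_right_le_deriv_boundary'
    (f := fun s : ℝ => log ((1 : ℂ) + s * exp (v * I)))
    (f' := fun x : ℝ => exp (v * I) / ((1 : ℂ) + x * exp (v * I)))
    (B := fun s : ℝ => Real.log (1 + s) / κ) (B' := fun x => 1 / (1 + x) / κ) (a := 0) (b := ρ)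
    (fun x hx => (hd x hx.1).continuousAt.continuousWithinAt)
    (fun x hx => (hd x hx.1).hasDerivWithinAt) (by simp)
    (fun x hx => (hB x hx.1).continuousAt.continuousWithinAt)
    (fun x hx => (hB x hx.1).hasDerivWithinAt) ?_ (Set.right_mem_Icc.mpr hρ)
  intro x hx
  have h1 := norm_one_add_ge' (v := v) hx.1 hκ h
  have hx1 : 0 < 1 + x := by linarith [hx.1]
  rw [norm_div, norm_exp_ofReal_mul_I, div_div]
  apply div_le_div_of_nonneg_left zero_le_one (by positivity)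
  rw [mul_comm]; exact h1

/-- The logarithm of `∏ (1 + ω e^w)`. -/
noncomputable def LL (s : Multiset ℝ) (w : ℂ) : ℂ :=
  (s.map fun ω : ℝ => log (1 + (ω : ℂ) * exp w)).sum

/-- The logarithm of `∏ (1 + ω e^u)`, `u` real. -/
noncomputable def qq (s : Multiset ℝ) (u : ℝ) : ℝ :=
  (s.map fun ω => Real.log (1 + ω * Real.exp u)).sum

theorem rewrite_exp (ω : ℝ) (w : ℂ) :
    (ω : ℂ) * exp w = ((ω * Real.exp w.re : ℝ) : ℂ) * exp (w.im * I) := by
  conv_lhs => rw [← re_add_im w, exp_add]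
  push_cast
  ring

theorem LL_norm_le (s : Multiset ℝ) (hs : ∀ ω ∈ s, 0 ≤ ω) {w : ℂ} {κ : ℝ}
    (hv : |w.im| < Real.pi) (hκ : 0 < κ) (h : κ ≤ Real.cos (w.im / 2)) :
    ‖LL s w‖ ≤ qq s w.re / κ := by
  induction s using Multiset.induction_on with
  | empty => simp [LL, qq]
  | cons a s ih =>
    have h1 := ih fun ω hω => hs ω (Multiset.mem_cons_of_mem hω)
    have ha := hs a (Multiset.mem_cons_self a s)
    simp only [LL, qq, Multiset.map_cons, Multiset.sum_cons] at h1 ⊢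
    refine (norm_add_le _ _).trans ?_
    rw [add_div]
    apply add_le_add _ h1
    rw [rewrite_exp]
    exact norm_log_le (mul_nonneg ha (Real.exp_pos _).le) hv hκ h

theorem LL_ofReal (s : Multiset ℝ) (hs : ∀ ω ∈ s, 0 ≤ ω) (u : ℝ) :
    LL s u = (qq s u : ℂ) := by
  induction s using Multiset.induction_on with
  | empty => simp [LL, qq]
  | cons a s ih =>
    have h1 := ih fun ω hω => hs ω (Multiset.mem_cons_of_mem hω)
    have ha := hs a (Multiset.mem_cons_self a s)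
    simp only [LL, qq, Multiset.map_cons, Multiset.sum_cons] at h1 ⊢
    rw [h1, ofReal_add]
    congr 1
    rw [ofReal_log (by have := Real.exp_pos u; positivity)]
    push_cast
    rfl

theorem LL_differentiableAt (s : Multiset ℝ) (hs : ∀ ω ∈ s, 0 ≤ ω) {w : ℂ}
    (hv : |w.im| < Real.pi) : DifferentiableAt ℂ (LL s) w := by
  induction s using Multiset.induction_on with
  | empty =>
    have : LL 0 = fun _ => 0 := by funext w; simp [LL]
    rw [this]; exact differentiableAt_const _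
  | cons a s ih =>
    have h1 := ih fun ω hω => hs ω (Multiset.mem_cons_of_mem hω)
    have ha := hs a (Multiset.mem_cons_self a s)
    have : LL (a ::ₘ s) = fun w => log (1 + (a : ℂ) * exp w) + LL s w := by
      funext w; simp [LL]
    rw [this]
    apply DifferentiableAt.add _ h1
    apply DifferentiableAt.clog (by fun_prop)
    rw [rewrite_exp]
    exact mem_slit (mul_nonneg ha (Real.exp_pos _).le) hv

theorem three_lines (s : Multiset ℝ) (hs : ∀ ω ∈ s, 0 ≤ ω) {p y U η θ θ₁ : ℝ} (hp : 1 ≤ p)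
    (hy : 0 < y) (hη : 0 < η) (hUη : Real.exp (-U ^ 2) ≤ η) (hU : 0 ≤ U) (hθ : 0 < θ)
    (hθ₁ : θ < θ₁) (hθπ : θ₁ < Real.pi)
    (hup : ∀ u : ℝ, qq s u ≤ p * y * Real.exp (u / p)) (hpos : ∀ u : ℝ, 0 ≤ qq s u)
    (hnear : ∀ u : ℝ, |u| ≤ U → |qq s u / (p * y * Real.exp (u / p)) - 1| ≤ η) :
    (LL s (θ * I)).re ≤ p * y * (Real.cos (θ / p) + η ^ (1 - θ / θ₁) *
      ((1 / Real.cos (θ₁ / 2) + 1) * Real.exp (θ₁ ^ 2)) ^ (θ / θ₁)) := by
  have hθ₁0 : 0 < θ₁ := by linarith
  set κ := Real.cos (θ₁ / 2) with hκdef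
  have hκ : 0 < κ := Real.cos_pos_of_mem_Ioo ⟨by linarith [Real.pi_pos], by linarith⟩
  have hp0 : 0 < p := by linarith
  set N : ℂ → ℂ := fun w => LL s w / (p * y) * exp (-w / p) - 1 with hN
  -- bounds for N
  have hNb : ∀ w : ℂ, |w.im| ≤ θ₁ → ‖N w‖ ≤ 1 / κ + 1 := by
    intro w hw
    have hκw : κ ≤ Real.cos (w.im / 2) := by
      rw [← Real.cos_abs (w.im / 2)]
      apply Real.cos_le_cos_of_nonneg_of_le_pi (abs_nonneg _) (by linarith [Real.pi_pos])
      rw [abs_div, abs_two]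
      linarith
    have h1 := LL_norm_le s hs (w := w) (by linarith) hκ hκw
    have h2 : ‖LL s w / (p * y) * exp (-w / p)‖ ≤ 1 / κ := by
      rw [norm_mul, norm_div, norm_exp, norm_mul]
      have e1 : (-w / p : ℂ).re = -(w.re / p) := by
        rw [div_ofReal_re]; simp [neg_div]
      rw [e1, norm_real, norm_real, Real.norm_of_nonneg hp0.le, Real.norm_of_nonneg hy.le]
      have h3 : ‖LL s w‖ ≤ p * y * Real.exp (w.re / p) / κ :=
        h1.trans (div_le_div_of_nonneg_right (hup _) hκ.le)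
      rw [div_mul_eq_mul_div, div_le_iff₀ (by positivity)]
      calc ‖LL s w‖ * Real.exp (-(w.re / p)) ≤
          (p * y * Real.exp (w.re / p) / κ) * Real.exp (-(w.re / p)) :=
            mul_le_mul_of_nonneg_right h3 (Real.exp_pos _).le
        _ = p * y / κ * (Real.exp (w.re / p) * Real.exp (-(w.re / p))) := by ring
        _ = 1 / κ * (p * y) := by rw [← Real.exp_add, add_neg_cancel, Real.exp_zero]; ring
    calc ‖N w‖ ≤ ‖LL s w / (p * y) * exp (-w / p)‖ + ‖(1 : ℂ)‖ := norm_sub_le _ _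
      _ ≤ 1 / κ + 1 := by rw [norm_one]; linarith
  have hNr : ∀ u : ℝ, N u = ((qq s u / (p * y * Real.exp (u / p)) - 1 : ℝ) : ℂ) := by
    intro u
    simp only [hN]
    rw [LL_ofReal s hs u]
    push_cast
    rw [neg_div, exp_neg]
    field_simp
  -- the auxiliary function
  set F : ℂ → ℂ := fun ζ => N (I * θ₁ * ζ) * exp (θ₁ ^ 2 * ζ ^ 2) with hF
  have him : ∀ ζ : ℂ, (I * θ₁ * ζ).im = θ₁ * ζ.re := by intro ζ; simp
  have hre : ∀ ζ : ℂ, (I * θ₁ * ζ).re = -(θ₁ * ζ.im) := by intro ζ; simp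
  have hexp : ∀ ζ : ℂ, ‖exp ((θ₁ : ℂ) ^ 2 * ζ ^ 2)‖ =
      Real.exp (θ₁ ^ 2 * (ζ.re ^ 2 - ζ.im ^ 2)) := by
    intro ζ
    rw [norm_exp]
    congr 1
    rw [← ofReal_pow, re_ofReal_mul, pow_two ζ, mul_re]
    ring
  set B := (1 / κ + 1) * Real.exp (θ₁ ^ 2) with hB
  have hB0 : 0 < B := by positivity
  have hFb : ∀ ζ : ℂ, 0 ≤ ζ.re → ζ.re ≤ 1 → ‖F ζ‖ ≤ B := by
    intro ζ h0 h1
    simp only [hF]
    rw [norm_mul, hexp]
    apply mul_le_mul _ _ (Real.exp_pos _).le (by positivity)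
    · apply hNb
      rw [him, abs_of_nonneg (by positivity)]
      nlinarith
    · apply Real.exp_le_exp.mpr
      have : ζ.re ^ 2 - ζ.im ^ 2 ≤ 1 := by nlinarith [sq_nonneg ζ.im]
      nlinarith [sq_nonneg θ₁]
  have hstrip : closure (HadamardThreeLines.verticalStrip 0 1) =
      HadamardThreeLines.verticalClosedStrip 0 1 := by
    rw [HadamardThreeLines.verticalStrip, HadamardThreeLines.verticalClosedStrip,
      ← closure_Ioo zero_ne_one, ← closure_preimage_re]
  have hdiff : DiffContOnCl ℂ F (HadamardThreeLines.verticalStrip 0 1) := by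
    apply DifferentiableOn.diffContOnCl
    rw [hstrip]
    intro ζ hζ
    have hζ' : 0 ≤ ζ.re ∧ ζ.re ≤ 1 := hζ
    apply DifferentiableAt.differentiableWithinAt
    have h1 : DifferentiableAt ℂ (LL s) (I * θ₁ * ζ) := by
      apply LL_differentiableAt s hs
      rw [him, abs_of_nonneg (mul_nonneg hθ₁0.le hζ'.1)]
      nlinarith
    have h2 : DifferentiableAt ℂ N (I * θ₁ * ζ) := by
      simp only [hN]
      apply DifferentiableAt.sub_const
      apply DifferentiableAt.mul (h1.div_const _)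
      fun_prop
    have h3 : DifferentiableAt ℂ (fun ζ : ℂ => N (I * θ₁ * ζ)) ζ :=
      DifferentiableAt.comp (f := fun ζ : ℂ => I * θ₁ * ζ) ζ h2 (by fun_prop)
    exact h3.mul (by fun_prop)
  have hbdd : BddAbove ((norm ∘ F) '' HadamardThreeLines.verticalClosedStrip 0 1) := by
    refine ⟨B, ?_⟩
    rintro _ ⟨ζ, hζ, rfl⟩
    exact hFb ζ hζ.1 hζ.2
  have h0 : ∀ ζ ∈ re ⁻¹' {0}, ‖F ζ‖ ≤ η := by
    intro ζ hζ
    have hζ0 : ζ.re = 0 := hζ
    set u : ℝ := -(θ₁ * ζ.im) with hu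
    have e1 : I * θ₁ * ζ = (u : ℂ) := by
      apply Complex.ext
      · rw [hre, ofReal_re]
      · rw [him, ofReal_im, hζ0, mul_zero]
    simp only [hF]
    rw [norm_mul, hexp, e1, hNr, norm_real, hζ0]
    have e2 : θ₁ ^ 2 * (0 ^ 2 - ζ.im ^ 2) = -u ^ 2 := by rw [hu]; ring
    rw [e2]
    rcases le_or_gt |u| U with h | h
    · calc ‖qq s u / (p * y * Real.exp (u / p)) - 1‖ * Real.exp (-u ^ 2) ≤ η * 1 := by
            apply mul_le_mul (hnear u h) _ (Real.exp_pos _).le hη.le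
            rw [← Real.exp_zero]; exact Real.exp_le_exp.mpr (by nlinarith [sq_nonneg u])
        _ = η := mul_one η
    · calc ‖qq s u / (p * y * Real.exp (u / p)) - 1‖ * Real.exp (-u ^ 2) ≤ 1 * η := by
            apply mul_le_mul _ _ (Real.exp_pos _).le zero_le_one
            · rw [Real.norm_eq_abs, abs_le]
              have hq := hpos u
              have hq2 := hup u
              have hd : 0 < p * y * Real.exp (u / p) := by positivity
              have h3 : 0 ≤ qq s u / (p * y * Real.exp (u / p)) := by positivity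
              have h4 : qq s u / (p * y * Real.exp (u / p)) ≤ 1 := by
                rw [div_le_one hd]; exact hq2
              constructor <;> linarith
            · refine le_trans (Real.exp_le_exp.mpr ?_) hUη
              have : U ^ 2 ≤ |u| ^ 2 := pow_le_pow_left₀ hU h.le 2
              rw [sq_abs] at this
              linarith
        _ = η := one_mul η
  have h1 : ∀ ζ ∈ re ⁻¹' {1}, ‖F ζ‖ ≤ B := by
    intro ζ hζ
    have hζ1 : ζ.re = 1 := hζ
    exact hFb ζ (by rw [hζ1]; norm_num) hζ1.le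
  have hθθ : θ / θ₁ ≤ 1 := by rw [div_le_one hθ₁0]; exact hθ₁.le
  have key := HadamardThreeLines.norm_le_interp_of_mem_verticalClosedStrip₀₁' F
    (z := ((θ / θ₁ : ℝ) : ℂ)) (a := η) (b := B)
    (show ((θ / θ₁ : ℝ) : ℂ) ∈ HadamardThreeLines.verticalClosedStrip 0 1 from
      ⟨by rw [ofReal_re]; positivity, by rw [ofReal_re]; exact hθθ⟩) hdiff hbdd h0 h1
  rw [ofReal_re] at key
  have e3 : I * θ₁ * ((θ / θ₁ : ℝ) : ℂ) = θ * I := by
    push_cast
    have : (θ₁ : ℂ) ≠ 0 := by exact_mod_cast hθ₁0.ne'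
    field_simp
  simp only [hF] at key
  rw [e3, norm_mul, hexp, ofReal_re, ofReal_im] at key
  have e4 : 1 ≤ Real.exp (θ₁ ^ 2 * ((θ / θ₁) ^ 2 - 0 ^ 2)) := by
    rw [← Real.exp_zero]
    apply Real.exp_le_exp.mpr
    have : (0 : ℝ) ≤ (θ / θ₁) ^ 2 - 0 ^ 2 := by nlinarith [sq_nonneg (θ / θ₁)]
    positivity
  have hNθ : ‖N (θ * I)‖ ≤ η ^ (1 - θ / θ₁) * B ^ (θ / θ₁) := by
    refine le_trans ?_ key
    exact le_mul_of_one_le_right (norm_nonneg _) e4
  -- conclude
  have e5 : LL s (θ * I) = p * y * (exp (θ * I / p) * (N (θ * I) + 1)) := by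
    simp only [hN]
    rw [sub_add_cancel]
    have hp' : (p : ℂ) ≠ 0 := by exact_mod_cast hp0.ne'
    have hy' : (y : ℂ) ≠ 0 := by exact_mod_cast hy.ne'
    have h6 : exp (θ * I / p) * (LL s (θ * I) / (p * y) * exp (-(θ * I) / p)) =
        LL s (θ * I) / (p * y) * (exp (θ * I / p) * exp (-(θ * I) / p)) := by ring
    rw [h6, ← exp_add, neg_div, add_neg_cancel, exp_zero]
    field_simp
  rw [e5, ← ofReal_mul, re_ofReal_mul]
  apply mul_le_mul_of_nonneg_left _ (by positivity)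
  rw [mul_add, mul_one, add_re, add_comm]
  have e6 : (θ * I / p : ℂ) = ((θ / p : ℝ) : ℂ) * I := by push_cast; ring
  rw [e6, exp_ofReal_mul_I_re]
  have h7 : (exp (((θ / p : ℝ) : ℂ) * I) * N (θ * I)).re ≤ ‖N (θ * I)‖ := by
    refine (re_le_norm _).trans ?_
    rw [norm_mul, norm_exp_ofReal_mul_I, one_mul]
  linarith

theorem abs_prod_le (s : Multiset ℝ) (hs : ∀ ω ∈ s, 0 ≤ ω) {θ : ℝ} (hθ : |θ| < Real.pi) :
    |(s.map fun ω => 1 - ω).prod| ≤ Real.exp (LL s (θ * I)).re := by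
  induction s using Multiset.induction_on with
  | empty => simp [LL]
  | cons a s ih =>
    have h1 := ih fun ω hω => hs ω (Multiset.mem_cons_of_mem hω)
    have ha := hs a (Multiset.mem_cons_self a s)
    simp only [LL, Multiset.map_cons, Multiset.sum_cons, Multiset.prod_cons] at h1 ⊢
    rw [abs_mul, add_re, Real.exp_add]
    apply mul_le_mul _ h1 (abs_nonneg _) (Real.exp_pos _).le
    have hne : (1 : ℂ) + a * exp (θ * I) ≠ 0 := slitPlane_ne_zero (mem_slit ha hθ)
    rw [log_re, Real.exp_log (norm_pos_iff.mpr hne)]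
    apply abs_le_of_sq_le_sq' _ (norm_nonneg _) |> abs_le.mpr
    rw [← normSq_eq_norm_sq, normSq_apply]
    have e1 : ((1 : ℂ) + a * exp (θ * I)).re = 1 + a * Real.cos θ := by
      simp [exp_ofReal_mul_I_re]
    have e2 : ((1 : ℂ) + a * exp (θ * I)).im = a * Real.sin θ := by
      simp [exp_ofReal_mul_I_im]
    rw [e1, e2]
    have h2 := Real.sin_sq_add_cos_sq θ
    nlinarith [Real.neg_one_le_cos θ, mul_nonneg ha (by linarith [Real.neg_one_le_cos θ] :
      0 ≤ 1 + Real.cos θ)]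

end Pool.Agent.Lib.MP_f91407_an
end

section

/-!
# Exponential decay on the negative axis if `1 < p < 2`
-/

namespace Pool.Agent.Lib.MP_f91407_an

open Polynomial

theorem qq_eq_log (s : Multiset ℝ) (hs : ∀ ω ∈ s, 0 ≤ ω) (u : ℝ) :
    qq s u = Real.log (s.map fun ω => 1 + ω * Real.exp u).prod ∧
      0 < (s.map fun ω => 1 + ω * Real.exp u).prod := by
  induction s using Multiset.induction_on with
  | empty => simp [qq]
  | cons a s ih =>
    have h1 := ih fun ω hω => hs ω (Multiset.mem_cons_of_mem hω)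
    have ha := hs a (Multiset.mem_cons_self a s)
    have h2 : 0 < 1 + a * Real.exp u := by have := Real.exp_pos u; positivity
    constructor
    · rw [Multiset.map_cons, Multiset.prod_cons, Real.log_mul h2.ne' h1.2.ne', ← h1.1]
      simp [qq]
    · rw [Multiset.map_cons, Multiset.prod_cons]
      exact mul_pos h2 h1.2

theorem decay {p : ℝ} (hp1 : 1 < p) (hp2 : p < 2)
    (hRR : ∀ n : ℕ, 0 < n → RRn n fun j => An n j ^ p) :
    ∃ c X : ℝ, 0 < c ∧ 1 ≤ X ∧ ∀ x, X ≤ x → ∃ n0 : ℕ, ∀ n, n0 ≤ n →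
      |∑ j ∈ Finset.range (n + 1), An n j ^ p * (-x) ^ j| ≤ Real.exp (-c * x ^ (1 / p)) := by
  have hpi := Real.pi_pos
  have hp0 : 0 < p := by linarith
  set θ := (p * Real.pi / 2 + Real.pi) / 2 with hθdef
  have hθ0 : 0 < θ := by positivity
  have hθπ : θ < Real.pi := by rw [hθdef]; nlinarith
  set θ₁ := (θ + Real.pi) / 2 with hθ₁def
  have hθθ₁ : θ < θ₁ := by rw [hθ₁def]; linarith
  have hθ₁π : θ₁ < Real.pi := by rw [hθ₁def]; linarith
  have hθ₁0 : 0 < θ₁ := by linarith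
  have hθp1 : Real.pi / 2 < θ / p := by
    rw [lt_div_iff₀ hp0, hθdef]; nlinarith
  have hθp2 : θ / p < Real.pi := by
    rw [div_lt_iff₀ hp0]; nlinarith
  have hcos : Real.cos (θ / p) < 0 :=
    Real.cos_neg_of_pi_div_two_lt_of_lt hθp1 (by linarith)
  set c1 := -Real.cos (θ / p) with hc1
  have hc1pos : 0 < c1 := by rw [hc1]; linarith
  set B := (1 / Real.cos (θ₁ / 2) + 1) * Real.exp (θ₁ ^ 2) with hB
  have hcos1 : 0 < Real.cos (θ₁ / 2) := Real.cos_pos_of_mem_Ioo ⟨by linarith, by linarith⟩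
  have hB0 : 0 < B := by positivity
  set α := 1 - θ / θ₁ with hα
  have hα0 : 0 < α := by
    rw [hα, sub_pos, div_lt_one hθ₁0]; exact hθθ₁
  have hlim : Filter.Tendsto (fun η : ℝ => η ^ α * B ^ (θ / θ₁)) (nhds 0) (nhds 0) := by
    have h1 : Filter.Tendsto (fun η : ℝ => η ^ α) (nhds 0) (nhds (0 ^ α)) :=
      (Real.continuousAt_rpow_const 0 α (Or.inr hα0.le)).tendsto
    rw [Real.zero_rpow hα0.ne'] at h1
    simpa using h1.mul_const (B ^ (θ / θ₁))
  have hex : ∃ η : ℝ, 0 < η ∧ η ^ α * B ^ (θ / θ₁) < c1 / 2 := by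
    have h1 := hlim.eventually (gt_mem_nhds (show (0 : ℝ) < c1 / 2 by positivity))
    have h2 := h1.filter_mono (nhdsWithin_le_nhds (s := Set.Ioi 0))
    have h3 : ∀ᶠ η : ℝ in nhdsWithin 0 (Set.Ioi 0), 0 < η := self_mem_nhdsWithin
    obtain ⟨η, hη1, hη2⟩ := (h2.and h3).exists
    exact ⟨η, hη2, hη1⟩
  obtain ⟨η, hη0, hη⟩ := hex
  have hexU : ∃ U : ℝ, 0 ≤ U ∧ Real.exp (-U ^ 2) ≤ η := by
    refine ⟨Real.sqrt |Real.log η|, Real.sqrt_nonneg _, ?_⟩
    rw [Real.sq_sqrt (abs_nonneg _)]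
    calc Real.exp (-|Real.log η|) ≤ Real.exp (Real.log η) :=
          Real.exp_le_exp.mpr (by linarith [neg_abs_le (Real.log η)])
      _ = η := Real.exp_log hη0
  obtain ⟨U, hU0, hU⟩ := hexU
  have hT : ∃ T : ℝ, 1 ≤ T ∧ ∀ τ, T ≤ τ → (3 + Real.log τ) / τ ≤ η := by
    have h1 : Filter.Tendsto (fun τ : ℝ => 3 / τ + Real.log τ / τ) Filter.atTop (nhds (0 + 0)) := by
      apply Filter.Tendsto.add
      · exact tendsto_const_nhds.div_atTop Filter.tendsto_id
      · have := Real.tendsto_pow_log_div_mul_add_atTop 1 0 1 one_ne_zero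
        simpa using this
    rw [add_zero] at h1
    obtain ⟨T, hT⟩ := Filter.eventually_atTop.mp (h1.eventually (gt_mem_nhds hη0))
    refine ⟨max T 1, le_max_right _ _, fun τ hτ => ?_⟩
    have := hT τ ((le_max_left _ _).trans hτ)
    rw [add_div]; exact this.le
  obtain ⟨T, hT1, hT⟩ := hT
  -- the threshold for `x`
  refine ⟨p * c1 / 2, max 1 ((T * Real.exp (U / p)) ^ p), by positivity, le_max_left _ _, ?_⟩
  intro x hx
  have hx1 : 1 ≤ x := (le_max_left _ _).trans hx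
  have hx0 : 0 < x := by linarith
  set y := x ^ (1 / p) with hy
  have hy0 : 0 < y := Real.rpow_pos_of_pos hx0 _
  have hyp : y ^ p = x := by
    rw [hy, ← Real.rpow_mul hx0.le, one_div_mul_cancel hp0.ne', Real.rpow_one]
  have hyT : T * Real.exp (U / p) ≤ y := by
    have h1 : (T * Real.exp (U / p)) ^ p ≤ y ^ p := by
      rw [hyp]; exact (le_max_right _ _).trans hx
    exact (Real.rpow_le_rpow_iff (by positivity) hy0.le hp0).mp h1
  obtain ⟨n0, hn0⟩ := exists_nat_ge (2 * (y * Real.exp (U / p)) ^ 2)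
  refine ⟨max n0 1, fun n hn => ?_⟩
  have hnn0 : (n0 : ℝ) ≤ n := by exact_mod_cast (le_max_left _ _).trans hn
  have hn1 : 0 < n := lt_of_lt_of_le one_pos ((le_max_right _ _).trans hn)
  -- factorisation
  set a : ℕ → ℝ := fun j => An n j ^ p with ha
  have ha0 : ∀ j, 0 ≤ a j := fun j => Real.rpow_nonneg (An_nonneg n j) _
  have hPnn : ∀ i, 0 ≤ (poly n a).coeff i := by
    intro i; rw [coeff_poly]; split_ifs
    · exact ha0 i
    · exact le_rfl
  have hPr : ∀ z : ℂ, aeval z (poly n a) = 0 → z.im = 0 := by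
    intro z hz; rw [aeval_poly] at hz; exact hRR n hn1 z hz
  have hP0 : (poly n a).coeff 0 = 1 := by
    rw [coeff_poly]; simp [ha, An_zero]
  obtain ⟨s, hs, hP⟩ := exists_factor_one (poly n a) hPnn hPr hP0
  have heval : ∀ t : ℝ, ∑ j ∈ Finset.range (n + 1), a j * t ^ j =
      (s.map fun ω => 1 + ω * t).prod := by
    intro t
    rw [← eval_poly, hP, eval_multiset_prod, Multiset.map_map]
    congr 2
    funext ω
    simp
  set s' := s.map fun ω => ω * x with hs'def
  have hs' : ∀ ω ∈ s', 0 ≤ ω := by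
    intro ω hω
    obtain ⟨r, hr1, rfl⟩ := Multiset.mem_map.mp hω
    exact mul_nonneg (hs r hr1).le hx0.le
  have hq : ∀ u : ℝ, qq s' u = Real.log (PV p n (x * Real.exp u)) := by
    intro u
    rw [(qq_eq_log s' hs' u).1, hs'def, Multiset.map_map, PV, heval]
    congr 3
    funext ω
    simp only [Function.comp_apply]
    ring
  have hroot : ∀ u : ℝ, (x * Real.exp u) ^ (1 / p) = y * Real.exp (u / p) := by
    intro u
    rw [Real.mul_rpow hx0.le (Real.exp_pos u).le, ← Real.exp_mul]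
    congr 2
    ring
  have hup : ∀ u : ℝ, qq s' u ≤ p * y * Real.exp (u / p) := by
    intro u
    rw [hq]
    have hxe : 0 ≤ x * Real.exp u := by positivity
    have h1 := PV_le hp1.le hxe hn1
    have h2 := PV_ge_one (p := p) (n := n) hxe
    have h3 := Real.log_le_log (by linarith) h1
    rw [Real.log_exp, hroot] at h3
    linarith
  have hpos : ∀ u : ℝ, 0 ≤ qq s' u := by
    intro u
    rw [hq]
    exact Real.log_nonneg (PV_ge_one (by positivity))
  have hnear : ∀ u : ℝ, |u| ≤ U → |qq s' u / (p * y * Real.exp (u / p)) - 1| ≤ η := by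
    intro u hu
    rw [abs_le] at hu
    set τ := y * Real.exp (u / p) with hτ
    have hτp : τ ^ p = x * Real.exp u := by
      rw [hτ, Real.mul_rpow hy0.le (Real.exp_pos _).le, hyp, ← Real.exp_mul,
        div_mul_cancel₀ _ hp0.ne']
    have hτT : T ≤ τ := by
      have h1 : T * Real.exp (U / p) * Real.exp (u / p) ≤ τ :=
        mul_le_mul_of_nonneg_right hyT (Real.exp_pos _).le
      rw [mul_assoc, ← Real.exp_add] at h1
      have h2 : 1 ≤ Real.exp (U / p + u / p) := by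
        rw [← Real.exp_zero]; apply Real.exp_le_exp.mpr
        rw [← add_div]; apply div_nonneg _ hp0.le; linarith
      nlinarith
    have hτ1 : 1 ≤ τ := hT1.trans hτT
    have hτU : τ ≤ y * Real.exp (U / p) := by
      apply mul_le_mul_of_nonneg_left _ hy0.le
      apply Real.exp_le_exp.mpr
      exact div_le_div_of_nonneg_right hu.2 hp0.le
    have hn2 : 2 * τ ^ 2 ≤ n := by
      have : τ ^ 2 ≤ (y * Real.exp (U / p)) ^ 2 := pow_le_pow_left₀ (by linarith) hτU 2
      linarith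
    have h1 := PV_ge hp1.le hτ1 hn2
    rw [hτp, ← hq] at h1
    have h2 := hup u
    have hden : 0 < p * y * Real.exp (u / p) := by positivity
    have e1 : p * y * Real.exp (u / p) = p * τ := by rw [hτ]; ring
    rw [e1] at h2 hden ⊢
    have h3 := hT τ hτT
    have hτ0 : 0 < τ := by linarith
    rw [div_le_iff₀ hτ0] at h3
    rw [abs_le]
    constructor
    · rw [neg_le_sub_iff_le_add, ← sub_le_iff_le_add, le_div_iff₀ hden]
      nlinarith
    · have : qq s' u / (p * τ) ≤ 1 := by rw [div_le_one hden]; exact h2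
      linarith
  have key := three_lines s' hs' hp1.le hy0 hη0 hU hU0 hθ0 hθθ₁ hθ₁π hup hpos hnear
  have h1 := abs_prod_le s' hs' (θ := θ) (by rw [abs_of_pos hθ0]; exact hθπ)
  have h2 : (s'.map fun ω => 1 - ω).prod = ∑ j ∈ Finset.range (n + 1), An n j ^ p * (-x) ^ j := by
    rw [heval, hs'def, Multiset.map_map]
    congr 2
    funext ω
    simp only [Function.comp_apply]
    ring
  rw [← h2]
  refine h1.trans (Real.exp_le_exp.mpr ?_)
  refine key.trans ?_
  have h3 : Real.cos (θ / p) = -c1 := by rw [hc1]; ring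
  rw [h3]
  have h4 : -c1 + η ^ α * B ^ (θ / θ₁) ≤ -(c1 / 2) := by linarith
  calc p * y * (-c1 + η ^ α * B ^ (θ / θ₁)) ≤ p * y * (-(c1 / 2)) :=
        mul_le_mul_of_nonneg_left h4 (by positivity)
    _ = -(p * c1 / 2) * y := by ring

end Pool.Agent.Lib.MP_f91407_an
end
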